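import Mathlib

/-!
# Piece ABEL: product approximation (pure real lemma)

`s ≤ 0`. Put `Π i = ∏_{j<i} (1 - x_j s)/(1 - y_j s)` and `Θ_i = (1 - x_i s) Π_i = (1 - y_i s) Π_{i+1} > 0`
(`i < N`). From the identity `A_{i+1}/Π_{i+1} = A_i/Π_i + (E_i - E_{i+1})/Θ_i`, so
`A_N/Π_N - 1 = ∑_{i<N} (E_i - E_{i+1})/Θ_i`. `Θ_{i+1}/Θ_i = (1 - x_{i+1} s)/(1 - y_i s) ≤ 1` because
`x_{i+1} ≤ y_i`, `s ≤ 0`: so `1/Θ` is increasing. Abel summation with `E_0 = 0`, `0 ≤ E ≤ e`:
`-e/Θ_{N-1} ≤ A_N/Π_N - 1 ≤ e/Θ_{N-1}`. Hence `|A_N - Π_N| ≤ e Π_N/Θ_{N-1} = e/(1 - y_{N-1} s) ≤ 2 e`.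
(Induction: prove `A_i ≤ Π_i (1 + e/Θ_{i-1}) - E_i Π_i/Θ_{i-1}`-type bounds:
`1 - E_i/Θ_{i-1} ≤ A_i/Π_i ≤ 1 + (e - E_i)/Θ_{i-1}` for `i ≥ 1`: the step is immediate from
`1/Θ_{i-1} ≤ 1/Θ_i` and `0 ≤ E_i ≤ e`.)
-/

open Finset

namespace Pool.Agent.GroB

theorem abel_bound (N : ℕ) (A E : ℕ → ℝ) (x y : ℕ → ℝ) (s e : ℝ) (hs : s ≤ 0)
    (hA0 : A 0 = 1) (hE0 : E 0 = 0) (hE : ∀ i ≤ N, 0 ≤ E i ∧ E i ≤ e)
    (hid : ∀ i < N, A (i + 1) * (1 - y i * s) + E (i + 1) = A i * (1 - x i * s) + E i)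
    (hx : ∀ i < N, 0 < 1 - x i * s) (hxy : ∀ i < N, x i ≤ y i)
    (hyx : ∀ i, i + 1 < N → x (i + 1) ≤ y i) (hhalf : ∀ i < N, 1 / 2 ≤ 1 - y i * s) :
    |A N - ∏ i ∈ range N, (1 - x i * s) / (1 - y i * s)| ≤ 2 * e := by
  have key : ∀ i, i < N →
      (∏ j ∈ range (i + 1), (1 - x j * s) / (1 - y j * s)) - E (i + 1) / (1 - y i * s) ≤ A (i + 1) ∧
      A (i + 1) ≤ (∏ j ∈ range (i + 1), (1 - x j * s) / (1 - y j * s))
        + (e - E (i + 1)) / (1 - y i * s) := by
    intro i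
    induction i with
    | zero =>
      intro hi
      have hb : 0 < 1 - y 0 * s := by linarith [hhalf 0 hi]
      have h1 := hid 0 hi
      rw [hA0, hE0, one_mul, add_zero] at h1
      have h2 : A (0 + 1) = (1 - x 0 * s) / (1 - y 0 * s) - E (0 + 1) / (1 - y 0 * s) := by
        rw [← sub_div, eq_div_iff hb.ne']
        linarith
      have he : 0 ≤ e := (hE 0 (Nat.zero_le _)).1.trans (hE 0 (Nat.zero_le _)).2
      rw [prod_range_one, h2]
      refine ⟨le_refl _, ?_⟩
      have h3 : (e - E (0 + 1)) / (1 - y 0 * s) = e / (1 - y 0 * s) - E (0 + 1) / (1 - y 0 * s) := by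
        rw [sub_div]
      have h4 : 0 ≤ e / (1 - y 0 * s) := div_nonneg he hb.le
      linarith
    | succ i ih =>
      intro hi
      obtain ⟨l1, l2⟩ := ih (by omega)
      have ha : 0 < 1 - x (i + 1) * s := hx _ hi
      have hb : 0 < 1 - y (i + 1) * s := by linarith [hhalf _ hi]
      have hc : 0 < 1 - y i * s := by linarith [hhalf i (by omega)]
      have h1 := hid (i + 1) hi
      have hE1 := hE (i + 1) (by omega)
      have hab : 1 - x (i + 1) * s ≤ 1 - y i * s := by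
        nlinarith [hyx i hi]
      have hr : (1 - x (i + 1) * s) / (1 - y i * s) ≤ 1 := by
        rw [div_le_one hc]
        exact hab
      have hA : A (i + 1 + 1) = (A (i + 1) * (1 - x (i + 1) * s) + E (i + 1) - E (i + 1 + 1))
          / (1 - y (i + 1) * s) := by
        rw [eq_div_iff hb.ne']
        linarith
      rw [prod_range_succ, hA]
      set Pi := ∏ j ∈ range (i + 1), (1 - x j * s) / (1 - y j * s) with hPi
      have e1 : Pi * ((1 - x (i + 1) * s) / (1 - y (i + 1) * s)) - E (i + 1 + 1) / (1 - y (i + 1) * s)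
          = (Pi * (1 - x (i + 1) * s) - E (i + 1 + 1)) / (1 - y (i + 1) * s) := by
        ring
      have e2 : Pi * ((1 - x (i + 1) * s) / (1 - y (i + 1) * s))
          + (e - E (i + 1 + 1)) / (1 - y (i + 1) * s)
          = (Pi * (1 - x (i + 1) * s) + (e - E (i + 1 + 1))) / (1 - y (i + 1) * s) := by
        ring
      rw [e1, e2]
      constructor
      · apply div_le_div_of_nonneg_right _ hb.le
        have h2 : (Pi - E (i + 1) / (1 - y i * s)) * (1 - x (i + 1) * s)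
            ≤ A (i + 1) * (1 - x (i + 1) * s) := mul_le_mul_of_nonneg_right l1 ha.le
        have h3 : E (i + 1) / (1 - y i * s) * (1 - x (i + 1) * s) ≤ E (i + 1) := by
          have : E (i + 1) / (1 - y i * s) * (1 - x (i + 1) * s)
              = E (i + 1) * ((1 - x (i + 1) * s) / (1 - y i * s)) := by ring
          rw [this]
          calc E (i + 1) * ((1 - x (i + 1) * s) / (1 - y i * s)) ≤ E (i + 1) * 1 :=
                mul_le_mul_of_nonneg_left hr hE1.1
            _ = E (i + 1) := mul_one _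
        linarith
      · apply div_le_div_of_nonneg_right _ hb.le
        have h2 : A (i + 1) * (1 - x (i + 1) * s)
            ≤ (Pi + (e - E (i + 1)) / (1 - y i * s)) * (1 - x (i + 1) * s) :=
          mul_le_mul_of_nonneg_right l2 ha.le
        have h3 : (e - E (i + 1)) / (1 - y i * s) * (1 - x (i + 1) * s) ≤ e - E (i + 1) := by
          have : (e - E (i + 1)) / (1 - y i * s) * (1 - x (i + 1) * s)
              = (e - E (i + 1)) * ((1 - x (i + 1) * s) / (1 - y i * s)) := by ring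
          rw [this]
          calc (e - E (i + 1)) * ((1 - x (i + 1) * s) / (1 - y i * s)) ≤ (e - E (i + 1)) * 1 :=
                mul_le_mul_of_nonneg_left hr (by linarith [hE1.2])
            _ = e - E (i + 1) := mul_one _
        linarith
  have he : 0 ≤ e := (hE 0 (Nat.zero_le _)).1.trans (hE 0 (Nat.zero_le _)).2
  rcases Nat.eq_zero_or_pos N with rfl | hN
  · rw [hA0, prod_range_zero, sub_self, abs_zero]
    linarith
  · obtain ⟨M, rfl⟩ : ∃ M, N = M + 1 := ⟨N - 1, by omega⟩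
    obtain ⟨h1, h2⟩ := key M (by omega)
    have hh := hhalf M (by omega)
    have hb : 0 < 1 - y M * s := by linarith
    have hEM := hE (M + 1) le_rfl
    have hd : ∀ z, 0 ≤ z → z ≤ e → z / (1 - y M * s) ≤ 2 * e := by
      intro z hz hz'
      rw [div_le_iff₀ hb]
      nlinarith
    rw [abs_le]
    constructor
    · have := hd _ hEM.1 hEM.2
      linarith
    · have := hd (e - E (M + 1)) (by linarith [hEM.2]) (by linarith [hEM.1])
      linarith

end Pool.Agent.GroB
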