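import Mathlib

/-!
# Piece ABS: abstract covariance bound along a Markov chain

`Y n` state spaces (`ok` states), kernels `κ n l m` (`l` at level `n+1`, `m ∈ S n l` at level `n`),
increments `D n l m`. All functions `R, m, C, m12, H` are harmonic. Put for `l` at level `n`,
`V n l α τ = ∑_{j<n} w_j² (H l + c_j) + 2 (∑_{i<j<n} w_i w_j) m12 l + 2 α W_n m l + α²
   + 2 τ (W_n C l + α R l) + τ²`, `W_n = ∑_{j<n} w_j`.
Claim `V n l α τ ≥ 0` for ok `l`, by induction on `n`: `n = 0`: `α² + 2 τ α R + τ² ≥ 0` as `|R| ≤ 1`;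
step: `V (n+1) l α τ ≥ ∑_m κ(l,m) V n m (α + w_n D(l,m)) τ` (expand; use
`2 ∑_{i<j<n+1} w_i w_j = 2 ∑_{i<j<n} w_i w_j + 2 w_n W_n`).
At the top put `α = - W m - τ R`: `V = A + 2 τ W (C - m R) + τ² (1 - R²)` with
`A = ∑ w_j² (H + c_j) + 2 (∑_{i<j} w_i w_j) m12 - W² m² ≤ ∑ w_j² (H + c_j)` (as `m12 ≤ m²`,
`W² = ∑ w_j² + 2 ∑_{i<j} w_i w_j`). Nonnegative for all `τ`: `(W (C - m R))² ≤ A (1 - R²) ≤ A`
(`A ≥ 0` from `τ = 0`; discriminant: `discrim_le_zero` or choose `τ`).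
It may be convenient to define `P n = ∑_{i<j<n} w_i w_j` recursively: `P (n+1) = P n + w_n W_n`.
-/

open Finset

namespace Pool.Agent.GroB

/-- the quadratic form of the proof -/
noncomputable def abs_cov_absV (w c : ℕ → ℝ) (n : ℕ) (H m12 m C R α τ : ℝ) : ℝ :=
  (∑ j ∈ range n, w j ^ 2) * H + (∑ j ∈ range n, w j ^ 2 * c j) +
    ((∑ j ∈ range n, w j) ^ 2 - ∑ j ∈ range n, w j ^ 2) * m12 +
    2 * α * (∑ j ∈ range n, w j) * m + α ^ 2 +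
    2 * τ * ((∑ j ∈ range n, w j) * C + α * R) + τ ^ 2

theorem abs_cov_absV_nonneg {Y : ℕ → Type*} (ok : ∀ n, Y n → Prop) (S : ∀ n, Y (n + 1) → Finset (Y n))
    (κ D : ∀ n, Y (n + 1) → Y n → ℝ) (R m C m12 H : ∀ n, Y n → ℝ) (c w : ℕ → ℝ)
    (hok : ∀ n l, ok (n + 1) l → ∀ v ∈ S n l, ok n v)
    (hκ0 : ∀ n l, ok (n + 1) l → ∀ v ∈ S n l, 0 ≤ κ n l v)
    (hκ1 : ∀ n l, ok (n + 1) l → ∑ v ∈ S n l, κ n l v = 1)
    (hR : ∀ n l, ok (n + 1) l → ∑ v ∈ S n l, κ n l v * R n v = R (n + 1) l)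
    (hm : ∀ n l, ok (n + 1) l → ∑ v ∈ S n l, κ n l v * m n v = m (n + 1) l)
    (hC : ∀ n l, ok (n + 1) l → ∑ v ∈ S n l, κ n l v * C n v = C (n + 1) l)
    (hm12 : ∀ n l, ok (n + 1) l → ∑ v ∈ S n l, κ n l v * m12 n v = m12 (n + 1) l)
    (hH : ∀ n l, ok (n + 1) l → ∑ v ∈ S n l, κ n l v * H n v = H (n + 1) l)
    (hD : ∀ n l, ok (n + 1) l → ∑ v ∈ S n l, κ n l v * D n l v = m (n + 1) l)
    (hDR : ∀ n l, ok (n + 1) l → ∑ v ∈ S n l, κ n l v * (D n l v * R n v) = C (n + 1) l)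
    (hDm : ∀ n l, ok (n + 1) l → ∑ v ∈ S n l, κ n l v * (D n l v * m n v) = m12 (n + 1) l)
    (hDD : ∀ n l, ok (n + 1) l → ∑ v ∈ S n l, κ n l v * (D n l v) ^ 2 ≤ H (n + 1) l + c n)
    (hR0 : ∀ v, ok 0 v → |R 0 v| ≤ 1) (n : ℕ) :
    ∀ (l : Y n), ok n l → ∀ α τ : ℝ,
      0 ≤ abs_cov_absV w c n (H n l) (m12 n l) (m n l) (C n l) (R n l) α τ := by
  induction n with
  | zero =>
    intro l hl α τ
    have h := hR0 l hl
    rw [abs_le] at h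
    unfold abs_cov_absV
    simp only [range_zero, sum_empty]
    nlinarith [sq_nonneg (α + τ), sq_nonneg (α - τ), mul_nonneg (sub_nonneg.2 h.2) (sq_nonneg (α - τ)),
      mul_nonneg (by linarith : 0 ≤ 1 + R 0 l) (sq_nonneg (α + τ))]
  | succ n ih =>
    intro l hl α τ
    have h0 : 0 ≤ ∑ v ∈ S n l, κ n l v *
        abs_cov_absV w c n (H n v) (m12 n v) (m n v) (C n v) (R n v) (α + w n * D n l v) τ :=
      Finset.sum_nonneg fun v hv => mul_nonneg (hκ0 n l hl v hv) (ih v (hok n l hl v hv) _ _)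
    have h1 : ∑ v ∈ S n l, κ n l v *
        abs_cov_absV w c n (H n v) (m12 n v) (m n v) (C n v) (R n v) (α + w n * D n l v) τ =
        (∑ j ∈ range n, w j ^ 2) * (∑ v ∈ S n l, κ n l v * H n v) +
        ((∑ j ∈ range n, w j ^ 2 * c j) + α ^ 2 + τ ^ 2) * (∑ v ∈ S n l, κ n l v) +
        ((∑ j ∈ range n, w j) ^ 2 - ∑ j ∈ range n, w j ^ 2) * (∑ v ∈ S n l, κ n l v * m12 n v) +
        2 * α * (∑ j ∈ range n, w j) * (∑ v ∈ S n l, κ n l v * m n v) +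
        2 * w n * (∑ j ∈ range n, w j) * (∑ v ∈ S n l, κ n l v * (D n l v * m n v)) +
        2 * α * w n * (∑ v ∈ S n l, κ n l v * D n l v) +
        w n ^ 2 * (∑ v ∈ S n l, κ n l v * (D n l v) ^ 2) +
        2 * τ * (∑ j ∈ range n, w j) * (∑ v ∈ S n l, κ n l v * C n v) +
        2 * τ * α * (∑ v ∈ S n l, κ n l v * R n v) +
        2 * τ * w n * (∑ v ∈ S n l, κ n l v * (D n l v * R n v)) := by
      simp only [abs_cov_absV, mul_sum (S n l), ← sum_add_distrib]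
      apply sum_congr rfl
      intro v _
      ring
    rw [h1, hκ1 n l hl, hR n l hl, hm n l hl, hC n l hl, hm12 n l hl, hH n l hl, hD n l hl, hDR n l hl,
      hDm n l hl] at h0
    have h2 := mul_le_mul_of_nonneg_left (hDD n l hl) (sq_nonneg (w n))
    unfold abs_cov_absV
    rw [sum_range_succ, sum_range_succ, sum_range_succ]
    nlinarith [h0, h2]

theorem abs_cov {Y : ℕ → Type*} (ok : ∀ n, Y n → Prop) (S : ∀ n, Y (n + 1) → Finset (Y n))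
    (κ D : ∀ n, Y (n + 1) → Y n → ℝ) (R m C m12 H : ∀ n, Y n → ℝ) (c w : ℕ → ℝ)
    (hok : ∀ n l, ok (n + 1) l → ∀ v ∈ S n l, ok n v)
    (hκ0 : ∀ n l, ok (n + 1) l → ∀ v ∈ S n l, 0 ≤ κ n l v)
    (hκ1 : ∀ n l, ok (n + 1) l → ∑ v ∈ S n l, κ n l v = 1)
    (hR : ∀ n l, ok (n + 1) l → ∑ v ∈ S n l, κ n l v * R n v = R (n + 1) l)
    (hm : ∀ n l, ok (n + 1) l → ∑ v ∈ S n l, κ n l v * m n v = m (n + 1) l)
    (hC : ∀ n l, ok (n + 1) l → ∑ v ∈ S n l, κ n l v * C n v = C (n + 1) l)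
    (hm12 : ∀ n l, ok (n + 1) l → ∑ v ∈ S n l, κ n l v * m12 n v = m12 (n + 1) l)
    (hH : ∀ n l, ok (n + 1) l → ∑ v ∈ S n l, κ n l v * H n v = H (n + 1) l)
    (hD : ∀ n l, ok (n + 1) l → ∑ v ∈ S n l, κ n l v * D n l v = m (n + 1) l)
    (hDR : ∀ n l, ok (n + 1) l → ∑ v ∈ S n l, κ n l v * (D n l v * R n v) = C (n + 1) l)
    (hDm : ∀ n l, ok (n + 1) l → ∑ v ∈ S n l, κ n l v * (D n l v * m n v) = m12 (n + 1) l)
    (hDD : ∀ n l, ok (n + 1) l → ∑ v ∈ S n l, κ n l v * (D n l v) ^ 2 ≤ H (n + 1) l + c n)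
    (hw : ∀ n, 0 ≤ w n) (hR0 : ∀ v, ok 0 v → |R 0 v| ≤ 1)
    (L : ℕ) (l : Y L) (hl : ok L l) (h12 : m12 L l ≤ (m L l) ^ 2) :
    (∑ j ∈ range L, w j) ^ 2 * (C L l - m L l * R L l) ^ 2 ≤
      ∑ j ∈ range L, w j ^ 2 * (H L l + c j) := by
  have key := abs_cov_absV_nonneg ok S κ D R m C m12 H c w hok hκ0 hκ1 hR hm hC hm12 hH hD hDR hDm hDD hR0 L l hl
  have hsum : ∑ j ∈ range L, w j ^ 2 * (H L l + c j) =
      (∑ j ∈ range L, w j ^ 2) * H L l + ∑ j ∈ range L, w j ^ 2 * c j := by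
    rw [Finset.sum_mul, ← sum_add_distrib]
    apply sum_congr rfl
    intro j _
    ring
  have hQ0 : 0 ≤ ∑ j ∈ range L, w j ^ 2 := Finset.sum_nonneg fun j _ => sq_nonneg _
  have hP : ∑ j ∈ range L, w j ^ 2 ≤ (∑ j ∈ range L, w j) ^ 2 := by
    clear key hsum hQ0 h12 hl l
    induction L with
    | zero => simp
    | succ n ih =>
      rw [sum_range_succ, sum_range_succ]
      have h1 : 0 ≤ ∑ j ∈ range n, w j := Finset.sum_nonneg fun j _ => hw j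
      nlinarith [mul_nonneg h1 (hw n)]
  rw [hsum]
  set W := ∑ j ∈ range L, w j with hW
  set Q := ∑ j ∈ range L, w j ^ 2 with hQ
  set B := W * (C L l - m L l * R L l) with hB
  have h1 := key (-(W * m L l) - (-B) * R L l) (-B)
  unfold abs_cov_absV at h1
  rw [← hW, ← hQ] at h1
  have h2 : (W ^ 2 - Q) * m12 L l ≤ (W ^ 2 - Q) * (m L l) ^ 2 :=
    mul_le_mul_of_nonneg_left h12 (by linarith)
  have h3 : 0 ≤ Q * (m L l) ^ 2 := mul_nonneg hQ0 (sq_nonneg _)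
  have h4 : 0 ≤ (B * R L l) ^ 2 := sq_nonneg _
  have h5 : W ^ 2 * (C L l - m L l * R L l) ^ 2 = B ^ 2 := by rw [hB]; ring
  rw [h5]
  have h6 : Q * H L l + ∑ j ∈ range L, w j ^ 2 * c j + (W ^ 2 - Q) * m12 L l +
      2 * (-(W * m L l) - -B * R L l) * W * m L l + (-(W * m L l) - -B * R L l) ^ 2 +
      2 * -B * (W * C L l + (-(W * m L l) - -B * R L l) * R L l) + (-B) ^ 2 =
      Q * H L l + ∑ j ∈ range L, w j ^ 2 * c j + (W ^ 2 - Q) * m12 L l - W ^ 2 * (m L l) ^ 2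
      - 2 * B * (W * (C L l - m L l * R L l)) + B ^ 2 - (B * R L l) ^ 2 := by ring
  rw [h6, ← hB] at h1
  nlinarith [h1, h2, h3, h4]

end Pool.Agent.GroB
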