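import Mathlib

/-!
# Piece FKGB: FKG inequality on a box

Mathlib's `fkg` (`Mathlib/Combinatorics/SetFamily/FourFunctions.lean`) is for a finite distributive
lattice, `μ, f, g ≥ 0`, `f, g` monotone, `μ a * μ b ≤ μ (a ⊓ b) * μ (a ⊔ b)`. Use it on
`Fin n → Fin (B+1)` (`B = ∑ hi`), or on the subtype `Set.Icc lo hi` (a distributive lattice,
if the instance is available): extend `μ` by zero outside the box (the box is a sublattice);
replace `f` by `a ↦ c - f ((a ⊔ lo) ⊓ hi)` (monotone everywhere, nonnegative for large `c`), same for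
`g`. Expanding the constants away: for `F = c - f`, `G = c' - g`,
`(∑ μ)(∑ μ F G) - (∑ μ F)(∑ μ G) = (∑ μ)(∑ μ f g) - (∑ μ f)(∑ μ g)`.
The case of an empty box is trivial.
-/

open Finset

namespace Pool.Agent.GroB

local instance iccDistribFkg {α : Type*} [DistribLattice α] (a b : α) : DistribLattice (Set.Icc a b) :=
  { (inferInstance : Lattice (Set.Icc a b)) with
    le_sup_inf := fun x y z => by
      have := le_sup_inf (x := (x : α)) (y := (y : α)) (z := (z : α))
      exact this }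

/-- FKG on a box of `ℕ`-vectors, for two antitone functions, or one antitone and one monotone -/
theorem fkg_box (n : ℕ) (lo hi : Fin n → ℕ) (μ f g : (Fin n → ℕ) → ℝ)
    (hμ0 : ∀ a ∈ Finset.Icc lo hi, 0 ≤ μ a)
    (hμ : ∀ a ∈ Finset.Icc lo hi, ∀ b ∈ Finset.Icc lo hi, μ a * μ b ≤ μ (a ⊓ b) * μ (a ⊔ b))
    (hf : ∀ a ∈ Finset.Icc lo hi, ∀ b ∈ Finset.Icc lo hi, a ≤ b → f b ≤ f a)
    (hg : ∀ a ∈ Finset.Icc lo hi, ∀ b ∈ Finset.Icc lo hi, a ≤ b → g b ≤ g a) :
    (∑ a ∈ Finset.Icc lo hi, μ a * f a) * (∑ a ∈ Finset.Icc lo hi, μ a * g a) ≤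
      (∑ a ∈ Finset.Icc lo hi, μ a) * ∑ a ∈ Finset.Icc lo hi, μ a * (f a * g a) := by
  classical
  rcases (Finset.Icc lo hi).eq_empty_or_nonempty with he | hne
  · simp [he]
  have hle : lo ≤ hi := Finset.nonempty_Icc.1 hne
  have hlom : lo ∈ Finset.Icc lo hi := Finset.left_mem_Icc.2 hle
  have : Fintype (Set.Icc lo hi) := Fintype.ofFinset (Finset.Icc lo hi) (by simp)
  have key := fkg (α := Set.Icc lo hi) (μ := fun a => μ a) (f := fun a => f lo - f a)
    (g := fun a => g lo - g a)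
    (fun a => hμ0 a (Finset.mem_Icc.2 a.2))
    (fun a => sub_nonneg.2 (hf lo hlom a (Finset.mem_Icc.2 a.2) a.2.1))
    (fun a => sub_nonneg.2 (hg lo hlom a (Finset.mem_Icc.2 a.2) a.2.1))
    (fun a b hab => by
      have := hf a (Finset.mem_Icc.2 a.2) b (Finset.mem_Icc.2 b.2) hab
      simp only; linarith)
    (fun a b hab => by
      have := hg a (Finset.mem_Icc.2 a.2) b (Finset.mem_Icc.2 b.2) hab
      simp only; linarith)
    (fun a b => hμ a (Finset.mem_Icc.2 a.2) b (Finset.mem_Icc.2 b.2))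
  have hsum : ∀ F : (Fin n → ℕ) → ℝ, ∑ a : Set.Icc lo hi, F a = ∑ a ∈ Finset.Icc lo hi, F a := by
    intro F
    rw [← Finset.sum_coe_sort (Finset.Icc lo hi)]
    refine Fintype.sum_equiv (Equiv.subtypeEquivRight (by simp)) _ _ (fun x => rfl)
  have h1 := hsum (fun a => μ a * (f lo - f a))
  have h2 := hsum (fun a => μ a * (g lo - g a))
  have h3 := hsum μ
  have h4 := hsum (fun a => μ a * ((f lo - f a) * (g lo - g a)))
  rw [h1, h2, h3, h4] at key
  have e1 : ∑ a ∈ Finset.Icc lo hi, μ a * (f lo - f a) =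
      f lo * (∑ a ∈ Finset.Icc lo hi, μ a) - ∑ a ∈ Finset.Icc lo hi, μ a * f a := by
    rw [Finset.mul_sum, ← Finset.sum_sub_distrib]
    exact Finset.sum_congr rfl fun a _ => by ring
  have e2 : ∑ a ∈ Finset.Icc lo hi, μ a * (g lo - g a) =
      g lo * (∑ a ∈ Finset.Icc lo hi, μ a) - ∑ a ∈ Finset.Icc lo hi, μ a * g a := by
    rw [Finset.mul_sum, ← Finset.sum_sub_distrib]
    exact Finset.sum_congr rfl fun a _ => by ring
  have e3 : ∑ a ∈ Finset.Icc lo hi, μ a * ((f lo - f a) * (g lo - g a)) =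
      f lo * g lo * (∑ a ∈ Finset.Icc lo hi, μ a) - f lo * (∑ a ∈ Finset.Icc lo hi, μ a * g a)
        - g lo * (∑ a ∈ Finset.Icc lo hi, μ a * f a)
        + ∑ a ∈ Finset.Icc lo hi, μ a * (f a * g a) := by
    rw [Finset.mul_sum, Finset.mul_sum, Finset.mul_sum, ← Finset.sum_sub_distrib,
      ← Finset.sum_sub_distrib, ← Finset.sum_add_distrib]
    exact Finset.sum_congr rfl fun a _ => by ring
  rw [e1, e2, e3] at key
  nlinarith [key]

end Pool.Agent.GroB
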