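import Mathlib

/-!
# Piece LSMG: from two coordinates to the whole box

`F : (Fin n → ℕ) → ℝ` positive on the box `B = {a | lo ≤ a ≤ hi}`, and supermodular in the
two-coordinate sense (hypothesis `h2`). Then `F a * F b ≤ F (a ⊓ b) * F (a ⊔ b)` on `B`.

Proof. `I = {i | b i < a i}`, `J = {i | a i < b i}`; strong induction on `|I| + |J|`. If `I` or `J` is
empty then `a, b` are comparable and the inequality is an equality. If `|I| = |J| = 1` it is `h2` with
`l = a ⊓ b`. If `|I| ≥ 2` choose `i ∈ I`, `a' = update a i (b i)`. Induction for `(a', b)`: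
`F a' * F b ≤ F (a ⊓ b) * F (a' ⊔ b)` (`a' ⊓ b = a ⊓ b`). Induction for `(a, a' ⊔ b)`
(here the sets are `{i}` and `J`): `F a * F (a' ⊔ b) ≤ F a' * F (a ⊔ b)`
(`a ⊓ (a' ⊔ b) = a'`, `a ⊔ (a' ⊔ b) = a ⊔ b`). Multiply and cancel `F a' * F (a' ⊔ b) > 0`.
If `|J| ≥ 2`: symmetric.
-/

open Finset

namespace Pool.Agent.GroB

namespace LsmG

/-- number of coordinates in which `a` and `b` differ -/
def ndiff {n : ℕ} (a b : Fin n → ℕ) : ℕ := (univ.filter (fun i => a i ≠ b i)).card

lemma ndiff_comm {n : ℕ} (a b : Fin n → ℕ) : ndiff a b = ndiff b a := by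
  unfold ndiff
  congr 1
  ext i
  simp [ne_comm]

/-- the case of two coordinates in `I` -/
lemma step {n : ℕ} {lo hi : Fin n → ℕ} {F : (Fin n → ℕ) → ℝ}
    (hpos : ∀ a, lo ≤ a → a ≤ hi → 0 < F a) {m : ℕ}
    (ih : ∀ a b : Fin n → ℕ, lo ≤ a → a ≤ hi → lo ≤ b → b ≤ hi → ndiff a b < m →
      F a * F b ≤ F (a ⊓ b) * F (a ⊔ b)) (a b : Fin n → ℕ)
    (ha : lo ≤ a) (ha' : a ≤ hi) (hb : lo ≤ b) (hb' : b ≤ hi) (hm : ndiff a b = m)
    {i k : Fin n} (hi1 : b i < a i) (hk : b k < a k) (hik : i ≠ k) :
    F a * F b ≤ F (a ⊓ b) * F (a ⊔ b) := by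
  set a' := Function.update a i (b i) with ha'def
  have e1 : a' i = b i := by rw [ha'def, Function.update_self]
  have e2 : ∀ j, j ≠ i → a' j = a j := by
    intro j hj
    rw [ha'def, Function.update_of_ne hj]
  have hloa' : lo ≤ a' := by
    intro j
    by_cases hj : j = i
    · subst hj
      rw [e1]
      exact hb j
    · rw [e2 j hj]
      exact ha j
  have ha'hi : a' ≤ hi := by
    intro j
    by_cases hj : j = i
    · subst hj
      rw [e1]
      exact hb' j
    · rw [e2 j hj]
      exact ha' j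
  have hinf : a' ⊓ b = a ⊓ b := by
    funext j
    by_cases hj : j = i
    · subst hj
      simp only [Pi.inf_apply, e1]
      omega
    · simp only [Pi.inf_apply, e2 j hj]
  have hinf2 : a ⊓ (a' ⊔ b) = a' := by
    funext j
    by_cases hj : j = i
    · subst hj
      simp only [Pi.inf_apply, Pi.sup_apply, e1]
      omega
    · simp only [Pi.inf_apply, Pi.sup_apply, e2 j hj]
      omega
  have hsup2 : a ⊔ (a' ⊔ b) = a ⊔ b := by
    funext j
    by_cases hj : j = i
    · subst hj
      simp only [Pi.sup_apply, e1]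
      omega
    · simp only [Pi.sup_apply, e2 j hj]
      omega
  have hc : lo ≤ a' ⊔ b := hb.trans le_sup_right
  have hc' : a' ⊔ b ≤ hi := sup_le ha'hi hb'
  have d1 : ndiff a' b < m := by
    rw [← hm]
    unfold ndiff
    apply card_lt_card
    rw [Finset.ssubset_iff_of_subset]
    · refine ⟨i, ?_, ?_⟩
      · simp only [mem_filter, mem_univ, true_and]
        omega
      · simp [e1]
    · intro j hj
      simp only [mem_filter, mem_univ, true_and] at hj ⊢
      by_cases hji : j = i
      · subst hji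
        omega
      · rwa [e2 j hji] at hj
  have d2 : ndiff a (a' ⊔ b) < m := by
    rw [← hm]
    unfold ndiff
    apply card_lt_card
    rw [Finset.ssubset_iff_of_subset]
    · refine ⟨k, ?_, ?_⟩
      · simp only [mem_filter, mem_univ, true_and]
        omega
      · simp only [mem_filter, mem_univ, true_and, Pi.sup_apply, e2 k hik.symm]
        omega
    · intro j hj
      simp only [mem_filter, mem_univ, true_and, Pi.sup_apply] at hj ⊢
      by_cases hji : j = i
      · subst hji
        omega
      · rw [e2 j hji] at hj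
        omega
  have i1 := ih a' b hloa' ha'hi hb hb' d1
  have i2 := ih a (a' ⊔ b) ha ha' hc hc' d2
  rw [hinf] at i1
  rw [hinf2, hsup2] at i2
  have p1 : 0 < F a' := hpos _ hloa' ha'hi
  have p2 : 0 < F (a' ⊔ b) := hpos _ hc hc'
  have p3 : 0 < F a := hpos _ ha ha'
  have p4 : 0 < F (a ⊓ b) := hpos _ (le_inf ha hb) (inf_le_left.trans ha')
  have h := mul_le_mul i1 i2 (mul_pos p3 p2).le (mul_pos p4 p2).le
  have h' : (F a' * F (a' ⊔ b)) * (F a * F b) ≤
      (F a' * F (a' ⊔ b)) * (F (a ⊓ b) * F (a ⊔ b)) := by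
    calc (F a' * F (a' ⊔ b)) * (F a * F b) = (F a' * F b) * (F a * F (a' ⊔ b)) := by ring
      _ ≤ _ := h
      _ = _ := by ring
  exact le_of_mul_le_mul_left h' (mul_pos p1 p2)

end LsmG

open LsmG in
theorem lsm_global (n : ℕ) (lo hi : Fin n → ℕ) (F : (Fin n → ℕ) → ℝ)
    (hpos : ∀ a, lo ≤ a → a ≤ hi → 0 < F a)
    (h2 : ∀ (l : Fin n → ℕ) (i j : Fin n) (s t : ℕ), i ≠ j → lo ≤ l →
      Function.update (Function.update l i (l i + s)) j (l j + t) ≤ hi →
      F (Function.update l i (l i + s)) * F (Function.update l j (l j + t)) ≤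
        F l * F (Function.update (Function.update l i (l i + s)) j (l j + t)))
    (a b : Fin n → ℕ) (ha : lo ≤ a) (ha' : a ≤ hi) (hb : lo ≤ b) (hb' : b ≤ hi) :
    F a * F b ≤ F (a ⊓ b) * F (a ⊔ b) := by
  have key : ∀ m : ℕ, ∀ a b : Fin n → ℕ, lo ≤ a → a ≤ hi → lo ≤ b → b ≤ hi → ndiff a b = m →
      F a * F b ≤ F (a ⊓ b) * F (a ⊔ b) := by
    intro m
    induction m using Nat.strong_induction_on with
    | _ m IH =>
      intro a b ha ha' hb hb' hm
      have ih : ∀ a b : Fin n → ℕ, lo ≤ a → a ≤ hi → lo ≤ b → b ≤ hi → ndiff a b < m →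
          F a * F b ≤ F (a ⊓ b) * F (a ⊔ b) := fun a b h1 h2 h3 h4 h5 =>
        IH _ h5 a b h1 h2 h3 h4 rfl
      by_cases hI : ∃ i, b i < a i
      swap
      · have hab : a ≤ b := fun i => not_lt.1 (fun h => hI ⟨i, h⟩)
        rw [inf_eq_left.2 hab, sup_eq_right.2 hab]
      by_cases hJ : ∃ j, a j < b j
      swap
      · have hab : b ≤ a := fun i => not_lt.1 (fun h => hJ ⟨i, h⟩)
        rw [inf_eq_right.2 hab, sup_eq_left.2 hab, mul_comm]
      obtain ⟨i, hi1⟩ := hI
      obtain ⟨j, hj1⟩ := hJ
      by_cases hI2 : ∃ k, b k < a k ∧ i ≠ k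
      · obtain ⟨k, hk, hik⟩ := hI2
        exact step hpos ih a b ha ha' hb hb' hm hi1 hk hik
      by_cases hJ2 : ∃ k, a k < b k ∧ j ≠ k
      · obtain ⟨k, hk, hjk⟩ := hJ2
        have := step hpos ih b a hb hb' ha ha' ((ndiff_comm b a).trans hm) hj1 hk hjk
        rw [mul_comm, inf_comm, sup_comm]
        exact this
      have hI3 : ∀ k, k ≠ i → a k ≤ b k := fun k hk =>
        not_lt.1 (fun h => hI2 ⟨k, h, hk.symm⟩)
      have hJ3 : ∀ k, k ≠ j → b k ≤ a k := fun k hk =>
        not_lt.1 (fun h => hJ2 ⟨k, h, hk.symm⟩)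
      have hij : i ≠ j := by
        rintro rfl
        omega
      have e1 : Function.update (a ⊓ b) i ((a ⊓ b) i + (a i - b i)) = a := by
        funext k
        by_cases hk : k = i
        · subst hk
          rw [Function.update_self]
          simp only [Pi.inf_apply]
          omega
        · rw [Function.update_of_ne hk]
          simp only [Pi.inf_apply]
          have := hI3 k hk
          omega
      have e2 : Function.update (a ⊓ b) j ((a ⊓ b) j + (b j - a j)) = b := by
        funext k
        by_cases hk : k = j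
        · subst hk
          rw [Function.update_self]
          simp only [Pi.inf_apply]
          omega
        · rw [Function.update_of_ne hk]
          simp only [Pi.inf_apply]
          have := hJ3 k hk
          omega
      have e3 : Function.update (Function.update (a ⊓ b) i ((a ⊓ b) i + (a i - b i))) j
          ((a ⊓ b) j + (b j - a j)) = a ⊔ b := by
        rw [e1]
        funext k
        by_cases hk : k = j
        · subst hk
          rw [Function.update_self]
          simp only [Pi.inf_apply, Pi.sup_apply]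
          omega
        · rw [Function.update_of_ne hk]
          simp only [Pi.sup_apply]
          have := hJ3 k hk
          omega
      have h := h2 (a ⊓ b) i j (a i - b i) (b j - a j) hij (le_inf ha hb) (by
        rw [e3]
        exact sup_le ha' hb')
      rw [e3, e1, e2] at h
      exact h
  exact key _ a b ha ha' hb hb' rfl

end Pool.Agent.GroB
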