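import Pool.Agent.Lib_MP_58440c_pr.Defs

/-! Elementary facts on `below`, `rr`, `skew`. -/

open Finset Polynomial

namespace Pool.Agent.GroB

theorem mem_below {n : ℕ} {l : Fin (n + 1) → ℕ} {m : Fin n → ℕ} :
    m ∈ below l ↔ ∀ i, l i.succ ≤ m i ∧ m i ≤ l i.castSucc := by
  simp [below, Fintype.mem_piFinset]

theorem antitone_of_mem_below {n : ℕ} {l : Fin (n + 1) → ℕ} {m : Fin n → ℕ} (h : m ∈ below l) :
    Antitone m := by
  rw [mem_below] at h
  cases n with
  | zero => exact fun a => a.elim0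
  | succ n =>
    rw [Fin.antitone_iff_succ_le]
    intro i
    have h1 := (h i.succ).2
    have h2 := (h i.castSucc).1
    rw [← Fin.succ_castSucc] at h1
    exact h1.trans h2

theorem below_eq_Icc {n : ℕ} (l : Fin (n + 1) → ℕ) :
    below l = Finset.Icc (fun i : Fin n => l i.succ) (fun i : Fin n => l i.castSucc) := by
  ext m
  rw [mem_below, Finset.mem_Icc, Pi.le_def, Pi.le_def, ← forall_and]

theorem below_nonempty {n : ℕ} {l : Fin (n + 1) → ℕ} (hl : Antitone l) :
    (fun i : Fin n => l i.castSucc) ∈ below l := by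
  rw [mem_below]
  exact fun i => ⟨hl (Fin.castSucc_le_succ i), le_rfl⟩

theorem below_empty {n : ℕ} {l : Fin (n + 1) → ℕ} (hl : ¬ Antitone l) : below l = ∅ := by
  rw [Finset.eq_empty_iff_forall_notMem]
  intro m hm
  apply hl
  rw [Fin.antitone_iff_succ_le]
  intro i
  have := mem_below.1 hm i
  exact this.1.trans this.2

theorem sum_le_of_mem_below {n : ℕ} {l : Fin (n + 1) → ℕ} {m : Fin n → ℕ} (h : m ∈ below l) :
    ∑ i, m i ≤ ∑ i, l i := by
  rw [mem_below] at h
  rw [Fin.sum_univ_castSucc]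
  exact (Finset.sum_le_sum fun i _ => (h i).2).trans (Nat.le_add_right _ _)

theorem rr_le {n : ℕ} (l : Fin (n + 1) → ℕ) (m : Fin n → ℕ) : rr l m ≤ n := by
  unfold rr
  exact (Finset.card_le_univ _).trans (by simp)

theorem skew_of_mem {R : Type*} [CommRing R] (p : R) {n : ℕ} {l : Fin (n + 1) → ℕ}
    {m : Fin n → ℕ} (h : m ∈ below l) (x : R) :
    skew p l m x = x ^ (∑ i, l i - ∑ i, m i) * (1 - p * x) ^ rr l m := by
  rw [skew, if_pos h]

theorem skew_of_notMem {R : Type*} [CommRing R] (p : R) {n : ℕ} {l : Fin (n + 1) → ℕ}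
    {m : Fin n → ℕ} (h : m ∉ below l) (x : R) : skew p l m x = 0 := by
  rw [skew, if_neg h]

theorem skew_nonneg {p : ℝ} {n : ℕ} (l : Fin (n + 1) → ℕ) (m : Fin n → ℕ) {x : ℝ} (hx : 0 ≤ x)
    (hpx : p * x ≤ 1) : 0 ≤ skew p l m x := by
  by_cases h : m ∈ below l
  · rw [skew_of_mem p h]
    exact mul_nonneg (pow_nonneg hx _) (pow_nonneg (by linarith) _)
  · rw [skew_of_notMem p h]

theorem skew_pos {p : ℝ} {n : ℕ} {l : Fin (n + 1) → ℕ} {m : Fin n → ℕ} (hm : m ∈ below l) {x : ℝ}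
    (hx : 0 < x) (hpx : p * x < 1) : 0 < skew p l m x := by
  rw [skew_of_mem p hm]
  exact mul_pos (pow_pos hx _) (pow_pos (by linarith) _)

end Pool.Agent.GroB
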