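import Pool.Agent.Lib_MP_58440c_pr.NdLin

/-!
# Piece NDC: Newton interpolation, symmetry of `ND` in the points

* `newton_expand`: induction on `n` with `divX_spec (x n) (nq x n f)`.
* Hence (uniqueness of division by the monic polynomial `P = ∏ (X - x_k)` of degree `n`)
  `f %ₘ P = ∑_{j<n} ell x j f • N_j`, `N_j = ∏_{k<j} (X - x_k)` monic of degree `j`. So the matrix
  `coeff_k (f_i %ₘ P)` is the Newton matrix times the unitriangular matrix `coeff_k N_j`
  (`Matrix.det_of_upperTriangular` / `det_of_lowerTriangular`), and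
  `ND n f x = det (coeff_k (f_i %ₘ P))` depends only on `P`: `ND_congr_prod`.
* `ND_vdm`: `eval (x_j) f_i = eval (x_j) (f_i %ₘ P) = ∑_k coeff_k * x_j ^ k`, and
  `Matrix.det_vandermonde` (product over `i`, `j ∈ Ioi i`, of `x j - x i`); mind the transpose.
* `ND_last`: Laplace expansion along the last column (`Matrix.det_succ_column`).
* `ND_mul_lin`: `ell x j ((1 - p X) f) = (1 - p x_j) ell x j f - p ell x (j-1) f`
  (`nq x (j+1) ((1 - pX) f) = (1 - pX) nq x (j+1) f - p nq x j f`-type identity, by induction), a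
  column operation (`Matrix.det_eq_of_forall_col_eq_smul_add_pred`) after scaling, or via the
  coefficient form.  (Alternatively: for pairwise distinct points it is `ND_vdm`.)
-/


open Finset Polynomial

namespace Pool.Agent.GroB

variable {K : Type*} [Field K]

theorem newton_expand (x : ℕ → K) (n : ℕ) (f : K[X]) :
    f = (∑ j ∈ range n, C (ell x j f) * ∏ k ∈ range j, (X - C (x k))) +
      (∏ k ∈ range n, (X - C (x k))) * nq x n f := by
  induction n with
  | zero => simp [nq]
  | succ n ih =>
      rw [Finset.sum_range_succ, Finset.prod_range_succ]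
      have h := divX_spec (x n) (nq x n f)
      have h2 : nq x (n + 1) f = nq x n f /ₘ (X - C (x n)) := rfl
      rw [h2]
      have h3 : ell x n f = (nq x n f).eval (x n) := rfl
      rw [h3]
      conv_lhs => rw [ih]
      conv_lhs => rw [h]
      ring

theorem monic_prodX (x : ℕ → K) (n : ℕ) : (∏ k ∈ range n, (X - C (x k))).Monic :=
  monic_prod_of_monic _ _ fun k _ => monic_X_sub_C (x k)

theorem natDegree_prodX (x : ℕ → K) (n : ℕ) : (∏ k ∈ range n, (X - C (x k))).natDegree = n := by
  rw [natDegree_prod_of_monic _ _ fun k _ => monic_X_sub_C (x k)]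
  simp

theorem degree_prodX (x : ℕ → K) (n : ℕ) :
    (∏ k ∈ range n, (X - C (x k)) : K[X]).degree = ((n : ℕ) : WithBot ℕ) := by
  rw [degree_eq_natDegree (monic_prodX x n).ne_zero, natDegree_prodX]

theorem modByMonic_newton (x : ℕ → K) (n : ℕ) (f : K[X]) :
    f %ₘ (∏ k ∈ range n, (X - C (x k))) =
      ∑ j ∈ range n, C (ell x j f) * ∏ k ∈ range j, (X - C (x k)) := by
  have h := div_modByMonic_unique (f := f) (nq x n f)
    (∑ j ∈ range n, C (ell x j f) * ∏ k ∈ range j, (X - C (x k))) (monic_prodX x n)
    ⟨(newton_expand x n f).symm, by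
      rw [degree_prodX]
      refine lt_of_le_of_lt (degree_sum_le _ _) ?_
      rw [Finset.sup_lt_iff (by exact WithBot.bot_lt_coe _)]
      intro j hj
      have h1 : (C (ell x j f) * ∏ k ∈ range j, (X - C (x k))).degree ≤
          (∏ k ∈ range j, (X - C (x k))).degree := by
        refine (degree_mul_le _ _).trans ?_
        calc (C (ell x j f)).degree + (∏ k ∈ range j, (X - C (x k))).degree
            ≤ 0 + (∏ k ∈ range j, (X - C (x k))).degree := by
              gcongr
              exact degree_C_le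
          _ = _ := zero_add _
      refine lt_of_le_of_lt h1 ?_
      rw [degree_prodX]
      exact_mod_cast Finset.mem_range.1 hj⟩
  exact h.2

theorem ND_eq_coeff (n : ℕ) (f : Fin n → K[X]) (x : ℕ → K) :
    ND n f x = (Matrix.of fun i k : Fin n =>
      (f i %ₘ (∏ k ∈ range n, (X - C (x k)))).coeff k).det := by
  have h1 : (Matrix.of fun i k : Fin n => (f i %ₘ (∏ k ∈ range n, (X - C (x k)))).coeff k) =
      (Matrix.of fun i j : Fin n => ell x j (f i)) *
        (Matrix.of fun j k : Fin n => (∏ k ∈ range (j : ℕ), (X - C (x k))).coeff k) := by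
    ext i k
    rw [Matrix.mul_apply, Matrix.of_apply, modByMonic_newton, finsetSum_coeff,
      ← Fin.sum_univ_eq_sum_range (fun j => (C (ell x j (f i)) *
        ∏ k ∈ range j, (X - C (x k))).coeff (k : ℕ)) n]
    refine Finset.sum_congr rfl fun j _ => ?_
    rw [coeff_C_mul]
    rfl
  have h2 : (Matrix.of fun j k : Fin n => (∏ k ∈ range (j : ℕ), (X - C (x k))).coeff k).det = 1 := by
    rw [Matrix.det_of_isLowerTriangular]
    · refine Finset.prod_eq_one fun j _ => ?_
      rw [Matrix.of_apply]
      have := (monic_prodX x j).coeff_natDegree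
      rwa [natDegree_prodX] at this
    · intro j k hjk
      rw [Matrix.of_apply]
      refine coeff_eq_zero_of_natDegree_lt ?_
      rw [natDegree_prodX]
      exact hjk
  rw [h1, Matrix.det_mul, h2, mul_one]
  rfl

theorem ND_congr_prod {n : ℕ} {x y : ℕ → K}
    (h : ∏ k ∈ range n, (X - C (x k)) = ∏ k ∈ range n, (X - C (y k))) (f : Fin n → K[X]) :
    ND n f x = ND n f y := by
  rw [ND_eq_coeff, ND_eq_coeff, h]

theorem eval_modByMonic_prodX (n : ℕ) (f : K[X]) (x : ℕ → K) (j : Fin n) :
    (f %ₘ (∏ k ∈ range n, (X - C (x k)))).eval (x j) = f.eval (x j) := by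
  have h := modByMonic_add_div f (∏ k ∈ range n, (X - C (x k)))
  have h2 : (∏ k ∈ range n, (X - C (x k))).eval (x j) = 0 := by
    rw [eval_prod]
    exact Finset.prod_eq_zero (Finset.mem_range.2 j.2) (by simp)
  conv_rhs => rw [← h]
  rw [eval_add, eval_mul, h2, zero_mul, add_zero]

theorem ND_vdm (n : ℕ) (f : Fin n → K[X]) (x : ℕ → K) :
    (Matrix.of fun i j : Fin n => (f i).eval (x j)).det =
      ND n f x * ∏ i : Fin n, ∏ j ∈ Finset.Ioi i, (x j - x i) := by
  have h1 : (Matrix.of fun i j : Fin n => (f i).eval (x j)) =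
      (Matrix.of fun i k : Fin n => (f i %ₘ (∏ k ∈ range n, (X - C (x k)))).coeff k) *
        (Matrix.vandermonde fun j : Fin n => x j).transpose := by
    ext i j
    rw [Matrix.mul_apply, Matrix.of_apply, ← eval_modByMonic_prodX n (f i) x j]
    have hdeg : (f i %ₘ (∏ k ∈ range n, (X - C (x k)))).natDegree < n := by
      have hn : 0 < n := lt_of_le_of_lt (Nat.zero_le _) i.2
      have h3 := degree_modByMonic_lt (f i) (monic_prodX x n)
      rw [degree_prodX] at h3
      by_cases h0 : f i %ₘ (∏ k ∈ range n, (X - C (x k))) = 0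
      · rw [h0]; simpa using hn
      · exact (natDegree_lt_iff_degree_lt h0).2 h3
    rw [eval_eq_sum_range' hdeg, ← Fin.sum_univ_eq_sum_range (fun k =>
      (f i %ₘ (∏ k ∈ range n, (X - C (x k)))).coeff k * x j ^ k) n]
    refine Finset.sum_congr rfl fun k _ => ?_
    rw [Matrix.transpose_apply, Matrix.vandermonde_apply]
    rfl
  rw [h1, Matrix.det_mul, Matrix.det_transpose, Matrix.det_vandermonde, ← ND_eq_coeff]

theorem ND_rot (n : ℕ) (f : Fin (n + 1) → K[X]) (x : ℕ → K) :
    ND (n + 1) f (cons (x n) x) = ND (n + 1) f x := by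
  refine ND_congr_prod ?_ f
  rw [Finset.prod_range_succ', Finset.prod_range_succ]
  rfl

theorem ND_swap (n : ℕ) (f : Fin (n + 2) → K[X]) (a b : K) (x : ℕ → K) :
    ND (n + 2) f (cons a (cons b x)) = ND (n + 2) f (cons b (cons a x)) := by
  refine ND_congr_prod ?_ f
  rw [Finset.prod_range_succ', Finset.prod_range_succ', Finset.prod_range_succ',
    Finset.prod_range_succ', mul_assoc, mul_assoc]
  congr 1
  exact mul_comm _ _

theorem ND_last (n : ℕ) (f : Fin (n + 1) → K[X]) (x : ℕ → K) :
    ND (n + 1) f x = ∑ i : Fin (n + 1), (-1) ^ ((i : ℕ) + n) * ell x n (f i) *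
      ND n (fun j => f (i.succAbove j)) x := by
  rw [ND, Matrix.det_succ_column _ (Fin.last n)]
  refine Finset.sum_congr rfl fun i _ => ?_
  rw [Matrix.of_apply, Fin.val_last, Fin.succAbove_last]
  rfl

/-- `z ↦ ND (n+1) f (cons z x)` is a polynomial -/
theorem ND_cons_poly (n : ℕ) (f : Fin (n + 1) → K[X]) (x : ℕ → K) :
    ∃ P : K[X], ∀ z, ND (n + 1) f (cons z x) = P.eval z := by
  refine ⟨∑ i : Fin (n + 1), C ((-1) ^ ((i : ℕ) + n) * ND n (fun j => f (i.succAbove j)) x) *
    nq x n (f i), fun z => ?_⟩
  set y : ℕ → K := fun j => if j = n then z else x j with hy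
  have hyn : y n = z := by simp [hy]
  have hyx : ∀ j < n, y j = x j := fun j hj => by simp [hy, hj.ne]
  have h1 := ND_rot n f y
  rw [hyn] at h1
  have h2 : ND (n + 1) f (cons z x) = ND (n + 1) f (cons z y) := by
    refine ND_congr_lt f ?_
    intro j hj
    cases j with
    | zero => rfl
    | succ j => rw [cons_succ, cons_succ, hyx j (by omega)]
  rw [h2, h1, ND_last, eval_finsetSum]
  refine Finset.sum_congr rfl fun i _ => ?_
  rw [eval_mul, eval_C, ell, hyn, nq_congr n hyx, ND_congr_lt _ hyx]
  ring

theorem nq_mul_lin (p : K) (x : ℕ → K) (f : K[X]) (j : ℕ) :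
    nq x (j + 1) ((1 - C p * X) * f) = (1 - C p * X) * nq x (j + 1) f - C (p * ell x j f) := by
  have key : ∀ (a c : K) (g : K[X]),
      ((1 - C p * X) * g - C c) /ₘ (X - C a) = (1 - C p * X) * (g /ₘ (X - C a)) -
        C (p * g.eval a) := by
    intro a c g
    apply divX_unique a _ _ (g.eval a * (1 - p * a) - c)
    conv_lhs => rw [divX_spec a g]
    simp only [C_sub, C_mul, C_1]
    ring
  induction j with
  | zero =>
      have h := key (x 0) 0 f
      rw [C_0, sub_zero] at h
      exact h
  | succ j ih =>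
      rw [nq, ih, key]
      rfl

theorem ell_mul_lin_zero (p : K) (x : ℕ → K) (f : K[X]) :
    ell x 0 ((1 - C p * X) * f) = (1 - p * x 0) * ell x 0 f := by
  show ((1 - C p * X) * f).eval (x 0) = (1 - p * x 0) * f.eval (x 0)
  simp

theorem ell_mul_lin_succ (p : K) (x : ℕ → K) (f : K[X]) (j : ℕ) :
    ell x (j + 1) ((1 - C p * X) * f) =
      (1 - p * x (j + 1)) * ell x (j + 1) f - p * ell x j f := by
  rw [ell, nq_mul_lin, eval_sub, eval_mul, eval_C]
  simp [ell]

theorem ND_mul_lin (p : K) (n : ℕ) (f : Fin n → K[X]) (x : ℕ → K) :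
    ND n (fun i => (1 - C p * X) * f i) x = (∏ j ∈ range n, (1 - p * x j)) * ND n f x := by
  let B : Matrix (Fin n) (Fin n) K := Matrix.of fun k j =>
    if (k : ℕ) = j then 1 - p * x j else if (k : ℕ) + 1 = j then -p else 0
  have h1 : (Matrix.of fun i j : Fin n => ell x j ((1 - C p * X) * f i)) =
      (Matrix.of fun i j : Fin n => ell x j (f i)) * B := by
    ext i j
    rw [Matrix.mul_apply, Matrix.of_apply]
    obtain ⟨j, hj⟩ := j
    cases j with
    | zero =>
        rw [Finset.sum_eq_single (⟨0, hj⟩ : Fin n)]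
        · simp only [B, Matrix.of_apply, if_true]
          rw [ell_mul_lin_zero]
          ring
        · intro k _ hk
          have hk' : (k : ℕ) ≠ 0 := fun h => hk (Fin.ext h)
          simp only [B, Matrix.of_apply]
          rw [if_neg hk', if_neg (by omega), mul_zero]
        · intro h; exact absurd (Finset.mem_univ _) h
    | succ j =>
        have hne : (⟨j + 1, hj⟩ : Fin n) ≠ ⟨j, by omega⟩ := by
          intro h; have := congrArg Fin.val h; simp at this
        rw [Finset.sum_eq_add (⟨j + 1, hj⟩ : Fin n) ⟨j, by omega⟩ hne]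
        · simp only [B, Matrix.of_apply, if_true]
          rw [if_neg (by omega), ell_mul_lin_succ]
          ring
        · intro k _ hk
          have hk1 : (k : ℕ) ≠ j + 1 := fun h => hk.1 (Fin.ext h)
          have hk2 : (k : ℕ) ≠ j := fun h => hk.2 (Fin.ext h)
          simp only [B, Matrix.of_apply]
          rw [if_neg hk1, if_neg (by omega), mul_zero]
        · intro h; exact absurd (Finset.mem_univ _) h
        · intro h; exact absurd (Finset.mem_univ _) h
  have h2 : B.det = ∏ j ∈ range n, (1 - p * x j) := by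
    rw [Matrix.det_of_isUpperTriangular]
    · rw [← Fin.prod_univ_eq_prod_range (fun j => 1 - p * x j) n]
      refine Finset.prod_congr rfl fun j _ => ?_
      simp [B]
    · intro k j hkj
      have h3 : (j : ℕ) < k := hkj
      simp only [B, Matrix.of_apply]
      rw [if_neg (by omega), if_neg (by omega)]
  rw [ND, h1, Matrix.det_mul, h2, mul_comm]
  rfl

end Pool.Agent.GroB
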