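import Pool.Agent.Lib_MP_58440c_pr.Elim
import Pool.Agent.Lib_MP_58440c_pr.NdCoeff
import Pool.Agent.Lib_MP_58440c_pr.Below

/-!
# Piece LEMA: `G` is the Newton determinant of the row system
-/

open Finset Polynomial

namespace Pool.Agent.GroB

variable {K : Type*} [Field K]

theorem lemA_key (p a : K) (e : ℕ) :
    C (1 - p * a) * X ^ (e + 1) - C (a ^ (e + 1)) * (1 - C p * X) =
      (X - C a) * ∑ k ∈ range (e + 1), C (a ^ (e - k) * (if 0 < k then 1 - p * a else 1)) * X ^ k := by
  induction e with
  | zero => simp; ring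
  | succ e ih =>
    rw [Finset.sum_range_succ]
    have hsum : ∑ k ∈ range (e + 1), C (a ^ (e + 1 - k) * (if 0 < k then 1 - p * a else 1)) * X ^ k
        = C a * ∑ k ∈ range (e + 1),
          C (a ^ (e - k) * (if 0 < k then 1 - p * a else 1)) * X ^ k := by
      rw [Finset.mul_sum]
      refine Finset.sum_congr rfl fun k hk => ?_
      have hk' : k ≤ e := Nat.lt_succ_iff.1 (Finset.mem_range.1 hk)
      rw [show e + 1 - k = (e - k) + 1 by omega, pow_succ]
      simp only [C_mul]
      ring
    rw [hsum]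
    simp only [Nat.sub_self, pow_zero, one_mul, Nat.succ_pos, if_true]
    rw [show e + 1 + 1 = (e + 1) + 1 from rfl, pow_succ a (e + 1), C_mul]
    have h3 : (X - C a) * (C a * ∑ k ∈ range (e + 1),
          C (a ^ (e - k) * (if 0 < k then 1 - p * a else 1)) * X ^ k) =
        C a * (C (1 - p * a) * X ^ (e + 1) - C (a ^ (e + 1)) * (1 - C p * X)) := by
      rw [ih]; ring
    rw [mul_add, h3]
    ring

theorem ph_eval (p a : K) (l b : ℕ) : (ph p l b).eval a = a ^ l * (1 - p * a) ^ b := by
  simp [ph]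

theorem ND_sys_cons (p a : K) (ha : a ≠ 0) (hpa : 1 - p * a ≠ 0) (n : ℕ) (l : Fin (n + 1) → ℕ)
    (hl : Antitone l) (x : ℕ → K) :
    ND (n + 1) (sys p (n + 1) l) (cons a x) = ∑ m ∈ below l, skew p l m a * ND n (sys p n m) x := by
  set S : Fin n → Finset ℕ := fun i => Finset.Icc (l i.rev.succ) (l i.rev.castSucc) with hS
  set w : Fin n → ℕ → K := fun i v =>
    (1 - p * a)⁻¹ * (a ^ (l i.rev.castSucc - v) * (if l i.rev.succ < v then 1 - p * a else 1))
    with hw
  set g : Fin n → ℕ → K[X] := fun i v => ph p (v + i) (n - 1 - i) with hg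
  have hle : ∀ i : Fin n, l i.succ ≤ l i.castSucc := fun i => hl (Fin.castSucc_le_succ i)
  have hel := ND_elim n (sys p (n + 1) l) a x (fun i => ∑ v ∈ S i, C (w i v) * g i v)
    (fun i => a ^ (l i.rev.castSucc - l i.rev.succ + 1) * (1 - p * a)⁻¹) ?_
  · rw [hel, ND_sum, Finset.mul_sum]
    symm
    refine Finset.sum_nbij' (fun m i => m i.rev) (fun k i => k i.rev) ?_ ?_ ?_ ?_ ?_
    · intro m hm
      rw [Fintype.mem_piFinset]
      intro i
      rw [mem_below] at hm
      exact Finset.mem_Icc.2 (hm i.rev)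
    · intro k hk
      rw [mem_below]
      intro i
      have := Finset.mem_Icc.1 (Fintype.mem_piFinset.1 hk i.rev)
      simpa using this
    · intro m _; funext i; simp
    · intro k _; funext i; simp
    · intro m hm
      have hm' := mem_below.1 hm
      have e1 : (fun i => g i (m i.rev)) = sys p n m := rfl
      rw [e1, skew_of_mem p hm, ← mul_assoc]
      congr 1
      have e2 : (sys p (n + 1) l 0).eval a = a ^ (l (Fin.last n)) * (1 - p * a) ^ n := by
        show (ph p (l (Fin.rev 0) + ((0 : Fin (n + 1)) : ℕ)) _).eval a = _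
        rw [ph_eval]; simp
      have e3 : ∏ i : Fin n, w i (m i.rev) =
          ((1 - p * a)⁻¹) ^ n * a ^ (∑ i : Fin n, (l i.castSucc - m i)) *
            (1 - p * a) ^ rr l m := by
        rw [Finset.prod_mul_distrib, Finset.prod_mul_distrib]
        rw [Finset.prod_const, Finset.card_univ, Fintype.card_fin]
        rw [mul_assoc]
        congr 1
        congr 1
        · rw [← Finset.prod_pow_eq_pow_sum]
          exact Equiv.prod_comp Fin.revPerm (fun i => a ^ (l i.castSucc - m i))
        · rw [rr, ← Finset.prod_const, Finset.prod_filter]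
          exact Equiv.prod_comp Fin.revPerm (fun i => if l i.succ < m i then 1 - p * a else 1)
      rw [e2, e3]
      have e4 : ∑ i, l i - ∑ i, m i = l (Fin.last n) + ∑ i : Fin n, (l i.castSucc - m i) := by
        rw [Fin.sum_univ_castSucc]
        have : ∑ i : Fin n, (l i.castSucc - m i) + ∑ i, m i = ∑ i : Fin n, l i.castSucc := by
          rw [← Finset.sum_add_distrib]
          exact Finset.sum_congr rfl fun i _ => Nat.sub_add_cancel (hm' i).2
        omega
      rw [e4, pow_add]
      have e5 : (1 - p * a) ^ n * ((1 - p * a)⁻¹) ^ n = 1 := by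
        rw [← mul_pow, mul_inv_cancel₀ hpa, one_pow]
      linear_combination (-(a ^ (l (Fin.last n)) * a ^ (∑ i : Fin n, (l i.castSucc - m i)) *
        (1 - p * a) ^ rr l m)) * e5
  · intro i
    have hi : (i : ℕ) < n := i.2
    set lo := l i.rev.succ with hlo
    set hi' := l i.rev.castSucc with hhi
    have hle' : lo ≤ hi' := hle i.rev
    obtain ⟨e, he⟩ : ∃ e, hi' = lo + e := ⟨hi' - lo, by omega⟩
    have f1 : sys p (n + 1) l i.succ = ph p (hi' + (i + 1)) (n - 1 - i) := by
      show ph p (l (Fin.rev i.succ) + ((i.succ : Fin (n + 1)) : ℕ)) _ = _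
      rw [Fin.rev_succ, Fin.val_succ]
      congr 1
      omega
    have f2 : sys p (n + 1) l i.castSucc = ph p (lo + i) (n - 1 - i + 1) := by
      show ph p (l (Fin.rev i.castSucc) + ((i.castSucc : Fin (n + 1)) : ℕ)) _ = _
      rw [Fin.rev_castSucc, Fin.val_castSucc]
      congr 1
      omega
    have hsum : ∑ v ∈ S i, C (w i v) * g i v = C ((1 - p * a)⁻¹) *
        (ph p (lo + i) (n - 1 - i) * ∑ k ∈ range (e + 1),
          C (a ^ (e - k) * (if 0 < k then 1 - p * a else 1)) * X ^ k) := by
      have : S i = Finset.Ico lo (hi' + 1) := by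
        ext v; simp [hS, ← hlo, ← hhi]
      rw [this, Finset.sum_Ico_eq_sum_range, show hi' + 1 - lo = e + 1 by omega]
      rw [Finset.mul_sum, Finset.mul_sum]
      refine Finset.sum_congr rfl fun k hk => ?_
      have hk' : k ≤ e := Nat.lt_succ_iff.1 (Finset.mem_range.1 hk)
      simp only [hw, hg, ← hlo, ← hhi, ph]
      rw [show hi' - (lo + k) = e - k by omega]
      have hif : (if lo < lo + k then 1 - p * a else (1 : K)) =
          (if 0 < k then 1 - p * a else (1 : K)) := by
        by_cases h0 : 0 < k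
        · rw [if_pos h0, if_pos (by omega)]
        · rw [if_neg h0, if_neg (by omega)]
      rw [hif]
      simp only [C_mul, pow_add]
      ring
    rw [f1, f2, hsum]
    have hk := lemA_key p a e
    have hinv : C ((1 - p * a)⁻¹) * C (1 - p * a) = (1 : K[X]) := by
      rw [← C_mul, inv_mul_cancel₀ hpa, C_1]
    have hcast : hi' - lo + 1 = e + 1 := by omega
    rw [hcast, he]
    simp only [ph]
    rw [show lo + e + ((i : ℕ) + 1) = (lo + i) + (e + 1) by ring, pow_add, pow_succ (1 - C p * X),
      C_mul]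
    linear_combination (C ((1 - p * a)⁻¹) * X ^ (lo + (i : ℕ)) * (1 - C p * X) ^ (n - 1 - (i : ℕ))) * hk
      - X ^ (lo + (i : ℕ)) * (1 - C p * X) ^ (n - 1 - (i : ℕ)) * X ^ (e + 1) * hinv

theorem G_eq_ND (p : K) (n : ℕ) (l : Fin n → ℕ) (hl : Antitone l) (x : ℕ → K)
    (hx : ∀ j < n, x j ≠ 0 ∧ 1 - p * x j ≠ 0) : G p n l x = ND n (sys p n l) x := by
  induction n with
  | zero => rw [ND_zero]; rfl
  | succ n ih =>
    rw [← ND_rot, ND_sys_cons p (x n) (hx n n.lt_succ_self).1 (hx n n.lt_succ_self).2 n l hl x]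
    rw [G]
    refine Finset.sum_congr rfl fun m hm => ?_
    rw [ih m (antitone_of_mem_below hm) fun j hj => hx j (hj.trans n.lt_succ_self)]
    ring

end Pool.Agent.GroB
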