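import Pool.Agent.Lib_MP_58440c_pr.Lsm
import Pool.Agent.Lib_MP_58440c_pr.LemA

/-!
# Piece LSMP: log-supermodularity of `l ↦ G p n l x` in two coordinates

`G p n l x = ND n (sys p n l) x` (`G_eq_ND`; `PosPt` gives the nonvanishing). Raising `l i` by `s`
changes row `rev i` of `sys` from `ph p (l i + rev i) (n-1-rev i)` to
`ph p (l i + s + rev i) (n-1-rev i)`. Put `n = m + 2`, let the two rows be `u < v` (rows in the
increasing order), `k` = the other rows (`Fin.removeNth`/`succAbove`). `lsm_core` with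
`i = u`, `j` such that `u.succAbove j = v`, `i' = u`, `j' =` position of `v` among the rows without
`u` (`= j`); the points are the first two points of `x` in front: `x = cons (x 0) (cons (x 1) x'')`,
`x'' = fun n => x (n+2)`, or use `ND_congr_lt`.
`0 < ND m k x''` by `tp_pos`; the two doubled systems are chains (`tp_nonneg`).
-/

open Finset Polynomial

namespace Pool.Agent.GroB

section insert

variable {m : ℕ}

theorem insertNth_ph (p : ℝ) (i : Fin (m + 1)) (a b : ℕ) (L B : Fin m → ℕ) :
    (Fin.insertNth i (ph p a b) (fun q => ph p (L q) (B q)) : Fin (m + 1) → ℝ[X]) =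
      fun r => ph p ((Fin.insertNth i a L : Fin (m + 1) → ℕ) r)
        ((Fin.insertNth i b B : Fin (m + 1) → ℕ) r) := by
  funext r
  rcases Fin.eq_self_or_eq_succAbove i r with h | ⟨q, h⟩
  · subst h
    simp only [Fin.insertNth_apply_same]
  · subst h
    simp only [Fin.insertNth_apply_succAbove]

theorem mono_insertNth (i : Fin (m + 1)) (a : ℕ) (L : Fin m → ℕ) (hL : Monotone L)
    (h1 : ∀ q : Fin m, q.castSucc < i → L q ≤ a) (h2 : ∀ q : Fin m, i ≤ q.castSucc → a ≤ L q) :
    Monotone (Fin.insertNth i a L : Fin (m + 1) → ℕ) := by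
  intro r r' hrr
  rcases Fin.eq_self_or_eq_succAbove i r with h | ⟨q, h⟩ <;>
    rcases Fin.eq_self_or_eq_succAbove i r' with h' | ⟨q', h'⟩
  · rw [h, h']
  · subst h h'
    simp only [Fin.insertNth_apply_same, Fin.insertNth_apply_succAbove]
    refine h2 q' ((Fin.lt_succAbove_iff_le_castSucc _ _).1 (lt_of_le_of_ne hrr ?_))
    exact (Fin.succAbove_ne _ _).symm
  · subst h h'
    simp only [Fin.insertNth_apply_same, Fin.insertNth_apply_succAbove]
    exact h1 q ((Fin.succAbove_lt_iff_castSucc_lt _ _).1 (lt_of_le_of_ne hrr (Fin.succAbove_ne _ _)))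
  · subst h h'
    simp only [Fin.insertNth_apply_succAbove]
    exact hL ((Fin.succAbove_le_succAbove_iff).1 hrr)

theorem anti_insertNth (i : Fin (m + 1)) (a : ℕ) (L : Fin m → ℕ) (hL : Antitone L)
    (h1 : ∀ q : Fin m, q.castSucc < i → a ≤ L q) (h2 : ∀ q : Fin m, i ≤ q.castSucc → L q ≤ a) :
    Antitone (Fin.insertNth i a L : Fin (m + 1) → ℕ) := by
  intro r r' hrr
  rcases Fin.eq_self_or_eq_succAbove i r with h | ⟨q, h⟩ <;>
    rcases Fin.eq_self_or_eq_succAbove i r' with h' | ⟨q', h'⟩
  · rw [h, h']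
  · subst h h'
    simp only [Fin.insertNth_apply_same, Fin.insertNth_apply_succAbove]
    refine h2 q' ((Fin.lt_succAbove_iff_le_castSucc _ _).1 (lt_of_le_of_ne hrr ?_))
    exact (Fin.succAbove_ne _ _).symm
  · subst h h'
    simp only [Fin.insertNth_apply_same, Fin.insertNth_apply_succAbove]
    exact h1 q ((Fin.succAbove_lt_iff_castSucc_lt _ _).1 (lt_of_le_of_ne hrr (Fin.succAbove_ne _ _)))
  · subst h h'
    simp only [Fin.insertNth_apply_succAbove]
    exact hL ((Fin.succAbove_le_succAbove_iff).1 hrr)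

/-- the system with the row `a ≤ a'` doubled at position `i` is a chain -/
theorem doubled_nonneg (p : ℝ) (hp : 0 < p) (i : Fin (m + 1)) (a s b : ℕ) (L B : Fin m → ℕ)
    (hL : Monotone L) (hB : Antitone B)
    (h1 : ∀ q : Fin m, q.castSucc < i → L q ≤ a)
    (h2 : ∀ q : Fin m, i ≤ q.castSucc → a + s ≤ L q)
    (h3 : ∀ q : Fin m, q.castSucc < i → b ≤ B q) (h4 : ∀ q : Fin m, i ≤ q.castSucc → B q ≤ b)
    (x : ℕ → ℝ) (hx : PosPt p x) :
    0 ≤ ND (m + 2) (Fin.insertNth i.castSucc (ph p a b)
      (Fin.insertNth i (ph p (a + s) b) (fun q => ph p (L q) (B q)))) x := by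
  rw [insertNth_ph, insertNth_ph]
  apply tp_nonneg p hp
  · apply mono_insertNth
    · exact mono_insertNth i _ L hL (fun q hq => (h1 q hq).trans (Nat.le_add_right _ _)) h2
    · intro r hr
      have hr' : r < i := by simpa using hr
      rcases Fin.eq_self_or_eq_succAbove i r with h | ⟨q, h⟩
      · exact absurd h hr'.ne
      · subst h
        rw [Fin.insertNth_apply_succAbove]
        exact h1 q ((Fin.succAbove_lt_iff_castSucc_lt _ _).1 hr')
    · intro r hr
      have hr' : i ≤ r := by simpa using hr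
      rcases Fin.eq_self_or_eq_succAbove i r with h | ⟨q, h⟩
      · subst h
        rw [Fin.insertNth_apply_same]
        exact Nat.le_add_right _ _
      · subst h
        rw [Fin.insertNth_apply_succAbove]
        refine (Nat.le_add_right _ _).trans (h2 q ((Fin.lt_succAbove_iff_le_castSucc _ _).1
          (lt_of_le_of_ne hr' (Fin.succAbove_ne _ _).symm)))
  · apply anti_insertNth
    · exact anti_insertNth i _ B hB h3 h4
    · intro r hr
      have hr' : r < i := by simpa using hr
      rcases Fin.eq_self_or_eq_succAbove i r with h | ⟨q, h⟩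
      · exact absurd h hr'.ne
      · subst h
        rw [Fin.insertNth_apply_succAbove]
        exact h3 q ((Fin.succAbove_lt_iff_castSucc_lt _ _).1 hr')
    · intro r hr
      have hr' : i ≤ r := by simpa using hr
      rcases Fin.eq_self_or_eq_succAbove i r with h | ⟨q, h⟩
      · subst h
        rw [Fin.insertNth_apply_same]
      · subst h
        rw [Fin.insertNth_apply_succAbove]
        exact h4 q ((Fin.lt_succAbove_iff_le_castSucc _ _).1
          (lt_of_le_of_ne hr' (Fin.succAbove_ne _ _).symm))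
  · exact hx

end insert

/-- the case of two rows `u < v` -/
theorem lsm2_rows (p : ℝ) (hp : 0 < p) (m : ℕ) (l : Fin (m + 2) → ℕ) (u v : Fin (m + 2))
    (huv : u < v) (s t : ℕ) (hl : Antitone l)
    (hi : Antitone (Function.update l u.rev (l u.rev + s)))
    (hj : Antitone (Function.update l v.rev (l v.rev + t))) (x : ℕ → ℝ) (hx : PosPt p x) :
    ND (m + 2) (sys p (m + 2) (Function.update l u.rev (l u.rev + s))) x *
        ND (m + 2) (sys p (m + 2) (Function.update l v.rev (l v.rev + t))) x ≤
      ND (m + 2) (sys p (m + 2) l) x *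
        ND (m + 2) (sys p (m + 2)
          (Function.update (Function.update l u.rev (l u.rev + s)) v.rev (l v.rev + t))) x := by
  have huv' : (u : ℕ) < v := huv
  have hv2 : (v : ℕ) < m + 2 := v.2
  -- the position of `v` among the rows without `u`
  obtain ⟨j, hj0⟩ : ∃ j : Fin (m + 1), (j : ℕ) + 1 = v := ⟨⟨v - 1, by omega⟩, by
    show (v : ℕ) - 1 + 1 = v
    omega⟩
  have hjv : u.succAbove j = v := by
    apply Fin.ext
    have : ¬ j.castSucc < u := by
      rw [Fin.lt_def, Fin.val_castSucc]
      omega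
    rw [Fin.succAbove_of_le_castSucc _ _ (not_lt.mp this), Fin.val_succ, hj0]
  set σ : Fin m → Fin (m + 2) := fun q => u.succAbove (j.succAbove q) with hσ
  have hσmono : StrictMono σ := (Fin.strictMono_succAbove u).comp (Fin.strictMono_succAbove j)
  have hσu : ∀ q, σ q ≠ u := fun q => Fin.succAbove_ne _ _
  have hσv : ∀ q, σ q ≠ v := by
    intro q h
    rw [← hjv] at h
    exact Fin.succAbove_ne j q (Fin.succAbove_right_injective h)
  have hσval : ∀ q : Fin m, ((q : ℕ) < u → ((σ q : Fin (m + 2)) : ℕ) < u) ∧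
      ((u : ℕ) ≤ q → (u : ℕ) < (σ q : Fin (m + 2))) ∧
      ((q : ℕ) < j → ((σ q : Fin (m + 2)) : ℕ) < v) ∧
      ((j : ℕ) ≤ q → (v : ℕ) < (σ q : Fin (m + 2))) := by
    intro q
    have h1 : ((σ q : Fin (m + 2)) : ℕ) =
        if ((if (q : ℕ) < j then (q : ℕ) else q + 1) < (u : ℕ)) then
          (if (q : ℕ) < j then (q : ℕ) else q + 1) else
          (if (q : ℕ) < j then (q : ℕ) else q + 1) + 1 := by
      have h2 : ((j.succAbove q : Fin (m + 1)) : ℕ) = if (q : ℕ) < j then (q : ℕ) else q + 1 := by
        rw [Fin.succAbove]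
        split_ifs with h3 h4 h4
        · rfl
        · exact absurd h3 h4
        · exact absurd h4 h3
        · rfl
      have h3 : ((u.succAbove (j.succAbove q) : Fin (m + 2)) : ℕ) =
          if ((j.succAbove q : Fin (m + 1)) : ℕ) < u then ((j.succAbove q : Fin (m + 1)) : ℕ)
            else ((j.succAbove q : Fin (m + 1)) : ℕ) + 1 := by
        rw [Fin.succAbove]
        split_ifs with h3 h4 h4
        · rfl
        · exact absurd h3 h4
        · exact absurd h4 h3
        · rfl
      rw [h2] at h3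
      exact h3
    rw [h1]
    split_ifs <;> refine ⟨?_, ?_, ?_, ?_⟩ <;> intro h <;> omega
  set Lf : Fin (m + 2) → ℕ := fun r => l r.rev + r with hLf
  set Bf : Fin (m + 2) → ℕ := fun r => m + 2 - 1 - r with hBf
  have hLmono : StrictMono Lf := by
    intro r r' hrr
    have h1 : l r.rev ≤ l r'.rev := hl (Fin.rev_le_rev.mpr hrr.le)
    have h2 : (r : ℕ) < r' := hrr
    show l r.rev + (r : ℕ) < l r'.rev + (r' : ℕ)
    omega
  have hBanti : Antitone Bf := by
    intro r r' hrr
    have h2 : (r : ℕ) ≤ r' := hrr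
    show m + 2 - 1 - (r' : ℕ) ≤ m + 2 - 1 - (r : ℕ)
    omega
  set k : Fin m → ℝ[X] := fun q => ph p (Lf (σ q)) (Bf (σ q)) with hk
  -- the systems
  have hsys : ∀ l₁ : Fin (m + 2) → ℕ, (∀ i, i ≠ u.rev → i ≠ v.rev → l₁ i = l i) →
      sys p (m + 2) l₁ = Fin.insertNth u (ph p (l₁ u.rev + u) (Bf u))
        (Fin.insertNth j (ph p (l₁ v.rev + v) (Bf v)) k) := by
    intro l₁ h1
    funext r
    rcases Fin.eq_self_or_eq_succAbove u r with h | ⟨r', h⟩
    · subst h
      rw [Fin.insertNth_apply_same]
      rfl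
    · rcases Fin.eq_self_or_eq_succAbove j r' with h' | ⟨q, h'⟩
      · subst h'
        rw [h, Fin.insertNth_apply_succAbove, Fin.insertNth_apply_same, hjv]
        rfl
      · have hr : r = σ q := by rw [h, h']
        rw [h, h', Fin.insertNth_apply_succAbove, Fin.insertNth_apply_succAbove]
        show ph p (l₁ (σ q).rev + (σ q : ℕ)) (m + 2 - 1 - (σ q : ℕ)) =
          ph p (l (σ q).rev + (σ q : ℕ)) (m + 2 - 1 - (σ q : ℕ))
        rw [h1 _ (fun h2 => hσu q (Fin.rev_injective h2)) (fun h2 => hσv q (Fin.rev_injective h2))]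
  have hne : u.rev ≠ v.rev := fun h => huv.ne (Fin.rev_injective h)
  rw [hsys l (fun _ _ _ => rfl), hsys (Function.update l u.rev (l u.rev + s))
      (fun i h1 _ => Function.update_of_ne h1 _ _),
    hsys (Function.update l v.rev (l v.rev + t)) (fun i _ h2 => Function.update_of_ne h2 _ _),
    hsys (Function.update (Function.update l u.rev (l u.rev + s)) v.rev (l v.rev + t))
      (fun i h1 h2 => by rw [Function.update_of_ne h2, Function.update_of_ne h1])]
  rw [Function.update_self, Function.update_self, Function.update_self,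
    Function.update_of_ne hne.symm, Function.update_of_ne hne, Function.update_of_ne hne,
    Function.update_self]
  -- the points
  have hxc : x = cons (x 0) (cons (x 1) (fun n => x (n + 2))) := by
    funext n
    rcases n with _ | _ | n
    · rfl
    · rfl
    · rfl
  have hx'' : PosPt p (fun n => x (n + 2)) := fun n => hx (n + 2)
  have hxx : PosPt p (cons (x 0) (cons (x 1) (fun n => x (n + 2)))) := by
    rw [← hxc]
    exact hx
  have hkpos : 0 < ND m k (fun n => x (n + 2)) :=
    tp_pos p hp m (fun q => Lf (σ q)) (fun q => Bf (σ q)) (hLmono.comp hσmono)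
      (hBanti.comp_monotone hσmono.monotone) _ hx''
  have hui : (u : ℕ) < m + 1 := by omega
  have haa : 0 ≤ ND (m + 2) (Fin.insertNth (⟨u, hui⟩ : Fin (m + 1)).castSucc (ph p (l u.rev + u) (Bf u))
      (Fin.insertNth (⟨u, hui⟩ : Fin (m + 1)) (ph p (l u.rev + s + u) (Bf u)) k))
      (cons (x 0) (cons (x 1) (fun n => x (n + 2)))) := by
    rw [show l u.rev + s + (u : ℕ) = l u.rev + u + s by ring]
    apply doubled_nonneg p hp
    · exact (hLmono.comp hσmono).monotone
    · exact hBanti.comp_monotone hσmono.monotone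
    · intro q hq
      have hq' : (q : ℕ) < u := hq
      have h1 : σ q < u := (hσval q).1 hq'
      exact (hLmono h1).le
    · intro q hq
      have hq' : (u : ℕ) ≤ q := hq
      have h1 : (u : ℕ) < (σ q : Fin (m + 2)) := (hσval q).2.1 hq'
      have h2 := hi (show (σ q).rev ≤ u.rev from Fin.rev_le_rev.mpr (show u ≤ σ q from h1.le))
      rw [Function.update_self, Function.update_of_ne
        (fun h => hσu q (Fin.rev_injective h))] at h2
      show l u.rev + u + s ≤ l (σ q).rev + (σ q : ℕ)
      omega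
    · intro q hq
      have hq' : (q : ℕ) < u := hq
      have h1 : σ q < u := (hσval q).1 hq'
      exact hBanti h1.le
    · intro q hq
      have hq' : (u : ℕ) ≤ q := hq
      have h1 : u < σ q := (hσval q).2.1 hq'
      exact hBanti h1.le
    · exact hxx
  have hcc : 0 ≤ ND (m + 2) (Fin.insertNth j.castSucc (ph p (l v.rev + v) (Bf v))
      (Fin.insertNth j (ph p (l v.rev + t + v) (Bf v)) k))
      (cons (x 0) (cons (x 1) (fun n => x (n + 2)))) := by
    rw [show l v.rev + t + (v : ℕ) = l v.rev + v + t by ring]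
    apply doubled_nonneg p hp
    · exact (hLmono.comp hσmono).monotone
    · exact hBanti.comp_monotone hσmono.monotone
    · intro q hq
      have hq' : (q : ℕ) < j := hq
      have h1 : σ q < v := (hσval q).2.2.1 hq'
      exact (hLmono h1).le
    · intro q hq
      have hq' : (j : ℕ) ≤ q := hq
      have h1 : (v : ℕ) < (σ q : Fin (m + 2)) := (hσval q).2.2.2 hq'
      have h2 := hj (show (σ q).rev ≤ v.rev from Fin.rev_le_rev.mpr (show v ≤ σ q from h1.le))
      rw [Function.update_self, Function.update_of_ne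
        (fun h => hσv q (Fin.rev_injective h))] at h2
      show l v.rev + v + t ≤ l (σ q).rev + (σ q : ℕ)
      omega
    · intro q hq
      have hq' : (q : ℕ) < j := hq
      have h1 : σ q < v := (hσval q).2.2.1 hq'
      exact hBanti h1.le
    · intro q hq
      have hq' : (j : ℕ) ≤ q := hq
      have h1 : v < σ q := (hσval q).2.2.2 hq'
      exact hBanti h1.le
    · exact hxx
  have hmain := lsm_core m k (fun n => x (n + 2)) (x 0) (x 1) hkpos u j ⟨u, hui⟩ j
    (ph p (l u.rev + u) (Bf u)) (ph p (l u.rev + s + u) (Bf u))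
    (ph p (l v.rev + v) (Bf v)) (ph p (l v.rev + t + v) (Bf v)) haa hcc
  rw [← hxc] at hmain
  linarith [hmain]

theorem lsm2 (p : ℝ) (hp : 0 < p) (n : ℕ) (l : Fin n → ℕ) (i j : Fin n) (hij : i ≠ j) (s t : ℕ)
    (hl : Antitone l) (hi : Antitone (Function.update l i (l i + s)))
    (hj : Antitone (Function.update l j (l j + t)))
    (hb : Antitone (Function.update (Function.update l i (l i + s)) j (l j + t)))
    (x : ℕ → ℝ) (hx : PosPt p x) :
    G p n (Function.update l i (l i + s)) x * G p n (Function.update l j (l j + t)) x ≤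
      G p n l x * G p n (Function.update (Function.update l i (l i + s)) j (l j + t)) x := by
  have hx' : ∀ j < n, x j ≠ 0 ∧ 1 - p * x j ≠ 0 := fun j _ =>
    ⟨(hx j).1.ne', (sub_pos.mpr (hx j).2).ne'⟩
  rw [G_eq_ND p n _ hi x hx', G_eq_ND p n _ hj x hx', G_eq_ND p n _ hl x hx',
    G_eq_ND p n _ hb x hx']
  obtain ⟨m, rfl⟩ : ∃ m, n = m + 2 := by
    have h1 := i.2
    have h2 := j.2
    have h3 : (i : ℕ) ≠ j := fun h => hij (Fin.ext h)
    exact ⟨n - 2, by omega⟩
  rcases lt_or_gt_of_ne hij with h | h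
  · -- `i < j`, so `rev j < rev i`
    have h1 := lsm2_rows p hp m l j.rev i.rev (Fin.rev_lt_rev.mpr h) t s hl
      (by rw [Fin.rev_rev]; exact hj) (by rw [Fin.rev_rev]; exact hi) x hx
    rw [Fin.rev_rev, Fin.rev_rev, Function.update_comm hij.symm] at h1
    rw [mul_comm (ND (m + 2) (sys p (m + 2) (Function.update l i (l i + s))) x)]
    exact h1
  · have h1 := lsm2_rows p hp m l i.rev j.rev (Fin.rev_lt_rev.mpr h) s t hl
      (by rw [Fin.rev_rev]; exact hi) (by rw [Fin.rev_rev]; exact hj) x hx
    rw [Fin.rev_rev, Fin.rev_rev] at h1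
    exact h1

end Pool.Agent.GroB
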