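import Pool.Agent.Lib_MP_58440c_pr.Below

/-!
# Piece GB1: basic facts on `G` (no symmetry needed)

* `G_congr`: `G p n l x` only depends on `x 0 .. x (n-1)`.
* `G_eq_zero`: `below l = ∅` if `l` is not antitone (`below_empty`; `n = 0`: all `l` are antitone).
* `G_pos`: all terms are positive on `PosPt` (`skew_pos`, `below_nonempty`,
  `antitone_of_mem_below`).
* `G_zero`: induction (`below 0 = {0}`, `skew = 1`).
* `G_add_one`: reindex `below (l+1) = (below l) + 1`, `skew` scales by `x n`
  (`∑ (l_i + 1) - ∑ (m_i + 1) = ∑ l - ∑ m + 1`, using `∑ m ≤ ∑ l` on `below l`), `rr` is unchanged.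
* `G_last_zero`: `0 ^ (∑ l - ∑ m)` vanishes unless `∑ m = ∑ l`, i.e. `l last = 0`, `m = l ∘ castSucc`
  (`rr l m = #{i | l i.succ < l i.castSucc}`, `(1 - p * 0)^r = 1`). If `l` is not antitone both sides
  vanish.
* `GP_eval`, `GP_coeff_nonneg`, `GP_harm`: induction on `n`; `G_mono_cons` follows (a polynomial with
  nonnegative coefficients is monotone on `[0, ∞)`; `n = 0`: `G = 1`).
* `G_theta`: induction; `x^a (1-px)^r ≤ θ^a * ((1-p)⁻¹)^n * (1-p)^r` for `r ≤ n`, `0 ≤ x ≤ θ ≤ 1`.
-/

open Finset Polynomial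

namespace Pool.Agent.GroB

theorem UnitSeq.posPt {p : ℝ} (hp0 : 0 < p) (hp1 : p < 1) {x : ℕ → ℝ} (hx : UnitSeq x) :
    PosPt p x := by
  intro j
  have h := hx j
  exact ⟨h.1, by nlinarith [h.1, h.2]⟩

theorem unitSeq_one : UnitSeq one := fun _ => ⟨one_pos, le_rfl⟩

theorem UnitSeq.cons {x : ℕ → ℝ} (hx : UnitSeq x) {z : ℝ} (hz : 0 < z) (hz1 : z ≤ 1) :
    UnitSeq (GroB.cons z x) := by
  intro j
  cases j with
  | zero => exact ⟨hz, hz1⟩
  | succ j => exact hx j

theorem PosPt.cons {p : ℝ} {x : ℕ → ℝ} (hx : PosPt p x) {z : ℝ} (hz : 0 < z) (hz' : p * z < 1) :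
    PosPt p (GroB.cons z x) := by
  intro j
  cases j with
  | zero => exact ⟨hz, hz'⟩
  | succ j => exact hx j

theorem cons_one_one : cons 1 one = one := by
  funext j; cases j <;> rfl

theorem G_congr {R : Type*} [CommRing R] (p : R) (n : ℕ) (l : Fin n → ℕ) {x y : ℕ → R}
    (h : ∀ j < n, x j = y j) : G p n l x = G p n l y := by
  induction n with
  | zero => rfl
  | succ n ih =>
    rw [G, G, h n (Nat.lt_succ_self n)]
    refine Finset.sum_congr rfl fun m _ => ?_
    rw [ih m fun j hj => h j (Nat.lt_succ_of_lt hj)]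

theorem G_eq_zero {R : Type*} [CommRing R] (p : R) (n : ℕ) (l : Fin n → ℕ) (x : ℕ → R)
    (hl : ¬ Antitone l) : G p n l x = 0 := by
  cases n with
  | zero => exact absurd (fun a => a.elim0) hl
  | succ n => rw [G, below_empty hl, Finset.sum_empty]

theorem G_pos (p : ℝ) (n : ℕ) (l : Fin n → ℕ) (hl : Antitone l) (x : ℕ → ℝ) (hx : PosPt p x) :
    0 < G p n l x := by
  induction n with
  | zero => exact one_pos
  | succ n ih =>
    rw [G]
    refine Finset.sum_pos (fun m hm => ?_) ⟨_, below_nonempty hl⟩
    exact mul_pos (ih m (antitone_of_mem_below hm)) (skew_pos hm (hx n).1 (hx n).2)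

theorem G_nonneg (p : ℝ) (n : ℕ) (l : Fin n → ℕ) (x : ℕ → ℝ) (hx : PosPt p x) :
    0 ≤ G p n l x := by
  by_cases hl : Antitone l
  · exact (G_pos p n l hl x hx).le
  · exact (G_eq_zero p n l x hl).ge

theorem G_zero (p : ℝ) (n : ℕ) (x : ℕ → ℝ) : G p n (fun _ => 0) x = 1 := by
  induction n with
  | zero => rfl
  | succ n ih =>
    have h1 : below (fun _ : Fin (n + 1) => 0) = {fun _ : Fin n => 0} := by
      ext m
      rw [mem_below, Finset.mem_singleton]
      constructor
      · intro h
        funext i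
        have := (h i).2
        omega
      · rintro rfl i
        exact ⟨le_rfl, le_rfl⟩
    rw [G, h1, Finset.sum_singleton, ih, one_mul]
    have h2 : (fun _ : Fin n => 0) ∈ below (fun _ : Fin (n + 1) => 0) := by rw [h1]; simp
    rw [skew_of_mem p h2]
    simp [rr]

theorem G_add_one (p : ℝ) (n : ℕ) (l : Fin n → ℕ) (x : ℕ → ℝ) :
    G p n (fun i => l i + 1) x = (∏ j ∈ range n, x j) * G p n l x := by
  induction n with
  | zero => simp [G]
  | succ n ih =>
    rw [G, G, Finset.mul_sum]
    refine Finset.sum_nbij' (fun m i => m i - 1) (fun m i => m i + 1) ?_ ?_ ?_ ?_ ?_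
    · intro m hm
      rw [mem_below] at hm ⊢
      intro i
      have := hm i
      try simp only at this ⊢
      omega
    · intro m hm
      rw [mem_below] at hm ⊢
      intro i
      have := hm i
      try simp only at this ⊢
      omega
    · intro m hm
      rw [mem_below] at hm
      funext i
      have := hm i
      try simp only at this ⊢
      omega
    · intro m hm
      funext i
      simp
    · intro m hm
      have hm' := mem_below.1 hm
      have e : m = fun i => (m i - 1) + 1 := by
        funext i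
        have := hm' i
        try simp only at this
        omega
      set k : Fin n → ℕ := fun i => m i - 1 with hk
      have e' : m = fun i => k i + 1 := e
      have hkb : k ∈ below l := by
        rw [mem_below]
        intro i
        have := hm' i
        simp only [hk] at this ⊢
        omega
      rw [skew_of_mem p hm, skew_of_mem p hkb]
      have e1 : rr (fun i => l i + 1) m = rr l k := by
        unfold rr
        congr 1
        ext i
        simp only [Finset.mem_filter, Finset.mem_univ, true_and]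
        rw [e']
        simp
      have e2 : (∑ i, (l i + 1)) - ∑ i, m i = (∑ i, l i - ∑ i, k i) + 1 := by
        have h1 := sum_le_of_mem_below hkb
        have h2 : ∑ i, m i = ∑ i, k i + n := by
          rw [e', Finset.sum_add_distrib]
          simp
        rw [Finset.sum_add_distrib, h2]
        simp only [Finset.sum_const, Finset.card_univ, Fintype.card_fin, smul_eq_mul, mul_one]
        omega
      have e3 : G p n m x = (∏ j ∈ range n, x j) * G p n k x := by
        rw [e']; exact ih k
      rw [e1, e2, e3, Finset.prod_range_succ]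
      ring

theorem G_last_zero (p : ℝ) (n : ℕ) (l : Fin (n + 1) → ℕ) (x : ℕ → ℝ) (hx : x n = 0) :
    G p (n + 1) l x =
      if l (Fin.last n) = 0 then G p n (fun i => l i.castSucc) x else 0 := by
  by_cases hl : Antitone l
  · rw [G]
    have hsum : ∀ m ∈ below l, ∑ i, l i - ∑ i, m i = 0 →
        l (Fin.last n) = 0 ∧ m = fun i => l i.castSucc := by
      intro m hm h0
      have h1 := sum_le_of_mem_below hm
      rw [mem_below] at hm
      rw [Fin.sum_univ_castSucc] at h0 h1
      have h2 : ∑ i, m i ≤ ∑ i : Fin n, l i.castSucc := Finset.sum_le_sum fun i _ => (hm i).2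
      have h3 : ∑ i, m i = ∑ i : Fin n, l i.castSucc := by omega
      refine ⟨by omega, ?_⟩
      funext i
      exact (Finset.sum_eq_sum_iff_of_le fun i _ => (hm i).2).1 h3 i (Finset.mem_univ i)
    split_ifs with h
    · rw [Finset.sum_eq_single (fun i : Fin n => l i.castSucc)]
      · rw [skew_of_mem p (below_nonempty hl), Fin.sum_univ_castSucc, h, hx]
        simp
      · intro m hm hne
        rw [skew_of_mem p hm, hx]
        have : ∑ i, l i - ∑ i, m i ≠ 0 := fun h0 => hne (hsum m hm h0).2
        rw [zero_pow this]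
        simp
      · intro h'
        exact absurd (below_nonempty hl) h'
    · refine Finset.sum_eq_zero fun m hm => ?_
      rw [skew_of_mem p hm, hx]
      have : ∑ i, l i - ∑ i, m i ≠ 0 := fun h0 => h (hsum m hm h0).1
      rw [zero_pow this]
      simp
  · rw [G_eq_zero p (n + 1) l x hl]
    split_ifs with h
    · rw [G_eq_zero]
      intro hl'
      apply hl
      intro i j hij
      induction j using Fin.lastCases with
      | last => rw [h]; exact Nat.zero_le _
      | cast j =>
        induction i using Fin.lastCases with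
        | last =>
          exfalso
          have := Fin.le_def.1 hij
          have h2 := j.2
          simp at this
          omega
        | cast i => exact hl' (by simpa using hij)
    · rfl

theorem G_continuous (p : ℝ) (n : ℕ) (l : Fin n → ℕ) : Continuous fun x : ℕ → ℝ => G p n l x := by
  induction n with
  | zero => exact continuous_const
  | succ n ih =>
    simp only [G]
    refine continuous_finsetSum _ fun m hm => (ih m).mul ?_
    have : ∀ x : ℕ → ℝ, skew p l m (x n) =
        x n ^ (∑ i, l i - ∑ i, m i) * (1 - p * x n) ^ rr l m := fun x => skew_of_mem p hm _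
    simp only [this]
    fun_prop

theorem GP_eval (p : ℝ) (n : ℕ) (l : Fin (n + 1) → ℕ) (x : ℕ → ℝ) (z : ℝ) :
    (GP p n l x).eval z = G p (n + 1) l (cons z x) := by
  induction n with
  | zero =>
    rw [GP, G]
    have h1 : below l = {fun i : Fin 0 => l i.castSucc} := by
      ext m
      rw [mem_below, Finset.mem_singleton]
      exact ⟨fun _ => funext fun i => i.elim0, fun _ i => i.elim0⟩
    rw [h1, Finset.sum_singleton, skew_of_mem p (by rw [h1]; simp)]
    simp [G, rr]
  | succ n ih =>
    rw [GP, G, eval_finsetSum]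
    refine Finset.sum_congr rfl fun m _ => ?_
    rw [eval_mul, eval_C, ih m, cons_succ, mul_comm]

theorem GP_coeff_nonneg (p : ℝ) (n : ℕ) (l : Fin (n + 1) → ℕ) (x : ℕ → ℝ) (hx : PosPt p x)
    (k : ℕ) : 0 ≤ (GP p n l x).coeff k := by
  induction n generalizing k with
  | zero =>
    rw [GP, coeff_X_pow]
    split_ifs <;> norm_num
  | succ n ih =>
    rw [GP, finsetSum_coeff]
    refine Finset.sum_nonneg fun m _ => ?_
    rw [coeff_C_mul]
    exact mul_nonneg (skew_nonneg l m (hx n).1.le (hx n).2.le) (ih m k)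

theorem G_mono_cons (p : ℝ) (n : ℕ) (l : Fin n → ℕ) (x : ℕ → ℝ) (hx : PosPt p x) {z z' : ℝ}
    (hz : 0 ≤ z) (hzz : z ≤ z') : G p n l (cons z x) ≤ G p n l (cons z' x) := by
  cases n with
  | zero => exact le_rfl
  | succ n =>
    rw [← GP_eval, ← GP_eval, eval_eq_sum_range, eval_eq_sum_range]
    refine Finset.sum_le_sum fun k _ => ?_
    exact mul_le_mul_of_nonneg_left (pow_le_pow_left₀ hz hzz k) (GP_coeff_nonneg p n l x hx k)

theorem G_theta (p : ℝ) (hp0 : 0 < p) (hp1 : p < 1) (n : ℕ) (l : Fin n → ℕ) (x : ℕ → ℝ)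
    (θ : ℝ) (hx : ∀ j, 0 ≤ x j ∧ x j ≤ θ) (hθ : θ ≤ 1) :
    G p n l x ≤ ((1 - p)⁻¹) ^ (n * n) * θ ^ (∑ i, l i) * G p n l one := by
  have hq : 0 < 1 - p := by linarith
  have hq1 : 1 ≤ (1 - p)⁻¹ := by
    rw [one_le_inv₀ hq]
    linarith
  have hθ0 : 0 ≤ θ := (hx 0).1.trans (hx 0).2
  have hone : PosPt p one := unitSeq_one.posPt hp0 hp1
  induction n with
  | zero => simp [G]
  | succ n ih =>
    rw [G, G, Finset.mul_sum]
    refine Finset.sum_le_sum fun m hm => ?_
    have hsum := sum_le_of_mem_below hm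
    have hG : 0 ≤ G p n m one := G_nonneg p n m one hone
    have hx0 := (hx n).1
    have hx1 := (hx n).2
    have hpx : 0 ≤ 1 - p * x n := by nlinarith
    have hpx1 : 1 - p * x n ≤ 1 := by nlinarith
    have hskew : skew p l m (x n) ≤ θ ^ (∑ i, l i - ∑ i, m i) := by
      rw [skew_of_mem p hm]
      calc x n ^ (∑ i, l i - ∑ i, m i) * (1 - p * x n) ^ rr l m
          ≤ θ ^ (∑ i, l i - ∑ i, m i) * 1 := by
            apply mul_le_mul (pow_le_pow_left₀ hx0 hx1 _) (pow_le_one₀ hpx hpx1)
              (pow_nonneg hpx _) (pow_nonneg hθ0 _)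
        _ = _ := mul_one _
    have hskew0 : 0 ≤ skew p l m (x n) := skew_nonneg l m hx0 (by linarith)
    have hskew1 : 1 ≤ ((1 - p)⁻¹) ^ n * skew p l m (one n) := by
      rw [skew_of_mem p hm, one_apply, one_pow, one_mul, mul_one, inv_pow]
      rw [← div_eq_inv_mul, one_le_div (pow_pos hq n)]
      exact pow_le_pow_of_le_one hq.le (by linarith) (rr_le l m)
    have hB : 0 ≤ ((1 - p)⁻¹) ^ (n * n) * θ ^ (∑ i, m i) * G p n m one := by positivity
    calc G p n m x * skew p l m (x n)
        ≤ (((1 - p)⁻¹) ^ (n * n) * θ ^ (∑ i, m i) * G p n m one) * θ ^ (∑ i, l i - ∑ i, m i) :=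
          mul_le_mul (ih m) hskew hskew0 hB
      _ = ((1 - p)⁻¹) ^ (n * n) * (θ ^ (∑ i, m i) * θ ^ (∑ i, l i - ∑ i, m i)) * G p n m one := by
          ring
      _ = ((1 - p)⁻¹) ^ (n * n) * θ ^ (∑ i, l i) * G p n m one := by
          rw [← pow_add, Nat.add_sub_cancel' hsum]
      _ ≤ ((1 - p)⁻¹) ^ (n * n) * θ ^ (∑ i, l i) * G p n m one *
            (((1 - p)⁻¹) ^ n * skew p l m (one n)) := by
          apply le_mul_of_one_le_right (by positivity) hskew1
      _ = ((1 - p)⁻¹) ^ (n * n + n) * θ ^ (∑ i, l i) * (G p n m one * skew p l m (one n)) := by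
          rw [pow_add]; ring
      _ ≤ ((1 - p)⁻¹) ^ ((n + 1) * (n + 1)) * θ ^ (∑ i, l i) *
            (G p n m one * skew p l m (one n)) := by
          have h1 : 0 ≤ skew p l m (one n) := skew_nonneg l m zero_le_one (by simp; linarith)
          have h2 : ((1 - p)⁻¹) ^ (n * n + n) ≤ ((1 - p)⁻¹) ^ ((n + 1) * (n + 1)) :=
            pow_le_pow_right₀ hq1 (by nlinarith)
          gcongr

end Pool.Agent.GroB
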