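import Pool.Agent.Lib_MP_58440c_pr.TpBase

/-!
# Piece TP: total positivity of chain systems

Fix `M ≥ l_i + b_i` for all `i` and use strong induction on
`∑ (M - l_i - b_i)` to prove BOTH for chains with `l` monotone, `b` antitone.
If two rows `i ≠ j` are equal then `ND = 0` (`ND_eq_zero_of_eq`), fine for `≥ 0`, and impossible when
`l` is strictly monotone. If the sum is `0`: all `l_i + b_i = M`; distinct rows, so `l` is strictly
monotone: `tp_base`. Otherwise choose `i` with `l_i + b_i` minimal (`< M`), and use
`ph p l b = ph p l (b+1) + p ph p (l+1) b` in row `i`.
-/

open Finset Polynomial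

namespace Pool.Agent.GroB

theorem ph_split (p : ℝ) (l b : ℕ) : ph p l b = ph p l (b + 1) + C p * ph p (l + 1) b := by
  simp only [ph, pow_succ]; ring

theorem tp_aux (p : ℝ) (hp : 0 < p) (n M : ℕ) (x : ℕ → ℝ) (hx : PosPt p x) (D : ℕ) :
    ∀ l b : Fin n → ℕ, Monotone l → Antitone b → (∀ i, l i + b i ≤ M) →
      ∑ i, (M - (l i + b i)) = D →
      0 ≤ ND n (fun i => ph p (l i) (b i)) x ∧
        (StrictMono l → 0 < ND n (fun i => ph p (l i) (b i)) x) := by
  induction D using Nat.strong_induction_on with
  | _ D ih =>
    intro l b hl hb hM hD
    by_cases hdist : ∃ i j : Fin n, i ≠ j ∧ l i = l j ∧ b i = b j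
    · obtain ⟨i, j, hij, h1, h2⟩ := hdist
      have hz : ND n (fun i => ph p (l i) (b i)) x = 0 :=
        ND_eq_zero_of_eq _ x (i := i) (j := j) (by simp only [h1, h2]) hij
      exact ⟨hz.ge, fun hs => absurd (hs.injective h1) hij⟩
    · push Not at hdist
      by_cases hall : ∀ i, l i + b i = M
      · have hs : StrictMono l := by
          intro i j hij
          refine lt_of_le_of_ne (hl hij.le) fun h => hdist i j hij.ne h ?_
          have h1 := hall i
          have h2 := hall j
          omega
        have hb' : (fun i => ph p (l i) (b i)) = fun i => ph p (l i) (M - l i) := by
          funext i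
          have h1 := hall i
          congr 1
          omega
        have := tp_base p hp n M l hs (fun i => by have := hall i; omega) x hx
        rw [hb']
        exact ⟨this.le, fun _ => this⟩
      · push Not at hall
        obtain ⟨i0, hi0⟩ := hall
        obtain ⟨i, -, hmin⟩ := Finset.exists_min_image Finset.univ (fun i => l i + b i)
          ⟨i0, Finset.mem_univ _⟩
        have hiM : l i + b i < M := by
          have := hmin i0 (Finset.mem_univ _)
          have h2 := hM i0
          omega
        have hmin' : ∀ j, l i + b i ≤ l j + b j := fun j => hmin j (Finset.mem_univ _)
        have hDpos : ∑ j ∈ Finset.univ.erase i, (M - (l j + b j)) + (M - (l i + b i)) = D := by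
          rw [← hD, ← Finset.sum_erase_add _ _ (Finset.mem_univ i)]
        -- first system
        have hb1 : Antitone (Function.update b i (b i + 1)) := by
          intro j k hjk
          rcases eq_or_lt_of_le hjk with rfl | hlt
          · exact le_rfl
          by_cases hk : k = i
          · subst hk
            have hj : j ≠ k := hlt.ne
            rw [Function.update_self, Function.update_of_ne hj]
            have h1 := hb hjk
            have h2 := hl hjk
            have h3 := hmin' j
            by_contra hcon
            have h4 : b j = b k := by omega
            exact hdist j k hj (by omega) h4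
          · rw [Function.update_of_ne hk]
            by_cases hj : j = i
            · subst hj
              rw [Function.update_self]
              exact (hb hjk).trans (Nat.le_succ _)
            · rw [Function.update_of_ne hj]
              exact hb hjk
        have hl2 : Monotone (Function.update l i (l i + 1)) := by
          intro j k hjk
          rcases eq_or_lt_of_le hjk with rfl | hlt
          · exact le_rfl
          by_cases hj : j = i
          · subst hj
            have hk : k ≠ j := hlt.ne'
            rw [Function.update_self, Function.update_of_ne hk]
            have h1 := hb hjk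
            have h2 := hl hjk
            have h3 := hmin' k
            by_contra hcon
            have h4 : l j = l k := by omega
            exact hdist j k hk.symm h4 (by omega)
          · rw [Function.update_of_ne hj]
            by_cases hk : k = i
            · subst hk
              rw [Function.update_self]
              exact (hl hjk).trans (Nat.le_succ _)
            · rw [Function.update_of_ne hk]
              exact hl hjk
        have hs1 : ∑ j, (M - (l j + Function.update b i (b i + 1) j)) < D := by
          rw [← Finset.sum_erase_add _ _ (Finset.mem_univ i), Function.update_self]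
          rw [Finset.sum_congr rfl fun j hj => by
            rw [Function.update_of_ne (Finset.ne_of_mem_erase hj)]]
          omega
        have hs2 : ∑ j, (M - (Function.update l i (l i + 1) j + b j)) < D := by
          rw [← Finset.sum_erase_add _ _ (Finset.mem_univ i), Function.update_self]
          rw [Finset.sum_congr rfl fun j hj => by
            rw [Function.update_of_ne (Finset.ne_of_mem_erase hj)]]
          omega
        have hM1 : ∀ j, l j + Function.update b i (b i + 1) j ≤ M := by
          intro j
          by_cases hj : j = i
          · subst hj; rw [Function.update_self]; omega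
          · rw [Function.update_of_ne hj]; exact hM j
        have hM2 : ∀ j, Function.update l i (l i + 1) j + b j ≤ M := by
          intro j
          by_cases hj : j = i
          · subst hj; rw [Function.update_self]; omega
          · rw [Function.update_of_ne hj]; exact hM j
        have I1 := ih _ hs1 l (Function.update b i (b i + 1)) hl hb1 hM1 rfl
        have I2 := ih _ hs2 (Function.update l i (l i + 1)) b hl2 hb hM2 rfl
        set f : Fin n → ℝ[X] := fun i => ph p (l i) (b i) with hf
        have e1 : (fun j => ph p (l j) (Function.update b i (b i + 1) j)) =
            Function.update f i (ph p (l i) (b i + 1)) := by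
          funext j
          by_cases hj : j = i
          · subst hj; rw [Function.update_self, Function.update_self]
          · rw [Function.update_of_ne hj, Function.update_of_ne hj]
        have e2 : (fun j => ph p (Function.update l i (l i + 1) j) (b j)) =
            Function.update f i (ph p (l i + 1) (b i)) := by
          funext j
          by_cases hj : j = i
          · subst hj; rw [Function.update_self, Function.update_self]
          · rw [Function.update_of_ne hj, Function.update_of_ne hj]
        rw [e1] at I1
        rw [e2] at I2
        have hsplit : ND n f x = ND n (Function.update f i (ph p (l i) (b i + 1))) x +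
            p * ND n (Function.update f i (ph p (l i + 1) (b i))) x := by
          conv_lhs => rw [← Function.update_eq_self i f]
          rw [show f i = ph p (l i) (b i + 1) + C p * ph p (l i + 1) (b i) from ph_split p _ _]
          rw [ND_update_add, ND_update_C_mul]
        rw [hsplit]
        refine ⟨add_nonneg I1.1 (mul_nonneg hp.le I2.1), fun hs => ?_⟩
        exact add_pos_of_pos_of_nonneg (I1.2 hs) (mul_nonneg hp.le I2.1)

theorem tp_both (p : ℝ) (hp : 0 < p) (n : ℕ) (l b : Fin n → ℕ) (hl : Monotone l)
    (hb : Antitone b) (x : ℕ → ℝ) (hx : PosPt p x) :
    0 ≤ ND n (fun i => ph p (l i) (b i)) x ∧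
        (StrictMono l → 0 < ND n (fun i => ph p (l i) (b i)) x) :=
  tp_aux p hp n (∑ i, (l i + b i)) x hx _ l b hl hb
    (fun i => Finset.single_le_sum (f := fun i => l i + b i) (fun _ _ => Nat.zero_le _)
      (Finset.mem_univ i)) rfl

theorem tp_nonneg (p : ℝ) (hp : 0 < p) (n : ℕ) (l b : Fin n → ℕ) (hl : Monotone l)
    (hb : Antitone b) (x : ℕ → ℝ) (hx : PosPt p x) :
    0 ≤ ND n (fun i => ph p (l i) (b i)) x :=
  (tp_both p hp n l b hl hb x hx).1

theorem tp_pos (p : ℝ) (hp : 0 < p) (n : ℕ) (l b : Fin n → ℕ) (hl : StrictMono l)
    (hb : Antitone b) (x : ℕ → ℝ) (hx : PosPt p x) :
    0 < ND n (fun i => ph p (l i) (b i)) x :=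
  (tp_both p hp n l b hl.monotone hb x hx).2 hl

end Pool.Agent.GroB
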