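import Pool.Agent.Lib_MP_58440c_pr.P1
import Pool.Agent.Lib_MP_58440c_pr.Tp
import Pool.Agent.Lib_MP_58440c_pr.GB1

/-!
# Piece MON: monotonicity of quotients

`mon`: replace the rows one at a time, from the LAST row `n` (largest exponent) down to row `0`:
`S_t` has rows `(l' i, b' i)` for `i ≥ t`, `(l i, b i)` for `i < t`.
-/

open Finset Polynomial Filter Topology

namespace Pool.Agent.GroB

theorem monotone_ins {n : ℕ} (u : Fin (n + 1) → ℕ) (hu : Monotone u) (t : Fin (n + 1)) (v : ℕ)
    (h1 : v ≤ u t) (h2 : ∀ s, s < t → u s ≤ v) :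
    Monotone (Fin.insertNth (α := fun _ => ℕ) t.castSucc v u) := by
  intro a b hab
  rcases Fin.eq_self_or_eq_succAbove t.castSucc a with rfl | ⟨a', rfl⟩
  · rcases Fin.eq_self_or_eq_succAbove t.castSucc b with rfl | ⟨b', rfl⟩
    · exact le_rfl
    · rw [Fin.insertNth_apply_same, Fin.insertNth_apply_succAbove]
      have hlt : t.castSucc < t.castSucc.succAbove b' :=
        lt_of_le_of_ne hab (Fin.succAbove_ne _ _).symm
      rw [Fin.lt_succAbove_iff_le_castSucc] at hlt
      exact h1.trans (hu (by simpa using hlt))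
  · rcases Fin.eq_self_or_eq_succAbove t.castSucc b with rfl | ⟨b', rfl⟩
    · rw [Fin.insertNth_apply_same, Fin.insertNth_apply_succAbove]
      have hlt : t.castSucc.succAbove a' < t.castSucc :=
        lt_of_le_of_ne hab (Fin.succAbove_ne _ _)
      rw [Fin.succAbove_lt_iff_castSucc_lt] at hlt
      exact h2 a' (by simpa using hlt)
    · rw [Fin.insertNth_apply_succAbove, Fin.insertNth_apply_succAbove]
      exact hu ((Fin.strictMono_succAbove _).le_iff_le.1 hab)

theorem antitone_ins {n : ℕ} (u : Fin (n + 1) → ℕ) (hu : Antitone u) (t : Fin (n + 1)) (v : ℕ)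
    (h1 : u t ≤ v) (h2 : ∀ s, s < t → v ≤ u s) :
    Antitone (Fin.insertNth (α := fun _ => ℕ) t.castSucc v u) := by
  intro a b hab
  rcases Fin.eq_self_or_eq_succAbove t.castSucc a with rfl | ⟨a', rfl⟩
  · rcases Fin.eq_self_or_eq_succAbove t.castSucc b with rfl | ⟨b', rfl⟩
    · exact le_rfl
    · rw [Fin.insertNth_apply_same, Fin.insertNth_apply_succAbove]
      have hlt : t.castSucc < t.castSucc.succAbove b' :=
        lt_of_le_of_ne hab (Fin.succAbove_ne _ _).symm
      rw [Fin.lt_succAbove_iff_le_castSucc] at hlt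
      exact (hu (by simpa using hlt)).trans h1
  · rcases Fin.eq_self_or_eq_succAbove t.castSucc b with rfl | ⟨b', rfl⟩
    · rw [Fin.insertNth_apply_same, Fin.insertNth_apply_succAbove]
      have hlt : t.castSucc.succAbove a' < t.castSucc :=
        lt_of_le_of_ne hab (Fin.succAbove_ne _ _)
      rw [Fin.succAbove_lt_iff_castSucc_lt] at hlt
      exact h2 a' (by simpa using hlt)
    · rw [Fin.insertNth_apply_succAbove, Fin.insertNth_apply_succAbove]
      exact hu ((Fin.strictMono_succAbove _).le_iff_le.1 hab)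

/-- one step: replace row `t` of the chain `(l, b)` by a larger row -/
theorem mon_step (p : ℝ) (hp : 0 < p) (n : ℕ) (l b : Fin (n + 1) → ℕ) (hl : StrictMono l)
    (hb : Antitone b) (t : Fin (n + 1)) (v w : ℕ) (hv : v ≤ l t) (hw : b t ≤ w)
    (hv2 : ∀ s, s < t → l s ≤ v) (hw2 : ∀ s, s < t → w ≤ b s)
    (x : ℕ → ℝ) (hx : PosPt p x) {z z' : ℝ} (hz : 0 < z) (hzz : z ≤ z') (hz' : p * z' < 1) :
    ND (n + 1) (fun i => ph p (l i) (b i)) (cons z x) *
        ND (n + 1) (Function.update (fun i => ph p (l i) (b i)) t (ph p v w)) (cons z' x) ≤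
      ND (n + 1) (fun i => ph p (l i) (b i)) (cons z' x) *
        ND (n + 1) (Function.update (fun i => ph p (l i) (b i)) t (ph p v w)) (cons z x) := by
  set S : Fin (n + 1) → ℝ[X] := fun i => ph p (l i) (b i) with hS
  set k : Fin n → ℝ[X] := fun s => S (t.succAbove s) with hk
  have hkpos : 0 < ND n k x :=
    tp_pos p hp n (fun s => l (t.succAbove s)) (fun s => b (t.succAbove s))
      (hl.comp (Fin.strictMono_succAbove t)) (hb.comp_monotone (Fin.strictMono_succAbove t).monotone)
      x hx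
  have e1 : S = Fin.insertNth (α := fun _ => ℝ[X]) t (ph p (l t) (b t)) k := by
    rw [Fin.eq_insertNth_iff]
    exact ⟨rfl, rfl⟩
  have e2 : Function.update S t (ph p v w) = Fin.insertNth (α := fun _ => ℝ[X]) t (ph p v w) k := by
    rw [Fin.eq_insertNth_iff]
    refine ⟨Function.update_self _ _ _, ?_⟩
    funext s
    show Function.update S t (ph p v w) (t.succAbove s) = _
    rw [Function.update_of_ne (Fin.succAbove_ne t s)]
  have hpl := plucker1 n k t (ph p v w) (ph p (l t) (b t)) x hkpos.ne' z z'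
  rw [← e1, ← e2] at hpl
  have e3 : (Fin.insertNth (α := fun _ => ℝ[X]) t.castSucc (ph p v w) S) =
      fun i => ph p (Fin.insertNth (α := fun _ => ℕ) t.castSucc v l i)
        (Fin.insertNth (α := fun _ => ℕ) t.castSucc w b i) := by
    symm
    rw [Fin.eq_insertNth_iff]
    refine ⟨by simp, ?_⟩
    funext s
    show ph p _ _ = S s
    simp [Fin.removeNth, hS]
  have hnn : 0 ≤ ND (n + 2) (Fin.insertNth (α := fun _ => ℝ[X]) t.castSucc (ph p v w) S)
      (cons z (cons z' x)) := by
    rw [e3]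
    apply tp_nonneg p hp
    · exact monotone_ins l hl.monotone t v hv hv2
    · exact antitone_ins b hb t w hw hw2
    · exact (hx.cons (lt_of_lt_of_le hz hzz) hz').cons hz (by nlinarith)
  have : 0 ≤ (z' - z) * ND n k x *
      ND (n + 2) (Fin.insertNth (α := fun _ => ℝ[X]) t.castSucc (ph p v w) S)
        (cons z (cons z' x)) :=
    mul_nonneg (mul_nonneg (by linarith) hkpos.le) hnn
  rw [← hpl] at this
  linarith

/-- the intermediate systems -/
def mixR {n : ℕ} (t : ℕ) (u u' : Fin n → ℕ) : Fin n → ℕ := fun i => if t ≤ (i : ℕ) then u' i else u i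

theorem mixR_strict {n : ℕ} (t : ℕ) (u u' : Fin n → ℕ) (h : StrictMono u) (h' : StrictMono u')
    (hle : ∀ i, u i ≤ u' i) : StrictMono (mixR t u u') := by
  intro a b hab
  have hab' : (a : ℕ) < b := hab
  unfold mixR
  split_ifs with h1 h2
  · exact h' hab
  · omega
  · exact lt_of_le_of_lt (hle a) (h' hab)
  · exact h hab

theorem mixR_anti {n : ℕ} (t : ℕ) (u u' : Fin n → ℕ) (h : Antitone u) (h' : Antitone u')
    (hle : ∀ i, u' i ≤ u i) : Antitone (mixR t u u') := by
  intro a b hab
  have hab' : (a : ℕ) ≤ b := hab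
  unfold mixR
  split_ifs with h1 h2
  · exact h' hab
  · exact (h' hab).trans (hle a)
  · omega
  · exact h hab

theorem mon (p : ℝ) (hp : 0 < p) (n : ℕ) (l b l' b' : Fin (n + 1) → ℕ) (hl : StrictMono l)
    (hb : Antitone b) (hl' : StrictMono l') (hb' : Antitone b') (hll : ∀ i, l i ≤ l' i)
    (hbb : ∀ i, b' i ≤ b i) (x : ℕ → ℝ) (hx : PosPt p x) {z z' : ℝ} (hz : 0 < z) (hzz : z ≤ z')
    (hz' : p * z' < 1) :
    ND (n + 1) (fun i => ph p (l' i) (b' i)) (cons z x) *
        ND (n + 1) (fun i => ph p (l i) (b i)) (cons z' x) ≤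
      ND (n + 1) (fun i => ph p (l' i) (b' i)) (cons z' x) *
        ND (n + 1) (fun i => ph p (l i) (b i)) (cons z x) := by
  have hxz : PosPt p (cons z x) := hx.cons hz (by nlinarith)
  have hxz' : PosPt p (cons z' x) := hx.cons (lt_of_lt_of_le hz hzz) hz'
  set F : ℕ → ℝ → ℝ := fun t y =>
    ND (n + 1) (fun i => ph p (mixR t l l' i) (mixR t b b' i)) (cons y x) with hF
  have hpos : ∀ t, 0 < F t z ∧ 0 < F t z' := fun t =>
    ⟨tp_pos p hp _ _ _ (mixR_strict t l l' hl hl' hll) (mixR_anti t b b' hb hb' hbb) _ hxz,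
      tp_pos p hp _ _ _ (mixR_strict t l l' hl hl' hll) (mixR_anti t b b' hb hb' hbb) _ hxz'⟩
  have hstep : ∀ t, t < n + 1 → F t z * F (t + 1) z' ≤ F t z' * F (t + 1) z := by
    intro t ht
    have h := mon_step p hp n (mixR t l l') (mixR t b b') (mixR_strict t l l' hl hl' hll)
      (mixR_anti t b b' hb hb' hbb) ⟨t, ht⟩ (l ⟨t, ht⟩) (b ⟨t, ht⟩) ?_ ?_ ?_ ?_ x hx hz hzz hz'
    · have e : Function.update (fun i => ph p (mixR t l l' i) (mixR t b b' i)) ⟨t, ht⟩
          (ph p (l ⟨t, ht⟩) (b ⟨t, ht⟩)) =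
          fun i => ph p (mixR (t + 1) l l' i) (mixR (t + 1) b b' i) := by
        funext i
        by_cases hi : i = ⟨t, ht⟩
        · subst hi
          rw [Function.update_self]
          simp [mixR]
        · rw [Function.update_of_ne hi]
          have hi' : (i : ℕ) ≠ t := fun h => hi (Fin.ext h)
          unfold mixR
          by_cases h1 : t ≤ (i : ℕ)
          · rw [if_pos h1, if_pos h1, if_pos (by omega), if_pos (by omega)]
          · rw [if_neg h1, if_neg h1, if_neg (by omega), if_neg (by omega)]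
      rw [e] at h
      exact h
    · simp only [mixR, le_refl, if_true]; exact hll _
    · simp only [mixR, le_refl, if_true]; exact hbb _
    · intro s hs
      have : (s : ℕ) < t := hs
      simp only [mixR, if_neg (not_le.2 this)]
      exact hl.monotone hs.le
    · intro s hs
      have : (s : ℕ) < t := hs
      simp only [mixR, if_neg (not_le.2 this)]
      exact hb hs.le
  have hall : ∀ j, j ≤ n + 1 → F (n + 1 - j) z * F (n + 1) z' ≤ F (n + 1 - j) z' * F (n + 1) z := by
    intro j
    induction j with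
    | zero => intro _; simp only [Nat.sub_zero]; exact (mul_comm _ _).le
    | succ j ih =>
      intro hj
      have h1 := ih (by omega)
      have h2 := hstep (n + 1 - (j + 1)) (by omega)
      rw [show n + 1 - (j + 1) + 1 = n + 1 - j by omega] at h2
      set a := n + 1 - (j + 1)
      set c := n + 1 - j
      have pc := hpos c
      have pa := hpos a
      have pn := hpos (n + 1)
      -- h1 : F c z * F N z' ≤ F c z' * F N z ; h2 : F a z * F c z' ≤ F a z' * F c z
      have h3 : (F a z * F c z') * (F c z * F (n + 1) z') ≤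
          (F a z' * F c z) * (F c z' * F (n + 1) z) :=
        mul_le_mul h2 h1 (mul_nonneg pc.1.le pn.2.le) (mul_nonneg pa.2.le pc.1.le)
      have h4 : 0 < F c z * F c z' := mul_pos pc.1 pc.2
      have h5 : (F c z * F c z') * (F a z * F (n + 1) z') ≤
          (F c z * F c z') * (F a z' * F (n + 1) z) := by linarith
      exact le_of_mul_le_mul_left h5 h4
  have hfin := hall (n + 1) le_rfl
  rw [Nat.sub_self] at hfin
  have e0 : ∀ y, F 0 y = ND (n + 1) (fun i => ph p (l' i) (b' i)) (cons y x) := by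
    intro y; simp only [hF, mixR, Nat.zero_le, if_true]
  have e1 : ∀ y, F (n + 1) y = ND (n + 1) (fun i => ph p (l i) (b i)) (cons y x) := by
    intro y
    have : ∀ i : Fin (n + 1), ¬ (n + 1 ≤ (i : ℕ)) := fun i => not_le.2 i.2
    simp only [hF, mixR, this, if_false]
  rw [e0, e0, e1, e1] at hfin
  exact hfin

theorem deriv_nonneg_of_right {h : ℝ → ℝ} {c r : ℝ} (hr : 1 < r) (hd : HasDerivAt h c 1)
    (h1 : h 1 = 0) (hnn : ∀ z, 1 < z → z < r → 0 ≤ h z) : 0 ≤ c := by
  have ht : Tendsto (slope h 1) (𝓝[>] 1) (𝓝 c) :=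
    (hasDerivAt_iff_tendsto_slope.1 hd).mono_left
      (nhdsWithin_mono _ fun y hy => ne_of_gt hy)
  refine ge_of_tendsto ht ?_
  filter_upwards [Ioo_mem_nhdsGT hr] with z hz
  rw [slope_def_field, h1, sub_zero]
  exact div_nonneg (hnn z hz.1 hz.2) (by linarith [hz.1])

theorem dlog_mono (p : ℝ) (hp : 0 < p) (hp1 : p < 1) (n : ℕ) (l b l' b' : Fin (n + 1) → ℕ)
    (hl : StrictMono l) (hb : Antitone b) (hl' : StrictMono l') (hb' : Antitone b')
    (hll : ∀ i, l i ≤ l' i) (hbb : ∀ i, b' i ≤ b i) (x : ℕ → ℝ) (hx : PosPt p x) (d d' : ℝ)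
    (hd : HasDerivAt (fun z => ND (n + 1) (fun i => ph p (l i) (b i)) (cons z x)) d 1)
    (hd' : HasDerivAt (fun z => ND (n + 1) (fun i => ph p (l' i) (b' i)) (cons z x)) d' 1) :
    d / ND (n + 1) (fun i => ph p (l i) (b i)) (cons 1 x) ≤
      d' / ND (n + 1) (fun i => ph p (l' i) (b' i)) (cons 1 x) := by
  have hx1 : PosPt p (cons 1 x) := hx.cons one_pos (by linarith)
  have hF := tp_pos p hp (n + 1) l b hl hb _ hx1
  have hG := tp_pos p hp (n + 1) l' b' hl' hb' _ hx1
  set F := ND (n + 1) (fun i => ph p (l i) (b i)) (cons 1 x) with hFdef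
  set G' := ND (n + 1) (fun i => ph p (l' i) (b' i)) (cons 1 x) with hGdef
  rw [div_le_div_iff₀ hF hG]
  have hder : HasDerivAt (fun z => ND (n + 1) (fun i => ph p (l' i) (b' i)) (cons z x) * F -
      G' * ND (n + 1) (fun i => ph p (l i) (b i)) (cons z x)) (d' * F - G' * d) 1 :=
    (hd'.mul_const F).sub (hd.const_mul G')
  have hr : (1 : ℝ) < 1 / p := by rw [lt_div_iff₀ hp]; linarith
  have := deriv_nonneg_of_right hr hder (by rw [← hFdef, ← hGdef]; ring) ?_
  · linarith
  · intro z hz1 hz2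
    have hpz : p * z < 1 := by
      rw [lt_div_iff₀ hp] at hz2; linarith
    have := mon p hp n l b l' b' hl hb hl' hb' hll hbb x hx one_pos hz1.le hpz
    rw [← hFdef, ← hGdef] at this
    linarith

end Pool.Agent.GroB
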