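import Pool.Agent.Lib_MP_58440c_pr.GDeriv
import Pool.Agent.Lib_MP_58440c_pr.Mon
import Pool.Agent.Lib_MP_58440c_pr.LsmP
import Pool.Agent.Lib_MP_58440c_pr.LsmG
import Pool.Agent.Lib_MP_58440c_pr.FkgBox

/-!
# Piece FKG: the covariances have a sign

Level `n+2`, `l : Fin (n+2) → ℕ` antitone, `x` a `UnitSeq` with `x j = 1` for `j ≥ k`, `k ≤ n`
(so `x n = 1` and `x (n+1) = 1`).
Weights on `below l`: `μ m = skew p l m 1 * G p (n+1) m x` (`skew p l m 1 = (1-p)^(rr l m)`).
* `μ` is log-supermodular: `lsm_global` (box `lo i = l i.succ`, `hi i = l i.castSucc`) with `lsm2`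
  (all elements of the box are antitone), and `rr l (a ⊓ b) + rr l (a ⊔ b) = rr l a + rr l b`.
* `D m = DD p l m` is antitone in `m`; `R m = G p (n+1) m (cons z x) / G p (n+1) m x` is antitone in
  `m` on the box for `z ≤ 1`: `mon` with `z ≤ 1 = z'`, `G_eq_ND` and
  `G p (n+1) m (cons 1 x) = G p (n+1) m x` (`G_rot`, `x n = 1`).
* `M m = T p n m x / G p (n+1) m x` is monotone: `dlog_mono` and `hasDerivAt_G`.
`fkg_box` (for `m12_le` apply it to `-M`).
`∑ μ = G p (n+2) l x` (`x (n+1) = 1`), `∑ μ D = T p (n+1) l x`, `∑ μ R = G p (n+2) l (cons z x)`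
(`(cons z x) (n+1) = x n = 1`), `∑ μ D R = T p (n+1) l (cons z x)`, by definition.
-/

open Finset Polynomial

namespace Pool.Agent.GroB

namespace FkgAux

/-- the exponents of the rows of `sys` -/
private def rowL {n : ℕ} (a : Fin (n + 1) → ℕ) : Fin (n + 1) → ℕ := fun i => a i.rev + i

private def rowB (n : ℕ) : Fin (n + 1) → ℕ := fun i => n + 1 - 1 - i

private lemma rowL_strict {n : ℕ} {a : Fin (n + 1) → ℕ} (ha : Antitone a) :
    StrictMono (rowL a) := by
  intro i j hij
  have h1 : a i.rev ≤ a j.rev := ha (Fin.rev_le_rev.2 hij.le)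
  have h2 : (i : ℕ) < j := hij
  unfold rowL
  omega

private lemma rowB_anti (n : ℕ) : Antitone (rowB n) := by
  intro i j hij
  have h2 : (i : ℕ) ≤ j := hij
  unfold rowB
  omega

private lemma G_row (p : ℝ) (n : ℕ) (a : Fin (n + 1) → ℕ) (ha : Antitone a) (y : ℕ → ℝ)
    (hy : PosPt p y) :
    G p (n + 1) a y = ND (n + 1) (fun i => ph p (rowL a i) (rowB n i)) y := by
  rw [G_eq_ND p (n + 1) a ha y fun j _ => ⟨(hy j).1.ne', (sub_pos.mpr (hy j).2).ne'⟩]
  rfl

private lemma rowL_le {n : ℕ} {a b : Fin (n + 1) → ℕ} (hab : a ≤ b) (i : Fin (n + 1)) :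
    rowL a i ≤ rowL b i := Nat.add_le_add_right (hab _) _

/-- quotients decrease -/
private lemma quot_anti (p : ℝ) (hp0 : 0 < p) (hp1 : p < 1) (n : ℕ) (a b : Fin (n + 1) → ℕ)
    (ha : Antitone a) (hb : Antitone b) (hab : a ≤ b) (x : ℕ → ℝ) (hx : PosPt p x)
    (hxn : x n = 1) (z : ℝ) (hz : 0 < z) (hz1 : z ≤ 1) :
    G p (n + 1) b (cons z x) / G p (n + 1) b x ≤ G p (n + 1) a (cons z x) / G p (n + 1) a x := by
  have hpz : p * z < 1 := by nlinarith
  have hxz : PosPt p (cons z x) := hx.cons hz hpz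
  have hx1 : PosPt p (cons 1 x) := hx.cons one_pos (by linarith)
  have h := mon p hp0 n (rowL a) (rowB n) (rowL b) (rowB n) (rowL_strict ha) (rowB_anti n)
    (rowL_strict hb) (rowB_anti n) (rowL_le hab) (fun _ => le_rfl) x hx hz hz1 (by linarith)
  rw [← G_row p n b hb _ hxz, ← G_row p n a ha _ hx1, ← G_row p n b hb _ hx1,
    ← G_row p n a ha _ hxz] at h
  have e : ∀ m : Fin (n + 1) → ℕ, G p (n + 1) m (cons 1 x) = G p (n + 1) m x := by
    intro m
    have := G_rot p n m x hx
    rwa [hxn] at this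
  rw [e, e] at h
  have pa := G_pos p (n + 1) a ha x hx
  have pb := G_pos p (n + 1) b hb x hx
  rw [div_le_div_iff₀ pb pa]
  linarith

/-- logarithmic derivatives increase -/
private lemma dlog_anti (p : ℝ) (hp0 : 0 < p) (hp1 : p < 1) (n : ℕ) (a b : Fin (n + 1) → ℕ)
    (ha : Antitone a) (hb : Antitone b) (hab : a ≤ b) (x : ℕ → ℝ) (hx : PosPt p x)
    (hxn : x n = 1) :
    T p n a x / G p (n + 1) a x ≤ T p n b x / G p (n + 1) b x := by
  have hx1 : PosPt p (cons 1 x) := hx.cons one_pos (by linarith)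
  have e : ∀ m : Fin (n + 1) → ℕ, G p (n + 1) m (cons 1 x) = G p (n + 1) m x := by
    intro m
    have := G_rot p n m x hx
    rwa [hxn] at this
  have hd : ∀ m : Fin (n + 1) → ℕ, Antitone m →
      HasDerivAt (fun z => ND (n + 1) (fun i => ph p (rowL m i) (rowB n i)) (cons z x))
        (T p n m x) 1 := by
    intro m hm
    refine (hasDerivAt_G p hp0 hp1 n m x hx).congr_of_eventuallyEq ?_
    have h1 : ∀ᶠ z : ℝ in nhds 1, 0 < z := lt_mem_nhds one_pos
    have h2 : ∀ᶠ z : ℝ in nhds 1, z < 1 / p := gt_mem_nhds (by rw [lt_div_iff₀ hp0]; linarith)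
    filter_upwards [h1, h2] with z hz hz'
    rw [lt_div_iff₀ hp0] at hz'
    exact (G_row p n m hm _ (hx.cons hz (by linarith))).symm
  have h := dlog_mono p hp0 hp1 n (rowL a) (rowB n) (rowL b) (rowB n) (rowL_strict ha)
    (rowB_anti n) (rowL_strict hb) (rowB_anti n) (rowL_le hab) (fun _ => le_rfl) x hx _ _
    (hd a ha) (hd b hb)
  rw [← G_row p n a ha _ hx1, ← G_row p n b hb _ hx1, e, e] at h
  exact h

private lemma rr_mono {n : ℕ} (l : Fin (n + 1) → ℕ) {a b : Fin n → ℕ} (hab : a ≤ b) :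
    rr l a ≤ rr l b := by
  unfold rr
  refine Finset.card_le_card fun i hi => ?_
  rw [Finset.mem_filter] at hi ⊢
  exact ⟨hi.1, hi.2.trans_le (hab i)⟩

private lemma rr_inf_sup {n : ℕ} (l : Fin (n + 1) → ℕ) (a b : Fin n → ℕ) :
    rr l (a ⊓ b) + rr l (a ⊔ b) = rr l a + rr l b := by
  classical
  unfold rr
  have e1 : (Finset.univ.filter fun i : Fin n => l i.succ < (a ⊓ b) i) =
      (Finset.univ.filter fun i : Fin n => l i.succ < a i) ∩
        (Finset.univ.filter fun i : Fin n => l i.succ < b i) := by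
    ext i
    simp only [Finset.mem_filter, Finset.mem_inter, Finset.mem_univ, true_and, Pi.inf_apply,
      lt_inf_iff]
  have e2 : (Finset.univ.filter fun i : Fin n => l i.succ < (a ⊔ b) i) =
      (Finset.univ.filter fun i : Fin n => l i.succ < a i) ∪
        (Finset.univ.filter fun i : Fin n => l i.succ < b i) := by
    ext i
    simp only [Finset.mem_filter, Finset.mem_union, Finset.mem_univ, true_and, Pi.sup_apply,
      lt_sup_iff]
  rw [e1, e2]
  exact Finset.card_inter_add_card_union _ _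

private lemma DD_anti {p : ℝ} (hp0 : 0 < p) (hp1 : p < 1) {n : ℕ} (l : Fin (n + 1) → ℕ)
    {a b : Fin n → ℕ} (hab : a ≤ b) : DD p l b ≤ DD p l a := by
  unfold DD
  have h1 : ((∑ i, a i : ℕ) : ℝ) ≤ ((∑ i, b i : ℕ) : ℝ) := by
    exact_mod_cast Finset.sum_le_sum fun i _ => hab i
  have h2 : (rr l a : ℝ) ≤ rr l b := by exact_mod_cast rr_mono l hab
  have hq : 0 ≤ p / (1 - p) := div_nonneg hp0.le (by linarith)
  have h3 := mul_le_mul_of_nonneg_left h2 hq
  linarith

/-- the weights are log-supermodular -/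
private lemma mu_lsm (p : ℝ) (hp0 : 0 < p) (hp1 : p < 1) (n : ℕ) (x : ℕ → ℝ) (hx : PosPt p x)
    (l : Fin (n + 2) → ℕ) {a b : Fin (n + 1) → ℕ} (ha : a ∈ below l) (hb : b ∈ below l) :
    (skew p l a 1 * G p (n + 1) a x) * (skew p l b 1 * G p (n + 1) b x) ≤
      (skew p l (a ⊓ b) 1 * G p (n + 1) (a ⊓ b) x) *
        (skew p l (a ⊔ b) 1 * G p (n + 1) (a ⊔ b) x) := by
  have hmem : ∀ m : Fin (n + 1) → ℕ, (fun i : Fin (n + 1) => l i.succ) ≤ m →
      m ≤ (fun i : Fin (n + 1) => l i.castSucc) → m ∈ below l := by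
    intro m h1 h2
    rw [below_eq_Icc, Finset.mem_Icc]
    exact ⟨h1, h2⟩
  have ha' := ha
  have hb' := hb
  rw [below_eq_Icc, Finset.mem_Icc] at ha' hb'
  have hi : a ⊓ b ∈ below l := hmem _ (le_inf ha'.1 hb'.1) (inf_le_left.trans ha'.2)
  have hs : a ⊔ b ∈ below l := hmem _ (ha'.1.trans le_sup_left) (sup_le ha'.2 hb'.2)
  have h1 := lsm_global (n + 1) (fun i : Fin (n + 1) => l i.succ)
    (fun i : Fin (n + 1) => l i.castSucc) (fun m => G p (n + 1) m x)
    (fun m hm hm' => G_pos p (n + 1) m (antitone_of_mem_below (hmem m hm hm')) x hx)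
    (fun m i j s t hij hm hm' => by
      have k1 : m ≤ Function.update m i (m i + s) := by
        rw [le_update_iff]
        exact ⟨Nat.le_add_right _ _, fun _ _ => le_rfl⟩
      have k2 : m ≤ Function.update m j (m j + t) := by
        rw [le_update_iff]
        exact ⟨Nat.le_add_right _ _, fun _ _ => le_rfl⟩
      have k3 : Function.update m i (m i + s) ≤
          Function.update (Function.update m i (m i + s)) j (m j + t) := by
        rw [le_update_iff]
        refine ⟨?_, fun _ _ => le_rfl⟩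
        rw [Function.update_of_ne hij.symm]
        exact Nat.le_add_right _ _
      have k4 : Function.update m j (m j + t) ≤
          Function.update (Function.update m i (m i + s)) j (m j + t) := by
        rw [Function.update_comm hij]
        rw [le_update_iff]
        refine ⟨?_, fun _ _ => le_rfl⟩
        rw [Function.update_of_ne hij]
        exact Nat.le_add_right _ _
      exact lsm2 p hp0 (n + 1) m i j hij s t
        (antitone_of_mem_below (hmem _ hm (k1.trans (k3.trans hm'))))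
        (antitone_of_mem_below (hmem _ (hm.trans k1) (k3.trans hm')))
        (antitone_of_mem_below (hmem _ (hm.trans k2) (k4.trans hm')))
        (antitone_of_mem_below (hmem _ (hm.trans (k1.trans k3)) hm')) x hx)
    a b ha'.1 ha'.2 hb'.1 hb'.2
  have h2 : skew p l a 1 * skew p l b 1 = skew p l (a ⊓ b) 1 * skew p l (a ⊔ b) 1 := by
    rw [skew_of_mem p ha, skew_of_mem p hb, skew_of_mem p hi, skew_of_mem p hs]
    simp only [one_pow, one_mul, mul_one]
    rw [← pow_add, ← pow_add, rr_inf_sup]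
  have h3 : 0 ≤ skew p l a 1 * skew p l b 1 :=
    mul_nonneg (skew_nonneg l a zero_le_one (by linarith)) (skew_nonneg l b zero_le_one
      (by linarith))
  calc (skew p l a 1 * G p (n + 1) a x) * (skew p l b 1 * G p (n + 1) b x) =
        (skew p l a 1 * skew p l b 1) * (G p (n + 1) a x * G p (n + 1) b x) := by ring
    _ ≤ (skew p l a 1 * skew p l b 1) * (G p (n + 1) (a ⊓ b) x * G p (n + 1) (a ⊔ b) x) :=
        mul_le_mul_of_nonneg_left h1 h3
    _ = _ := by rw [h2]; ring

/-- FKG for the weights, an antitone function and `DD` -/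
private lemma fkg_mu (p : ℝ) (hp0 : 0 < p) (hp1 : p < 1) (n : ℕ) (x : ℕ → ℝ) (hx : PosPt p x)
    (l : Fin (n + 2) → ℕ) (g : (Fin (n + 1) → ℕ) → ℝ)
    (hg : ∀ a ∈ below l, ∀ b ∈ below l, a ≤ b → g b ≤ g a) :
    (∑ m ∈ below l, (skew p l m 1 * G p (n + 1) m x) * DD p l m) *
        (∑ m ∈ below l, (skew p l m 1 * G p (n + 1) m x) * g m) ≤
      (∑ m ∈ below l, skew p l m 1 * G p (n + 1) m x) *
        ∑ m ∈ below l, (skew p l m 1 * G p (n + 1) m x) * (DD p l m * g m) := by
  have key := fkg_box (n + 1) (fun i : Fin (n + 1) => l i.succ)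
    (fun i : Fin (n + 1) => l i.castSucc) (fun m => skew p l m 1 * G p (n + 1) m x)
    (fun m => DD p l m) g
  rw [← below_eq_Icc] at key
  exact key (fun a _ => mul_nonneg (skew_nonneg l a zero_le_one (by linarith))
    (G_nonneg p (n + 1) a x hx)) (fun a ha b hb => mu_lsm p hp0 hp1 n x hx l ha hb)
    (fun a _ b _ hab => DD_anti hp0 hp1 l hab) hg

end FkgAux

open FkgAux

theorem cov_nonneg (p : ℝ) (hp0 : 0 < p) (hp1 : p < 1) (n k : ℕ) (hk : k ≤ n) (x : ℕ → ℝ)
    (hx : UnitSeq x) (hx1 : ∀ j, k ≤ j → x j = 1) (l : Fin (n + 2) → ℕ) (hl : Antitone l) (z : ℝ)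
    (hz : 0 < z) (hz1 : z ≤ 1) : 0 ≤ Cov p (n + 1) l x z := by
  have hpx : PosPt p x := hx.posPt hp0 hp1
  have hxn : x n = 1 := hx1 n hk
  have hxn1 : x (n + 1) = 1 := hx1 (n + 1) (by omega)
  have h := fkg_mu p hp0 hp1 n x hpx l
    (fun m => G p (n + 1) m (cons z x) / G p (n + 1) m x)
    (fun a ha b hb hab => quot_anti p hp0 hp1 n a b (antitone_of_mem_below ha)
      (antitone_of_mem_below hb) hab x hpx hxn z hz hz1)
  have e0 : ∑ m ∈ below l, skew p l m 1 * G p (n + 1) m x = G p (n + 2) l x := by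
    show _ = ∑ m ∈ below l, G p (n + 1) m x * skew p l m (x (n + 1))
    rw [hxn1]
    exact Finset.sum_congr rfl fun m _ => mul_comm _ _
  have e1 : ∑ m ∈ below l, (skew p l m 1 * G p (n + 1) m x) * DD p l m = T p (n + 1) l x := by
    unfold T
    exact Finset.sum_congr rfl fun m _ => by ring
  have hG : ∀ m ∈ below l, G p (n + 1) m x ≠ 0 := fun m hm =>
    (G_pos p (n + 1) m (antitone_of_mem_below hm) x hpx).ne'
  have e2 : ∑ m ∈ below l, (skew p l m 1 * G p (n + 1) m x) *
      (G p (n + 1) m (cons z x) / G p (n + 1) m x) = G p (n + 2) l (cons z x) := by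
    show _ = ∑ m ∈ below l, G p (n + 1) m (cons z x) * skew p l m (x n)
    rw [hxn]
    refine Finset.sum_congr rfl fun m hm => ?_
    have := hG m hm
    field_simp
  have e3 : ∑ m ∈ below l, (skew p l m 1 * G p (n + 1) m x) *
      (DD p l m * (G p (n + 1) m (cons z x) / G p (n + 1) m x)) = T p (n + 1) l (cons z x) := by
    unfold T
    refine Finset.sum_congr rfl fun m hm => ?_
    have := hG m hm
    field_simp
  rw [e0, e1, e2, e3] at h
  have hS := G_pos p (n + 2) l hl x hpx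
  unfold Cov
  have : T p (n + 1) l (cons z x) / G p (n + 1 + 1) l x -
      T p (n + 1) l x / G p (n + 1 + 1) l x *
        (G p (n + 1 + 1) l (cons z x) / G p (n + 1 + 1) l x) =
      (G p (n + 2) l x * T p (n + 1) l (cons z x) - T p (n + 1) l x * G p (n + 2) l (cons z x)) /
        (G p (n + 2) l x * G p (n + 2) l x) := by
    have hS' := hS.ne'
    show T p (n + 1) l (cons z x) / G p (n + 2) l x -
      T p (n + 1) l x / G p (n + 2) l x *
        (G p (n + 2) l (cons z x) / G p (n + 2) l x) = _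
    field_simp
  rw [this]
  exact div_nonneg (by linarith) (mul_pos hS hS).le

theorem m12_le (p : ℝ) (hp0 : 0 < p) (hp1 : p < 1) (n k : ℕ) (hk : k ≤ n) (x : ℕ → ℝ)
    (hx : UnitSeq x) (hx1 : ∀ j, k ≤ j → x j = 1) (l : Fin (n + 2) → ℕ) (hl : Antitone l) :
    (∑ m ∈ below l, skew p l m 1 * DD p l m * T p n m x) / G p (n + 2) l x ≤
      (T p (n + 1) l x / G p (n + 2) l x) ^ 2 := by
  have hpx : PosPt p x := hx.posPt hp0 hp1
  have hxn : x n = 1 := hx1 n hk
  have hxn1 : x (n + 1) = 1 := hx1 (n + 1) (by omega)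
  have h := fkg_mu p hp0 hp1 n x hpx l
    (fun m => -(T p n m x / G p (n + 1) m x))
    (fun a ha b hb hab => neg_le_neg (dlog_anti p hp0 hp1 n a b (antitone_of_mem_below ha)
      (antitone_of_mem_below hb) hab x hpx hxn))
  have e0 : ∑ m ∈ below l, skew p l m 1 * G p (n + 1) m x = G p (n + 2) l x := by
    show _ = ∑ m ∈ below l, G p (n + 1) m x * skew p l m (x (n + 1))
    rw [hxn1]
    exact Finset.sum_congr rfl fun m _ => mul_comm _ _
  have e1 : ∑ m ∈ below l, (skew p l m 1 * G p (n + 1) m x) * DD p l m = T p (n + 1) l x := by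
    unfold T
    exact Finset.sum_congr rfl fun m _ => by ring
  have hG : ∀ m ∈ below l, G p (n + 1) m x ≠ 0 := fun m hm =>
    (G_pos p (n + 1) m (antitone_of_mem_below hm) x hpx).ne'
  have e2 : ∑ m ∈ below l, (skew p l m 1 * G p (n + 1) m x) *
      (-(T p n m x / G p (n + 1) m x)) = -T p (n + 1) l x := by
    rw [T_harm p hp0 hp1 n l x hpx, hxn, ← Finset.sum_neg_distrib]
    refine Finset.sum_congr rfl fun m hm => ?_
    have := hG m hm
    field_simp
  have e3 : ∑ m ∈ below l, (skew p l m 1 * G p (n + 1) m x) *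
      (DD p l m * (-(T p n m x / G p (n + 1) m x))) =
      -∑ m ∈ below l, skew p l m 1 * DD p l m * T p n m x := by
    rw [← Finset.sum_neg_distrib]
    refine Finset.sum_congr rfl fun m hm => ?_
    have := hG m hm
    field_simp
  rw [e0, e1, e2, e3] at h
  have hS := G_pos p (n + 2) l hl x hpx
  rw [div_pow, div_le_div_iff₀ hS (pow_pos hS 2)]
  nlinarith

end Pool.Agent.GroB
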