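import Pool.Agent.Lib_MP_58440c_pr.GDeriv

/-!
# Piece SM: second moment of the increments

* `second_moment`: for `m ∈ below l`, with `a = ∑l - ∑m`, `r = rr l m ≤ n`: the second derivative of
  `w^a (1-pw)^r` at `1` is `((a - q r)^2 - a - q^2 r)(1-p)^r`, so `T2 = ∑ skew (DD^2 - a - q^2 r) G`
  (second derivative of `G_cons_eq` near `1`); `a = DD + q r`. So
  `∑ skew DD^2 G = T2 + T + ∑ skew (q r + q^2 r) G ≤ T2 + T + (q + q^2) n ∑ skew G`.
-/

open Finset Polynomial

namespace Pool.Agent.GroB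

namespace SMAux

private lemma d2_pow (a : ℕ) :
    (((X : ℝ[X]) ^ a).derivative.derivative).eval 1 = (a : ℝ) * (a - 1) ∧
      (((X : ℝ[X]) ^ a).derivative).eval 1 = (a : ℝ) := by
  constructor
  · rcases a with _ | a
    · simp
    · simp [derivative_X_pow]
  · simp [derivative_X_pow]

private lemma d2_lin (p : ℝ) (hp1 : p < 1) (r : ℕ) :
    (((1 - C p * X : ℝ[X]) ^ r).derivative.derivative).eval 1 =
        (p / (1 - p)) ^ 2 * (r * (r - 1)) * (1 - p) ^ r ∧
      (((1 - C p * X : ℝ[X]) ^ r).derivative).eval 1 = -(p / (1 - p)) * r * (1 - p) ^ r := by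
  have h1 : (1 - p) ≠ 0 := by linarith
  have hd : (1 - C p * X : ℝ[X]).derivative = -C p := by
    simp
  constructor
  · match r with
    | 0 => simp
    | 1 => simp
    | r + 2 =>
      rw [derivative_pow, hd]
      have e : (C ((r + 2 : ℕ) : ℝ) * (1 - C p * X : ℝ[X]) ^ (r + 2 - 1) * -C p) =
          C (-(p * (r + 2 : ℕ))) * (1 - C p * X : ℝ[X]) ^ (r + 1) := by
        rw [C_neg, C_mul, show r + 2 - 1 = r + 1 by omega]
        ring
      rw [e, derivative_C_mul, derivative_pow, hd]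
      simp only [eval_mul, eval_C, eval_pow, eval_sub, eval_one, eval_X, eval_neg, mul_one]
      push_cast
      field_simp
      ring
  · match r with
    | 0 => simp
    | r + 1 =>
      rw [derivative_pow, hd]
      simp only [eval_mul, eval_C, eval_pow, eval_sub, eval_one, eval_X, eval_neg, mul_one]
      push_cast
      field_simp
      ring

private lemma d2 (p : ℝ) (hp1 : p < 1) (a r : ℕ) :
    (((X : ℝ[X]) ^ a * (1 - C p * X) ^ r).derivative.derivative).eval 1 =
      (((a : ℝ) - p / (1 - p) * r) ^ 2 - a - (p / (1 - p)) ^ 2 * r) * (1 - p) ^ r := by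
  obtain ⟨a1, a2⟩ := d2_pow a
  obtain ⟨b1, b2⟩ := d2_lin p hp1 r
  rw [derivative_mul, derivative_add, derivative_mul, derivative_mul]
  simp only [eval_add, eval_mul]
  rw [a1, a2, b1, b2]
  simp only [eval_pow, eval_sub, eval_one, eval_mul, eval_C, eval_X, mul_one, one_pow, one_mul]
  ring

private lemma GP_eq (p : ℝ) (hp0 : 0 < p) (n : ℕ) (l : Fin (n + 1) → ℕ)
    (x : ℕ → ℝ) (hx : PosPt p x) :
    GP p n l x = ∑ m ∈ below l, C (G p n m x) *
      (X ^ (∑ i, l i - ∑ i, m i) * (1 - C p * X) ^ rr l m) := by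
  apply Polynomial.eq_of_infinite_eval_eq
  refine (Set.Ioo_infinite (show (0 : ℝ) < 1 / p by positivity)).mono ?_
  intro w hw
  have hw' : p * w < 1 := by
    have := hw.2
    rw [lt_div_iff₀ hp0] at this
    linarith
  show (GP p n l x).eval w = eval w _
  rw [GP_eval, G_cons_eq p n l w x (hx.cons hw.1 hw'), eval_finsetSum]
  refine Finset.sum_congr rfl fun m hm => ?_
  rw [skew_of_mem p hm]
  simp

private lemma T2_eq (p : ℝ) (hp0 : 0 < p) (hp1 : p < 1) (n : ℕ) (l : Fin (n + 1) → ℕ)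
    (x : ℕ → ℝ) (hx : PosPt p x) :
    T2 p n l x = ∑ m ∈ below l, skew p l m 1 *
      (DD p l m ^ 2 - DD p l m - (p / (1 - p) + (p / (1 - p)) ^ 2) * rr l m) * G p n m x := by
  unfold T2
  rw [GP_eq p hp0 n l x hx, derivative_sum, derivative_sum, eval_finsetSum]
  refine Finset.sum_congr rfl fun m hm => ?_
  rw [derivative_C_mul, derivative_C_mul, eval_mul, eval_C, d2 p hp1, skew_of_mem p hm]
  have hle := sum_le_of_mem_below hm
  unfold DD
  rw [Nat.cast_sub hle]
  simp only [one_pow, one_mul, mul_one]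
  ring

end SMAux

open SMAux

theorem second_moment (p : ℝ) (hp0 : 0 < p) (hp1 : p < 1) (n : ℕ) (l : Fin (n + 1) → ℕ)
    (x : ℕ → ℝ) (hx : PosPt p x) :
    ∑ m ∈ below l, skew p l m 1 * DD p l m ^ 2 * G p n m x ≤
      T2 p n l x + T p n l x +
        (p / (1 - p) + (p / (1 - p)) ^ 2) * n * G p (n + 1) l (cons 1 x) := by
  have hq : 0 ≤ p / (1 - p) := div_nonneg hp0.le (by linarith)
  have hc : 0 ≤ p / (1 - p) + (p / (1 - p)) ^ 2 := by positivity
  rw [T2_eq p hp0 hp1 n l x hx, G_cons_eq p n l 1 x (hx.cons one_pos (by linarith))]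
  unfold T
  rw [Finset.mul_sum, ← Finset.sum_add_distrib, ← Finset.sum_add_distrib]
  refine Finset.sum_le_sum fun m hm => ?_
  have h1 : 0 ≤ skew p l m 1 := skew_nonneg l m zero_le_one (by linarith)
  have h2 : 0 ≤ G p n m x := G_nonneg p n m x hx
  have h3 : (rr l m : ℝ) ≤ n := by exact_mod_cast rr_le l m
  have h4 : 0 ≤ (p / (1 - p) + (p / (1 - p)) ^ 2) * ((n : ℝ) - rr l m) *
      (skew p l m 1 * G p n m x) :=
    mul_nonneg (mul_nonneg hc (by linarith)) (mul_nonneg h1 h2)
  nlinarith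

end Pool.Agent.GroB
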