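import Pool.Agent.Lib_MP_58440c_pr.AbsCov
import Pool.Agent.Lib_MP_58440c_pr.Fkg
import Pool.Agent.Lib_MP_58440c_pr.SecMom

/-!
# Piece ELEM: the covariance is small, uniformly

Apply `abs_cov` with `Y j = Fin (k + 1 + j + 1) → ℕ` (level `k + 2 + j`), `ok = Antitone`,
`S j l = below l`, base sequence `x` (`x i = 1` for `i ≥ k`), `g l = G p _ l x`,
`κ l v = skew p l v 1 * g v / g l`, `D = DD p l v`, `R l = G p _ l (cons z x) / g l`,
`m l = T p _ l x / g l`, `C l = T p _ l (cons z x) / g l`,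
`m12 l = (∑ v ∈ below l, skew p l v 1 * DD p l v * T p _ v x) / g l`,
`H l = (T2 p _ l x + T p _ l x) / g l`, `w j = 1/(j+1)`, `c j = (q + q²) (k + 2 + j)`.
Harmonicity: definition of `G`, `T_harm`, `T2_harm` (all the relevant `x i`, `(cons z x) i` are `1`);
for `m12` differentiate the harmonicity of `C` in `z` at `1` (`hasDerivAt_T_cons`,
`HasDerivAt.unique`). `hD`, `hDR`, `hDm` hold by definition of `T`; `hDD` is `second_moment`
(`G p _ l (cons 1 x) = G p _ l x` by `G_rot`). `|R| ≤ 1` by `G_mono_cons`. `h12` is `m12_le`.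
Then `W² Cov² ≤ ∑ (H + c_j)/(j+1)² ≤ 2 H + (q+q²)(k+2) W` because `∑ 1/(j+1)² ≤ 2` and
`k + 2 + j ≤ (k+2)(j+1)`; divide by `W ≥ 1`.
-/

open Finset Polynomial

namespace Pool.Agent.GroB

/-- harmonic numbers -/
noncomputable def WW (L : ℕ) : ℝ := ∑ j ∈ range L, (1 : ℝ) / (j + 1)

theorem tendsto_WW : Filter.Tendsto WW Filter.atTop Filter.atTop := by
  have h := Real.tendsto_sum_range_one_div_nat_succ_atTop
  exact h

theorem WW_ge_one {L : ℕ} (hL : 1 ≤ L) : 1 ≤ WW L := by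
  unfold WW
  calc (1 : ℝ) = ∑ j ∈ range 1, (1 : ℝ) / (j + 1) := by simp
    _ ≤ ∑ j ∈ range L, (1 : ℝ) / (j + 1) := by
      apply Finset.sum_le_sum_of_subset_of_nonneg
      · exact Finset.range_subset_range.2 hL
      · intro j _ _
        positivity

theorem elem_sum_sq_le (L : ℕ) :
    ∑ j ∈ range (L + 1), ((1 : ℝ) / (j + 1)) ^ 2 ≤ 2 - 1 / ((L : ℝ) + 1) := by
  induction L with
  | zero => norm_num
  | succ L ih =>
    rw [Finset.sum_range_succ]
    push_cast
    have h1 : (0 : ℝ) < (L : ℝ) + 1 := by positivity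
    have h2 : (0 : ℝ) < (L : ℝ) + 1 + 1 := by positivity
    have h3 : ((1 : ℝ) / ((L : ℝ) + 1 + 1)) ^ 2 ≤ 1 / ((L : ℝ) + 1) - 1 / ((L : ℝ) + 1 + 1) := by
      rw [div_sub_div _ _ h1.ne' h2.ne', div_pow, div_le_div_iff₀ (by positivity) (by positivity)]
      nlinarith
    linarith

theorem elem_sum_sq_le_two {L : ℕ} (hL : 1 ≤ L) :
    ∑ j ∈ range L, ((1 : ℝ) / (j + 1)) ^ 2 ≤ 2 := by
  obtain ⟨M, rfl⟩ : ∃ M, L = M + 1 := ⟨L - 1, by omega⟩
  have := elem_sum_sq_le M
  have h1 : (0 : ℝ) ≤ 1 / ((M : ℝ) + 1) := by positivity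
  linarith

/-- the mixed second derivative is harmonic -/
theorem elem_m12_harm (p : ℝ) (hp0 : 0 < p) (hp1 : p < 1) (n : ℕ) (x : ℕ → ℝ) (hx : PosPt p x)
    (hxn : x n = 1) (l : Fin (n + 3) → ℕ) :
    ∑ v ∈ below l, skew p l v 1 * (∑ u ∈ below v, skew p v u 1 * DD p v u * T p n u x) =
      ∑ v ∈ below l, skew p l v 1 * DD p l v * T p (n + 1) v x := by
  have h1 := hasDerivAt_T_cons p hp0 hp1 (n + 1) l x hx
  have h2 : HasDerivAt (fun z => ∑ v ∈ below l, skew p l v 1 * T p (n + 1) v (cons z x))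
      (∑ v ∈ below l, skew p l v 1 * (∑ u ∈ below v, skew p v u 1 * DD p v u * T p n u x)) 1 := by
    apply HasDerivAt.fun_sum
    intro v _
    exact (hasDerivAt_T_cons p hp0 hp1 n v x hx).const_mul _
  have h3 : (fun z => T p (n + 2) l (cons z x)) =ᶠ[nhds 1]
      (fun z => ∑ v ∈ below l, skew p l v 1 * T p (n + 1) v (cons z x)) := by
    have h4 : ∀ᶠ z : ℝ in nhds 1, 0 < z := lt_mem_nhds one_pos
    have h5 : ∀ᶠ z : ℝ in nhds 1, p * z < 1 := by
      have : Filter.Tendsto (fun z : ℝ => p * z) (nhds 1) (nhds (p * 1)) :=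
        (continuous_const.mul continuous_id).tendsto 1
      have h6 : p * 1 < 1 := by linarith
      exact this.eventually (gt_mem_nhds h6)
    filter_upwards [h4, h5] with z hz hz'
    rw [T_harm p hp0 hp1 (n + 1) l (cons z x) (hx.cons hz hz')]
    rw [cons_succ, hxn]
  have h7 := h2.congr_of_eventuallyEq h3
  exact h7.unique h1

theorem e_lemma (p : ℝ) (hp0 : 0 < p) (hp1 : p < 1) (N k L : ℕ) (hN : N = k + 1 + L) (hL : 1 ≤ L)
    (x : ℕ → ℝ) (hx : UnitSeq x) (hx1 : ∀ j, k ≤ j → x j = 1) (l : Fin (N + 1) → ℕ)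
    (hl : Antitone l) (z : ℝ) (hz : 0 < z) (hz1 : z ≤ 1) :
    Cov p N l x z ^ 2 * WW L ≤
      2 * ((T2 p N l x + T p N l x) / G p (N + 1) l x) +
        (p / (1 - p) + (p / (1 - p)) ^ 2) * (k + 2) := by
  have hN' : N = k + L + 1 := by omega
  subst hN'
  have hxp : PosPt p x := hx.posPt hp0 hp1
  have hzp : p * z < 1 := by nlinarith
  have hcz : PosPt p (cons z x) := hxp.cons hz hzp
  set q : ℝ := p / (1 - p) with hq
  have hq0 : 0 ≤ q := div_nonneg hp0.le (by linarith)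
  have hp1' : p * 1 ≤ 1 := by linarith
  have hGpos : ∀ (n : ℕ) (v : Fin n → ℕ), Antitone v → 0 < G p n v x := fun n v hv =>
    G_pos p n v hv x hxp
  -- values of the points
  have hy2 : ∀ j, x (k + j + 1 + 1) = 1 := fun j => hx1 _ (by omega)
  have hy1 : ∀ j, x (k + j + 1) = 1 := fun j => hx1 _ (by omega)
  have hy0 : ∀ j, x (k + j) = 1 := fun j => hx1 _ (by omega)
  have key := abs_cov (Y := fun j => Fin (k + j + 1 + 1) → ℕ)
    (ok := fun j v => Antitone v)
    (S := fun j (v : Fin (k + j + 1 + 1 + 1) → ℕ) => below v)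
    (κ := fun j (l : Fin (k + j + 1 + 1 + 1) → ℕ) v =>
      skew p l v 1 * G p (k + j + 1 + 1) v x / G p (k + j + 1 + 1 + 1) l x)
    (D := fun j (l : Fin (k + j + 1 + 1 + 1) → ℕ) v => DD p l v)
    (R := fun j l => G p (k + j + 1 + 1) l (cons z x) / G p (k + j + 1 + 1) l x)
    (m := fun j l => T p (k + j + 1) l x / G p (k + j + 1 + 1) l x)
    (C := fun j l => T p (k + j + 1) l (cons z x) / G p (k + j + 1 + 1) l x)
    (m12 := fun j l => (∑ v ∈ below l, skew p l v 1 * DD p l v * T p (k + j) v x) /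
      G p (k + j + 1 + 1) l x)
    (H := fun j l => (T2 p (k + j + 1) l x + T p (k + j + 1) l x) / G p (k + j + 1 + 1) l x)
    (c := fun j => (q + q ^ 2) * ((k : ℝ) + 2 + j))
    (w := fun j => (1 : ℝ) / ((j : ℝ) + 1))
    (hok := fun j l _ v hv => antitone_of_mem_below hv)
    (hκ0 := ?_) (hκ1 := ?_) (hR := ?_) (hm := ?_) (hC := ?_) (hm12 := ?_) (hH := ?_)
    (hD := ?_) (hDR := ?_) (hDm := ?_) (hDD := ?_) (hw := ?_) (hR0 := ?_) L l hl (h12 := ?_)
  · -- conclusion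
    have hG := hGpos (k + L + 1 + 1) l hl
    have hcov : T p (k + L + 1) l (cons z x) / G p (k + L + 1 + 1) l x -
        T p (k + L + 1) l x / G p (k + L + 1 + 1) l x *
          (G p (k + L + 1 + 1) l (cons z x) / G p (k + L + 1 + 1) l x) =
        Cov p (k + L + 1) l x z := rfl
    have key' : WW L ^ 2 * Cov p (k + L + 1) l x z ^ 2 ≤
        ∑ j ∈ range L, ((1 : ℝ) / ((j : ℝ) + 1)) ^ 2 *
          ((T2 p (k + L + 1) l x + T p (k + L + 1) l x) / G p (k + L + 1 + 1) l x +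
            (q + q ^ 2) * ((k : ℝ) + 2 + j)) := key
    set Hh : ℝ := (T2 p (k + L + 1) l x + T p (k + L + 1) l x) / G p (k + L + 1 + 1) l x with hHh
    have hH0 : 0 ≤ Hh := div_nonneg (add_nonneg (T2_nonneg p _ l x hxp)
      (T_nonneg p hp0 hp1 _ l x hxp)) hG.le
    have hW1 := WW_ge_one hL
    have h1 : ∑ j ∈ range L, ((1 : ℝ) / ((j : ℝ) + 1)) ^ 2 *
          (Hh + (q + q ^ 2) * ((k : ℝ) + 2 + j)) ≤ 2 * Hh + (q + q ^ 2) * (k + 2) * WW L := by
      have h2 : ∑ j ∈ range L, ((1 : ℝ) / ((j : ℝ) + 1)) ^ 2 *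
          (Hh + (q + q ^ 2) * ((k : ℝ) + 2 + j)) =
          (∑ j ∈ range L, ((1 : ℝ) / ((j : ℝ) + 1)) ^ 2) * Hh +
            ∑ j ∈ range L, (q + q ^ 2) * (((1 : ℝ) / ((j : ℝ) + 1)) ^ 2 * ((k : ℝ) + 2 + j)) := by
        rw [Finset.sum_mul, ← Finset.sum_add_distrib]
        refine Finset.sum_congr rfl fun j _ => ?_
        ring
      rw [h2]
      apply add_le_add
      · exact mul_le_mul_of_nonneg_right (elem_sum_sq_le_two hL) hH0
      · unfold WW
        rw [Finset.mul_sum]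
        refine Finset.sum_le_sum fun j _ => ?_
        have hj : (0 : ℝ) < (j : ℝ) + 1 := by positivity
        have hqq : 0 ≤ q + q ^ 2 := by positivity
        rw [mul_assoc]
        refine mul_le_mul_of_nonneg_left ?_ hqq
        have h3 : ((1 : ℝ) / ((j : ℝ) + 1)) ^ 2 * ((k : ℝ) + 2 + j) =
            ((k : ℝ) + 2 + j) / ((j : ℝ) + 1) * (1 / ((j : ℝ) + 1)) := by
          field_simp
        rw [h3]
        refine mul_le_mul_of_nonneg_right ?_ (by positivity)
        rw [div_le_iff₀ hj]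
        have hk0 : (0 : ℝ) ≤ k := Nat.cast_nonneg k
        have hj0 : (0 : ℝ) ≤ j := Nat.cast_nonneg j
        nlinarith [mul_nonneg hk0 hj0]
    have h4 : WW L ^ 2 * Cov p (k + L + 1) l x z ^ 2 ≤ 2 * Hh + (q + q ^ 2) * (k + 2) * WW L :=
      key'.trans h1
    have hW0 : 0 < WW L := by linarith
    have h5 : WW L * (Cov p (k + L + 1) l x z ^ 2 * WW L) ≤
        WW L * (2 * Hh + (q + q ^ 2) * (k + 2)) := by
      have h6 : 2 * Hh ≤ WW L * (2 * Hh) := by nlinarith
      nlinarith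
    exact le_of_mul_le_mul_left h5 hW0
  · -- hκ0
    intro j (l : Fin (k + j + 1 + 1 + 1) → ℕ) hl v hv
    exact div_nonneg (mul_nonneg (skew_nonneg l v zero_le_one hp1')
      (hGpos _ v (antitone_of_mem_below hv)).le) (hGpos _ l hl).le
  · -- hκ1
    intro j (l : Fin (k + j + 1 + 1 + 1) → ℕ) hl
    have hG : 0 < G p (k + j + 1 + 1 + 1) l x := hGpos _ l hl
    show ∑ v ∈ below l, skew p l v 1 * G p (k + j + 1 + 1) v x / G p (k + j + 1 + 1 + 1) l x = 1
    rw [← Finset.sum_div, div_eq_one_iff_eq hG.ne']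
    rw [show G p (k + j + 1 + 1 + 1) l x = ∑ m ∈ below l, G p (k + j + 1 + 1) m x *
      skew p l m (x (k + j + 1 + 1)) from rfl, hy2]
    exact Finset.sum_congr rfl fun v _ => mul_comm _ _
  · -- hR
    intro j (l : Fin (k + j + 1 + 1 + 1) → ℕ) hl
    have hG : 0 < G p (k + j + 1 + 1 + 1) l x := hGpos _ l hl
    show ∑ v ∈ below l, skew p l v 1 * G p (k + j + 1 + 1) v x / G p (k + j + 1 + 1 + 1) l x *
      (G p (k + j + 1 + 1) v (cons z x) / G p (k + j + 1 + 1) v x) =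
      G p (k + j + 1 + 1 + 1) l (cons z x) / G p (k + j + 1 + 1 + 1) l x
    rw [show G p (k + j + 1 + 1 + 1) l (cons z x) = ∑ m ∈ below l, G p (k + j + 1 + 1) m (cons z x) *
      skew p l m (cons z x (k + j + 1 + 1)) from rfl, cons_succ, hy1, Finset.sum_div]
    refine Finset.sum_congr rfl fun v hv => ?_
    have hGv : 0 < G p (k + j + 1 + 1) v x := hGpos _ v (antitone_of_mem_below hv)
    field_simp
  · -- hm
    intro j (l : Fin (k + j + 1 + 1 + 1) → ℕ) hl
    have hG : 0 < G p (k + j + 1 + 1 + 1) l x := hGpos _ l hl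
    show ∑ v ∈ below l, skew p l v 1 * G p (k + j + 1 + 1) v x / G p (k + j + 1 + 1 + 1) l x *
      (T p (k + j + 1) v x / G p (k + j + 1 + 1) v x) =
      T p (k + j + 1 + 1) l x / G p (k + j + 1 + 1 + 1) l x
    rw [T_harm p hp0 hp1 (k + j + 1) l x hxp, hy1, Finset.sum_div]
    refine Finset.sum_congr rfl fun v hv => ?_
    have hGv : 0 < G p (k + j + 1 + 1) v x := hGpos _ v (antitone_of_mem_below hv)
    field_simp
  · -- hC
    intro j (l : Fin (k + j + 1 + 1 + 1) → ℕ) hl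
    have hG : 0 < G p (k + j + 1 + 1 + 1) l x := hGpos _ l hl
    show ∑ v ∈ below l, skew p l v 1 * G p (k + j + 1 + 1) v x / G p (k + j + 1 + 1 + 1) l x *
      (T p (k + j + 1) v (cons z x) / G p (k + j + 1 + 1) v x) =
      T p (k + j + 1 + 1) l (cons z x) / G p (k + j + 1 + 1 + 1) l x
    rw [T_harm p hp0 hp1 (k + j + 1) l (cons z x) hcz, cons_succ, hy0, Finset.sum_div]
    refine Finset.sum_congr rfl fun v hv => ?_
    have hGv : 0 < G p (k + j + 1 + 1) v x := hGpos _ v (antitone_of_mem_below hv)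
    field_simp
  · -- hm12
    intro j (l : Fin (k + j + 1 + 1 + 1) → ℕ) hl
    have hG : 0 < G p (k + j + 1 + 1 + 1) l x := hGpos _ l hl
    show ∑ v ∈ below l, skew p l v 1 * G p (k + j + 1 + 1) v x / G p (k + j + 1 + 1 + 1) l x *
      ((∑ u ∈ below v, skew p v u 1 * DD p v u * T p (k + j) u x) / G p (k + j + 1 + 1) v x) =
      (∑ v ∈ below l, skew p l v 1 * DD p l v * T p (k + j + 1) v x) /
        G p (k + j + 1 + 1 + 1) l x
    rw [← elem_m12_harm p hp0 hp1 (k + j) x hxp (hy0 j) l, Finset.sum_div]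
    refine Finset.sum_congr rfl fun v hv => ?_
    have hGv : 0 < G p (k + j + 1 + 1) v x := hGpos _ v (antitone_of_mem_below hv)
    field_simp
  · -- hH
    intro j (l : Fin (k + j + 1 + 1 + 1) → ℕ) hl
    have hG : 0 < G p (k + j + 1 + 1 + 1) l x := hGpos _ l hl
    show ∑ v ∈ below l, skew p l v 1 * G p (k + j + 1 + 1) v x / G p (k + j + 1 + 1 + 1) l x *
      ((T2 p (k + j + 1) v x + T p (k + j + 1) v x) / G p (k + j + 1 + 1) v x) =
      (T2 p (k + j + 1 + 1) l x + T p (k + j + 1 + 1) l x) / G p (k + j + 1 + 1 + 1) l x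
    rw [T_harm p hp0 hp1 (k + j + 1) l x hxp, T2_harm p (k + j + 1) l x, hy1,
      ← Finset.sum_add_distrib, Finset.sum_div]
    refine Finset.sum_congr rfl fun v hv => ?_
    have hGv : 0 < G p (k + j + 1 + 1) v x := hGpos _ v (antitone_of_mem_below hv)
    field_simp
  · -- hD
    intro j (l : Fin (k + j + 1 + 1 + 1) → ℕ) hl
    have hG : 0 < G p (k + j + 1 + 1 + 1) l x := hGpos _ l hl
    show ∑ v ∈ below l, skew p l v 1 * G p (k + j + 1 + 1) v x / G p (k + j + 1 + 1 + 1) l x *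
      DD p l v = (∑ v ∈ below l, skew p l v 1 * DD p l v * G p (k + j + 1 + 1) v x) /
        G p (k + j + 1 + 1 + 1) l x
    rw [Finset.sum_div]
    refine Finset.sum_congr rfl fun v hv => ?_
    ring
  · -- hDR
    intro j (l : Fin (k + j + 1 + 1 + 1) → ℕ) hl
    have hG : 0 < G p (k + j + 1 + 1 + 1) l x := hGpos _ l hl
    show ∑ v ∈ below l, skew p l v 1 * G p (k + j + 1 + 1) v x / G p (k + j + 1 + 1 + 1) l x *
      (DD p l v * (G p (k + j + 1 + 1) v (cons z x) / G p (k + j + 1 + 1) v x)) =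
      (∑ v ∈ below l, skew p l v 1 * DD p l v * G p (k + j + 1 + 1) v (cons z x)) /
        G p (k + j + 1 + 1 + 1) l x
    rw [Finset.sum_div]
    refine Finset.sum_congr rfl fun v hv => ?_
    have hGv : 0 < G p (k + j + 1 + 1) v x := hGpos _ v (antitone_of_mem_below hv)
    field_simp
  · -- hDm
    intro j (l : Fin (k + j + 1 + 1 + 1) → ℕ) hl
    have hG : 0 < G p (k + j + 1 + 1 + 1) l x := hGpos _ l hl
    show ∑ v ∈ below l, skew p l v 1 * G p (k + j + 1 + 1) v x / G p (k + j + 1 + 1 + 1) l x *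
      (DD p l v * (T p (k + j + 1) v x / G p (k + j + 1 + 1) v x)) =
      (∑ v ∈ below l, skew p l v 1 * DD p l v * T p (k + j + 1) v x) /
        G p (k + j + 1 + 1 + 1) l x
    rw [Finset.sum_div]
    refine Finset.sum_congr rfl fun v hv => ?_
    have hGv : 0 < G p (k + j + 1 + 1) v x := hGpos _ v (antitone_of_mem_below hv)
    field_simp
  · -- hDD
    intro j (l : Fin (k + j + 1 + 1 + 1) → ℕ) hl
    have hG : 0 < G p (k + j + 1 + 1 + 1) l x := hGpos _ l hl
    show ∑ v ∈ below l, skew p l v 1 * G p (k + j + 1 + 1) v x / G p (k + j + 1 + 1 + 1) l x *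
      DD p l v ^ 2 ≤ (T2 p (k + j + 1 + 1) l x + T p (k + j + 1 + 1) l x) /
        G p (k + j + 1 + 1 + 1) l x + (q + q ^ 2) * ((k : ℝ) + 2 + j)
    have h1 := second_moment p hp0 hp1 (k + j + 1 + 1) l x hxp
    have h2 : G p (k + j + 1 + 1 + 1) l (cons 1 x) = G p (k + j + 1 + 1 + 1) l x := by
      have h3 := G_rot p (k + j + 1 + 1) l x hxp
      rwa [hy2] at h3
    rw [h2] at h1
    have h4 : ∑ v ∈ below l, skew p l v 1 * G p (k + j + 1 + 1) v x /
        G p (k + j + 1 + 1 + 1) l x * DD p l v ^ 2 =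
        (∑ v ∈ below l, skew p l v 1 * DD p l v ^ 2 * G p (k + j + 1 + 1) v x) /
          G p (k + j + 1 + 1 + 1) l x := by
      rw [Finset.sum_div]
      refine Finset.sum_congr rfl fun v hv => ?_
      ring
    rw [h4, div_le_iff₀ hG, add_mul, div_mul_cancel₀ _ hG.ne']
    refine h1.trans (le_of_eq ?_)
    push_cast
    ring
  · -- hw
    intro j
    positivity
  · -- hR0
    intro v hv
    have hG := hGpos _ v hv
    show |G p (k + 0 + 1 + 1) v (cons z x) / G p (k + 0 + 1 + 1) v x| ≤ 1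
    have h0 : 0 < G p (k + 0 + 1 + 1) v (cons z x) := G_pos p _ v hv _ hcz
    rw [abs_of_nonneg (div_nonneg h0.le hG.le), div_le_one hG]
    have h2 : G p (k + 0 + 1 + 1) v (cons 1 x) = G p (k + 0 + 1 + 1) v x := by
      have h3 := G_rot p (k + 0 + 1) v x hxp
      have h4 : x (k + 0 + 1) = 1 := hy1 0
      rwa [h4] at h3
    rw [← h2]
    exact G_mono_cons p _ v x hxp hz.le hz1
  · -- h12
    exact m12_le p hp0 hp1 (k + L) k (by omega) x hx hx1 l hl

end Pool.Agent.GroB
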