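import Pool.Agent.Lib_MP_58440c_pr.ChainC
import Pool.Agent.Lib_MP_58440c_pr.Abel
import Pool.Agent.Lib_MP_58440c_pr.ELemma

/-!
# Piece CHT: the chain theorem

`x_i = mA i - cc i`, `y_i = mA (i+1) - cc i` (`i < n+2`).
-/

open Finset Polynomial

namespace Pool.Agent.GroB

theorem AA_anti (p : ℝ) (hp0 : 0 < p) (hp1 : p < 1) {n : ℕ} (l : Fin (n + 2) → ℕ)
    (hl : Antitone l) (z : ℝ) (hz : 0 < z) (hz1 : z ≤ 1) (i : ℕ) (hi : i ≤ n + 2) :
    G p (n + 2) l (cons z one) / G p (n + 2) l one ≤ AA p l i z := by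
  have key : ∀ j, j ≤ n + 2 → AA p l (n + 2) z ≤ AA p l (n + 2 - j) z := by
    intro j
    induction j with
    | zero => intro _; exact le_rfl
    | succ j ih =>
      intro hj
      have h1 := ih (by omega)
      have h2 := (cut_mono p hp0 hp1 l hl (n + 2 - (j + 1)) (by omega)).1 z hz hz1
      rw [show n + 2 - (j + 1) + 1 = n + 2 - j by omega] at h2
      exact h1.trans h2
  have h := key (n + 2 - i) (by omega)
  rw [show n + 2 - (n + 2 - i) = i by omega] at h
  have e : AA p l (n + 2) z = G p (n + 2) l (cons z one) / G p (n + 2) l one := by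
    unfold AA; rw [cut_all]
  rw [← e]; exact h

theorem chainT_mono (p : ℝ) (hp0 : 0 < p) (hp1 : p < 1) {n : ℕ} (l : Fin (n + 2) → ℕ)
    (hl : Antitone l) (i : ℕ) (hi : i ≤ n + 2) :
    (T2 p (n + 1) (cut i l) one + T p (n + 1) (cut i l) one) / G p (n + 2) (cut i l) one ≤
      (T2 p (n + 1) l one + T p (n + 1) l one) / G p (n + 2) l one := by
  have key : ∀ j, j ≤ n + 2 →
      (T2 p (n + 1) (cut (n + 2 - j) l) one + T p (n + 1) (cut (n + 2 - j) l) one) /
          G p (n + 2) (cut (n + 2 - j) l) one ≤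
        (T2 p (n + 1) (cut (n + 2) l) one + T p (n + 1) (cut (n + 2) l) one) /
          G p (n + 2) (cut (n + 2) l) one := by
    intro j
    induction j with
    | zero => intro _; exact le_rfl
    | succ j ih =>
      intro hj
      have h1 := ih (by omega)
      have h2 := (cut_mono p hp0 hp1 l hl (n + 2 - (j + 1)) (by omega)).2
      rw [show n + 2 - (j + 1) + 1 = n + 2 - j by omega] at h2
      refine le_trans ?_ h1
      rw [add_div, add_div]
      exact add_le_add h2.2 h2.1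
  have h := key (n + 2 - i) (by omega)
  rw [show n + 2 - (n + 2 - i) = i by omega, cut_all] at h
  exact h

theorem EE_nonneg (p : ℝ) (hp0 : 0 < p) (hp1 : p < 1) {n : ℕ} (l : Fin (n + 2) → ℕ)
    (hl : Antitone l) (i : ℕ) (z : ℝ) (hz : 0 < z) (hz1 : z ≤ 1) : 0 ≤ EE p l i z :=
  mul_nonneg (by linarith) (cov_nonneg p hp0 hp1 n 0 (Nat.zero_le _) one unitSeq_one
    (fun _ _ => rfl) (cut i l) (cut_antitone i l hl) z hz hz1)

theorem mA_zero (p : ℝ) (hp0 : 0 < p) (hp1 : p < 1) {n : ℕ} (l : Fin (n + 2) → ℕ) :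
    mA p l 0 = 0 := by
  unfold mA
  rw [cut_zero]
  have h := hasDerivAt_G p hp0 hp1 (n + 1) (fun _ => 0) one (unitSeq_one.posPt hp0 hp1)
  have h2 : (fun w => G p (n + 1 + 1) (fun _ => 0) (cons w one)) = fun _ => (1 : ℝ) := by
    funext w; exact G_zero p _ _
  rw [h2] at h
  rw [h.unique (hasDerivAt_const (1 : ℝ) (1 : ℝ)), zero_div]

theorem chain_thm (p : ℝ) (hp0 : 0 < p) (hp1 : p < 1) {n : ℕ} (l : Fin (n + 2) → ℕ)
    (hl : Antitone l) (e : ℝ)
    (he : ∀ i ≤ n + 2, ∀ z, 0 < z → z ≤ 1 → EE p l i z ≤ e)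
    (h2 : 2 * e ≤ G p (n + 2) l (cons (1 / 2) one) / G p (n + 2) l one) :
    ∃ x y : Fin (n + 2) → ℝ, (∀ i, -3 ≤ x i ∧ x i ≤ p / (1 - p) ∧ x i ≤ y i) ∧
      ∑ i, (y i - x i) = T p (n + 1) l one / G p (n + 2) l one ∧
      ∀ z, 5 / 6 ≤ z → z ≤ 1 →
        |G p (n + 2) l (cons z one) / G p (n + 2) l one -
          ∏ i, (1 - x i * (z - 1)) / (1 - y i * (z - 1))| ≤ 2 * e := by
  set X : ℕ → ℝ := fun i => mA p l i - cc p l i with hX
  set Y : ℕ → ℝ := fun i => mA p l (i + 1) - cc p l i with hY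
  have hxq : ∀ i, i < n + 2 → X i ≤ p / (1 - p) := fun i hi => cc_lower p hp0 hp1 l hl i hi
  have hxy : ∀ i, i < n + 2 → X i ≤ Y i := by
    intro i hi
    have := (cut_mono p hp0 hp1 l hl i hi).2.1
    simp only [hX, hY, mA]
    linarith
  have hyx : ∀ i, i + 1 < n + 2 → X (i + 1) ≤ Y i := by
    intro i hi
    have := cc_mono p hp0 hp1 l hl i hi
    simp only [hX, hY]
    linarith
  have hx3 : ∀ i, i < n + 2 → -3 ≤ X i := by
    intro i hi
    have hc := CC_pos p hp0 hp1 l hl i hi (1 / 2) (by norm_num) (by norm_num)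
    have hid := (chain_id p hp0 hp1 l hl i hi (1 / 2) (by norm_num) (by norm_num)).1
    rw [hid] at hc
    have hE := he i hi.le (1 / 2) (by norm_num) (by norm_num)
    have hA := AA_anti p hp0 hp1 l hl (1 / 2) (by norm_num) (by norm_num) i hi.le
    have hGpos : 0 < G p (n + 2) l (cons (1 / 2) one) / G p (n + 2) l one :=
      div_pos (G_pos p _ l hl _ ((unitSeq_one.cons (by norm_num) (by norm_num)).posPt hp0 hp1))
        (G_pos p _ l hl _ (unitSeq_one.posPt hp0 hp1))
    set a := AA p l i (1 / 2)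
    have ha : 0 < a := lt_of_lt_of_le hGpos hA
    by_contra hcon
    push Not at hcon
    have hXi : mA p l i - cc p l i < -3 := hcon
    have h4 : 1 - (mA p l i - cc p l i) * (1 / 2 - 1) < -(1 / 2) := by linarith
    have h5 : a * (1 - (mA p l i - cc p l i) * (1 / 2 - 1)) < a * (-(1 / 2)) :=
      mul_lt_mul_of_pos_left h4 ha
    linarith
  refine ⟨fun i => X i, fun i => Y i, fun i => ⟨hx3 i i.2, hxq i i.2, hxy i i.2⟩, ?_, ?_⟩
  · have hsum : ∑ i : Fin (n + 2), (Y i - X i) = ∑ i ∈ range (n + 2), (Y i - X i) :=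
      Fin.sum_univ_eq_sum_range (fun i => Y i - X i) (n + 2)
    rw [hsum]
    have h6 : ∀ i, Y i - X i = mA p l (i + 1) - mA p l i := by
      intro i; simp only [hX, hY]; ring
    rw [Finset.sum_congr rfl fun i _ => h6 i, Finset.sum_range_sub, mA_zero p hp0 hp1, sub_zero]
    unfold mA
    rw [cut_all]
  · intro z hz hz1
    have hz0 : 0 < z := by linarith
    have habel := abel_bound (n + 2) (fun i => AA p l i z) (fun i => EE p l i z) X Y (z - 1) e
      (by linarith) (AA_zero p l z) (EE_zero p hp0 hp1 l z hz0 hz1)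
      (fun i hi => ⟨EE_nonneg p hp0 hp1 l hl i z hz0 hz1, he i hi z hz0 hz1⟩)
      (fun i hi => ?_) (fun i hi => ?_) hxy hyx (fun i hi => ?_)
    · have e1 : AA p l (n + 2) z = G p (n + 2) l (cons z one) / G p (n + 2) l one := by
        unfold AA; rw [cut_all]
      have e2 : ∏ i : Fin (n + 2), (1 - X i * (z - 1)) / (1 - Y i * (z - 1)) =
          ∏ i ∈ range (n + 2), (1 - X i * (z - 1)) / (1 - Y i * (z - 1)) :=
        Fin.prod_univ_eq_prod_range (fun i => (1 - X i * (z - 1)) / (1 - Y i * (z - 1))) (n + 2)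
      show |G p (n + 2) l (cons z one) / G p (n + 2) l one -
        ∏ i : Fin (n + 2), (1 - X i * (z - 1)) / (1 - Y i * (z - 1))| ≤ 2 * e
      rw [e2, ← e1]
      exact habel
    · have := chain_id p hp0 hp1 l hl i hi z hz0 hz1
      show AA p l (i + 1) z * (1 - Y i * (z - 1)) + EE p l (i + 1) z =
        AA p l i z * (1 - X i * (z - 1)) + EE p l i z
      simp only [hX, hY]
      rw [← this.1, ← this.2]
    · have := hx3 i hi
      nlinarith
    · have h7 := hx3 i hi
      have h8 := hxy i hi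
      nlinarith

theorem chain_e (p : ℝ) (hp0 : 0 < p) (hp1 : p < 1) {n : ℕ} (hn : 1 ≤ n) (l : Fin (n + 2) → ℕ)
    (hl : Antitone l) (i : ℕ) (hi : i ≤ n + 2) (z : ℝ) (hz : 0 < z) (hz1 : z ≤ 1) :
    EE p l i z ^ 2 * WW n ≤
      2 * ((T2 p (n + 1) l one + T p (n + 1) l one) / G p (n + 2) l one) +
        (p / (1 - p) + (p / (1 - p)) ^ 2) * 2 := by
  have h := e_lemma p hp0 hp1 (n + 1) 0 n (by omega) hn one unitSeq_one (fun _ _ => rfl)
    (cut i l) (cut_antitone i l hl) z hz hz1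
  have hm := chainT_mono p hp0 hp1 l hl i hi
  have hW : 0 ≤ WW n := Finset.sum_nonneg fun j _ => by positivity
  have hE : EE p l i z ^ 2 ≤ Cov p (n + 1) (cut i l) one z ^ 2 := by
    unfold EE
    rw [mul_pow]
    have : (1 - z) ^ 2 ≤ 1 := by nlinarith
    exact mul_le_of_le_one_left (sq_nonneg _) this
  have h9 := mul_le_mul_of_nonneg_right hE hW
  push_cast at h
  linarith

end Pool.Agent.GroB
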