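import Pool.Agent.Lib_MP_58440c_pr.Typical
import Pool.Agent.Lib_MP_58440c_pr.ChainThm

/-!
# Piece APX: every multiplicative `Φ` is a limit of general products
-/

open Finset Polynomial Filter Topology

namespace Pool.Agent.GroB

theorem approx (p : ℝ) (hp0 : 0 < p) (hp1 : p < 1) (Φ : ℝ → ℝ) (hΦ : PP p Φ) (B : ℝ)
    (hB : ∀ z, 0 < z → z ≤ 1 → 1 - Φ z ≤ B * (1 - z)) :
    ∃ (k : ℕ → ℕ) (x y : ∀ j, Fin (k j) → ℝ),
      (∀ j i, -3 ≤ x j i ∧ x j i ≤ p / (1 - p) ∧ x j i ≤ y j i) ∧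
      (∀ j, ∑ i, (y j i - x j i) ≤ 3 * (1 + B)) ∧
      ∀ z, 5 / 6 ≤ z → z ≤ 1 →
        Tendsto (fun j => ∏ i, (1 - x j i * (z - 1)) / (1 - y j i * (z - 1))) atTop
          (𝓝 (Φ z)) := by
  obtain ⟨C, n, l, hn, hl, hT, hT2, hlim⟩ := typical p hp0 hp1 Φ hΦ B hB
  set Kc : ℝ := 2 * C + (p / (1 - p) + (p / (1 - p)) ^ 2) * 2 with hKc
  set e : ℕ → ℝ := fun j => Real.sqrt (Kc / WW (n j)) with he
  have hWt : Tendsto (fun j => WW (n j)) atTop atTop := tendsto_WW.comp hn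
  have he0 : Tendsto e atTop (𝓝 0) := by
    have h1 : Tendsto (fun j => Kc / WW (n j)) atTop (𝓝 0) := hWt.const_div_atTop Kc
    have h2 := (Real.continuous_sqrt.tendsto 0).comp h1
    rw [Real.sqrt_zero] at h2
    exact h2
  have hhalf := hlim (1 / 2) (by norm_num) (by norm_num)
  have hΦpos := (phi_pos p hp0 hp1 Φ hΦ (1 / 2) (by norm_num) (by norm_num)).1
  have hev1 : ∀ᶠ j in atTop, 2 * e j ≤
      G p (n j + 2) (l j) (cons (1 / 2) one) / G p (n j + 2) (l j) one := by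
    have h3 : Tendsto (fun j => G p (n j + 2) (l j) (cons (1 / 2) one) /
        G p (n j + 2) (l j) one - 2 * e j) atTop (𝓝 (Φ (1 / 2) - 2 * 0)) :=
      hhalf.sub (he0.const_mul 2)
    have h4 := h3.eventually (lt_mem_nhds (show (0 : ℝ) < Φ (1 / 2) - 2 * 0 by linarith))
    filter_upwards [h4] with j hj
    linarith
  have hev2 : ∀ᶠ j in atTop, 1 ≤ n j := hn.eventually (eventually_ge_atTop 1)
  have hev3 : ∀ᶠ j in atTop, 0 < WW (n j) := hWt.eventually (eventually_gt_atTop 0)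
  obtain ⟨J, hJ⟩ := eventually_atTop.1 (hev1.and (hev2.and hev3))
  have hex : ∀ j, ∃ x y : Fin (n (j + J) + 2) → ℝ,
      (∀ i, -3 ≤ x i ∧ x i ≤ p / (1 - p) ∧ x i ≤ y i) ∧
      ∑ i, (y i - x i) = T p (n (j + J) + 1) (l (j + J)) one /
        G p (n (j + J) + 2) (l (j + J)) one ∧
      ∀ z, 5 / 6 ≤ z → z ≤ 1 →
        |G p (n (j + J) + 2) (l (j + J)) (cons z one) / G p (n (j + J) + 2) (l (j + J)) one -
          ∏ i, (1 - x i * (z - 1)) / (1 - y i * (z - 1))| ≤ 2 * e (j + J) := by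
    intro j
    obtain ⟨h1, h2, h3⟩ := hJ (j + J) (Nat.le_add_left _ _)
    refine chain_thm p hp0 hp1 (l (j + J)) (hl (j + J)) (e (j + J)) ?_ h1
    intro i hi z hz hz1
    have h4 := chain_e p hp0 hp1 h2 (l (j + J)) (hl (j + J)) i hi z hz hz1
    have h5 := hT2 (j + J)
    have h6 : EE p (l (j + J)) i z ^ 2 * WW (n (j + J)) ≤ Kc := by
      rw [hKc]; linarith
    have h7 : EE p (l (j + J)) i z ^ 2 ≤ Kc / WW (n (j + J)) := by
      rw [le_div_iff₀ h3]; exact h6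
    exact Real.le_sqrt_of_sq_le h7
  choose x y hxy hsum happ using hex
  refine ⟨fun j => n (j + J) + 2, x, y, fun j i => hxy j i, fun j => ?_, ?_⟩
  · rw [hsum j]; exact hT (j + J)
  · intro z hz hz1
    have hz0 : 0 < z := by linarith
    have h1 : Tendsto (fun j => G p (n (j + J) + 2) (l (j + J)) (cons z one) /
        G p (n (j + J) + 2) (l (j + J)) one) atTop (𝓝 (Φ z)) :=
      (hlim z hz0 hz1).comp (tendsto_add_atTop_nat J)
    have h2 : Tendsto (fun j => 2 * e (j + J)) atTop (𝓝 0) := by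
      have := (he0.comp (tendsto_add_atTop_nat J)).const_mul 2
      simpa using this
    have h3 : Tendsto (fun j => G p (n (j + J) + 2) (l (j + J)) (cons z one) /
        G p (n (j + J) + 2) (l (j + J)) one -
        ∏ i, (1 - x j i * (z - 1)) / (1 - y j i * (z - 1))) atTop (𝓝 0) :=
      squeeze_zero_norm (fun j => by rw [Real.norm_eq_abs]; exact happ j z hz hz1) h2
    have h4 := h1.sub h3
    simpa using h4

end Pool.Agent.GroB
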