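import Mathlib

/-!
# Grothendieck branching graph: the definitions used in the statement

Partitions with at most `n` parts (the set `𝕐_n`) are the antitone functions `Fin n → ℕ`.
-/

open Finset

namespace Pool.Agent.GroB

/-- The set of `m ≺ l`: all `m` with `l_{i+1} ≤ m_i ≤ l_i` (such `m` are automatically antitone). -/
def below {n : ℕ} (l : Fin (n + 1) → ℕ) : Finset (Fin n → ℕ) :=
  Fintype.piFinset fun i => Finset.Icc (l i.succ) (l i.castSucc)

/-- `r(l/m)`, the number of `i` with `m_i > l_{i+1}`. -/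
def rr {n : ℕ} (l : Fin (n + 1) → ℕ) (m : Fin n → ℕ) : ℕ :=
  (Finset.univ.filter fun i : Fin n => l i.succ < m i).card

/-- The one-variable skew Grothendieck polynomial `G_{l/m}(x)` with parameter `-p`:
`x ^ (|l| - |m|) * (1 - p x) ^ r(l/m)` if `m ≺ l`, and `0` otherwise. -/
def skew {R : Type*} [CommRing R] (p : R) {n : ℕ} (l : Fin (n + 1) → ℕ) (m : Fin n → ℕ)
    (x : R) : R :=
  if m ∈ below l then x ^ (∑ i, l i - ∑ i, m i) * (1 - p * x) ^ rr l m else 0

/-- The Grothendieck polynomial `G_l(x_1, …, x_n)` with parameter `-p`, by the branching identity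
`G_l(x_1, …, x_n, x) = ∑_m G_m(x_1, …, x_n) G_{l/m}(x)` (the determinantal formula of the problem
file is the first part of the main theorem). -/
def Gro {R : Type*} [CommRing R] (p : R) : {n : ℕ} → (Fin n → ℕ) → (Fin n → R) → R
  | 0, _, _ => 1
  | n + 1, l, x =>
      ∑ m ∈ below l, Gro p m (fun i : Fin n => x i.castSucc) * skew p l m (x (Fin.last n))

/-- Coherent systems on the Grothendieck branching graph; `M n l` is the mass of the partition
`l` (zero when `l` is not antitone, i.e. not a partition): each `M n` is a probability measure on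
`𝕐_n`, and `M_n(m) = ∑_l M_{n+1}(l) G_{l/m}(1) G_m(1^n) / G_l(1^(n+1))`. -/
structure Coherent (p : ℝ) (M : (n : ℕ) → (Fin n → ℕ) → ℝ) : Prop where
  nonneg : ∀ n l, 0 ≤ M n l
  supp : ∀ n l, ¬ Antitone l → M n l = 0
  prob : ∀ n, HasSum (M n) 1
  coh : ∀ n (m : Fin n → ℕ), Antitone m →
    HasSum (fun l : Fin (n + 1) → ℕ =>
      M (n + 1) l * (skew p l m 1 * Gro p m (fun _ => 1) / Gro p l (fun _ => 1))) (M n m)

/-- The class `𝓕`: functions analytic on the closed unit disc, uniform limits there of finite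
products `∏ (1 - x_i (z-1)) / (1 - y_i (z-1))`, `x_i ∈ [-1, p/(1-p)]`, `y_i ≥ 0`, `y_i ≥ x_i`. -/
def FF (p : ℝ) : Set (ℂ → ℂ) :=
  {Φ | AnalyticOnNhd ℂ Φ (Metric.closedBall 0 1) ∧
    ∀ ε > 0, ∃ (m : ℕ) (x y : Fin m → ℝ),
      (∀ i, -1 ≤ x i ∧ x i ≤ p / (1 - p) ∧ 0 ≤ y i ∧ x i ≤ y i) ∧
      ∀ z : ℂ, ‖z‖ ≤ 1 →
        ‖Φ z - ∏ i, (1 - (x i : ℂ) * (z - 1)) / (1 - (y i : ℂ) * (z - 1))‖ ≤ ε}

end Pool.Agent.GroB
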