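import Pool.Agent.Lib_MP_58440c_pr.Defs

/-!
# Piece CHI: index bookkeeping for the row chain

`cut i l` keeps the first `i` rows of `l`. In increasing order of rows, `sys p (n+2) (cut i l)` and
`sys p (n+2) (cut (i+1) l)` differ only in row `r_i = n+1-i`: `ph p (n+1-i) i` and
`ph p (l i + (n+1-i)) i`. The other rows: `HH p l i t = ph p (Hl l i t) (Hb n i t)`, `t : Fin (n+1)`
(rows `t < r_i` are the zero rows `(t, n+1-t)`, rows `t ≥ r_i` are `(l (n-t) + t + 1, n - t)`).
Compare row by row: `Fin.insertNth_apply_same`, `Fin.insertNth_apply_succAbove` (use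
`Fin.eq_insertNth_iff`), `Fin.rev`, `Fin.succAbove` by cases `t < r_i` or not.
(All statements were checked numerically.)
-/

open Finset Polynomial

namespace Pool.Agent.GroB

/-- the first `i` rows of `l` -/
def cut {N : ℕ} (i : ℕ) (l : Fin N → ℕ) : Fin N → ℕ := fun j => if (j : ℕ) < i then l j else 0

theorem cut_antitone {N : ℕ} (i : ℕ) (l : Fin N → ℕ) (hl : Antitone l) : Antitone (cut i l) := by
  intro a b hab
  have hab' : (a : ℕ) ≤ b := hab
  unfold cut
  split_ifs with h1 h2 h2
  · exact hl hab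
  · omega
  · exact Nat.zero_le _
  · exact le_rfl

theorem cut_zero {N : ℕ} (l : Fin N → ℕ) : cut 0 l = fun _ => 0 := by
  funext j; simp [cut]

theorem cut_all {N : ℕ} (l : Fin N → ℕ) : cut N l = l := by
  funext j; simp [cut]

def Hl {n : ℕ} (l : Fin (n + 2) → ℕ) (i : ℕ) (t : Fin (n + 1)) : ℕ :=
  if (t : ℕ) + i < n + 1 then t else l ⟨n - t, by omega⟩ + t + 1

def Hb (n i : ℕ) (t : Fin (n + 1)) : ℕ := if (t : ℕ) + i < n + 1 then n + 1 - t else n - t

noncomputable def HH (p : ℝ) {n : ℕ} (l : Fin (n + 2) → ℕ) (i : ℕ) : Fin (n + 1) → ℝ[X] :=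
  fun t => ph p (Hl l i t) (Hb n i t)

theorem Hl_strictMono {n : ℕ} (l : Fin (n + 2) → ℕ) (hl : Antitone l) (i : ℕ) :
    StrictMono (Hl l i) := by
  intro a b hab
  have hab' : (a : ℕ) < b := hab
  have ha := a.isLt
  have hb := b.isLt
  unfold Hl
  split_ifs with h1 h2 h2
  · exact hab'
  · omega
  · omega
  · have h3 : l ⟨n - a, by omega⟩ ≤ l ⟨n - b, by omega⟩ := by
      apply hl
      rw [Fin.le_def]
      show n - (b : ℕ) ≤ n - (a : ℕ)
      omega
    omega

theorem Hb_antitone (n i : ℕ) : Antitone (Hb n i) := by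
  intro a b hab
  have hab' : (a : ℕ) ≤ b := hab
  have ha := a.isLt
  have hb := b.isLt
  unfold Hb
  split_ifs <;> omega

theorem sys_cut (p : ℝ) {n : ℕ} (l : Fin (n + 2) → ℕ) (i : ℕ) (hi : i < n + 2) :
    sys p (n + 2) (cut i l) =
      Fin.insertNth (α := fun _ => ℝ[X]) (⟨n + 1 - i, by omega⟩ : Fin (n + 2))
        (ph p (n + 1 - i) i) (HH p l i) := by
  rw [Fin.eq_insertNth_iff]
  constructor
  · unfold sys cut
    have h1 : ¬ (((⟨n + 1 - i, by omega⟩ : Fin (n + 2)).rev : Fin (n + 2)) : ℕ) < i := by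
      rw [Fin.val_rev]
      show ¬ (n + 2 - (n + 1 - i + 1) < i)
      omega
    rw [if_neg h1]
    show ph p (0 + (n + 1 - i)) (n + 2 - 1 - (n + 1 - i)) = _
    congr 1
    · omega
    · omega
  · funext t
    have ht := t.isLt
    unfold Fin.removeNth sys cut HH Hl Hb
    by_cases h : (t : ℕ) + i < n + 1
    · have h0 : (⟨n + 1 - i, by omega⟩ : Fin (n + 2)).succAbove t = t.castSucc := by
        apply Fin.succAbove_of_castSucc_lt
        rw [Fin.lt_def]
        show (t : ℕ) < n + 1 - i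
        omega
      rw [h0, if_pos h, if_pos h, Fin.val_rev, Fin.val_castSucc, if_neg (by omega)]
      congr 1
      omega
    · have h0 : (⟨n + 1 - i, by omega⟩ : Fin (n + 2)).succAbove t = t.succ := by
        apply Fin.succAbove_of_le_castSucc
        rw [Fin.le_def]
        show n + 1 - i ≤ (t : ℕ)
        omega
      rw [h0, if_neg h, if_neg h, Fin.val_rev, Fin.val_succ, if_pos (by omega)]
      have h4 : (t.succ.rev : Fin (n + 2)) = ⟨n - t, by omega⟩ := by
        apply Fin.ext
        rw [Fin.val_rev, Fin.val_succ]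
        show n + 2 - ((t : ℕ) + 1 + 1) = n - t
        omega
      rw [h4]
      congr 1
      omega

theorem sys_cut_succ (p : ℝ) {n : ℕ} (l : Fin (n + 2) → ℕ) (i : ℕ) (hi : i < n + 2) :
    sys p (n + 2) (cut (i + 1) l) =
      Fin.insertNth (α := fun _ => ℝ[X]) (⟨n + 1 - i, by omega⟩ : Fin (n + 2))
        (ph p (l ⟨i, hi⟩ + (n + 1 - i)) i) (HH p l i) := by
  rw [Fin.eq_insertNth_iff]
  constructor
  · unfold sys cut
    have h1 : (((⟨n + 1 - i, by omega⟩ : Fin (n + 2)).rev : Fin (n + 2)) : ℕ) < i + 1 := by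
      rw [Fin.val_rev]
      show n + 2 - (n + 1 - i + 1) < i + 1
      omega
    have h2 : (⟨n + 1 - i, by omega⟩ : Fin (n + 2)).rev = ⟨i, hi⟩ := by
      apply Fin.ext
      rw [Fin.val_rev]
      show n + 2 - (n + 1 - i + 1) = i
      omega
    rw [if_pos h1, h2]
    show ph p (l ⟨i, hi⟩ + (n + 1 - i)) (n + 2 - 1 - (n + 1 - i)) = _
    congr 1
    omega
  · funext t
    have ht := t.isLt
    unfold Fin.removeNth sys cut HH Hl Hb
    by_cases h : (t : ℕ) + i < n + 1
    · have h0 : (⟨n + 1 - i, by omega⟩ : Fin (n + 2)).succAbove t = t.castSucc := by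
        apply Fin.succAbove_of_castSucc_lt
        rw [Fin.lt_def]
        show (t : ℕ) < n + 1 - i
        omega
      rw [h0, if_pos h, if_pos h, Fin.val_rev, Fin.val_castSucc, if_neg (by omega)]
      congr 1
      omega
    · have h0 : (⟨n + 1 - i, by omega⟩ : Fin (n + 2)).succAbove t = t.succ := by
        apply Fin.succAbove_of_le_castSucc
        rw [Fin.le_def]
        show n + 1 - i ≤ (t : ℕ)
        omega
      rw [h0, if_neg h, if_neg h, Fin.val_rev, Fin.val_succ, if_pos (by omega)]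
      have h4 : (t.succ.rev : Fin (n + 2)) = ⟨n - t, by omega⟩ := by
        apply Fin.ext
        rw [Fin.val_rev, Fin.val_succ]
        show n + 2 - ((t : ℕ) + 1 + 1) = n - t
        omega
      rw [h4]
      congr 1
      omega

end Pool.Agent.GroB
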