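import Pool.Agent.Lib_MP_58440c_pr.GBasic

/-!
# Piece GD: derivatives at one

* `hasDerivAt_skew`: for `m ∈ below l` the function is `w^a (1-pw)^r`, derivative at `1`:
  `(a - q r)(1-p)^r` (`q = p/(1-p)`); the `ℕ`-subtraction is exact (`sum_le_of_mem_below`).
* `hasDerivAt_G`: near `w = 1`, `G_cons_eq` (finite sum). (`PosPt p (cons w x)` for `w` near `1`.)
* `T_eq`: uniqueness of derivatives and `GP_eval`.
* `T_harm`, `T2_harm`: `derivative` of the recursion of `GP` (`T_eq`; both sides, for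
  `PosPt`), or of the recursion of `G p (n+2) l (cons w x)`.
* `T_nonneg`, `T2_nonneg`: nonnegative coefficients.
* `T_le`: `k ≤ 1 + k(k-1)` for `k ∈ ℕ`, applied coefficientwise.
* `hasDerivAt_T_cons`: `T p (n+1) l (cons z x) = ∑ m, skew p l m 1 * DD p l m * G p (n+1) m (cons z x)`
  and `hasDerivAt_G` for each `m`.
-/


open Finset Polynomial

namespace Pool.Agent.GroB

theorem hasDerivAt_skew (p : ℝ) (hp1 : p < 1) {n : ℕ} (l : Fin (n + 1) → ℕ) (m : Fin n → ℕ) :
    HasDerivAt (fun w => skew p l m w) (skew p l m 1 * DD p l m) 1 := by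
  by_cases hm : m ∈ below l
  · have hle := sum_le_of_mem_below hm
    set a := ∑ i, l i - ∑ i, m i with ha
    set r := rr l m with hr
    have hfun : (fun w : ℝ => skew p l m w) = fun w => w ^ a * (1 - p * w) ^ r := by
      funext w; rw [skew_of_mem p hm]
    rw [hfun, skew_of_mem p hm]
    have h1 : HasDerivAt (fun w : ℝ => w ^ a) ((a : ℝ) * 1 ^ (a - 1)) 1 := hasDerivAt_pow a 1
    have h2 : HasDerivAt (fun w : ℝ => 1 - p * w) (-p) 1 := by
      have := ((hasDerivAt_id (1 : ℝ)).const_mul p).const_sub 1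
      simpa using this
    have h3 : HasDerivAt (fun w : ℝ => (1 - p * w) ^ r) ((r : ℝ) * (1 - p * 1) ^ (r - 1) * -p) 1 :=
      h2.pow r
    have h4 : HasDerivAt (fun w : ℝ => w ^ a * (1 - p * w) ^ r)
        ((a : ℝ) * 1 ^ (a - 1) * (1 - p * 1) ^ r + 1 ^ a * ((r : ℝ) * (1 - p * 1) ^ (r - 1) * -p)) 1 :=
      h1.mul h3
    have hsub : (a : ℝ) = ((∑ i, l i : ℕ) : ℝ) - ((∑ i, m i : ℕ) : ℝ) := by
      rw [ha, Nat.cast_sub hle]
    refine h4.congr_deriv ?_
    unfold DD
    rw [← hsub, ← ha, ← hr]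
    simp only [one_pow, mul_one, one_mul]
    have h1p : (1 - p) ≠ 0 := by linarith
    cases r with
    | zero => simp
    | succ r =>
        simp only [Nat.add_sub_cancel]
        rw [pow_succ]
        field_simp
        push_cast
        ring
  · have hfun : (fun w : ℝ => skew p l m w) = fun _ => 0 := by
      funext w; rw [skew_of_notMem p hm]
    rw [hfun, skew_of_notMem p hm, zero_mul]
    exact hasDerivAt_const _ _

theorem hasDerivAt_G (p : ℝ) (hp0 : 0 < p) (hp1 : p < 1) (n : ℕ) (l : Fin (n + 1) → ℕ)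
    (x : ℕ → ℝ) (hx : PosPt p x) :
    HasDerivAt (fun w => G p (n + 1) l (cons w x)) (T p n l x) 1 := by
  have h1 : HasDerivAt (fun w => ∑ m ∈ below l, G p n m x * skew p l m w) (T p n l x) 1 := by
    have h2 := HasDerivAt.fun_sum (u := below l) (A := fun m w => G p n m x * skew p l m w)
      (A' := fun m => G p n m x * (skew p l m 1 * DD p l m)) (x := (1 : ℝ))
      (fun m _ => (hasDerivAt_skew p hp1 l m).const_mul _)
    refine h2.congr_deriv ?_
    rw [T]
    exact Finset.sum_congr rfl fun m _ => by ring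
  refine h1.congr_of_eventuallyEq ?_
  have e1 : ∀ᶠ w : ℝ in nhds 1, 0 < w := lt_mem_nhds one_pos
  have e2 : ∀ᶠ w : ℝ in nhds 1, p * w < 1 := by
    have hc : Filter.Tendsto (fun w : ℝ => p * w) (nhds 1) (nhds (p * 1)) :=
      (continuous_const.mul continuous_id).tendsto 1
    exact hc.eventually (gt_mem_nhds (by linarith))
  filter_upwards [e1, e2] with w hw1 hw2
  exact G_cons_eq p n l w x (hx.cons hw1 hw2)

theorem T_eq (p : ℝ) (hp0 : 0 < p) (hp1 : p < 1) (n : ℕ) (l : Fin (n + 1) → ℕ)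
    (x : ℕ → ℝ) (hx : PosPt p x) : T p n l x = (GP p n l x).derivative.eval 1 := by
  have h1 := hasDerivAt_G p hp0 hp1 n l x hx
  have h2 := (GP p n l x).hasDerivAt 1
  have h3 : (fun w => G p (n + 1) l (cons w x)) = fun w => (GP p n l x).eval w := by
    funext w; rw [GP_eval]
  rw [h3] at h1
  exact h1.unique h2

theorem T_harm (p : ℝ) (hp0 : 0 < p) (hp1 : p < 1) (n : ℕ) (l : Fin (n + 2) → ℕ)
    (x : ℕ → ℝ) (hx : PosPt p x) :
    T p (n + 1) l x = ∑ m ∈ below l, skew p l m (x n) * T p n m x := by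
  rw [T_eq p hp0 hp1 (n + 1) l x hx]
  rw [show GP p (n + 1) l x = ∑ m ∈ below l, C (skew p l m (x n)) * GP p n m x from rfl]
  rw [derivative_sum, eval_finsetSum]
  refine Finset.sum_congr rfl fun m _ => ?_
  rw [derivative_C_mul, eval_mul, eval_C, T_eq p hp0 hp1 n m x hx]

theorem T2_harm (p : ℝ) (n : ℕ) (l : Fin (n + 2) → ℕ) (x : ℕ → ℝ) :
    T2 p (n + 1) l x = ∑ m ∈ below l, skew p l m (x n) * T2 p n m x := by
  rw [T2]
  rw [show GP p (n + 1) l x = ∑ m ∈ below l, C (skew p l m (x n)) * GP p n m x from rfl]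
  rw [derivative_sum, derivative_sum, eval_finsetSum]
  refine Finset.sum_congr rfl fun m _ => ?_
  rw [derivative_C_mul, derivative_C_mul, eval_mul, eval_C, T2]

theorem eval_one_nonneg {P : ℝ[X]} (hP : ∀ k, 0 ≤ P.coeff k) : 0 ≤ P.eval 1 := by
  rw [eval_eq_sum_range]
  exact Finset.sum_nonneg fun i _ => by simpa using hP i

theorem coeff_derivative_nonneg {P : ℝ[X]} (hP : ∀ k, 0 ≤ P.coeff k) (k : ℕ) :
    0 ≤ P.derivative.coeff k := by
  rw [coeff_derivative]
  exact mul_nonneg (hP _) (by positivity)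

theorem T_nonneg (p : ℝ) (hp0 : 0 < p) (hp1 : p < 1) (n : ℕ) (l : Fin (n + 1) → ℕ)
    (x : ℕ → ℝ) (hx : PosPt p x) : 0 ≤ T p n l x := by
  rw [T_eq p hp0 hp1 n l x hx]
  exact eval_one_nonneg (coeff_derivative_nonneg (GP_coeff_nonneg p n l x hx))

theorem T2_nonneg (p : ℝ) (n : ℕ) (l : Fin (n + 1) → ℕ)
    (x : ℕ → ℝ) (hx : PosPt p x) : 0 ≤ T2 p n l x := by
  rw [T2]
  exact eval_one_nonneg
    (coeff_derivative_nonneg (coeff_derivative_nonneg (GP_coeff_nonneg p n l x hx)))

theorem eval_one_deriv_le {P : ℝ[X]} (hP : ∀ k, 0 ≤ P.coeff k) :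
    P.derivative.eval 1 ≤ P.eval 1 + P.derivative.derivative.eval 1 := by
  have key : ∀ (N : ℕ) (c : ℕ → ℝ), (∀ i, 0 ≤ c i) →
      (∑ i ∈ range N, C (c i) * X ^ i : ℝ[X]).derivative.eval 1 ≤
        (∑ i ∈ range N, C (c i) * X ^ i : ℝ[X]).eval 1 +
          (∑ i ∈ range N, C (c i) * X ^ i : ℝ[X]).derivative.derivative.eval 1 := by
    intro N c hc
    induction N with
    | zero => simp
    | succ N ih =>
        rw [Finset.sum_range_succ]
        simp only [derivative_add, eval_add]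
        have h1 : (C (c N) * X ^ N : ℝ[X]).derivative.eval 1 = c N * N := by
          simp [derivative_X_pow]
        have h2 : (C (c N) * X ^ N : ℝ[X]).eval 1 = c N := by simp
        have h3 : (C (c N) * X ^ N : ℝ[X]).derivative.derivative.eval 1 =
            c N * (N * ((N - 1 : ℕ) : ℝ)) := by
          simp [derivative_X_pow]
        rw [h1, h2, h3]
        have h4 : c N * N ≤ c N + c N * (N * ((N - 1 : ℕ) : ℝ)) := by
          have h5 : (N : ℝ) ≤ 1 + N * ((N - 1 : ℕ) : ℝ) := by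
            cases N with
            | zero => simp
            | succ N =>
                simp only [Nat.add_sub_cancel]
                push_cast
                nlinarith [Nat.cast_nonneg (α := ℝ) N]
          nlinarith [hc N, mul_le_mul_of_nonneg_left h5 (hc N)]
        linarith
  rw [P.as_sum_range_C_mul_X_pow]
  exact key _ _ hP

theorem T_le (p : ℝ) (hp0 : 0 < p) (hp1 : p < 1) (n : ℕ) (l : Fin (n + 1) → ℕ)
    (x : ℕ → ℝ) (hx : PosPt p x) : T p n l x ≤ G p (n + 1) l (cons 1 x) + T2 p n l x := by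
  rw [T_eq p hp0 hp1 n l x hx, ← GP_eval, T2]
  exact eval_one_deriv_le (GP_coeff_nonneg p n l x hx)

theorem hasDerivAt_T_cons (p : ℝ) (hp0 : 0 < p) (hp1 : p < 1) (n : ℕ) (l : Fin (n + 2) → ℕ)
    (x : ℕ → ℝ) (hx : PosPt p x) :
    HasDerivAt (fun z => T p (n + 1) l (cons z x))
      (∑ m ∈ below l, skew p l m 1 * DD p l m * T p n m x) 1 := by
  have h2 := HasDerivAt.fun_sum (u := below l)
    (A := fun m z => skew p l m 1 * DD p l m * G p (n + 1) m (cons z x))
    (A' := fun m => skew p l m 1 * DD p l m * T p n m x) (x := (1 : ℝ))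
    (fun m _ => (hasDerivAt_G p hp0 hp1 n m x hx).const_mul _)
  exact h2

end Pool.Agent.GroB
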