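import Pool.Agent.Lib_MP_58440c_pr.Mon
import Pool.Agent.Lib_MP_58440c_pr.ChainIdx
import Pool.Agent.Lib_MP_58440c_pr.GDeriv

/-!
# Piece CHA: the row chain, monotonicity

`cut i l` keeps the first `i` rows of `l`. In increasing order of rows, `sys p (n+2) (cut i l)` and
`sys p (n+2) (cut (i+1) l)` differ only in row `r_i = n+1-i`: `ph p (n+1-i) i` and
`ph p (l i + (n+1-i)) i`. The other rows: `HH p l i t = ph p (Hl l i t) (Hb n i t)`, `t : Fin (n+1)`
(rows `t < r_i` are the zero rows `(t, n+1-t)`, rows `t ≥ r_i` are `(l (n-t) + t + 1, n - t)`).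
* `cut_mono`: `plucker1` with `k = HH p l i`, `i = r_i`, `a` = old row, `f` = new row, `x = one`, for the
  points `(1, z)`: `A_f(z) - A_a(z) = c (z-1) A_U(z)` with `A_V(z) = ND V (cons z one)/ND V one`,
  `U = insertNth r_i.castSucc a (insertNth r_i f HH)` (`n+3` rows),
  `c = ND HH one * ND U one / (ND V_f one * ND V_a one) ≥ 0` (`tp_nonneg`, `tp_pos`).
  (If `l i = 0` the two systems are equal, and everything is trivial; if `l i > 0`, `U` is a chain with
  strictly monotone exponents, `A_U(z) ≥ 0`, and `A_U'(1) ≥ 0` by `dlog_mono` applied to the system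
  `sys p (n+3) 0` (for which `ND (cons z one) = G p (n+3) 0 (cons z one) = 1`, `G_zero`) and `U`:
  the rows of `U` dominate those of `sys p (n+3) 0`, since `l j ≥ l i ≥ 1` for `j ≤ i`.)
  Hence `A_{i+1}(z) ≤ A_i(z)` for `z ≤ 1`; `m_{i+1} - m_i = c ≥ 0`; and second derivatives at `1`:
  `2 c A_U'(1) ≥ 0`.
-/

open Finset Polynomial

namespace Pool.Agent.GroB

/-- exponents of the rows of the system `U` -/
def chaUl {n : ℕ} (l : Fin (n + 2) → ℕ) (i : ℕ) (t : Fin (n + 3)) : ℕ :=
  if (t : ℕ) + i < n + 2 then t else l ⟨min (n + 2 - t) (n + 1), by omega⟩ + t - 1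

def chaUb (n i : ℕ) (t : Fin (n + 3)) : ℕ := if (t : ℕ) + i < n + 2 then n + 1 - t else n + 2 - t

theorem chaUl_mono {n : ℕ} (l : Fin (n + 2) → ℕ) (hl : Antitone l) (i : ℕ) (hi : i < n + 2) :
    Monotone (chaUl l i) := by
  intro a b hab
  have hab' : (a : ℕ) ≤ b := hab
  have ha := a.isLt
  have hb := b.isLt
  unfold chaUl
  split_ifs with h1 h2 h2
  · exact hab'
  · omega
  · omega
  · have h3 : l ⟨min (n + 2 - a) (n + 1), by omega⟩ ≤ l ⟨min (n + 2 - b) (n + 1), by omega⟩ := by
      apply hl
      rw [Fin.le_def]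
      show min (n + 2 - (b : ℕ)) (n + 1) ≤ min (n + 2 - (a : ℕ)) (n + 1)
      omega
    omega

theorem chaUl_strictMono {n : ℕ} (l : Fin (n + 2) → ℕ) (hl : Antitone l) (i : ℕ) (hi : i < n + 2)
    (hli : 0 < l ⟨i, hi⟩) : StrictMono (chaUl l i) := by
  intro a b hab
  have hab' : (a : ℕ) < b := hab
  have ha := a.isLt
  have hb := b.isLt
  have hpos : ∀ t : Fin (n + 3), ¬ (t : ℕ) + i < n + 2 → 0 < l ⟨min (n + 2 - t) (n + 1), by omega⟩ := by
    intro t ht
    refine lt_of_lt_of_le hli (hl ?_)
    rw [Fin.le_def]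
    show min (n + 2 - (t : ℕ)) (n + 1) ≤ i
    omega
  unfold chaUl
  split_ifs with h1 h2 h2
  · exact hab'
  · have := hpos b h2
    omega
  · omega
  · have h3 : l ⟨min (n + 2 - a) (n + 1), by omega⟩ ≤ l ⟨min (n + 2 - b) (n + 1), by omega⟩ := by
      apply hl
      rw [Fin.le_def]
      show min (n + 2 - (b : ℕ)) (n + 1) ≤ min (n + 2 - (a : ℕ)) (n + 1)
      omega
    have := hpos a h1
    omega

theorem chaUb_antitone (n i : ℕ) : Antitone (chaUb n i) := by
  intro a b hab
  have hab' : (a : ℕ) ≤ b := hab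
  have ha := a.isLt
  have hb := b.isLt
  unfold chaUb
  split_ifs <;> omega

theorem chaU_eq (p : ℝ) {n : ℕ} (l : Fin (n + 2) → ℕ) (i : ℕ) (hi : i < n + 2) :
    Fin.insertNth (α := fun _ => ℝ[X]) (⟨n + 1 - i, by omega⟩ : Fin (n + 2)).castSucc
        (ph p (n + 1 - i) i) (sys p (n + 2) (cut (i + 1) l)) =
      fun t => ph p (chaUl l i t) (chaUb n i t) := by
  symm
  rw [Fin.eq_insertNth_iff]
  constructor
  · unfold chaUl chaUb
    have h1 : (((⟨n + 1 - i, by omega⟩ : Fin (n + 2)).castSucc : Fin (n + 3)) : ℕ) + i < n + 2 := by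
      show n + 1 - i + i < n + 2
      omega
    rw [if_pos h1, if_pos h1]
    show ph p (n + 1 - i) (n + 1 - (n + 1 - i)) = _
    congr 1
    omega
  · funext t
    have ht := t.isLt
    unfold Fin.removeNth sys cut
    by_cases h : (t : ℕ) + i < n + 1
    · have h0 : (⟨n + 1 - i, by omega⟩ : Fin (n + 2)).castSucc.succAbove t = t.castSucc := by
        apply Fin.succAbove_of_castSucc_lt
        rw [Fin.lt_def]
        show (t : ℕ) < n + 1 - i
        omega
      rw [h0]
      show ph p (chaUl l i t.castSucc) (chaUb n i t.castSucc) = _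
      unfold chaUl chaUb
      rw [if_pos (by rw [Fin.val_castSucc]; omega), if_pos (by rw [Fin.val_castSucc]; omega),
        Fin.val_rev, Fin.val_castSucc, if_neg (by omega)]
      congr 1
      omega
    · have h0 : (⟨n + 1 - i, by omega⟩ : Fin (n + 2)).castSucc.succAbove t = t.succ := by
        apply Fin.succAbove_of_le_castSucc
        rw [Fin.le_def]
        show n + 1 - i ≤ (t : ℕ)
        omega
      rw [h0]
      show ph p (chaUl l i t.succ) (chaUb n i t.succ) = _
      unfold chaUl chaUb
      rw [if_neg (by rw [Fin.val_succ]; omega), if_neg (by rw [Fin.val_succ]; omega),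
        Fin.val_rev, if_pos (by omega)]
      have h4 : (⟨min (n + 2 - ((t.succ : Fin (n + 3)) : ℕ)) (n + 1), by omega⟩ : Fin (n + 2)) =
          t.rev := by
        apply Fin.ext
        rw [Fin.val_rev]
        show min (n + 2 - ((t.succ : Fin (n + 3)) : ℕ)) (n + 1) = n + 2 - ((t : ℕ) + 1)
        rw [Fin.val_succ]
        omega
      rw [h4, Fin.val_succ]
      congr 1
      omega

/-- `G` and the Newton determinant on the positive domain -/
theorem cha_G_eq (p : ℝ) (n : ℕ) (l : Fin n → ℕ) (hl : Antitone l) (x : ℕ → ℝ) (hx : PosPt p x) :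
    G p n l x = ND n (sys p n l) x :=
  G_eq_ND p n l hl x fun j _ => ⟨(hx j).1.ne', by have := (hx j).2; linarith⟩

theorem cha_HH_pos (p : ℝ) (hp0 : 0 < p) (hp1 : p < 1) {n : ℕ} (l : Fin (n + 2) → ℕ)
    (hl : Antitone l) (i : ℕ) : 0 < ND (n + 1) (HH p l i) one :=
  tp_pos p hp0 (n + 1) _ _ (Hl_strictMono l hl i) (Hb_antitone n i) one
    (unitSeq_one.posPt hp0 hp1)

/-- the Pluecker relation for the two systems -/
theorem cha_id (p : ℝ) (hp0 : 0 < p) (hp1 : p < 1) {n : ℕ} (l : Fin (n + 2) → ℕ)
    (hl : Antitone l) (i : ℕ) (hi : i < n + 2) (z : ℝ) (hz : 0 < z) (hz1 : z ≤ 1) :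
    G p (n + 2) (cut (i + 1) l) one * G p (n + 2) (cut i l) (cons z one) -
      G p (n + 2) (cut (i + 1) l) (cons z one) * G p (n + 2) (cut i l) one =
    (1 - z) * ND (n + 1) (HH p l i) one *
      ND (n + 3) (fun t => ph p (chaUl l i t) (chaUb n i t)) (cons z one) := by
  have hone : PosPt p one := unitSeq_one.posPt hp0 hp1
  have hzo : PosPt p (cons z one) := (unitSeq_one.cons hz hz1).posPt hp0 hp1
  rw [cha_G_eq p _ _ (cut_antitone _ l hl) _ hone, cha_G_eq p _ _ (cut_antitone _ l hl) _ hzo,
    cha_G_eq p _ _ (cut_antitone _ l hl) _ hone, cha_G_eq p _ _ (cut_antitone _ l hl) _ hzo]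
  have h := plucker1 (n + 1) (HH p l i) (⟨n + 1 - i, by omega⟩ : Fin (n + 2))
    (ph p (n + 1 - i) i) (ph p (l ⟨i, hi⟩ + (n + 1 - i)) i) one
    (cha_HH_pos p hp0 hp1 l hl i).ne' z 1
  rw [← sys_cut p l i hi, ← sys_cut_succ p l i hi, cons_one_one, chaU_eq p l i hi] at h
  exact h

theorem cut_mono (p : ℝ) (hp0 : 0 < p) (hp1 : p < 1) {n : ℕ} (l : Fin (n + 2) → ℕ)
    (hl : Antitone l) (i : ℕ) (hi : i < n + 2) :
    (∀ z, 0 < z → z ≤ 1 →
      G p (n + 2) (cut (i + 1) l) (cons z one) / G p (n + 2) (cut (i + 1) l) one ≤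
        G p (n + 2) (cut i l) (cons z one) / G p (n + 2) (cut i l) one) ∧
    T p (n + 1) (cut i l) one / G p (n + 2) (cut i l) one ≤
      T p (n + 1) (cut (i + 1) l) one / G p (n + 2) (cut (i + 1) l) one ∧
    T2 p (n + 1) (cut i l) one / G p (n + 2) (cut i l) one ≤
      T2 p (n + 1) (cut (i + 1) l) one / G p (n + 2) (cut (i + 1) l) one := by
  have hone : PosPt p one := unitSeq_one.posPt hp0 hp1
  have hG0 : 0 < G p (n + 2) (cut i l) one := G_pos p _ _ (cut_antitone _ l hl) _ hone
  have hG1 : 0 < G p (n + 2) (cut (i + 1) l) one := G_pos p _ _ (cut_antitone _ l hl) _ hone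
  have hN : 0 < ND (n + 1) (HH p l i) one := cha_HH_pos p hp0 hp1 l hl i
  have hUmono := chaUl_mono l hl i hi
  have hUb := chaUb_antitone n i
  have hU0 : ∀ z, 0 < z → z ≤ 1 →
      0 ≤ ND (n + 3) (fun t => ph p (chaUl l i t) (chaUb n i t)) (cons z one) := fun z hz hz1 =>
    tp_nonneg p hp0 _ _ _ hUmono hUb _ ((unitSeq_one.cons hz hz1).posPt hp0 hp1)
  obtain ⟨PU, hPU⟩ := ND_cons_poly (n + 2) (fun t => ph p (chaUl l i t) (chaUb n i t)) one
  -- polynomial identity
  have hpoly : C (G p (n + 2) (cut (i + 1) l) one) * GP p (n + 1) (cut i l) one -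
      GP p (n + 1) (cut (i + 1) l) one * C (G p (n + 2) (cut i l) one) =
      (1 - X) * C (ND (n + 1) (HH p l i) one) * PU := by
    refine Polynomial.eq_of_infinite_eval_eq _ _ ?_
    refine Set.Infinite.mono ?_ (Set.Ioc_infinite (zero_lt_one (α := ℝ)))
    rintro z ⟨hz, hz1⟩
    have h := cha_id p hp0 hp1 l hl i hi z hz hz1
    show eval z _ = eval z _
    simp only [eval_sub, eval_mul, eval_C, eval_one, eval_X, GP_eval]
    rw [← hPU z]
    exact h
  have hd1 := congrArg (fun q : ℝ[X] => q.derivative.eval 1) hpoly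
  have hd2 := congrArg (fun q : ℝ[X] => q.derivative.derivative.eval 1) hpoly
  simp only [derivative_sub, derivative_add, derivative_mul, derivative_C, derivative_one, derivative_X, eval_sub,
    eval_mul, eval_add, eval_C, eval_one, eval_X, zero_mul, mul_zero, zero_add, add_zero,
    sub_self, zero_sub, eval_neg, derivative_neg, neg_mul, one_mul] at hd1 hd2
  have hPU1 : 0 ≤ PU.eval 1 := by
    rw [← hPU 1]; exact hU0 1 one_pos le_rfl
  refine ⟨?_, ?_, ?_⟩
  · intro z hz hz1
    rw [div_le_div_iff₀ hG1 hG0]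
    have h := cha_id p hp0 hp1 l hl i hi z hz hz1
    have h2 : 0 ≤ (1 - z) * ND (n + 1) (HH p l i) one *
      ND (n + 3) (fun t => ph p (chaUl l i t) (chaUb n i t)) (cons z one) :=
      mul_nonneg (mul_nonneg (by linarith) hN.le) (hU0 z hz hz1)
    nlinarith
  · rw [div_le_div_iff₀ hG0 hG1, T_eq p hp0 hp1 _ _ _ hone, T_eq p hp0 hp1 _ _ _ hone]
    have h2 : 0 ≤ ND (n + 1) (HH p l i) one * PU.eval 1 := mul_nonneg hN.le hPU1
    nlinarith
  · rw [div_le_div_iff₀ hG0 hG1]
    unfold T2
    have hPUd : 0 ≤ PU.derivative.eval 1 := by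
      by_cases hli : 0 < l ⟨i, hi⟩
      · have hs := chaUl_strictMono l hl i hi hli
        have hz : HasDerivAt (fun z => ND (n + 2 + 1)
            (fun t : Fin (n + 3) => ph p (t : ℕ) (n + 2 - t)) (cons z one)) 0 1 := by
          have he : (fun z => ND (n + 2 + 1)
              (fun t : Fin (n + 3) => ph p (t : ℕ) (n + 2 - t)) (cons z one)) =ᶠ[nhds 1]
              fun _ => (1 : ℝ) := by
            have hnhds : Set.Ioo (0 : ℝ) (p⁻¹) ∈ nhds (1 : ℝ) :=
              Ioo_mem_nhds one_pos (by rw [one_lt_inv₀ hp0]; exact hp1)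
            filter_upwards [hnhds] with z hz
            have hpz : p * z < 1 := by
              have := hz.2
              rw [inv_eq_one_div, lt_div_iff₀ hp0] at this
              linarith
            have hzo : PosPt p (cons z one) := hone.cons hz.1 hpz
            have h1 := cha_G_eq p (n + 3) (fun _ => 0) (fun _ _ _ => le_rfl) _ hzo
            rw [G_zero] at h1
            rw [h1]
            congr 1
            funext t
            unfold sys
            show ph p (t : ℕ) (n + 2 - t) = ph p (0 + (t : ℕ)) (n + 3 - 1 - t)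
            congr 1
            omega
          exact (hasDerivAt_const (1 : ℝ) (1 : ℝ)).congr_of_eventuallyEq he
        have hz' : HasDerivAt (fun z => ND (n + 2 + 1)
            (fun t => ph p (chaUl l i t) (chaUb n i t)) (cons z one)) (PU.derivative.eval 1) 1 := by
          have : (fun z => ND (n + 2 + 1)
            (fun t => ph p (chaUl l i t) (chaUb n i t)) (cons z one)) = fun z => PU.eval z :=
            funext hPU
          rw [this]
          exact PU.hasDerivAt 1
        have hle := dlog_mono p hp0 hp1 (n + 2) (fun t : Fin (n + 3) => (t : ℕ))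
          (fun t => n + 2 - t) (chaUl l i) (chaUb n i) (fun a b h => h)
          (fun a b h => by
            have : (a : ℕ) ≤ b := h
            show n + 2 - (b : ℕ) ≤ n + 2 - (a : ℕ)
            omega) hs hUb
          (fun t => by
            have ht := t.isLt
            show (t : ℕ) ≤ chaUl l i t
            unfold chaUl
            split_ifs with h
            · exact le_rfl
            · have : 0 < l ⟨min (n + 2 - t) (n + 1), by omega⟩ := by
                refine lt_of_lt_of_le hli (hl ?_)
                rw [Fin.le_def]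
                show min (n + 2 - (t : ℕ)) (n + 1) ≤ i
                omega
              omega)
          (fun t => by
            have ht := t.isLt
            unfold chaUb
            split_ifs <;> omega) one hone 0 _ hz hz'
        rw [zero_div] at hle
        have hpos : 0 < ND (n + 2 + 1) (fun t => ph p (chaUl l i t) (chaUb n i t)) (cons 1 one) := by
          rw [cons_one_one]
          exact tp_pos p hp0 _ _ _ hs hUb _ hone
        by_contra hneg
        rw [not_le] at hneg
        have := div_neg_of_neg_of_pos hneg hpos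
        linarith
      · -- the two systems are equal
        have he : cut (i + 1) l = cut i l := by
          funext j
          unfold cut
          by_cases h1 : (j : ℕ) < i
          · rw [if_pos h1, if_pos (by omega)]
          · rw [if_neg h1]
            by_cases h2 : (j : ℕ) < i + 1
            · rw [if_pos h2]
              have h3 : j = ⟨i, hi⟩ := by
                apply Fin.ext
                show (j : ℕ) = i
                omega
              rw [h3]
              omega
            · rw [if_neg h2]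
        rw [he] at hpoly
        have h0 : (1 - X) * C (ND (n + 1) (HH p l i) one) * PU = 0 := by
          rw [← hpoly]; ring
        have hX : (1 - X : ℝ[X]) ≠ 0 := by
          intro h
          have := congrArg (fun q : ℝ[X] => q.eval 0) h
          simp at this
        have hC : (C (ND (n + 1) (HH p l i) one) : ℝ[X]) ≠ 0 := by
          rw [Ne, C_eq_zero]; exact hN.ne'
        have hPU0 : PU = 0 := by
          rcases mul_eq_zero.1 h0 with h | h
          · rcases mul_eq_zero.1 h with h | h
            · exact absurd h hX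
            · exact absurd h hC
          · exact h
        rw [hPU0]; simp
    have h2 : 0 ≤ ND (n + 1) (HH p l i) one * PU.derivative.eval 1 := mul_nonneg hN.le hPUd
    nlinarith

end Pool.Agent.GroB
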