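import Pool.Agent.Lib_MP_58440c_pr.ChainA

/-!
# Piece CHB: the row chain identity

For `i < n+2`: `H = HH p l i` is a strictly monotone / antitone chain with `n+1` rows, hence of the
form `insertNth 0 h k` with `k` its last `n` rows, `ND n k one > 0` (`tp_pos`). `P1.rc` with
`x = one`, `V = sys p (n+2) (cut i l)` resp. `sys p (n+2) (cut (i+1) l)` (`sys_cut`, `sys_cut_succ`),
`H1` the derivative of `z ↦ ND (n+1) H (cons z one)` at `1` (exists by `ND_cons_poly`),
`Vw = T p (n+1) (cut i l) (cons z one)` (`hasDerivAt_G`, `G_eq_ND`). With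
`CC i z = ND H (cons z one)/ND H one`, `cc i = H1/ND H one`,
`A_i z = G (cut i l) (cons z one)/G (cut i l) one`, `m_i = T (cut i l) one / G (cut i l) one`:
`CC i z = A z (1 + cc (z-1)) - (z-1) T (cut) (cons z one)/G (cut) one`
`       = A z (1 - (m - cc)(z-1)) - (z-1) Cov z` for `cut i l` and for `cut (i+1) l`
(`Cov = T(cons z one)/G - m A`). (`cons 1 one = one` as functions.)
-/

open Finset Polynomial

namespace Pool.Agent.GroB

/-- normalised determinant of the intermediate system -/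
noncomputable def CC (p : ℝ) {n : ℕ} (l : Fin (n + 2) → ℕ) (i : ℕ) (z : ℝ) : ℝ :=
  ND (n + 1) (HH p l i) (cons z one) / ND (n + 1) (HH p l i) one

/-- its derivative at `1` -/
noncomputable def cc (p : ℝ) {n : ℕ} (l : Fin (n + 2) → ℕ) (i : ℕ) : ℝ := deriv (CC p l i) 1

/-- `A_i(z)` -/
noncomputable def AA (p : ℝ) {n : ℕ} (l : Fin (n + 2) → ℕ) (i : ℕ) (z : ℝ) : ℝ :=
  G p (n + 2) (cut i l) (cons z one) / G p (n + 2) (cut i l) one

/-- `m_i = A_i'(1)` -/
noncomputable def mA (p : ℝ) {n : ℕ} (l : Fin (n + 2) → ℕ) (i : ℕ) : ℝ :=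
  T p (n + 1) (cut i l) one / G p (n + 2) (cut i l) one

/-- `E_i(z) = (1 - z) Cov_i(z)` -/
noncomputable def EE (p : ℝ) {n : ℕ} (l : Fin (n + 2) → ℕ) (i : ℕ) (z : ℝ) : ℝ :=
  (1 - z) * Cov p (n + 1) (cut i l) one z

theorem HH_ND_pos (p : ℝ) (hp0 : 0 < p) {n : ℕ} (l : Fin (n + 2) → ℕ) (hl : Antitone l) (i : ℕ)
    (x : ℕ → ℝ) (hx : PosPt p x) : 0 < ND (n + 1) (HH p l i) x :=
  tp_pos p hp0 (n + 1) (Hl l i) (Hb n i) (Hl_strictMono l hl i) (Hb_antitone n i) x hx

theorem CC_pos (p : ℝ) (hp0 : 0 < p) (hp1 : p < 1) {n : ℕ} (l : Fin (n + 2) → ℕ)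
    (hl : Antitone l) (i : ℕ) (hi : i < n + 2) (z : ℝ) (hz : 0 < z) (hz1 : z ≤ 1) :
    0 < CC p l i z :=
  div_pos
    (HH_ND_pos p hp0 l hl i _ ((UnitSeq.cons unitSeq_one hz hz1).posPt hp0 hp1))
    (HH_ND_pos p hp0 l hl i _ (unitSeq_one.posPt hp0 hp1))

theorem hasDerivAt_HH (p : ℝ) {n : ℕ} (l : Fin (n + 2) → ℕ) (i : ℕ) (x : ℕ → ℝ) :
    HasDerivAt (fun z => ND (n + 1) (HH p l i) (cons z x))
      (deriv (fun z => ND (n + 1) (HH p l i) (cons z x)) 1) 1 := by
  obtain ⟨P, hP⟩ := ND_cons_poly n (HH p l i) x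
  have : (fun z => ND (n + 1) (HH p l i) (cons z x)) = fun z => P.eval z := funext hP
  rw [this]
  exact (P.differentiable.differentiableAt).hasDerivAt

theorem cc_eq (p : ℝ) {n : ℕ} (l : Fin (n + 2) → ℕ) (i : ℕ) :
    cc p l i = deriv (fun z => ND (n + 1) (HH p l i) (cons z one)) 1 /
      ND (n + 1) (HH p l i) one := by
  unfold cc CC
  exact deriv_div_const _

theorem chain_aux (p : ℝ) (hp0 : 0 < p) (hp1 : p < 1) {n : ℕ} (l : Fin (n + 2) → ℕ)
    (hl : Antitone l) (i : ℕ) (l' : Fin (n + 2) → ℕ) (hl' : Antitone l') (j : Fin (n + 2))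
    (f : ℝ[X]) (hV : sys p (n + 2) l' = Fin.insertNth (α := fun _ => ℝ[X]) j f (HH p l i))
    (z : ℝ) (hz : 0 < z) (hz1 : z ≤ 1) :
    CC p l i z = G p (n + 2) l' (cons z one) / G p (n + 2) l' one *
        (1 - (T p (n + 1) l' one / G p (n + 2) l' one - cc p l i) * (z - 1)) +
      (1 - z) * Cov p (n + 1) l' one z := by
  have hone : PosPt p one := unitSeq_one.posPt hp0 hp1
  have hzone : PosPt p (cons z one) := (UnitSeq.cons unitSeq_one hz hz1).posPt hp0 hp1
  have hnz : ∀ x : ℕ → ℝ, PosPt p x → ∀ j < n + 2, x j ≠ 0 ∧ 1 - p * x j ≠ 0 := by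
    intro x hx j _
    exact ⟨(hx j).1.ne', by have := (hx j).2; linarith⟩
  have hk : ND n (fun t : Fin n => HH p l i t.succ) one ≠ 0 := by
    refine (tp_pos p hp0 n (fun t => Hl l i t.succ) (fun t => Hb n i t.succ) ?_ ?_ one hone).ne'
    · intro a b hab
      exact Hl_strictMono l hl i (Fin.succ_lt_succ_iff.2 hab)
    · intro a b hab
      exact Hb_antitone n i (Fin.succ_le_succ_iff.2 hab)
  have hH : HH p l i = Fin.insertNth (α := fun _ => ℝ[X]) (0 : Fin (n + 1)) (HH p l i 0)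
      (fun t : Fin n => HH p l i t.succ) := by
    rw [Fin.insertNth_zero]
    exact (Fin.cons_self_tail _).symm
  have hVw : HasDerivAt (fun w => ND (n + 2) (sys p (n + 2) l') (cons w (cons z one)))
      (T p (n + 1) l' (cons z one)) 1 := by
    have h1 := hasDerivAt_G p hp0 hp1 (n + 1) l' (cons z one) hzone
    refine h1.congr_of_eventuallyEq ?_
    have hev : ∀ᶠ w : ℝ in nhds 1, 0 < w ∧ p * w < 1 := by
      refine (lt_mem_nhds one_pos).and ?_
      have : Continuous fun w : ℝ => p * w := by fun_prop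
      exact this.continuousAt.eventually_lt continuousAt_const (by simpa using hp1)
    filter_upwards [hev] with w hw
    exact (G_eq_ND p (n + 2) l' hl' _ (hnz _ (hzone.cons hw.1 hw.2))).symm
  have hrc := rc n (fun t : Fin n => HH p l i t.succ) 0 j (HH p l i 0) f one hk (HH p l i) hH
    (sys p (n + 2) l') hV _ (hasDerivAt_HH p l i one) z _ hVw
  rw [cons_one_one, cons_one_one, ← G_eq_ND p (n + 2) l' hl' _ (hnz _ hone),
    ← G_eq_ND p (n + 2) l' hl' _ (hnz _ hzone)] at hrc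
  have hG : 0 < G p (n + 2) l' one := G_pos p _ l' hl' _ hone
  have hN : 0 < ND (n + 1) (HH p l i) one := HH_ND_pos p hp0 l hl i _ hone
  rw [cc_eq]
  unfold CC Cov
  set g := G p (n + 2) l' one
  set gz := G p (n + 2) l' (cons z one)
  set N := ND (n + 1) (HH p l i) one
  set Nz := ND (n + 1) (HH p l i) (cons z one)
  set t := T p (n + 1) l' one
  set tz := T p (n + 1) l' (cons z one)
  set d := deriv (fun z => ND (n + 1) (HH p l i) (cons z one)) 1
  have e : Nz = (gz * (N + d * (z - 1)) - (z - 1) * tz * N) / g := by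
    rw [eq_div_iff hG.ne']
    exact hrc
  rw [e]
  field_simp
  ring

theorem chain_id (p : ℝ) (hp0 : 0 < p) (hp1 : p < 1) {n : ℕ} (l : Fin (n + 2) → ℕ)
    (hl : Antitone l) (i : ℕ) (hi : i < n + 2) (z : ℝ) (hz : 0 < z) (hz1 : z ≤ 1) :
    CC p l i z = AA p l i z * (1 - (mA p l i - cc p l i) * (z - 1)) + EE p l i z ∧
      CC p l i z =
        AA p l (i + 1) z * (1 - (mA p l (i + 1) - cc p l i) * (z - 1)) + EE p l (i + 1) z := by
  constructor
  · exact chain_aux p hp0 hp1 l hl i (cut i l) (cut_antitone i l hl) _ _ (sys_cut p l i hi) z hz hz1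
  · exact chain_aux p hp0 hp1 l hl i (cut (i + 1) l) (cut_antitone (i + 1) l hl) _ _
      (sys_cut_succ p l i hi) z hz hz1

theorem AA_zero (p : ℝ) {n : ℕ} (l : Fin (n + 2) → ℕ) (z : ℝ) : AA p l 0 z = 1 := by
  unfold AA
  rw [cut_zero, G_zero, G_zero, div_one]

theorem EE_zero (p : ℝ) (hp0 : 0 < p) (hp1 : p < 1) {n : ℕ} (l : Fin (n + 2) → ℕ) (z : ℝ)
    (hz : 0 < z) (hz1 : z ≤ 1) : EE p l 0 z = 0 := by
  have h0 : ∀ x : ℕ → ℝ, PosPt p x → T p (n + 1) (fun _ => 0) x = 0 := by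
    intro x hx
    have h1 := hasDerivAt_G p hp0 hp1 (n + 1) (fun _ => 0) x hx
    have h2 : (fun w => G p (n + 1 + 1) (fun _ => 0) (cons w x)) = fun _ => (1 : ℝ) := by
      funext w; exact G_zero p _ _
    rw [h2] at h1
    exact h1.unique (hasDerivAt_const (1 : ℝ) (1 : ℝ))
  have hone : PosPt p one := unitSeq_one.posPt hp0 hp1
  have hzone : PosPt p (cons z one) := (UnitSeq.cons unitSeq_one hz hz1).posPt hp0 hp1
  unfold EE Cov
  rw [cut_zero, h0 _ hone, h0 _ hzone]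
  simp

end Pool.Agent.GroB
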