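import Pool.Agent.Lib_MP_58440c_pr.ChainB

/-!
# Piece CHC: monotonicity and upper bound for the chain

* `cc_mono`: `Hl l i ≤ Hl l (i+1)`, `Hb n (i+1) ≤ Hb n i` pointwise (they differ only at
  `t = n - i`): `dlog_mono` with `x = one`.
* `cc_lower`: `mA i - cc i ≤ q = p/(1-p)`. Let `l' = cut i l` restricted to `Fin (n+1)` (`i ≤ n+1`).
  The system `(1 - pX) * sys p (n+1) l'` has rows `t`:
  `ph p ((if n - t < i then l (n-t) else 0) + t) (n - t + 1)`; compare with `HH p l i`:
  for `t + i < n+1` both are `(t, n+1-t)`; for `t + i ≥ n+1` they are `(l (n-t) + t, n+1-t)` and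
  `(l (n-t) + t + 1, n - t)`. So `dlog_mono` gives `dlog((1-pX) sys) ≤ cc i`, and by `ND_mul_lin`
  `ND (fun i => (1-pX) * f i) (cons z one) = (1-pz)(1-p)^n ND f (cons z one)`, so
  `dlog((1-pX) sys p (n+1) l') = -q + T p n l' one / G p (n+1) l' one`.
  Finally `mA i ≤ T p n l' one / G p (n+1) l' one`: `T p (n+1) (cut i l) one =
  ∑ m ∈ below (cut i l), skew p _ m 1 * T p n m one` (`T_harm`),
  `T p n m one ≤ (T p n l' one/G p (n+1) l' one) * G p (n+1) m one` for `m ∈ below (cut i l)` since `m ≤ l'`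
  (`dlog_mono` for the systems `sys p (n+1) m` and `sys p (n+1) l'`), and
  `∑ skew p _ m 1 * G p (n+1) m one = G p (n+2) (cut i l) one`.
-/

open Finset Polynomial

namespace Pool.Agent.GroB

theorem chc_ND_deriv (p : ℝ) (hp0 : 0 < p) (hp1 : p < 1) (n : ℕ) (m : Fin (n + 1) → ℕ)
    (hm : Antitone m) :
    HasDerivAt (fun z => ND (n + 1) (sys p (n + 1) m) (cons z one)) (T p n m one) 1 := by
  have hone : PosPt p one := unitSeq_one.posPt hp0 hp1
  refine (hasDerivAt_G p hp0 hp1 n m one hone).congr_of_eventuallyEq ?_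
  have hnhds : Set.Ioo (0 : ℝ) (p⁻¹) ∈ nhds (1 : ℝ) :=
    Ioo_mem_nhds one_pos (by rw [one_lt_inv₀ hp0]; exact hp1)
  filter_upwards [hnhds] with z hz
  have hpz : p * z < 1 := by
    have := hz.2
    rw [inv_eq_one_div, lt_div_iff₀ hp0] at this
    linarith
  exact (cha_G_eq p (n + 1) m hm _ (hone.cons hz.1 hpz)).symm

theorem chc_HH_deriv (p : ℝ) (hp0 : 0 < p) (hp1 : p < 1) {n : ℕ} (l : Fin (n + 2) → ℕ)
    (hl : Antitone l) (i : ℕ) :
    ∃ d, HasDerivAt (fun z => ND (n + 1) (HH p l i) (cons z one)) d 1 ∧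
      cc p l i = d / ND (n + 1) (HH p l i) one := by
  obtain ⟨P, hP⟩ := ND_cons_poly n (HH p l i) one
  have h1 : HasDerivAt (fun z => ND (n + 1) (HH p l i) (cons z one)) (P.derivative.eval 1) 1 := by
    have : (fun z => ND (n + 1) (HH p l i) (cons z one)) = fun z => P.eval z := funext hP
    rw [this]
    exact P.hasDerivAt 1
  exact ⟨_, h1, (h1.div_const _).deriv⟩

theorem chc_sys_strictMono (n : ℕ) (m : Fin (n + 1) → ℕ) (hm : Antitone m) :
    StrictMono fun t : Fin (n + 1) => m t.rev + t := by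
  intro a b hab
  have h1 : m a.rev ≤ m b.rev := hm (Fin.rev_le_rev.2 hab.le)
  have h2 : (a : ℕ) < b := hab
  show m a.rev + (a : ℕ) < m b.rev + (b : ℕ)
  omega

/-- monotonicity of the logarithmic derivative in the partition -/
theorem chc_T_mono (p : ℝ) (hp0 : 0 < p) (hp1 : p < 1) (n : ℕ) (m m' : Fin (n + 1) → ℕ)
    (hm : Antitone m) (hm' : Antitone m') (h : ∀ t, m t ≤ m' t) :
    T p n m one / G p (n + 1) m one ≤ T p n m' one / G p (n + 1) m' one := by
  have hone : PosPt p one := unitSeq_one.posPt hp0 hp1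
  have hb : Antitone fun t : Fin (n + 1) => n + 1 - 1 - (t : ℕ) := by
    intro a b hab
    have : (a : ℕ) ≤ b := hab
    show n + 1 - 1 - (b : ℕ) ≤ n + 1 - 1 - (a : ℕ)
    omega
  have hle := dlog_mono p hp0 hp1 n (fun t : Fin (n + 1) => m t.rev + t)
    (fun t => n + 1 - 1 - (t : ℕ)) (fun t : Fin (n + 1) => m' t.rev + t)
    (fun t => n + 1 - 1 - (t : ℕ)) (chc_sys_strictMono n m hm) hb (chc_sys_strictMono n m' hm') hb
    (fun t => Nat.add_le_add_right (h _) _) (fun _ => le_rfl) one hone _ _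
    (chc_ND_deriv p hp0 hp1 n m hm) (chc_ND_deriv p hp0 hp1 n m' hm')
  rw [cons_one_one] at hle
  rw [cha_G_eq p (n + 1) m hm _ hone, cha_G_eq p (n + 1) m' hm' _ hone]
  exact hle

theorem cc_mono (p : ℝ) (hp0 : 0 < p) (hp1 : p < 1) {n : ℕ} (l : Fin (n + 2) → ℕ)
    (hl : Antitone l) (i : ℕ) (hi : i + 1 < n + 2) : cc p l i ≤ cc p l (i + 1) := by
  have hone : PosPt p one := unitSeq_one.posPt hp0 hp1
  obtain ⟨d, hd, hcd⟩ := chc_HH_deriv p hp0 hp1 l hl i
  obtain ⟨d', hd', hcd'⟩ := chc_HH_deriv p hp0 hp1 l hl (i + 1)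
  rw [hcd, hcd']
  have hle := dlog_mono p hp0 hp1 n (Hl l i) (Hb n i) (Hl l (i + 1)) (Hb n (i + 1))
    (Hl_strictMono l hl i) (Hb_antitone n i) (Hl_strictMono l hl (i + 1)) (Hb_antitone n (i + 1))
    (fun t => by
      unfold Hl
      split_ifs <;> omega)
    (fun t => by
      unfold Hb
      split_ifs <;> omega) one hone _ _ hd hd'
  rw [cons_one_one] at hle
  exact hle

theorem cc_lower (p : ℝ) (hp0 : 0 < p) (hp1 : p < 1) {n : ℕ} (l : Fin (n + 2) → ℕ)
    (hl : Antitone l) (i : ℕ) (hi : i < n + 2) : mA p l i - cc p l i ≤ p / (1 - p) := by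
  have hone : PosPt p one := unitSeq_one.posPt hp0 hp1
  have hq : 0 < 1 - p := by linarith
  set l' : Fin (n + 1) → ℕ := fun j => cut i l j.castSucc with hl'
  have hl'a : Antitone l' := fun a b hab => cut_antitone i l hl (by simpa using hab)
  have hcut : Antitone (cut i l) := cut_antitone i l hl
  have hG' : 0 < G p (n + 1) l' one := G_pos p _ _ hl'a _ hone
  have hG : 0 < G p (n + 2) (cut i l) one := G_pos p _ _ hcut _ hone
  set τ := T p n l' one / G p (n + 1) l' one with hτ
  -- step 2
  have h2 : mA p l i ≤ τ := by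
    unfold mA
    rw [div_le_iff₀ hG, T_harm p hp0 hp1 n _ _ hone]
    have hGs : G p (n + 2) (cut i l) one =
        ∑ m ∈ below (cut i l), G p (n + 1) m one * skew p (cut i l) m (one (n + 1)) := rfl
    rw [hGs, Finset.mul_sum]
    refine Finset.sum_le_sum fun m hm => ?_
    have hma := antitone_of_mem_below hm
    have hGm : 0 < G p (n + 1) m one := G_pos p _ _ hma _ hone
    have hle := chc_T_mono p hp0 hp1 n m l' hma hl'a fun t => ((mem_below.1 hm) t).2
    rw [div_le_iff₀ hGm] at hle
    have hs : 0 ≤ skew p (cut i l) m (one n) := skew_nonneg _ _ (by simp) (by simp; linarith)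
    have := mul_le_mul_of_nonneg_left hle hs
    have e : skew p (cut i l) m (one (n + 1)) = skew p (cut i l) m (one n) := rfl
    rw [e]
    calc skew p (cut i l) m (one n) * T p n m one ≤ _ := this
      _ = _ := by rw [hτ]; ring
  -- step 1
  have h1 : τ - p / (1 - p) ≤ cc p l i := by
    obtain ⟨d', hd', hcd'⟩ := chc_HH_deriv p hp0 hp1 l hl i
    rw [hcd']
    have hF : (fun t : Fin (n + 1) => ph p (l' t.rev + t) (n - t + 1)) =
        fun t => (1 - C p * X) * sys p (n + 1) l' t := by
      funext t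
      unfold sys ph
      rw [show n + 1 - 1 - (t : ℕ) = n - t by omega, pow_succ]
      ring
    have hval : ∀ z, ND (n + 1) (fun t : Fin (n + 1) => ph p (l' t.rev + t) (n - t + 1))
        (cons z one) = (1 - p) ^ n * ((1 - p * z) *
          ND (n + 1) (sys p (n + 1) l') (cons z one)) := by
      intro z
      rw [hF, ND_mul_lin, Finset.prod_range_succ']
      simp only [cons_succ, cons_zero, one_apply, Finset.prod_const, Finset.card_range, mul_one]
      ring
    have hd : HasDerivAt (fun z => ND (n + 1)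
        (fun t : Fin (n + 1) => ph p (l' t.rev + t) (n - t + 1)) (cons z one))
        ((1 - p) ^ n * ((0 - p * 1) * ND (n + 1) (sys p (n + 1) l') (cons 1 one) +
          (1 - p * 1) * T p n l' one)) 1 := by
      have : (fun z => ND (n + 1)
        (fun t : Fin (n + 1) => ph p (l' t.rev + t) (n - t + 1)) (cons z one)) =
          fun z => (1 - p) ^ n * ((1 - p * z) *
          ND (n + 1) (sys p (n + 1) l') (cons z one)) := funext hval
      rw [this]
      apply HasDerivAt.const_mul
      have hlin : HasDerivAt (fun z : ℝ => 1 - p * z) (0 - p * 1) 1 :=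
        (hasDerivAt_const (1 : ℝ) (1 : ℝ)).sub ((hasDerivAt_id (1 : ℝ)).const_mul p)
      exact hlin.mul (chc_ND_deriv p hp0 hp1 n l' hl'a)
    have hle := dlog_mono p hp0 hp1 n (fun t : Fin (n + 1) => l' t.rev + t)
      (fun t => n - (t : ℕ) + 1) (Hl l i) (Hb n i) (chc_sys_strictMono n l' hl'a)
      (fun a b hab => by
        have : (a : ℕ) ≤ b := hab
        show n - (b : ℕ) + 1 ≤ n - (a : ℕ) + 1
        omega)
      (Hl_strictMono l hl i) (Hb_antitone n i)
      (fun t => by
        have ht := t.isLt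
        show l' t.rev + (t : ℕ) ≤ Hl l i t
        simp only [hl']
        unfold Hl cut
        rw [Fin.val_castSucc, Fin.val_rev]
        by_cases h : (t : ℕ) + i < n + 1
        · rw [if_pos h, if_neg (by omega)]
          omega
        · rw [if_neg h, if_pos (by omega)]
          have h4 : (t.rev.castSucc : Fin (n + 2)) = ⟨n - t, by omega⟩ := by
            apply Fin.ext
            rw [Fin.val_castSucc, Fin.val_rev]
            show n + 1 - ((t : ℕ) + 1) = n - t
            omega
          rw [h4]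
          omega)
      (fun t => by
        have ht := t.isLt
        show Hb n i t ≤ n - (t : ℕ) + 1
        unfold Hb
        split_ifs <;> omega) one hone _ _ hd hd'
    rw [hval 1, cons_one_one, ← cha_G_eq p (n + 1) l' hl'a _ hone] at hle
    refine le_trans (le_of_eq ?_) hle
    rw [hτ]
    have hpn : (1 - p) ^ n ≠ 0 := pow_ne_zero _ hq.ne'
    field_simp
    ring
  linarith

end Pool.Agent.GroB
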