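import Pool.Agent.Lib_MP_58440c_pr.MatLem
import Pool.Agent.Lib_MP_58440c_pr.NdCoeff

/-!
# Piece RED: reduction modulo an invertible core

Let `k : Fin m → K[X]` with `ND m k x ≠ 0`. For every `a` there are `c` with
`ell x j (a - ∑ c_t k_t) = 0` for all `j < m` (the Newton matrix of `k` is invertible). Put
`a' = a - ∑ C (c_t) k_t`, `hat a = nq x m a'`.
Adding multiples of the rows `k_t` to another row does not change `ND` (alternating).
-/

open Finset Polynomial

namespace Pool.Agent.GroB

variable {K : Type*} [Field K]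

/-- divided difference `g[y, y']` -/
noncomputable def dd (g : K[X]) (y y' : K) : K := (g /ₘ (X - C y)).eval y'

theorem dd_mul (g : K[X]) (y y' : K) : (y' - y) * dd g y y' = g.eval y' - g.eval y := by
  have h := congrArg (fun f => f.eval y') (divX_spec y g)
  simp only [eval_add, eval_mul, eval_sub, eval_X, eval_C] at h
  rw [dd, h]; ring

theorem red_exists_c (m : ℕ) (k : Fin m → K[X]) (x : ℕ → K) (hk : ND m k x ≠ 0) (a : K[X]) :
    ∃ c : Fin m → K, ∀ j : Fin m, ell x j (a - ∑ t, C (c t) * k t) = 0 := by
  set A : Matrix (Fin m) (Fin m) K := Matrix.of fun i j : Fin m => ell x j (k i) with hA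
  have hdet : IsUnit A.det := isUnit_iff_ne_zero.2 hk
  refine ⟨Matrix.vecMul (fun j : Fin m => ell x j a) A⁻¹, fun j => ?_⟩
  have h1 : Matrix.vecMul (Matrix.vecMul (fun j : Fin m => ell x j a) A⁻¹) A =
      fun j : Fin m => ell x j a := by
    rw [Matrix.vecMul_vecMul, Matrix.nonsing_inv_mul A hdet, Matrix.vecMul_one]
  have h2 := congrFun h1 j
  simp only [Matrix.vecMul, dotProduct] at h2
  have h3 : ell x j (a - ∑ t, C ((Matrix.vecMul (fun j : Fin m => ell x j a) A⁻¹) t) * k t) =
      ell x j a - ∑ t, (Matrix.vecMul (fun j : Fin m => ell x j a) A⁻¹) t * ell x j (k t) := by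
    rw [← ellL_apply, map_sub, map_sum]
    congr 1
    refine Finset.sum_congr rfl fun t _ => ?_
    rw [← smul_eq_C_mul, map_smul, smul_eq_mul]
    rfl
  rw [h3, sub_eq_zero, ← h2]
  rfl

/-- subtracting other rows does not change `ND` -/
theorem ND_insertNth_sub {m r : ℕ} (i : Fin (m + 1)) (a : K[X]) (v : Fin m → K[X]) (x : ℕ → K)
    (c : Fin r → K) (k : Fin r → K[X]) (hk : ∀ t, ∃ s, v s = k t) :
    ND (m + 1) (Fin.insertNth i (a - ∑ t, C (c t) * k t) v) x =
      ND (m + 1) (Fin.insertNth i a v) x := by
  have hlin : ∀ b : K[X], ND (m + 1) (Fin.insertNth i b v) x =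
      (NDalt (m + 1) x).toMultilinearMap.toLinearMap (Fin.insertNth i a v) i b := by
    intro b
    rw [MultilinearMap.toLinearMap_apply]
    show _ = ND (m + 1) _ x
    congr 1
    rw [Fin.update_insertNth]
  rw [hlin, hlin, map_sub, map_sum]
  have hz : ∀ t, (NDalt (m + 1) x).toMultilinearMap.toLinearMap (Fin.insertNth i a v) i
      (C (c t) * k t) = 0 := by
    intro t
    rw [← smul_eq_C_mul, map_smul, ← hlin]
    obtain ⟨s, hs⟩ := hk t
    rw [ND_eq_zero_of_eq (i := i) (j := i.succAbove s)]
    · simp
    · rw [Fin.insertNth_apply_same, Fin.insertNth_apply_succAbove, hs]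
    · exact (Fin.succAbove_ne i s).symm
  rw [Finset.sum_eq_zero fun t _ => hz t, sub_zero]

/-- sequence with `m` entries of `x`, then `y` -/
def appd (m : ℕ) (x : ℕ → K) (y : K) : ℕ → K := fun j => if j < m then x j else y

def appd2 (m : ℕ) (x : ℕ → K) (y y' : K) : ℕ → K :=
  fun j => if j < m then x j else if j = m then y else y'

theorem ND_appd (m : ℕ) (f : Fin (m + 1) → K[X]) (x : ℕ → K) (y : K) :
    ND (m + 1) f (cons y x) = ND (m + 1) f (appd m x y) := by
  apply ND_congr_prod
  rw [Finset.prod_range_succ', Finset.prod_range_succ]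
  have h1 : ∏ k ∈ range m, (X - C (cons y x (k + 1))) =
      ∏ k ∈ range m, (X - C (appd m x y k)) := by
    refine Finset.prod_congr rfl fun k hk => ?_
    rw [cons_succ, appd, if_pos (Finset.mem_range.1 hk)]
  rw [h1]
  simp [appd]

theorem ND_appd2 (m : ℕ) (f : Fin (m + 2) → K[X]) (x : ℕ → K) (y y' : K) :
    ND (m + 2) f (cons y (cons y' x)) = ND (m + 2) f (appd2 m x y y') := by
  apply ND_congr_prod
  rw [Finset.prod_range_succ', Finset.prod_range_succ', Finset.prod_range_succ,
    Finset.prod_range_succ]
  have h1 : ∏ k ∈ range m, (X - C (cons y (cons y' x) (k + 1 + 1))) =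
      ∏ k ∈ range m, (X - C (appd2 m x y y' k)) := by
    refine Finset.prod_congr rfl fun k hk => ?_
    rw [cons_succ, cons_succ, appd2, if_pos (Finset.mem_range.1 hk)]
  rw [h1]
  simp only [appd2, cons_zero, cons_succ, zero_add, lt_irrefl, if_false, if_true]
  rw [if_neg (by omega), if_neg (by omega)]
  ring

theorem nq_appd {m : ℕ} {x : ℕ → K} {y : K} {j : ℕ} (hj : j ≤ m) (f : K[X]) :
    nq (appd m x y) j f = nq x j f :=
  nq_congr j (fun k hk => by rw [appd, if_pos (by omega)]) f

theorem nq_appd2 {m : ℕ} {x : ℕ → K} {y y' : K} {j : ℕ} (hj : j ≤ m) (f : K[X]) :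
    nq (appd2 m x y y') j f = nq x j f :=
  nq_congr j (fun k hk => by rw [appd2, if_pos (by omega)]) f

theorem ell_appd_lt {m : ℕ} {x : ℕ → K} {y : K} {j : ℕ} (hj : j < m) (f : K[X]) :
    ell (appd m x y) j f = ell x j f :=
  ell_congr j (fun k hk => by rw [appd, if_pos (by omega)]) f

theorem ell_appd_eq {m : ℕ} {x : ℕ → K} {y : K} (f : K[X]) :
    ell (appd m x y) m f = (nq x m f).eval y := by
  rw [ell, nq_appd le_rfl, appd, if_neg (lt_irrefl _)]

theorem ell_appd2_lt {m : ℕ} {x : ℕ → K} {y y' : K} {j : ℕ} (hj : j < m) (f : K[X]) :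
    ell (appd2 m x y y') j f = ell x j f :=
  ell_congr j (fun k hk => by rw [appd2, if_pos (by omega)]) f

theorem ell_appd2_eq {m : ℕ} {x : ℕ → K} {y y' : K} (f : K[X]) :
    ell (appd2 m x y y') m f = (nq x m f).eval y := by
  rw [ell, nq_appd2 le_rfl, appd2, if_neg (lt_irrefl _), if_pos rfl]

theorem ell_appd2_succ {m : ℕ} {x : ℕ → K} {y y' : K} (f : K[X]) :
    ell (appd2 m x y y') (m + 1) f = dd (nq x m f) y y' := by
  rw [ell, nq, nq_appd2 le_rfl, dd]
  rw [show appd2 m x y y' m = y by rw [appd2, if_neg (lt_irrefl _), if_pos rfl],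
    show appd2 m x y y' (m + 1) = y' by rw [appd2, if_neg (by omega), if_neg (by omega)]]

theorem exists_hat (m : ℕ) (k : Fin m → K[X]) (x : ℕ → K) (hk : ND m k x ≠ 0) :
    ∃ hat : K[X] → K[X],
      (∀ (i : Fin (m + 1)) (a : K[X]) (y : K),
        ND (m + 1) (Fin.insertNth i a k) (cons y x) =
          (-1) ^ ((i : ℕ) + m) * ND m k x * (hat a).eval y) ∧
      (∀ (i : Fin (m + 2)) (j : Fin (m + 1)) (a b : K[X]) (y y' : K),
        ND (m + 2) (Fin.insertNth i a (Fin.insertNth j b k)) (cons y (cons y' x)) =
          (-1) ^ ((i : ℕ) + j) * ND m k x *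
            ((hat a).eval y * dd (hat b) y y' - dd (hat a) y y' * (hat b).eval y)) := by
  choose c hc using red_exists_c m k x hk
  set red : K[X] → K[X] := fun a => a - ∑ t, C (c a t) * k t with hred
  refine ⟨fun a => nq x m (red a), ?_, ?_⟩
  · intro i a y
    rw [ND_appd, ← ND_insertNth_sub i a k (appd m x y) (c a) k (fun t => ⟨t, rfl⟩)]
    change ND (m + 1) (Fin.insertNth i (red a) k) _ = _
    unfold ND
    rw [det_row_last _ i]
    · rw [Matrix.of_apply, Fin.insertNth_apply_same, Fin.val_last, ell_appd_eq]
      have hsub : ((Matrix.of fun i_1 j : Fin (m + 1) =>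
          ell (appd m x y) j (Fin.insertNth (α := fun _ => K[X]) i (red a) k i_1)).submatrix
            i.succAbove Fin.castSucc) = Matrix.of fun i j : Fin m => ell x j (k i) := by
        ext s t
        simp only [Matrix.submatrix_apply, Matrix.of_apply, Fin.insertNth_apply_succAbove,
          Fin.val_castSucc]
        exact ell_appd_lt t.2 _
      rw [hsub]
      ring
    · intro j
      rw [Matrix.of_apply, Fin.insertNth_apply_same, Fin.val_castSucc, ell_appd_lt j.2]
      exact hc a j
  · intro i j a b y y'
    have hb : ND (m + 2) (Fin.insertNth i a (Fin.insertNth j b k)) (appd2 m x y y') =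
        ND (m + 2) (Fin.insertNth i (red a) (Fin.insertNth j (red b) k)) (appd2 m x y y') := by
      have e1 := ND_insertNth_sub i a (Fin.insertNth (α := fun _ => K[X]) j b k)
        (appd2 m x y y') (c a) k (fun t => ⟨j.succAbove t, by simp⟩)
      rw [← e1]
      change ND (m + 2) (Fin.insertNth i (red a) (Fin.insertNth j b k)) _ = _
      -- exchange the roles of the two inserted rows
      have hupd : ∀ b' : K[X], (Fin.insertNth (α := fun _ => K[X]) i (red a)
          (Fin.insertNth (α := fun _ => K[X]) j b' k)) =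
          Function.update (Fin.insertNth (α := fun _ => K[X]) i (red a)
            (Fin.insertNth (α := fun _ => K[X]) j b k)) (i.succAbove j) b' := by
        intro b'
        symm
        rw [Function.update_eq_iff]
        refine ⟨by simp, ?_⟩
        intro s hs
        rcases Fin.eq_self_or_eq_succAbove i s with rfl | ⟨s', rfl⟩
        · simp
        · rcases Fin.eq_self_or_eq_succAbove j s' with rfl | ⟨s'', rfl⟩
          · exact absurd rfl hs
          · simp
      rw [hupd (red b)]
      set F := (Fin.insertNth (α := fun _ => K[X]) i (red a)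
            (Fin.insertNth (α := fun _ => K[X]) j b k)) with hF
      have hlin : ∀ b' : K[X], ND (m + 2) (Function.update F (i.succAbove j) b')
          (appd2 m x y y') =
          (NDalt (m + 2) (appd2 m x y y')).toMultilinearMap.toLinearMap F (i.succAbove j) b' :=
        fun b' => rfl
      have hself : F = Function.update F (i.succAbove j) b := by
        rw [← hupd b]
      conv_lhs => rw [hself]
      rw [hlin, hlin]
      change _ = (NDalt (m + 2) (appd2 m x y y')).toMultilinearMap.toLinearMap F
        (i.succAbove j) (b - ∑ t, C (c b t) * k t)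
      rw [map_sub, map_sum]
      rw [Finset.sum_eq_zero, sub_zero]
      intro t _
      rw [← smul_eq_C_mul, map_smul, ← hlin]
      rw [ND_eq_zero_of_eq (i := i.succAbove j) (j := i.succAbove (j.succAbove t))]
      · simp
      · rw [Function.update_self, Function.update_of_ne]
        · rw [hF]; simp
        · intro h
          have := Fin.succAbove_right_injective h
          exact Fin.succAbove_ne j t this
      · intro h
        have := Fin.succAbove_right_injective h
        exact Fin.succAbove_ne j t this.symm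
    rw [ND_appd2, hb]
    unfold ND
    rw [det_two_rows _ i j]
    · simp only [Matrix.of_apply, Fin.insertNth_apply_same, Fin.insertNth_apply_succAbove,
        Fin.val_castSucc, Fin.val_last, ell_appd2_eq, ell_appd2_succ]
      have hsub : ((Matrix.of fun i_1 j_1 : Fin (m + 2) =>
          ell (appd2 m x y y') j_1 (Fin.insertNth (α := fun _ => K[X]) i (red a)
            (Fin.insertNth (α := fun _ => K[X]) j (red b) k) i_1)).submatrix
            (fun k : Fin m => i.succAbove (j.succAbove k))
            (fun k : Fin m => k.castSucc.castSucc)) =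
          Matrix.of fun i j : Fin m => ell x j (k i) := by
        ext s t
        simp only [Matrix.submatrix_apply, Matrix.of_apply, Fin.insertNth_apply_succAbove,
          Fin.val_castSucc]
        exact ell_appd2_lt t.2 _
      rw [hsub]
      ring
    · intro t
      simp only [Matrix.of_apply, Fin.insertNth_apply_same, Fin.val_castSucc]
      rw [ell_appd2_lt t.2]
      exact hc a t
    · intro t
      simp only [Matrix.of_apply, Fin.insertNth_apply_same, Fin.insertNth_apply_succAbove,
        Fin.val_castSucc]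
      rw [ell_appd2_lt t.2]
      exact hc b t

/-- the two-row case multiplied out -/
theorem exists_hat' (m : ℕ) (k : Fin m → K[X]) (x : ℕ → K) (hk : ND m k x ≠ 0) :
    ∃ hat : K[X] → K[X],
      (∀ (i : Fin (m + 1)) (a : K[X]) (y : K),
        ND (m + 1) (Fin.insertNth i a k) (cons y x) =
          (-1) ^ ((i : ℕ) + m) * ND m k x * (hat a).eval y) ∧
      (∀ (i : Fin (m + 2)) (j : Fin (m + 1)) (a b : K[X]) (y y' : K),
        (y' - y) * ND (m + 2) (Fin.insertNth i a (Fin.insertNth j b k)) (cons y (cons y' x)) =
          (-1) ^ ((i : ℕ) + j) * ND m k x *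
            ((hat a).eval y * (hat b).eval y' - (hat a).eval y' * (hat b).eval y)) := by
  obtain ⟨hat, h1, h2⟩ := exists_hat m k x hk
  refine ⟨hat, h1, fun i j a b y y' => ?_⟩
  rw [h2]
  have ha := dd_mul (hat a) y y'
  have hb := dd_mul (hat b) y y'
  linear_combination (-1 : K) ^ ((i : ℕ) + j) * ND m k x * ((hat a).eval y * hb -
    (hat b).eval y * ha)

end Pool.Agent.GroB
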