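import Pool.Agent.Lib_MP_58440c_pr.GDeriv
import Pool.Agent.Lib_MP_58440c_pr.Red
import Pool.Agent.Lib_MP_58440c_pr.Tp

/-!
# Piece P5: the relation between two-point and one-point functions
-/

open Finset Polynomial Filter Topology

namespace Pool.Agent.GroB

theorem sysL_strict (n : ℕ) (l : Fin n → ℕ) (hl : Antitone l) :
    StrictMono fun i : Fin n => l i.rev + (i : ℕ) := by
  intro i j hij
  have h1 : l i.rev ≤ l j.rev := hl (Fin.rev_le_rev.2 hij.le)
  have h2 : (i : ℕ) < j := hij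
  show l i.rev + (i : ℕ) < l j.rev + (j : ℕ)
  omega

theorem sysB_anti (n : ℕ) : Antitone fun i : Fin n => n - 1 - (i : ℕ) := by
  intro i j hij
  have h2 : (i : ℕ) ≤ j := hij
  show n - 1 - (j : ℕ) ≤ n - 1 - (i : ℕ)
  omega

theorem G_eq_ND_pos (p : ℝ) (n : ℕ) (l : Fin n → ℕ) (hl : Antitone l) (x : ℕ → ℝ)
    (hx : PosPt p x) : G p n l x = ND n (sys p n l) x :=
  G_eq_ND p n l hl x fun j _ => ⟨(hx j).1.ne', by have := (hx j).2; linarith⟩

theorem P5 (p : ℝ) (hp0 : 0 < p) (hp1 : p < 1) (n : ℕ) (l : Fin (n + 2) → ℕ) (hl : Antitone l)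
    (x : ℕ → ℝ) (hx : PosPt p x) (z1 z2 : ℝ) (h1 : 0 < z1) (h1' : z1 ≤ 1) (h2 : 0 < z2)
    (h2' : z2 ≤ 1) :
    (z2 - z1) * (G p (n + 2) l (cons z1 (cons z2 x)) * G p (n + 2) l (cons 1 (cons 1 x)) -
        G p (n + 2) l (cons z1 (cons 1 x)) * G p (n + 2) l (cons z2 (cons 1 x))) =
      (z1 - 1) * (z2 - 1) *
        (G p (n + 2) l (cons z1 (cons 1 x)) * T p (n + 1) l (cons z2 x) -
          G p (n + 2) l (cons z2 (cons 1 x)) * T p (n + 1) l (cons z1 x)) := by
  set k : Fin n → ℝ[X] := fun i => sys p (n + 2) l i.succ.succ with hk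
  have hkpos : 0 < ND n k x := by
    have := tp_pos p hp0 n (fun i : Fin n => l (i.succ.succ).rev + ((i.succ.succ : Fin (n + 2)) : ℕ))
      (fun i : Fin n => n + 2 - 1 - ((i.succ.succ : Fin (n + 2)) : ℕ)) ?_ ?_ x hx
    · exact this
    · intro i j hij
      exact sysL_strict (n + 2) l hl (Fin.succ_lt_succ_iff.2 (Fin.succ_lt_succ_iff.2 hij))
    · intro i j hij
      exact sysB_anti (n + 2) (Fin.succ_le_succ_iff.2 (Fin.succ_le_succ_iff.2 hij))
  have hsys : sys p (n + 2) l = Fin.insertNth (α := fun _ => ℝ[X]) 0 (sys p (n + 2) l 0)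
      (Fin.insertNth (α := fun _ => ℝ[X]) 0 (sys p (n + 2) l (Fin.succ 0)) k) := by
    rw [Fin.insertNth_zero', Fin.insertNth_zero']
    funext i
    refine Fin.cases rfl (fun i => ?_) i
    refine Fin.cases rfl (fun i => ?_) i
    rfl
  obtain ⟨hat, -, hat2⟩ := exists_hat' n k x hkpos.ne'
  set fa := hat (sys p (n + 2) l 0)
  set fb := hat (sys p (n + 2) l (Fin.succ 0))
  set N := ND n k x
  have hval : ∀ a b : ℝ, 0 < a → p * a < 1 → 0 < b → p * b < 1 →
      (b - a) * G p (n + 2) l (cons a (cons b x)) =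
        N * (fa.eval a * fb.eval b - fa.eval b * fb.eval a) := by
    intro a b ha ha' hb hb'
    rw [G_eq_ND_pos p _ l hl _ ((hx.cons hb hb').cons ha ha')]
    have := hat2 0 0 (sys p (n + 2) l 0) (sys p (n + 2) l (Fin.succ 0)) a b
    rw [← hsys] at this
    rw [this]
    simp only [Fin.val_zero, add_zero, pow_zero, one_mul]
    rfl
  have hr : (1 : ℝ) < 1 / p := by rw [lt_div_iff₀ hp0]; linarith
  have hder : ∀ u : ℝ, 0 < u → u ≤ 1 →
      (u - 1) * T p (n + 1) l (cons u x) - G p (n + 2) l (cons 1 (cons u x)) =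
        N * (fa.derivative.eval 1 * fb.eval u - fa.eval u * fb.derivative.eval 1) := by
    intro u hu hu'
    have hpu : p * u < 1 := by nlinarith
    have hG := hasDerivAt_G p hp0 hp1 (n + 1) l (cons u x) (hx.cons hu hpu)
    have hL : HasDerivAt (fun w => (u - w) * G p (n + 2) l (cons w (cons u x)))
        ((0 - 1) * G p (n + 2) l (cons 1 (cons u x)) + (u - 1) * T p (n + 1) l (cons u x)) 1 := by
      have h3 : HasDerivAt (fun w : ℝ => u - w) (0 - 1) 1 :=
        (hasDerivAt_const (1 : ℝ) u).sub (hasDerivAt_id (1 : ℝ))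
      exact h3.mul hG
    have hR : HasDerivAt (fun w => N * (fa.eval w * fb.eval u - fa.eval u * fb.eval w))
        (N * (fa.derivative.eval 1 * fb.eval u - fa.eval u * fb.derivative.eval 1)) 1 := by
      apply HasDerivAt.const_mul
      exact ((fa.hasDerivAt 1).mul_const _).sub ((fb.hasDerivAt 1).const_mul _)
    have hev : (fun w => (u - w) * G p (n + 2) l (cons w (cons u x))) =ᶠ[𝓝 1]
        fun w => N * (fa.eval w * fb.eval u - fa.eval u * fb.eval w) := by
      filter_upwards [Ioo_mem_nhds (show (0 : ℝ) < 1 by norm_num) hr] with w hw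
      have hpw : p * w < 1 := by
        have := hw.2
        rw [lt_div_iff₀ hp0] at this; linarith
      exact hval w u hw.1 hpw hu hpu
    have := (hR.congr_of_eventuallyEq hev).unique hL
    linarith
  have hp1' : p * 1 < 1 := by linarith
  have hpz1 : p * z1 < 1 := by nlinarith
  have hpz2 : p * z2 < 1 := by nlinarith
  have e12 := hval z1 z2 h1 hpz1 h2 hpz2
  have e1 := hval z1 1 h1 hpz1 one_pos hp1'
  have e2 := hval z2 1 h2 hpz2 one_pos hp1'
  have d1 := hder z1 h1 h1'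
  have d2 := hder z2 h2 h2'
  have d0 := hder 1 one_pos le_rfl
  have s1 : G p (n + 2) l (cons 1 (cons z1 x)) = G p (n + 2) l (cons z1 (cons 1 x)) :=
    G_swap p (n + 2) l 1 z1 x ((hx.cons h1 hpz1).cons one_pos hp1') (by omega)
  have s2 : G p (n + 2) l (cons 1 (cons z2 x)) = G p (n + 2) l (cons z2 (cons 1 x)) :=
    G_swap p (n + 2) l 1 z2 x ((hx.cons h2 hpz2).cons one_pos hp1') (by omega)
  rw [s1] at d1
  rw [s2] at d2
  set g12 := G p (n + 2) l (cons z1 (cons z2 x))
  set g11 := G p (n + 2) l (cons 1 (cons 1 x))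
  set g1 := G p (n + 2) l (cons z1 (cons 1 x))
  set g2 := G p (n + 2) l (cons z2 (cons 1 x))
  set T1 := T p (n + 1) l (cons z1 x)
  set T2' := T p (n + 1) l (cons z2 x)
  set A1 := fa.eval z1
  set A2 := fa.eval z2
  set A0 := fa.eval 1
  set A0' := fa.derivative.eval 1
  set B1 := fb.eval z1
  set B2 := fb.eval z2
  set B0 := fb.eval 1
  set B0' := fb.derivative.eval 1
  have d0' : g11 = -(N * (A0' * B0 - A0 * B0')) := by linarith
  have d1' : (z1 - 1) * T1 - g1 = N * (A0' * B1 - A1 * B0') := d1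
  have d2' : (z2 - 1) * T2' - g2 = N * (A0' * B2 - A2 * B0') := d2
  -- (z2 - z1) g12 g11 = -W(z1,1) W1(z2) + W1(z1) W(z2,1)
  have key : (z2 - z1) * g12 * g11 =
      -((1 - z1) * g1) * ((z2 - 1) * T2' - g2) + ((z1 - 1) * T1 - g1) * ((1 - z2) * g2) := by
    rw [e12, e1, e2, d1', d2', d0']
    ring
  linear_combination key

end Pool.Agent.GroB
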