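import Pool.Agent.Lib_MP_58440c_pr.Y3

/-!
# Piece Y3K: uniform second moment bound, all levels

Induction on `n ≥ 2`. Step `n → n+1`: `T2_harm` and
`skew p l m (x n) ≤ (1-p)^(-(n+1)) skew p l m 1` (for `x n = 1` no loss), so the constant is multiplied
finitely often: `B_{n+1} = B_n` for `n ≥ k`. So it is enough to have for every `n` (in particular
`n = 2`) SOME constant `B_n`, and `B_n = B_k` afterwards.

-/

open Finset Polynomial

namespace Pool.Agent.GroB

theorem y3k_step (p : ℝ) (hp0 : 0 < p) (hp1 : p < 1) (x : ℕ → ℝ) (hx : UnitSeq x) (n : ℕ) (B c : ℝ)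
    (hB : 0 ≤ B) (hc : ∀ (l : Fin (n + 2) → ℕ) (m : Fin (n + 1) → ℕ), m ∈ below l →
      skew p l m (x n) ≤ c * skew p l m 1)
    (h : ∀ l : Fin (n + 1) → ℕ, Antitone l → T2 p n l x ≤ B * G p (n + 1) l one)
    (l : Fin (n + 2) → ℕ) : T2 p (n + 1) l x ≤ (B * c) * G p (n + 2) l one := by
  rw [T2_harm, G, Finset.mul_sum]
  refine Finset.sum_le_sum fun m hm => ?_
  have hs : 0 ≤ skew p l m (x n) :=
    (skew_pos hm (hx n).1 (by nlinarith [(hx n).1, (hx n).2])).le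
  have hG : 0 ≤ G p (n + 1) m one := G_nonneg p _ m one (unitSeq_one.posPt hp0 hp1)
  calc skew p l m (x n) * T2 p n m x
      ≤ skew p l m (x n) * (B * G p (n + 1) m one) :=
        mul_le_mul_of_nonneg_left (h m (antitone_of_mem_below hm)) hs
    _ ≤ (c * skew p l m 1) * (B * G p (n + 1) m one) :=
        mul_le_mul_of_nonneg_right (hc l m hm) (mul_nonneg hB hG)
    _ = B * c * (G p (n + 1) m one * skew p l m (one (n + 1))) := by
        rw [one_apply]; ring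

theorem y3k_skew (p : ℝ) (hp0 : 0 < p) (hp1 : p < 1) (n : ℕ) (t : ℝ) (ht : 0 < t) (ht1 : t ≤ 1)
    (l : Fin (n + 2) → ℕ) (m : Fin (n + 1) → ℕ) (hm : m ∈ below l) :
    skew p l m t ≤ (1 / (1 - p) ^ (n + 1)) * skew p l m 1 := by
  have h1p : 0 < 1 - p := by linarith
  rw [skew_of_mem p hm, skew_of_mem p hm, one_pow, one_mul, mul_one]
  have h2 : t ^ (∑ i, l i - ∑ i, m i) * (1 - p * t) ^ rr l m ≤ 1 := by
    refine mul_le_one₀ (pow_le_one₀ ht.le ht1) (pow_nonneg (by nlinarith) _) ?_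
    exact pow_le_one₀ (by nlinarith) (by nlinarith)
  refine h2.trans ?_
  rw [one_div, ← div_eq_inv_mul, le_div_iff₀ (by positivity), one_mul]
  exact pow_le_pow_of_le_one h1p.le (by linarith) (rr_le l m)

theorem y3k_some (p : ℝ) (hp0 : 0 < p) (hp1 : p < 1) (x : ℕ → ℝ) (hx : UnitSeq x)
    (h0 : x 0 < 1) (h1 : x 1 < 1) (n : ℕ) (hn : 2 ≤ n) :
    ∃ B : ℝ, 0 ≤ B ∧ ∀ l : Fin (n + 1) → ℕ, Antitone l → T2 p n l x ≤ B * G p (n + 1) l one := by
  induction n, hn using Nat.le_induction with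
  | base => exact T2_bound3 p hp0 hp1 x hx h0 h1
  | succ n hn ih =>
    obtain ⟨B, hB, h⟩ := ih
    have h1p : 0 < 1 - p := by linarith
    exact ⟨B * (1 / (1 - p) ^ (n + 1)), by positivity, fun l _ =>
      y3k_step p hp0 hp1 x hx n B _ hB
        (fun l m hm => y3k_skew p hp0 hp1 n (x n) (hx n).1 (hx n).2 l m hm) h l⟩

theorem T2_bound (p : ℝ) (hp0 : 0 < p) (hp1 : p < 1) (k : ℕ) (x : ℕ → ℝ) (hx : UnitSeq x)
    (h0 : x 0 < 1) (h1 : x 1 < 1) (hx1 : ∀ j, k ≤ j → x j = 1) :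
    ∃ B : ℝ, 0 ≤ B ∧ ∀ n, 2 ≤ n → ∀ l : Fin (n + 1) → ℕ, Antitone l →
      T2 p n l x ≤ B * G p (n + 1) l one := by
  have hsome := y3k_some p hp0 hp1 x hx h0 h1
  choose! B hB hBl using hsome
  set K := max 2 k with hK
  have hnn : ∀ n ∈ Finset.Icc 2 K, 0 ≤ B n := fun n hn => hB n (Finset.mem_Icc.1 hn).1
  refine ⟨∑ n ∈ Finset.Icc 2 K, B n, Finset.sum_nonneg hnn, ?_⟩
  set S := ∑ n ∈ Finset.Icc 2 K, B n with hS
  have hS0 : 0 ≤ S := Finset.sum_nonneg hnn
  have hsmall : ∀ n, 2 ≤ n → n ≤ K → ∀ l : Fin (n + 1) → ℕ, Antitone l →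
      T2 p n l x ≤ S * G p (n + 1) l one := by
    intro n h2 hnK l hl
    refine (hBl n h2 l hl).trans ?_
    refine mul_le_mul_of_nonneg_right ?_ (G_nonneg p _ l one (unitSeq_one.posPt hp0 hp1))
    exact Finset.single_le_sum (f := B) hnn (Finset.mem_Icc.2 ⟨h2, hnK⟩)
  have hbig : ∀ n, K ≤ n → ∀ l : Fin (n + 1) → ℕ, Antitone l →
      T2 p n l x ≤ S * G p (n + 1) l one := by
    intro n hn
    induction n, hn using Nat.le_induction with
    | base => exact hsmall K (le_max_left _ _) le_rfl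
    | succ n hn ih =>
      intro l _
      have hxn : x n = 1 := hx1 n ((le_max_right 2 k).trans hn)
      have := y3k_step p hp0 hp1 x hx n S 1 hS0
        (fun l m _ => by rw [hxn, one_mul]) ih l
      rwa [mul_one] at this
  intro n h2 l hl
  rcases le_total n K with h | h
  · exact hsmall n h2 h l hl
  · exact hbig n h l hl

end Pool.Agent.GroB
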