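import Pool.Agent.Lib_MP_58440c_pr.ELemma
import Pool.Agent.Lib_MP_58440c_pr.Y3k
import Pool.Agent.Lib_MP_58440c_pr.P5

/-!
# Piece CLOSE: uniform multiplicativity at finite level

`hh p n l y = G p n l y / G p n l one ∈ (0, 1]`. `N + 1 = (N-1) + 2`; `x (N-1) = x N = 1`, so
`G p (N+1) l (cons 1 (cons 1 x)) = G p (N+1) l x`, `G p (N+1) l (cons z (cons 1 x)) =
G p (N+1) l (cons z x)` (`G_swap`, `G_rot`, `G_congr`). Put `g = G p (N+1) l x`,
`R_i = G (cons z_i x)/g ∈ [0,1]`, `C_i = Cov p N l x z_i ≥ 0`; `P5` divided by `g²` is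
`(z2 - z1)(U - R_1 R_2) = (z1-1)(z2-1)(R_1 C_2 - R_2 C_1)`, `U = G (cons z1 (cons z2 x))/g`
(`T (cons z x) / g = C + m R`). So `|z1 - z2| |U - R_1R_2| ≤ max C_i`, and by `e_lemma`
`C_i² ≤ (2H + c)/W`, `H = (T2 + T)/g`. With `h = hh x = g / G one ≤ 1`: the left side of the claim is
`|z1-z2| h² |U - R_1 R_2| ≤ h² max C_i`, and `(h² C_i)² ≤ h⁴ (2 H + c)/W ≤ (2 H h + c)/W`,
`H h = (T2 + T)/G one ≤ 2 B + 1` (`T2_bound`, `T_le`, `G (cons 1 x) ≤ G one`).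
-/

open Finset Polynomial

namespace Pool.Agent.GroB

/-- normalised `G` -/
noncomputable def hh (p : ℝ) (n : ℕ) (l : Fin n → ℕ) (y : ℕ → ℝ) : ℝ := G p n l y / G p n l one

private theorem WW_nonneg (L : ℕ) : 0 ≤ WW L :=
  Finset.sum_nonneg fun j _ => by positivity

/-- the relation for general base sequence, with the bound in terms of `H` -/
theorem close_gen (p : ℝ) (hp0 : 0 < p) (hp1 : p < 1) (N k L : ℕ) (hN : N = k + 1 + L)
    (hL : 1 ≤ L) (x : ℕ → ℝ) (hx : UnitSeq x) (hx1 : ∀ j, k ≤ j → x j = 1)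
    (l : Fin (N + 1) → ℕ) (hl : Antitone l) (z1 z2 : ℝ) (h1 : 0 < z1) (h1' : z1 ≤ 1)
    (h2 : 0 < z2) (h2' : z2 ≤ 1) :
    ((z1 - z2) * (G p (N + 1) l (cons z1 (cons z2 x)) * G p (N + 1) l x -
        G p (N + 1) l (cons z1 x) * G p (N + 1) l (cons z2 x)) / G p (N + 1) l x ^ 2) ^ 2 * WW L ≤
      2 * ((T2 p N l x + T p N l x) / G p (N + 1) l x) +
        (p / (1 - p) + (p / (1 - p)) ^ 2) * (k + 2) := by
  obtain ⟨n, rfl⟩ : ∃ n, N = n + 1 := ⟨k + L, by omega⟩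
  have hkn : k ≤ n := by omega
  have hE1 := e_lemma p hp0 hp1 (n + 1) k L hN hL x hx hx1 l hl z1 h1 h1'
  have hE2 := e_lemma p hp0 hp1 (n + 1) k L hN hL x hx hx1 l hl z2 h2 h2'
  have hC1 := cov_nonneg p hp0 hp1 n k hkn x hx hx1 l hl z1 h1 h1'
  have hC2 := cov_nonneg p hp0 hp1 n k hkn x hx hx1 l hl z2 h2 h2'
  have hP5 := P5 p hp0 hp1 n l hl x (hx.posPt hp0 hp1) z1 z2 h1 h1' h2 h2'
  -- simplifications
  have hrot : ∀ y : ℕ → ℝ, UnitSeq y → y (n + 1) = 1 →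
      G p (n + 2) l (cons 1 y) = G p (n + 2) l y := by
    intro y hy hy1
    have h3 := G_rot p (n + 1) l y (hy.posPt hp0 hp1)
    rw [hy1] at h3
    exact h3
  have hx11 : G p (n + 2) l (cons 1 x) = G p (n + 2) l x := hrot x hx (hx1 _ (by omega))
  have hx1n : x n = 1 := hx1 n hkn
  have hxx : G p (n + 2) l (cons 1 (cons 1 x)) = G p (n + 2) l x := by
    rw [hrot (cons 1 x) (hx.cons one_pos le_rfl) (by rw [cons_succ]; exact hx1n), hx11]
  have hzz : ∀ z : ℝ, 0 < z → z ≤ 1 →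
      G p (n + 2) l (cons z (cons 1 x)) = G p (n + 2) l (cons z x) := by
    intro z hz hz1
    rw [G_swap p (n + 2) l z 1 x (((hx.cons one_pos le_rfl).cons hz hz1).posPt hp0 hp1) (by omega),
      hrot (cons z x) (hx.cons hz hz1) (by rw [cons_succ]; exact hx1n)]
  rw [hxx, hzz z1 h1 h1', hzz z2 h2 h2'] at hP5
  -- names
  have hg : 0 < G p (n + 2) l x := G_pos p (n + 2) l hl x (hx.posPt hp0 hp1)
  have hG1 : 0 < G p (n + 2) l (cons z1 x) :=
    G_pos p (n + 2) l hl _ ((hx.cons h1 h1').posPt hp0 hp1)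
  have hG2 : 0 < G p (n + 2) l (cons z2 x) :=
    G_pos p (n + 2) l hl _ ((hx.cons h2 h2').posPt hp0 hp1)
  have hG1' : G p (n + 2) l (cons z1 x) ≤ G p (n + 2) l x := by
    rw [← hx11]
    exact G_mono_cons p (n + 2) l x (hx.posPt hp0 hp1) h1.le h1'
  have hG2' : G p (n + 2) l (cons z2 x) ≤ G p (n + 2) l x := by
    rw [← hx11]
    exact G_mono_cons p (n + 2) l x (hx.posPt hp0 hp1) h2.le h2'
  unfold Cov at hE1 hE2 hC1 hC2
  generalize G p (n + 1 + 1) l (cons z1 (cons z2 x)) = U at *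
  generalize G p (n + 1 + 1) l x = g at *
  generalize G p (n + 1 + 1) l (cons z1 x) = G1 at *
  generalize G p (n + 1 + 1) l (cons z2 x) = G2 at *
  generalize T p (n + 1) l (cons z1 x) = t1 at *
  generalize T p (n + 1) l (cons z2 x) = t2 at *
  generalize T p (n + 1) l x = t0 at *
  generalize T2 p (n + 1) l x = tt at *
  set C1 : ℝ := t1 / g - t0 / g * (G1 / g) with hC1d
  set C2 : ℝ := t2 / g - t0 / g * (G2 / g) with hC2d
  set R1 : ℝ := G1 / g with hR1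
  set R2 : ℝ := G2 / g with hR2
  have hR10 : 0 ≤ R1 := by positivity
  have hR20 : 0 ≤ R2 := by positivity
  have hR11 : R1 ≤ 1 := (div_le_one hg).2 hG1'
  have hR21 : R2 ≤ 1 := (div_le_one hg).2 hG2'
  have hkey : (z1 - z2) * (U * g - G1 * G2) / g ^ 2 = -((1 - z1) * (1 - z2) * (R1 * C2 - R2 * C1)) := by
    have h3 : R1 * C2 - R2 * C1 = (G1 * t2 - G2 * t1) / g ^ 2 := by
      rw [hC1d, hC2d, hR1, hR2]
      field_simp
      ring
    rw [h3]
    have h4 : (z1 - z2) * (U * g - G1 * G2) = -((z1 - 1) * (z2 - 1) * (G1 * t2 - G2 * t1)) := by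
      rw [← hP5]
      ring
    rw [h4]
    ring
  rw [hkey]
  have ha0 : 0 ≤ (1 - z1) * (1 - z2) := mul_nonneg (by linarith) (by linarith)
  have ha1 : (1 - z1) * (1 - z2) ≤ 1 := by nlinarith
  have hW := WW_nonneg L
  rw [neg_sq, mul_pow]
  have ha2 : ((1 - z1) * (1 - z2)) ^ 2 ≤ 1 := pow_le_one₀ ha0 ha1
  set K : ℝ := 2 * ((tt + t0) / g) + (p / (1 - p) + (p / (1 - p)) ^ 2) * (k + 2) with hK
  have hb : (R1 * C2 - R2 * C1) ^ 2 ≤ max (C1 ^ 2) (C2 ^ 2) := by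
    rcases le_total 0 (R1 * C2 - R2 * C1) with h3 | h3
    · refine le_trans ?_ (le_max_right _ _)
      apply pow_le_pow_left₀ h3
      nlinarith [mul_nonneg hR20 hC1, mul_nonneg (sub_nonneg.2 hR11) hC2]
    · refine le_trans ?_ (le_max_left _ _)
      rw [← neg_sq]
      apply pow_le_pow_left₀ (by linarith)
      nlinarith [mul_nonneg hR10 hC2, mul_nonneg (sub_nonneg.2 hR21) hC1]
  have hmax : max (C1 ^ 2) (C2 ^ 2) * WW L ≤ K := by
    rcases max_cases (C1 ^ 2) (C2 ^ 2) with ⟨h3, _⟩ | ⟨h3, _⟩ <;> rw [h3]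
    · exact hE1
    · exact hE2
  calc ((1 - z1) * (1 - z2)) ^ 2 * (R1 * C2 - R2 * C1) ^ 2 * WW L
      ≤ 1 * max (C1 ^ 2) (C2 ^ 2) * WW L := by
        gcongr
    _ = max (C1 ^ 2) (C2 ^ 2) * WW L := by rw [one_mul]
    _ ≤ K := hmax

theorem close (p : ℝ) (hp0 : 0 < p) (hp1 : p < 1) (k : ℕ) (x : ℕ → ℝ) (hx : UnitSeq x)
    (h0 : x 0 < 1) (h1 : x 1 < 1) (hx1 : ∀ j, k ≤ j → x j = 1) :
    ∃ K0 : ℝ, 0 ≤ K0 ∧ ∀ L N : ℕ, 1 ≤ L → N = k + 1 + L → ∀ l : Fin (N + 1) → ℕ, Antitone l →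
      ∀ z1 z2 : ℝ, 0 < z1 → z1 ≤ 1 → 0 < z2 → z2 ≤ 1 →
        (|z1 - z2| * |hh p (N + 1) l (cons z1 (cons z2 x)) * hh p (N + 1) l x -
          hh p (N + 1) l (cons z1 x) * hh p (N + 1) l (cons z2 x)|) ^ 2 * WW L ≤ K0 := by
  obtain ⟨B, hB0, hB⟩ := T2_bound p hp0 hp1 k x hx h0 h1 hx1
  have hq0 : 0 < p / (1 - p) := div_pos hp0 (by linarith)
  refine ⟨2 * (2 * B + 1) + (p / (1 - p) + (p / (1 - p)) ^ 2) * (k + 2), by positivity, ?_⟩
  intro L N hL hN l hl z1 z2 hz1 hz1' hz2 hz2'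
  have hpos := hx.posPt hp0 hp1
  have hgen := close_gen p hp0 hp1 N k L hN hL x hx hx1 l hl z1 z2 hz1 hz1' hz2 hz2'
  have hT2 := hB N (by omega) l hl
  have hT := T_le p hp0 hp1 N l x hpos
  have hG1 := G_le_one p hp0 hp1 (N + 1) l (cons 1 x) (hx.cons one_pos le_rfl)
  have hG0 := G_le_one p hp0 hp1 (N + 1) l x hx
  have hg : 0 < G p (N + 1) l x := G_pos p (N + 1) l hl x hpos
  have hO : 0 < G p (N + 1) l one := G_pos p (N + 1) l hl one (unitSeq_one.posPt hp0 hp1)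
  have hT0 := T_nonneg p hp0 hp1 N l x hpos
  have hT20 := T2_nonneg p N l x hpos
  unfold hh
  generalize G p (N + 1) l (cons z1 (cons z2 x)) = U at *
  generalize G p (N + 1) l x = g at *
  generalize G p (N + 1) l (cons z1 x) = G1 at *
  generalize G p (N + 1) l (cons z2 x) = G2 at *
  generalize G p (N + 1) l (cons 1 x) = gg at *
  generalize G p (N + 1) l one = o at *
  generalize T p N l x = t0 at *
  generalize T2 p N l x = tt at *
  set Q : ℝ := (p / (1 - p) + (p / (1 - p)) ^ 2) * (k + 2) with hQ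
  have hQ0 : 0 ≤ Q := by positivity
  set h : ℝ := g / o with hh'
  have hh0 : 0 < h := by positivity
  have hh1 : h ≤ 1 := (div_le_one hO).2 hG0
  have hW := WW_nonneg L
  have e1 : (|z1 - z2| * |U / o * (g / o) - G1 / o * (G2 / o)|) ^ 2 =
      h ^ 4 * ((z1 - z2) * (U * g - G1 * G2) / g ^ 2) ^ 2 := by
    rw [← abs_mul, sq_abs]
    rw [hh']
    field_simp
  rw [e1]
  have hH0 : 0 ≤ (tt + t0) / g := by positivity
  have hHh : (tt + t0) / g * h ≤ 2 * B + 1 := by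
    have e2 : (tt + t0) / g * h = (tt + t0) / o := by
      rw [hh']
      field_simp
    rw [e2, div_le_iff₀ hO]
    nlinarith
  have hh4 : h ^ 4 ≤ h := by
    calc h ^ 4 ≤ h ^ 1 := pow_le_pow_of_le_one hh0.le hh1 (by norm_num)
      _ = h := pow_one h
  have hh4' : h ^ 4 ≤ 1 := hh4.trans hh1
  calc h ^ 4 * ((z1 - z2) * (U * g - G1 * G2) / g ^ 2) ^ 2 * WW L
      = h ^ 4 * (((z1 - z2) * (U * g - G1 * G2) / g ^ 2) ^ 2 * WW L) := by ring
    _ ≤ h ^ 4 * (2 * ((tt + t0) / g) + Q) := mul_le_mul_of_nonneg_left hgen (by positivity)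
    _ = 2 * (h ^ 4 * ((tt + t0) / g)) + h ^ 4 * Q := by ring
    _ ≤ 2 * (h * ((tt + t0) / g)) + 1 * Q := by gcongr
    _ ≤ 2 * (2 * B + 1) + Q := by nlinarith

end Pool.Agent.GroB
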