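import Mathlib

/-!
# Piece COLA: the algebraic identity behind the column recursion

`FA p m x Ψ = ∑_{j<m} (1 - p x_j)^(m-1) ∏_{k<m, k≠j} Ψ_k/(x_k - x_j)`. For distinct `x_0, …, x_n`,
`n ≥ 1`, write `FA p (n+1) x Ψ` as `j = 0` term + `j = n` term + terms `0 < j < n`.
For `0 < j < n` both sides have the common factor
`(1-px_j)^(n-1) ∏_{0<k<n, k≠j} Ψ_k/(x_k-x_j) * Ψ_0 Ψ_n` and
`(x_n-x_0)(1-px_j)/((x_0-x_j)(x_n-x_j)) = (1-px_0)/(x_0-x_j) - (1-px_n)/(x_n-x_j)`.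
For `j = 0`: left `(x_n - x_0)(1-px_0)^n Ψ_n/(x_n-x_0) ∏_{0<k<n}(..)`, right
`(1-px_0) Ψ_n (1-px_0)^(n-1) ∏_{0<k<n}(..)`; the same for `j = n`.
It may be easier to write `n = m + 1` and split `range (m+2)` with `Finset.sum_range_succ`,
`Finset.sum_range_succ'`, and products over `(range (m+2)).erase j` by hand (three lemmas).
-/

open Finset

namespace Pool.Agent.GroB

noncomputable def FA (p : ℝ) (m : ℕ) (x Ψ : ℕ → ℝ) : ℝ :=
  ∑ j ∈ range m, (1 - p * x j) ^ (m - 1) * ∏ k ∈ (range m).erase j, Ψ k / (x k - x j)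

namespace Cola

/-- the factors, with value one at `k = j` -/
noncomputable def gg (x Ψ : ℕ → ℝ) (j k : ℕ) : ℝ := if k = j then 1 else Ψ k / (x k - x j)

theorem prod_eq (x Ψ : ℕ → ℝ) (m j : ℕ) (hj : j < m) :
    ∏ k ∈ (range m).erase j, Ψ k / (x k - x j) = ∏ k ∈ range m, gg x Ψ j k := by
  rw [← Finset.mul_prod_erase (range m) (gg x Ψ j) (mem_range.2 hj)]
  have h1 : gg x Ψ j j = 1 := by
    unfold gg
    rw [if_pos rfl]
  rw [h1, one_mul]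
  refine prod_congr rfl (fun k hk => ?_)
  unfold gg
  rw [if_neg (ne_of_mem_erase hk)]

theorem FA_eq (p : ℝ) (m : ℕ) (x Ψ : ℕ → ℝ) :
    FA p m x Ψ = ∑ j ∈ range m, (1 - p * x j) ^ (m - 1) * ∏ k ∈ range m, gg x Ψ j k := by
  unfold FA
  refine sum_congr rfl (fun j hj => ?_)
  rw [prod_eq x Ψ m j (mem_range.1 hj)]

theorem gg_shift (x Ψ : ℕ → ℝ) (j k : ℕ) :
    gg (fun j => x (j + 1)) (fun j => Ψ (j + 1)) j k = gg x Ψ (j + 1) (k + 1) := by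
  unfold gg
  by_cases h : k = j
  · rw [if_pos h, if_pos (by omega)]
  · rw [if_neg h, if_neg (by omega)]

theorem gg_self (x Ψ : ℕ → ℝ) (j : ℕ) : gg x Ψ j j = 1 := by
  unfold gg
  rw [if_pos rfl]

theorem gg_ne (x Ψ : ℕ → ℝ) (j k : ℕ) (h : k ≠ j) : gg x Ψ j k = Ψ k / (x k - x j) := by
  unfold gg
  rw [if_neg h]

end Cola

theorem FA_rec (p : ℝ) (n : ℕ) (hn : 1 ≤ n) (x Ψ : ℕ → ℝ)
    (hd : ∀ i ≤ n, ∀ j ≤ n, x i = x j → i = j) :
    (x n - x 0) * FA p (n + 1) x Ψ =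
      (1 - p * x 0) * Ψ n * FA p n x Ψ -
        (1 - p * x n) * Ψ 0 * FA p n (fun j => x (j + 1)) (fun j => Ψ (j + 1)) := by
  obtain ⟨m, rfl⟩ : ∃ m, n = m + 1 := ⟨n - 1, by omega⟩
  rw [Cola.FA_eq, Cola.FA_eq, Cola.FA_eq]
  simp only [Cola.gg_shift, Nat.add_sub_cancel]
  rw [sum_range_succ, sum_range_succ' _ m]
  rw [sum_range_succ' (fun j => (1 - p * x j) ^ m * ∏ k ∈ range (m + 1), Cola.gg x Ψ j k) m]
  rw [sum_range_succ (fun j => (1 - p * x (j + 1)) ^ m *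
    ∏ k ∈ range (m + 1), Cola.gg x Ψ (j + 1) (k + 1)) m]
  have hn0 : x (m + 1) - x 0 ≠ 0 := by
    intro h
    have := hd (m + 1) le_rfl 0 (Nat.zero_le _) (by linarith)
    omega
  have h0n : x 0 - x (m + 1) ≠ 0 := by
    intro h
    exact hn0 (by linarith)
  -- the products
  have p1 : ∀ j, ∏ k ∈ range (m + 1 + 1), Cola.gg x Ψ j k
      = (∏ k ∈ range m, Cola.gg x Ψ j (k + 1)) * Cola.gg x Ψ j 0 * Cola.gg x Ψ j (m + 1) := by
    intro j
    rw [prod_range_succ, prod_range_succ']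
  have p2 : ∀ j, ∏ k ∈ range (m + 1), Cola.gg x Ψ j k
      = (∏ k ∈ range m, Cola.gg x Ψ j (k + 1)) * Cola.gg x Ψ j 0 := by
    intro j
    rw [prod_range_succ']
  have p3 : ∀ j, ∏ k ∈ range (m + 1), Cola.gg x Ψ (j + 1) (k + 1)
      = (∏ k ∈ range m, Cola.gg x Ψ (j + 1) (k + 1)) * Cola.gg x Ψ (j + 1) (m + 1) := by
    intro j
    rw [prod_range_succ]
  have s1 : (x (m + 1) - x 0) * (∑ j ∈ range m, (1 - p * x (j + 1)) ^ (m + 1) *
        ∏ k ∈ range (m + 1 + 1), Cola.gg x Ψ (j + 1) k)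
      = (1 - p * x 0) * Ψ (m + 1) * (∑ j ∈ range m, (1 - p * x (j + 1)) ^ m *
        ∏ k ∈ range (m + 1), Cola.gg x Ψ (j + 1) k)
      - (1 - p * x (m + 1)) * Ψ 0 * (∑ j ∈ range m, (1 - p * x (j + 1)) ^ m *
        ∏ k ∈ range (m + 1), Cola.gg x Ψ (j + 1) (k + 1)) := by
    rw [mul_sum, mul_sum, mul_sum, ← sum_sub_distrib]
    refine sum_congr rfl (fun j hj => ?_)
    rw [mem_range] at hj
    rw [p1, p2, p3, Cola.gg_ne x Ψ (j + 1) 0 (by omega), Cola.gg_ne x Ψ (j + 1) (m + 1) (by omega)]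
    have hj0 : x 0 - x (j + 1) ≠ 0 := by
      intro h
      have := hd 0 (Nat.zero_le _) (j + 1) (by omega) (by linarith)
      omega
    have hjn : x (m + 1) - x (j + 1) ≠ 0 := by
      intro h
      have := hd (m + 1) le_rfl (j + 1) (by omega) (by linarith)
      omega
    field_simp
    ring
  have t0 : (x (m + 1) - x 0) * ((1 - p * x 0) ^ (m + 1) *
        ∏ k ∈ range (m + 1 + 1), Cola.gg x Ψ 0 k)
      = (1 - p * x 0) * Ψ (m + 1) * ((1 - p * x 0) ^ m * ∏ k ∈ range (m + 1), Cola.gg x Ψ 0 k) := by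
    rw [p1, p2, Cola.gg_self, Cola.gg_ne x Ψ 0 (m + 1) (by omega)]
    field_simp
    ring
  have tn : (x (m + 1) - x 0) * ((1 - p * x (m + 1)) ^ (m + 1) *
        ∏ k ∈ range (m + 1 + 1), Cola.gg x Ψ (m + 1) k)
      = - ((1 - p * x (m + 1)) * Ψ 0 * ((1 - p * x (m + 1)) ^ m *
        ∏ k ∈ range (m + 1), Cola.gg x Ψ (m + 1) (k + 1))) := by
    rw [p1, p3, Cola.gg_self, Cola.gg_ne x Ψ (m + 1) 0 (by omega)]
    field_simp
    ring
  linear_combination s1 + t0 + tn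

end Pool.Agent.GroB
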