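import Mathlib

/-!
# Piece VDM: removing a point from a Vandermonde product

Either by induction on `n` (cases `j = 0` and `j = j'.succ`, splitting off the factors with `i = 0`:
`Fin.prod_univ_succ`, and `∏_{k ∈ Ioi 0} = ∏_{k} (x k.succ - x 0)`), or through
`Matrix.det_vandermonde` and a cyclic permutation of the rows (`Fin.sign_cycleRange`).
-/


open Finset

namespace Pool.Agent.GroB

/-- the sequence `x` without its entry `j` -/
def del {R : Type*} (j : ℕ) (x : ℕ → R) : ℕ → R := fun i => if i < j then x i else x (i + 1)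

theorem del_zero_apply {R : Type*} (x : ℕ → R) (i : ℕ) : del 0 x i = x (i + 1) := by
  simp [del]

theorem del_succ_zero {R : Type*} (j : ℕ) (x : ℕ → R) : del (j + 1) x 0 = x 0 := by
  simp [del]

theorem del_succ_succ {R : Type*} (j : ℕ) (x : ℕ → R) (i : ℕ) :
    del (j + 1) x (i + 1) = del j (fun k => x (k + 1)) i := by
  simp [del]

theorem prod_del {n : ℕ} (x : ℕ → ℝ) (g : ℝ → ℝ) (j : Fin (n + 1)) :
    ∏ k : Fin (n + 1), g (x k) = g (x j) * ∏ k : Fin n, g (del j x k) := by
  rw [Fin.prod_univ_succAbove _ j]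
  congr 1
  refine Finset.prod_congr rfl fun k _ => ?_
  congr 1
  unfold del
  by_cases h : (k : ℕ) < j
  · rw [if_pos h, Fin.succAbove_of_castSucc_lt j k (by simpa [Fin.lt_def] using h)]
    rfl
  · rw [if_neg h, Fin.succAbove_of_le_castSucc j k (by simpa [Fin.le_def] using not_lt.1 h)]
    rfl

theorem vdm_succAbove (n : ℕ) (x : ℕ → ℝ) (j : Fin (n + 1)) :
    (∏ i : Fin (n + 1), ∏ k ∈ Finset.Ioi i, (x k - x i)) =
      (-1) ^ (j : ℕ) * (∏ i : Fin n, ∏ k ∈ Finset.Ioi i, (del j x k - del j x i)) *
        ∏ k ∈ range n, (del j x k - x j) := by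
  have hsplit : ∀ (n : ℕ) (y : ℕ → ℝ), (∏ i : Fin (n + 1), ∏ k ∈ Finset.Ioi i, (y k - y i)) =
      (∏ k : Fin n, (y (k + 1) - y 0)) *
        ∏ i : Fin n, ∏ k ∈ Finset.Ioi i, (y (k + 1) - y (i + 1)) := by
    intro n y
    rw [Fin.prod_univ_succ, Fin.prod_Ioi_zero]
    congr 1
    refine Finset.prod_congr rfl fun i _ => ?_
    rw [Fin.prod_Ioi_succ]
    rfl
  induction n generalizing x with
  | zero =>
      have hj : (j : ℕ) = 0 := by omega
      rw [hj]
      simp
  | succ n ih =>
      obtain ⟨j, hj⟩ := j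
      cases j with
      | zero =>
          rw [hsplit (n + 1) x]
          simp only [pow_zero, one_mul, del_zero_apply]
          rw [← Fin.prod_univ_eq_prod_range (fun k => x (k + 1) - x 0) (n + 1)]
          ring
      | succ j =>
          have hj' : j < n + 1 := by omega
          rw [hsplit (n + 1) x, hsplit n (del (j + 1) x)]
          have h1 := ih (fun k => x (k + 1)) ⟨j, hj'⟩
          simp only at h1
          rw [h1, Finset.prod_range_succ' (fun k => del (j + 1) x k - x (j + 1))]
          simp only [del_succ_zero, del_succ_succ]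
          have h2 := prod_del (n := n) (fun k => x (k + 1)) (fun t => t - x 0) ⟨j, hj'⟩
          simp only at h2
          rw [h2, pow_succ]
          ring

end Pool.Agent.GroB
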