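import Pool.Agent.Lib_MP_58440c_pr.GBasic
import Pool.Agent.Lib_MP_58440c_pr.Vdm

/-!
# Piece COLG: adding a zero part

For pairwise distinct points: `G p (n+1) (snoc l 0) x =
∑_j (1 - p x_j)^n ∏_{k ≠ j} x_k / (x_k - x_j) * G p n l (x without x_j)`.

Proof: `G_eq_ND` and `ND_vdm` (points distinct). The matrix `(sys p (n+1) (snoc l 0) i)(x_j)` has row `0`
`(1 - p x_j)^n` (`(snoc l 0) (rev 0) = (snoc l 0) last = 0`) and row `i+1`: `x_j * (sys p n l i)(x_j)`
(`(snoc l 0) (rev i.succ) = l (rev i)`). Laplace along row `0` (`Matrix.det_succ_row_zero`): minors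
`∏_k x_{j.succAbove k} * det (sys p n l i (x_{j.succAbove k}))`. Finally
`V(x) = V(x ∘ j.succAbove) (-1)^j ∏_k (x (j.succAbove k) - x j)` for the Vandermonde product
`V(x) = ∏_i ∏_{j ∈ Ioi i} (x_j - x_i)` (piece of its own: `vdm_succAbove`).
-/

open Finset Polynomial

namespace Pool.Agent.GroB

theorem del_succAbove (n : ℕ) (x : ℕ → ℝ) (j : Fin (n + 1)) (k : Fin n) :
    x (j.succAbove k) = del j x k := by
  unfold del
  by_cases h : (k : ℕ) < (j : ℕ)
  · rw [if_pos h, Fin.succAbove_of_castSucc_lt _ _ (by rw [Fin.lt_def]; simpa using h)]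
    simp
  · rw [if_neg h, Fin.succAbove_of_le_castSucc _ _ (by rw [Fin.le_def]; simpa using h)]
    simp

theorem sys_snoc_zero (p : ℝ) (n : ℕ) (l : Fin n → ℕ) :
    sys p (n + 1) (Fin.snoc (α := fun _ => ℕ) l 0) 0 = (1 - C p * X) ^ n := by
  unfold sys ph
  have h : (0 : Fin (n + 1)).rev = Fin.last n := by simp
  rw [h, Fin.snoc_last]
  simp

theorem sys_snoc_succ (p : ℝ) (n : ℕ) (l : Fin n → ℕ) (i : Fin n) :
    sys p (n + 1) (Fin.snoc (α := fun _ => ℕ) l 0) i.succ = X * sys p n l i := by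
  unfold sys ph
  have h : (i.succ).rev = (i.rev).castSucc := by
    ext
    simp [Fin.rev]
  have h2 : n + 1 - 1 - (i.succ : ℕ) = n - 1 - i := by
    simp
    omega
  rw [h, Fin.snoc_castSucc, h2]
  have h3 : l i.rev + ((i.succ : Fin (n + 1)) : ℕ) = (l i.rev + i) + 1 := by
    simp
    omega
  rw [h3, pow_succ]
  ring

theorem antitone_snoc_zero (n : ℕ) (l : Fin n → ℕ) (hl : Antitone l) :
    Antitone (Fin.snoc (α := fun _ => ℕ) l 0 : Fin (n + 1) → ℕ) := by
  intro i j hij
  induction j using Fin.lastCases with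
  | last => rw [Fin.snoc_last]; exact Nat.zero_le _
  | cast j =>
    induction i using Fin.lastCases with
    | last =>
      exfalso
      have := Fin.le_def.1 hij
      have h2 := j.2
      simp at this
      omega
    | cast i =>
      rw [Fin.snoc_castSucc, Fin.snoc_castSucc]
      exact hl (by simpa using hij)

theorem posPt_del (p : ℝ) (x : ℕ → ℝ) (hx : PosPt p x) (j : ℕ) : PosPt p (del j x) := by
  intro i
  unfold del
  split
  · exact hx i
  · exact hx (i + 1)

theorem col_G (p : ℝ) (n : ℕ) (l : Fin n → ℕ) (hl : Antitone l) (x : ℕ → ℝ) (hx : PosPt p x)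
    (hd : ∀ i ≤ n, ∀ j ≤ n, x i = x j → i = j) :
    G p (n + 1) (Fin.snoc (α := fun _ => ℕ) l 0) x =
      ∑ j ∈ range (n + 1), (1 - p * x j) ^ n *
        (∏ k ∈ range n, del j x k / (del j x k - x j)) * G p n l (del j x) := by
  have hV : (∏ i : Fin (n + 1), ∏ k ∈ Finset.Ioi i, (x k - x i)) ≠ 0 := by
    refine Finset.prod_ne_zero_iff.2 fun i _ => Finset.prod_ne_zero_iff.2 fun k hk => ?_
    rw [Finset.mem_Ioi] at hk
    intro h0
    have h1 := hd k (by omega) i (by omega) (by linarith)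
    have h2 := Fin.lt_def.1 hk
    omega
  rw [G_eq_ND p (n + 1) _ (antitone_snoc_zero n l hl) x fun j _ =>
    ⟨(hx j).1.ne', by have := (hx j).2; linarith⟩]
  refine mul_right_cancel₀ hV ?_
  rw [← ND_vdm, Matrix.det_succ_row_zero, Finset.sum_mul, ← Fin.sum_univ_eq_sum_range
    (fun j => (1 - p * x j) ^ n *
        (∏ k ∈ range n, del j x k / (del j x k - x j)) * G p n l (del j x) *
          (∏ i : Fin (n + 1), ∏ k ∈ Finset.Ioi i, (x k - x i)))]
  refine Finset.sum_congr rfl fun j _ => ?_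
  have h1 : (Matrix.of fun i j : Fin (n + 1) =>
      (sys p (n + 1) (Fin.snoc (α := fun _ => ℕ) l 0) i).eval (x j)) 0 j = (1 - p * x j) ^ n := by
    rw [Matrix.of_apply, sys_snoc_zero]
    simp
  have h2 : ((Matrix.of fun i j : Fin (n + 1) =>
      (sys p (n + 1) (Fin.snoc (α := fun _ => ℕ) l 0) i).eval (x j)).submatrix Fin.succ
        j.succAbove) = Matrix.of fun i k : Fin n =>
          del j x k * (Matrix.of fun i k : Fin n => (sys p n l i).eval (del j x k)) i k := by
    ext i k
    rw [Matrix.submatrix_apply, Matrix.of_apply, Matrix.of_apply, Matrix.of_apply, sys_snoc_succ,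
      del_succAbove n x j k, eval_mul, eval_X]
  rw [h1, h2, Matrix.det_mul_row, ND_vdm, G_eq_ND p n l hl (del j x) fun k _ =>
    ⟨(posPt_del p x hx j k).1.ne', by have := (posPt_del p x hx j k).2; linarith⟩]
  have h3 : (∏ k ∈ range n, (del j x k - x j)) ≠ 0 := by
    refine Finset.prod_ne_zero_iff.2 fun k hk h0 => ?_
    rw [Finset.mem_range] at hk
    unfold del at h0
    split at h0
    · have := hd k (by omega) j (by omega) (by linarith)
      omega
    · have := hd (k + 1) (by omega) j (by omega) (by linarith)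
      omega
  rw [vdm_succAbove n x j, Finset.prod_div_distrib, Fin.prod_univ_eq_prod_range (fun k => del j x k)]
  field_simp

end Pool.Agent.GroB
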