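import Pool.Agent.Lib_MP_58440c_pr.Uniq
import Pool.Agent.Lib_MP_58440c_pr.ColG

/-!
# Piece COLF: removing the first column, explicit formula

`Φ` with coefficients `c n` of `prodF Φ n` (`IsCoef`), all `n`. `Φ` is continuous on `(0,1]` with
`Φ(t) → φ₀ = c 1 0` as `t → 0+` (`Φ t = ∑' c_1(k) t^k` from `IsCoef p 1`).
1. `coef_snoc`: `c (n+1) (snoc l 0) = φ₀ * c n l`. Both sides (as functions of `l`) are `IsCoef`
   coefficients of `φ₀ * prodF Φ n`: let coordinate `n` tend to `0+` in
   `∑' c (n+1) l G p (n+1) l x = prodF Φ n x * Φ (x n)` (dominated convergence, `G_last_zero`,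
   as in piece UNIQ), and use `isCoef_unique`.
2. `Pf p n c x = ∑' l, c (l + 1) * G p n l x`. `col_split`: `split_sum` and `G_add_one`.
3. `col_formula`: for distinct points insert `col_G` and sum:
   `∑' l, c n l * G p n l (del j x) = prodF Φ n (del j x)`.
-/

open Finset Polynomial Filter Topology

namespace Pool.Agent.GroB

/-- the function obtained by removing the first column -/
noncomputable def Pf (p : ℝ) (n : ℕ) (c : (Fin n → ℕ) → ℝ) (x : ℕ → ℝ) : ℝ :=
  ∑' l : Fin n → ℕ, c (fun i => l i + 1) * G p n l x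

/-- the sequence `x` with coordinate `n` replaced by `t` -/
def repl (n : ℕ) (t : ℝ) (x : ℕ → ℝ) : ℕ → ℝ := fun j => if j = n then t else x j

theorem repl_self (n : ℕ) (t : ℝ) (x : ℕ → ℝ) : repl n t x n = t := by simp [repl]

theorem repl_of_lt (n : ℕ) (t : ℝ) (x : ℕ → ℝ) (j : ℕ) (hj : j < n) : repl n t x j = x j := by
  simp [repl, hj.ne]

theorem unitSeq_repl (n : ℕ) (t : ℝ) (x : ℕ → ℝ) (hx : UnitSeq x) (ht : 0 < t) (ht1 : t ≤ 1) :
    UnitSeq (repl n t x) := by
  intro j
  unfold repl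
  split
  · exact ⟨ht, ht1⟩
  · exact hx j

theorem antitone_snoc_iff (n : ℕ) (l : Fin n → ℕ)
    (h : Antitone (Fin.snoc (α := fun _ => ℕ) l 0 : Fin (n + 1) → ℕ)) : Antitone l := by
  intro i j hij
  have h1 := h (show i.castSucc ≤ j.castSucc from by simpa using hij)
  rwa [Fin.snoc_castSucc, Fin.snoc_castSucc] at h1

theorem colf_snoc_inj (n : ℕ) :
    Function.Injective (fun l : Fin n → ℕ => (Fin.snoc (α := fun _ => ℕ) l 0 : Fin (n + 1) → ℕ)) := by
  intro l l' h
  funext i
  have h1 := congrFun h i.castSucc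
  simpa using h1

theorem add_one_inj (n : ℕ) :
    Function.Injective (fun l : Fin n → ℕ => (fun i => l i + 1 : Fin n → ℕ)) := by
  intro l l' h
  funext i
  have h1 := congrFun h i
  simp only at h1
  omega

/-- the limit of a `G`-positive function when the last coordinate tends to `0` -/
theorem lim_last (p : ℝ) (hp0 : 0 < p) (hp1 : p < 1) (n : ℕ) (f : (ℕ → ℝ) → ℝ)
    (c : (Fin (n + 1) → ℕ) → ℝ) (hc : IsCoef p (n + 1) f c) (x : ℕ → ℝ) (hx : UnitSeq x) :
    ∃ s, HasSum (fun l : Fin n → ℕ => c (Fin.snoc (α := fun _ => ℕ) l 0) * G p n l x) s ∧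
      Tendsto (fun t => f (repl n t x)) (𝓝[>] 0) (𝓝 s) := by
  have hone : PosPt p one := unitSeq_one.posPt hp0 hp1
  have hbound : Summable fun l => c l * G p (n + 1) l one := (hc.2.2 one unitSeq_one).summable
  set g : (Fin (n + 1) → ℕ) → ℝ := fun l => c l * G p (n + 1) l (repl n 0 x) with hg
  have hab : ∀ l, Tendsto (fun t : ℝ => c l * G p (n + 1) l (repl n t x)) (𝓝[>] 0) (𝓝 (g l)) := by
    intro l
    have hcont : Continuous fun t : ℝ => c l * G p (n + 1) l (repl n t x) := by
      refine continuous_const.mul ((G_continuous p (n + 1) l).comp ?_)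
      refine continuous_pi fun j => ?_
      unfold repl
      by_cases hj : j = n
      · simp only [if_pos hj]; exact continuous_id
      · simp only [if_neg hj]; exact continuous_const
    exact (hcont.tendsto 0).mono_left nhdsWithin_le_nhds
  have hev : ∀ᶠ t : ℝ in 𝓝[>] 0, 0 < t ∧ t ≤ 1 := by
    have h1 : Set.Ioc (0 : ℝ) 1 ∈ 𝓝[>] (0 : ℝ) := Ioc_mem_nhdsGT one_pos
    exact h1
  have hle : ∀ᶠ t : ℝ in 𝓝[>] 0, ∀ l, ‖c l * G p (n + 1) l (repl n t x)‖ ≤
      c l * G p (n + 1) l one := by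
    refine hev.mono fun t ht l => ?_
    have hu := unitSeq_repl n t x hx ht.1 ht.2
    rw [Real.norm_of_nonneg (mul_nonneg (hc.1 l) (G_nonneg p _ l _ (hu.posPt hp0 hp1)))]
    exact mul_le_mul_of_nonneg_left (G_le_one p hp0 hp1 _ l _ hu) (hc.1 l)
  have hlim := tendsto_tsum_of_dominated_convergence hbound hab hle
  have hgle : ∀ l, ‖g l‖ ≤ c l * G p (n + 1) l one := by
    intro l
    exact le_of_tendsto ((hab l).norm) (hle.mono fun t ht => ht l)
  have hgs : Summable g := Summable.of_norm_bounded hbound hgle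
  have hglast : ∀ l, g l = if l (Fin.last n) = 0 then c l * G p n (fun i => l i.castSucc) x else 0 := by
    intro l
    simp only [hg]
    rw [G_last_zero p n l _ (repl_self n 0 x)]
    split_ifs
    · rw [G_congr p n _ fun j hj => repl_of_lt n 0 x j hj]
    · rw [mul_zero]
  have hsupp : Function.support g ⊆ Set.range
      (fun l : Fin n → ℕ => (Fin.snoc (α := fun _ => ℕ) l 0 : Fin (n + 1) → ℕ)) := by
    intro l hl
    rw [Function.mem_support, hglast] at hl
    have h0 : l (Fin.last n) = 0 := by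
      by_contra h0
      rw [if_neg h0] at hl
      exact hl rfl
    refine ⟨fun i => l i.castSucc, ?_⟩
    simp only
    funext i
    induction i using Fin.lastCases with
    | last => rw [Fin.snoc_last, h0]
    | cast i => rw [Fin.snoc_castSucc]
  have hcomp : (g ∘ fun l : Fin n → ℕ => (Fin.snoc (α := fun _ => ℕ) l 0 : Fin (n + 1) → ℕ)) =
      fun l : Fin n → ℕ => c (Fin.snoc (α := fun _ => ℕ) l 0) * G p n l x := by
    funext l
    rw [Function.comp_apply, hglast, if_pos (Fin.snoc_last _ _)]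
    congr 2
    funext i
    rw [Fin.snoc_castSucc]
  refine ⟨∑' l, g l, ?_, ?_⟩
  · rw [← hcomp, (colf_snoc_inj n).hasSum_iff]
    · exact hgs.hasSum
    · intro l hl
      by_contra h
      exact hl (hsupp h)
  · refine hlim.congr' ?_
    refine hev.mono fun t ht => ?_
    exact (hc.2.2 _ (unitSeq_repl n t x hx ht.1 ht.2)).tsum_eq

theorem coef_snoc (p : ℝ) (hp0 : 0 < p) (hp1 : p < 1) (Φ : ℝ → ℝ)
    (c : ∀ n, (Fin n → ℕ) → ℝ) (hc : ∀ n, IsCoef p n (prodF Φ n) (c n)) (n : ℕ)
    (l : Fin n → ℕ) :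
    c (n + 1) (Fin.snoc (α := fun _ => ℕ) l 0) = c 1 (fun _ => 0) * c n l := by
  have h0 : Tendsto Φ (𝓝[>] 0) (𝓝 (c 1 (fun _ => 0))) := by
    obtain ⟨s, hs, ht⟩ := lim_last p hp0 hp1 0 (prodF Φ 1) (c 1) (hc 1) one unitSeq_one
    have e1 : s = c 1 (fun _ => 0) := by
      have h1 : HasSum (fun l : Fin 0 → ℕ => c 1 (Fin.snoc (α := fun _ => ℕ) l 0) * G p 0 l one)
          (c 1 (Fin.snoc (α := fun _ => ℕ) (default : Fin 0 → ℕ) 0) * G p 0 default one) := by
        exact hasSum_unique _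
      rw [hs.unique h1]
      have e2 : (Fin.snoc (α := fun _ => ℕ) (default : Fin 0 → ℕ) 0 : Fin 1 → ℕ) = fun _ => 0 := by
        funext i
        have : i = Fin.last 0 := by
          apply Fin.ext
          have := i.2
          simp
          try omega
        rw [this, Fin.snoc_last]
      rw [e2]
      simp [G]
    rw [← e1]
    refine ht.congr fun t => ?_
    simp [prodF, repl]
  have hA : IsCoef p n (fun x => c 1 (fun _ => 0) * prodF Φ n x)
      (fun l => c (n + 1) (Fin.snoc (α := fun _ => ℕ) l 0)) := by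
    refine ⟨fun l => (hc (n + 1)).1 _, fun l hl => (hc (n + 1)).2.1 _ fun h =>
      hl (antitone_snoc_iff n l h), fun x hx => ?_⟩
    obtain ⟨s, hs, ht⟩ := lim_last p hp0 hp1 n (prodF Φ (n + 1)) (c (n + 1)) (hc (n + 1)) x hx
    have e1 : Tendsto (fun t => prodF Φ (n + 1) (repl n t x)) (𝓝[>] 0)
        (𝓝 (prodF Φ n x * c 1 (fun _ => 0))) := by
      refine (h0.const_mul (prodF Φ n x)).congr fun t => ?_
      unfold prodF
      rw [Finset.prod_range_succ, repl_self]
      congr 1
      refine Finset.prod_congr rfl fun j hj => ?_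
      rw [repl_of_lt n t x j (Finset.mem_range.1 hj)]
    have e2 := tendsto_nhds_unique ht e1
    simp only
    rw [mul_comm, ← e2]
    exact hs
  have hB : IsCoef p n (fun x => c 1 (fun _ => 0) * prodF Φ n x)
      (fun l => c 1 (fun _ => 0) * c n l) := by
    refine ⟨fun l => mul_nonneg ((hc 1).1 _) ((hc n).1 _), fun l hl => by
      simp only
      rw [(hc n).2.1 l hl, mul_zero], fun x hx => ?_⟩
    have h1 := ((hc n).2.2 x hx).mul_left (c 1 (fun _ => 0))
    refine h1.congr_fun ?_ 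
    intro l
    ring
  exact congrFun (isCoef_unique p hp0 hp1 n _ _ _ hA hB) l

theorem antitone_add_one_iff (n : ℕ) (l : Fin n → ℕ) :
    Antitone (fun i => l i + 1) ↔ Antitone l := by
  constructor
  · intro h i j hij
    have := h hij
    simp only at this
    omega
  · intro h i j hij
    have := h hij
    simp only
    omega

theorem Pf_gpos (p : ℝ) (hp0 : 0 < p) (hp1 : p < 1) (Φ : ℝ → ℝ)
    (c : ∀ n, (Fin n → ℕ) → ℝ) (hc : ∀ n, IsCoef p n (prodF Φ n) (c n)) (n : ℕ) :
    IsCoef p n (Pf p n (c n)) (fun l => c n (fun i => l i + 1)) := by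
  refine ⟨fun l => (hc n).1 _, fun l hl => (hc n).2.1 _ fun h =>
    hl ((antitone_add_one_iff n l).1 h), fun x hx => ?_⟩
  have hx0 : (∏ j ∈ range n, x j) ≠ 0 := Finset.prod_ne_zero_iff.2 fun j _ => (hx j).1.ne'
  have hs : Summable fun l : Fin n → ℕ => c n (fun i => l i + 1) * G p n (fun i => l i + 1) x :=
    (((hc n).2.2 x hx).summable).comp_injective (add_one_inj n)
  have hs2 : Summable fun l : Fin n → ℕ => c n (fun i => l i + 1) * G p n l x := by
    refine (hs.mul_left (∏ j ∈ range n, x j)⁻¹).congr fun l => ?_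
    rw [G_add_one]
    field_simp
  exact hs2.hasSum

theorem col_split (p : ℝ) (hp0 : 0 < p) (hp1 : p < 1) (Φ : ℝ → ℝ)
    (c : ∀ n, (Fin n → ℕ) → ℝ) (hc : ∀ n, IsCoef p n (prodF Φ n) (c n)) (n : ℕ) (x : ℕ → ℝ)
    (hx : UnitSeq x) :
    prodF Φ (n + 1) x =
      c 1 (fun _ => 0) *
          ∑' l : Fin n → ℕ, c n l * G p (n + 1) (Fin.snoc (α := fun _ => ℕ) l 0) x +
        (∏ j ∈ range (n + 1), x j) * Pf p (n + 1) (c (n + 1)) x := by
  have h := (hc (n + 1)).2.2 x hx
  have hs := split_sum n (fun l => c (n + 1) l * G p (n + 1) l x) (fun l hl => by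
    rw [(hc (n + 1)).2.1 l hl, zero_mul]) h.summable
  rw [← h.tsum_eq, hs.2.2]
  congr 1
  · rw [← tsum_mul_left]
    refine tsum_congr fun l => ?_
    rw [coef_snoc p hp0 hp1 Φ c hc n l]
    ring
  · unfold Pf
    rw [← tsum_mul_left]
    refine tsum_congr fun l => ?_
    rw [G_add_one]
    ring

theorem unitSeq_del (x : ℕ → ℝ) (hx : UnitSeq x) (j : ℕ) : UnitSeq (del j x) := by
  intro i
  unfold del
  split
  · exact hx i
  · exact hx (i + 1)

/-- the formula for `Pf` at distinct points -/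
theorem col_formula (p : ℝ) (hp0 : 0 < p) (hp1 : p < 1) (Φ : ℝ → ℝ)
    (c : ∀ n, (Fin n → ℕ) → ℝ) (hc : ∀ n, IsCoef p n (prodF Φ n) (c n)) (n : ℕ) (x : ℕ → ℝ)
    (hx : UnitSeq x) (hd : ∀ i ≤ n, ∀ j ≤ n, x i = x j → i = j) :
    (∏ j ∈ range (n + 1), x j) * Pf p (n + 1) (c (n + 1)) x =
      prodF Φ (n + 1) x - c 1 (fun _ => 0) *
        ∑ j ∈ range (n + 1), (1 - p * x j) ^ n *
          (∏ k ∈ range n, del j x k / (del j x k - x j)) * prodF Φ n (del j x) := by
  have h1 := col_split p hp0 hp1 Φ c hc n x hx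
  have h2 : HasSum (fun l : Fin n → ℕ => c n l * G p (n + 1) (Fin.snoc (α := fun _ => ℕ) l 0) x)
      (∑ j ∈ range (n + 1), (1 - p * x j) ^ n *
          (∏ k ∈ range n, del j x k / (del j x k - x j)) * prodF Φ n (del j x)) := by
    have h3 : ∀ j ∈ range (n + 1), HasSum (fun l : Fin n → ℕ => (1 - p * x j) ^ n *
          (∏ k ∈ range n, del j x k / (del j x k - x j)) * (c n l * G p n l (del j x)))
        ((1 - p * x j) ^ n *
          (∏ k ∈ range n, del j x k / (del j x k - x j)) * prodF Φ n (del j x)) := fun j _ =>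
      ((hc n).2.2 (del j x) (unitSeq_del x hx j)).mul_left _
    refine (hasSum_sum h3).congr_fun ?_
    intro l
    by_cases hl : Antitone l
    · rw [col_G p n l hl x (hx.posPt hp0 hp1) hd, Finset.mul_sum]
      refine Finset.sum_congr rfl fun j _ => ?_
      ring
    · rw [(hc n).2.1 l hl]
      simp
  rw [h2.tsum_eq] at h1
  linarith

end Pool.Agent.GroB
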