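import Pool.Agent.Lib_MP_58440c_pr.ColF
import Pool.Agent.Lib_MP_58440c_pr.ColAlg

/-!
# Piece COLR: the recursion

For distinct points (`x 0, …, x n`): `col_formula` says, with `Ψ k = x k * Φ (x k)`,
`(∏_{j<m} x j) Pf p m (c m) x = prodF Φ m x - φ₀ FA p m x Ψ` (`m ≥ 1`; rewrite the products over
`del j x` as products over `(range m).erase j`), for `m = n+1, n` and the shifted sequence. Multiply the
claim by `∏_{j ≤ n} x j` and use `FA_rec` and `(1 - p x_0) x_n - (1 - p x_n) x_0 = x_n - x_0`.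
`col_rec`: both sides are continuous in `x` on `UnitSeq`s (`Pf` by dominated convergence, `Φ` on
`(0,1]`), and every `UnitSeq` is a limit of `UnitSeq`s with distinct `x 0, …, x n`
(e.g. `x_j * (1 - ε (j+1))`-type perturbations, or `x_j (1 - ε)^(j+1)`; distinct for small `ε > 0`
outside a finite set).
-/

open Finset Polynomial Filter Topology

namespace Pool.Agent.GroB

theorem isCoef_continuousOn (p : ℝ) (hp0 : 0 < p) (hp1 : p < 1) (n : ℕ) (f : (ℕ → ℝ) → ℝ)
    (c : (Fin n → ℕ) → ℝ) (hc : IsCoef p n f c) : ContinuousOn f {x | UnitSeq x} := by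
  have h1 : ContinuousOn (fun x : ℕ → ℝ => ∑' l, c l * G p n l x) {x | UnitSeq x} := by
    refine continuousOn_tsum (u := fun l => c l * G p n l one)
      (fun l => (continuous_const.mul (G_continuous p n l)).continuousOn)
      (hc.2.2 one unitSeq_one).summable ?_
    intro l x hx
    have hx' : UnitSeq x := hx
    rw [Real.norm_of_nonneg (mul_nonneg (hc.1 l) (G_nonneg p _ l _ (hx'.posPt hp0 hp1)))]
    exact mul_le_mul_of_nonneg_left (G_le_one p hp0 hp1 _ l _ hx') (hc.1 l)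
  refine h1.congr ?_
  intro x hx
  exact (hc.2.2 x hx).tsum_eq.symm

theorem phi_continuousOn (p : ℝ) (hp0 : 0 < p) (hp1 : p < 1) (Φ : ℝ → ℝ)
    (h1 : GPos p 1 (prodF Φ 1)) : ContinuousOn Φ (Set.Ioc 0 1) := by
  obtain ⟨c, hc⟩ := h1
  have h2 := isCoef_continuousOn p hp0 hp1 1 _ c hc
  have h3 : ContinuousOn (fun t : ℝ => prodF Φ 1 (fun _ : ℕ => t)) (Set.Ioc 0 1) := by
    refine ContinuousOn.comp (g := prodF Φ 1) (f := fun t : ℝ => fun _ : ℕ => t) h2 ?_ ?_
    · exact (continuous_pi fun _ => continuous_id).continuousOn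
    · intro t ht j
      exact ht
  refine h3.congr fun t _ => ?_
  simp [prodF]

theorem colrec_prod_del (m j : ℕ) (hj : j ≤ m) (x : ℕ → ℝ) (h : ℝ → ℝ) :
    ∏ k ∈ range m, h (del j x k) = ∏ k ∈ (range (m + 1)).erase j, h (x k) := by
  refine Finset.prod_nbij' (fun k => if k < j then k else k + 1)
    (fun k => if k < j then k else k - 1) ?_ ?_ ?_ ?_ ?_
  · intro k hk
    rw [Finset.mem_range] at hk
    rw [Finset.mem_erase, Finset.mem_range]
    split_ifs <;> omega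
  · intro k hk
    rw [Finset.mem_erase, Finset.mem_range] at hk
    rw [Finset.mem_range]
    split_ifs <;> omega
  · intro k hk
    rw [Finset.mem_range] at hk
    split_ifs <;> omega
  · intro k hk
    rw [Finset.mem_erase, Finset.mem_range] at hk
    split_ifs <;> omega
  · intro k hk
    unfold del
    split_ifs <;> rfl

theorem Pf_FA (p : ℝ) (hp0 : 0 < p) (hp1 : p < 1) (Φ : ℝ → ℝ)
    (c : ∀ n, (Fin n → ℕ) → ℝ) (hc : ∀ n, IsCoef p n (prodF Φ n) (c n)) (m : ℕ) (x : ℕ → ℝ)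
    (hx : UnitSeq x) (hd : ∀ i ≤ m, ∀ j ≤ m, x i = x j → i = j) :
    (∏ j ∈ range (m + 1), x j) * Pf p (m + 1) (c (m + 1)) x =
      prodF Φ (m + 1) x - c 1 (fun _ => 0) * FA p (m + 1) x (fun k => x k * Φ (x k)) := by
  rw [col_formula p hp0 hp1 Φ c hc m x hx hd]
  congr 2
  unfold FA
  refine Finset.sum_congr rfl fun j hj => ?_
  rw [Finset.mem_range] at hj
  rw [mul_assoc]
  congr 1
  unfold prodF
  rw [colrec_prod_del m j (by omega) x (fun y => y / (y - x j)), colrec_prod_del m j (by omega) x Φ,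
    ← Finset.prod_mul_distrib]
  refine Finset.prod_congr rfl fun k _ => ?_
  ring

theorem col_rec_distinct (p : ℝ) (hp0 : 0 < p) (hp1 : p < 1) (Φ : ℝ → ℝ)
    (c : ∀ n, (Fin n → ℕ) → ℝ) (hc : ∀ n, IsCoef p n (prodF Φ n) (c n)) (n : ℕ) (hn : 1 ≤ n)
    (x : ℕ → ℝ) (hx : UnitSeq x) (hd : ∀ i ≤ n, ∀ j ≤ n, x i = x j → i = j) :
    (x n - x 0) * Pf p (n + 1) (c (n + 1)) x =
      (1 - p * x 0) * Φ (x n) * Pf p n (c n) x -
        (1 - p * x n) * Φ (x 0) * Pf p n (c n) (fun j => x (j + 1)) := by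
  obtain ⟨m, rfl⟩ : ∃ m, n = m + 1 := ⟨n - 1, by omega⟩
  have hX : (∏ j ∈ range (m + 1 + 1), x j) ≠ 0 :=
    Finset.prod_ne_zero_iff.2 fun j _ => (hx j).1.ne'
  have hsh : UnitSeq (fun j => x (j + 1)) := fun j => hx (j + 1)
  have h1 := Pf_FA p hp0 hp1 Φ c hc (m + 1) x hx hd
  have h2 := Pf_FA p hp0 hp1 Φ c hc m x hx fun i hi j hj h => hd i (by omega) j (by omega) h
  have h3 := Pf_FA p hp0 hp1 Φ c hc m (fun j => x (j + 1)) hsh fun i hi j hj h => by
    have := hd (i + 1) (by omega) (j + 1) (by omega) h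
    omega
  have h4 := FA_rec p (m + 1) (by omega) x (fun k => x k * Φ (x k)) hd
  have h5 : prodF Φ (m + 1 + 1) x = prodF Φ (m + 1) x * Φ (x (m + 1)) := by
    unfold prodF
    rw [Finset.prod_range_succ]
  have h6 : prodF Φ (m + 1 + 1) x = prodF Φ (m + 1) (fun j => x (j + 1)) * Φ (x 0) := by
    unfold prodF
    rw [Finset.prod_range_succ']
  have h7 : (∏ j ∈ range (m + 1 + 1), x j) = (∏ j ∈ range (m + 1), x j) * x (m + 1) :=
    Finset.prod_range_succ _ _
  have h8 : (∏ j ∈ range (m + 1 + 1), x j) = (∏ j ∈ range (m + 1), x (j + 1)) * x 0 :=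
    Finset.prod_range_succ' _ _
  refine mul_left_cancel₀ hX ?_
  have e1 : (∏ j ∈ range (m + 1 + 1), x j) * ((x (m + 1) - x 0) * Pf p (m + 1 + 1) (c (m + 1 + 1)) x)
      = (x (m + 1) - x 0) * (prodF Φ (m + 1 + 1) x - c 1 (fun _ => 0) *
        FA p (m + 1 + 1) x (fun k => x k * Φ (x k))) := by
    rw [← h1]; ring
  have e2 : (∏ j ∈ range (m + 1 + 1), x j) *
      ((1 - p * x 0) * Φ (x (m + 1)) * Pf p (m + 1) (c (m + 1)) x) =
      (1 - p * x 0) * (x (m + 1) * Φ (x (m + 1))) * (prodF Φ (m + 1) x - c 1 (fun _ => 0) *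
        FA p (m + 1) x (fun k => x k * Φ (x k))) := by
    rw [← h2, h7]; ring
  have e3 : (∏ j ∈ range (m + 1 + 1), x j) *
      ((1 - p * x (m + 1)) * Φ (x 0) * Pf p (m + 1) (c (m + 1)) (fun j => x (j + 1))) =
      (1 - p * x (m + 1)) * (x 0 * Φ (x 0)) * (prodF Φ (m + 1) (fun j => x (j + 1)) -
        c 1 (fun _ => 0) * FA p (m + 1) (fun j => x (j + 1)) (fun k => x (k + 1) * Φ (x (k + 1)))) := by
    rw [← h3, h8]; ring
  rw [e1, mul_sub (∏ j ∈ range (m + 1 + 1), x j), e2, e3]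
  have e4 : (x (m + 1) - x 0) * (c 1 (fun _ => 0) * FA p (m + 1 + 1) x (fun k => x k * Φ (x k))) =
      c 1 (fun _ => 0) * ((x (m + 1) - x 0) * FA p (m + 1 + 1) x (fun k => x k * Φ (x k))) := by
    ring
  rw [mul_sub (x (m + 1) - x 0), e4, h4]
  have e5 : prodF Φ (m + 1) x * Φ (x (m + 1)) = prodF Φ (m + 1) (fun j => x (j + 1)) * Φ (x 0) := by
    rw [← h5, ← h6]
  rw [h5]
  linear_combination (p * x (m + 1) * x 0 - x 0) * e5

theorem col_rec (p : ℝ) (hp0 : 0 < p) (hp1 : p < 1) (Φ : ℝ → ℝ)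
    (c : ∀ n, (Fin n → ℕ) → ℝ) (hc : ∀ n, IsCoef p n (prodF Φ n) (c n)) (n : ℕ) (hn : 1 ≤ n)
    (x : ℕ → ℝ) (hx : UnitSeq x) :
    (x n - x 0) * Pf p (n + 1) (c (n + 1)) x =
      (1 - p * x 0) * Φ (x n) * Pf p n (c n) x -
        (1 - p * x n) * Φ (x 0) * Pf p n (c n) (fun j => x (j + 1)) := by
  set S : Set (ℕ → ℝ) := {x | UnitSeq x} with hS
  set y : ℝ → ℕ → ℝ := fun t j => x j * t ^ (j + 1) with hy
  have hPc : ∀ m, ContinuousOn (Pf p m (c m)) S := fun m =>
    isCoef_continuousOn p hp0 hp1 m _ _ (Pf_gpos p hp0 hp1 Φ c hc m)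
  have hΦ : ContinuousOn Φ (Set.Ioc 0 1) := phi_continuousOn p hp0 hp1 Φ ⟨c 1, hc 1⟩
  have hΦn : ∀ k, ContinuousOn (fun x : ℕ → ℝ => Φ (x k)) S := by
    intro k
    refine hΦ.comp (continuous_apply k).continuousOn ?_
    intro x hx
    exact hx k
  have hsh : ContinuousOn (fun x : ℕ → ℝ => Pf p n (c n) (fun j => x (j + 1))) S := by
    refine (hPc n).comp (continuous_pi fun j => continuous_apply (j + 1)).continuousOn ?_
    intro x hx j
    exact hx (j + 1)
  have hap : ∀ k, ContinuousOn (fun x : ℕ → ℝ => x k) S := fun k => (continuous_apply k).continuousOn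
  have hL : ContinuousOn (fun x : ℕ → ℝ => (x n - x 0) * Pf p (n + 1) (c (n + 1)) x -
      ((1 - p * x 0) * Φ (x n) * Pf p n (c n) x -
        (1 - p * x n) * Φ (x 0) * Pf p n (c n) (fun j => x (j + 1)))) S := by
    refine ((((hap n).sub (hap 0)).mul (hPc (n + 1))).sub ?_)
    refine ContinuousOn.sub ?_ ?_
    · exact ((continuousOn_const.sub (continuousOn_const.mul (hap 0))).mul (hΦn n)).mul (hPc n)
    · exact ((continuousOn_const.sub (continuousOn_const.mul (hap n))).mul (hΦn 0)).mul hsh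
  have hev : ∀ᶠ t : ℝ in 𝓝[<] 1, 0 < t ∧ t < 1 := by
    have h1 : Set.Ioo (0 : ℝ) 1 ∈ 𝓝[<] (1 : ℝ) := Ioo_mem_nhdsLT one_pos
    exact h1
  have hyS : ∀ᶠ t : ℝ in 𝓝[<] 1, y t ∈ S := by
    refine hev.mono fun t ht j => ?_
    have h1 : 0 < t ^ (j + 1) := pow_pos ht.1 _
    have h2 : t ^ (j + 1) ≤ 1 := pow_le_one₀ ht.1.le ht.2.le
    exact ⟨mul_pos (hx j).1 h1, mul_le_one₀ (hx j).2 h1.le h2⟩
  have hy1 : y 1 = x := by
    funext j
    simp [hy]
  have hyc : Continuous y := by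
    refine continuous_pi fun j => ?_
    simp only [hy]
    fun_prop
  have hyt : Tendsto y (𝓝[<] 1) (𝓝[S] x) := by
    rw [tendsto_nhdsWithin_iff]
    refine ⟨?_, hyS⟩
    have := (hyc.tendsto 1).mono_left (nhdsWithin_le_nhds (s := Set.Iio 1))
    rwa [hy1] at this
  have hdist : ∀ᶠ t : ℝ in 𝓝[<] 1, ∀ i ∈ range (n + 1), ∀ j ∈ range (n + 1),
      y t i = y t j → i = j := by
    rw [Filter.eventually_all_finset]
    intro i _
    rw [Filter.eventually_all_finset]
    intro j _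
    by_cases hij : i = j
    · exact Filter.Eventually.of_forall fun t _ => hij
    by_cases hxx : x i = x j
    · refine hev.mono fun t ht h => ?_
      simp only [hy] at h
      rw [hxx] at h
      have h2 := mul_left_cancel₀ (hx j).1.ne' h
      have h3 := pow_right_injective₀ ht.1 ht.2.ne h2
      omega
    · have h1 : Tendsto (fun t => y t i - y t j) (𝓝[<] 1) (𝓝 (x i - x j)) := by
        have hc1 : Continuous fun t => y t i - y t j :=
          ((continuous_apply i).comp hyc).sub ((continuous_apply j).comp hyc)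
        have := (hc1.tendsto 1).mono_left (nhdsWithin_le_nhds (s := Set.Iio 1))
        rwa [hy1] at this
      have h2 : ∀ᶠ t in 𝓝[<] 1, y t i - y t j ≠ 0 :=
        h1.eventually_ne (sub_ne_zero.2 hxx)
      refine h2.mono fun t ht h => ?_
      exact absurd (sub_eq_zero.2 h) ht
  have hlim := (hL.continuousWithinAt (show x ∈ S from hx)).tendsto.comp hyt
  have hzero : ∀ᶠ t in 𝓝[<] (1 : ℝ), ((fun x : ℕ → ℝ => (x n - x 0) * Pf p (n + 1) (c (n + 1)) x -
      ((1 - p * x 0) * Φ (x n) * Pf p n (c n) x -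
        (1 - p * x n) * Φ (x 0) * Pf p n (c n) (fun j => x (j + 1)))) ∘ y) t = 0 := by
    filter_upwards [hyS, hdist] with t ht1 ht2
    have h1 := col_rec_distinct p hp0 hp1 Φ c hc n hn (y t) ht1 fun i hi j hj h =>
      ht2 i (Finset.mem_range.2 (by omega)) j (Finset.mem_range.2 (by omega)) h
    simp only [Function.comp_apply]
    rw [h1]
    ring
  have hfin := tendsto_nhds_unique (hlim.congr' hzero) tendsto_const_nhds
  linarith

/-- the form used: the last point is `1` -/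
theorem col_rec_one (p : ℝ) (hp0 : 0 < p) (hp1 : p < 1) (Φ : ℝ → ℝ) (hΦ1 : Φ 1 = 1)
    (c : ∀ n, (Fin n → ℕ) → ℝ) (hc : ∀ n, IsCoef p n (prodF Φ n) (c n)) (n k : ℕ)
    (hn : k + 1 ≤ n) (z : ℝ) (hz : 0 < z) (hz1 : z ≤ 1) (y : ℕ → ℝ) (hy : UnitSeq y)
    (hy1 : ∀ j, k ≤ j → y j = 1) :
    (1 - z) * Pf p (n + 1) (c (n + 1)) (cons z y) =
      (1 - p * z) * Pf p n (c n) (cons z y) - (1 - p) * Φ z * Pf p n (c n) y := by
  have h := col_rec p hp0 hp1 Φ c hc n (by omega) (cons z y) (by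
    intro j
    cases j with
    | zero => exact ⟨hz, hz1⟩
    | succ j => exact hy j)
  have hn' : cons z y n = 1 := by
    obtain ⟨m, rfl⟩ : ∃ m, n = m + 1 := ⟨n - 1, by omega⟩
    simp only [cons_succ]
    exact hy1 m (by omega)
  rw [hn'] at h
  simp only [cons_zero, cons_succ, hΦ1, mul_one] at h
  exact h

end Pool.Agent.GroB
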