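import Pool.Agent.Lib_MP_58440c_pr.Moments
import Pool.Agent.Lib_MP_58440c_pr.GDeriv

/-!
# Piece CV1: expectations for general base points

Same as `exp_T` (file Typ1.lean), which is the case `x = one`: for `z ∈ (0,1]`,
`∑' c l * (GP p n l x).eval z = prodF Φ (n+1) (cons z x) = Φ z * prodF Φ n x`, nonnegative
coefficients, Tonelli, `ps_unique`: `∑' l, c l * (GP p n l x).coeff k = φ k * prodF Φ n x`; Tonelli
again.
-/

open Finset Polynomial Filter Topology

namespace Pool.Agent.GroB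

open MomAux in
theorem exp_TX (p : ℝ) (hp0 : 0 < p) (hp1 : p < 1) (Φ : ℝ → ℝ) (hΦ1 : Φ 1 = 1) (n : ℕ)
    (c : (Fin (n + 1) → ℕ) → ℝ) (hc : IsCoef p (n + 1) (prodF Φ (n + 1)) c) (φ : ℕ → ℝ)
    (hφ : ∀ k, 0 ≤ φ k) (hsum : ∀ z, 0 < z → z ≤ 1 → HasSum (fun k => φ k * z ^ k) (Φ z))
    (h2 : Summable fun k : ℕ => (k : ℝ) ^ 2 * φ k) (x : ℕ → ℝ) (hx : UnitSeq x) :
    HasSum (fun l => c l * T p n l x) ((∑' k : ℕ, (k : ℝ) * φ k) * prodF Φ n x) ∧
      HasSum (fun l => c l * T2 p n l x)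
        ((∑' k : ℕ, (k : ℝ) * (k - 1) * φ k) * prodF Φ n x) := by
  obtain ⟨hc0, -, hs⟩ := hc
  have hP : PosPt p x := hx.posPt hp0 hp1
  have hkk : ∀ k : ℕ, 0 ≤ (k : ℝ) * (k - 1) := by
    intro k
    cases k with
    | zero => simp
    | succ k => push_cast; simp; positivity
  have hF : ∀ z, 0 < z → z ≤ 1 → HasSum (fun l => c l * (GP p n l x).eval z)
      (Φ z * prodF Φ n x) := by
    intro z hz hz1
    have h1 := hs (cons z x) (hx.cons hz hz1)
    rw [prodF_cons] at h1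
    refine h1.congr_fun fun l => ?_
    rw [GP_eval]
  have hb : ∀ z, 0 < z → z ≤ 1 → HasSum (fun k => φ k * prodF Φ n x * z ^ k)
      (Φ z * prodF Φ n x) := by
    intro z hz hz1
    refine ((hsum z hz hz1).mul_right (prodF Φ n x)).congr_fun fun k => ?_
    ring
  have hcoef := coef_sum c hc0 (fun l => GP p n l x) (fun l k => GP_coeff_nonneg p n l x hP k) _
    hF _ hb
  have hs1 : Summable (fun k : ℕ => (k : ℝ) * φ k) := by
    refine Summable.of_nonneg_of_le (fun k => mul_nonneg (Nat.cast_nonneg k) (hφ k))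
      (fun k => ?_) h2
    apply mul_le_mul_of_nonneg_right _ (hφ k)
    have : k ≤ k ^ 2 := Nat.le_self_pow (by norm_num) k
    exact_mod_cast this
  have hs2 : Summable (fun k : ℕ => (k : ℝ) * (k - 1) * φ k) := by
    refine (h2.sub hs1).congr fun k => ?_
    ring
  constructor
  · refine tonelli (fun (k : ℕ) (l : Fin (n + 1) → ℕ) => c l * ((GP p n l x).coeff k * (k : ℝ)))
      (fun k l => mul_nonneg (hc0 l) (mul_nonneg (GP_coeff_nonneg p n l x hP k)
        (Nat.cast_nonneg k))) (fun k => (k : ℝ) * φ k * prodF Φ n x) _ (fun k => ?_) (fun l => ?_) _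
        (hs1.hasSum.mul_right _)
    · rw [mul_assoc]
      refine ((hcoef k).mul_left (k : ℝ)).congr_fun fun l => ?_
      ring
    · rw [T_eq p hp0 hp1 n l x hP]
      exact (hasSum_d1 _).mul_left (c l)
  · refine tonelli (fun (k : ℕ) (l : Fin (n + 1) → ℕ) => c l * ((GP p n l x).coeff k *
      ((k : ℝ) * (k - 1))))
      (fun k l => mul_nonneg (hc0 l) (mul_nonneg (GP_coeff_nonneg p n l x hP k)
        (hkk k))) (fun k => (k : ℝ) * (k - 1) * φ k * prodF Φ n x) _ (fun k => ?_) (fun l => ?_) _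
        (hs2.hasSum.mul_right _)
    · rw [mul_assoc ((k : ℝ) * (k - 1))]
      refine ((hcoef k).mul_left ((k : ℝ) * (k - 1))).congr_fun fun l => ?_
      ring
    · exact (hasSum_d2 _).mul_left (c l)

end Pool.Agent.GroB
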