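import Pool.Agent.Lib_MP_58440c_pr.Conv1
import Pool.Agent.Lib_MP_58440c_pr.Close

/-!
# Piece CV2: closeness in mean square

`N = k+1+L`, level `n = N+1`, `h = hh p n l x = G x/G one ∈ (0,1]`,
`δ = hh(z1 z2 x) hh(x) - hh(z1 x) hh(z2 x) = h² * (G(z1z2x)G(x) - G(z1x)G(z2x))/G(x)²`. `close_gen`:
`((z1-z2) δ)² WW L ≤ h⁴ (2 (T2+T)/G(x) + const) ≤ 2 (T2+T)/G(one) + const`. Take the expectation with
respect to `c n l * G p n l one` (`exp_TX`): `(z1-z2)² WW L ∑' M δ² ≤ C`, `WW L → ∞`.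
(`l` not antitone: `c n l = 0`.)
-/

open Finset Polynomial Filter Topology

namespace Pool.Agent.GroB

namespace CvTwo

theorem WW_pos {n : ℕ} (hn : 1 ≤ n) : 0 < WW n := by
  unfold WW
  apply Finset.sum_pos
  · intro j _
    positivity
  · exact ⟨0, mem_range.2 hn⟩

theorem phi_mem (Φ : ℝ → ℝ) (hΦ1 : Φ 1 = 1) (φ : ℕ → ℝ)
    (hφ : ∀ k, 0 ≤ φ k) (hsum : ∀ z, 0 < z → z ≤ 1 → HasSum (fun k => φ k * z ^ k) (Φ z))
    (z : ℝ) (hz : 0 < z) (hz1 : z ≤ 1) : 0 ≤ Φ z ∧ Φ z ≤ 1 := by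
  constructor
  · exact (hsum z hz hz1).nonneg (fun k => mul_nonneg (hφ k) (pow_nonneg hz.le k))
  · have h := hsum 1 one_pos le_rfl
    rw [hΦ1] at h
    apply hasSum_le _ (hsum z hz hz1) h
    intro k
    apply mul_le_mul_of_nonneg_left _ (hφ k)
    rw [one_pow]
    exact pow_le_one₀ hz.le hz1

theorem bound (p : ℝ) (hp0 : 0 < p) (hp1 : p < 1) (Φ : ℝ → ℝ) (hΦ1 : Φ 1 = 1)
    (N k L : ℕ) (hN : N = k + 1 + L) (hL : 1 ≤ L)
    (c : (Fin (N + 1) → ℕ) → ℝ) (hc : IsCoef p (N + 1) (prodF Φ (N + 1)) c) (φ : ℕ → ℝ)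
    (hφ : ∀ k, 0 ≤ φ k) (hsum : ∀ z, 0 < z → z ≤ 1 → HasSum (fun k => φ k * z ^ k) (Φ z))
    (h2 : Summable fun k : ℕ => (k : ℝ) ^ 2 * φ k) (x : ℕ → ℝ) (hx : UnitSeq x)
    (hx1 : ∀ j, k ≤ j → x j = 1) (z1 z2 : ℝ) (h1 : 0 < z1) (h1' : z1 ≤ 1)
    (hz2 : 0 < z2) (hz2' : z2 ≤ 1) :
    ((z1 - z2) ^ 2 * WW L) * (∑' l, c l * G p (N + 1) l one *
      (hh p (N + 1) l (cons z1 (cons z2 x)) * hh p (N + 1) l x -
        hh p (N + 1) l (cons z1 x) * hh p (N + 1) l (cons z2 x)) ^ 2) ≤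
      2 * ((∑' k : ℕ, (k : ℝ) * (k - 1) * φ k) + ∑' k : ℕ, (k : ℝ) * φ k) +
        (p / (1 - p) + (p / (1 - p)) ^ 2) * (k + 2) := by
  obtain ⟨hT, hT2⟩ := exp_TX p hp0 hp1 Φ hΦ1 N c hc φ hφ hsum h2 x hx
  obtain ⟨hc0, hcA, hcS⟩ := hc
  have hone : PosPt p one := unitSeq_one.posPt hp0 hp1
  have hxP := hx.posPt hp0 hp1
  set Q : ℝ := (p / (1 - p) + (p / (1 - p)) ^ 2) * (k + 2) with hQ
  have hq0 : 0 < p / (1 - p) := div_pos hp0 (by linarith)
  have hQ0 : 0 ≤ Q := by positivity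
  set μ : (Fin (N + 1) → ℕ) → ℝ := fun l => c l * G p (N + 1) l one with hμdef
  have hμ0 : ∀ l, 0 ≤ μ l := fun l => mul_nonneg (hc0 l) (G_nonneg p _ l one hone)
  have hμ1 : HasSum μ 1 := by
    have := hcS one unitSeq_one
    rwa [MomAux.prodF_one Φ hΦ1] at this
  have hh01 : ∀ y : ℕ → ℝ, UnitSeq y → ∀ l, 0 ≤ hh p (N + 1) l y ∧ hh p (N + 1) l y ≤ 1 := by
    intro y hy l
    have h1 := G_nonneg p (N + 1) l y (hy.posPt hp0 hp1)
    have h2 := G_nonneg p (N + 1) l one hone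
    exact ⟨div_nonneg h1 h2, div_le_one_of_le₀ (G_le_one p hp0 hp1 _ l y hy) h2⟩
  set δ : (Fin (N + 1) → ℕ) → ℝ := fun l => hh p (N + 1) l (cons z1 (cons z2 x)) * hh p (N + 1) l x -
        hh p (N + 1) l (cons z1 x) * hh p (N + 1) l (cons z2 x) with hδdef
  have hδb : ∀ l, |δ l| ≤ 1 := by
    intro l
    obtain ⟨a1, a2⟩ := hh01 _ ((hx.cons hz2 hz2').cons h1 h1') l
    obtain ⟨b1, b2⟩ := hh01 _ hx l
    obtain ⟨c1, c2⟩ := hh01 _ (hx.cons h1 h1') l
    obtain ⟨d1, d2⟩ := hh01 _ (hx.cons hz2 hz2') l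
    have e1 := mul_nonneg a1 b1
    have e2 := mul_le_one₀ a2 b1 b2
    have e3 := mul_nonneg c1 d1
    have e4 := mul_le_one₀ c2 d1 d2
    rw [abs_le]
    simp only [hδdef]
    constructor <;> linarith
  have hδ2 : Summable (fun l => μ l * δ l ^ 2) := by
    apply Summable.of_norm_bounded hμ1.summable
    intro l
    rw [Real.norm_eq_abs, abs_mul, abs_of_nonneg (hμ0 l)]
    apply mul_le_of_le_one_right (hμ0 l)
    rw [abs_of_nonneg (sq_nonneg _), ← sq_abs]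
    exact pow_le_one₀ (abs_nonneg _) (hδb l)
  have hW := WW_pos hL
  have hRHS : HasSum (fun l => 2 * (c l * T2 p N l x + c l * T p N l x) + Q * μ l)
      (2 * ((∑' k : ℕ, (k : ℝ) * (k - 1) * φ k) * prodF Φ N x +
        (∑' k : ℕ, (k : ℝ) * φ k) * prodF Φ N x) + Q * 1) :=
    ((hT2.add hT).mul_left 2).add (hμ1.mul_left Q)
  have hpt : ∀ l, ((z1 - z2) ^ 2 * WW L) * (μ l * δ l ^ 2) ≤
      2 * (c l * T2 p N l x + c l * T p N l x) + Q * μ l := by
    intro l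
    by_cases hl : Antitone l
    · have ho := G_pos p (N + 1) l hl one hone
      have hg := G_pos p (N + 1) l hl x hxP
      have h3 := close_gen p hp0 hp1 N k L hN hL x hx hx1 l hl z1 z2 h1 h1' hz2 hz2'
      have hgo := G_le_one p hp0 hp1 (N + 1) l x hx
      have hT0 := T_nonneg p hp0 hp1 N l x hxP
      have hT20 := T2_nonneg p N l x hxP
      have e0 : δ l = (G p (N + 1) l x / G p (N + 1) l one) ^ 2 *
          ((G p (N + 1) l (cons z1 (cons z2 x)) * G p (N + 1) l x -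
        G p (N + 1) l (cons z1 x) * G p (N + 1) l (cons z2 x)) / G p (N + 1) l x ^ 2) := by
        simp only [hδdef, hh]
        field_simp
      have e00 : μ l = c l * G p (N + 1) l one := rfl
      rw [e0, e00]
      have hcl := hc0 l
      generalize G p (N + 1) l (cons z1 (cons z2 x)) = U at *
      generalize G p (N + 1) l x = g at *
      generalize G p (N + 1) l (cons z1 x) = G1 at *
      generalize G p (N + 1) l (cons z2 x) = G2 at *
      generalize G p (N + 1) l one = o at *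
      generalize T p N l x = t0 at *
      generalize T2 p N l x = tt at *
      set h : ℝ := g / o with hhdef
      have hh0 : 0 < h := by positivity
      have hh1 : h ≤ 1 := (div_le_one ho).2 hgo
      have hh4 : h ^ 4 ≤ h := by
        calc h ^ 4 ≤ h ^ 1 := pow_le_pow_of_le_one hh0.le hh1 (by norm_num)
          _ = h := pow_one h
      have hH0 : 0 ≤ (tt + t0) / g := by positivity
      calc (z1 - z2) ^ 2 * WW L * (c l * o * (h ^ 2 * ((U * g - G1 * G2) / g ^ 2)) ^ 2)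
          = (c l * o) * (h ^ 4 * (((z1 - z2) * (U * g - G1 * G2) / g ^ 2) ^ 2 * WW L)) := by ring
        _ ≤ (c l * o) * (h ^ 4 * (2 * ((tt + t0) / g) + Q)) := by
            apply mul_le_mul_of_nonneg_left _ (by positivity)
            exact mul_le_mul_of_nonneg_left h3 (by positivity)
        _ ≤ (c l * o) * (h * (2 * ((tt + t0) / g)) + Q) := by
            apply mul_le_mul_of_nonneg_left _ (by positivity)
            have e1 : h ^ 4 * (2 * ((tt + t0) / g)) ≤ h * (2 * ((tt + t0) / g)) :=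
              mul_le_mul_of_nonneg_right hh4 (by positivity)
            have e2 : h ^ 4 * Q ≤ Q := mul_le_of_le_one_left hQ0 (hh4.trans hh1)
            linarith
        _ = 2 * (c l * tt + c l * t0) + Q * (c l * o) := by
            rw [hhdef]
            field_simp
    · have e0 : μ l = 0 := by
        simp only [hμdef]
        rw [hcA l hl, zero_mul]
      rw [e0, hcA l hl]
      simp
  have hfin := hasSum_le hpt (hδ2.hasSum.mul_left _) hRHS
  have hP : 0 ≤ prodF Φ N x ∧ prodF Φ N x ≤ 1 := by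
    unfold prodF
    exact ⟨Finset.prod_nonneg fun j _ => (phi_mem Φ hΦ1 φ hφ hsum _ (hx j).1 (hx j).2).1,
      Finset.prod_le_one (fun j _ => (phi_mem Φ hΦ1 φ hφ hsum _ (hx j).1 (hx j).2).1)
      (fun j _ => (phi_mem Φ hΦ1 φ hφ hsum _ (hx j).1 (hx j).2).2)⟩
  have hA1 : 0 ≤ ∑' k : ℕ, (k : ℝ) * φ k :=
    tsum_nonneg fun k => mul_nonneg (Nat.cast_nonneg k) (hφ k)
  have hA2 : 0 ≤ ∑' k : ℕ, (k : ℝ) * (k - 1) * φ k := by
    apply tsum_nonneg
    intro k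
    apply mul_nonneg _ (hφ k)
    cases k with
    | zero => simp
    | succ k => push_cast; simp; positivity
  refine hfin.trans ?_
  have e1 := mul_le_of_le_one_right hA1 hP.2
  have e2 := mul_le_of_le_one_right hA2 hP.2
  linarith

end CvTwo

theorem conv_close (p : ℝ) (hp0 : 0 < p) (hp1 : p < 1) (Φ : ℝ → ℝ) (hΦ1 : Φ 1 = 1)
    (c : ∀ n, (Fin n → ℕ) → ℝ) (hc : ∀ n, IsCoef p n (prodF Φ n) (c n)) (φ : ℕ → ℝ)
    (hφ : ∀ k, 0 ≤ φ k) (hsum : ∀ z, 0 < z → z ≤ 1 → HasSum (fun k => φ k * z ^ k) (Φ z))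
    (h2 : Summable fun k : ℕ => (k : ℝ) ^ 2 * φ k) (k : ℕ) (x : ℕ → ℝ) (hx : UnitSeq x)
    (hx1 : ∀ j, k ≤ j → x j = 1) (z1 z2 : ℝ) (h1 : 0 < z1) (h1' : z1 ≤ 1)
    (hz2 : 0 < z2) (hz2' : z2 ≤ 1) (hne : z1 ≠ z2) :
    Tendsto (fun n => ∑' l, c n l * G p n l one *
      (hh p n l (cons z1 (cons z2 x)) * hh p n l x -
        hh p n l (cons z1 x) * hh p n l (cons z2 x)) ^ 2) atTop (𝓝 0) := by
  have hone : PosPt p one := unitSeq_one.posPt hp0 hp1
  have hzz : 0 < (z1 - z2) ^ 2 := by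
    have : z1 - z2 ≠ 0 := sub_ne_zero.mpr hne
    positivity
  set C0 : ℝ := 2 * ((∑' k : ℕ, (k : ℝ) * (k - 1) * φ k) + ∑' k : ℕ, (k : ℝ) * φ k) +
        (p / (1 - p) + (p / (1 - p)) ^ 2) * (k + 2) with hC0
  have hlim : Tendsto (fun n => C0 / ((z1 - z2) ^ 2 * WW (n - (k + 2)))) atTop (𝓝 0) :=
    Tendsto.div_atTop tendsto_const_nhds
      ((tendsto_WW.comp (tendsto_sub_atTop_nat (k + 2))).const_mul_atTop hzz)
  refine squeeze_zero' (Eventually.of_forall fun n => ?_) ?_ hlim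
  · exact tsum_nonneg fun l => mul_nonneg (mul_nonneg ((hc n).1 l) (G_nonneg p n l one hone))
      (sq_nonneg _)
  · filter_upwards [eventually_ge_atTop (k + 3)] with n hn
    obtain ⟨N, rfl⟩ : ∃ N, n = N + 1 := ⟨n - 1, by omega⟩
    have hb := CvTwo.bound p hp0 hp1 Φ hΦ1 N k (N + 1 - (k + 2)) (by omega) (by omega) (c (N + 1))
      (hc (N + 1)) φ hφ hsum h2 x hx hx1 z1 z2 h1 h1' hz2 hz2'
    have hW := CvTwo.WW_pos (n := N + 1 - (k + 2)) (by omega)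
    rw [le_div_iff₀ (by positivity), mul_comm]
    exact hb

end Pool.Agent.GroB
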