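import Pool.Agent.Lib_MP_58440c_pr.Below

/-!
# Piece PIB: `Gro` on the closed polydisc

* `Gro_bound`: `‖Gro (p:ℂ) l z‖ ≤ ((1+p)/(1-p))^(n*n) * Gro p l 1` for `‖z_i‖ ≤ 1` (induction:
  `‖skew‖ ≤ (1+p)^r ≤ ((1+p)/(1-p))^n (1-p)^r`, and `skew p l m 1 = (1-p)^r`).
* `Gro_eq_G`: induction on `n`.
-/

open Finset Filter Topology

namespace Pool.Agent.GroB

theorem Gro_eq_G {R : Type*} [CommRing R] (p : R) (n : ℕ) (l : Fin n → ℕ) (x : ℕ → R) :
    Gro p l (fun i : Fin n => x i) = G p n l x := by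
  induction n with
  | zero => rfl
  | succ n ih =>
    show ∑ m ∈ below l, Gro p m (fun i : Fin n => x i) * skew p l m (x (Fin.last n)) =
      ∑ m ∈ below l, G p n m x * skew p l m (x n)
    refine Finset.sum_congr rfl fun m _ => ?_
    rw [ih m]
    rfl

theorem skew_ofReal (p : ℝ) {n : ℕ} (l : Fin (n + 1) → ℕ) (m : Fin n → ℕ) (x : ℝ) :
    skew (p : ℂ) l m (x : ℂ) = ((skew p l m x : ℝ) : ℂ) := by
  by_cases h : m ∈ below l
  · rw [skew_of_mem _ h, skew_of_mem _ h]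
    push_cast
    rfl
  · rw [skew_of_notMem _ h, skew_of_notMem _ h]
    rfl

theorem Gro_ofReal (p : ℝ) {n : ℕ} (l : Fin n → ℕ) (x : Fin n → ℝ) :
    Gro (p : ℂ) l (fun i => (x i : ℂ)) = ((Gro p l x : ℝ) : ℂ) := by
  induction n with
  | zero => simp [Gro]
  | succ n ih =>
    show ∑ m ∈ below l, Gro (p : ℂ) m (fun i : Fin n => (x i.castSucc : ℂ)) *
        skew (p : ℂ) l m (x (Fin.last n) : ℂ) =
      ((∑ m ∈ below l, Gro p m (fun i : Fin n => x i.castSucc) *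
        skew p l m (x (Fin.last n)) : ℝ) : ℂ)
    push_cast
    refine Finset.sum_congr rfl fun m _ => ?_
    rw [ih m (fun i => x i.castSucc), skew_ofReal]

theorem Gro_one_nonneg (p : ℝ) (hp1 : p < 1) {n : ℕ} (l : Fin n → ℕ) :
    0 ≤ Gro p l (fun _ => 1) := by
  induction n with
  | zero => exact zero_le_one
  | succ n ih =>
    show 0 ≤ ∑ m ∈ below l, Gro p m (fun _ : Fin n => (1 : ℝ)) * skew p l m 1
    exact Finset.sum_nonneg fun m _ =>
      mul_nonneg (ih m) (skew_nonneg l m zero_le_one (by linarith))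

theorem skew_norm_le (p : ℝ) (hp0 : 0 < p) (hp1 : p < 1) {n : ℕ} (l : Fin (n + 1) → ℕ)
    (m : Fin n → ℕ) (w : ℂ) (hw : ‖w‖ ≤ 1) :
    ‖skew (p : ℂ) l m w‖ ≤ ((1 + p) / (1 - p)) ^ n * skew p l m 1 := by
  have h1p : 0 < 1 - p := sub_pos.2 hp1
  by_cases h : m ∈ below l
  · rw [skew_of_mem _ h, skew_of_mem _ h, one_pow, one_mul, mul_one, norm_mul, norm_pow, norm_pow]
    have h1 : ‖w‖ ^ (∑ i, l i - ∑ i, m i) ≤ 1 := pow_le_one₀ (norm_nonneg _) hw
    have h2 : ‖1 - (p : ℂ) * w‖ ≤ 1 + p := by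
      refine (norm_sub_le _ _).trans ?_
      rw [norm_one, norm_mul, Complex.norm_real, Real.norm_eq_abs, abs_of_pos hp0]
      nlinarith
    have h3 : ‖1 - (p : ℂ) * w‖ ^ rr l m ≤ (1 + p) ^ rr l m :=
      pow_le_pow_left₀ (norm_nonneg _) h2 _
    have h4 : (1 + p) ^ rr l m = ((1 + p) / (1 - p)) ^ rr l m * (1 - p) ^ rr l m := by
      rw [← mul_pow, div_mul_cancel₀ _ h1p.ne']
    have h5 : (1 : ℝ) ≤ (1 + p) / (1 - p) := by
      rw [le_div_iff₀ h1p]
      linarith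
    have h6 : ((1 + p) / (1 - p)) ^ rr l m ≤ ((1 + p) / (1 - p)) ^ n :=
      pow_le_pow_right₀ h5 (rr_le l m)
    calc ‖w‖ ^ (∑ i, l i - ∑ i, m i) * ‖1 - (p : ℂ) * w‖ ^ rr l m
        ≤ 1 * ((1 + p) / (1 - p)) ^ rr l m * (1 - p) ^ rr l m := by
          rw [mul_assoc, ← h4]
          exact mul_le_mul h1 h3 (by positivity) zero_le_one
      _ ≤ ((1 + p) / (1 - p)) ^ n * (1 - p) ^ rr l m := by
          rw [one_mul]
          exact mul_le_mul_of_nonneg_right h6 (pow_nonneg h1p.le _)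
  · rw [skew_of_notMem _ h, skew_of_notMem _ h, norm_zero, mul_zero]

theorem Gro_bound (p : ℝ) (hp0 : 0 < p) (hp1 : p < 1) {n : ℕ} (l : Fin n → ℕ) (z : Fin n → ℂ)
    (hz : ∀ i, ‖z i‖ ≤ 1) :
    ‖Gro (p : ℂ) l z‖ ≤ ((1 + p) / (1 - p)) ^ (n * n) * Gro p l (fun _ => 1) := by
  have h1p : 0 < 1 - p := sub_pos.2 hp1
  have h5 : (1 : ℝ) ≤ (1 + p) / (1 - p) := by
    rw [le_div_iff₀ h1p]
    linarith
  induction n with
  | zero => simp [Gro]
  | succ n ih =>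
    show ‖∑ m ∈ below l, Gro (p : ℂ) m (fun i : Fin n => z i.castSucc) *
        skew (p : ℂ) l m (z (Fin.last n))‖ ≤
      ((1 + p) / (1 - p)) ^ ((n + 1) * (n + 1)) *
        ∑ m ∈ below l, Gro p m (fun _ : Fin n => (1 : ℝ)) * skew p l m 1
    refine (norm_sum_le _ _).trans ?_
    rw [Finset.mul_sum]
    refine Finset.sum_le_sum fun m _ => ?_
    rw [norm_mul]
    have h1 := ih m (fun i => z i.castSucc) fun i => hz _
    have h2 := skew_norm_le p hp0 hp1 l m (z (Fin.last n)) (hz _)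
    have h3 := Gro_one_nonneg p hp1 m
    have h4 : 0 ≤ skew p l m 1 := skew_nonneg l m zero_le_one (by linarith)
    calc ‖Gro (p : ℂ) m (fun i : Fin n => z i.castSucc)‖ * ‖skew (p : ℂ) l m (z (Fin.last n))‖
        ≤ (((1 + p) / (1 - p)) ^ (n * n) * Gro p m (fun _ => 1)) *
          (((1 + p) / (1 - p)) ^ n * skew p l m 1) :=
          mul_le_mul h1 h2 (norm_nonneg _) (by positivity)
      _ = ((1 + p) / (1 - p)) ^ (n * n + n) * (Gro p m (fun _ => 1) * skew p l m 1) := by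
          rw [pow_add]; ring
      _ ≤ _ := by
          refine mul_le_mul_of_nonneg_right (pow_le_pow_right₀ h5 ?_) (mul_nonneg h3 h4)
          nlinarith

end Pool.Agent.GroB
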