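import Pool.Agent.Lib_MP_58440c_pr.Ext
import Pool.Agent.Lib_MP_58440c_pr.Close
import Pool.Agent.Lib_MP_58440c_pr.PolyB

/-!
# Piece EXTG: application to the Grothendieck graph

`link p l m = skew p l m 1 * G p n m one / G p (n+1) l one`. `Gro p m (fun _ => 1) = G p n m one`
(`Gro_eq_G`). `hext` for `ext_abs`: `M₁, M₂` are coherent systems (they vanish off the antitone
functions because `0 ≤ M₁ ≤ 2 M`; for `m` not antitone `link = 0` because `G p n m one = 0`), and
`M = ½ M₁ + ½ M₂` so `M₁ = M` by `mem_extremePoints`.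
`hK1`: for antitone `l`, `∑_{m ∈ below l} link p l m = 1` (definition of `G`, `skew = 0` off `below l`).
`hharm`: `h n l = hh p n l y`; `y n = 1` for `n ≥ k`: `∑_m link p l m * hh p n m y = hh p (n+1) l y`.
`0 ≤ hh ≤ 1`: `G_pos`, `G_le_one` (`G = 0` if `l` is not antitone).
-/


open Finset Polynomial Filter Topology

namespace Pool.Agent.GroB

/-- the expectation of `hh · y` at level `n` -/
noncomputable def SS (p : ℝ) (M : (n : ℕ) → (Fin n → ℕ) → ℝ) (n : ℕ) (y : ℕ → ℝ) : ℝ :=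
  ∑' l, M n l * hh p n l y

theorem hh_nonneg (p : ℝ) (hp0 : 0 < p) (hp1 : p < 1) (n : ℕ) (l : Fin n → ℕ) (y : ℕ → ℝ)
    (hy : UnitSeq y) : 0 ≤ hh p n l y :=
  div_nonneg (G_nonneg p n l y (hy.posPt hp0 hp1)) (G_nonneg p n l one (unitSeq_one.posPt hp0 hp1))

theorem hh_le_one (p : ℝ) (hp0 : 0 < p) (hp1 : p < 1) (n : ℕ) (l : Fin n → ℕ) (y : ℕ → ℝ)
    (hy : UnitSeq y) : hh p n l y ≤ 1 :=
  div_le_one_of_le₀ (G_le_one p hp0 hp1 n l y hy) (G_nonneg p n l one (unitSeq_one.posPt hp0 hp1))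

theorem summable_hh (p : ℝ) (hp0 : 0 < p) (hp1 : p < 1) (M : (n : ℕ) → (Fin n → ℕ) → ℝ)
    (hM : Coherent p M) (n : ℕ) (y : ℕ → ℝ) (hy : UnitSeq y) :
    HasSum (fun l => M n l * hh p n l y) (SS p M n y) := by
  refine Summable.hasSum ?_
  refine Summable.of_nonneg_of_le
    (fun l => mul_nonneg (hM.nonneg n l) (hh_nonneg p hp0 hp1 n l y hy)) (fun l => ?_)
    (hM.prob n).summable
  calc M n l * hh p n l y ≤ M n l * 1 :=
        mul_le_mul_of_nonneg_left (hh_le_one p hp0 hp1 n l y hy) (hM.nonneg n l)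
    _ = M n l := mul_one _

/-- the transition probability from level `n+1` to level `n` -/
noncomputable def linkG (p : ℝ) (n : ℕ) (l : Fin (n + 1) → ℕ) (m : Fin n → ℕ) : ℝ :=
  skew p l m 1 * G p n m one / G p (n + 1) l one

theorem linkG_nonneg (p : ℝ) (hp0 : 0 < p) (hp1 : p < 1) (n : ℕ) (l : Fin (n + 1) → ℕ)
    (m : Fin n → ℕ) : 0 ≤ linkG p n l m :=
  div_nonneg (mul_nonneg (skew_nonneg l m zero_le_one (by linarith))
    (G_nonneg p n m one (unitSeq_one.posPt hp0 hp1)))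
    (G_nonneg p (n + 1) l one (unitSeq_one.posPt hp0 hp1))

theorem linkG_eq (p : ℝ) (n : ℕ) (l : Fin (n + 1) → ℕ) (m : Fin n → ℕ) :
    skew p l m 1 * Gro p m (fun _ => 1) / Gro p l (fun _ => 1) = linkG p n l m := by
  unfold linkG
  rw [← Gro_eq_G p n m one, ← Gro_eq_G p (n + 1) l one]
  rfl

theorem linkG_hh (p : ℝ) (hp0 : 0 < p) (hp1 : p < 1) (n : ℕ) (l : Fin (n + 1) → ℕ)
    (y : ℕ → ℝ) (hn : y n = 1) :
    HasSum (fun m => linkG p n l m * hh p n m y) (hh p (n + 1) l y) := by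
  have h1 : hh p (n + 1) l y = ∑ m ∈ below l, linkG p n l m * hh p n m y := by
    unfold hh linkG
    rw [show G p (n + 1) l y = ∑ m ∈ below l, G p n m y * skew p l m (y n) from rfl, hn,
      Finset.sum_div]
    refine Finset.sum_congr rfl fun m hm => ?_
    have hpos := G_pos p n m (antitone_of_mem_below hm) one (unitSeq_one.posPt hp0 hp1)
    field_simp
  rw [h1]
  refine hasSum_sum_of_ne_finset_zero ?_
  intro m hm
  unfold linkG
  rw [skew_of_notMem p hm]
  simp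

theorem hh_one (p : ℝ) (hp0 : 0 < p) (hp1 : p < 1) (n : ℕ) (l : Fin n → ℕ) (hl : Antitone l) :
    hh p n l one = 1 :=
  div_self (G_pos p n l hl one (unitSeq_one.posPt hp0 hp1)).ne'

theorem linkG_sum (p : ℝ) (hp0 : 0 < p) (hp1 : p < 1) (n : ℕ) (l : Fin (n + 1) → ℕ)
    (hl : Antitone l) : HasSum (linkG p n l) 1 := by
  have h1 := linkG_hh p hp0 hp1 n l one rfl
  rw [hh_one p hp0 hp1 (n + 1) l hl] at h1
  have h2 : (fun m => linkG p n l m * hh p n m one) = linkG p n l := by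
    funext m
    by_cases hm : Antitone m
    · rw [hh_one p hp0 hp1 n m hm, mul_one]
    · unfold linkG
      rw [G_eq_zero p n m one hm]
      simp
  rwa [h2] at h1

theorem Coherent.link {p : ℝ} {M : (n : ℕ) → (Fin n → ℕ) → ℝ} (hM : Coherent p M) (n : ℕ)
    (m : Fin n → ℕ) : HasSum (fun l => M (n + 1) l * linkG p n l m) (M n m) := by
  by_cases hm : Antitone m
  · have h1 := hM.coh n m hm
    simpa only [linkG_eq] using h1
  · rw [hM.supp n m hm]
    have h2 : (fun l => M (n + 1) l * linkG p n l m) = fun _ => 0 := by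
      funext l
      unfold linkG
      rw [G_eq_zero p n m one hm]
      simp
    rw [h2]
    exact hasSum_zero

theorem SS_succ (p : ℝ) (hp0 : 0 < p) (hp1 : p < 1) (M : (n : ℕ) → (Fin n → ℕ) → ℝ)
    (hM : Coherent p M) (n : ℕ) (y : ℕ → ℝ) (hy : UnitSeq y) (hn : y n = 1) :
    SS p M (n + 1) y = SS p M n y := by
  have h1 := ExtAux.push_dual (linkG p n) (M (n + 1)) (M (n + 1)) (fun l => hh p (n + 1) l y)
    (fun m => hh p n m y) 1 (hM.prob (n + 1)).summable (hM.nonneg (n + 1)) (fun l => by simp)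
    (linkG_nonneg p hp0 hp1 n) (fun m => hh_nonneg p hp0 hp1 n m y hy)
    (fun l _ => hh_le_one p hp0 hp1 (n + 1) l y hy) (fun l _ => linkG_hh p hp0 hp1 n l y hn)
  have h2 : (fun m => (∑' l, M (n + 1) l * linkG p n l m) * hh p n m y) =
      fun m => M n m * hh p n m y := by
    funext m
    rw [(hM.link n m).tsum_eq]
  rw [h2] at h1
  exact h1.unique (summable_hh p hp0 hp1 M hM n y hy)

/-- for an extreme coherent system, `hh p n · y` converges in `L²(M n)` to the constant `SS` -/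
theorem ext_var (p : ℝ) (hp0 : 0 < p) (hp1 : p < 1) (M : (n : ℕ) → (Fin n → ℕ) → ℝ)
    (hM : M ∈ Set.extremePoints ℝ {M | Coherent p M}) (k : ℕ) (y : ℕ → ℝ) (hy : UnitSeq y)
    (hy1 : ∀ j, k ≤ j → y j = 1) :
    Tendsto (fun n => ∑' l, M n l * (hh p n l y - SS p M k y) ^ 2) atTop (𝓝 0) := by
  obtain ⟨hMc, hMe⟩ := mem_extremePoints.1 hM
  have hMc : Coherent p M := hMc
  have hanti : ∀ n l, M n l ≠ 0 → Antitone l := by
    intro n l h
    by_contra hl
    exact h (hMc.supp n l hl)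
  refine ext_abs (Y := fun n => Fin n → ℕ) (linkG p) M hMc.nonneg hMc.prob
    (linkG_nonneg p hp0 hp1) (fun n l hl => linkG_sum p hp0 hp1 n l (hanti _ _ hl))
    hMc.link ?_ k (fun n l => hh p n l y) (fun n _ l => hh_nonneg p hp0 hp1 n l y hy)
    (fun n _ l => hh_le_one p hp0 hp1 n l y hy)
    (fun n hn l _ => linkG_hh p hp0 hp1 n l y (hy1 n hn))
  intro M₁ M₂ h10 h20 h12 h1m h2m h1c h2c
  have hco : ∀ N : (n : ℕ) → (Fin n → ℕ) → ℝ, (∀ n l, 0 ≤ N n l) → (∀ n l, N n l ≤ 2 * M n l) →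
      (∀ n, HasSum (N n) 1) →
      (∀ n m, HasSum (fun l => N (n + 1) l * linkG p n l m) (N n m)) → Coherent p N := by
    intro N hN0 hN2 hNm hNc
    refine ⟨hN0, fun n l hl => ?_, hNm, fun n m _ => ?_⟩
    · have h1 := hN2 n l
      rw [hMc.supp n l hl, mul_zero] at h1
      exact le_antisymm h1 (hN0 n l)
    · simpa only [linkG_eq] using hNc n m
  have hc1 : Coherent p M₁ := hco M₁ h10 (fun n l => by linarith [h12 n l, h20 n l]) h1m h1c
  have hc2 : Coherent p M₂ := hco M₂ h20 (fun n l => by linarith [h12 n l, h10 n l]) h2m h2c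
  refine (hMe M₁ hc1 M₂ hc2 ?_).1
  refine ⟨1 / 2, 1 / 2, by norm_num, by norm_num, by norm_num, ?_⟩
  funext n l
  have := h12 n l
  simp only [Pi.add_apply, Pi.smul_apply, smul_eq_mul]
  linarith

end Pool.Agent.GroB
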