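import Pool.Agent.Lib_MP_58440c_pr.Typ1
import Pool.Agent.Lib_MP_58440c_pr.Close

/-!
# Piece TYP2: concentration

`M l = c (n+2) l * G p (n+2) l one` is a probability measure, `A l z = G p (n+2) l (cons z one)/G p (n+2) l one`
`∈ [0,1]`, increasing in `z`. `∑' M A(z) = Φ z`,
`∑' M * (G p (n+2) l (cons z (cons z' one))/G p (n+2) l one) = Φ z * Φ z'` (`IsCoef`).
`close_gen` (`k = 0`, `x = one`, `N = n+1`, `L = n ≥ 1`): with
`δ l = G(z,z')/G - A(z) A(z')`: `(z - z')² δ² WW n ≤ 2 (T2+T)/G + const`; expectation (`exp_T`):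
`(z-z')² WW n ∑' M δ² ≤ C0`; `|∑' M δ| ≤ (∑' M δ²)^(1/2) → 0`. So for `z ≠ z'`
`∑' M A(z) A(z') → Φ z Φ z'`.
For `z < z' ≤ 1`: `0 ≤ ∑' M (A(z) - Φ z)² = ∑' M A(z)² - Φ z² ≤ ∑' M A(z) A(z') - Φ z²
→ Φ z (Φ z' - Φ z)`; let `z' → z+` (`Φ` is continuous on `(0,1]`).
-/

open Finset Polynomial Filter Topology

namespace Pool.Agent.GroB

/-- Jensen for a probability measure on a discrete set -/
theorem typ2_var_nonneg {ι : Type*} (μ f : ι → ℝ) (hμ : ∀ l, 0 ≤ μ l) (h1 : HasSum μ 1) (s v : ℝ)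
    (hs : HasSum (fun l => μ l * f l) s) (hv : HasSum (fun l => μ l * f l ^ 2) v) (t : ℝ) :
    HasSum (fun l => μ l * (f l - t) ^ 2) (v - 2 * t * s + t ^ 2) ∧ s ^ 2 ≤ v := by
  have key : ∀ t : ℝ, HasSum (fun l => μ l * (f l - t) ^ 2) (v - 2 * t * s + t ^ 2) := by
    intro t
    have h := (hv.sub (hs.mul_left (2 * t))).add (h1.mul_left (t ^ 2))
    have e : (fun l => μ l * (f l - t) ^ 2) =
        fun l => μ l * f l ^ 2 - 2 * t * (μ l * f l) + t ^ 2 * μ l := by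
      funext l
      ring
    rw [e, show v - 2 * t * s + t ^ 2 = v - 2 * t * s + t ^ 2 * 1 by ring]
    exact h
  refine ⟨key t, ?_⟩
  have h := (key s).nonneg (fun l => mul_nonneg (hμ l) (sq_nonneg _))
  nlinarith

theorem typ2_WW_pos {n : ℕ} (hn : 1 ≤ n) : 0 < WW n := by
  unfold WW
  apply Finset.sum_pos
  · intro j _
    positivity
  · exact ⟨0, mem_range.2 hn⟩

theorem typ2_prodF_one (Φ : ℝ → ℝ) (hΦ1 : Φ 1 = 1) (n : ℕ) : prodF Φ n one = 1 := by
  unfold prodF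
  apply Finset.prod_eq_one
  intro j _
  rw [one_apply, hΦ1]

theorem typ2_prodF_cons (Φ : ℝ → ℝ) (n : ℕ) (z : ℝ) (x : ℕ → ℝ) :
    prodF Φ (n + 1) (cons z x) = Φ z * prodF Φ n x := by
  unfold prodF
  rw [Finset.prod_range_succ', mul_comm]
  rfl

theorem typ2_conc_bound (p : ℝ) (hp0 : 0 < p) (hp1 : p < 1) (Φ : ℝ → ℝ) (hΦ1 : Φ 1 = 1)
    (c : ∀ n, (Fin n → ℕ) → ℝ) (hc : ∀ n, IsCoef p n (prodF Φ n) (c n)) (φ : ℕ → ℝ)
    (hφ : ∀ k, 0 ≤ φ k) (hsum : ∀ z, 0 < z → z ≤ 1 → HasSum (fun k => φ k * z ^ k) (Φ z))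
    (h2 : Summable fun k : ℕ => (k : ℝ) ^ 2 * φ k) :
    ∃ C0 : ℝ, ∀ n : ℕ, 1 ≤ n → ∀ z z' : ℝ, 0 < z → z < z' → z' ≤ 1 →
      0 ≤ ∑' l, c (n + 2) l * G p (n + 2) l one *
          (G p (n + 2) l (cons z one) / G p (n + 2) l one - Φ z) ^ 2 ∧
        ∑' l, c (n + 2) l * G p (n + 2) l one *
          (G p (n + 2) l (cons z one) / G p (n + 2) l one - Φ z) ^ 2 ≤
        Φ z * (Φ z' - Φ z) + Real.sqrt (C0 / ((z' - z) ^ 2 * WW n)) := by
  refine ⟨2 * ((∑' k : ℕ, (k : ℝ) * (k - 1) * φ k) + ∑' k : ℕ, (k : ℝ) * φ k) +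
    (p / (1 - p) + (p / (1 - p)) ^ 2) * 2, ?_⟩
  set C0 := 2 * ((∑' k : ℕ, (k : ℝ) * (k - 1) * φ k) + ∑' k : ℕ, (k : ℝ) * φ k) +
    (p / (1 - p) + (p / (1 - p)) ^ 2) * 2 with hC0
  intro n hn z z' hz hzz hz'
  have hz1 : z ≤ 1 := hzz.le.trans hz'
  have hz0' : 0 < z' := hz.trans hzz
  obtain ⟨hc0, hcA, hcS⟩ := hc (n + 2)
  have hone : PosPt p one := unitSeq_one.posPt hp0 hp1
  have hUz : UnitSeq (cons z one) := unitSeq_one.cons hz hz1
  have hUz' : UnitSeq (cons z' one) := unitSeq_one.cons hz0' hz'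
  have hUzz' : UnitSeq (cons z (cons z' one)) := hUz'.cons hz hz1
  set μ : (Fin (n + 2) → ℕ) → ℝ := fun l => c (n + 2) l * G p (n + 2) l one with hμdef
  have hμ0 : ∀ l, 0 ≤ μ l := fun l => mul_nonneg (hc0 l) (G_nonneg p _ l one hone)
  have hμ1 : HasSum μ 1 := by
    have := hcS one unitSeq_one
    rwa [typ2_prodF_one Φ hΦ1] at this
  -- quotients
  have hq : ∀ x : ℕ → ℝ, ∀ l, μ l * (G p (n + 2) l x / G p (n + 2) l one) = c (n + 2) l * G p (n + 2) l x := by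
    intro x l
    by_cases hl : Antitone l
    · have := G_pos p (n + 2) l hl one hone
      simp only [hμdef]
      field_simp
    · simp only [hμdef]
      rw [hcA l hl]
      simp
  have hq01 : ∀ x : ℕ → ℝ, UnitSeq x → ∀ l, 0 ≤ G p (n + 2) l x / G p (n + 2) l one ∧
      G p (n + 2) l x / G p (n + 2) l one ≤ 1 := by
    intro x hx l
    have h1 := G_nonneg p (n + 2) l x (hx.posPt hp0 hp1)
    have h2 := G_nonneg p (n + 2) l one hone
    exact ⟨div_nonneg h1 h2, div_le_one_of_le₀ (G_le_one p hp0 hp1 _ l x hx) h2⟩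
  set A : (Fin (n + 2) → ℕ) → ℝ := fun l => G p (n + 2) l (cons z one) / G p (n + 2) l one with hA
  set A' : (Fin (n + 2) → ℕ) → ℝ := fun l => G p (n + 2) l (cons z' one) / G p (n + 2) l one with hA'
  set U : (Fin (n + 2) → ℕ) → ℝ := fun l => G p (n + 2) l (cons z (cons z' one)) / G p (n + 2) l one with hU
  have hA0 : ∀ l, 0 ≤ A l ∧ A l ≤ 1 := fun l => hq01 _ hUz l
  have hA0' : ∀ l, 0 ≤ A' l ∧ A' l ≤ 1 := fun l => hq01 _ hUz' l
  have hU0 : ∀ l, 0 ≤ U l ∧ U l ≤ 1 := fun l => hq01 _ hUzz' l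
  have hAA' : ∀ l, A l ≤ A' l := by
    intro l
    simp only [hA, hA']
    apply div_le_div_of_nonneg_right _ (G_nonneg p _ l one hone)
    exact G_mono_cons p (n + 2) l one hone hz.le hzz.le
  have hSA : HasSum (fun l => μ l * A l) (Φ z) := by
    have h := hcS _ hUz
    rw [typ2_prodF_cons, typ2_prodF_one Φ hΦ1, mul_one] at h
    convert h using 1
    funext l
    exact hq _ l
  have hSU : HasSum (fun l => μ l * U l) (Φ z * Φ z') := by
    have h := hcS _ hUzz'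
    rw [typ2_prodF_cons, typ2_prodF_cons, typ2_prodF_one Φ hΦ1, mul_one] at h
    convert h using 1
    funext l
    exact hq _ l
  -- summability of bounded functions
  have hbd : ∀ f : (Fin (n + 2) → ℕ) → ℝ, (∀ l, |f l| ≤ 1) → Summable (fun l => μ l * f l) := by
    intro f hf
    apply Summable.of_norm_bounded hμ1.summable
    intro l
    rw [Real.norm_eq_abs, abs_mul, abs_of_nonneg (hμ0 l)]
    exact mul_le_of_le_one_right (hμ0 l) (hf l)
  have hAsq : Summable (fun l => μ l * A l ^ 2) := hbd _ (fun l => by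
    rw [abs_of_nonneg (sq_nonneg _)]
    exact pow_le_one₀ (hA0 l).1 (hA0 l).2)
  have hAA : Summable (fun l => μ l * (A l * A' l)) := hbd _ (fun l => by
    rw [abs_of_nonneg (mul_nonneg (hA0 l).1 (hA0' l).1)]
    exact mul_le_one₀ (hA0 l).2 (hA0' l).1 (hA0' l).2)
  have hδb : ∀ l, |U l - A l * A' l| ≤ 1 := by
    intro l
    have h3 : 0 ≤ A l * A' l := mul_nonneg (hA0 l).1 (hA0' l).1
    have h4 : A l * A' l ≤ 1 := mul_le_one₀ (hA0 l).2 (hA0' l).1 (hA0' l).2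
    rw [abs_le]
    constructor
    · linarith [(hU0 l).1]
    · linarith [(hU0 l).2]
  have hδ : Summable (fun l => μ l * (U l - A l * A' l)) := hbd _ hδb
  have hδ2 : Summable (fun l => μ l * (U l - A l * A' l) ^ 2) := hbd _ (fun l => by
    rw [abs_of_nonneg (sq_nonneg _), ← sq_abs]
    exact pow_le_one₀ (abs_nonneg _) (hδb l))
  -- the bound for `δ`
  have hW := typ2_WW_pos hn
  have hzz2 : 0 < (z' - z) ^ 2 := by
    have : 0 < z' - z := by linarith
    positivity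
  obtain ⟨hT, hT2⟩ := exp_T p hp0 hp1 Φ hΦ1 (n + 1) (c (n + 2)) (hc (n + 2)) φ hφ hsum h2
  have hRHS : HasSum (fun l => 2 * (c (n + 2) l * T2 p (n + 1) l one + c (n + 2) l * T p (n + 1) l one) +
      (p / (1 - p) + (p / (1 - p)) ^ 2) * 2 * μ l) C0 := by
    have h := ((hT2.add hT).mul_left 2).add (hμ1.mul_left ((p / (1 - p) + (p / (1 - p)) ^ 2) * 2))
    rwa [mul_one] at h
  have hpt : ∀ l, ((z' - z) ^ 2 * WW n) * (μ l * (U l - A l * A' l) ^ 2) ≤
      2 * (c (n + 2) l * T2 p (n + 1) l one + c (n + 2) l * T p (n + 1) l one) +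
      (p / (1 - p) + (p / (1 - p)) ^ 2) * 2 * μ l := by
    intro l
    by_cases hl : Antitone l
    · have hg := G_pos p (n + 2) l hl one hone
      have h3 := close_gen p hp0 hp1 (n + 1) 0 n (by omega) hn one unitSeq_one (fun j _ => rfl) l hl
        z z' hz hz1 hz0' hz'
      have h4 := mul_le_mul_of_nonneg_left h3 (hμ0 l)
      have e1 : (z - z') * (G p (n + 1 + 1) l (cons z (cons z' one)) * G p (n + 1 + 1) l one -
          G p (n + 1 + 1) l (cons z one) * G p (n + 1 + 1) l (cons z' one)) / G p (n + 1 + 1) l one ^ 2 =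
          (z - z') * (U l - A l * A' l) := by
        simp only [hU, hA, hA']
        field_simp
      rw [e1] at h4
      have e2 : μ l * (2 * ((T2 p (n + 1) l one + T p (n + 1) l one) / G p (n + 1 + 1) l one) +
          (p / (1 - p) + (p / (1 - p)) ^ 2) * ((0 : ℕ) + 2)) =
          2 * (c (n + 2) l * T2 p (n + 1) l one + c (n + 2) l * T p (n + 1) l one) +
          (p / (1 - p) + (p / (1 - p)) ^ 2) * 2 * μ l := by
        have e3 : μ l * ((T2 p (n + 1) l one + T p (n + 1) l one) / G p (n + 1 + 1) l one) =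
            c (n + 2) l * (T2 p (n + 1) l one + T p (n + 1) l one) := by
          simp only [hμdef]
          rw [mul_assoc, mul_div_cancel₀ _ hg.ne']
        calc _ = 2 * (μ l * ((T2 p (n + 1) l one + T p (n + 1) l one) / G p (n + 1 + 1) l one)) +
            (p / (1 - p) + (p / (1 - p)) ^ 2) * 2 * μ l := by
              push_cast
              ring
          _ = _ := by
              rw [e3]
              ring
      rw [e2] at h4
      calc ((z' - z) ^ 2 * WW n) * (μ l * (U l - A l * A' l) ^ 2) =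
          μ l * (((z - z') * (U l - A l * A' l)) ^ 2 * WW n) := by ring
        _ ≤ _ := h4
    · have e0 : μ l = 0 := by
        simp only [hμdef]
        rw [hcA l hl, zero_mul]
      rw [e0, hcA l hl]
      simp
  have hδ2le : ((z' - z) ^ 2 * WW n) * ∑' l, μ l * (U l - A l * A' l) ^ 2 ≤ C0 := by
    have h3 := hasSum_le hpt (hδ2.hasSum.mul_left _) hRHS
    exact h3
  have hJ := (typ2_var_nonneg μ (fun l => U l - A l * A' l) hμ0 hμ1 _ _ hδ.hasSum hδ2.hasSum 0).2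
  have hs : |∑' l, μ l * (U l - A l * A' l)| ≤ Real.sqrt (C0 / ((z' - z) ^ 2 * WW n)) := by
    apply Real.abs_le_sqrt
    refine hJ.trans ?_
    rw [le_div_iff₀ (by positivity), mul_comm]
    exact hδ2le
  have hsplit : ∑' l, μ l * (U l - A l * A' l) = Φ z * Φ z' - ∑' l, μ l * (A l * A' l) := by
    have h3 := hSU.sub hAA.hasSum
    have h4 : HasSum (fun l => μ l * (U l - A l * A' l)) (Φ z * Φ z' - ∑' l, μ l * (A l * A' l)) := by
      have e : (fun l => μ l * (U l - A l * A' l)) = fun l => μ l * U l - μ l * (A l * A' l) := by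
        funext l
        ring
      rw [e]
      exact h3
    exact h4.tsum_eq
  have hmono : ∑' l, μ l * A l ^ 2 ≤ ∑' l, μ l * (A l * A' l) := by
    apply hAsq.tsum_le_tsum _ hAA
    intro l
    apply mul_le_mul_of_nonneg_left _ (hμ0 l)
    rw [sq]
    exact mul_le_mul_of_nonneg_left (hAA' l) (hA0 l).1
  have hV := (typ2_var_nonneg μ A hμ0 hμ1 _ _ hSA hAsq.hasSum (Φ z)).1
  have hfin : ∑' l, c (n + 2) l * G p (n + 2) l one *
      (G p (n + 2) l (cons z one) / G p (n + 2) l one - Φ z) ^ 2 =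
      (∑' l, μ l * A l ^ 2) - 2 * Φ z * Φ z + Φ z ^ 2 := hV.tsum_eq
  constructor
  · exact tsum_nonneg (fun l => mul_nonneg (hμ0 l) (sq_nonneg _))
  · rw [hfin]
    rw [hsplit] at hs
    have h5 := (abs_le.1 hs).1
    nlinarith [h5, hmono]

theorem typ2_phi_contOn (Φ : ℝ → ℝ) (φ : ℕ → ℝ)
    (hφ : ∀ k, 0 ≤ φ k) (hsum : ∀ z, 0 < z → z ≤ 1 → HasSum (fun k => φ k * z ^ k) (Φ z)) :
    ContinuousOn Φ (Set.Ioc 0 1) := by
  have hs : Summable φ := by
    have h := (hsum 1 one_pos le_rfl).summable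
    simpa using h
  have h : ContinuousOn (fun z : ℝ => ∑' k, φ k * z ^ k) (Set.Ioc 0 1) := by
    apply continuousOn_tsum (u := φ)
    · intro k
      fun_prop
    · exact hs
    · intro k z hz
      rw [Real.norm_eq_abs, abs_of_nonneg (mul_nonneg (hφ k) (pow_nonneg hz.1.le k))]
      exact mul_le_of_le_one_right (hφ k) (pow_le_one₀ hz.1.le hz.2)
  apply h.congr
  intro z hz
  exact ((hsum z hz.1 hz.2).tsum_eq).symm

theorem concentrate (p : ℝ) (hp0 : 0 < p) (hp1 : p < 1) (Φ : ℝ → ℝ) (hΦ1 : Φ 1 = 1)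
    (c : ∀ n, (Fin n → ℕ) → ℝ) (hc : ∀ n, IsCoef p n (prodF Φ n) (c n)) (φ : ℕ → ℝ)
    (hφ : ∀ k, 0 ≤ φ k) (hsum : ∀ z, 0 < z → z ≤ 1 → HasSum (fun k => φ k * z ^ k) (Φ z))
    (h2 : Summable fun k : ℕ => (k : ℝ) ^ 2 * φ k) (z : ℝ) (hz : 0 < z) (hz1 : z < 1) :
    Tendsto (fun n => ∑' l, c (n + 2) l * G p (n + 2) l one *
      (G p (n + 2) l (cons z one) / G p (n + 2) l one - Φ z) ^ 2) atTop (𝓝 0) := by
  obtain ⟨C0, hC0⟩ := typ2_conc_bound p hp0 hp1 Φ hΦ1 c hc φ hφ hsum h2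
  have hΦz0 : 0 ≤ Φ z := (hsum z hz hz1.le).nonneg (fun k => mul_nonneg (hφ k) (pow_nonneg hz.le k))
  have hΦz1 : Φ z ≤ 1 := by
    have h := hsum 1 one_pos le_rfl
    rw [hΦ1] at h
    apply hasSum_le _ (hsum z hz hz1.le) h
    intro k
    apply mul_le_mul_of_nonneg_left _ (hφ k)
    rw [one_pow]
    exact pow_le_one₀ hz.le hz1.le
  rw [Metric.tendsto_atTop]
  intro ε hε
  obtain ⟨d, hd, hd'⟩ := Metric.continuousOn_iff.1 (typ2_phi_contOn Φ φ hφ hsum) z ⟨hz, hz1.le⟩ (ε / 2) (by positivity)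
  set z' := min 1 (z + d / 2) with hz'
  have h1 : z < z' := lt_min hz1 (by linarith)
  have h3 : z' ≤ 1 := min_le_left _ _
  have h4 : z' ≤ z + d / 2 := min_le_right _ _
  have h5 : |Φ z' - Φ z| < ε / 2 := by
    apply hd' z' ⟨hz.trans h1, h3⟩
    rw [Real.dist_eq, abs_of_pos (by linarith)]
    linarith
  have h6 : Tendsto (fun n => Real.sqrt (C0 / ((z' - z) ^ 2 * WW n))) atTop (𝓝 0) := by
    have h7 : 0 < (z' - z) ^ 2 := by
      have : 0 < z' - z := by linarith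
      positivity
    have h8 : Tendsto (fun n => C0 / ((z' - z) ^ 2 * WW n)) atTop (𝓝 0) :=
      Tendsto.div_atTop tendsto_const_nhds (tendsto_WW.const_mul_atTop h7)
    have h9 := (Real.continuous_sqrt.tendsto 0).comp h8
    rwa [Real.sqrt_zero] at h9
  obtain ⟨N, hN⟩ := Metric.tendsto_atTop.1 h6 (ε / 2) (by positivity)
  refine ⟨max N 1, fun n hn => ?_⟩
  obtain ⟨h10, h11⟩ := hC0 n (le_trans (le_max_right _ _) hn) z z' hz h1 h3
  have h12 := hN n (le_trans (le_max_left _ _) hn)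
  rw [Real.dist_eq, sub_zero, abs_of_nonneg (Real.sqrt_nonneg _)] at h12
  rw [Real.dist_eq, sub_zero, abs_of_nonneg h10]
  have h13 : Φ z * (Φ z' - Φ z) ≤ |Φ z' - Φ z| := by
    calc Φ z * (Φ z' - Φ z) ≤ Φ z * |Φ z' - Φ z| := mul_le_mul_of_nonneg_left (le_abs_self _) hΦz0
      _ ≤ 1 * |Φ z' - Φ z| := mul_le_mul_of_nonneg_right hΦz1 (abs_nonneg _)
      _ = _ := one_mul _
  linarith

end Pool.Agent.GroB
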