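import Pool.Agent.Lib_MP_58440c_pr.Conv2
import Pool.Agent.Lib_MP_58440c_pr.Typ2
import Pool.Agent.Lib_MP_58440c_pr.ExtG

/-!
# Piece CV3: mean square convergence at distinct points

Induction on `k`. `k = 0`: `y = one`, `hh = 1` (for antitone `l`). `k = 1`: `concentrate`
(`y = cons (y 0) one`). `k ≥ 2`: `y = cons z1 (cons z2 x)`, `X = hh y`, `H = hh x`, `A = hh (cons z1 x)`,
`B = hh (cons z2 x)` with limits (induction) `S0 = prodF Φ (k-2) x`, `S1 = Φ z1 S0`, `S2 = Φ z2 S0`,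
and `S = Φ z1 Φ z2 S0`:
`(X - S) S0 = (X H - A B) - X (H - S0) + (A - S1) B + S1 (B - S2)`.
-/

open Finset Polynomial Filter Topology

namespace Pool.Agent.GroB

theorem prodF_cons (Φ : ℝ → ℝ) (k : ℕ) (z : ℝ) (x : ℕ → ℝ) :
    prodF Φ (k + 1) (cons z x) = Φ z * prodF Φ k x := by
  unfold prodF
  rw [Finset.prod_range_succ']
  simp only [cons_succ, cons_zero]
  ring

theorem prodF_mem (p : ℝ) (hp0 : 0 < p) (hp1 : p < 1) (Φ : ℝ → ℝ) (hΦ : PP p Φ) (k : ℕ)
    (x : ℕ → ℝ) (hx : UnitSeq x) : 0 < prodF Φ k x ∧ prodF Φ k x ≤ 1 := by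
  unfold prodF
  constructor
  · exact Finset.prod_pos fun j _ => (phi_pos p hp0 hp1 Φ hΦ (x j) (hx j).1 (hx j).2).1
  · exact Finset.prod_le_one
      (fun j _ => (phi_pos p hp0 hp1 Φ hΦ (x j) (hx j).1 (hx j).2).1.le)
      (fun j _ => (phi_pos p hp0 hp1 Φ hΦ (x j) (hx j).1 (hx j).2).2)

/-- squares bounded by one are summable against a summable weight -/
theorem summable_wsq {ι : Type*} (w f : ι → ℝ) (hw : ∀ l, 0 ≤ w l) (hs : Summable w)
    (hf : ∀ l, |f l| ≤ 1) : Summable fun l => w l * f l ^ 2 := by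
  refine Summable.of_nonneg_of_le (fun l => mul_nonneg (hw l) (sq_nonneg _)) (fun l => ?_) hs
  have h1 : f l ^ 2 ≤ 1 := by
    rw [← sq_abs]; exact pow_le_one₀ (abs_nonneg _) (hf l)
  calc w l * f l ^ 2 ≤ w l * 1 := mul_le_mul_of_nonneg_left h1 (hw l)
    _ = w l := mul_one _

theorem abs_sub_le_one' {a b : ℝ} (ha : 0 ≤ a) (ha1 : a ≤ 1) (hb : 0 ≤ b) (hb1 : b ≤ 1) :
    |a - b| ≤ 1 := by
  rw [abs_le]; constructor <;> linarith

theorem key_ineq (X H A B S0 S1 S2 S : ℝ) (hX : 0 ≤ X) (hX1 : X ≤ 1) (hB : 0 ≤ B) (hB1 : B ≤ 1)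
    (hS1 : 0 ≤ S1) (hS1' : S1 ≤ 1) (hS : S * S0 = S1 * S2) :
    S0 ^ 2 * (X - S) ^ 2 ≤
      4 * ((X * H - A * B) ^ 2 + (H - S0) ^ 2 + (A - S1) ^ 2 + (B - S2) ^ 2) := by
  have h1 : S0 * (X - S) = (X * H - A * B) + (-(X * (H - S0))) + (A - S1) * B + S1 * (B - S2) := by
    linear_combination (-1 : ℝ) * hS
  have h2 : S0 ^ 2 * (X - S) ^ 2 = (S0 * (X - S)) ^ 2 := by ring
  rw [h2, h1]
  set a := X * H - A * B
  have hb : (-(X * (H - S0))) ^ 2 ≤ (H - S0) ^ 2 := by
    have : X ^ 2 ≤ 1 := pow_le_one₀ hX hX1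
    nlinarith [sq_nonneg (H - S0)]
  have hc : ((A - S1) * B) ^ 2 ≤ (A - S1) ^ 2 := by
    have : B ^ 2 ≤ 1 := pow_le_one₀ hB hB1
    nlinarith [sq_nonneg (A - S1)]
  have hd : (S1 * (B - S2)) ^ 2 ≤ (B - S2) ^ 2 := by
    have : S1 ^ 2 ≤ 1 := pow_le_one₀ hS1 hS1'
    nlinarith [sq_nonneg (B - S2)]
  generalize -(X * (H - S0)) = b at hb ⊢
  generalize (A - S1) * B = c at hc ⊢
  generalize S1 * (B - S2) = d at hd ⊢
  nlinarith [sq_nonneg (a - b), sq_nonneg (a - c), sq_nonneg (a - d), sq_nonneg (b - c),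
    sq_nonneg (b - d), sq_nonneg (c - d)]

theorem conv_L2 (p : ℝ) (hp0 : 0 < p) (hp1 : p < 1) (Φ : ℝ → ℝ) (hΦ1 : Φ 1 = 1)
    (c : ∀ n, (Fin n → ℕ) → ℝ) (hc : ∀ n, IsCoef p n (prodF Φ n) (c n)) (φ : ℕ → ℝ)
    (hφ : ∀ k, 0 ≤ φ k) (hsum : ∀ z, 0 < z → z ≤ 1 → HasSum (fun k => φ k * z ^ k) (Φ z))
    (h2 : Summable fun k : ℕ => (k : ℝ) ^ 2 * φ k) (k : ℕ) (y : ℕ → ℝ) (hy : UnitSeq y)
    (hy1 : ∀ j, k ≤ j → y j = 1) (hlt : ∀ j, j < k → y j < 1)
    (hd : ∀ i < k, ∀ j < k, y i = y j → i = j) :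
    Tendsto (fun n => ∑' l, c n l * G p n l one * (hh p n l y - prodF Φ k y) ^ 2) atTop
      (𝓝 0) := by
  have hPP : PP p Φ := ⟨hΦ1, fun n => ⟨c n, hc n⟩⟩
  have hw0 : ∀ n l, 0 ≤ c n l * G p n l one := fun n l =>
    mul_nonneg ((hc n).1 l) (G_nonneg p n l one (unitSeq_one.posPt hp0 hp1))
  have hws : ∀ n, Summable fun l => c n l * G p n l one := fun n =>
    ((hc n).2.2 one unitSeq_one).summable
  induction k using Nat.twoStepInduction generalizing y with
  | zero =>
    have hy' : y = one := by funext j; exact hy1 j (Nat.zero_le _)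
    subst hy'
    have hz : ∀ n, ∑' l, c n l * G p n l one * (hh p n l one - prodF Φ 0 one) ^ 2 = 0 := by
      intro n
      rw [← tsum_zero (α := ℝ) (β := Fin n → ℕ)]
      congr 1
      funext l
      by_cases hl : Antitone l
      · have hg := (G_pos p n l hl one (unitSeq_one.posPt hp0 hp1)).ne'
        simp [hh, prodF, div_self hg]
      · rw [(hc n).2.1 l hl]; ring
    simp only [hz]
    exact tendsto_const_nhds
  | one =>
    have hy' : y = cons (y 0) one := by
      funext j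
      cases j with
      | zero => rfl
      | succ j => exact hy1 (j + 1) (by omega)
    have h := concentrate p hp0 hp1 Φ hΦ1 c hc φ hφ hsum h2 (y 0) (hy 0).1 (hlt 0 (by omega))
    rw [← tendsto_add_atTop_iff_nat 2]
    refine h.congr fun n => ?_
    congr 1
    funext l
    have e1 : hh p (n + 2) l y = G p (n + 2) l (cons (y 0) one) / G p (n + 2) l one := by
      rw [← hy']; rfl
    have e2 : prodF Φ 1 y = Φ (y 0) := by simp [prodF]
    rw [e1, e2]
  | more k ih0 ih1 =>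
    set x : ℕ → ℝ := fun j => y (j + 2) with hx
    have hxu : UnitSeq x := fun j => hy (j + 2)
    have hyc : y = cons (y 0) (cons (y 1) x) := by
      funext j
      match j with
      | 0 => rfl
      | 1 => rfl
      | j + 2 => rfl
    have H0 := ih0 x hxu (fun j hj => hy1 (j + 2) (by omega)) (fun j hj => hlt (j + 2) (by omega))
      (fun i hi j hj hij => by have := hd (i + 2) (by omega) (j + 2) (by omega) hij; omega)
    have HA := ih1 (cons (y 0) x) (hxu.cons (hy 0).1 (hy 0).2)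
      (fun j hj => by
        cases j with
        | zero => omega
        | succ j => exact hy1 (j + 2) (by omega))
      (fun j hj => by
        cases j with
        | zero => exact hlt 0 (by omega)
        | succ j => exact hlt (j + 2) (by omega))
      (fun i hi j hj hij => by
        cases i with
        | zero =>
          cases j with
          | zero => rfl
          | succ j => have := hd 0 (by omega) (j + 2) (by omega) hij; omega
        | succ i =>
          cases j with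
          | zero => have := hd (i + 2) (by omega) 0 (by omega) hij; omega
          | succ j => have := hd (i + 2) (by omega) (j + 2) (by omega) hij; omega)
    have HB := ih1 (cons (y 1) x) (hxu.cons (hy 1).1 (hy 1).2)
      (fun j hj => by
        cases j with
        | zero => omega
        | succ j => exact hy1 (j + 2) (by omega))
      (fun j hj => by
        cases j with
        | zero => exact hlt 1 (by omega)
        | succ j => exact hlt (j + 2) (by omega))
      (fun i hi j hj hij => by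
        cases i with
        | zero =>
          cases j with
          | zero => rfl
          | succ j => have := hd 1 (by omega) (j + 2) (by omega) hij; omega
        | succ i =>
          cases j with
          | zero => have := hd (i + 2) (by omega) 1 (by omega) hij; omega
          | succ j => have := hd (i + 2) (by omega) (j + 2) (by omega) hij; omega)
    have hne : y 0 ≠ y 1 := fun h => by have := hd 0 (by omega) 1 (by omega) h; omega
    have HC := conv_close p hp0 hp1 Φ hΦ1 c hc φ hφ hsum h2 k x hxu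
      (fun j hj => hy1 (j + 2) (by omega)) (y 0) (y 1) (hy 0).1 (hy 0).2 (hy 1).1 (hy 1).2 hne
    rw [← hyc] at HC
    rw [prodF_cons] at HA HB
    obtain ⟨hS0, hS0'⟩ := prodF_mem p hp0 hp1 Φ hPP k x hxu
    obtain ⟨hφ0, hφ0'⟩ := phi_pos p hp0 hp1 Φ hPP (y 0) (hy 0).1 (hy 0).2
    obtain ⟨hφ1, hφ1'⟩ := phi_pos p hp0 hp1 Φ hPP (y 1) (hy 1).1 (hy 1).2
    have hS : prodF Φ (k + 2) y = Φ (y 0) * (Φ (y 1) * prodF Φ k x) := by
      conv_lhs => rw [hyc]
      rw [prodF_cons, prodF_cons]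
    rw [hS]
    set S0 := prodF Φ k x
    set S1 := Φ (y 0) * S0 with hS1
    set S2 := Φ (y 1) * S0 with hS2
    have hS1m : 0 ≤ S1 ∧ S1 ≤ 1 := ⟨(mul_pos hφ0 hS0).le, mul_le_one₀ hφ0' hS0.le hS0'⟩
    have hS2m : 0 ≤ S2 ∧ S2 ≤ 1 := ⟨(mul_pos hφ1 hS0).le, mul_le_one₀ hφ1' hS0.le hS0'⟩
    have hSm : 0 ≤ Φ (y 0) * S2 ∧ Φ (y 0) * S2 ≤ 1 :=
      ⟨mul_nonneg hφ0.le hS2m.1, mul_le_one₀ hφ0' hS2m.1 hS2m.2⟩
    have hA0 := hxu.cons (hy 0).1 (hy 0).2
    have hB0 := hxu.cons (hy 1).1 (hy 1).2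
    have hlim := ((HC.add H0).add HA).add HB
    have hlim2 := hlim.const_mul (4 / S0 ^ 2)
    simp only [add_zero, mul_zero] at hlim2
    refine squeeze_zero (fun n => tsum_nonneg fun l => mul_nonneg (hw0 n l) (sq_nonneg _))
      (fun n => ?_) hlim2
    have m1 := hh_nonneg p hp0 hp1 n
    have m2 := hh_le_one p hp0 hp1 n
    have s1 := summable_wsq _ (fun l => hh p n l y * hh p n l x -
        hh p n l (cons (y 0) x) * hh p n l (cons (y 1) x)) (hw0 n) (hws n) (fun l =>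
        abs_sub_le_one' (mul_nonneg (m1 l y hy) (m1 l x hxu))
          (mul_le_one₀ (m2 l y hy) (m1 l x hxu) (m2 l x hxu))
          (mul_nonneg (m1 l _ hA0) (m1 l _ hB0))
          (mul_le_one₀ (m2 l _ hA0) (m1 l _ hB0) (m2 l _ hB0)))
    have s2 := summable_wsq _ (fun l => hh p n l x - S0) (hw0 n) (hws n) (fun l =>
        abs_sub_le_one' (m1 l x hxu) (m2 l x hxu) hS0.le hS0')
    have s3 := summable_wsq _ (fun l => hh p n l (cons (y 0) x) - S1) (hw0 n) (hws n) (fun l =>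
        abs_sub_le_one' (m1 l _ hA0) (m2 l _ hA0) hS1m.1 hS1m.2)
    have s4 := summable_wsq _ (fun l => hh p n l (cons (y 1) x) - S2) (hw0 n) (hws n) (fun l =>
        abs_sub_le_one' (m1 l _ hB0) (m2 l _ hB0) hS2m.1 hS2m.2)
    have s0 := summable_wsq _ (fun l => hh p n l y - Φ (y 0) * S2) (hw0 n) (hws n) (fun l =>
        abs_sub_le_one' (m1 l _ hy) (m2 l _ hy) hSm.1 hSm.2)
    rw [← s1.tsum_add s2, ← (s1.add s2).tsum_add s3, ← ((s1.add s2).add s3).tsum_add s4,
      ← tsum_mul_left]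
    refine s0.tsum_le_tsum (fun l => ?_) ((((s1.add s2).add s3).add s4).mul_left _)
    have hk := key_ineq (hh p n l y) (hh p n l x) (hh p n l (cons (y 0) x))
      (hh p n l (cons (y 1) x)) S0 S1 S2 (Φ (y 0) * S2) (m1 l y hy) (m2 l y hy)
      (m1 l _ hB0) (m2 l _ hB0) hS1m.1 hS1m.2 (by rw [hS1]; ring)
    have hS0sq : 0 < S0 ^ 2 := pow_pos hS0 2
    have hk2 : (hh p n l y - Φ (y 0) * S2) ^ 2 ≤ 4 / S0 ^ 2 *
        ((hh p n l y * hh p n l x - hh p n l (cons (y 0) x) * hh p n l (cons (y 1) x)) ^ 2 +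
          (hh p n l x - S0) ^ 2 + (hh p n l (cons (y 0) x) - S1) ^ 2 +
          (hh p n l (cons (y 1) x) - S2) ^ 2) := by
      rw [div_mul_eq_mul_div, le_div_iff₀ hS0sq]
      linarith
    calc c n l * G p n l one * (hh p n l y - Φ (y 0) * S2) ^ 2
        ≤ c n l * G p n l one * (4 / S0 ^ 2 *
        ((hh p n l y * hh p n l x - hh p n l (cons (y 0) x) * hh p n l (cons (y 1) x)) ^ 2 +
          (hh p n l x - S0) ^ 2 + (hh p n l (cons (y 0) x) - S1) ^ 2 +
          (hh p n l (cons (y 1) x) - S2) ^ 2)) := mul_le_mul_of_nonneg_left hk2 (hw0 n l)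
      _ = _ := by ring

end Pool.Agent.GroB
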