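import Pool.Agent.Lib_MP_58440c_pr.ExtG

/-!
# Piece SSC: continuity of `SS`

Terms continuous (`G_continuous`), dominated on `UnitSeq`s by `M n l` (`hh_le_one`):
`continuousOn_tsum`.
`SS_perm`: `G_congr_prod`. `SS_pos`: some `M n l > 0`, `l` antitone, `hh > 0` there.
-/

open Finset Polynomial Filter Topology

namespace Pool.Agent.GroB

theorem SS_continuous (p : ℝ) (hp0 : 0 < p) (hp1 : p < 1) (M : (n : ℕ) → (Fin n → ℕ) → ℝ)
    (hM : Coherent p M) (n : ℕ) : ContinuousOn (fun y => SS p M n y) {y | UnitSeq y} := by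
  unfold SS
  refine continuousOn_tsum (u := fun l => M n l) (fun l => ?_) (hM.prob n).summable
    (fun l y hy => ?_)
  · exact (continuous_const.mul ((G_continuous p n l).div_const _)).continuousOn
  · have h1 := hh_nonneg p hp0 hp1 n l y hy
    have h2 := hh_le_one p hp0 hp1 n l y hy
    rw [Real.norm_eq_abs, abs_of_nonneg (mul_nonneg (hM.nonneg n l) h1)]
    exact mul_le_of_le_one_right (hM.nonneg n l) h2

theorem SS_perm (p : ℝ) (hp0 : 0 < p) (hp1 : p < 1) (M : (n : ℕ) → (Fin n → ℕ) → ℝ) (n : ℕ)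
    (x y : ℕ → ℝ) (hx : UnitSeq x) (hy : UnitSeq y)
    (h : ∏ k ∈ range n, (X - C (x k)) = ∏ k ∈ range n, (X - C (y k))) :
    SS p M n x = SS p M n y := by
  unfold SS hh
  refine tsum_congr fun l => ?_
  rw [G_congr_prod p n l x y (hx.posPt hp0 hp1) (hy.posPt hp0 hp1) h]

theorem SS_pos (p : ℝ) (hp0 : 0 < p) (hp1 : p < 1) (M : (n : ℕ) → (Fin n → ℕ) → ℝ)
    (hM : Coherent p M) (n : ℕ) (y : ℕ → ℝ) (hy : UnitSeq y) : 0 < SS p M n y := by
  have hex : ∃ l, 0 < M n l := by
    by_contra hcon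
    push Not at hcon
    have h0 : M n = fun _ => 0 := by
      funext l
      exact le_antisymm (hcon l) (hM.nonneg n l)
    have h1 := hM.prob n
    rw [h0] at h1
    exact zero_ne_one (hasSum_zero.unique h1)
  obtain ⟨l, hl⟩ := hex
  have hanti : Antitone l := by
    by_contra hcon
    exact hl.ne' (hM.supp n l hcon)
  have hs := summable_hh p hp0 hp1 M hM n y hy
  refine hs.summable.tsum_pos (fun m => mul_nonneg (hM.nonneg n m)
    (hh_nonneg p hp0 hp1 n m y hy)) l (mul_pos hl ?_)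
  unfold hh
  exact div_pos (G_pos p n l hanti y (hy.posPt hp0 hp1))
    (G_pos p n l hanti one (unitSeq_one.posPt hp0 hp1))

theorem SS_one (p : ℝ) (hp0 : 0 < p) (hp1 : p < 1) (M : (n : ℕ) → (Fin n → ℕ) → ℝ)
    (hM : Coherent p M) (n : ℕ) : SS p M n one = 1 := by
  unfold SS hh
  rw [← (hM.prob n).tsum_eq]
  refine tsum_congr fun l => ?_
  by_cases hl : Antitone l
  · rw [div_self (G_pos p n l hl one (unitSeq_one.posPt hp0 hp1)).ne', mul_one]
  · rw [hM.supp n l hl, zero_mul]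

end Pool.Agent.GroB
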