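import Mathlib

/-!
# Piece SPL: splitting a sum over partitions by the last part

An antitone `l : Fin (n+1) → ℕ` with `l last ≥ 1` is `l' + 1`; one with `l last = 0` is `snoc l' 0`. So
the support of `f` is contained in the disjoint union of the ranges of the injective maps
`l ↦ Fin.snoc l 0` and `l ↦ l + 1`. (`Function.Injective.tsum_eq`, `Summable.comp_injective`,
`tsum` over a set and its complement: `Summable.tsum_add_tsum_compl`.)
-/

open Finset

namespace Pool.Agent.GroB

namespace Spl

theorem inj1 (n : ℕ) : Function.Injective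
    (fun l : Fin n → ℕ => (Fin.snoc (α := fun _ => ℕ) l 0 : Fin (n + 1) → ℕ)) := by
  intro l l' h
  funext i
  have := congrFun h i.castSucc
  simpa using this

theorem inj2 (n : ℕ) : Function.Injective
    (fun l : Fin (n + 1) → ℕ => (fun i => l i + 1 : Fin (n + 1) → ℕ)) := by
  intro l l' h
  funext i
  have := congrFun h i
  exact Nat.succ_injective this

end Spl

/-- splitting a sum over partitions `l : Fin (n+1) → ℕ` by `l last = 0` or `≥ 1` -/
theorem split_sum (n : ℕ) (f : (Fin (n + 1) → ℕ) → ℝ) (hf : ∀ l, ¬ Antitone l → f l = 0)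
    (hs : Summable f) :
    Summable (fun l : Fin n → ℕ => f (Fin.snoc (α := fun _ => ℕ) l 0)) ∧
      Summable (fun l : Fin (n + 1) → ℕ => f (fun i => l i + 1)) ∧
      ∑' l, f l = ∑' l : Fin n → ℕ, f (Fin.snoc (α := fun _ => ℕ) l 0) +
        ∑' l : Fin (n + 1) → ℕ, f (fun i => l i + 1) := by
  classical
  have hs1 : Summable (fun l : Fin n → ℕ => f (Fin.snoc (α := fun _ => ℕ) l 0)) :=
    hs.comp_injective (Spl.inj1 n)
  have hs2 : Summable (fun l : Fin (n + 1) → ℕ => f (fun i => l i + 1)) :=
    hs.comp_injective (Spl.inj2 n)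
  refine ⟨hs1, hs2, ?_⟩
  set S : Set (Fin (n + 1) → ℕ) := {l | l (Fin.last n) = 0} with hS
  have h1 : f = fun l => S.indicator f l + Sᶜ.indicator f l := by
    funext l
    exact (Set.indicator_self_add_compl_apply S f l).symm
  have h2 : ∑' l, f l = ∑' l, S.indicator f l + ∑' l, Sᶜ.indicator f l := by
    conv_lhs => rw [h1]
    exact Summable.tsum_add (hs.indicator S) (hs.indicator Sᶜ)
  rw [h2]
  congr 1
  · rw [← (Spl.inj1 n).tsum_eq (f := S.indicator f)]
    · refine tsum_congr (fun l => ?_)
      rw [Set.indicator_of_mem]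
      show (Fin.snoc (α := fun _ => ℕ) l 0 : Fin (n + 1) → ℕ) (Fin.last n) = 0
      simp
    · intro l hl
      rw [Function.mem_support] at hl
      have hlS : l ∈ S := by
        by_contra h
        exact hl (Set.indicator_of_notMem h f)
      refine ⟨fun i => l i.castSucc, ?_⟩
      show (Fin.snoc (α := fun _ => ℕ) (fun i => l i.castSucc) 0 : Fin (n + 1) → ℕ) = l
      funext i
      refine Fin.lastCases ?_ (fun j => ?_) i
      · rw [Fin.snoc_last]
        exact hlS.symm
      · rw [Fin.snoc_castSucc]
  · rw [← (Spl.inj2 n).tsum_eq (f := Sᶜ.indicator f)]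
    · refine tsum_congr (fun l => ?_)
      rw [Set.indicator_of_mem]
      show ¬ (l (Fin.last n) + 1 = 0)
      omega
    · intro l hl
      rw [Function.mem_support] at hl
      have hlS : l ∈ Sᶜ := by
        by_contra h
        exact hl (Set.indicator_of_notMem h f)
      rw [Set.indicator_of_mem hlS] at hl
      have hanti : Antitone l := by
        by_contra h
        exact hl (hf l h)
      have hpos : ∀ i, 1 ≤ l i := by
        intro i
        have h3 : l (Fin.last n) ≤ l i := hanti (Fin.le_last i)
        have h4 : l (Fin.last n) ≠ 0 := hlS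
        omega
      refine ⟨fun i => l i - 1, ?_⟩
      funext i
      show l i - 1 + 1 = l i
      have := hpos i
      omega

end Pool.Agent.GroB
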