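import Pool.Agent.Lib_MP_58440c_pr.GBasic
import Pool.Agent.Lib_MP_58440c_pr.Split

/-!
# Piece UNIQ: uniqueness of the coefficients of a `G`-expansion

`uniq`: `c` real, supported on antitone functions, `∑ |c l| G p n l one < ∞`, and
`∑' c l G p n l x = 0` for all `UnitSeq` `x`; then `c = 0`. Induction on `n`; `n = 0` trivial
(`Fin 0 → ℕ` has one element, `G = 1`).
Step `n → n+1`. (A) Let `x` be a `UnitSeq`, and let coordinate `n` tend to `0+`: each
`G p (n+1) l (update x n t)` is continuous in `t`, bounded by `G p (n+1) l one`, and at `t = 0` equals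
`G_last_zero`. Dominated convergence: `∑'_{l : Fin n → ℕ} c (Fin.snoc l 0) * G p n l x = 0`. The
coefficients `l ↦ c (Fin.snoc l 0)` are summable against `G p n l one`:
`G p (n+1) (snoc l 0) one ≥ G p n l one` (the same limit). So by induction
`c (Fin.snoc l 0) = 0` for all `l`. (B) Hence `c l = 0` unless `l last ≥ 1`, i.e. (antitone) `l = l' + 1`:
`0 = ∑' c (l'+1) G p (n+1) (l'+1) x = (∏ x_j) ∑' c (l'+1) G p (n+1) l' x` (`G_add_one`). So
`l' ↦ c (l'+1)` satisfies all hypotheses again. Conclude `c l = 0` by induction on `l last`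
(claim for all `c` at once).

`isCoef_unique` follows with `c - c'`; `split_sum` is the reindexing used in (A)/(B) and again in
piece COLF.
-/

open Finset Polynomial Filter Topology

namespace Pool.Agent.GroB

/-- the sequence `x` with coordinate `n` replaced by `t` -/
theorem unitSeq_update {x : ℕ → ℝ} (hx : UnitSeq x) (n : ℕ) {t : ℝ} (ht : 0 < t) (ht1 : t ≤ 1) :
    UnitSeq (Function.update x n t) := by
  intro j
  by_cases h : j = n
  · rw [h, Function.update_self]
    exact ⟨ht, ht1⟩
  · rw [Function.update_of_ne h]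
    exact hx j

theorem G_update_tendsto (p : ℝ) (n : ℕ) (l : Fin (n + 1) → ℕ) (x : ℕ → ℝ) :
    Tendsto (fun t : ℝ => G p (n + 1) l (Function.update x n t)) (𝓝[>] 0)
      (𝓝 (if l (Fin.last n) = 0 then G p n (fun i => l i.castSucc) x else 0)) := by
  have h1 : Continuous fun t : ℝ => G p (n + 1) l (Function.update x n t) :=
    (G_continuous p (n + 1) l).comp (continuous_const.update n continuous_id)
  have h2 := h1.tendsto 0
  rw [G_last_zero p n l (Function.update x n 0) (Function.update_self _ _ _)] at h2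
  have h3 : G p n (fun i => l i.castSucc) (Function.update x n 0) =
      G p n (fun i => l i.castSucc) x :=
    G_congr p n _ fun j hj => Function.update_of_ne hj.ne _ _
  rw [h3] at h2
  exact h2.mono_left nhdsWithin_le_nhds

theorem eventually_unit : ∀ᶠ t : ℝ in 𝓝[>] 0, 0 < t ∧ t ≤ 1 := by
  filter_upwards [Ioo_mem_nhdsGT (zero_lt_one (α := ℝ))] with t ht
  exact ⟨ht.1, ht.2.le⟩

theorem antitone_of_snoc {n : ℕ} {l : Fin n → ℕ}
    (h : Antitone (Fin.snoc (α := fun _ => ℕ) l 0 : Fin (n + 1) → ℕ)) : Antitone l := by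
  intro i j hij
  have := h (a := i.castSucc) (b := j.castSucc) (Fin.castSucc_le_castSucc_iff.2 hij)
  simpa only [Fin.snoc_castSucc] using this

theorem snoc_inj (n : ℕ) : Function.Injective fun l : Fin n → ℕ =>
    (Fin.snoc (α := fun _ => ℕ) l 0 : Fin (n + 1) → ℕ) := by
  intro l l' h
  funext i
  have := congrFun h i.castSucc
  simpa only [Fin.snoc_castSucc] using this

theorem eq_snoc {n : ℕ} {L : Fin (n + 1) → ℕ} (h : L (Fin.last n) = 0) :
    L = Fin.snoc (α := fun _ => ℕ) (fun i : Fin n => L i.castSucc) 0 := by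
  funext i
  refine Fin.lastCases ?_ (fun i => ?_) i
  · rw [Fin.snoc_last, h]
  · rw [Fin.snoc_castSucc]

theorem addOne_inj (n : ℕ) : Function.Injective fun l : Fin n → ℕ => fun i => l i + 1 := by
  intro l l' h
  funext i
  have := congrFun h i
  simpa using this

theorem eq_addOne {n : ℕ} {L : Fin (n + 1) → ℕ} (hL : Antitone L) (h : L (Fin.last n) ≠ 0) :
    L = fun i => (L i - 1) + 1 := by
  funext i
  have := hL (Fin.le_last i)
  show L i = L i - 1 + 1
  omega

/-- step (A) -/
theorem uniq_stepA (p : ℝ) (hp0 : 0 < p) (hp1 : p < 1) (n : ℕ)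
    (ih : ∀ c : (Fin n → ℕ) → ℝ, (∀ l, ¬ Antitone l → c l = 0) →
      (Summable fun l => |c l| * G p n l one) →
      (∀ x, UnitSeq x → ∑' l, c l * G p n l x = 0) → c = 0)
    (c : (Fin (n + 1) → ℕ) → ℝ)
    (hc : ∀ l, ¬ Antitone l → c l = 0) (hs : Summable fun l => |c l| * G p (n + 1) l one)
    (h0 : ∀ x, UnitSeq x → ∑' l, c l * G p (n + 1) l x = 0) (l : Fin n → ℕ) :
    c (Fin.snoc (α := fun _ => ℕ) l 0) = 0 := by
  have key := ih (fun l => c (Fin.snoc (α := fun _ => ℕ) l 0)) ?_ ?_ ?_
  · exact congrFun key l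
  · intro l hl
    exact hc _ fun h => hl (antitone_of_snoc h)
  · refine Summable.of_nonneg_of_le (fun l => ?_) (fun l => ?_)
      (hs.comp_injective (snoc_inj n))
    · exact mul_nonneg (abs_nonneg _) (G_nonneg p n l one (unitSeq_one.posPt hp0 hp1))
    · refine mul_le_mul_of_nonneg_left ?_ (abs_nonneg _)
      have h1 := G_update_tendsto p n (Fin.snoc (α := fun _ => ℕ) l 0) one
      rw [Fin.snoc_last, if_pos rfl] at h1
      have h2 : (fun i : Fin n => (Fin.snoc (α := fun _ => ℕ) l 0 : Fin (n + 1) → ℕ) i.castSucc) =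
          l := by
        funext i
        rw [Fin.snoc_castSucc]
      rw [h2] at h1
      refine le_of_tendsto h1 (eventually_unit.mono fun t ht => ?_)
      exact G_le_one p hp0 hp1 (n + 1) _ _ (unitSeq_update unitSeq_one n ht.1 ht.2)
  · intro x hx
    have h1 : Tendsto (fun t : ℝ => ∑' L, c L * G p (n + 1) L (Function.update x n t)) (𝓝[>] 0)
        (𝓝 (∑' L : Fin (n + 1) → ℕ, c L * (if L (Fin.last n) = 0 then
          G p n (fun i => L i.castSucc) x else 0))) := by
      refine tendsto_tsum_of_dominated_convergence hs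
        (fun L => (G_update_tendsto p n L x).const_mul (c L)) ?_
      refine eventually_unit.mono fun t ht L => ?_
      have hu := unitSeq_update hx n ht.1 ht.2
      rw [Real.norm_eq_abs, abs_mul, abs_of_nonneg (G_nonneg p (n + 1) L _ (hu.posPt hp0 hp1))]
      exact mul_le_mul_of_nonneg_left (G_le_one p hp0 hp1 (n + 1) L _ hu) (abs_nonneg _)
    have h2 : Tendsto (fun t : ℝ => ∑' L, c L * G p (n + 1) L (Function.update x n t)) (𝓝[>] 0)
        (𝓝 0) := by
      refine (tendsto_const_nhds (x := (0 : ℝ))).congr' (eventually_unit.mono fun t ht => ?_)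
      exact (h0 _ (unitSeq_update hx n ht.1 ht.2)).symm
    have h3 := tendsto_nhds_unique h1 h2
    rw [← h3, ← (snoc_inj n).tsum_eq (f := fun L : Fin (n + 1) → ℕ =>
      c L * (if L (Fin.last n) = 0 then G p n (fun i => L i.castSucc) x else 0))]
    · refine tsum_congr fun l => ?_
      show _ = c (Fin.snoc (α := fun _ => ℕ) l 0) *
        (if (Fin.snoc (α := fun _ => ℕ) l 0 : Fin (n + 1) → ℕ) (Fin.last n) = 0 then
          G p n (fun i => (Fin.snoc (α := fun _ => ℕ) l 0 : Fin (n + 1) → ℕ) i.castSucc) x else 0)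
      rw [Fin.snoc_last, if_pos rfl]
      simp only [Fin.snoc_castSucc]
    · intro L hL
      rw [Function.mem_support] at hL
      by_cases h : L (Fin.last n) = 0
      · exact ⟨fun i => L i.castSucc, (eq_snoc h).symm⟩
      · rw [if_neg h, mul_zero] at hL
        exact absurd rfl hL

/-- step (B) -/
theorem uniq_stepB (p : ℝ) (hp0 : 0 < p) (hp1 : p < 1) (n : ℕ)
    (ih : ∀ c : (Fin n → ℕ) → ℝ, (∀ l, ¬ Antitone l → c l = 0) →
      (Summable fun l => |c l| * G p n l one) →
      (∀ x, UnitSeq x → ∑' l, c l * G p n l x = 0) → c = 0) (k : ℕ) :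
    ∀ c : (Fin (n + 1) → ℕ) → ℝ, (∀ l, ¬ Antitone l → c l = 0) →
      (Summable fun l => |c l| * G p (n + 1) l one) →
      (∀ x, UnitSeq x → ∑' l, c l * G p (n + 1) l x = 0) →
      ∀ L : Fin (n + 1) → ℕ, L (Fin.last n) = k → c L = 0 := by
  induction k with
  | zero =>
    intro c hc hs h0 L hL
    rw [eq_snoc hL]
    exact uniq_stepA p hp0 hp1 n ih c hc hs h0 _
  | succ k ihk =>
    intro c hc hs h0 L hL
    by_cases hLa : Antitone L
    swap
    · exact hc L hLa
    have hA := uniq_stepA p hp0 hp1 n ih c hc hs h0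
    have hprod1 : (∏ j ∈ range (n + 1), one j) = 1 := Finset.prod_eq_one fun j _ => rfl
    have key := ihk (fun l => c (fun i => l i + 1)) ?_ ?_ ?_ (fun i => L i - 1) ?_
    · rw [eq_addOne hLa (by rw [hL]; exact Nat.succ_ne_zero k)]
      exact key
    · intro l hl
      refine hc _ fun h => hl ?_
      intro i j hij
      have := h hij
      have h' : l j + 1 ≤ l i + 1 := this
      omega
    · refine (hs.comp_injective (addOne_inj (n + 1))).congr fun l => ?_
      show |c (fun i => l i + 1)| * G p (n + 1) (fun i => l i + 1) one =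
        |c (fun i => l i + 1)| * G p (n + 1) l one
      rw [G_add_one, hprod1, one_mul]
    · intro x hx
      have h1 := h0 x hx
      rw [← (addOne_inj (n + 1)).tsum_eq (f := fun L : Fin (n + 1) → ℕ =>
        c L * G p (n + 1) L x)] at h1
      · have h2 : ∀ l : Fin (n + 1) → ℕ,
            c (fun i => l i + 1) * G p (n + 1) (fun i => l i + 1) x =
            (∏ j ∈ range (n + 1), x j) * (c (fun i => l i + 1) * G p (n + 1) l x) := by
          intro l
          rw [G_add_one]
          ring
        rw [tsum_congr h2, tsum_mul_left] at h1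
        have h3 : 0 < ∏ j ∈ range (n + 1), x j := Finset.prod_pos fun j _ => (hx j).1
        exact (mul_eq_zero.1 h1).resolve_left h3.ne'
      · intro M hM
        rw [Function.mem_support] at hM
        have hcM : c M ≠ 0 := fun h => hM (by rw [h, zero_mul])
        have hMa : Antitone M := by
          by_contra h
          exact hcM (hc M h)
        have hM0 : M (Fin.last n) ≠ 0 := by
          intro h
          apply hcM
          rw [eq_snoc h]
          exact hA _
        exact ⟨fun i => M i - 1, (eq_addOne hMa hM0).symm⟩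
    · show L (Fin.last n) - 1 = k
      rw [hL]
      rfl

theorem uniq (p : ℝ) (hp0 : 0 < p) (hp1 : p < 1) (n : ℕ) (c : (Fin n → ℕ) → ℝ)
    (hc : ∀ l, ¬ Antitone l → c l = 0) (hs : Summable fun l => |c l| * G p n l one)
    (h0 : ∀ x, UnitSeq x → ∑' l, c l * G p n l x = 0) : c = 0 := by
  induction n with
  | zero =>
    funext l
    have h1 := h0 one unitSeq_one
    rw [tsum_eq_single l fun l' hl' => absurd (Subsingleton.elim l' l) hl'] at h1
    have h2 : G p 0 l one = 1 := rfl
    rwa [h2, mul_one] at h1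
  | succ n ih =>
    funext L
    exact uniq_stepB p hp0 hp1 n ih (L (Fin.last n)) c hc hs h0 L rfl

theorem isCoef_unique (p : ℝ) (hp0 : 0 < p) (hp1 : p < 1) (n : ℕ) (f : (ℕ → ℝ) → ℝ)
    (c c' : (Fin n → ℕ) → ℝ) (h : IsCoef p n f c) (h' : IsCoef p n f c') : c = c' := by
  have key := uniq p hp0 hp1 n (fun l => c l - c' l) ?_ ?_ ?_
  · funext l
    exact sub_eq_zero.1 (congrFun key l)
  · intro l hl
    show c l - c' l = 0
    rw [h.2.1 l hl, h'.2.1 l hl, sub_zero]
  · refine Summable.of_nonneg_of_le (fun l => ?_) (fun l => ?_)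
      ((h.2.2 one unitSeq_one).summable.add (h'.2.2 one unitSeq_one).summable)
    · exact mul_nonneg (abs_nonneg _) (G_nonneg p n l one (unitSeq_one.posPt hp0 hp1))
    · rw [← add_mul]
      refine mul_le_mul_of_nonneg_right ?_ (G_nonneg p n l one (unitSeq_one.posPt hp0 hp1))
      rw [abs_le]
      constructor <;> linarith [h.1 l, h'.1 l]
  · intro x hx
    have h1 := (h.2.2 x hx).sub (h'.2.2 x hx)
    rw [sub_self] at h1
    rw [← h1.tsum_eq]
    refine tsum_congr fun l => ?_
    rw [sub_mul]

end Pool.Agent.GroB
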