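import Pool.Agent.Lib_MP_58440c_pr.Conv3
import Pool.Agent.Lib_MP_58440c_pr.SSCont
import Pool.Agent.Lib_MP_58440c_pr.Uniq
import Pool.Agent.Lib_MP_58440c_pr.ColRec

/-!
# Piece CV4: multiplicative coherent systems are extreme

`c n l = M n l / G p n l one` are the coefficients of `prodF Φ n` (`hid`; `c = 0` off antitone), so
`PP p Φ` (`Φ 1 = 1` from `hid 1`, `M 1` has mass one) and `M n l = c n l * G p n l one`.
`moments` gives `φ`. Let `M = a M₁ + b M₂`, `a, b > 0`, `a + b = 1`, `M₁, M₂` coherent. `M₁ ≤ M / a`. For `y` as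
in `conv_L2` (length `k`): `SS p M₁ n y = SS p M₁ k y` for `n ≥ k` (`SS_succ`), and
`|SS p M₁ n y - prodF Φ k y| ≤ (∑' M₁ n l (hh - prodF)²)^(1/2) ≤ (a⁻¹ ∑' M n l (..)²)^(1/2) → 0`. So
`SS p M₁ k y = prodF Φ k y` for all `y` whose first `k` entries are distinct and `< 1`; by continuity
(`SS_continuous`, `phi_continuousOn`) for all `UnitSeq` `y` (both sides depend on `y 0, …, y (k-1)`
only). `isCoef_unique`: `M₁ k l / G p k l one = M k l / G p k l one`, so `M₁ = M`. Same for `M₂`.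
-/

open Finset Polynomial Filter Topology

namespace Pool.Agent.GroB

private lemma SS_stab4 (p : ℝ) (hp0 : 0 < p) (hp1 : p < 1) (M : (n : ℕ) → (Fin n → ℕ) → ℝ)
    (hM : Coherent p M) (m : ℕ) (y : ℕ → ℝ) (hy : UnitSeq y) (hy1 : ∀ j, m ≤ j → y j = 1)
    (d : ℕ) : SS p M (m + d) y = SS p M m y := by
  induction d with
  | zero => rfl
  | succ d ih =>
    rw [← ih, ← add_assoc]
    exact SS_succ p hp0 hp1 M hM (m + d) y hy (hy1 _ (by omega))

theorem mass_mul (p : ℝ) (hp0 : 0 < p) (hp1 : p < 1) (M : (n : ℕ) → (Fin n → ℕ) → ℝ)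
    (hM : Coherent p M) (n : ℕ) (l : Fin n → ℕ) :
    M n l / G p n l one * G p n l one = M n l := by
  by_cases hl : Antitone l
  · exact div_mul_cancel₀ _ (G_pos p n l hl one (unitSeq_one.posPt hp0 hp1)).ne'
  · rw [hM.supp n l hl]; simp

theorem isCoef_of_SS (p : ℝ) (hp0 : 0 < p) (hp1 : p < 1) (M : (n : ℕ) → (Fin n → ℕ) → ℝ)
    (hM : Coherent p M) (n : ℕ) (f : (ℕ → ℝ) → ℝ) (h : ∀ x, UnitSeq x → SS p M n x = f x) :
    IsCoef p n f fun l => M n l / G p n l one := by
  refine ⟨fun l => ?_, fun l hl => ?_, fun x hx => ?_⟩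
  · exact div_nonneg (hM.nonneg n l) (G_nonneg p n l one (unitSeq_one.posPt hp0 hp1))
  · change M n l / G p n l one = 0
    rw [hM.supp n l hl, zero_div]
  · have h1 := summable_hh p hp0 hp1 M hM n x hx
    rw [h x hx] at h1
    have e : (fun l => M n l * hh p n l x) = fun l => M n l / G p n l one * G p n l x := by
      funext l
      unfold hh
      ring
    rw [e] at h1
    exact h1

theorem conv_SS (p : ℝ) (hp0 : 0 < p) (hp1 : p < 1) (M : (n : ℕ) → (Fin n → ℕ) → ℝ)
    (hM : Coherent p M) (Φ : ℝ → ℝ) (hΦ1 : Φ 1 = 1)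
    (hSS : ∀ n x, UnitSeq x → SS p M n x = prodF Φ n x)
    (M' : (n : ℕ) → (Fin n → ℕ) → ℝ) (hM' : Coherent p M') (a : ℝ) (ha : 0 < a)
    (hle : ∀ n l, a * M' n l ≤ M n l) (n : ℕ) (x : ℕ → ℝ) (hx : UnitSeq x) :
    SS p M' n x = prodF Φ n x := by
  set c : ∀ n, (Fin n → ℕ) → ℝ := fun n l => M n l / G p n l one with hcdef
  have hc : ∀ n, IsCoef p n (prodF Φ n) (c n) := fun n =>
    isCoef_of_SS p hp0 hp1 M hM n _ (hSS n)
  have hcG : ∀ n l, c n l * G p n l one = M n l := fun n l => mass_mul p hp0 hp1 M hM n l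
  have hPP : PP p Φ := ⟨hΦ1, fun n => ⟨c n, hc n⟩⟩
  obtain ⟨φ, hφ, hsum, h2⟩ := moments p hp0 hp1 Φ hPP
  -- distinct points
  have main1 : ∀ (k : ℕ) (y : ℕ → ℝ), UnitSeq y → (∀ j, k ≤ j → y j = 1) →
      (∀ j, j < k → y j < 1) → (∀ i < k, ∀ j < k, y i = y j → i = j) →
      SS p M' k y = prodF Φ k y := by
    intro k y hy hy1 hlt hd
    have hlim := conv_L2 p hp0 hp1 Φ hΦ1 c hc φ hφ hsum h2 k y hy hy1 hlt hd
    simp only [hcG] at hlim
    have hlim2 := hlim.const_mul a⁻¹
    rw [mul_zero] at hlim2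
    obtain ⟨hS0, hS1⟩ := prodF_mem p hp0 hp1 Φ hPP k y hy
    set S := prodF Φ k y
    have hle1 : ∀ n l, |hh p n l y - S| ≤ 1 := fun n l =>
      abs_sub_le_one' (hh_nonneg p hp0 hp1 n l y hy) (hh_le_one p hp0 hp1 n l y hy) hS0.le hS1
    have key : ∀ n, k ≤ n → (SS p M' k y - S) ^ 2 ≤
        a⁻¹ * ∑' l, M n l * (hh p n l y - S) ^ 2 := by
      intro n hn
      obtain ⟨d, rfl⟩ := Nat.exists_eq_add_of_le hn
      have hst := SS_stab4 p hp0 hp1 M' hM' k y hy hy1 d
      set N := k + d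
      have s1 := summable_wsq (M' N) (fun l => hh p N l y - S) (hM'.nonneg N)
        (hM'.prob N).summable (hle1 N)
      have s2 := summable_wsq (M N) (fun l => hh p N l y - S) (hM.nonneg N)
        (hM.prob N).summable (hle1 N)
      have h1 : HasSum (fun l => M' N l * (hh p N l y - S)) (SS p M' k y - S) := by
        have h3 := (summable_hh p hp0 hp1 M' hM' N y hy).sub ((hM'.prob N).mul_right S)
        rw [hst, one_mul] at h3
        refine h3.congr_fun fun l => ?_
        ring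
      have h4 := (typ2_var_nonneg (M' N) (fun l => hh p N l y - S) (hM'.nonneg N) (hM'.prob N)
        _ _ h1 s1.hasSum 0).2
      refine h4.trans ?_
      rw [← tsum_mul_left]
      refine s1.tsum_le_tsum (fun l => ?_) (s2.mul_left _)
      rw [← mul_assoc]
      apply mul_le_mul_of_nonneg_right _ (sq_nonneg _)
      rw [inv_mul_eq_div, le_div_iff₀ ha, mul_comm]
      exact hle N l
    have hfin : (SS p M' k y - S) ^ 2 ≤ 0 :=
      ge_of_tendsto hlim2 ((eventually_ge_atTop k).mono key)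
    have h5 : SS p M' k y - S = 0 := by
      have := le_antisymm hfin (sq_nonneg _)
      exact pow_eq_zero_iff (two_ne_zero) |>.1 this
    linarith
  -- perturbation
  set U : Set (ℕ → ℝ) := {x | UnitSeq x} with hU
  set z : ℕ → ℝ := fun j => if j < n then x j else 1 with hz
  set y : ℝ → ℕ → ℝ := fun t j => if j < n then x j * t ^ (j + 1) else 1 with hy
  have hyz : y 1 = z := by
    funext j
    simp [hy, hz]
  have hzU : z ∈ U := by
    intro j
    by_cases h : j < n
    · simp only [hz, h, if_true]; exact hx j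
    · simp only [hz, h, if_false]; exact ⟨one_pos, le_rfl⟩
  have hev : ∀ᶠ t : ℝ in 𝓝[<] 1, 0 < t ∧ t < 1 := by
    have h1 : Set.Ioo (0 : ℝ) 1 ∈ 𝓝[<] (1 : ℝ) := Ioo_mem_nhdsLT one_pos
    exact h1
  have hyS : ∀ᶠ t : ℝ in 𝓝[<] 1, y t ∈ U := by
    refine hev.mono fun t ht j => ?_
    by_cases h : j < n
    · have h1 : 0 < t ^ (j + 1) := pow_pos ht.1 _
      have h2 : t ^ (j + 1) ≤ 1 := pow_le_one₀ ht.1.le ht.2.le
      simp only [hy, h, if_true]
      exact ⟨mul_pos (hx j).1 h1, mul_le_one₀ (hx j).2 h1.le h2⟩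
    · simp only [hy, h, if_false]; exact ⟨one_pos, le_rfl⟩
  have hyc : Continuous y := by
    refine continuous_pi fun j => ?_
    by_cases h : j < n
    · simp only [hy, h, if_true]
      fun_prop
    · simp only [hy, h, if_false]
      exact continuous_const
  have hyt : Tendsto y (𝓝[<] 1) (𝓝[U] z) := by
    rw [tendsto_nhdsWithin_iff]
    refine ⟨?_, hyS⟩
    have := (hyc.tendsto 1).mono_left (nhdsWithin_le_nhds (s := Set.Iio 1))
    rwa [hyz] at this
  have hdist : ∀ᶠ t : ℝ in 𝓝[<] 1, ∀ i ∈ range n, ∀ j ∈ range n, y t i = y t j → i = j := by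
    rw [Filter.eventually_all_finset]
    intro i hi
    rw [Filter.eventually_all_finset]
    intro j hj
    rw [Finset.mem_range] at hi hj
    by_cases hij : i = j
    · exact Filter.Eventually.of_forall fun t _ => hij
    by_cases hxx : x i = x j
    · refine hev.mono fun t ht h => ?_
      simp only [hy, hi, hj, if_true] at h
      rw [hxx] at h
      have h2 := mul_left_cancel₀ (hx j).1.ne' h
      have h3 := pow_right_injective₀ ht.1 ht.2.ne h2
      omega
    · have h1 : Tendsto (fun t => y t i - y t j) (𝓝[<] 1) (𝓝 (x i - x j)) := by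
        have hc1 : Continuous fun t => y t i - y t j :=
          ((continuous_apply i).comp hyc).sub ((continuous_apply j).comp hyc)
        have := (hc1.tendsto 1).mono_left (nhdsWithin_le_nhds (s := Set.Iio 1))
        rw [hyz] at this
        simpa [hz, hi, hj] using this
      have h2 : ∀ᶠ t in 𝓝[<] 1, y t i - y t j ≠ 0 :=
        h1.eventually_ne (sub_ne_zero.2 hxx)
      refine h2.mono fun t ht h => ?_
      exact absurd (sub_eq_zero.2 h) ht
  have hcont : ContinuousOn (fun y => SS p M' n y - prodF Φ n y) U :=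
    (SS_continuous p hp0 hp1 M' hM' n).sub (isCoef_continuousOn p hp0 hp1 n _ _ (hc n))
  have hlim := (hcont.continuousWithinAt hzU).tendsto.comp hyt
  have hzero : ∀ᶠ t in 𝓝[<] (1 : ℝ), ((fun y => SS p M' n y - prodF Φ n y) ∘ y) t = 0 := by
    filter_upwards [hyS, hdist, hev] with t ht1 ht2 ht3
    have h1 := main1 n (y t) ht1 (fun j hj => by simp [hy, not_lt.2 hj]) (fun j hj => by
      simp only [hy, hj, if_true]
      calc x j * t ^ (j + 1) ≤ 1 * t ^ (j + 1) :=
            mul_le_mul_of_nonneg_right (hx j).2 (pow_nonneg ht3.1.le _)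
        _ = t ^ (j + 1) := one_mul _
        _ < 1 := pow_lt_one₀ ht3.1.le ht3.2 (by omega)) (fun i hi j hj h =>
        ht2 i (Finset.mem_range.2 hi) j (Finset.mem_range.2 hj) h)
    simp only [Function.comp_apply]
    rw [h1, sub_self]
  have hfin := tendsto_nhds_unique (hlim.congr' hzero) tendsto_const_nhds
  have hzx : ∀ j ∈ range n, x j = z j := fun j hj => by
    simp only [hz, Finset.mem_range.mp hj, if_true]
  have h1 : SS p M' n x = SS p M' n z := by
    apply SS_perm p hp0 hp1 M' n x z hx hzU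
    exact Finset.prod_congr rfl fun j hj => by rw [hzx j hj]
  have h3 : prodF Φ n x = prodF Φ n z := Finset.prod_congr rfl fun j hj => by rw [hzx j hj]
  rw [h1, h3]
  linarith

theorem conv_extreme (p : ℝ) (hp0 : 0 < p) (hp1 : p < 1) (M : (n : ℕ) → (Fin n → ℕ) → ℝ)
    (hM : Coherent p M) (Φ : ℝ → ℝ)
    (hid : ∀ n x, UnitSeq x →
      HasSum (fun l => M n l * (G p n l x / G p n l one)) (prodF Φ n x)) :
    M ∈ Set.extremePoints ℝ {M | Coherent p M} := by
  have hSS : ∀ n x, UnitSeq x → SS p M n x = prodF Φ n x := fun n x hx =>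
    (summable_hh p hp0 hp1 M hM n x hx).unique (hid n x hx)
  have hΦ1 : Φ 1 = 1 := by
    have h := hSS 1 one unitSeq_one
    rw [SS_one p hp0 hp1 M hM 1] at h
    simpa [prodF] using h.symm
  rw [mem_extremePoints_iff_left]
  refine ⟨hM, fun M₁ hM₁ M₂ hM₂ hseg => ?_⟩
  obtain ⟨a, b, ha, hb, hab, hMe⟩ := hseg
  have hle : ∀ n l, a * M₁ n l ≤ M n l := by
    intro n l
    rw [← hMe]
    have h1 := mul_nonneg hb.le (hM₂.nonneg n l)
    simp only [Pi.add_apply, Pi.smul_apply, smul_eq_mul]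
    linarith
  have h1 := conv_SS p hp0 hp1 M hM Φ hΦ1 hSS M₁ hM₁ a ha hle
  funext n l
  have h2 := isCoef_unique p hp0 hp1 n (prodF Φ n) _ _
    (isCoef_of_SS p hp0 hp1 M₁ hM₁ n _ (h1 n)) (isCoef_of_SS p hp0 hp1 M hM n _ (hSS n))
  have h3 := congrFun h2 l
  rw [← mass_mul p hp0 hp1 M₁ hM₁ n l, h3, mass_mul p hp0 hp1 M hM n l]

end Pool.Agent.GroB
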