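import Pool.Agent.Lib_MP_58440c_pr.Conv4
import Pool.Agent.Lib_MP_58440c_pr.PolyB

/-!
# Piece CV5: the converse for the complex generating function

`Φr z = (Φ (z:ℂ)).re`. For `x` a `UnitSeq` the identity at `z i = (x i : ℂ)` has real terms
(`Gro_ofReal`, `Gro_eq_G`), so `∏ Φ (x i)` is real; `n = 1`: `Φ (x 0)` is real, `= Φr (x 0)`. Take real parts
(`Complex.hasSum_iff`/`HasSum.mapL Complex.reCLM`) to get the hypothesis of `conv_extreme`.
-/

open Finset Polynomial Filter Topology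

namespace Pool.Agent.GroB

/-- the identity at real points has real terms -/
theorem conv_real (p : ℝ) (M : (n : ℕ) → (Fin n → ℕ) → ℝ) (Φ : ℂ → ℂ)
    (hid : ∀ (n : ℕ) (z : Fin n → ℂ), (∀ i, ‖z i‖ ≤ 1) →
      HasSum (fun l : Fin n → ℕ =>
        (M n l : ℂ) * (Gro (p : ℂ) l z / Gro (p : ℂ) l (fun _ => 1))) (∏ i, Φ (z i)))
    (n : ℕ) (x : ℕ → ℝ) (hx : UnitSeq x) :
    HasSum (fun l : Fin n → ℕ => ((M n l * (G p n l x / G p n l one) : ℝ) : ℂ))
      (∏ i : Fin n, Φ ((x i : ℝ) : ℂ)) := by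
  have h := hid n (fun i => ((x i : ℝ) : ℂ)) (fun i => by
    rw [Complex.norm_real, Real.norm_eq_abs, abs_of_pos (hx i).1]
    exact (hx i).2)
  have h1 : ∀ l : Fin n → ℕ, (M n l : ℂ) * (Gro (p : ℂ) l (fun i => ((x i : ℝ) : ℂ)) /
      Gro (p : ℂ) l (fun _ => 1)) = ((M n l * (G p n l x / G p n l one) : ℝ) : ℂ) := by
    intro l
    have h2 := Gro_ofReal p l (fun i : Fin n => x i)
    have h3 := Gro_ofReal p l (fun _ : Fin n => (1 : ℝ))
    have h4 : (fun _ : Fin n => (1 : ℂ)) = fun _ : Fin n => (((1 : ℝ)) : ℂ) := by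
      funext _; simp
    rw [h4, h3, h2, Gro_eq_G, ← Gro_eq_G p n l one]
    push_cast
    rfl
  simpa only [h1] using h

theorem conv_main (p : ℝ) (hp0 : 0 < p) (hp1 : p < 1) (M : (n : ℕ) → (Fin n → ℕ) → ℝ)
    (hM : Coherent p M) (Φ : ℂ → ℂ)
    (hid : ∀ (n : ℕ) (z : Fin n → ℂ), (∀ i, ‖z i‖ ≤ 1) →
      HasSum (fun l : Fin n → ℕ =>
        (M n l : ℂ) * (Gro (p : ℂ) l z / Gro (p : ℂ) l (fun _ => 1))) (∏ i, Φ (z i))) :
    M ∈ Set.extremePoints ℝ {M | Coherent p M} := by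
  have hre : ∀ (n : ℕ) (x : ℕ → ℝ), UnitSeq x →
      HasSum (fun l : Fin n → ℕ => M n l * (G p n l x / G p n l one))
        ((∏ i : Fin n, Φ ((x i : ℝ) : ℂ)).re) ∧ (∏ i : Fin n, Φ ((x i : ℝ) : ℂ)).im = 0 := by
    intro n x hx
    have h := conv_real p M Φ hid n x hx
    refine ⟨?_, ?_⟩
    · have h1 := Complex.hasSum_re h
      simpa only [Complex.ofReal_re] using h1
    · have h1 := Complex.hasSum_im h
      simp only [Complex.ofReal_im] at h1
      exact h1.unique hasSum_zero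
  have hΦ : ∀ t : ℝ, 0 < t → t ≤ 1 → Φ (t : ℂ) = (((Φ (t : ℂ)).re : ℝ) : ℂ) := by
    intro t h0 h1
    have h := (hre 1 (fun _ => t) (fun _ => ⟨h0, h1⟩)).2
    rw [Fin.prod_univ_one] at h
    apply Complex.ext
    · simp
    · simpa using h
  apply conv_extreme p hp0 hp1 M hM (fun t => (Φ (t : ℂ)).re)
  intro n x hx
  have h := (hre n x hx).1
  have h1 : (∏ i : Fin n, Φ ((x i : ℝ) : ℂ)).re = prodF (fun t => (Φ (t : ℂ)).re) n x := by
    have h2 : (∏ i : Fin n, Φ ((x i : ℝ) : ℂ)) =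
        ((∏ i : Fin n, (Φ ((x i : ℝ) : ℂ)).re : ℝ) : ℂ) := by
      rw [Complex.ofReal_prod]
      exact Finset.prod_congr rfl fun i _ => hΦ _ (hx i).1 (hx i).2
    rw [h2, Complex.ofReal_re, prodF]
    exact Fin.prod_univ_eq_prod_range (fun j => (Φ ((x j : ℝ) : ℂ)).re) n
  rw [h1] at h
  exact h

end Pool.Agent.GroB
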