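import Mathlib
import Pool.Agent.Lib_MP_58440c_pr.Base

/-!
# Grothendieck branching graph: definitions

Partitions with at most `n` parts are antitone functions `Fin n → ℕ`.
Evaluation points are sequences `x : ℕ → ℝ`; `G p n l x` uses `x 0, …, x (n-1)` only.
-/

open Finset Polynomial

namespace Pool.Agent.GroB

/-- The same, with a sequence of points (only `x 0, …, x (n-1)` are used). -/
def G {R : Type*} [CommRing R] (p : R) : (n : ℕ) → (Fin n → ℕ) → (ℕ → R) → R
  | 0, _, _ => 1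
  | n + 1, l, x => ∑ m ∈ below l, G p n m x * skew p l m (x n)

/-! ## Sequences of points -/

/-- put `z` in front of the sequence `x` -/
def cons {R : Type*} (z : R) (x : ℕ → R) : ℕ → R
  | 0 => z
  | n + 1 => x n

@[simp] theorem cons_zero {R : Type*} (z : R) (x : ℕ → R) : cons z x 0 = z := rfl
@[simp] theorem cons_succ {R : Type*} (z : R) (x : ℕ → R) (n : ℕ) : cons z x (n + 1) = x n := rfl

/-- the constant sequence one -/
def one : ℕ → ℝ := fun _ => 1

@[simp] theorem one_apply (n : ℕ) : one n = 1 := rfl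

/-- all points in `(0, 1/p)` -/
def PosPt (p : ℝ) (x : ℕ → ℝ) : Prop := ∀ j, 0 < x j ∧ p * x j < 1

/-- all points in `(0, 1]` -/
def UnitSeq (x : ℕ → ℝ) : Prop := ∀ j, 0 < x j ∧ x j ≤ 1

/-! ## Newton determinants -/

section Newton

variable {K : Type*} [Field K]

/-- iterated synthetic division by `X - x 0`, `X - x 1`, … -/
noncomputable def nq (x : ℕ → K) : ℕ → K[X] → K[X]
  | 0, f => f
  | j + 1, f => nq x j f /ₘ (X - C (x j))

/-- the divided difference `f[x_0, …, x_j]` -/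
noncomputable def ell (x : ℕ → K) (j : ℕ) (f : K[X]) : K := (nq x j f).eval (x j)

/-- `det [f_i[x_0, …, x_j]]`, i.e. `det [f_i(x_j)] / ∏_{i<j} (x_j - x_i)`, defined for all points -/
noncomputable def ND (n : ℕ) (f : Fin n → K[X]) (x : ℕ → K) : K :=
  (Matrix.of fun i j : Fin n => ell x j (f i)).det

/-- `X^l (1 - p X)^b` -/
noncomputable def ph (p : K) (l b : ℕ) : K[X] := X ^ l * (1 - C p * X) ^ b

/-- the row system of the partition `l` (rows in increasing order of the exponent of `X`) -/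
noncomputable def sys (p : K) (n : ℕ) (l : Fin n → ℕ) : Fin n → K[X] :=
  fun i => ph p (l i.rev + i) (n - 1 - i)

end Newton

/-! ## The polynomial in the first variable, and derivatives at one -/

/-- `G p (n+1) l (cons z x)` as a polynomial in `z` -/
noncomputable def GP (p : ℝ) : (n : ℕ) → (Fin (n + 1) → ℕ) → (ℕ → ℝ) → ℝ[X]
  | 0, l, _ => X ^ (l 0)
  | n + 1, l, x => ∑ m ∈ below l, C (skew p l m (x n)) * GP p n m x

/-- `D(l/m) = |l| - |m| - q r(l/m)`, `q = p/(1-p)`: the logarithmic derivative of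
`skew p l m` at `1`. -/
noncomputable def DD (p : ℝ) {n : ℕ} (l : Fin (n + 1) → ℕ) (m : Fin n → ℕ) : ℝ :=
  ((∑ i, l i : ℕ) : ℝ) - ((∑ i, m i : ℕ) : ℝ) - p / (1 - p) * rr l m

/-- derivative of `w ↦ G p (n+1) l (cons w y)` at `w = 1` (for `y` in the positive domain) -/
noncomputable def T (p : ℝ) (n : ℕ) (l : Fin (n + 1) → ℕ) (y : ℕ → ℝ) : ℝ :=
  ∑ m ∈ below l, skew p l m 1 * DD p l m * G p n m y

/-- the second derivative of `w ↦ G p (n+1) l (cons w y)` at `w = 1` -/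
noncomputable def T2 (p : ℝ) (n : ℕ) (l : Fin (n + 1) → ℕ) (y : ℕ → ℝ) : ℝ :=
  ((GP p n l y).derivative.derivative).eval 1

/-- the covariance `Cov(D, A(z))` at level `n+1`, base points `x` -/
noncomputable def Cov (p : ℝ) (n : ℕ) (l : Fin (n + 1) → ℕ) (x : ℕ → ℝ) (z : ℝ) : ℝ :=
  T p n l (cons z x) / G p (n + 1) l x
    - T p n l x / G p (n + 1) l x * (G p (n + 1) l (cons z x) / G p (n + 1) l x)

/-! ## Positivity -/

/-- `f` is a nonnegative combination of the `G p n l` -/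
def IsCoef (p : ℝ) (n : ℕ) (f : (ℕ → ℝ) → ℝ) (c : (Fin n → ℕ) → ℝ) : Prop :=
  (∀ l, 0 ≤ c l) ∧ (∀ l, ¬ Antitone l → c l = 0) ∧
    ∀ x, UnitSeq x → HasSum (fun l => c l * G p n l x) (f x)

def GPos (p : ℝ) (n : ℕ) (f : (ℕ → ℝ) → ℝ) : Prop := ∃ c, IsCoef p n f c

/-- `x ↦ Φ(x_0) ⋯ Φ(x_{n-1})` -/
noncomputable def prodF (Φ : ℝ → ℝ) (n : ℕ) (x : ℕ → ℝ) : ℝ := ∏ j ∈ range n, Φ (x j)

/-- multiplicative `G`-positive functions -/
def PP (p : ℝ) (Φ : ℝ → ℝ) : Prop := Φ 1 = 1 ∧ ∀ n, GPos p n (prodF Φ n)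

end Pool.Agent.GroB
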