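import Pool.Agent.Lib_MP_58440c_pr.LemA
import Pool.Agent.Lib_MP_58440c_pr.PolyB

/-!
# Piece DET: the determinantal formula (first part of the final statement)

For `x` with all coordinates nonzero, `1 - p x_j ≠ 0`: `Gro_eq_G`, `G_eq_ND` and `ND_vdm`, then
reverse the order of the rows: `sys p n l i` is row `rev i` of the matrix below; reversing the rows
of the matrix and replacing `x j - x i` by `x i - x j` both give the sign `(-1)^(n(n-1)/2)`
(e.g. reverse rows AND compare with the same identity for `l = 0`, or
`Matrix.det_permute'`-free: the ratio of the two signs is computed once and for all by applying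
`Matrix.det_vandermonde` to the matrix `x_j^(n-1-i)`).
Both sides are continuous in `x : Fin n → ℂ`, and the set of such `x` is dense
(`Continuous.ext_on`), if `p ≠ 0` remove also the points `x_j = 1/p`.
-/

open Finset Polynomial

namespace Pool.Agent.GroB

private theorem detForm_cont (p : ℂ) : ∀ (n : ℕ) (l : Fin n → ℕ),
    Continuous fun x : Fin n → ℂ => Gro p l x := by
  intro n
  induction n with
  | zero =>
    intro l
    simp only [Gro]
    exact continuous_const
  | succ n ih =>
    intro l
    simp only [Gro]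
    refine continuous_finset_sum _ fun m hm => ?_
    refine Continuous.mul ?_ ?_
    · exact (ih m).comp (continuous_pi fun i => continuous_apply _)
    · simp only [skew, if_pos hm]
      fun_prop

private theorem detForm_prod (n : ℕ) (x : Fin n → ℂ) :
    ∏ i, ∏ j ∈ Finset.Ioi i, (x i - x j) =
      (Equiv.Perm.sign (Fin.revPerm : Equiv.Perm (Fin n)) : ℂ) *
        ∏ i, ∏ j ∈ Finset.Ioi i, (x j - x i) := by
  have h1 := Matrix.det_projVandermonde (fun _ : Fin n => (1 : ℂ)) x
  simp only [one_mul] at h1
  have h2 := Matrix.det_vandermonde x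
  rw [← h2]
  have h3 : ∏ i, ∏ j ∈ Finset.Ioi i, (x i - x j) =
      (Matrix.projVandermonde (fun _ : Fin n => (1 : ℂ)) x).det := by
    rw [h1]
  rw [h3, ← Matrix.det_permute']
  congr 1
  ext i j
  simp [Matrix.projVandermonde_apply]

private theorem detForm_generic (p : ℂ) (n : ℕ) (l : Fin n → ℕ) (hl : Antitone l) (x : Fin n → ℂ)
    (hx : ∀ j, x j ≠ 0 ∧ 1 - p * x j ≠ 0) :
    Gro p l x * ∏ i, ∏ j ∈ Finset.Ioi i, (x i - x j) =
      (Matrix.of fun i j : Fin n =>
        x j ^ (l i + (n - 1 - (i : ℕ))) * (1 - p * x j) ^ (i : ℕ)).det := by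
  set y : ℕ → ℂ := fun j => if h : j < n then x ⟨j, h⟩ else 0 with hy
  have hyx : ∀ j : Fin n, y j = x j := by
    intro j
    simp [hy]
  have h1 : Gro p l x = G p n l y := by
    rw [← Gro_eq_G]
    congr 1
    funext j
    exact (hyx j).symm
  have h2 := G_eq_ND p n l hl y (by
    intro j hj
    have := hx ⟨j, hj⟩
    have h3 := hyx ⟨j, hj⟩
    simp only at h3
    rw [h3]
    exact this)
  have h3 := ND_vdm n (sys p n l) y
  rw [h1, h2, detForm_prod]
  have h4 : ∏ i : Fin n, ∏ j ∈ Finset.Ioi i, (y j - y i) =
      ∏ i : Fin n, ∏ j ∈ Finset.Ioi i, (x j - x i) := by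
    refine Finset.prod_congr rfl fun i _ => Finset.prod_congr rfl fun j _ => ?_
    rw [hyx, hyx]
  rw [h4] at h3
  have h5 : ND n (sys p n l) y * ((Equiv.Perm.sign (Fin.revPerm : Equiv.Perm (Fin n)) : ℂ) *
        ∏ i, ∏ j ∈ Finset.Ioi i, (x j - x i)) =
      (Equiv.Perm.sign (Fin.revPerm : Equiv.Perm (Fin n)) : ℂ) *
        (Matrix.of fun i j : Fin n => ((sys p n l) i).eval (y j)).det := by
    rw [h3]
    ring
  rw [h5, ← Matrix.det_permute]
  congr 1
  ext i j
  simp only [Matrix.submatrix_apply, Matrix.of_apply, id, Fin.revPerm_apply]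
  rw [sys, ph_eval, hyx, Fin.rev_rev, Fin.val_rev]
  congr 2
  · congr 1
    omega
  · omega

theorem det_form (p : ℂ) (n : ℕ) (l : Fin n → ℕ) (hl : Antitone l) (x : Fin n → ℂ) :
    Gro p l x * ∏ i, ∏ j ∈ Finset.Ioi i, (x i - x j) =
      (Matrix.of fun i j : Fin n =>
        x j ^ (l i + (n - 1 - (i : ℕ))) * (1 - p * x j) ^ (i : ℕ)).det := by
  have hd : Dense ((Set.univ : Set (Fin n)).pi fun _ => {z : ℂ | z = 0 ∨ 1 - p * z = 0}ᶜ) := by
    refine dense_pi _ fun i _ => ?_
    apply Set.Countable.dense_compl ℂ
    apply Set.Finite.countable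
    apply Set.Finite.subset (s := {0, p⁻¹}) (by simp)
    rintro z (hz | hz)
    · simp [hz]
    · right
      have : p * z = 1 := by linear_combination -hz
      have hp : p ≠ 0 := by
        rintro rfl
        simp at this
      simp only [Set.mem_singleton_iff]
      field_simp
      linear_combination this
  have hc1 : Continuous fun x : Fin n → ℂ => Gro p l x * ∏ i, ∏ j ∈ Finset.Ioi i, (x i - x j) := by
    refine (detForm_cont p n l).mul ?_
    fun_prop
  have hc2 : Continuous fun x : Fin n → ℂ => (Matrix.of fun i j : Fin n =>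
        x j ^ (l i + (n - 1 - (i : ℕ))) * (1 - p * x j) ^ (i : ℕ)).det := by
    apply Continuous.matrix_det
    refine continuous_matrix fun i j => ?_
    simp only [Matrix.of_apply]
    fun_prop
  have := Continuous.ext_on hd hc1 hc2 (by
    intro x hx
    apply detForm_generic p n l hl x
    intro j
    have := hx j (Set.mem_univ j)
    simp only [Set.mem_compl_iff, Set.mem_ofPred_eq, not_or] at this
    exact this)
  exact congrFun this x

end Pool.Agent.GroB
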