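import Pool.Agent.Lib_MP_58440c_pr.ColRec

/-!
# Piece DN: the numbers `d_n` and the expansion of `1/Φ`

`dn c n = Pf p n (c n) one`. `0 ≤ dn ≤ 1`: `dn = ∑' c (l+1) G p n (l+1) one ≤ ∑' c l G p n l one = 1`
(`G_add_one` at `one`, injectivity of `l ↦ l + 1`). `dn 0 = 1`.
Put `D n z = Pf p n (c n) (cons z one) / Φ z`. `col_rec_one` with `k = 0`, `y = one` (`n ≥ 1`):
`(1-pz) D n z = (1-p) dn n + (1-z) D (n+1) z`, so with `ρ = (1-z)/(1-pz)`
`D n z = (1-p)/(1-pz) dn n + ρ D (n+1) z`. `0 ≤ D n z ≤ 1/Φ z` (`Pf_gpos`, `Pf (cons z one) ≤ Pf one`).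
`ρ < 1`, so `D 1 z = (1-p)/(1-pz) ∑_{j ≥ 1} dn j ρ^(j-1)`. And
`z * Pf p 1 (c 1) (cons z one) = Φ z - φ₀` (`col_split`/`col_formula` with `n = 0`), i.e.
`1 - φ₀/Φ z = z (1-p)/(1-pz) ∑_{j≥1} dn j ρ^(j-1) = (1-ρ) ∑_{j ≥ 1} dn j ρ^(j-1)`. Hence
`φ₀/Φ z = ∑_{j ≥ 0} (dn j - dn (j+1)) ρ^j`.
-/

open Finset Polynomial Filter Topology

namespace Pool.Agent.GroB

noncomputable def dn (p : ℝ) (c : ∀ n, (Fin n → ℕ) → ℝ) (n : ℕ) : ℝ := Pf p n (c n) one

theorem dn_nonneg (p : ℝ) (hp0 : 0 < p) (hp1 : p < 1) (Φ : ℝ → ℝ)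
    (c : ∀ n, (Fin n → ℕ) → ℝ) (hc : ∀ n, IsCoef p n (prodF Φ n) (c n)) (n : ℕ) :
    0 ≤ dn p c n := by
  have h := Pf_gpos p hp0 hp1 Φ c hc n
  refine (h.2.2 one unitSeq_one).nonneg fun l => ?_
  exact mul_nonneg (h.1 l) (G_nonneg p n l one (unitSeq_one.posPt hp0 hp1))

theorem dn_le_one (p : ℝ) (hp0 : 0 < p) (hp1 : p < 1) (Φ : ℝ → ℝ) (hΦ1 : Φ 1 = 1)
    (c : ∀ n, (Fin n → ℕ) → ℝ) (hc : ∀ n, IsCoef p n (prodF Φ n) (c n)) (n : ℕ) :
    dn p c n ≤ 1 := by
  have h := (Pf_gpos p hp0 hp1 Φ c hc n).2.2 one unitSeq_one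
  have h1 := (hc n).2.2 one unitSeq_one
  have e : prodF Φ n one = 1 := by simp [prodF, hΦ1]
  rw [e] at h1
  refine hasSum_le_inj (fun l : Fin n → ℕ => fun i => l i + 1) ?_ ?_ ?_ h h1
  · intro l l' hll
    funext i
    have := congrFun hll i
    simp only at this
    omega
  · intro l _
    exact mul_nonneg ((hc n).1 l) (G_nonneg p n l one (unitSeq_one.posPt hp0 hp1))
  · intro l
    rw [G_add_one]
    simp

theorem Pf_le_dn (p : ℝ) (hp0 : 0 < p) (hp1 : p < 1) (Φ : ℝ → ℝ)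
    (c : ∀ n, (Fin n → ℕ) → ℝ) (hc : ∀ n, IsCoef p n (prodF Φ n) (c n)) (n : ℕ) (x : ℕ → ℝ)
    (hx : UnitSeq x) : 0 ≤ Pf p n (c n) x ∧ Pf p n (c n) x ≤ dn p c n := by
  have h := Pf_gpos p hp0 hp1 Φ c hc n
  constructor
  · refine (h.2.2 x hx).nonneg fun l => ?_
    exact mul_nonneg (h.1 l) (G_nonneg p n l x (hx.posPt hp0 hp1))
  · refine hasSum_le (fun l => ?_) (h.2.2 x hx) (h.2.2 one unitSeq_one)
    exact mul_le_mul_of_nonneg_left (G_le_one p hp0 hp1 n l x hx) (h.1 l)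

private theorem G1_eq (p : ℝ) (l : Fin 1 → ℕ) (x : ℕ → ℝ) : G p 1 l x = x 0 ^ l 0 := by
  have h : (GP p 0 l (fun j => x (j + 1))).eval (x 0) =
      G p 1 l (cons (x 0) (fun j => x (j + 1))) := GP_eval p 0 l (fun j => x (j + 1)) (x 0)
  have e : cons (x 0) (fun j => x (j + 1)) = x := by
    funext j; cases j <;> rfl
  rw [e] at h
  rw [← h, GP]
  simp

theorem phi_pos (p : ℝ) (hp0 : 0 < p) (hp1 : p < 1) (Φ : ℝ → ℝ) (h : PP p Φ) (z : ℝ)
    (hz : 0 < z) (hz1 : z ≤ 1) : 0 < Φ z ∧ Φ z ≤ 1 := by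
  obtain ⟨c, hc0, -, hc⟩ := h.2 1
  have hzu : UnitSeq (cons z one) := unitSeq_one.cons hz hz1
  have h1 := hc one unitSeq_one
  have h2 := hc (cons z one) hzu
  have e1 : prodF Φ 1 one = 1 := by simp [prodF, h.1]
  have e2 : prodF Φ 1 (cons z one) = Φ z := by simp [prodF]
  rw [e1] at h1
  rw [e2] at h2
  have hpos : ∀ l : Fin 1 → ℕ, 0 < G p 1 l (cons z one) := by
    intro l
    rw [G1_eq, cons_zero]
    exact pow_pos hz _
  constructor
  · have hnn : 0 ≤ Φ z := h2.nonneg fun l => mul_nonneg (hc0 l) (hpos l).le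
    rcases hnn.lt_or_eq with h3 | h3
    · exact h3
    · exfalso
      rw [← h3] at h2
      have h4 := (hasSum_zero_iff_of_nonneg fun l => mul_nonneg (hc0 l) (hpos l).le).1 h2
      have h5 : ∀ l, c l = 0 := by
        intro l
        have := congrFun h4 l
        simp only [Pi.zero_apply, mul_eq_zero] at this
        exact this.resolve_right (hpos l).ne'
      have h6 : HasSum (fun l => c l * G p 1 l one) 0 := by
        simp only [h5, zero_mul]
        exact hasSum_zero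
      exact one_ne_zero (h1.unique h6)
  · refine hasSum_le (fun l => ?_) h2 h1
    exact mul_le_mul_of_nonneg_left (G_le_one p hp0 hp1 1 l _ hzu) (hc0 l)

theorem inv_phi (p : ℝ) (hp0 : 0 < p) (hp1 : p < 1) (Φ : ℝ → ℝ) (hΦ1 : Φ 1 = 1)
    (c : ∀ n, (Fin n → ℕ) → ℝ) (hc : ∀ n, IsCoef p n (prodF Φ n) (c n)) (z : ℝ) (hz : 0 < z)
    (hz1 : z ≤ 1) :
    HasSum (fun n => (dn p c n - dn p c (n + 1)) * ((1 - z) / (1 - p * z)) ^ n)
      (c 1 (fun _ => 0) / Φ z) := by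
  have hΦz : 0 < Φ z := (phi_pos p hp0 hp1 Φ ⟨hΦ1, fun n => ⟨_, hc n⟩⟩ z hz hz1).1
  have hzu : UnitSeq (cons z one) := unitSeq_one.cons hz hz1
  have hq : 0 < 1 - p := by linarith
  have hpz : 0 < 1 - p * z := by nlinarith
  set ρ : ℝ := (1 - z) / (1 - p * z) with hρ
  have hρ0 : 0 ≤ ρ := div_nonneg (by linarith) hpz.le
  have hρ1 : ρ < 1 := by rw [hρ, div_lt_one hpz]; nlinarith
  set D : ℕ → ℝ := fun n => Pf p n (c n) (cons z one) / Φ z with hD
  have hD0 : ∀ n, 0 ≤ D n := fun n =>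
    div_nonneg (Pf_le_dn p hp0 hp1 Φ c hc n _ hzu).1 hΦz.le
  have hD1 : ∀ n, D n ≤ 1 / Φ z := fun n =>
    div_le_div_of_nonneg_right ((Pf_le_dn p hp0 hp1 Φ c hc n _ hzu).2.trans
      (dn_le_one p hp0 hp1 Φ hΦ1 c hc n)) hΦz.le
  have hrec : ∀ n, 1 ≤ n → D n = (1 - p) / (1 - p * z) * dn p c n + ρ * D (n + 1) := by
    intro n hn
    have h := col_rec_one p hp0 hp1 Φ hΦ1 c hc n 0 (by omega) z hz hz1 one unitSeq_one
      (fun j _ => rfl)
    have hd : dn p c n = Pf p n (c n) one := rfl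
    rw [← hd] at h
    simp only [hD, hρ]
    field_simp
    linear_combination -h
  -- the partial sums
  have hpart : ∀ N, D 1 = ∑ j ∈ range N, (1 - p) / (1 - p * z) * dn p c (j + 1) * ρ ^ j +
      ρ ^ N * D (N + 1) := by
    intro N
    induction N with
    | zero => simp
    | succ N ih =>
      rw [ih, Finset.sum_range_succ, hrec (N + 1) (by omega)]
      ring
  have hdn0 : ∀ n, 0 ≤ dn p c n := dn_nonneg p hp0 hp1 Φ c hc
  have hdn1 : ∀ n, dn p c n ≤ 1 := dn_le_one p hp0 hp1 Φ hΦ1 c hc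
  have hsumD : HasSum (fun j => (1 - p) / (1 - p * z) * dn p c (j + 1) * ρ ^ j) (D 1) := by
    rw [hasSum_iff_tendsto_nat_of_nonneg]
    · have h1 : Tendsto (fun N => D 1 - ρ ^ N * D (N + 1)) atTop (𝓝 (D 1 - 0)) := by
        refine tendsto_const_nhds.sub ?_
        refine squeeze_zero (g := fun N => ρ ^ N * (1 / Φ z))
          (fun N => mul_nonneg (pow_nonneg hρ0 N) (hD0 _))
          (fun N => mul_le_mul_of_nonneg_left (hD1 _) (pow_nonneg hρ0 N)) ?_
        have := (tendsto_pow_atTop_nhds_zero_of_lt_one hρ0 hρ1).mul_const (1 / Φ z)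
        rwa [zero_mul] at this
      rw [sub_zero] at h1
      refine h1.congr fun N => ?_
      rw [hpart N]
      ring
    · intro j
      exact mul_nonneg (mul_nonneg (div_nonneg hq.le hpz.le) (hdn0 _)) (pow_nonneg hρ0 _)
  have hS : HasSum (fun j => dn p c (j + 1) * ρ ^ j) ((1 - p * z) / (1 - p) * D 1) := by
    have h1 := hsumD.mul_left ((1 - p * z) / (1 - p))
    refine h1.congr_fun ?_
    intro j
    show _ = _
    field_simp
  -- `d_0 = 1` and `Φ z = φ₀ + z P_1`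
  have hc00 : ∀ l : Fin 0 → ℕ, c 0 l = 1 := by
    intro l
    have h := (hc 0).2.2 one unitSeq_one
    have e : prodF Φ 0 one = 1 := by simp [prodF]
    rw [e] at h
    have h2 : HasSum (fun l => c 0 l * G p 0 l one) (c 0 l * G p 0 l one) := by
      refine hasSum_single l fun l' hl' => ?_
      exact absurd (Subsingleton.elim l' l) hl'
    have h3 := h.unique h2
    rw [h3]
    simp [G]
  have hd0 : dn p c 0 = 1 := by
    unfold dn Pf
    rw [tsum_eq_single (fun i : Fin 0 => i.elim0) (fun l' hl' => absurd (Subsingleton.elim l' _) hl')]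
    rw [hc00]
    simp [G]
  have hsplit := col_split p hp0 hp1 Φ c hc 0 (cons z one) hzu
  have e1 : prodF Φ (0 + 1) (cons z one) = Φ z := by simp [prodF]
  have e2 : (∏ j ∈ range (0 + 1), (cons z one) j) = z := by simp
  have e3 : ∑' l : Fin 0 → ℕ, c 0 l * G p (0 + 1) (Fin.snoc (α := fun _ => ℕ) l 0) (cons z one) = 1 := by
    rw [tsum_eq_single (fun i : Fin 0 => i.elim0) (fun l' hl' => absurd (Subsingleton.elim l' _) hl')]
    rw [hc00, one_mul]
    have e4 : (Fin.snoc (α := fun _ => ℕ) (fun i : Fin 0 => i.elim0) 0 : Fin (0 + 1) → ℕ) =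
        fun _ => 0 := by
      funext i
      have : i = Fin.last 0 := by
        apply Fin.ext
        have := i.2
        simp
      rw [this, Fin.snoc_last]
    rw [e4, G_zero]
  rw [e1, e2, e3, mul_one] at hsplit
  have hval : c 1 (fun _ => 0) / Φ z = 1 - z * D 1 := by
    simp only [hD]
    field_simp
    linear_combination -hsplit
  -- final sum
  have hS0 : HasSum (fun n => dn p c n * ρ ^ n) (1 + ρ * ((1 - p * z) / (1 - p) * D 1)) := by
    rw [← hasSum_nat_add_iff' 1]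
    simp only [Finset.sum_range_one, pow_zero, mul_one, hd0]
    have h1 := hS.mul_left ρ
    have e5 : 1 + ρ * ((1 - p * z) / (1 - p) * D 1) - 1 = ρ * ((1 - p * z) / (1 - p) * D 1) := by ring
    rw [e5]
    refine h1.congr_fun ?_
    intro j
    show _ = _
    rw [pow_succ]
    ring
  have hfin := hS0.sub hS
  have e6 : 1 + ρ * ((1 - p * z) / (1 - p) * D 1) - (1 - p * z) / (1 - p) * D 1 =
      c 1 (fun _ => 0) / Φ z := by
    have e7 : ρ * ((1 - p * z) / (1 - p) * D 1) = (1 - z) / (1 - p) * D 1 := by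
      rw [hρ, ← mul_assoc, div_mul_div_cancel₀ hpz.ne']
    rw [hval, e7]
    have hq' := hq.ne'
    field_simp
    ring
  rw [e6] at hfin
  refine hfin.congr_fun ?_
  intro n
  show _ = _
  ring

end Pool.Agent.GroB
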