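import Pool.Agent.Lib_MP_58440c_pr.NdLin

/-!
# Piece ELIM: Gaussian elimination of the first point
-/

open Finset Polynomial

namespace Pool.Agent.GroB

variable {K : Type*} [Field K]

theorem ell_C_mul (x : ℕ → K) (j : ℕ) (c : K) (f : K[X]) : ell x j (C c * f) = c * ell x j f := by
  rw [ell, nq_C_mul, eval_mul, eval_C]; rfl

theorem ell_add (x : ℕ → K) (j : ℕ) (f g : K[X]) : ell x j (f + g) = ell x j f + ell x j g := by
  rw [ell, nq_add, eval_add]; rfl

theorem ND_elim (n : ℕ) (f : Fin (n + 1) → K[X]) (a : K) (x : ℕ → K) (h : Fin n → K[X])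
    (c : Fin n → K) (hh : ∀ i : Fin n, f i.succ - C (c i) * f i.castSucc = (X - C a) * h i) :
    ND (n + 1) f (cons a x) = (f 0).eval a * ND n h x := by
  set A : Matrix (Fin (n + 1)) (Fin (n + 1)) K :=
    Matrix.of fun i j : Fin (n + 1) => ell (cons a x) j (f i) with hA
  set B : Matrix (Fin (n + 1)) (Fin (n + 1)) K :=
    Matrix.of fun i j : Fin (n + 1) =>
      ell (cons a x) j (Fin.cases (f 0) (fun i => (X - C a) * h i) i) with hB
  have hAB : A.det = B.det := by
    apply Matrix.det_eq_of_forall_row_eq_smul_add_pred c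
    · intro j; rfl
    · intro i j
      have : f i.succ = (X - C a) * h i + C (c i) * f i.castSucc := by
        rw [← hh i]; ring
      show ell (cons a x) j (f i.succ) = ell (cons a x) j ((X - C a) * h i) +
        c i * ell (cons a x) j (f i.castSucc)
      rw [this, ell_add, ell_C_mul]
  have hND : ND (n + 1) f (cons a x) = A.det := rfl
  rw [hND, hAB, Matrix.det_succ_column_zero, Fin.sum_univ_succ]
  have hz : ∀ i : Fin n, B i.succ 0 = 0 := by
    intro i
    show ell (cons a x) 0 ((X - C a) * h i) = 0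
    rw [ell_cons_zero]; simp
  rw [Finset.sum_eq_zero fun i _ => by rw [hz i]; ring]
  have h0 : B 0 0 = (f 0).eval a := by
    show ell (cons a x) 0 (f 0) = _
    rw [ell_cons_zero]
  rw [h0]
  have hsub : (B.submatrix (Fin.succAbove 0) Fin.succ).det = ND n h x := by
    unfold ND
    congr 1
    ext i j
    show ell (cons a x) ((j.succ : Fin (n + 1)) : ℕ) ((X - C a) * h i) = ell x j (h i)
    rw [Fin.val_succ, ell_cons_succ, divX_mul]
  rw [hsub]
  simp

end Pool.Agent.GroB
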