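import Mathlib

/-!
# Piece EXT: extreme chains: harmonic functions converge in L²

Let `S = ∑' M k h k`; by harmonicity `∑' l, M n l * h n l = S` for all `n ≥ k`.
Suppose the variance `V n = ∑' l, M n l * (h n l - S)^2` does not tend to `0`. By
`tendsto_iff_ultrafilter` take an ultrafilter `U ≤ atTop` with `V ↛ 0` along `U`; `V n ∈ [0,1]`, so
`V → v` along `U` with `v > 0` (compactness of `[0,1]`, `Ultrafilter` limits).
For `N ≥ k` and `n ≤ N` let `W⁺ N n` be the pushdown to level `n` of the weights
`M N l * (1 + (h N l - S))` (iterate `f ↦ (m ↦ ∑' l, f l * K l m)`), `W⁻ N n` the same with `1 - (..)`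
(extend by `M n` for `N < n` or `N < k`); `0 ≤ W^± N n m ≤ 2 M n m`, `W⁺ + W⁻ = 2 M`. Limits along `U` in
`N` exist: `M₁ n m`, `M₂ n m`. By dominated convergence (`tendsto_tsum_of_dominated_convergence`,
valid for every filter; bound `2 M (n+1) l * K l m`, summable by `hcoh`) both are coherent, of total
mass `1` (bound `2 M n m`). So `M₁ = M` by `hext`. But
`∑' m, M₁ k m * h k m = lim_U ∑' l, M N l (1 + (h N l - S)) h N l = S + v` (pushing down is dual to
harmonicity: `∑' m, (W⁺ N k m) h k m = ∑' l, M N l (1 + (h N l - S)) h N l`), and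
`∑' m, M k m * h k m = S`. Contradiction.
All sums are over nonnegative summable families bounded by `2 M`; use `ENNReal` or
`Summable.tsum_comm`/`HasSum` with `summable_prod_of_nonneg`.
-/


open Filter Topology

namespace Pool.Agent.GroB

namespace ExtAux

theorem _root_.HasSum.congr_pt_ext {A : Type*} {f g : A → ℝ} {a : ℝ} (hf : HasSum f a)
    (hfg : ∀ x, g x = f x) : HasSum g a := by
  have : g = f := funext hfg
  rw [this]
  exact hf

/-- duality of pushdown and harmonic extension -/
theorem push_dual {A B : Type*} (K : A → B → ℝ) (M w G : A → ℝ) (g : B → ℝ) (C : ℝ)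
    (hM : Summable M)
    (hw0 : ∀ l, 0 ≤ w l) (hwM : ∀ l, w l ≤ C * M l) (hK0 : ∀ l m, 0 ≤ K l m)
    (hg0 : ∀ m, 0 ≤ g m) (hG1 : ∀ l, M l ≠ 0 → G l ≤ 1)
    (hG : ∀ l, M l ≠ 0 → HasSum (fun m => K l m * g m) (G l)) :
    HasSum (fun m => (∑' l, w l * K l m) * g m) (∑' l, w l * G l) := by
  have hw00 : ∀ l, M l = 0 → w l = 0 := by
    intro l hl
    have h1 := hwM l
    rw [hl, mul_zero] at h1
    exact le_antisymm h1 (hw0 l)
  have hrow : ∀ l, HasSum (fun m => w l * K l m * g m) (w l * G l) := by
    intro l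
    by_cases hl : M l = 0
    · simp [hw00 l hl]
    · have := (hG l hl).mul_left (w l)
      simpa [mul_assoc] using this
  have hG0 : ∀ l, M l ≠ 0 → 0 ≤ G l := fun l hl =>
    (hG l hl).nonneg fun m => mul_nonneg (hK0 l m) (hg0 m)
  have hrs : Summable (fun l => w l * G l) := by
    refine Summable.of_nonneg_of_le (fun l => ?_) (fun l => ?_) (hM.mul_left C)
    · by_cases hl : M l = 0
      · simp [hw00 l hl]
      · exact mul_nonneg (hw0 l) (hG0 l hl)
    · by_cases hl : M l = 0
      · simp [hw00 l hl, hl]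
      · calc w l * G l ≤ w l * 1 := mul_le_mul_of_nonneg_left (hG1 l hl) (hw0 l)
          _ = w l := mul_one _
          _ ≤ C * M l := hwM l
  have hsum : Summable (fun p : A × B => w p.1 * K p.1 p.2 * g p.2) := by
    rw [summable_prod_of_nonneg
      (fun p => mul_nonneg (mul_nonneg (hw0 _) (hK0 _ _)) (hg0 _))]
    refine ⟨fun l => (hrow l).summable, ?_⟩
    have : (fun l => ∑' m, w l * K l m * g m) = fun l => w l * G l := by
      funext l
      exact (hrow l).tsum_eq
    simpa [this] using hrs
  have hT : ∑' p : A × B, w p.1 * K p.1 p.2 * g p.2 = ∑' l, w l * G l := by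
    rw [hsum.tsum_prod]
    exact tsum_congr fun l => (hrow l).tsum_eq
  have hswap : HasSum (fun p : B × A => w p.2 * K p.2 p.1 * g p.1) (∑' l, w l * G l) := by
    have h1 := hsum.hasSum
    rw [hT] at h1
    exact (Equiv.prodComm B A).hasSum_iff.2 h1
  have hcol : ∀ m, HasSum (fun l => w l * K l m * g m) ((∑' l, w l * K l m) * g m) := by
    intro m
    have h1 : Summable (fun l => w l * K l m * g m) := by
      have := hswap.summable.prod_factor m
      simpa using this
    have h2 : ∑' l, w l * K l m * g m = (∑' l, w l * K l m) * g m := tsum_mul_right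
    rw [← h2]
    exact h1.hasSum
  exact hswap.prod_fiberwise hcol

section

variable {Y : ℕ → Type*} (K : ∀ n, Y (n + 1) → Y n → ℝ) (w : ∀ n, Y n → ℝ)

/-- pushdown of the weights `w N` from level `N` to level `n ≤ N` (`w n` for `n ≥ N`) -/
noncomputable def FF (N : ℕ) (n : ℕ) : Y n → ℝ :=
  if N ≤ n then w n else fun m => ∑' l, FF N (n + 1) l * K n l m
termination_by N - n
decreasing_by omega

theorem FF_ge {N n : ℕ} (h : N ≤ n) : FF K w N n = w n := by
  rw [FF, if_pos h]

theorem FF_lt {N n : ℕ} (h : n < N) (m : Y n) :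
    FF K w N n m = ∑' l, FF K w N (n + 1) l * K n l m := by
  rw [FF, if_neg (by omega)]

variable (M : ∀ n, Y n → ℝ)

theorem FF_bd (hK0 : ∀ n l m, 0 ≤ K n l m)
    (hcoh : ∀ n m, HasSum (fun l => M (n + 1) l * K n l m) (M n m))
    (hw0 : ∀ n l, 0 ≤ w n l) (hw2 : ∀ n l, w n l ≤ 2 * M n l) (N : ℕ) :
    ∀ d n, N - n ≤ d → ∀ m, 0 ≤ FF K w N n m ∧ FF K w N n m ≤ 2 * M n m := by
  intro d
  induction d with
  | zero =>
      intro n hn m
      rw [FF_ge K w (by omega)]
      exact ⟨hw0 n m, hw2 n m⟩
  | succ d ih =>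
      intro n hn m
      by_cases h : N ≤ n
      · rw [FF_ge K w h]
        exact ⟨hw0 n m, hw2 n m⟩
      · have ih' := ih (n + 1) (by omega)
        rw [FF_lt K w (by omega)]
        have hs : HasSum (fun l => 2 * M (n + 1) l * K n l m) (2 * M n m) := by
          have := (hcoh n m).mul_left 2
          simpa [mul_assoc] using this
        have h0 : ∀ l, 0 ≤ FF K w N (n + 1) l * K n l m := fun l =>
          mul_nonneg (ih' l).1 (hK0 n l m)
        have h1 : ∀ l, FF K w N (n + 1) l * K n l m ≤ 2 * M (n + 1) l * K n l m := fun l =>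
          mul_le_mul_of_nonneg_right (ih' l).2 (hK0 n l m)
        refine ⟨tsum_nonneg h0, ?_⟩
        rw [← hs.tsum_eq]
        exact Summable.tsum_le_tsum h1 (Summable.of_nonneg_of_le h0 h1 hs.summable) hs.summable

end

end ExtAux

open ExtAux

theorem ext_abs {Y : ℕ → Type*} [∀ n, Countable (Y n)] (K : ∀ n, Y (n + 1) → Y n → ℝ)
    (M : ∀ n, Y n → ℝ) (hM0 : ∀ n l, 0 ≤ M n l) (hM1 : ∀ n, HasSum (M n) 1)
    (hK0 : ∀ n l m, 0 ≤ K n l m) (hK1 : ∀ n l, M (n + 1) l ≠ 0 → HasSum (K n l) 1)
    (hcoh : ∀ n m, HasSum (fun l => M (n + 1) l * K n l m) (M n m))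
    (hext : ∀ M₁ M₂ : ∀ n, Y n → ℝ, (∀ n l, 0 ≤ M₁ n l) → (∀ n l, 0 ≤ M₂ n l) →
      (∀ n l, M₁ n l + M₂ n l = 2 * M n l) → (∀ n, HasSum (M₁ n) 1) → (∀ n, HasSum (M₂ n) 1) →
      (∀ n m, HasSum (fun l => M₁ (n + 1) l * K n l m) (M₁ n m)) →
      (∀ n m, HasSum (fun l => M₂ (n + 1) l * K n l m) (M₂ n m)) → M₁ = M)
    (k : ℕ) (h : ∀ n, Y n → ℝ) (hh0 : ∀ n, k ≤ n → ∀ l, 0 ≤ h n l)
    (hh1 : ∀ n, k ≤ n → ∀ l, h n l ≤ 1)
    (hharm : ∀ n, k ≤ n → ∀ l, M (n + 1) l ≠ 0 →
      HasSum (fun m => K n l m * h n m) (h (n + 1) l)) :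
    Tendsto (fun n => ∑' l, M n l * (h n l - ∑' m, M k m * h k m) ^ 2) atTop (𝓝 0) := by
  classical
  set S : ℝ := ∑' m, M k m * h k m with hS
  -- the mean of `h n` is `S`
  have hMh : ∀ n, k ≤ n → Summable (fun l => M n l * h n l) := fun n hn =>
    Summable.of_nonneg_of_le (fun l => mul_nonneg (hM0 n l) (hh0 n hn l))
      (fun l => by
        calc M n l * h n l ≤ M n l * 1 := mul_le_mul_of_nonneg_left (hh1 n hn l) (hM0 n l)
          _ = M n l := mul_one _) (hM1 n).summable
  have hMhS : ∀ n, k ≤ n → HasSum (fun l => M n l * h n l) S := by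
    intro n hn
    induction n, hn using Nat.le_induction with
    | base => exact (hMh k le_rfl).hasSum
    | succ n hn ih =>
        have h1 := push_dual (K n) (M (n + 1)) (M (n + 1)) (h (n + 1)) (h n) 1
          (hM1 (n + 1)).summable (hM0 (n + 1)) (fun l => by simp) (hK0 n) (hh0 n hn)
          (fun l _ => hh1 (n + 1) (by omega) l) (hharm n hn)
        have h2 : (fun m => (∑' l, M (n + 1) l * K n l m) * h n m) = fun m => M n m * h n m := by
          funext m
          rw [(hcoh n m).tsum_eq]
        rw [h2] at h1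
        have h3 := h1.unique ih
        rw [← h3]
        exact (hMh (n + 1) (by omega)).hasSum
  have hS0 : 0 ≤ S := (hMhS k le_rfl).nonneg fun l => mul_nonneg (hM0 k l) (hh0 k le_rfl l)
  have hS1 : S ≤ 1 := by
    refine hasSum_le (fun l => ?_) (hMhS k le_rfl) (hM1 k)
    calc M k l * h k l ≤ M k l * 1 := mul_le_mul_of_nonneg_left (hh1 k le_rfl l) (hM0 k l)
      _ = M k l := mul_one _
  -- the weights
  let w : ∀ n, Y n → ℝ := fun n l => if k ≤ n then M n l * (1 + (h n l - S)) else M n l
  have hw0 : ∀ n l, 0 ≤ w n l := by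
    intro n l
    by_cases hn : k ≤ n
    · simp only [w, if_pos hn]
      exact mul_nonneg (hM0 n l) (by linarith [hh0 n hn l])
    · simp only [w, if_neg hn]
      exact hM0 n l
  have hw2 : ∀ n l, w n l ≤ 2 * M n l := by
    intro n l
    by_cases hn : k ≤ n
    · simp only [w, if_pos hn]
      have := hM0 n l
      have := hh1 n hn l
      nlinarith
    · simp only [w, if_neg hn]
      linarith [hM0 n l]
  have hwn : ∀ n, k ≤ n → ∀ l, w n l = M n l * (1 + (h n l - S)) := by
    intro n hn l
    simp only [w, if_pos hn]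
  have hwmass : ∀ n, HasSum (w n) 1 := by
    intro n
    by_cases hn : k ≤ n
    · have h1 := ((hM1 n).add (hMhS n hn)).sub ((hM1 n).mul_left S)
      have h2 : (1 : ℝ) + S - S * 1 = 1 := by ring
      rw [h2] at h1
      refine h1.congr_pt_ext ?_
      intro l
      rw [hwn n hn l]
      ring
    · have : w n = M n := by
        funext l
        simp only [w, if_neg hn]
      rw [this]
      exact hM1 n
  have hbd := FF_bd K w M hK0 hcoh hw0 hw2
  have hF0 : ∀ N n m, 0 ≤ FF K w N n m := fun N n m => (hbd N (N - n) n le_rfl m).1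
  have hF2 : ∀ N n m, FF K w N n m ≤ 2 * M n m := fun N n m => (hbd N (N - n) n le_rfl m).2
  -- mass is preserved
  have hmass : ∀ N n, HasSum (FF K w N n) 1 := by
    intro N
    have key : ∀ d n, N - n ≤ d → HasSum (FF K w N n) 1 := by
      intro d
      induction d with
      | zero =>
          intro n hn
          rw [FF_ge K w (by omega)]
          exact hwmass n
      | succ d ih =>
          intro n hn
          by_cases hNn : N ≤ n
          · rw [FF_ge K w hNn]
            exact hwmass n
          · have h1 := push_dual (K n) (M (n + 1)) (FF K w N (n + 1)) (fun _ => 1) (fun _ => 1) 2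
              (hM1 (n + 1)).summable (hF0 N (n + 1)) (hF2 N (n + 1)) (hK0 n) (fun _ => zero_le_one)
              (fun l _ => le_rfl) (fun l hl => by simpa using hK1 n l hl)
            simp only [mul_one] at h1
            rw [(ih (n + 1) (by omega)).tsum_eq] at h1
            have h2 : FF K w N n = fun m => ∑' l, FF K w N (n + 1) l * K n l m := by
              funext m
              exact FF_lt K w (by omega) m
            rw [h2]
            exact h1
    exact fun n => key (N - n) n le_rfl
  -- the dual identity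
  have hdual : ∀ N, k ≤ N → ∀ d n, k ≤ n → n ≤ N → N - n ≤ d →
      HasSum (fun m => FF K w N n m * h n m) (∑' l, w N l * h N l) := by
    intro N hN d
    induction d with
    | zero =>
        intro n hkn hnN hd
        have hn : n = N := by omega
        subst hn
        rw [FF_ge K w le_rfl]
        refine Summable.hasSum ?_
        refine Summable.of_nonneg_of_le (fun l => mul_nonneg (hw0 n l) (hh0 n hkn l))
          (fun l => ?_) (hwmass n).summable
        calc w n l * h n l ≤ w n l * 1 := mul_le_mul_of_nonneg_left (hh1 n hkn l) (hw0 n l)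
          _ = w n l := mul_one _
    | succ d ih =>
        intro n hkn hnN hd
        by_cases hn : n = N
        · subst hn
          exact ih n hkn le_rfl (by omega)
        · have h1 := push_dual (K n) (M (n + 1)) (FF K w N (n + 1)) (h (n + 1)) (h n) 2
            (hM1 (n + 1)).summable (hF0 N (n + 1)) (hF2 N (n + 1)) (hK0 n) (hh0 n hkn)
            (fun l _ => hh1 (n + 1) (by omega) l) (hharm n hkn)
          rw [(ih (n + 1) (by omega) (by omega) (by omega)).tsum_eq] at h1
          refine h1.congr_pt_ext ?_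
          intro m
          rw [FF_lt K w (by omega) m]
  -- the value of the dual sum
  have hval : ∀ N, k ≤ N → ∑' l, w N l * h N l = S + ∑' l, M N l * (h N l - S) ^ 2 := by
    intro N hN
    have hq : Summable (fun l => M N l * h N l ^ 2) := by
      refine Summable.of_nonneg_of_le (fun l => mul_nonneg (hM0 N l) (sq_nonneg _))
        (fun l => ?_) (hM1 N).summable
      have := hh0 N hN l
      have := hh1 N hN l
      have := hM0 N l
      nlinarith [mul_nonneg (hM0 N l) (sub_nonneg.2 (hh1 N hN l)),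
        mul_nonneg (mul_nonneg (hM0 N l) (hh0 N hN l)) (sub_nonneg.2 (hh1 N hN l))]
    have hq' := hq.hasSum
    set Q := ∑' l, M N l * h N l ^ 2
    have e1 : HasSum (fun l => w N l * h N l) (S + Q - S * S) := by
      refine (((hMhS N hN).add hq').sub ((hMhS N hN).mul_left S)).congr_pt_ext ?_
      intro l
      rw [hwn N hN l]
      ring
    have e2 : HasSum (fun l => M N l * (h N l - S) ^ 2) (Q - 2 * S * S + S ^ 2 * 1) := by
      refine ((hq'.sub ((hMhS N hN).mul_left (2 * S))).add ((hM1 N).mul_left (S ^ 2))).congr_pt_ext ?_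
      intro l
      ring
    rw [e1.tsum_eq, e2.tsum_eq]
    ring
  -- ultrafilter
  rw [tendsto_iff_ultrafilter]
  intro U hU
  have hlim : ∀ n m, ∃ a : ℝ, Tendsto (fun N => FF K w N n m) U (𝓝 a) := by
    intro n m
    obtain ⟨a, -, ha⟩ := (isCompact_Icc (a := (0 : ℝ)) (b := 2 * M n m)).ultrafilter_le_nhds
      (U.map (fun N => FF K w N n m)) (by
        rw [le_principal_iff, Ultrafilter.coe_map, Filter.mem_map]
        exact Filter.univ_mem' fun N => ⟨hF0 N n m, hF2 N n m⟩)
    exact ⟨a, ha⟩
  choose M₁ hM₁ using hlim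
  have hM₁0 : ∀ n m, 0 ≤ M₁ n m := fun n m =>
    ge_of_tendsto' (hM₁ n m) fun N => hF0 N n m
  have hM₁2 : ∀ n m, M₁ n m ≤ 2 * M n m := fun n m =>
    le_of_tendsto' (hM₁ n m) fun N => hF2 N n m
  have hM₁mass : ∀ n, HasSum (M₁ n) 1 := by
    intro n
    have hsum : Summable (M₁ n) :=
      Summable.of_nonneg_of_le (hM₁0 n) (hM₁2 n) ((hM1 n).summable.mul_left 2)
    have h1 := tendsto_tsum_of_dominated_convergence (𝓕 := (U : Filter ℕ))
      (f := fun N m => FF K w N n m) (g := M₁ n) (bound := fun m => 2 * M n m)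
      ((hM1 n).summable.mul_left 2) (fun m => hM₁ n m)
      (Filter.Eventually.of_forall fun N m => by
        rw [Real.norm_of_nonneg (hF0 N n m)]; exact hF2 N n m)
    have h2 : (fun N => ∑' m, FF K w N n m) = fun _ => (1 : ℝ) := by
      funext N
      exact (hmass N n).tsum_eq
    rw [h2] at h1
    have h3 := tendsto_nhds_unique h1 tendsto_const_nhds
    rw [← h3]
    exact hsum.hasSum
  have hM₁coh : ∀ n m, HasSum (fun l => M₁ (n + 1) l * K n l m) (M₁ n m) := by
    intro n m
    have hbs : Summable (fun l => 2 * M (n + 1) l * K n l m) := by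
      have := (hcoh n m).summable.mul_left 2
      simpa [mul_assoc] using this
    have hsum : Summable (fun l => M₁ (n + 1) l * K n l m) :=
      Summable.of_nonneg_of_le (fun l => mul_nonneg (hM₁0 _ _) (hK0 _ _ _))
        (fun l => mul_le_mul_of_nonneg_right (hM₁2 _ _) (hK0 _ _ _)) hbs
    have h1 := tendsto_tsum_of_dominated_convergence (𝓕 := (U : Filter ℕ))
      (f := fun N l => FF K w N (n + 1) l * K n l m) (g := fun l => M₁ (n + 1) l * K n l m)
      (bound := fun l => 2 * M (n + 1) l * K n l m) hbs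
      (fun l => (hM₁ (n + 1) l).mul_const _)
      (Filter.Eventually.of_forall fun N l => by
        rw [Real.norm_of_nonneg (mul_nonneg (hF0 N (n + 1) l) (hK0 n l m))]
        exact mul_le_mul_of_nonneg_right (hF2 N (n + 1) l) (hK0 n l m))
    have hev : ∀ᶠ N in (U : Filter ℕ), n < N := hU (eventually_gt_atTop n)
    have h2 : Tendsto (fun N => FF K w N n m) U (𝓝 (∑' l, M₁ (n + 1) l * K n l m)) := by
      refine h1.congr' ?_
      filter_upwards [hev] with N hN
      exact (FF_lt K w hN m).symm
    have h3 := tendsto_nhds_unique h2 (hM₁ n m)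
    rw [← h3]
    exact hsum.hasSum
  have hM₁M : M₁ = M := by
    refine hext M₁ (fun n l => 2 * M n l - M₁ n l) hM₁0
      (fun n l => sub_nonneg.2 (hM₁2 n l)) (fun n l => by ring) hM₁mass (fun n => ?_) hM₁coh
      (fun n m => ?_)
    · have := ((hM1 n).mul_left 2).sub (hM₁mass n)
      norm_num at this
      exact this
    · refine (((hcoh n m).mul_left 2).sub (hM₁coh n m)).congr_pt_ext ?_
      intro l
      ring
  -- conclusion
  have h1 := tendsto_tsum_of_dominated_convergence (𝓕 := (U : Filter ℕ))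
    (f := fun N m => FF K w N k m * h k m) (g := fun m => M₁ k m * h k m)
    (bound := fun m => 2 * M k m) ((hM1 k).summable.mul_left 2)
    (fun m => (hM₁ k m).mul_const _)
    (Filter.Eventually.of_forall fun N m => by
      rw [Real.norm_of_nonneg (mul_nonneg (hF0 N k m) (hh0 k le_rfl m))]
      calc FF K w N k m * h k m ≤ FF K w N k m * 1 :=
            mul_le_mul_of_nonneg_left (hh1 k le_rfl m) (hF0 N k m)
        _ = FF K w N k m := mul_one _
        _ ≤ 2 * M k m := hF2 N k m)
  rw [hM₁M, ← hS] at h1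
  have h2 : Tendsto (fun N => S + ∑' l, M N l * (h N l - S) ^ 2) U (𝓝 S) := by
    refine h1.congr' ?_
    have hev : ∀ᶠ N in (U : Filter ℕ), k ≤ N := hU (eventually_ge_atTop k)
    filter_upwards [hev] with N hN
    rw [(hdual N hN (N - k) k le_rfl hN le_rfl).tsum_eq, hval N hN]
  have h3 := h2.sub_const S
  simpa using h3

end Pool.Agent.GroB
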