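import Pool.Agent.Lib_MP_58440c_pr.Remove

/-!
# Piece ITER: iterate

For `Φ ∈ PP` with coefficients `c` let `κ = inf {κ' > 0 | ∃ C, ∀ n, dn n ≤ C κ'^n}` (contains `1`).
If `κ < p + δ` (or `≤`): stop; `1/Φ = φ₀⁻¹ ∑ (d_n - d_{n+1}) ρ^n` (`inv_phi`) has
coefficients `≤ C (p+2δ)^n`. Here `φ₀ > 0`: otherwise `∑ (d_n - d_{n+1}) ρ^n = 0` for all
`ρ ∈ [0,1)`, i.e. `(1-ρ) ∑_{j≥1} d_j ρ^(j-1) = 1`, impossible as `ρ → 1` since `∑ d_j < ∞`
(`p + 2δ < 1`).
If `κ ≥ p + δ`: `remove` gives `Φ₁ = Φ/(1 + b(z-1)) ∈ PP`, `b ≥ β := δ/(1-p) > 0`, `b ≤ 1`.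
Iterate; after `r` removals `Φ(1/2) = ∏ (1 - b_i/2) Φ_r(1/2) ≤ (1 - β/2)^r`, so the process stops
after boundedly many steps (`Φ(1/2) > 0`).
-/

open Finset Polynomial Filter Topology

namespace Pool.Agent.GroB

private theorem dn_zero_eq (p : ℝ) (Φ : ℝ → ℝ)
    (c : ∀ n, (Fin n → ℕ) → ℝ) (hc : ∀ n, IsCoef p n (prodF Φ n) (c n)) : dn p c 0 = 1 := by
  have hc00 : ∀ l : Fin 0 → ℕ, c 0 l = 1 := by
    intro l
    have h := (hc 0).2.2 one unitSeq_one
    have e : prodF Φ 0 one = 1 := by simp [prodF]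
    rw [e] at h
    have h2 : HasSum (fun l => c 0 l * G p 0 l one) (c 0 l * G p 0 l one) := by
      refine hasSum_single l fun l' hl' => ?_
      exact absurd (Subsingleton.elim l' l) hl'
    have h3 := h.unique h2
    rw [h3]
    simp [G]
  unfold dn Pf
  rw [tsum_eq_single (fun i : Fin 0 => i.elim0) (fun l' hl' => absurd (Subsingleton.elim l' _) hl')]
  rw [hc00]
  simp [G]

/-- the set of exponential rates -/
private def rates (p : ℝ) (c : ∀ n, (Fin n → ℕ) → ℝ) : Set ℝ :=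
  {k | 0 < k ∧ ∃ C : ℝ, ∀ n, dn p c n ≤ C * k ^ n}

private theorem rates_up {p : ℝ} {Φ : ℝ → ℝ}
    {c : ∀ n, (Fin n → ℕ) → ℝ} (hc : ∀ n, IsCoef p n (prodF Φ n) (c n)) {k k' : ℝ}
    (h : k ∈ rates p c) (hk : k ≤ k') : k' ∈ rates p c := by
  obtain ⟨h0, C, hC⟩ := h
  refine ⟨h0.trans_le hk, C, fun n => ?_⟩
  have h1 := hC 0
  rw [dn_zero_eq p Φ c hc, pow_zero, mul_one] at h1
  exact (hC n).trans (mul_le_mul_of_nonneg_left (pow_le_pow_left₀ h0.le hk n) (by linarith))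

/-- the final case -/
private theorem stop_case (p : ℝ) (hp0 : 0 < p) (hp1 : p < 1) (Φ : ℝ → ℝ) (hΦ : PP p Φ)
    (c : ∀ n, (Fin n → ℕ) → ℝ) (hc : ∀ n, IsCoef p n (prodF Φ n) (c n)) (k : ℝ) (hk1 : k < 1)
    (hk : k ∈ rates p c) :
    ∃ (e : ℕ → ℝ) (C : ℝ), (∀ n, |e n| ≤ C * k ^ n) ∧
        ∀ z, 0 < z → z ≤ 1 →
          HasSum (fun n => e n * ((1 - z) / (1 - p * z)) ^ n) (1 / Φ z) := by
  obtain ⟨hk0, C, hC⟩ := hk
  have hd0 := dn_nonneg p hp0 hp1 Φ c hc
  have hd1 := dn_zero_eq p Φ c hc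
  have hinv := inv_phi p hp0 hp1 Φ hΦ.1 c hc
  have hsum : Summable fun n => dn p c n :=
    Summable.of_nonneg_of_le hd0 hC ((summable_geometric_of_lt_one hk0.le hk1).mul_left C)
  have hsum1 : Summable fun n => dn p c (n + 1) := (summable_nat_add_iff 1).2 hsum
  have hφ : c 1 (fun _ => 0) ≠ 0 := by
    intro h0
    set D : ℝ := ∑' n, dn p c (n + 1) with hD
    have hD0 : 0 ≤ D := tsum_nonneg fun n => hd0 _
    have key : ∀ z : ℝ, 0 < z → z ≤ 1 → 1 ≤ z * D := by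
      intro z hz hz1
      have hpz : 0 < 1 - p * z := by nlinarith
      set ρ : ℝ := (1 - z) / (1 - p * z) with hρ
      have hρ0 : 0 ≤ ρ := div_nonneg (by linarith) hpz.le
      have hρ1 : ρ ≤ 1 := by rw [hρ, div_le_one hpz]; nlinarith
      have h1 := hinv z hz hz1
      rw [h0, zero_div, ← hρ] at h1
      have hB : Summable fun n => dn p c (n + 1) * ρ ^ n :=
        Summable.of_nonneg_of_le (fun n => mul_nonneg (hd0 _) (pow_nonneg hρ0 n))
          (fun n => mul_le_of_le_one_right (hd0 _) (pow_le_one₀ hρ0 hρ1)) hsum1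
      set B : ℝ := ∑' n, dn p c (n + 1) * ρ ^ n with hBdef
      have hBD : B ≤ D := hB.tsum_le_tsum
        (fun n => mul_le_of_le_one_right (hd0 _) (pow_le_one₀ hρ0 hρ1)) hsum1
      have hA : HasSum (fun n => dn p c n * ρ ^ n) (1 + ρ * B) := by
        rw [← hasSum_nat_add_iff' 1]
        simp only [Finset.sum_range_one, pow_zero, mul_one, hd1]
        have e5 : 1 + ρ * B - 1 = ρ * B := by ring
        rw [e5]
        refine (hB.hasSum.mul_left ρ).congr_fun ?_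
        intro j
        show _ = _
        rw [pow_succ]
        ring
      have hAB : HasSum (fun n => (dn p c n - dn p c (n + 1)) * ρ ^ n) (1 + ρ * B - B) := by
        refine (hA.sub hB.hasSum).congr_fun ?_
        intro j
        show _ = _
        ring
      have h2 := h1.unique hAB
      have h3 : 1 - ρ ≤ z := by
        rw [hρ, sub_le_iff_le_add, ← sub_le_iff_le_add', le_div_iff₀ hpz]
        nlinarith [mul_pos hp0 hz, mul_nonneg (mul_pos hp0 hz).le (sub_nonneg.2 hz1)]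
      have hB0 : 0 ≤ B := tsum_nonneg fun n => mul_nonneg (hd0 _) (pow_nonneg hρ0 n)
      have h4 : 1 = (1 - ρ) * B := by linarith
      calc (1 : ℝ) = (1 - ρ) * B := h4
        _ ≤ z * B := mul_le_mul_of_nonneg_right h3 hB0
        _ ≤ z * D := mul_le_mul_of_nonneg_left hBD hz.le
    have h5 := key (1 / (D + 1) / 1) (by positivity) (by
      rw [div_one, div_le_one (by linarith)]
      linarith)
    rw [div_one, div_mul_eq_mul_div, one_mul, le_div_iff₀ (by linarith)] at h5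
    linarith
  have hφ0 : 0 < c 1 (fun _ => 0) := lt_of_le_of_ne ((hc 1).1 _) (Ne.symm hφ)
  refine ⟨fun n => (c 1 (fun _ => 0))⁻¹ * (dn p c n - dn p c (n + 1)),
    (c 1 (fun _ => 0))⁻¹ * C, fun n => ?_, fun z hz hz1 => ?_⟩
  · rw [abs_mul, abs_of_pos (inv_pos.2 hφ0), mul_assoc]
    refine mul_le_mul_of_nonneg_left ?_ (inv_pos.2 hφ0).le
    have hC0 : 0 ≤ C := by
      have h1 := hC 0
      rw [hd1, pow_zero, mul_one] at h1
      linarith
    rw [abs_le]
    have h1 := hC n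
    have h2 := hC (n + 1)
    have h3 := hd0 n
    have h4 := hd0 (n + 1)
    have h5 : C * k ^ (n + 1) ≤ C * k ^ n :=
      mul_le_mul_of_nonneg_left (pow_le_pow_of_le_one hk0.le hk1.le (Nat.le_succ n)) hC0
    constructor <;> linarith
  · have h1 := (hinv z hz hz1).mul_left (c 1 (fun _ => 0))⁻¹
    have e : (c 1 (fun _ => 0))⁻¹ * (c 1 (fun _ => 0) / Φ z) = 1 / Φ z := by
      rw [← mul_div_assoc, inv_mul_cancel₀ hφ]
    rw [e] at h1
    refine h1.congr_fun ?_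
    intro n
    show _ = _
    ring

theorem iterate (p : ℝ) (hp0 : 0 < p) (hp1 : p < 1) (Φ : ℝ → ℝ) (hΦ : PP p Φ) (δ : ℝ)
    (hδ : 0 < δ) (hδ1 : p + 2 * δ < 1) :
    ∃ (r : ℕ) (b : Fin r → ℝ) (Φf : ℝ → ℝ), (∀ i, 0 ≤ b i ∧ b i ≤ 1) ∧ PP p Φf ∧
      (∀ z, 0 < z → z ≤ 1 → Φ z = (∏ i, (1 + b i * (z - 1))) * Φf z) ∧
      ∃ (e : ℕ → ℝ) (C : ℝ), (∀ n, |e n| ≤ C * (p + 2 * δ) ^ n) ∧
        ∀ z, 0 < z → z ≤ 1 →
          HasSum (fun n => e n * ((1 - z) / (1 - p * z)) ^ n) (1 / Φf z) := by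
  have hq : 0 < 1 - p := by linarith
  set β : ℝ := δ / (1 - p) with hβ
  have hβ0 : 0 < β := div_pos hδ hq
  have hβ1 : β < 1 := by rw [hβ, div_lt_one hq]; linarith
  have main : ∀ N : ℕ, ∀ Φ : ℝ → ℝ, PP p Φ → (1 - β / 2) ^ N < Φ (1 / 2) →
      ∃ (r : ℕ) (b : Fin r → ℝ) (Φf : ℝ → ℝ), (∀ i, 0 ≤ b i ∧ b i ≤ 1) ∧ PP p Φf ∧
      (∀ z, 0 < z → z ≤ 1 → Φ z = (∏ i, (1 + b i * (z - 1))) * Φf z) ∧
      ∃ (e : ℕ → ℝ) (C : ℝ), (∀ n, |e n| ≤ C * (p + 2 * δ) ^ n) ∧
        ∀ z, 0 < z → z ≤ 1 →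
          HasSum (fun n => e n * ((1 - z) / (1 - p * z)) ^ n) (1 / Φf z) := by
    intro N
    induction N with
    | zero =>
      intro Φ hΦ h
      have := (phi_pos p hp0 hp1 Φ hΦ (1 / 2) (by norm_num) (by norm_num)).2
      rw [pow_zero] at h
      linarith
    | succ N ih =>
      intro Φ hΦ h
      choose c hc using hΦ.2
      set S := rates p c with hS
      have h1S : (1 : ℝ) ∈ S := ⟨one_pos, 1, fun n => by
        rw [one_pow, mul_one]
        exact dn_le_one p hp0 hp1 Φ hΦ.1 c hc n⟩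
      have hbdd : BddBelow S := ⟨0, fun k hk => hk.1.le⟩
      set κ := sInf S with hκ
      by_cases hlt : κ < p + δ
      · obtain ⟨k, hk, hk1⟩ := exists_lt_of_csInf_lt ⟨1, h1S⟩ hlt
        have hk2 : p + 2 * δ ∈ S := rates_up hc hk (by linarith)
        refine ⟨0, fun i => i.elim0, Φ, fun i => i.elim0, hΦ, fun z _ _ => by simp, ?_⟩
        exact stop_case p hp0 hp1 Φ hΦ c hc _ hδ1 hk2
      · rw [not_lt] at hlt
        have hpκ : p < κ := by linarith
        obtain ⟨hκ1, hPP⟩ := remove p hp0 hp1 Φ hΦ c hc κ hpκ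
          (fun k hk0 hk hex => by
            have : k ∈ S := ⟨hk0, hex⟩
            exact absurd (csInf_le hbdd this) (not_le.2 hk))
          (fun k hk => by
            obtain ⟨k', hk', hk1⟩ := exists_lt_of_csInf_lt ⟨1, h1S⟩ hk
            exact (rates_up hc hk' hk1.le).2)
        set b0 : ℝ := (κ - p) / (1 - p) with hb0
        have hb0β : β ≤ b0 := by
          rw [hβ, hb0]
          exact div_le_div_of_nonneg_right (by linarith) hq.le
        have hb01 : b0 ≤ 1 := by rw [hb0, div_le_one hq]; linarith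
        have hhalf : (1 - β / 2) ^ N < Φ (1 / 2) / (1 + b0 * (1 / 2 - 1)) := by
          have e : 1 + b0 * (1 / 2 - 1) = 1 - b0 / 2 := by ring
          rw [e, lt_div_iff₀ (by linarith)]
          calc (1 - β / 2) ^ N * (1 - b0 / 2) ≤ (1 - β / 2) ^ N * (1 - β / 2) :=
                mul_le_mul_of_nonneg_left (by linarith) (pow_nonneg (by linarith) _)
            _ = (1 - β / 2) ^ (N + 1) := (pow_succ _ _).symm
            _ < _ := h
        obtain ⟨r, b, Φf, hb, hPf, hprod, hex⟩ := ih _ hPP hhalf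
        refine ⟨r + 1, Fin.cons b0 b, Φf, ?_, hPf, ?_, hex⟩
        · intro i
          refine Fin.cases ?_ (fun i => ?_) i
          · rw [Fin.cons_zero]
            exact ⟨hβ0.le.trans hb0β, hb01⟩
          · rw [Fin.cons_succ]
            exact hb i
        · intro z hz hz1
          have h1 := hprod z hz hz1
          have h2 : 0 < 1 + b0 * (z - 1) := by nlinarith
          rw [Fin.prod_univ_succ, Fin.cons_zero]
          simp only [Fin.cons_succ]
          rw [mul_assoc, ← h1]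
          field_simp
  obtain ⟨N, hN⟩ := exists_pow_lt_of_lt_one
    (phi_pos p hp0 hp1 Φ hΦ (1 / 2) (by norm_num) (by norm_num)).1
    (show 1 - β / 2 < 1 by linarith)
  exact main N Φ hΦ hN

end Pool.Agent.GroB
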