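import Mathlib

/-!
# Piece REP: from general products to products of the class `𝓕`

Drop the pairs with `x_i ≤ -η`; replace the pairs with `-η < x_i`, `y_i < 0` by `(x_i - y_i, 0)`
(so `x' ∈ (-η, 0]`); keep the others (`y_i ≥ 0`, `x_i > -η ≥ -1`).
All factors `(1 + x u)/(1 + y u)`, `u = 1 - z ∈ [0, 1/6]`, `-3 ≤ x ≤ y`, lie in `[0,1]`, also the new
ones; so the difference of the products is at most the sum of the differences of the factors.
Dropped: `1 - (1+xu)/(1+yu) = (y-x)u/(1+yu) ≤ (y-x)/3 ≤ y - x`. Replaced: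
`|(1+xu)/(1+yu) - (1 - (y-x)u)| = (y-x) u |y| u/(1+yu) ≤ (y-x) η` as `|y| ≤ η`.
(The new family may be indexed by the same `Fin m`: for dropped pairs use `(0,0)`.)
-/

open Finset

namespace Pool.Agent.GroB

private lemma abs_prod_sub_prod_le {ι : Type*} (s : Finset ι) (a b : ι → ℝ)
    (ha : ∀ i, 0 ≤ a i ∧ a i ≤ 1) (hb : ∀ i, 0 ≤ b i ∧ b i ≤ 1) :
    |∏ i ∈ s, a i - ∏ i ∈ s, b i| ≤ ∑ i ∈ s, |a i - b i| := by
  classical
  induction s using Finset.induction_on with
  | empty => simp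
  | insert j s hj ih =>
    rw [Finset.prod_insert hj, Finset.prod_insert hj, Finset.sum_insert hj]
    have h1 : a j * ∏ i ∈ s, a i - b j * ∏ i ∈ s, b i =
        (a j - b j) * ∏ i ∈ s, a i + b j * (∏ i ∈ s, a i - ∏ i ∈ s, b i) := by ring
    rw [h1]
    refine (abs_add_le _ _).trans (add_le_add ?_ ?_)
    · rw [abs_mul]
      have h2 : |∏ i ∈ s, a i| ≤ 1 := by
        rw [abs_of_nonneg (Finset.prod_nonneg fun i _ => (ha i).1)]
        exact Finset.prod_le_one (fun i _ => (ha i).1) (fun i _ => (ha i).2)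
      calc |a j - b j| * |∏ i ∈ s, a i| ≤ |a j - b j| * 1 :=
            mul_le_mul_of_nonneg_left h2 (abs_nonneg _)
        _ = |a j - b j| := mul_one _
    · rw [abs_mul, abs_of_nonneg (hb j).1]
      calc b j * |∏ i ∈ s, a i - ∏ i ∈ s, b i| ≤ 1 * |∏ i ∈ s, a i - ∏ i ∈ s, b i| :=
            mul_le_mul_of_nonneg_right (hb j).2 (abs_nonneg _)
        _ = |∏ i ∈ s, a i - ∏ i ∈ s, b i| := one_mul _
        _ ≤ _ := ih

private lemma fac_mem {x y u : ℝ} (hx : -3 ≤ x) (hxy : x ≤ y) (hu : 0 ≤ u) (hu1 : u ≤ 1 / 6) :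
    0 ≤ (1 + x * u) / (1 + y * u) ∧ (1 + x * u) / (1 + y * u) ≤ 1 := by
  have h1 : 0 < 1 + x * u := by nlinarith
  have h2 : 1 + x * u ≤ 1 + y * u := by nlinarith
  have h3 : 0 < 1 + y * u := lt_of_lt_of_le h1 h2
  exact ⟨div_nonneg h1.le h3.le, (div_le_one h3).2 h2⟩

theorem replace (q : ℝ) (hq : 0 < q) (m : ℕ) (x y : Fin m → ℝ) (η : ℝ) (hη : 0 < η)
    (hη1 : η ≤ 1) (h : ∀ i, -3 ≤ x i ∧ x i ≤ q ∧ x i ≤ y i) :
    ∃ x' y' : Fin m → ℝ, (∀ i, -1 ≤ x' i ∧ x' i ≤ q ∧ 0 ≤ y' i ∧ x' i ≤ y' i) ∧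
      ∑ i, (y' i - x' i) ≤ ∑ i, (y i - x i) ∧
      ∀ z, 5 / 6 ≤ z → z ≤ 1 →
        |∏ i, (1 - x i * (z - 1)) / (1 - y i * (z - 1)) -
            ∏ i, (1 - x' i * (z - 1)) / (1 - y' i * (z - 1))| ≤
          ∑ i ∈ Finset.univ.filter (fun i => x i ≤ -η), (y i - x i) +
            η * ∑ i, (y i - x i) := by
  classical
  obtain ⟨x', hx'⟩ : ∃ x' : Fin m → ℝ, x' = fun i => if x i ≤ -η then 0 else
    if y i < 0 then x i - y i else x i := ⟨_, rfl⟩
  obtain ⟨y', hy'⟩ : ∃ y' : Fin m → ℝ, y' = fun i => if x i ≤ -η then 0 else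
    if y i < 0 then 0 else y i := ⟨_, rfl⟩
  have key : ∀ i, (-1 ≤ x' i ∧ x' i ≤ q ∧ 0 ≤ y' i ∧ x' i ≤ y' i) ∧ y' i - x' i ≤ y i - x i ∧
      ∀ u : ℝ, 0 ≤ u → u ≤ 1 / 6 →
        |(1 + x i * u) / (1 + y i * u) - (1 + x' i * u) / (1 + y' i * u)| ≤
          (if x i ≤ -η then (y i - x i) else 0) + η * (y i - x i) := by
    intro i
    obtain ⟨h1, h2, h3⟩ := h i
    have h4 : 0 ≤ y i - x i := by linarith
    have h5 : 0 ≤ η * (y i - x i) := mul_nonneg hη.le h4
    by_cases c1 : x i ≤ -η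
    · have ex : x' i = 0 := by rw [hx']; simp only [if_pos c1]
      have ey : y' i = 0 := by rw [hy']; simp only [if_pos c1]
      refine ⟨⟨by rw [ex]; norm_num, by rw [ex]; exact hq.le, by rw [ey], by rw [ex, ey]⟩,
        by rw [ex, ey]; linarith, fun u hu hu1 => ?_⟩
      rw [ex, ey, if_pos c1, zero_mul, add_zero, div_one]
      have hd : 1 / 2 ≤ 1 + y i * u := by nlinarith
      have hd0 : 0 < 1 + y i * u := by linarith
      have hne : 1 + y i * u ≠ 0 := hd0.ne'
      have e : (1 + x i * u) / (1 + y i * u) - 1 = -((y i - x i) * u / (1 + y i * u)) := by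
        have hI := mul_inv_cancel₀ hne
        simp only [div_eq_mul_inv]
        linear_combination hI
      rw [e, abs_neg, abs_of_nonneg (div_nonneg (mul_nonneg h4 hu) hd0.le)]
      have : (y i - x i) * u / (1 + y i * u) ≤ y i - x i := by
        rw [div_le_iff₀ hd0]
        exact mul_le_mul_of_nonneg_left (by linarith) h4
      linarith
    · by_cases c2 : y i < 0
      · have ex : x' i = x i - y i := by rw [hx']; simp only [if_neg c1, if_pos c2]
        have ey : y' i = 0 := by rw [hy']; simp only [if_neg c1, if_pos c2]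
        have c1' : -η < x i := not_le.1 c1
        refine ⟨⟨by rw [ex]; linarith, by rw [ex]; linarith, by rw [ey], by rw [ex, ey]; linarith⟩,
          by rw [ex, ey]; linarith, fun u hu hu1 => ?_⟩
        rw [ex, ey, if_neg c1, zero_mul, add_zero, div_one, zero_add]
        have hd : 1 / 2 ≤ 1 + y i * u := by nlinarith
        have hd0 : 0 < 1 + y i * u := by linarith
        have hne : 1 + y i * u ≠ 0 := hd0.ne'
        have e : (1 + x i * u) / (1 + y i * u) - (1 + (x i - y i) * u) =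
            (y i - x i) * (u * u * y i / (1 + y i * u)) := by
          have hI := mul_inv_cancel₀ hne
          simp only [div_eq_mul_inv]
          linear_combination (1 + (x i - y i) * u) * hI
        rw [e, abs_mul, abs_of_nonneg h4, mul_comm]
        refine mul_le_mul_of_nonneg_right ?_ h4
        rw [abs_div, abs_of_pos hd0, div_le_iff₀ hd0, abs_mul, abs_of_nonneg (mul_nonneg hu hu),
          abs_of_neg c2]
        have b1 : -y i ≤ η := by linarith
        have b2 : u * u ≤ 1 / 2 := by nlinarith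
        calc u * u * -y i ≤ (1 / 2) * η := mul_le_mul b2 b1 (by linarith) (by norm_num)
          _ ≤ η * (1 + y i * u) := by nlinarith
      · have ex : x' i = x i := by rw [hx']; simp only [if_neg c1, if_neg c2]
        have ey : y' i = y i := by rw [hy']; simp only [if_neg c1, if_neg c2]
        refine ⟨⟨by rw [ex]; linarith, by rw [ex]; exact h2, by rw [ey]; linarith,
          by rw [ex, ey]; exact h3⟩, by rw [ex, ey], fun u hu hu1 => ?_⟩
        rw [ex, ey, sub_self, abs_zero, if_neg c1, zero_add]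
        exact h5
  refine ⟨x', y', fun i => (key i).1, Finset.sum_le_sum fun i _ => (key i).2.1,
    fun z hz hz1 => ?_⟩
  have hu : 0 ≤ 1 - z := by linarith
  have hu1 : 1 - z ≤ 1 / 6 := by linarith
  have e1 : ∀ a : ℝ, 1 - a * (z - 1) = 1 + a * (1 - z) := fun a => by ring
  simp only [e1]
  refine (abs_prod_sub_prod_le Finset.univ _ _ (fun i => fac_mem (h i).1 (h i).2.2 hu hu1)
    (fun i => fac_mem (by linarith [(key i).1.1]) (key i).1.2.2.2 hu hu1)).trans ?_
  refine (Finset.sum_le_sum fun i _ => (key i).2.2 (1 - z) hu hu1).trans ?_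
  rw [Finset.sum_add_distrib, ← Finset.mul_sum, Finset.sum_filter]

end Pool.Agent.GroB
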