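import Pool.Agent.Lib_MP_58440c_pr.NegSmall
import Pool.Agent.Lib_MP_58440c_pr.Replace
import Pool.Agent.Lib_MP_58440c_pr.Approx
import Pool.Agent.Lib_MP_58440c_pr.Iterate

/-!
# Piece FIN: finite approximation by products of the class `𝓕`

Let `B = ∑ k φ k` (`moments`), so `1 - Φ z ≤ B (1 - z)`; `Cb = B + 3 (1 + B)`.
Given a finite set `S ⊂ [5/6,1]` and `ε > 0` choose `η ∈ (0,1]` with `η * 3(1+B) ≤ ε/4`, `δ > 0` with
`p + 2δ < min 1 (p + (1-p) η)`; `iterate`: `Φ = ∏ (1 + b_i (z-1)) * Φf`. Since `Φf ≥ Φ` on `(0,1]`,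
`1 - Φf z ≤ B (1-z)`; `approx` for `Φf`; `neg_small` with `κ = p + 2δ`; for large `j` the product for
`Φf` is within `ε/4` of `Φf` on `S` and the mass is `≤ ε/4`; `replace`. Add the factors
`1 - (-b_i)(z-1) = (1 - x(z-1))/(1 - 0 (z-1))`, `x = -b_i ∈ [-1,0]`, `y = 0`; all in `[0,1]`.
Total `∑ (y - x) ≤ ∑ b_i + 3(1+B)`, `∑ b_i ≤ B` because
`1 - ∏ (1 + b_i(z-1)) ≤ 1 - Φ z ≤ B (1-z)`; divide by `1 - z`, `z → 1`.
-/

open Finset Filter Topology

namespace Pool.Agent.GroB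

/-- basic consequences of `moments` -/
private theorem pp_basic (p : ℝ) (hp0 : 0 < p) (hp1 : p < 1) (Φ : ℝ → ℝ) (hΦ : PP p Φ) :
    (∀ z, 0 < z → z ≤ 1 → 0 < Φ z ∧ Φ z ≤ 1) ∧
      ∃ B : ℝ, 0 ≤ B ∧ ∀ z, 0 < z → z ≤ 1 → 1 - Φ z ≤ B * (1 - z) := by
  obtain ⟨φ, hφ0, hφs, hφ2⟩ := moments p hp0 hp1 Φ hΦ
  have h1 := hφs 1 one_pos le_rfl
  rw [hΦ.1] at h1
  simp only [one_pow, mul_one] at h1
  have hs1 : Summable fun k : ℕ => (k : ℝ) * φ k := by
    refine Summable.of_nonneg_of_le (fun k => mul_nonneg (Nat.cast_nonneg k) (hφ0 k))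
      (fun k => ?_) hφ2
    refine mul_le_mul_of_nonneg_right ?_ (hφ0 k)
    have : ((k : ℕ) : ℝ) ≤ ((k ^ 2 : ℕ) : ℝ) := by
      exact_mod_cast Nat.le_self_pow (by norm_num) k
    push_cast at this
    exact this
  constructor
  · intro z hz0 hz1
    have hz := hφs z hz0 hz1
    constructor
    · obtain ⟨k, hk⟩ : ∃ k, φ k ≠ 0 := by
        by_contra hc
        push Not at hc
        have h2 : HasSum φ 0 := by
          have : φ = fun _ => 0 := funext hc
          rw [this]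
          exact hasSum_zero
        exact one_ne_zero (h1.unique h2)
      have hk0 : 0 < φ k := lt_of_le_of_ne (hφ0 k) (Ne.symm hk)
      have h3 : φ k * z ^ k ≤ Φ z := le_hasSum hz k
        (fun b _ => mul_nonneg (hφ0 b) (pow_nonneg hz0.le b))
      exact lt_of_lt_of_le (by positivity) h3
    · exact hasSum_le (fun k => mul_le_of_le_one_right (hφ0 k) (pow_le_one₀ hz0.le hz1)) hz h1
  · refine ⟨∑' k : ℕ, (k : ℝ) * φ k, tsum_nonneg fun k => mul_nonneg (Nat.cast_nonneg k) (hφ0 k), ?_⟩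
    intro z hz0 hz1
    have hz := hφs z hz0 hz1
    have h2 : HasSum (fun k => φ k - φ k * z ^ k) (1 - Φ z) := h1.sub hz
    have h3 : HasSum (fun k : ℕ => (k : ℝ) * φ k * (1 - z)) ((∑' k : ℕ, (k : ℝ) * φ k) * (1 - z)) :=
      hs1.hasSum.mul_right _
    refine hasSum_le (fun k => ?_) h2 h3
    have h4 := one_add_mul_le_pow (a := z - 1) (by linarith) k
    have h5 : 1 + (z - 1) = z := by ring
    rw [h5] at h4
    have h6 := hφ0 k
    nlinarith

private theorem sum_b_le (r : ℕ) (b : Fin r → ℝ) (hb : ∀ i, 0 ≤ b i ∧ b i ≤ 1) (B : ℝ) (hB : 0 ≤ B)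
    (h : ∀ z, 0 < z → z ≤ 1 → 1 - ∏ i, (1 + b i * (z - 1)) ≤ B * (1 - z)) : ∑ i, b i ≤ B := by
  set s : ℝ := ∑ i, b i with hs
  have hs0 : 0 ≤ s := Finset.sum_nonneg fun i _ => (hb i).1
  have key : ∀ u : ℝ, 0 < u → u < 1 → s ≤ B + B * s * u := by
    intro u hu0 hu1
    have h1 := h (1 - u) (by linarith) (by linarith)
    have h2 : ∏ i, (1 + b i * (1 - u - 1)) ≤ Real.exp (-(u * s)) := by
      have h3 : Real.exp (-(u * s)) = ∏ i, Real.exp (-(b i * u)) := by
        rw [← Real.exp_sum]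
        congr 1
        rw [hs, Finset.mul_sum, ← Finset.sum_neg_distrib]
        exact Finset.sum_congr rfl fun i _ => by ring
      rw [h3]
      apply Finset.prod_le_prod
      · intro i _
        nlinarith [(hb i).1, (hb i).2]
      · intro i _
        have := Real.add_one_le_exp (-(b i * u))
        linarith
    have h4 : Real.exp (-(u * s)) ≤ 1 / (1 + u * s) := by
      rw [Real.exp_neg, ← one_div]
      apply one_div_le_one_div_of_le (by positivity)
      have := Real.add_one_le_exp (u * s)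
      linarith
    have h5 : 1 - 1 / (1 + u * s) ≤ B * u := by
      have : B * (1 - (1 - u)) = B * u := by ring
      linarith
    have h6 : 0 < 1 + u * s := by positivity
    have h7 : u * s ≤ B * u * (1 + u * s) := by
      have h8 := mul_le_mul_of_nonneg_right h5 h6.le
      have h9 : (1 - 1 / (1 + u * s)) * (1 + u * s) = u * s := by field_simp; ring
      linarith
    have h10 : u * s ≤ u * (B + B * s * u) := by nlinarith
    exact le_of_mul_le_mul_left h10 hu0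
  by_contra hc
  push Not at hc
  have hBs : 0 ≤ B * s := mul_nonneg hB hs0
  have h1 := key (min (1 / 2) ((s - B) / (2 * (B * s + 1)))) (by
    apply lt_min (by norm_num)
    apply div_pos (by linarith) (by linarith)) (lt_of_le_of_lt (min_le_left _ _) (by norm_num))
  have h2 : B * s * min (1 / 2) ((s - B) / (2 * (B * s + 1))) ≤ B * s * ((s - B) / (2 * (B * s + 1))) :=
    mul_le_mul_of_nonneg_left (min_le_right _ _) hBs
  have h3 : B * s * ((s - B) / (2 * (B * s + 1))) ≤ (s - B) / 2 := by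
    rw [← mul_div_assoc, div_le_div_iff₀ (by positivity) (by norm_num)]
    nlinarith
  linarith

theorem fin_approx (p : ℝ) (hp0 : 0 < p) (hp1 : p < 1) (Φ : ℝ → ℝ) (hΦ : PP p Φ) :
    ∃ Cb : ℝ, ∀ (S : Finset ℝ), (∀ z ∈ S, 5 / 6 ≤ z ∧ z ≤ 1) → ∀ ε > 0,
      ∃ (m : ℕ) (x y : Fin m → ℝ),
        (∀ i, -1 ≤ x i ∧ x i ≤ p / (1 - p) ∧ 0 ≤ y i ∧ x i ≤ y i) ∧
        ∑ i, (y i - x i) ≤ Cb ∧
        ∀ z ∈ S, |Φ z - ∏ i, (1 - x i * (z - 1)) / (1 - y i * (z - 1))| ≤ ε := by
  obtain ⟨hΦ01, B, hB0, hB⟩ := pp_basic p hp0 hp1 Φ hΦ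
  refine ⟨3 * (1 + B) + B, fun S hS ε hε => ?_⟩
  have hq0 : 0 < p / (1 - p) := div_pos hp0 (by linarith)
  set η : ℝ := min 1 (ε / (12 * (1 + B))) with hη
  have hη0 : 0 < η := lt_min one_pos (by positivity)
  have hη1 : η ≤ 1 := min_le_left _ _
  have hηε : η * (3 * (1 + B)) ≤ ε / 4 := by
    calc η * (3 * (1 + B)) ≤ (ε / (12 * (1 + B))) * (3 * (1 + B)) :=
          mul_le_mul_of_nonneg_right (min_le_right _ _) (by positivity)
      _ = ε / 4 := by field_simp; norm_num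
  set δ : ℝ := (1 - p) * η / 4 with hδ
  have h1p : 0 < 1 - p := by linarith
  have hδ0 : 0 < δ := by positivity
  have hδη : p + 2 * δ < p + (1 - p) * η := by
    have : 0 < (1 - p) * η := by positivity
    rw [hδ]
    linarith
  have hδ1 : p + 2 * δ < 1 := by
    refine lt_of_lt_of_le hδη ?_
    nlinarith
  obtain ⟨r, b, Φf, hb, hPf, hfac, e, C, he, hinv⟩ := iterate p hp0 hp1 Φ hΦ δ hδ0 hδ1
  obtain ⟨hf01, _⟩ := pp_basic p hp0 hp1 Φf hPf
  -- the removed factors
  have hfac01 : ∀ z, 0 < z → z ≤ 1 → 0 ≤ ∏ i, (1 + b i * (z - 1)) ∧ ∏ i, (1 + b i * (z - 1)) ≤ 1 := by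
    intro z hz0 hz1
    constructor
    · exact Finset.prod_nonneg fun i _ => by nlinarith [(hb i).1, (hb i).2]
    · exact Finset.prod_le_one (fun i _ => by nlinarith [(hb i).1, (hb i).2])
        (fun i _ => by nlinarith [(hb i).1, (hb i).2])
  have hBf : ∀ z, 0 < z → z ≤ 1 → 1 - Φf z ≤ B * (1 - z) := by
    intro z hz0 hz1
    have h1 := hB z hz0 hz1
    have h2 := hfac z hz0 hz1
    have h3 := hfac01 z hz0 hz1
    have h4 := hf01 z hz0 hz1
    nlinarith
  have hsb : ∑ i, b i ≤ B := by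
    refine sum_b_le r b hb B hB0 fun z hz0 hz1 => ?_
    have h1 := hB z hz0 hz1
    have h2 := hfac z hz0 hz1
    have h3 := hfac01 z hz0 hz1
    have h4 := hf01 z hz0 hz1
    nlinarith
  obtain ⟨k, x, y, hxy, hsum, hlim⟩ := approx p hp0 hp1 Φf hPf B hBf
  have hneg := neg_small p hp0 hp1 Φf (fun z hz0 hz1 => (hf01 z hz0 hz1).1) k x y hxy hlim e C
    (p + 2 * δ) η (by positivity) hη0 hδη he hinv
  have hev1 : ∀ᶠ j in atTop, ∀ z ∈ S,
      |∏ i, (1 - x j i * (z - 1)) / (1 - y j i * (z - 1)) - Φf z| ≤ ε / 4 := by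
    rw [Finset.eventually_all]
    intro z hz
    have h1 := (tendsto_iff_dist_tendsto_zero.1 (hlim z (hS z hz).1 (hS z hz).2)).eventually
      (ge_mem_nhds (show (0 : ℝ) < ε / 4 by positivity))
    filter_upwards [h1] with j hj
    rwa [Real.dist_eq] at hj
  have hev2 := hneg.eventually (ge_mem_nhds (show (0 : ℝ) < ε / 4 by positivity))
  obtain ⟨j, hj1, hj2⟩ := (hev1.and hev2).exists
  obtain ⟨x', y', hxy', hsum', herr⟩ := replace (p / (1 - p)) hq0 (k j) (x j) (y j) η hη0 hη1 (hxy j)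
  refine ⟨k j + r, Fin.append x' (fun i => -b i), Fin.append y' (fun _ => 0), ?_, ?_, ?_⟩
  · intro i
    refine Fin.addCases (fun i => ?_) (fun i => ?_) i
    · rw [Fin.append_left, Fin.append_left]
      exact hxy' i
    · rw [Fin.append_right, Fin.append_right]
      refine ⟨by linarith [(hb i).2], by linarith [(hb i).1], le_rfl, by linarith [(hb i).1]⟩
  · rw [Fin.sum_univ_add]
    simp only [Fin.append_left, Fin.append_right]
    have h1 : ∑ i : Fin r, ((0 : ℝ) - -b i) = ∑ i, b i := Finset.sum_congr rfl fun i _ => by ring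
    rw [h1]
    have h2 := hsum j
    linarith
  · intro z hz
    obtain ⟨hz5, hz1⟩ := hS z hz
    have hz0 : 0 < z := by linarith
    rw [Fin.prod_univ_add]
    simp only [Fin.append_left, Fin.append_right]
    have h1 : ∏ i : Fin r, ((1 - -b i * (z - 1)) / (1 - 0 * (z - 1))) = ∏ i, (1 + b i * (z - 1)) :=
      Finset.prod_congr rfl fun i _ => by ring
    rw [h1, hfac z hz0 hz1]
    obtain ⟨h3, h4⟩ := hfac01 z hz0 hz1
    have h5 := hj1 z hz
    have h6 := herr z hz5 hz1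
    have h7 := hsum j
    have h8 : η * ∑ i, (y j i - x j i) ≤ ε / 4 := (mul_le_mul_of_nonneg_left h7 hη0.le).trans hηε
    set P := ∏ i, (1 + b i * (z - 1))
    set Q := ∏ i, (1 - x' i * (z - 1)) / (1 - y' i * (z - 1))
    set R := ∏ i, (1 - x j i * (z - 1)) / (1 - y j i * (z - 1))
    have h9 : P * Φf z - Q * P = P * ((Φf z - R) + (R - Q)) := by ring
    rw [h9, abs_mul, abs_of_nonneg h3]
    have h10 : |(Φf z - R) + (R - Q)| ≤ ε := by
      refine (abs_add_le _ _).trans ?_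
      rw [abs_sub_comm (Φf z) R]
      linarith
    calc P * |(Φf z - R) + (R - Q)| ≤ 1 * ε := mul_le_mul h4 h10 (abs_nonneg _) zero_le_one
      _ = ε := one_mul ε

end Pool.Agent.GroB
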