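import Mathlib

/-!
# Piece FF: elements of the class `𝓕` as power series

One factor: `(1 - x(z-1))/(1 - y(z-1)) = ∑ ψ_k z^k`, `ψ_0 = (1+x)/(1+y)`,
`ψ_k = y^(k-1) (y-x)/(1+y)^(k+1) ≥ 0` (`k ≥ 1`), for `|z| y < 1 + y`. Product of finitely many: Cauchy
products; all coefficients `≥ 0`; valid (complex `z` too) for `‖z‖ ≤ 1 + r` when `2 r Y ≤ 1`, `r > 0`, all
`y_i ≤ Y` (`(1+r) y < 1 + y`). At `z = 1 + r`:
`(1 - x r)/(1 - y r) = 1 + (y-x) r/(1 - y r) ≤ 1 + 2 r (y-x) ≤ exp (2 r (y-x))`.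
-/

open Finset

namespace Pool.Agent.GroB

private lemma one_factor_series {x y r : ℝ} (hx : -1 ≤ x) (hy : 0 ≤ y) (hxy : x ≤ y) (hr : 0 < r)
    (hry : 2 * r * y ≤ 1) :
    ∃ ψ : ℕ → ℝ, (∀ k, 0 ≤ ψ k) ∧ ∀ z : ℂ, ‖z‖ ≤ 1 + r →
      HasSum (fun k => (ψ k : ℂ) * z ^ k) ((1 - (x : ℂ) * (z - 1)) / (1 - (y : ℂ) * (z - 1))) := by
  have h1y : 0 < 1 + y := by linarith
  refine ⟨fun k => if k = 0 then (1 + x) / (1 + y) else y ^ (k - 1) * (y - x) / (1 + y) ^ (k + 1),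
    ?_, ?_⟩
  · intro k
    by_cases hk : k = 0
    · simp only [hk, if_true]
      exact div_nonneg (by linarith) h1y.le
    · simp only [hk, if_false]
      exact div_nonneg (mul_nonneg (pow_nonneg hy _) (by linarith)) (pow_nonneg h1y.le _)
  · intro z hz
    have h1yc : (1 + y : ℂ) ≠ 0 := by
      have : ((1 + y : ℝ) : ℂ) ≠ 0 := by exact_mod_cast h1y.ne'
      push_cast at this
      exact this
    obtain ⟨w, hw⟩ : ∃ w : ℂ, w = (y : ℂ) * z / (1 + y) := ⟨_, rfl⟩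
    have hwn : ‖w‖ < 1 := by
      have e1 : ‖w‖ = y * ‖z‖ / (1 + y) := by
        rw [hw, norm_div, norm_mul, Complex.norm_real, Real.norm_of_nonneg hy]
        congr 1
        have : (1 + y : ℂ) = ((1 + y : ℝ) : ℂ) := by push_cast; rfl
        rw [this, Complex.norm_real, Real.norm_of_nonneg h1y.le]
      rw [e1, div_lt_one h1y]
      have : y * ‖z‖ ≤ y * (1 + r) := mul_le_mul_of_nonneg_left hz hy
      nlinarith
    have hw1 : 1 - w ≠ 0 := by
      intro h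
      have : w = 1 := by linear_combination -h
      rw [this, norm_one] at hwn
      exact lt_irrefl _ hwn
    have hg := hasSum_geometric_of_norm_lt_one hwn
    have hg2 := hg.mul_left ((y - x : ℂ) * z / (1 + y) ^ 2)
    rw [← hasSum_nat_add_iff' 1]
    have hden : (1 - (y : ℂ) * (z - 1)) = (1 + y) * (1 - w) := by
      rw [hw]; field_simp; ring
    have hval : ((1 - (x : ℂ) * (z - 1)) / (1 - (y : ℂ) * (z - 1)) -
        ∑ i ∈ range 1, (((if i = 0 then (1 + x) / (1 + y) else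
          y ^ (i - 1) * (y - x) / (1 + y) ^ (i + 1) : ℝ) : ℂ) * z ^ i)) =
        (y - x : ℂ) * z / (1 + y) ^ 2 * (1 - w)⁻¹ := by
      rw [Finset.sum_range_one]
      simp only [if_true, pow_zero, mul_one]
      push_cast
      rw [hden]
      have hz' : (y : ℂ) * z = (1 + y) * w := by rw [hw]; field_simp
      field_simp
      linear_combination (-1 - (x : ℂ)) * hz'
    rw [hval]
    refine hg2.congr_fun fun k => ?_
    simp only [Nat.add_eq_zero_iff, one_ne_zero, and_false, if_false, Nat.add_sub_cancel]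
    push_cast
    rw [hw, div_pow, mul_pow]
    field_simp
    ring

private lemma prod_series {ι : Type*} (r : ℝ) (f : ι → ℂ → ℂ)
    (hf : ∀ i, ∃ ψ : ℕ → ℝ, (∀ k, 0 ≤ ψ k) ∧ ∀ z : ℂ, ‖z‖ ≤ 1 + r →
      HasSum (fun k => (ψ k : ℂ) * z ^ k) (f i z)) (s : Finset ι) :
    ∃ ψ : ℕ → ℝ, (∀ k, 0 ≤ ψ k) ∧ ∀ z : ℂ, ‖z‖ ≤ 1 + r →
      HasSum (fun k => (ψ k : ℂ) * z ^ k) (∏ i ∈ s, f i z) := by
  classical
  induction s using Finset.induction_on with
  | empty =>
    refine ⟨fun k => if k = 0 then 1 else 0, fun k => by dsimp only; split_ifs <;> norm_num,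
      fun z _ => ?_⟩
    rw [Finset.prod_empty]
    have := hasSum_ite_eq (0 : ℕ) (1 : ℂ)
    refine this.congr_fun fun k => ?_
    by_cases hk : k = 0
    · simp [hk]
    · simp [hk]
  | insert a s ha ih =>
    obtain ⟨ψ, hψ, hψs⟩ := ih
    obtain ⟨φ, hφ, hφs⟩ := hf a
    refine ⟨fun n => ∑ kl ∈ antidiagonal n, φ kl.1 * ψ kl.2,
      fun n => Finset.sum_nonneg fun kl _ => mul_nonneg (hφ _) (hψ _), fun z hz => ?_⟩
    rw [Finset.prod_insert ha]
    have h1 := hφs z hz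
    have h2 := hψs z hz
    have n1 : Summable fun k => ‖(φ k : ℂ) * z ^ k‖ := h1.summable.norm
    have n2 : Summable fun k => ‖(ψ k : ℂ) * z ^ k‖ := h2.summable.norm
    have h3 := tsum_mul_tsum_eq_tsum_sum_antidiagonal_of_summable_norm n1 n2
    have h4 := summable_norm_sum_mul_antidiagonal_of_summable_norm n1 n2
    have h5 := h4.of_norm.hasSum
    rw [← h3, h1.tsum_eq, h2.tsum_eq] at h5
    refine h5.congr_fun fun n => ?_
    push_cast
    rw [Finset.sum_mul]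
    refine Finset.sum_congr rfl fun kl hkl => ?_
    rw [← Finset.HasAntidiagonal.mem_antidiagonal.1 hkl, pow_add]
    ring

theorem fin_series (q Y r : ℝ) (hY : 0 < Y) (hr : 0 < r) (hrY : 2 * r * Y ≤ 1) (m : ℕ)
    (x y : Fin m → ℝ) (h : ∀ i, -1 ≤ x i ∧ x i ≤ q ∧ 0 ≤ y i ∧ x i ≤ y i) (hy : ∀ i, y i ≤ Y) :
    ∃ ψ : ℕ → ℝ, (∀ k, 0 ≤ ψ k) ∧
      (∀ z : ℂ, ‖z‖ ≤ 1 + r → HasSum (fun k => (ψ k : ℂ) * z ^ k)
        (∏ i, (1 - (x i : ℂ) * (z - 1)) / (1 - (y i : ℂ) * (z - 1)))) ∧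
      ∀ k, ψ k * (1 + r) ^ k ≤ Real.exp (2 * r * ∑ i, (y i - x i)) := by
  have hry : ∀ i, 2 * r * y i ≤ 1 := fun i =>
    (mul_le_mul_of_nonneg_left (hy i) (by positivity)).trans hrY
  obtain ⟨ψ, hψ, hs⟩ := prod_series r
    (fun (i : Fin m) z => (1 - (x i : ℂ) * (z - 1)) / (1 - (y i : ℂ) * (z - 1)))
    (fun i => one_factor_series (h i).1 (h i).2.2.1 (h i).2.2.2 hr (hry i)) Finset.univ
  refine ⟨ψ, hψ, hs, fun k => ?_⟩
  have h1 := hs ((1 + r : ℝ) : ℂ) (by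
    rw [Complex.norm_real, Real.norm_of_nonneg (by linarith)])
  have h2 : HasSum (fun k => ψ k * (1 + r) ^ k)
      (∏ i, (1 - x i * r) / (1 - y i * r)) := by
    rw [← Complex.hasSum_ofReal]
    have e : ((∏ i, (1 - x i * r) / (1 - y i * r) : ℝ) : ℂ) =
        ∏ i, (1 - (x i : ℂ) * (((1 + r : ℝ) : ℂ) - 1)) / (1 - (y i : ℂ) * (((1 + r : ℝ) : ℂ) - 1)) := by
      push_cast
      refine Finset.prod_congr rfl fun i _ => ?_
      congr 2 <;> ring
    rw [e]
    convert h1 using 2 with k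
    push_cast
    rfl
  have h3 : ψ k * (1 + r) ^ k ≤ ∏ i, (1 - x i * r) / (1 - y i * r) :=
    le_hasSum h2 k (fun j _ => mul_nonneg (hψ j) (pow_nonneg (by linarith) _))
  refine h3.trans ?_
  rw [Finset.mul_sum, Real.exp_sum]
  refine Finset.prod_le_prod (fun i _ => ?_) (fun i _ => ?_)
  · have := hry i
    refine div_nonneg ?_ (by nlinarith)
    have := (h i).2.2.2
    nlinarith
  · have a1 := hry i
    have a2 := (h i).2.2.2
    have hden : 0 < 1 - y i * r := by nlinarith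
    rw [div_le_iff₀ hden]
    have a3 : 1 + 2 * r * (y i - x i) ≤ Real.exp (2 * r * (y i - x i)) := by
      have := Real.add_one_le_exp (2 * r * (y i - x i))
      linarith
    refine le_trans ?_ (mul_le_mul_of_nonneg_right a3 hden.le)
    have a4 : 0 ≤ r * (y i - x i) := mul_nonneg hr.le (by linarith)
    nlinarith

end Pool.Agent.GroB
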