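import Pool.Agent.Lib_MP_58440c_pr.Main
import Pool.Agent.Lib_MP_58440c_pr.DetForm

/-! Collects everything (to be turned into `Results/MP_58440c_pr/...`). -/

namespace Pool.Agent.GroB

theorem final (p : ℝ) (hp0 : 0 < p) (hp1 : p < 1) :
    (∀ (n : ℕ) (l : Fin n → ℕ), Antitone l → ∀ x : Fin n → ℂ,
      Gro (p : ℂ) l x * ∏ i, ∏ j ∈ Finset.Ioi i, (x i - x j) =
        (Matrix.of fun i j : Fin n =>
          x j ^ (l i + (n - 1 - (i : ℕ))) * (1 - (p : ℂ) * x j) ^ (i : ℕ)).det) ∧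
    ∀ M ∈ Set.extremePoints ℝ {M | Coherent p M},
      ∃ Φ ∈ FF p, ∀ (n : ℕ) (z : Fin n → ℂ), (∀ i, ‖z i‖ ≤ 1) →
        HasSum (fun l : Fin n → ℕ =>
          (M n l : ℂ) * (Gro (p : ℂ) l z / Gro (p : ℂ) l (fun _ => 1))) (∏ i, Φ (z i)) :=
  ⟨fun n l hl x => det_form (p : ℂ) n l hl x, fun M hM => main p hp0 hp1 M hM⟩

end Pool.Agent.GroB
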