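import Pool.Agent.Lib_MP_58440c_pr.LemA
import Pool.Agent.Lib_MP_58440c_pr.GB1

/-!
# Piece GB2: symmetry of `G`

* `G_congr_prod`: `G_eq_ND` (`PosPt` gives the nonvanishing of `x j` and `1 - p x j`) and
  `ND_congr_prod`; if `l` is not antitone both sides are `0`.
* `G_rot`, `G_swap`: the products `∏_{k<n} (X - C (x k))` agree (`Finset.prod_range_succ'`,
  `Finset.prod_range_succ`).
* `G_cons_eq`: `G_rot` for the sequence `fun j => if j = n then w else x j` and `G_congr`.
* `G_le_one`: let `x^{(k)} j = if j < k then x j else 1`. Claim `G p n l (x^{(k+1)}) ≤ G p n l (x^{(k)})`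
  for `k < n`: both points lists may be permuted to `cons (x k) (x^{(k)})` and `cons 1 (x^{(k)})`
  (first `n` entries; `G_congr_prod`), then `G_mono_cons`. `x^{(0)} = one`, `x^{(n)}` agrees with `x`
  below `n`.
-/


open Finset Polynomial

namespace Pool.Agent.GroB

/-- symmetry of `G` in the points: only the polynomial `∏ (X - x_k)` matters -/
theorem G_congr_prod (p : ℝ) (n : ℕ) (l : Fin n → ℕ) (x y : ℕ → ℝ) (hx : PosPt p x)
    (hy : PosPt p y)
    (h : ∏ k ∈ range n, (X - C (x k)) = ∏ k ∈ range n, (X - C (y k))) :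
    G p n l x = G p n l y := by
  by_cases hl : Antitone l
  · rw [G_eq_ND p n l hl x fun j _ => ⟨(hx j).1.ne', by have := (hx j).2; linarith⟩,
      G_eq_ND p n l hl y fun j _ => ⟨(hy j).1.ne', by have := (hy j).2; linarith⟩]
    exact ND_congr_prod h _
  · rw [G_eq_zero p n l x hl, G_eq_zero p n l y hl]

theorem G_rot (p : ℝ) (n : ℕ) (l : Fin (n + 1) → ℕ) (x : ℕ → ℝ) (hx : PosPt p x) :
    G p (n + 1) l (cons (x n) x) = G p (n + 1) l x := by
  refine G_congr_prod p (n + 1) l _ _ (hx.cons (hx n).1 (hx n).2) hx ?_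
  rw [Finset.prod_range_succ', Finset.prod_range_succ]
  rfl

theorem G_swap (p : ℝ) (n : ℕ) (l : Fin n → ℕ) (a b : ℝ) (x : ℕ → ℝ)
    (hx : PosPt p (cons a (cons b x))) (hn : n ≠ 1) :
    G p n l (cons a (cons b x)) = G p n l (cons b (cons a x)) := by
  have hy : PosPt p (cons b (cons a x)) := by
    intro j
    match j with
    | 0 => exact hx 1
    | 1 => exact hx 0
    | j + 2 => exact hx (j + 2)
  match n, l, hn with
  | 0, l, _ => rfl
  | n + 2, l, _ =>
      refine G_congr_prod p (n + 2) l _ _ hx hy ?_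
      rw [Finset.prod_range_succ', Finset.prod_range_succ', Finset.prod_range_succ',
        Finset.prod_range_succ']
      simp only [cons_succ, cons_zero, zero_add]
      have e1 : ∀ c : ℕ → ℝ, cons a c (0 + 1) = c 0 := fun c => rfl
      have e2 : ∀ c : ℕ → ℝ, cons b c (0 + 1) = c 0 := fun c => rfl
      try rw [e1]
      try rw [e2]
      try simp only [cons_zero]
      ring

theorem G_cons_eq (p : ℝ) (n : ℕ) (l : Fin (n + 1) → ℕ) (w : ℝ) (x : ℕ → ℝ)
    (hx : PosPt p (cons w x)) :
    G p (n + 1) l (cons w x) = ∑ m ∈ below l, G p n m x * skew p l m w := by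
  set y : ℕ → ℝ := fun j => if j = n then w else x j with hy
  have hyn : y n = w := by simp [hy]
  have hyx : ∀ j < n, y j = x j := fun j hj => by simp [hy, hj.ne]
  have hpy : PosPt p y := by
    intro j
    by_cases hj : j = n
    · subst hj; rw [hyn]; exact hx 0
    · have : y j = x j := by simp [hy, hj]
      rw [this]; exact hx (j + 1)
  have h1 := G_rot p n l y hpy
  rw [hyn] at h1
  have h2 : G p (n + 1) l (cons w x) = G p (n + 1) l (cons w y) := by
    refine G_congr p (n + 1) l ?_
    intro j hj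
    cases j with
    | zero => rfl
    | succ j => rw [cons_succ, cons_succ, hyx j (by omega)]
  rw [h2, h1]
  show ∑ m ∈ below l, G p n m y * skew p l m (y n) = _
  rw [hyn]
  refine Finset.sum_congr rfl fun m _ => ?_
  rw [G_congr p n m (x := y) (y := x) hyx]

theorem hyb_prod (x : ℕ → ℝ) (k : ℕ) : ∀ n, k ≤ n →
    ∏ j ∈ range n, (X - C (if j < k then x j else 1)) =
      (∏ j ∈ range k, (X - C (x j))) * (X - C (1 : ℝ)) ^ (n - k) := by
  intro n hn
  induction n, hn using Nat.le_induction with
  | base =>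
      rw [Nat.sub_self, pow_zero, mul_one]
      refine Finset.prod_congr rfl fun j hj => ?_
      rw [if_pos (Finset.mem_range.1 hj)]
  | succ n hn ih =>
      rw [Finset.prod_range_succ, ih, if_neg (by omega), show n + 1 - k = (n - k) + 1 by omega,
        pow_succ]
      ring

theorem G_le_one (p : ℝ) (hp0 : 0 < p) (hp1 : p < 1) (n : ℕ) (l : Fin n → ℕ) (x : ℕ → ℝ)
    (hx : UnitSeq x) : G p n l x ≤ G p n l one := by
  cases n with
  | zero => exact le_rfl
  | succ n =>
  set y : ℕ → ℕ → ℝ := fun k j => if j < k then x j else 1 with hy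
  have hyU : ∀ k, UnitSeq (y k) := by
    intro k j
    by_cases hj : j < k
    · simp only [hy, if_pos hj]; exact hx j
    · simp only [hy, if_neg hj]; exact ⟨one_pos, le_rfl⟩
  have hyP : ∀ k, PosPt p (y k) := fun k => (hyU k).posPt hp0 hp1
  have hstep : ∀ k, k ≤ n → G p (n + 1) l (y (k + 1)) ≤ G p (n + 1) l (y k) := by
    intro k hk
    have hxk := hx k
    have e1 : G p (n + 1) l (y (k + 1)) = G p (n + 1) l (cons (x k) (y k)) := by
      refine G_congr_prod p (n + 1) l _ _ (hyP _)
        ((hyP k).cons hxk.1 (by nlinarith [hxk.1, hxk.2])) ?_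
      rw [Finset.prod_range_succ' (fun j => (X - C (cons (x k) (y k) j)))]
      simp only [cons_succ, cons_zero, hy]
      rw [hyb_prod x k n hk, hyb_prod x (k + 1) (n + 1) (by omega), Finset.prod_range_succ,
        show n + 1 - (k + 1) = n - k by omega]
      ring
    have e2 : G p (n + 1) l (y k) = G p (n + 1) l (cons 1 (y k)) := by
      refine G_congr_prod p (n + 1) l _ _ (hyP _)
        ((hyP k).cons one_pos (by linarith)) ?_
      rw [Finset.prod_range_succ' (fun j => (X - C (cons 1 (y k) j)))]
      simp only [cons_succ, cons_zero, hy]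
      rw [hyb_prod x k n hk, hyb_prod x k (n + 1) (by omega),
        show n + 1 - k = (n - k) + 1 by omega, pow_succ]
      ring
    rw [e1, e2]
    exact G_mono_cons p (n + 1) l (y k) (hyP k) hxk.1.le hxk.2
  have hall : ∀ k, k ≤ n + 1 → G p (n + 1) l (y k) ≤ G p (n + 1) l (y 0) := by
    intro k
    induction k with
    | zero => intro _; exact le_rfl
    | succ k ih => intro hk; exact (hstep k (by omega)).trans (ih (by omega))
  have h0 : y 0 = one := by
    funext j; simp [hy]
  have h1 : G p (n + 1) l x = G p (n + 1) l (y (n + 1)) := by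
    refine G_congr p (n + 1) l fun j hj => ?_
    simp [hy, hj]
  rw [h1, ← h0]
  exact hall (n + 1) le_rfl

end Pool.Agent.GroB
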