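import Pool.Agent.Lib_MP_58440c_pr.GBasic

/-!
# Piece GPL: limits of `G`-positive functions

* `gpos_limit`: let `c_j` be the coefficients of `f_j`; `c_j l * G p n l one ≤ f_j one ≤ C`. Take any
  ultrafilter `U ≤ atTop` (`hyperfilter ℕ`); limits `c l` of `c_j l` along `U` exist (bounded; for `l`
  not antitone all are `0`). For `x` with all `x j ≤ θ < 1`: `c_j l G p n l x ≤ C * K * θ^(∑ l)`
  (`G_theta`), which is summable over `l : Fin n → ℕ`; dominated convergence along `U`:
  `HasSum (c l G p n l x) (f x)`. For general `UnitSeq` `x`: apply this to `t x`, `t < 1`, let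
  `t → 1`: the partial sums at `one` are `≤ g one`, hence `c l G p n l one` is summable, and
  dominated convergence (`G p n l (t x) ≤ K G p n l one`) gives the sum `g x` (hypothesis `hc`).
-/

open Finset Polynomial Filter Topology

namespace Pool.Agent.GroB

namespace GPL

lemma summable_pow_sum (θ : ℝ) (h0 : 0 ≤ θ) (h1 : θ < 1) (n : ℕ) :
    Summable (fun l : Fin n → ℕ => θ ^ (∑ i, l i)) := by
  induction n with
  | zero => exact Summable.of_finite
  | succ n ih =>
    have hg : Summable (fun k : ℕ => θ ^ k) := summable_geometric_of_lt_one h0 h1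
    have h := hg.mul_of_nonneg ih (fun _ => pow_nonneg h0 _) (fun _ => pow_nonneg h0 _)
    rw [← (Fin.consEquiv (fun _ : Fin (n + 1) => ℕ)).summable_iff]
    refine h.congr ?_
    rintro ⟨a, l⟩
    simp only [Function.comp_apply, Fin.consEquiv_apply]
    rw [Fin.sum_univ_succ, pow_add]
    simp

lemma exists_lim {u : ℕ → ℝ} {B : ℝ} (h0 : ∀ i, 0 ≤ u i) (hB : ∀ i, u i ≤ B) :
    ∃ c, 0 ≤ c ∧ c ≤ B ∧ Tendsto u (hyperfilter ℕ : Filter ℕ) (𝓝 c) := by
  have hK : IsCompact (Set.Icc (0 : ℝ) B) := isCompact_Icc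
  obtain ⟨c, hc, hc'⟩ := hK.ultrafilter_le_nhds ((hyperfilter ℕ).map u) (by
    rw [Ultrafilter.coe_map]
    refine Filter.le_principal_iff.2 ?_
    exact Filter.mem_map.2 (Filter.univ_mem' (fun i => ⟨h0 i, hB i⟩)))
  exact ⟨c, hc.1, hc.2, hc'⟩

end GPL

open GPL in
theorem gpos_limit (p : ℝ) (hp0 : 0 < p) (hp1 : p < 1) (n : ℕ) (f : ℕ → (ℕ → ℝ) → ℝ)
    (hf : ∀ i, GPos p n (f i)) (g : (ℕ → ℝ) → ℝ)
    (hg : ∀ x, UnitSeq x → Tendsto (fun i => f i x) atTop (𝓝 (g x)))
    (hc : ∀ x, UnitSeq x → Tendsto (fun t : ℝ => g (fun j => t * x j)) (𝓝[<] 1) (𝓝 (g x))) :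
    GPos p n g := by
  choose c hcoef using hf
  have c0 : ∀ i l, 0 ≤ c i l := fun i => (hcoef i).1
  have cA : ∀ i l, ¬ Antitone l → c i l = 0 := fun i => (hcoef i).2.1
  have cS : ∀ i x, UnitSeq x → HasSum (fun l => c i l * G p n l x) (f i x) :=
    fun i => (hcoef i).2.2
  have hU : (hyperfilter ℕ : Filter ℕ) ≤ atTop := Nat.hyperfilter_le_atTop
  have hone : UnitSeq one := unitSeq_one
  have hGn : ∀ l x, UnitSeq x → 0 ≤ G p n l x := fun l x hx =>
    G_nonneg p n l x (hx.posPt hp0 hp1)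
  -- bound
  obtain ⟨C, hC⟩ : ∃ C, ∀ i, f i one ≤ C := by
    obtain ⟨C, hC⟩ := (hg one hone).bddAbove_range
    exact ⟨C, fun i => hC ⟨i, rfl⟩⟩
  have hterm : ∀ i l, c i l * G p n l one ≤ C := by
    intro i l
    refine le_trans ?_ (hC i)
    exact le_hasSum (cS i one hone) l (fun j _ => mul_nonneg (c0 i j) (hGn j one hone))
  have hC0 : 0 ≤ C := (mul_nonneg (c0 0 0) (hGn 0 one hone)).trans (hterm 0 0)
  -- limits
  have hlim : ∀ l, ∃ d, 0 ≤ d ∧ (¬ Antitone l → d = 0) ∧
      Tendsto (fun i => c i l) (hyperfilter ℕ : Filter ℕ) (𝓝 d) := by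
    intro l
    by_cases hl : Antitone l
    · have hG : 0 < G p n l one := G_pos p n l hl one (hone.posPt hp0 hp1)
      obtain ⟨d, h1, _, h3⟩ := exists_lim (u := fun i => c i l) (B := C / G p n l one)
        (fun i => c0 i l) (fun i => by
          rw [le_div_iff₀ hG]
          exact hterm i l)
      exact ⟨d, h1, fun h => absurd hl h, h3⟩
    · refine ⟨0, le_rfl, fun _ => rfl, ?_⟩
      have : (fun i => c i l) = fun _ => 0 := funext fun i => cA i l hl
      rw [this]
      exact tendsto_const_nhds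
  choose d hd0 hdA hdT using hlim
  set K : ℝ := ((1 - p)⁻¹) ^ (n * n) with hK
  have hq : 0 < 1 - p := by linarith
  have hK0 : 0 ≤ K := by positivity
  have hdone : ∀ l, d l * G p n l one ≤ C := by
    intro l
    refine le_of_tendsto ((hdT l).mul_const (G p n l one)) ?_
    exact Filter.univ_mem' (fun i => hterm i l)
  -- the case of points below `θ < 1`
  have main : ∀ (θ : ℝ), θ < 1 → ∀ x, UnitSeq x → (∀ j, x j ≤ θ) →
      HasSum (fun l => d l * G p n l x) (g x) := by
    intro θ hθ x hx hxθ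
    have hθ0 : 0 ≤ θ := (hx 0).1.le.trans (hxθ 0)
    have hGx : ∀ l, G p n l x ≤ K * θ ^ (∑ i, l i) * G p n l one := fun l =>
      G_theta p hp0 hp1 n l x θ (fun j => ⟨(hx j).1.le, hxθ j⟩) hθ.le
    have hbound : Summable (fun l : Fin n → ℕ => C * K * θ ^ (∑ i, l i)) :=
      (summable_pow_sum θ hθ0 hθ n).mul_left (C * K)
    have hle : ∀ (a : ℝ) (l : Fin n → ℕ), 0 ≤ a → a * G p n l one ≤ C →
        a * G p n l x ≤ C * K * θ ^ (∑ i, l i) := by
      intro a l ha h
      calc a * G p n l x ≤ a * (K * θ ^ (∑ i, l i) * G p n l one) :=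
            mul_le_mul_of_nonneg_left (hGx l) ha
        _ = (K * θ ^ (∑ i, l i)) * (a * G p n l one) := by ring
        _ ≤ (K * θ ^ (∑ i, l i)) * C :=
            mul_le_mul_of_nonneg_left h (mul_nonneg hK0 (pow_nonneg hθ0 _))
        _ = _ := by ring
    have hT := tendsto_tsum_of_dominated_convergence (𝓕 := (hyperfilter ℕ : Filter ℕ))
      (f := fun i l => c i l * G p n l x) (g := fun l => d l * G p n l x) hbound
      (fun l => (hdT l).mul_const _)
      (Filter.univ_mem' (fun i l => by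
        rw [Real.norm_of_nonneg (mul_nonneg (c0 i l) (hGn l x hx))]
        exact hle _ l (c0 i l) (hterm i l)))
    have hT2 : Tendsto (fun i => ∑' l, c i l * G p n l x) (hyperfilter ℕ : Filter ℕ)
        (𝓝 (g x)) := by
      have : (fun i => ∑' l, c i l * G p n l x) = fun i => f i x :=
        funext fun i => (cS i x hx).tsum_eq
      rw [this]
      exact (hg x hx).mono_left hU
    have heq := tendsto_nhds_unique hT hT2
    have hsum : Summable (fun l => d l * G p n l x) :=
      Summable.of_nonneg_of_le (fun l => mul_nonneg (hd0 l) (hGn l x hx))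
        (fun l => hle _ l (hd0 l) (hdone l)) hbound
    rw [← heq]
    exact hsum.hasSum
  have hmul : ∀ t : ℝ, 0 < t → t < 1 → ∀ x, UnitSeq x → UnitSeq (fun j => t * x j) ∧
      ∀ j, t * x j ≤ t := by
    intro t h0 h1 x hx
    refine ⟨fun j => ⟨mul_pos h0 (hx j).1, ?_⟩, fun j => ?_⟩
    · exact mul_le_one₀ h1.le (hx j).1.le (hx j).2
    · exact mul_le_of_le_one_right h0.le (hx j).2
  have hev : ∀ᶠ t : ℝ in 𝓝[<] 1, 0 < t ∧ t < 1 := by
    have h1 : ∀ᶠ t : ℝ in 𝓝[<] 1, t < 1 := self_mem_nhdsWithin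
    have h2 : ∀ᶠ t : ℝ in 𝓝[<] 1, 0 < t :=
      nhdsWithin_le_nhds (lt_mem_nhds (by norm_num : (0 : ℝ) < 1))
    exact h2.and h1
  have hcont : ∀ (l : Fin n → ℕ) (x : ℕ → ℝ),
      Tendsto (fun t : ℝ => G p n l (fun j => t * x j)) (𝓝[<] 1) (𝓝 (G p n l x)) := by
    intro l x
    have h1 : Continuous (fun t : ℝ => G p n l (fun j => t * x j)) :=
      (G_continuous p n l).comp (continuous_pi fun j => continuous_id.mul continuous_const)
    have h2 := h1.tendsto 1
    simp only [one_mul] at h2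
    exact h2.mono_left nhdsWithin_le_nhds
  -- summability at `one`
  have hsum1 : Summable (fun l => d l * G p n l one) := by
    refine summable_of_sum_le (c := g one) (fun l => mul_nonneg (hd0 l) (hGn l one hone)) ?_
    intro s
    refine le_of_tendsto_of_tendsto
      (tendsto_finsetSum s (fun l _ => (hcont l one).const_mul (d l))) (hc one hone) ?_
    filter_upwards [hev] with t ht
    obtain ⟨hx1, hx2⟩ := hmul t ht.1 ht.2 one hone
    exact sum_le_hasSum s (fun l _ => mul_nonneg (hd0 l) (hGn l _ hx1)) (main t ht.2 _ hx1 hx2)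
  refine ⟨d, hd0, hdA, ?_⟩
  intro x hx
  have hGK : ∀ y, UnitSeq y → ∀ l, d l * G p n l y ≤ K * (d l * G p n l one) := by
    intro y hy l
    have h1 := G_theta p hp0 hp1 n l y 1 (fun j => ⟨(hy j).1.le, (hy j).2⟩) le_rfl
    rw [one_pow, mul_one] at h1
    calc d l * G p n l y ≤ d l * (K * G p n l one) := mul_le_mul_of_nonneg_left h1 (hd0 l)
      _ = _ := by ring
  have hsumx : Summable (fun l => d l * G p n l x) :=
    Summable.of_nonneg_of_le (fun l => mul_nonneg (hd0 l) (hGn l x hx)) (hGK x hx)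
      (hsum1.mul_left K)
  have hT := tendsto_tsum_of_dominated_convergence (𝓕 := 𝓝[<] (1 : ℝ))
    (f := fun t l => d l * G p n l (fun j => t * x j)) (g := fun l => d l * G p n l x)
    (hsum1.mul_left K) (fun l => (hcont l x).const_mul _) (by
      filter_upwards [hev] with t ht
      intro l
      obtain ⟨hx1, _⟩ := hmul t ht.1 ht.2 x hx
      rw [Real.norm_of_nonneg (mul_nonneg (hd0 l) (hGn l _ hx1))]
      exact hGK _ hx1 l)
  have hT2 : Tendsto (fun t : ℝ => ∑' l, d l * G p n l (fun j => t * x j)) (𝓝[<] 1)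
      (𝓝 (g x)) := by
    refine (hc x hx).congr' ?_
    filter_upwards [hev] with t ht
    obtain ⟨hx1, hx2⟩ := hmul t ht.1 ht.2 x hx
    exact (main t ht.2 _ hx1 hx2).tsum_eq.symm
  rw [← tendsto_nhds_unique hT hT2]
  exact hsumx.hasSum

end Pool.Agent.GroB
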