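import Pool.Agent.Lib_MP_58440c_pr.GBasic

/-!
# Piece GPO: operations on `G`-positive functions

* `gpos_trunc`: `f(x_0, …, x_{n-1})` `G`-positive at level `n` implies `f(x_0, …, x_{k-1}, 1, …, 1)`
  `G`-positive at level `k ≤ n`: one step `n+1 → n`: `G p (n+1) l (trunc n x) =
  ∑ m ∈ below l, G p n m x * skew p l m 1`, so the new coefficient of `m` is
  `∑' l, c l * skew p l m 1` (summable because it is dominated: `c l G p (n+1) l one` is summable and
  `skew p l m 1 * G p n m one ≤ G p (n+1) l one`); Tonelli. Then iterate.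
* `gpos_sum`: countable nonnegative combinations (Tonelli).
-/


open Finset Polynomial Filter Topology

namespace Pool.Agent.GroB

/-- keep the first `k` points, replace the others by `1` -/
def trunc (k : ℕ) (x : ℕ → ℝ) : ℕ → ℝ := fun j => if j < k then x j else 1

theorem UnitSeq.trunc {x : ℕ → ℝ} (hx : UnitSeq x) (k : ℕ) : UnitSeq (GroB.trunc k x) := by
  intro j
  unfold GroB.trunc
  split
  · exact hx j
  · exact ⟨one_pos, le_rfl⟩

/-- Tonelli for nonnegative real families -/
theorem tonelli_hasSum {A B : Type*} (a : A → B → ℝ) (h0 : ∀ l m, 0 ≤ a l m) (r : A → ℝ)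
    (hr : ∀ l, HasSum (a l) (r l)) (R : ℝ) (hR : HasSum r R) :
    HasSum (fun m => ∑' l, a l m) R := by
  have hsum : Summable (fun p : A × B => a p.1 p.2) := by
    rw [summable_prod_of_nonneg (fun p => h0 _ _)]
    refine ⟨fun l => (hr l).summable, ?_⟩
    have : (fun l => ∑' m, a l m) = r := funext fun l => (hr l).tsum_eq
    rw [this]
    exact hR.summable
  have hT : ∑' p : A × B, a p.1 p.2 = R := by
    rw [hsum.tsum_prod, ← hR.tsum_eq]
    exact tsum_congr fun l => (hr l).tsum_eq
  have hswap : HasSum (fun p : B × A => a p.2 p.1) R := by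
    have h1 := hsum.hasSum
    rw [hT] at h1
    exact (Equiv.prodComm B A).hasSum_iff.2 h1
  refine hswap.prod_fiberwise fun m => ?_
  exact (hswap.summable.prod_factor m).hasSum

theorem gpos_trunc_self (p : ℝ) (n : ℕ) (f : (ℕ → ℝ) → ℝ) (hf : GPos p n f) :
    GPos p n (fun x => f (trunc n x)) := by
  obtain ⟨c, hc0, hc1, hc2⟩ := hf
  refine ⟨c, hc0, hc1, fun x hx => ?_⟩
  have h1 := hc2 (trunc n x) (hx.trunc n)
  have h2 : (fun l => c l * G p n l (trunc n x)) = fun l => c l * G p n l x := by
    funext l
    rw [G_congr p n l (x := trunc n x) (y := x) fun j hj => by simp [trunc, hj]]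
  rwa [h2] at h1

theorem gpos_trunc_step (p : ℝ) (hp0 : 0 < p) (hp1 : p < 1) (n : ℕ)
    (f : (ℕ → ℝ) → ℝ) (hf : GPos p (n + 1) f) : GPos p n (fun x => f (trunc n x)) := by
  obtain ⟨c, hc0, hc1, hc2⟩ := hf
  refine ⟨fun m => ∑' l, c l * skew p l m 1, fun m => ?_, fun m hm => ?_, fun x hx => ?_⟩
  · exact tsum_nonneg fun l => mul_nonneg (hc0 l) (skew_nonneg l m zero_le_one (by linarith))
  · have h1 : (fun l => c l * skew p l m 1) = fun _ => 0 := by
      funext l
      rw [skew_of_notMem p (fun h => hm (antitone_of_mem_below h)), mul_zero]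
    show ∑' l, c l * skew p l m 1 = 0
    rw [h1, tsum_zero]
  · have h1 := hc2 (trunc n x) (hx.trunc n)
    have htn : trunc n x n = 1 := by simp [trunc]
    have h2 : ∀ l, HasSum (fun m => c l * skew p l m 1 * G p n m x)
        (c l * G p (n + 1) l (trunc n x)) := by
      intro l
      have h3 : c l * G p (n + 1) l (trunc n x) =
          ∑ m ∈ below l, c l * skew p l m 1 * G p n m x := by
        rw [show G p (n + 1) l (trunc n x) =
          ∑ m ∈ below l, G p n m (trunc n x) * skew p l m (trunc n x n) from rfl, htn,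
          Finset.mul_sum]
        refine Finset.sum_congr rfl fun m _ => ?_
        rw [G_congr p n m (x := trunc n x) (y := x) fun j hj => by simp [trunc, hj]]
        ring
      rw [h3]
      refine hasSum_sum_of_ne_finset_zero ?_
      intro m hm
      rw [skew_of_notMem p hm]
      ring
    have h4 := tonelli_hasSum (fun l m => c l * skew p l m 1 * G p n m x)
      (fun l m => mul_nonneg (mul_nonneg (hc0 l) (skew_nonneg l m zero_le_one (by linarith)))
        (G_nonneg p n m x (hx.posPt hp0 hp1))) _ h2 _ h1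
    have h5 : (fun m => ∑' l, c l * skew p l m 1 * G p n m x) =
        fun m => (∑' l, c l * skew p l m 1) * G p n m x := by
      funext m
      exact tsum_mul_right
    rwa [h5] at h4

theorem gpos_trunc (p : ℝ) (hp0 : 0 < p) (hp1 : p < 1) (n k : ℕ) (hk : k ≤ n)
    (f : (ℕ → ℝ) → ℝ) (hf : GPos p n f) : GPos p k (fun x => f (trunc k x)) := by
  obtain ⟨d, rfl⟩ := Nat.exists_eq_add_of_le hk
  clear hk
  induction d generalizing f with
  | zero => exact gpos_trunc_self p k f hf
  | succ d ih =>
      have h1 := gpos_trunc_step p hp0 hp1 (k + d) f hf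
      have h2 := ih (fun x => f (trunc (k + d) x)) h1
      have h3 : (fun x => f (trunc (k + d) (trunc k x))) = fun x => f (trunc k x) := by
        funext x
        congr 1
        funext j
        unfold trunc
        by_cases hj : j < k
        · rw [if_pos (by omega)]
        · simp [hj]
      rw [h3] at h2
      exact h2

theorem gpos_sum (p : ℝ) (hp0 : 0 < p) (hp1 : p < 1) (n : ℕ) (f : ℕ → (ℕ → ℝ) → ℝ) (w : ℕ → ℝ)
    (hw : ∀ i, 0 ≤ w i) (hf : ∀ i, GPos p n (f i)) (g : (ℕ → ℝ) → ℝ)
    (hg : ∀ x, UnitSeq x → HasSum (fun i => w i * f i x) (g x)) : GPos p n g := by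
  choose c hc using hf
  refine ⟨fun l => ∑' i, w i * c i l, fun l => ?_, fun l hl => ?_, fun x hx => ?_⟩
  · exact tsum_nonneg fun i => mul_nonneg (hw i) ((hc i).1 l)
  · have h1 : (fun i => w i * c i l) = fun _ => 0 := by
      funext i
      rw [(hc i).2.1 l hl, mul_zero]
    show ∑' i, w i * c i l = 0
    rw [h1, tsum_zero]
  · have h2 : ∀ i, HasSum (fun l => w i * c i l * G p n l x) (w i * f i x) := by
      intro i
      have := ((hc i).2.2 x hx).mul_left (w i)
      simpa [mul_assoc] using this
    have h4 := tonelli_hasSum (fun i l => w i * c i l * G p n l x)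
      (fun i l => mul_nonneg (mul_nonneg (hw i) ((hc i).1 l))
        (G_nonneg p n l x (hx.posPt hp0 hp1))) _ h2 _ (hg x hx)
    have h5 : (fun l => ∑' i, w i * c i l * G p n l x) =
        fun l => (∑' i, w i * c i l) * G p n l x := by
      funext l
      exact tsum_mul_right
    rwa [h5] at h4

end Pool.Agent.GroB
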