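import Pool.Agent.Lib_MP_58440c_pr.Red
import Pool.Agent.Lib_MP_58440c_pr.Tp

/-!
# Piece LSM2: supermodularity in two rows (chain systems)
-/

open Finset Polynomial

namespace Pool.Agent.GroB

/-- two-row supermodularity from the nonnegativity of the two determinants with doubled rows -/
theorem lsm_core (m : ℕ) (k : Fin m → ℝ[X]) (x : ℕ → ℝ) (y y' : ℝ) (hk : 0 < ND m k x)
    (i : Fin (m + 2)) (j : Fin (m + 1)) (i' j' : Fin (m + 1)) (a a' c c' : ℝ[X])
    (haa : 0 ≤ ND (m + 2) (Fin.insertNth i'.castSucc a (Fin.insertNth i' a' k))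
      (cons y (cons y' x)))
    (hcc : 0 ≤ ND (m + 2) (Fin.insertNth j'.castSucc c (Fin.insertNth j' c' k))
      (cons y (cons y' x))) :
    ND (m + 2) (Fin.insertNth i a' (Fin.insertNth j c k)) (cons y (cons y' x)) *
        ND (m + 2) (Fin.insertNth i a (Fin.insertNth j c' k)) (cons y (cons y' x)) ≤
      ND (m + 2) (Fin.insertNth i a' (Fin.insertNth j c' k)) (cons y (cons y' x)) *
        ND (m + 2) (Fin.insertNth i a (Fin.insertNth j c k)) (cons y (cons y' x)) := by
  obtain ⟨hat, -, h2⟩ := exists_hat m k x hk.ne'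
  have sq : ∀ t : ℕ, ((-1 : ℝ)) ^ (t + t) = 1 := by
    intro t; rw [← two_mul, pow_mul]; simp
  rw [h2, Fin.val_castSucc, sq, one_mul] at haa hcc
  rw [h2, h2, h2, h2]
  set N := ND m k x
  have hA := nonneg_of_mul_nonneg_right haa hk
  have hC := nonneg_of_mul_nonneg_right hcc hk
  have s2 : ((-1 : ℝ)) ^ ((i : ℕ) + j) * (-1) ^ ((i : ℕ) + j) = 1 := by
    rw [← mul_pow]; simp
  set s : ℝ := (-1) ^ ((i : ℕ) + j)
  set p1 := (hat a).eval y
  set p2 := dd (hat a) y y'
  set q1 := (hat a').eval y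
  set q2 := dd (hat a') y y'
  set r1 := (hat c).eval y
  set r2 := dd (hat c) y y'
  set t1 := (hat c').eval y
  set t2 := dd (hat c') y y'
  have key : (s * N * (q1 * t2 - q2 * t1)) * (s * N * (p1 * r2 - p2 * r1)) -
      (s * N * (q1 * r2 - q2 * r1)) * (s * N * (p1 * t2 - p2 * t1)) =
      N * N * ((p1 * q2 - p2 * q1) * (r1 * t2 - r2 * t1)) := by
    linear_combination (N * N * ((p1 * q2 - p2 * q1) * (r1 * t2 - r2 * t1))) * s2
  have hnn : 0 ≤ N * N * ((p1 * q2 - p2 * q1) * (r1 * t2 - r2 * t1)) :=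
    mul_nonneg (mul_nonneg hk.le hk.le) (mul_nonneg hA hC)
  linarith

end Pool.Agent.GroB
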