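import Pool.Agent.Lib_MP_58440c_pr.GBasic
import Pool.Agent.Lib_MP_58440c_pr.PolyB

/-!
# Piece PID: from `(0,1]^n` to the closed polydisc

* `poly_id`: show by induction on `j ≤ n`: the identity holds for all `z` with `‖z_i‖ ≤ 1` for `i < j`
  and `z_i ∈ (0,1]` for `i ≥ j`. Step: fix the other coordinates; both sides as functions of
  `w = z_j`: the left side is a series of polynomials in `w`, dominated by `M l * const`
  (`differentiableOn_tsum_of_summable_norm` on the open disc, continuity on the closed disc by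
  `continuousOn_tsum`); the right side is `const * Φc w`, analytic on a neighbourhood of the closed
  disc; they agree on `(0,1]`, so on the open disc (identity theorem) and by continuity on the
  closed disc.
-/

open Finset Filter Topology

namespace Pool.Agent.GroB

theorem skew_differentiable (p : ℂ) {n : ℕ} (l : Fin (n + 1) → ℕ) (m : Fin n → ℕ) {u : ℂ → ℂ}
    (hu : Differentiable ℂ u) : Differentiable ℂ fun w => skew p l m (u w) := by
  by_cases h : m ∈ below l
  · have : (fun w => skew p l m (u w)) =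
        fun w => u w ^ (∑ i, l i - ∑ i, m i) * (1 - p * u w) ^ rr l m := by
      funext w
      rw [skew_of_mem _ h]
    rw [this]
    exact (hu.pow _).mul (((differentiable_const _).sub (hu.const_mul p)).pow _)
  · have : (fun w => skew p l m (u w)) = fun _ => 0 := by
      funext w
      rw [skew_of_notMem _ h]
    rw [this]
    exact differentiable_const _

theorem Gro_differentiable (p : ℂ) {n : ℕ} (l : Fin n → ℕ) (u : Fin n → ℂ → ℂ)
    (hu : ∀ i, Differentiable ℂ (u i)) : Differentiable ℂ fun w => Gro p l (fun i => u i w) := by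
  induction n with
  | zero => exact differentiable_const _
  | succ n ih =>
    show Differentiable ℂ fun w => ∑ m ∈ below l, Gro p m (fun i : Fin n => u i.castSucc w) *
      skew p l m (u (Fin.last n) w)
    refine Differentiable.fun_sum fun m _ => ?_
    exact (ih m (fun i => u i.castSucc) fun i => hu _).mul (skew_differentiable p l m (hu _))

theorem poly_id_term (p : ℝ) (hp0 : 0 < p) (hp1 : p < 1) (n : ℕ) (M : (Fin n → ℕ) → ℝ)
    (hM0 : ∀ l, 0 ≤ M l) (z : Fin n → ℂ) (hz : ∀ i, ‖z i‖ ≤ 1) (l : Fin n → ℕ) :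
    ‖(M l : ℂ) * (Gro (p : ℂ) l z / Gro (p : ℂ) l (fun _ => 1))‖ ≤
      M l * ((1 + p) / (1 - p)) ^ (n * n) := by
  have h1p : 0 < 1 - p := sub_pos.2 hp1
  have h1 : Gro (p : ℂ) l (fun _ => 1) = ((Gro p l (fun _ => 1) : ℝ) : ℂ) := by
    have := Gro_ofReal p l (fun _ => 1)
    simpa using this
  have h2 := Gro_one_nonneg p hp1 l
  rw [h1, norm_mul, norm_div, Complex.norm_real, Complex.norm_real, Real.norm_eq_abs,
    Real.norm_eq_abs, abs_of_nonneg (hM0 l), abs_of_nonneg h2]
  refine mul_le_mul_of_nonneg_left ?_ (hM0 l)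
  exact div_le_of_le_mul₀ h2 (by positivity) (Gro_bound p hp0 hp1 l z hz)

theorem poly_id_aux (p : ℝ) (hp0 : 0 < p) (hp1 : p < 1) (n : ℕ) (M : (Fin n → ℕ) → ℝ)
    (hM0 : ∀ l, 0 ≤ M l) (hM1 : Summable M) (Φ : ℝ → ℝ) (Φc : ℂ → ℂ)
    (hΦc : AnalyticOnNhd ℂ Φc (Metric.closedBall 0 1))
    (hΦ : ∀ z : ℝ, 0 < z → z ≤ 1 → Φc (z : ℂ) = (Φ z : ℂ))
    (hid : ∀ x, UnitSeq x → HasSum (fun l => M l * (G p n l x / G p n l one)) (prodF Φ n x))
    (j : ℕ) (hj : j ≤ n) :
    ∀ z : Fin n → ℂ, (∀ i, ‖z i‖ ≤ 1) →
      (∀ i : Fin n, j ≤ (i : ℕ) → ∃ x : ℝ, 0 < x ∧ x ≤ 1 ∧ z i = (x : ℂ)) →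
      ∑' l, (M l : ℂ) * (Gro (p : ℂ) l z / Gro (p : ℂ) l (fun _ => 1)) = ∏ i, Φc (z i) := by
  induction j with
  | zero =>
    intro z hz hx
    choose x hx0 hx1 hx2 using fun i : Fin n => hx i (Nat.zero_le _)
    obtain ⟨y, hydef⟩ : ∃ y : ℕ → ℝ, y = fun i => if h : i < n then x ⟨i, h⟩ else 1 := ⟨_, rfl⟩
    have hyU : UnitSeq y := by
      intro i
      by_cases h : i < n
      · simp only [hydef, dif_pos h]
        exact ⟨hx0 _, hx1 _⟩
      · simp only [hydef, dif_neg h]
        exact ⟨one_pos, le_rfl⟩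
    have hyx : ∀ i : Fin n, y i = x i := by
      intro i
      simp only [hydef, dif_pos i.2]
    have hz2 : z = fun i : Fin n => ((y i : ℝ) : ℂ) := by
      funext i
      rw [hx2 i, hyx i]
    have h1 := (hid y hyU).tsum_eq
    have h2 : ∀ l, (M l : ℂ) * (Gro (p : ℂ) l z / Gro (p : ℂ) l (fun _ => 1)) =
        ((M l * (G p n l y / G p n l one) : ℝ) : ℂ) := by
      intro l
      have e1 : Gro (p : ℂ) l z = ((G p n l y : ℝ) : ℂ) := by
        rw [hz2, ← Gro_eq_G p n l y]
        exact Gro_ofReal p l (fun i : Fin n => y i)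
      have e2 : Gro (p : ℂ) l (fun _ => 1) = ((G p n l one : ℝ) : ℂ) := by
        rw [← Gro_eq_G p n l one]
        have := Gro_ofReal p l (fun i : Fin n => one i)
        simpa using this
      rw [e1, e2]
      push_cast
      ring
    rw [tsum_congr h2, ← Complex.ofReal_tsum, h1, hz2]
    unfold prodF
    rw [← Fin.prod_univ_eq_prod_range (fun j => Φ (y j)) n]
    push_cast
    refine Finset.prod_congr rfl fun i _ => ?_
    exact (hΦ _ (hyU _).1 (hyU _).2).symm
  | succ j ih =>
    intro z hz hx
    have ih' := ih (by omega)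
    have hjn : j < n := hj
    obtain ⟨J, hJ⟩ : ∃ J : Fin n, J = ⟨j, hjn⟩ := ⟨_, rfl⟩
    have hJv : (J : ℕ) = j := by rw [hJ]
    -- the two functions of the coordinate `J`
    obtain ⟨f, hf⟩ : ∃ f : ℂ → ℂ, f = fun w =>
      ∑' l, (M l : ℂ) * (Gro (p : ℂ) l (fun i => Function.update z J w i) /
        Gro (p : ℂ) l (fun _ => 1)) := ⟨_, rfl⟩
    obtain ⟨g, hg⟩ : ∃ g : ℂ → ℂ, g = fun w => ∏ i, Φc (Function.update z J w i) := ⟨_, rfl⟩
    have hupd : ∀ w : ℂ, ‖w‖ ≤ 1 → ∀ i, ‖Function.update z J w i‖ ≤ 1 := by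
      intro w hw i
      by_cases h : i = J
      · rw [h, Function.update_self]
        exact hw
      · rw [Function.update_of_ne h]
        exact hz i
    have hud : ∀ i, Differentiable ℂ fun w => Function.update z J w i := by
      intro i
      by_cases h : i = J
      · subst h
        simp only [Function.update_self]
        exact differentiable_id
      · simp only [Function.update_of_ne h]
        exact differentiable_const _
    have hterm : ∀ l, Differentiable ℂ fun w =>
        (M l : ℂ) * (Gro (p : ℂ) l (fun i => Function.update z J w i) /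
          Gro (p : ℂ) l (fun _ => 1)) := fun l =>
      ((Gro_differentiable (p : ℂ) l _ hud).div_const _).const_mul _
    have hsum : Summable fun l => M l * ((1 + p) / (1 - p)) ^ (n * n) := hM1.mul_right _
    have hfc : ContinuousOn f (Metric.closedBall 0 1) := by
      rw [hf]
      refine continuousOn_tsum (fun l => (hterm l).continuous.continuousOn) hsum ?_
      intro l w hw
      rw [mem_closedBall_zero_iff] at hw
      exact poly_id_term p hp0 hp1 n M hM0 _ (hupd w hw) l
    have hfd : DifferentiableOn ℂ f (Metric.ball 0 1) := by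
      rw [hf]
      refine Complex.differentiableOn_tsum_of_summable_norm hsum
        (fun l => (hterm l).differentiableOn) Metric.isOpen_ball ?_
      intro l w hw
      rw [mem_ball_zero_iff] at hw
      exact poly_id_term p hp0 hp1 n M hM0 _ (hupd w hw.le) l
    have hgc : ContinuousOn g (Metric.closedBall 0 1) := by
      rw [hg]
      refine continuousOn_finsetProd _ fun i _ => ?_
      refine hΦc.continuousOn.comp (hud i).continuous.continuousOn ?_
      intro w hw
      rw [mem_closedBall_zero_iff] at hw ⊢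
      exact hupd w hw i
    have hgd : DifferentiableOn ℂ g (Metric.ball 0 1) := by
      rw [hg]
      refine DifferentiableOn.fun_finsetProd fun i _ => ?_
      refine hΦc.differentiableOn.comp (hud i).differentiableOn ?_
      intro w hw
      rw [mem_ball_zero_iff] at hw
      rw [mem_closedBall_zero_iff]
      exact hupd w hw.le i
    have hreal : ∀ x : ℝ, 0 < x → x ≤ 1 → f (x : ℂ) = g (x : ℂ) := by
      intro x hx0 hx1
      rw [hf, hg]
      refine ih' (fun i => Function.update z J (x : ℂ) i) ?_ ?_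
      · refine hupd _ ?_
        rw [Complex.norm_real, Real.norm_eq_abs, abs_of_pos hx0]
        exact hx1
      · intro i hi
        by_cases h : i = J
        · subst h
          exact ⟨x, hx0, hx1, by rw [Function.update_self]⟩
        · have hne : (i : ℕ) ≠ j := fun h' => h (Fin.ext (by rw [h', hJv]))
          obtain ⟨y, hy0, hy1, hy⟩ := hx i (by omega)
          exact ⟨y, hy0, hy1, by rw [Function.update_of_ne h]; exact hy⟩
    have hball : Set.EqOn f g (Metric.ball 0 1) := by
      have hfa := hfd.analyticOnNhd Metric.isOpen_ball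
      have hga := hgd.analyticOnNhd Metric.isOpen_ball
      refine hfa.eqOn_of_preconnected_of_frequently_eq hga
        (convex_ball (0 : ℂ) 1).isPreconnected (z₀ := ((1 / 2 : ℝ) : ℂ)) ?_ ?_
      · rw [mem_ball_zero_iff, Complex.norm_real, Real.norm_eq_abs, abs_of_pos (by norm_num)]
        norm_num
      · have ht : Tendsto (fun k : ℕ => (((1 / 2 : ℝ) + (1 / 2) * ((1 : ℝ) / ((k : ℝ) + 1)) : ℝ) : ℂ))
            atTop (𝓝[≠] (((1 / 2 : ℝ)) : ℂ)) := by
          rw [tendsto_nhdsWithin_iff]
          constructor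
          · refine (Complex.continuous_ofReal.tendsto _).comp ?_
            have := (tendsto_one_div_add_atTop_nhds_zero_nat (𝕜 := ℝ)).const_mul (1 / 2 : ℝ)
            have := this.const_add (1 / 2 : ℝ)
            rwa [mul_zero, add_zero] at this
          · refine Eventually.of_forall fun k => ?_
            rw [Set.mem_compl_iff, Set.mem_singleton_iff]
            intro h
            have h' := Complex.ofReal_injective h
            have : (0 : ℝ) < (1 / 2) * ((1 : ℝ) / ((k : ℝ) + 1)) := by positivity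
            linarith
        refine ht.frequently (Eventually.frequently (Eventually.of_forall fun k => ?_))
        refine hreal _ (by positivity) ?_
        have : (1 : ℝ) / ((k : ℝ) + 1) ≤ 1 := by
          rw [div_le_one (by positivity)]
          have : (0 : ℝ) ≤ k := Nat.cast_nonneg k
          linarith
        linarith
    have hclosed : Set.EqOn f g (Metric.closedBall 0 1) := by
      refine hball.of_subset_closure hfc hgc Metric.ball_subset_closedBall ?_
      rw [closure_ball (0 : ℂ) one_ne_zero]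
    have hfin := hclosed (x := z J) (mem_closedBall_zero_iff.2 (hz J))
    rw [hf, hg] at hfin
    simpa only [Function.update_eq_self] using hfin

theorem poly_id (p : ℝ) (hp0 : 0 < p) (hp1 : p < 1) (n : ℕ) (M : (Fin n → ℕ) → ℝ)
    (hM0 : ∀ l, 0 ≤ M l) (hM1 : Summable M) (Φ : ℝ → ℝ) (Φc : ℂ → ℂ)
    (hΦc : AnalyticOnNhd ℂ Φc (Metric.closedBall 0 1))
    (hΦ : ∀ z : ℝ, 0 < z → z ≤ 1 → Φc (z : ℂ) = (Φ z : ℂ))
    (hid : ∀ x, UnitSeq x → HasSum (fun l => M l * (G p n l x / G p n l one)) (prodF Φ n x))
    (z : Fin n → ℂ) (hz : ∀ i, ‖z i‖ ≤ 1) :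
    HasSum (fun l => (M l : ℂ) * (Gro (p : ℂ) l z / Gro (p : ℂ) l (fun _ => 1)))
      (∏ i, Φc (z i)) := by
  have hsum : Summable fun l =>
      (M l : ℂ) * (Gro (p : ℂ) l z / Gro (p : ℂ) l (fun _ => 1)) :=
    Summable.of_norm_bounded (hM1.mul_right (((1 + p) / (1 - p)) ^ (n * n)))
      fun l => poly_id_term p hp0 hp1 n M hM0 z hz l
  rw [← poly_id_aux p hp0 hp1 n M hM0 hM1 Φ Φc hΦc hΦ hid n le_rfl z hz
    fun i hi => absurd i.2 (by omega)]
  exact hsum.hasSum

end Pool.Agent.GroB
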