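import Mathlib

/-!
# Piece PS2: convergence of coefficients from convergence at a sequence of points

`0 ≤ ψ j k ≤ E s^k`-bounded coefficients (here simply `ψ j k ≤ E`), `t i → τ < 1`, `t i ≠ τ`,
`t i ∈ (0,1)`, and for every `i`, `∑' k, ψ j k (t i)^k → f (t i)` as `j → ∞`, where
`f z = ∑' φ k z^k`, `φ k` bounded. Then `ψ j k → φ k`. Proof: `tendsto_iff_ultrafilter`: let `a k` be the limit of
`ψ j k` along an ultrafilter; dominated convergence (`E (t i)^k`): `∑' a k (t i)^k = f (t i)`. The two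
analytic functions `∑ a k z^k`, `∑ φ k z^k` on the unit disc agree at the points `t i` accumulating at
`τ` inside the disc, so they are equal (`AnalyticOnNhd.eqOn_of_preconnected_of_frequently_eq` or
`AnalyticAt.frequently_eq_iff_eventually_eq`), and so are the coefficients.
-/

open Filter Topology

namespace Pool.Agent.GroB

namespace PS2

theorem analytic_sum (c : ℕ → ℝ) (C : ℝ) (hC : ∀ n, |c n| ≤ C) :
    AnalyticOnNhd ℝ (fun z : ℝ => ∑' n, c n * z ^ n) (Metric.ball (0 : ℝ) 1) := by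
  set p := FormalMultilinearSeries.ofScalars ℝ c with hp
  have hrad : (1 : ENNReal) ≤ p.radius := by
    have := p.le_radius_of_bound C (r := 1) (by
      intro n
      rw [hp, FormalMultilinearSeries.ofScalars_norm]
      simp only [NNReal.coe_one, one_pow, mul_one]
      exact hC n)
    simpa using this
  have h1 : HasFPowerSeriesOnBall p.sum p 0 p.radius :=
    p.hasFPowerSeriesOnBall (lt_of_lt_of_le one_pos hrad)
  have h2 : HasFPowerSeriesOnBall p.sum p 0 1 := h1.mono one_pos hrad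
  have h3 := h2.analyticOnNhd
  have h4 : p.sum = fun z : ℝ => ∑' n, c n * z ^ n := by
    funext z
    simp [hp, FormalMultilinearSeries.sum, FormalMultilinearSeries.ofScalars_apply_eq, mul_comm]
  rw [h4] at h3
  have h5 : Metric.eball (0 : ℝ) 1 = Metric.ball (0 : ℝ) 1 := by
    have := Metric.eball_ofReal (x := (0 : ℝ)) (ε := 1)
    simpa using this
  rw [h5] at h3
  exact h3

theorem coeff_zero (c : ℕ → ℝ) (C : ℝ) (hC : ∀ n, |c n| ≤ C)
    (h0 : ∀ z ∈ Metric.ball (0 : ℝ) 1, (∑' n, c n * z ^ n) = 0) : ∀ n, c n = 0 := by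
  set p := FormalMultilinearSeries.ofScalars ℝ c with hp
  have hrad : (1 : ENNReal) ≤ p.radius := by
    have := p.le_radius_of_bound C (r := 1) (by
      intro n
      rw [hp, FormalMultilinearSeries.ofScalars_norm]
      simp only [NNReal.coe_one, one_pow, mul_one]
      exact hC n)
    simpa using this
  have h1 : HasFPowerSeriesOnBall p.sum p 0 p.radius :=
    p.hasFPowerSeriesOnBall (lt_of_lt_of_le one_pos hrad)
  have h4 : ∀ z, p.sum z = ∑' n, c n * z ^ n := by
    intro z
    simp [hp, FormalMultilinearSeries.sum, FormalMultilinearSeries.ofScalars_apply_eq, mul_comm]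
  have h5 : p.sum =ᶠ[𝓝 0] (fun _ => (0 : ℝ)) := by
    filter_upwards [Metric.ball_mem_nhds (0 : ℝ) one_pos] with z hz
    rw [h4, h0 z hz]
  have h6 : HasFPowerSeriesAt (fun _ : ℝ => (0 : ℝ)) p 0 :=
    (h1.hasFPowerSeriesAt).congr h5
  have h7 : p = 0 := by
    have h8 : HasFPowerSeriesAt (0 : ℝ → ℝ) p 0 := h6
    exact h8.eq_zero
  intro n
  have h9 : p.coeff n = c n := by
    rw [hp]
    exact FormalMultilinearSeries.coeff_ofScalars
  rw [← h9, h7]
  simp [FormalMultilinearSeries.coeff]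

end PS2

theorem ps_conv_pts (ψ : ℕ → ℕ → ℝ) (φ : ℕ → ℝ) (E : ℝ) (hψ0 : ∀ j k, 0 ≤ ψ j k)
    (hψ : ∀ j k, ψ j k ≤ E) (hφ : ∀ k, |φ k| ≤ E) (t : ℕ → ℝ) (τ : ℝ)
    (ht : ∀ i, 0 < t i ∧ t i < 1) (hτ0 : 0 < τ) (hτ1 : τ < 1) (htτ : ∀ i, t i ≠ τ)
    (hlim : Tendsto t atTop (𝓝 τ))
    (hconv : ∀ i, Tendsto (fun j => ∑' k, ψ j k * (t i) ^ k) atTop (𝓝 (∑' k, φ k * (t i) ^ k)))
    (k : ℕ) : Tendsto (fun j => ψ j k) atTop (𝓝 (φ k)) := by
  have hE : 0 ≤ E := le_trans (hψ0 0 0) (hψ 0 0)
  rw [tendsto_iff_ultrafilter]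
  intro U hU
  have hex : ∀ m, ∃ x, x ∈ Set.Icc 0 E ∧ Tendsto (fun j => ψ j m) (U : Filter ℕ) (𝓝 x) := by
    intro m
    have hc : IsCompact (Set.Icc 0 E) := isCompact_Icc
    obtain ⟨x, hxm, hx⟩ := hc.ultrafilter_le_nhds (U.map (fun j => ψ j m)) (by
      rw [Filter.le_principal_iff, Ultrafilter.coe_map, Filter.mem_map]
      exact Filter.univ_mem' (fun j => ⟨hψ0 j m, hψ j m⟩))
    exact ⟨x, hxm, hx⟩
  choose A hAm hA using hex
  have hsum : ∀ (c : ℕ → ℝ) (C : ℝ), (∀ n, |c n| ≤ C) → ∀ z : ℝ, |z| < 1 →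
      Summable (fun n => c n * z ^ n) := by
    intro c C hC z hz
    refine Summable.of_norm_bounded
      ((summable_geometric_of_lt_one (abs_nonneg z) hz).mul_left C) ?_
    intro n
    rw [Real.norm_eq_abs, abs_mul, abs_pow]
    exact mul_le_mul_of_nonneg_right (hC n) (pow_nonneg (abs_nonneg z) n)
  have hAb : ∀ n, |A n| ≤ E := fun n => by
    rw [abs_of_nonneg (hAm n).1]
    exact (hAm n).2
  have heq : ∀ i, (∑' m, A m * (t i) ^ m) = ∑' m, φ m * (t i) ^ m := by
    intro i
    have h1 := tendsto_tsum_of_dominated_convergence (𝓕 := (U : Filter ℕ))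
      (f := fun j m => ψ j m * (t i) ^ m) (g := fun m => A m * (t i) ^ m)
      (bound := fun m => E * (t i) ^ m)
      ((summable_geometric_of_lt_one (ht i).1.le (ht i).2).mul_left E)
      (fun m => (hA m).mul_const _)
      (Filter.Eventually.of_forall (fun j m => by
        rw [Real.norm_eq_abs, abs_of_nonneg (mul_nonneg (hψ0 j m) (pow_nonneg (ht i).1.le m))]
        exact mul_le_mul_of_nonneg_right (hψ j m) (pow_nonneg (ht i).1.le m)))
    exact tendsto_nhds_unique h1 ((hconv i).mono_left hU)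
  set c : ℕ → ℝ := fun n => A n - φ n with hc
  have hcb : ∀ n, |c n| ≤ E + E := by
    intro n
    exact le_trans (abs_sub _ _) (add_le_add (hAb n) (hφ n))
  have hct : ∀ i, (∑' n, c n * (t i) ^ n) = 0 := by
    intro i
    have habs : |t i| < 1 := by
      rw [abs_of_pos (ht i).1]
      exact (ht i).2
    have h1 := (hsum A E hAb (t i) habs).tsum_sub (hsum φ E hφ (t i) habs)
    rw [heq i, sub_self] at h1
    rw [← h1]
    refine tsum_congr ?_
    intro n
    simp only [hc]
    ring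
  have han := PS2.analytic_sum c (E + E) hcb
  have hz : Set.EqOn (fun z : ℝ => ∑' n, c n * z ^ n) 0 (Metric.ball (0 : ℝ) 1) := by
    refine han.eqOn_zero_of_preconnected_of_frequently_eq_zero
      (convex_ball (0 : ℝ) 1).isPreconnected (z₀ := τ) ?_ ?_
    · rw [mem_ball_zero_iff, Real.norm_eq_abs, abs_of_pos hτ0]
      exact hτ1
    · have h1 : Tendsto t atTop (𝓝[≠] τ) := by
        rw [tendsto_nhdsWithin_iff]
        exact ⟨hlim, Filter.Eventually.of_forall (fun i => htτ i)⟩
      exact h1.frequently (Filter.Frequently.of_forall hct)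
  have h0 := PS2.coeff_zero c (E + E) hcb (fun z hzm => hz hzm) k
  have : A k = φ k := by
    simp only [hc] at h0
    linarith
  rw [← this]
  exact hA k

end Pool.Agent.GroB
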