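import Pool.Agent.Lib_MP_58440c_pr.Defs
import Pool.Agent.Lib_MP_58440c_pr.FinF
import Pool.Agent.Lib_MP_58440c_pr.PS2

/-!
# Piece TOFF: from finite approximation to the class `𝓕`

`q = p/(1-p)`, `y_i = x_i + (y_i - x_i) ≤ q + Cb =: Y` (wlog `Cb ≥ 0`), `r = 1/(2Y)`,
`E = exp (2 r Cb)`. Take the points `t_i = 5/6 + 1/(12 (i+1))`-like (distinct, in `[5/6, 1)`, converging
to a point `t_∞ < 1`), and `Ψ_j` with error `≤ 1/(j+1)` at `t_0, …, t_j`. Coefficients
`ψ_j k ≤ E (1+r)^(-k)` (`fin_series`). By `ps_conv_pts` `ψ_j k → φ k` for every `k`. So `φ k ≤ E (1+r)^(-k)`,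
`Φc z = ∑' φ k z^k` is analytic for `‖z‖ < 1 + r`, and
`sup_{‖z‖≤1} |Φc z - Ψ_j z| ≤ ∑ |φ k - ψ_j k| → 0` (dominated by `2 E (1+r)^(-k)`).
-/

open Finset Filter Topology

namespace Pool.Agent.GroB

theorem to_FF (p : ℝ) (hp0 : 0 < p) (hp1 : p < 1) (Φ : ℝ → ℝ) (φ : ℕ → ℝ) (hφ : ∀ k, 0 ≤ φ k)
    (hsum : ∀ z, 0 < z → z ≤ 1 → HasSum (fun k => φ k * z ^ k) (Φ z)) (Cb : ℝ)
    (happ : ∀ (S : Finset ℝ), (∀ z ∈ S, 5 / 6 ≤ z ∧ z ≤ 1) → ∀ ε > 0,
      ∃ (m : ℕ) (x y : Fin m → ℝ),
        (∀ i, -1 ≤ x i ∧ x i ≤ p / (1 - p) ∧ 0 ≤ y i ∧ x i ≤ y i) ∧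
        ∑ i, (y i - x i) ≤ Cb ∧
        ∀ z ∈ S, |Φ z - ∏ i, (1 - x i * (z - 1)) / (1 - y i * (z - 1))| ≤ ε) :
    ∃ Φc ∈ FF p, ∀ z : ℝ, 0 < z → z ≤ 1 → Φc (z : ℂ) = (Φ z : ℂ) := by
  classical
  set q : ℝ := p / (1 - p) with hq
  have hq0 : 0 < q := div_pos hp0 (by linarith)
  have hCb : 0 ≤ Cb := by
    obtain ⟨m, x, y, h1, h2, _⟩ := happ ∅ (by simp) 1 one_pos
    refine le_trans (Finset.sum_nonneg fun i _ => ?_) h2
    linarith [(h1 i).2.2.2]
  set Y : ℝ := q + Cb with hY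
  have hY0 : 0 < Y := by positivity
  set r : ℝ := 1 / (2 * Y) with hr
  have hr0 : 0 < r := by positivity
  have hrY : 2 * r * Y ≤ 1 := by
    have : 2 * r * Y = 1 := by rw [hr]; field_simp
    exact this.le
  set E : ℝ := Real.exp (2 * r * Cb) with hE
  have hE0 : 0 < E := Real.exp_pos _
  -- points
  set t : ℕ → ℝ := fun i => 5 / 6 + 1 / (12 * ((i : ℝ) + 1)) with ht
  have htpos : ∀ i : ℕ, 0 < 1 / (12 * ((i : ℝ) + 1)) := fun i => by positivity
  have htle : ∀ i : ℕ, 1 / (12 * ((i : ℝ) + 1)) ≤ 1 / 12 := fun i => by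
    apply one_div_le_one_div_of_le (by norm_num)
    have : (0 : ℝ) ≤ i := Nat.cast_nonneg i
    linarith
  have htS : ∀ i, 5 / 6 ≤ t i ∧ t i ≤ 1 := fun i => by
    simp only [ht]
    constructor <;> linarith [htpos i, htle i]
  have hlim : Tendsto t atTop (𝓝 (5 / 6)) := by
    have h1 : Tendsto (fun i : ℕ => (1 / 12 : ℝ) * (1 / ((i : ℝ) + 1))) atTop (𝓝 ((1 / 12) * 0)) :=
      tendsto_one_div_add_atTop_nhds_zero_nat.const_mul _
    have h2 : Tendsto (fun i : ℕ => (5 / 6 : ℝ) + (1 / 12 : ℝ) * (1 / ((i : ℝ) + 1))) atTop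
        (𝓝 (5 / 6 + (1 / 12) * 0)) := h1.const_add _
    rw [mul_zero, add_zero] at h2
    refine h2.congr fun i => ?_
    simp only [ht]
    congr 1
    rw [one_div, one_div, one_div, mul_inv]
  -- approximations
  have hch := fun j : ℕ => happ ((Finset.range (j + 1)).image t) (by
    intro z hz
    obtain ⟨i, _, rfl⟩ := Finset.mem_image.1 hz
    exact htS i) (1 / ((j : ℝ) + 1)) (by positivity)
  choose m x y hxy hsumxy herr using hch
  have hyY : ∀ j i, y j i ≤ Y := by
    intro j i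
    have h1 : y j i - x j i ≤ ∑ i, (y j i - x j i) :=
      Finset.single_le_sum (f := fun i => y j i - x j i)
        (fun i _ => by linarith [(hxy j i).2.2.2]) (Finset.mem_univ i)
    have h2 := hsumxy j
    have h3 := (hxy j i).2.1
    rw [hY]
    linarith
  have hser := fun j : ℕ => fin_series q Y r hY0 hr0 hrY (m j) (x j) (y j) (hxy j) (hyY j)
  choose ψ hψ0 hψsum hψb using hser
  have hψE : ∀ j k, ψ j k * (1 + r) ^ k ≤ E := by
    intro j k
    refine (hψb j k).trans ?_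
    rw [hE]
    apply Real.exp_le_exp.2
    exact mul_le_mul_of_nonneg_left (hsumxy j) (by positivity)
  have h1r : 1 < 1 + r := by linarith
  have hρ0 : 0 < (1 + r)⁻¹ := by positivity
  have hψE' : ∀ j k, ψ j k ≤ E * ((1 + r)⁻¹) ^ k := by
    intro j k
    have h1 : 0 < (1 + r) ^ k := by positivity
    rw [inv_pow, ← div_eq_mul_inv, le_div_iff₀ h1]
    exact hψE j k
  have hψE1 : ∀ j k, ψ j k ≤ E := by
    intro j k
    refine (hψE' j k).trans ?_
    have : ((1 + r)⁻¹) ^ k ≤ 1 := pow_le_one₀ hρ0.le (inv_le_one_of_one_le₀ h1r.le)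
    nlinarith
  -- real sums
  have hreal : ∀ j (z : ℝ), |z| ≤ 1 + r → HasSum (fun k => ψ j k * z ^ k)
      (∏ i, (1 - x j i * (z - 1)) / (1 - y j i * (z - 1))) := by
    intro j z hz
    have h1 := hψsum j (z : ℂ) (by rw [Complex.norm_real]; exact hz)
    have h2 : (∏ i, (1 - (x j i : ℂ) * ((z : ℂ) - 1)) / (1 - (y j i : ℂ) * ((z : ℂ) - 1))) =
        ((∏ i, (1 - x j i * (z - 1)) / (1 - y j i * (z - 1)) : ℝ) : ℂ) := by
      push_cast
      rfl
    rw [h2] at h1
    have h3 : (fun k => (ψ j k : ℂ) * (z : ℂ) ^ k) = fun k => ((ψ j k * z ^ k : ℝ) : ℂ) := by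
      funext k
      push_cast
      rfl
    rw [h3] at h1
    exact Complex.hasSum_ofReal.1 h1
  have htabs : ∀ i, |t i| ≤ 1 + r := by
    intro i
    rw [abs_of_nonneg (by linarith [(htS i).1])]
    linarith [(htS i).2]
  -- coefficients converge
  have hφ1 : ∀ k, φ k ≤ Φ 1 := by
    intro k
    have h1 := hsum 1 one_pos le_rfl
    simp only [one_pow, mul_one] at h1
    exact le_hasSum h1 k (fun b _ => hφ b)
  have hcoef : ∀ k, Tendsto (fun j => ψ j k) atTop (𝓝 (φ k)) := by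
    intro k
    refine ps_conv_pts ψ φ (max E (Φ 1)) hψ0 (fun j k => (hψE1 j k).trans (le_max_left _ _))
      (fun k => ?_) t (5 / 6) (fun i => ?_) (by norm_num) (by norm_num) (fun i => ?_) hlim
      (fun i => ?_) k
    · rw [abs_of_nonneg (hφ k)]
      exact (hφ1 k).trans (le_max_right _ _)
    · refine ⟨by linarith [(htS i).1], ?_⟩
      simp only [ht]
      linarith [htle i]
    · simp only [ht]
      linarith [htpos i]
    · have h1 : ∀ j, ∑' k, ψ j k * (t i) ^ k =
          ∏ i', (1 - x j i' * (t i - 1)) / (1 - y j i' * (t i - 1)) :=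
        fun j => (hreal j (t i) (htabs i)).tsum_eq
      have h2 : ∑' k, φ k * (t i) ^ k = Φ (t i) :=
        (hsum (t i) (by linarith [(htS i).1]) (htS i).2).tsum_eq
      rw [h2]
      simp_rw [h1]
      rw [tendsto_iff_dist_tendsto_zero]
      refine squeeze_zero' (Eventually.of_forall fun j => dist_nonneg) ?_
        tendsto_one_div_add_atTop_nhds_zero_nat
      filter_upwards [eventually_ge_atTop i] with j hj
      rw [dist_comm, Real.dist_eq]
      exact herr j (t i) (Finset.mem_image_of_mem _ (Finset.mem_range.2 (by omega)))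
  have hφE : ∀ k, φ k ≤ E * ((1 + r)⁻¹) ^ k := fun k =>
    le_of_tendsto (hcoef k) (Eventually.of_forall fun j => hψE' j k)
  have hρ1 : (1 + r)⁻¹ < 1 := inv_lt_one_of_one_lt₀ h1r
  have hgeo : Summable fun k : ℕ => E * ((1 + r)⁻¹) ^ k :=
    (summable_geometric_of_lt_one hρ0.le hρ1).mul_left E
  -- the complex function
  set Φc : ℂ → ℂ := fun z => ∑' k, (φ k : ℂ) * z ^ k with hΦc
  have hφsum : Summable fun k => φ k := Summable.of_nonneg_of_le hφ hφE hgeo
  refine ⟨Φc, ⟨?_, ?_⟩, ?_⟩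
  · -- analyticity
    have hU : DifferentiableOn ℂ Φc (Metric.ball 0 (1 + r / 2)) := by
      refine Complex.differentiableOn_tsum_of_summable_norm
        (u := fun k => E * ((1 + r)⁻¹ * (1 + r / 2)) ^ k) ?_ ?_ Metric.isOpen_ball ?_
      · refine (summable_geometric_of_lt_one (by positivity) ?_).mul_left E
        rw [inv_mul_lt_iff₀ (by positivity)]
        linarith
      · intro k
        exact ((differentiable_id.pow k).const_mul (φ k : ℂ)).differentiableOn
      · intro k w hw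
        rw [Metric.mem_ball, dist_zero_right] at hw
        rw [norm_mul, norm_pow, Complex.norm_real, Real.norm_of_nonneg (hφ k), mul_pow, ← mul_assoc]
        gcongr
        exact hφE k
    refine (hU.analyticOnNhd Metric.isOpen_ball).mono ?_
    exact Metric.closedBall_subset_ball (by linarith)
  · intro ε hε
    have hlim2 : Tendsto (fun j => ∑' k, |φ k - ψ j k|) atTop (𝓝 (∑' _ : ℕ, (0 : ℝ))) := by
      refine tendsto_tsum_of_dominated_convergence (bound := fun k => E * ((1 + r)⁻¹) ^ k) hgeo ?_ ?_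
      · intro k
        have h1 : Tendsto (fun j => |φ k - ψ j k|) atTop (𝓝 |φ k - φ k|) :=
          ((tendsto_const_nhds).sub (hcoef k)).abs
        rwa [sub_self, abs_zero] at h1
      · refine Eventually.of_forall fun j k => ?_
        rw [Real.norm_eq_abs, abs_abs, abs_le]
        have h1 := hφE k
        have h2 := hψE' j k
        have h3 := hφ k
        have h4 := hψ0 j k
        constructor <;> linarith
    rw [tsum_zero] at hlim2
    obtain ⟨j, hj⟩ := (hlim2.eventually (ge_mem_nhds hε)).exists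
    refine ⟨m j, x j, y j, hxy j, fun z hz => ?_⟩
    have h1 := hψsum j z (by linarith)
    have hzk : ∀ k : ℕ, ‖z‖ ^ k ≤ 1 := fun k => pow_le_one₀ (norm_nonneg _) hz
    have h2 : HasSum (fun k => (φ k : ℂ) * z ^ k) (Φc z) := by
      refine Summable.hasSum ?_
      refine Summable.of_norm_bounded hφsum fun k => ?_
      rw [norm_mul, norm_pow, Complex.norm_real, Real.norm_of_nonneg (hφ k)]
      exact mul_le_of_le_one_right (hφ k) (hzk k)
    have h3 := h2.sub h1
    have h4 : Summable fun k => |φ k - ψ j k| := by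
      refine Summable.of_nonneg_of_le (fun k => abs_nonneg _) (fun k => ?_) hgeo
      rw [abs_le]
      have h1 := hφE k
      have h2 := hψE' j k
      have h3 := hφ k
      have h4 := hψ0 j k
      constructor <;> linarith
    rw [← h3.tsum_eq]
    refine (tsum_of_norm_bounded (g := fun k => |φ k - ψ j k|) h4.hasSum fun k => ?_).trans hj
    rw [← sub_mul, norm_mul, norm_pow, ← Complex.ofReal_sub, Complex.norm_real, Real.norm_eq_abs]
    exact mul_le_of_le_one_right (abs_nonneg _) (hzk k)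
  · intro z hz0 hz1
    have h1 := hsum z hz0 hz1
    have h2 : HasSum (fun k => ((φ k * z ^ k : ℝ) : ℂ)) ((Φ z : ℝ) : ℂ) := Complex.hasSum_ofReal.2 h1
    simp only [hΦc]
    rw [← h2.tsum_eq]
    congr 1
    funext k
    push_cast
    rfl

end Pool.Agent.GroB
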