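import Pool.Agent.Lib_MP_58440c_pr.Mult
import Pool.Agent.Lib_MP_58440c_pr.FinApprox
import Pool.Agent.Lib_MP_58440c_pr.ToFF
import Pool.Agent.Lib_MP_58440c_pr.PolyId

/-!
# The main theorem
-/

open Finset Filter Topology

namespace Pool.Agent.GroB

theorem main (p : ℝ) (hp0 : 0 < p) (hp1 : p < 1) (M : (n : ℕ) → (Fin n → ℕ) → ℝ)
    (hM : M ∈ Set.extremePoints ℝ {M | Coherent p M}) :
    ∃ Φ ∈ FF p, ∀ (n : ℕ) (z : Fin n → ℂ), (∀ i, ‖z i‖ ≤ 1) →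
      HasSum (fun l : Fin n → ℕ =>
        (M n l : ℂ) * (Gro (p : ℂ) l z / Gro (p : ℂ) l (fun _ => 1))) (∏ i, Φ (z i)) := by
  obtain ⟨Φ, hΦ, hid⟩ := mult_main p hp0 hp1 M hM
  obtain ⟨φ, hφ0, hφs, -⟩ := moments p hp0 hp1 Φ hΦ
  obtain ⟨Cb, happ⟩ := fin_approx p hp0 hp1 Φ hΦ
  obtain ⟨Φc, hFF, hΦc⟩ := to_FF p hp0 hp1 Φ φ hφ0 hφs Cb happ
  refine ⟨Φc, hFF, fun n z hz => ?_⟩
  exact poly_id p hp0 hp1 n (M n) (hM.1.nonneg n) (hM.1.prob n).summable Φ Φc hFF.1 hΦc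
    (hid n) z hz

end Pool.Agent.GroB
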