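import Mathlib

/-!
# Piece MAT: two determinant lemmas
-/

open Finset

namespace Pool.Agent.GroB

variable {K : Type*} [Field K]

theorem det_row_last {n : ℕ} (M : Matrix (Fin (n + 1)) (Fin (n + 1)) K) (i : Fin (n + 1))
    (h : ∀ j : Fin n, M i j.castSucc = 0) :
    M.det = (-1) ^ ((i : ℕ) + n) * M i (Fin.last n) *
      (M.submatrix i.succAbove Fin.castSucc).det := by
  rw [Matrix.det_succ_row M i, Fin.sum_univ_castSucc]
  rw [Finset.sum_eq_zero fun j _ => by rw [h j]; ring]
  simp [Fin.succAbove_last]

theorem det_two_rows {n : ℕ} (M : Matrix (Fin (n + 2)) (Fin (n + 2)) K) (i : Fin (n + 2))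
    (j : Fin (n + 1)) (hi : ∀ k : Fin n, M i k.castSucc.castSucc = 0)
    (hj : ∀ k : Fin n, M (i.succAbove j) k.castSucc.castSucc = 0) :
    M.det = (-1) ^ ((i : ℕ) + (j : ℕ)) *
      (M i (Fin.last n).castSucc * M (i.succAbove j) (Fin.last (n + 1)) -
        M i (Fin.last (n + 1)) * M (i.succAbove j) (Fin.last n).castSucc) *
      (M.submatrix (fun k : Fin n => i.succAbove (j.succAbove k))
        (fun k : Fin n => k.castSucc.castSucc)).det := by
  rw [Matrix.det_succ_row M i, Fin.sum_univ_castSucc, Fin.sum_univ_castSucc]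
  rw [Finset.sum_eq_zero fun k _ => by rw [hi k]; ring]
  have h1 := det_row_last (M.submatrix i.succAbove (Fin.succAbove (Fin.last (n + 1)))) j
    (fun k => by simpa [Fin.succAbove_last] using hj k)
  have hcol : ∀ k : Fin n, (Fin.castSucc (Fin.last n)).succAbove k.castSucc =
      (k.castSucc.castSucc : Fin (n + 2)) := by
    intro k
    rw [Fin.succAbove_of_castSucc_lt]
    rw [Fin.lt_def]; simp
  have hcol2 : (Fin.castSucc (Fin.last n)).succAbove (Fin.last n) =
      (Fin.last (n + 1) : Fin (n + 2)) := by
    rw [Fin.succAbove_of_le_castSucc]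
    · rfl
    · exact le_rfl
  have h2 := det_row_last (M.submatrix i.succAbove (Fin.succAbove (Fin.last n).castSucc)) j
    (fun k => by
      show M (i.succAbove j) ((Fin.last n).castSucc.succAbove k.castSucc) = 0
      rw [hcol k]; exact hj k)
  have e1 : ((M.submatrix i.succAbove (Fin.succAbove (Fin.last (n + 1)))).submatrix j.succAbove
      Fin.castSucc) = M.submatrix (fun k : Fin n => i.succAbove (j.succAbove k))
        (fun k : Fin n => k.castSucc.castSucc) := by
    ext a b; simp [Fin.succAbove_last]
  have e2 : ((M.submatrix i.succAbove (Fin.succAbove (Fin.last n).castSucc)).submatrix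
      j.succAbove Fin.castSucc) = M.submatrix (fun k : Fin n => i.succAbove (j.succAbove k))
        (fun k : Fin n => k.castSucc.castSucc) := by
    ext a b
    show M _ _ = M _ _
    rw [hcol b]
  rw [e1] at h1
  rw [e2] at h2
  rw [h1, h2]
  have e3 : (M.submatrix i.succAbove (Fin.succAbove (Fin.last (n + 1)))) j (Fin.last n) =
      M (i.succAbove j) (Fin.last n).castSucc := by
    simp [Fin.succAbove_last]
  have e4 : (M.submatrix i.succAbove (Fin.succAbove (Fin.last n).castSucc)) j (Fin.last n) =
      M (i.succAbove j) (Fin.last (n + 1)) := by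
    show M _ _ = M _ _
    rw [hcol2]
  rw [e3, e4]
  have s1 : ((-1 : K)) ^ n * (-1) ^ n = 1 := by
    rw [← mul_pow]; simp
  simp only [Fin.val_castSucc, Fin.val_last, pow_add, pow_one]
  set D := (M.submatrix (fun k : Fin n => i.succAbove (j.succAbove k))
        (fun k : Fin n => k.castSucc.castSucc)).det
  set u : K := (-1) ^ (i : ℕ)
  set v : K := (-1) ^ (j : ℕ)
  set w : K := (-1) ^ n
  linear_combination (u * v * D * (M i (Fin.last n).castSucc * M (i.succAbove j) (Fin.last (n + 1)) -
    M i (Fin.last (n + 1)) * M (i.succAbove j) (Fin.last n).castSucc)) * s1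

end Pool.Agent.GroB
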