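import Mathlib

/-!
# Piece PS: convergence of coefficients (power series with nonnegative coefficients)

`a j n ≥ 0`, `F j ρ = ∑' n, a j n ρ^n` on `[0, r]`, `F j ρ → g ρ` for every `ρ ∈ [0, r]`, and
`g ρ = ∑' n, e n ρ^n` on `[0, r]`. Then `a j n → e n`.
Proof: `a j n * r^n ≤ F j r ≤ B`. Use `tendsto_iff_ultrafilter`: along an ultrafilter `U ≤ atTop` the
limits `a n` of `a j n` exist (bounded); for `ρ < r` dominated convergence
(`a j n ρ^n ≤ B (ρ/r)^n`) gives `∑' a n ρ^n = lim F j ρ = g ρ = ∑' e n ρ^n` for all `ρ ∈ [0, r)`.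
Two power series which agree on `[0, r)` have the same coefficients
(`HasFPowerSeriesOnBall`/`AnalyticAt` uniqueness, or induct on `n`: subtract, divide by `ρ^n`, let
`ρ → 0`).
-/

open Filter Topology

namespace Pool.Agent.GroB

theorem PS.hasSum_cg {f g : ℕ → ℝ} {s : ℝ} (h : HasSum f s) (hfg : ∀ n, f n = g n) :
    HasSum g s := by
  have : f = g := funext hfg
  rwa [this] at h

theorem ps_unique (r : ℝ) (hr : 0 < r) (a b : ℕ → ℝ) (f : ℝ → ℝ)
    (ha : ∀ ρ, 0 ≤ ρ → ρ < r → HasSum (fun n => a n * ρ ^ n) (f ρ))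
    (hb : ∀ ρ, 0 ≤ ρ → ρ < r → HasSum (fun n => b n * ρ ^ n) (f ρ)) : a = b := by
  -- the difference
  set c : ℕ → ℝ := fun n => a n - b n with hc
  have hcs : ∀ ρ, 0 ≤ ρ → ρ < r → HasSum (fun n => c n * ρ ^ n) 0 := by
    intro ρ h0 h1
    have h := (ha ρ h0 h1).sub (hb ρ h0 h1)
    rw [sub_self] at h
    refine PS.hasSum_cg h ?_
    intro n
    simp only [hc]
    ring
  have key : ∀ n, c n = 0 := by
    intro n
    induction n using Nat.strong_induction_on with
    | _ n ih =>
      set ρ0 : ℝ := r / 2 with hρ0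
      have hρ0p : 0 < ρ0 := by positivity
      have hρ0r : ρ0 < r := by rw [hρ0]; linarith
      have hsum0 : Summable (fun m => |c m| * ρ0 ^ m) := by
        have h := (hcs ρ0 hρ0p.le hρ0r).summable.abs
        refine h.congr ?_
        intro m
        rw [abs_mul, abs_pow, abs_of_pos hρ0p]
      have hsum1 : Summable (fun k => |c (k + n)| * ρ0 ^ k) := by
        have h := (summable_nat_add_iff n).mpr hsum0
        have h2 := h.mul_left ((ρ0 ^ n)⁻¹)
        refine h2.congr ?_
        intro k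
        rw [pow_add]
        field_simp
      have hcont : ContinuousOn (fun ρ : ℝ => ∑' k, c (k + n) * ρ ^ k) (Set.Icc 0 ρ0) := by
        refine continuousOn_tsum ?_ hsum1 ?_
        · intro k
          exact (continuous_const.mul (continuous_pow k)).continuousOn
        · intro k x hx
          rw [Real.norm_eq_abs, abs_mul, abs_pow, abs_of_nonneg hx.1]
          exact mul_le_mul_of_nonneg_left (pow_le_pow_left₀ hx.1 hx.2 k) (abs_nonneg _)
      have hzero : ∀ ρ ∈ Set.Ioc (0 : ℝ) ρ0, (∑' k, c (k + n) * ρ ^ k) = 0 := by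
        intro ρ hρ
        have h := hcs ρ hρ.1.le (lt_of_le_of_lt hρ.2 hρ0r)
        have h1 : HasSum (fun k => c (k + n) * ρ ^ (k + n)) 0 := by
          have := (hasSum_nat_add_iff' n).mpr h
          have h2 : ∑ i ∈ Finset.range n, c i * ρ ^ i = 0 := by
            apply Finset.sum_eq_zero
            intro i hi
            rw [ih i (Finset.mem_range.mp hi), zero_mul]
          rw [h2, sub_zero] at this
          exact this
        have h3 := h1.mul_left ((ρ ^ n)⁻¹)
        rw [mul_zero] at h3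
        have h4 : HasSum (fun k => c (k + n) * ρ ^ k) 0 := by
          refine PS.hasSum_cg h3 ?_
          intro k
          have : ρ ^ n ≠ 0 := pow_ne_zero n hρ.1.ne'
          rw [pow_add]
          field_simp
        exact h4.tsum_eq
      have h0 : (∑' k, c (k + n) * (0 : ℝ) ^ k) = c n := by
        rw [tsum_eq_single 0]
        · simp
        · intro k hk
          rw [zero_pow hk, mul_zero]
      have hlim : Tendsto (fun ρ : ℝ => ∑' k, c (k + n) * ρ ^ k) (𝓝[Set.Ioc 0 ρ0] 0)
          (𝓝 (c n)) := by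
        have h := (hcont 0 ⟨le_refl _, hρ0p.le⟩)
        rw [ContinuousWithinAt, h0] at h
        exact h.mono_left (nhdsWithin_mono _ Set.Ioc_subset_Icc_self)
      have hlim2 : Tendsto (fun ρ : ℝ => ∑' k, c (k + n) * ρ ^ k) (𝓝[Set.Ioc 0 ρ0] 0)
          (𝓝 0) := by
        refine (tendsto_const_nhds (x := (0 : ℝ))).congr' ?_
        filter_upwards [self_mem_nhdsWithin] with ρ hρ
        exact (hzero ρ hρ).symm
      haveI : (𝓝[Set.Ioc (0 : ℝ) ρ0] 0).NeBot := by
        rw [nhdsWithin_Ioc_eq_nhdsGT hρ0p]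
        infer_instance
      exact tendsto_nhds_unique hlim hlim2
  funext n
  have := key n
  simp only [hc] at this
  linarith

theorem ps_conv (r : ℝ) (hr : 0 < r) (a : ℕ → ℕ → ℝ) (ha : ∀ j n, 0 ≤ a j n) (F : ℕ → ℝ → ℝ)
    (g : ℝ → ℝ) (e : ℕ → ℝ)
    (hF : ∀ j ρ, 0 ≤ ρ → ρ ≤ r → HasSum (fun n => a j n * ρ ^ n) (F j ρ))
    (hg : ∀ ρ, 0 ≤ ρ → ρ ≤ r → Tendsto (fun j => F j ρ) atTop (𝓝 (g ρ)))
    (he : ∀ ρ, 0 ≤ ρ → ρ ≤ r → HasSum (fun n => e n * ρ ^ n) (g ρ)) (n : ℕ) :
    Tendsto (fun j => a j n) atTop (𝓝 (e n)) := by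
  obtain ⟨B, hB⟩ := (hg r hr.le le_rfl).bddAbove_range
  have hB' : ∀ j, F j r ≤ B := fun j => hB ⟨j, rfl⟩
  have hbd : ∀ j m, a j m * r ^ m ≤ B := by
    intro j m
    refine le_trans ?_ (hB' j)
    exact le_hasSum (hF j r hr.le le_rfl) m
      (fun i _ => mul_nonneg (ha j i) (pow_nonneg hr.le i))
  have hbd2 : ∀ j m, a j m ≤ B / r ^ m := by
    intro j m
    rw [le_div_iff₀ (pow_pos hr m)]
    exact hbd j m
  rw [tendsto_iff_ultrafilter]
  intro U hU
  have hex : ∀ m, ∃ x, Tendsto (fun j => a j m) (U : Filter ℕ) (𝓝 x) := by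
    intro m
    have hc : IsCompact (Set.Icc 0 (B / r ^ m)) := isCompact_Icc
    obtain ⟨x, _, hx⟩ := hc.ultrafilter_le_nhds (U.map (fun j => a j m)) (by
      rw [Filter.le_principal_iff, Ultrafilter.coe_map, Filter.mem_map]
      exact Filter.univ_mem' (fun j => ⟨ha j m, hbd2 j m⟩))
    exact ⟨x, hx⟩
  choose A hA using hex
  have hAe : A = e := by
    refine ps_unique r hr A e g ?_ (fun ρ h0 h1 => he ρ h0 h1.le)
    intro ρ h0 h1
    have hq : ρ / r < 1 := by rw [div_lt_one hr]; exact h1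
    have hq0 : 0 ≤ ρ / r := div_nonneg h0 hr.le
    have hsb : Summable (fun k => B * (ρ / r) ^ k) :=
      (summable_geometric_of_lt_one hq0 hq).mul_left B
    have hle : ∀ j k, ‖a j k * ρ ^ k‖ ≤ B * (ρ / r) ^ k := by
      intro j k
      rw [Real.norm_eq_abs, abs_of_nonneg (mul_nonneg (ha j k) (pow_nonneg h0 k)), div_pow]
      have h2 := mul_le_mul_of_nonneg_right (hbd j k) (div_nonneg (pow_nonneg h0 k)
        (pow_nonneg hr.le k) : 0 ≤ ρ ^ k / r ^ k)
      refine le_trans (le_of_eq ?_) h2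
      have : r ^ k ≠ 0 := pow_ne_zero k hr.ne'
      field_simp
    have h3 := tendsto_tsum_of_dominated_convergence (𝓕 := (U : Filter ℕ))
      (f := fun j k => a j k * ρ ^ k) (g := fun k => A k * ρ ^ k)
      (bound := fun k => B * (ρ / r) ^ k) hsb (fun k => (hA k).mul_const _)
      (Filter.Eventually.of_forall hle)
    have h4 : Tendsto (fun j => ∑' k, a j k * ρ ^ k) (U : Filter ℕ) (𝓝 (g ρ)) := by
      have h5 := (hg ρ h0 h1.le).mono_left hU
      refine h5.congr ?_
      intro j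
      exact (hF j ρ h0 h1.le).tsum_eq.symm
    have h6 := tendsto_nhds_unique h3 h4
    have hsA : Summable (fun k => A k * ρ ^ k) := by
      refine Summable.of_norm_bounded hsb ?_
      intro k
      exact le_of_tendsto ((hA k).mul_const (ρ ^ k)).norm
        (Filter.Eventually.of_forall (fun j => hle j k))
    rw [← h6]
    exact hsA.hasSum
  rw [← hAe]
  exact hA n

end Pool.Agent.GroB
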