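import Pool.Agent.Lib_MP_58440c_pr.Y3
import Pool.Agent.Lib_MP_58440c_pr.DnId
import Pool.Agent.Lib_MP_58440c_pr.PS

/-!
# Piece MOM: second moment of a multiplicative `Φ`

`φ k = c 1 (fun _ => k)` (coefficients of `GPos p 1`; `G p 1 l x = x 0 ^ l 0`), all `l : Fin 1 → ℕ`
are constant functions. `∑ k² φ k < ∞`: let `x = (1/2, 1/2, 1, 1, …)`, `c 3` the coefficients of
`prodF Φ 3`. For `v ∈ (0,1]`: `Φ v * Φ(1/2)² = ∑' l, c 3 l * (GP p 2 l x).eval v`
`= ∑' k, v^k a k`, `a k = ∑' l, c 3 l * (GP p 2 l x).coeff k ≥ 0` (Tonelli). Comparing power series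
on `(0,1)`: `a k = φ k * Φ(1/2)²`. And `∑' k, k(k-1) a k = ∑' l, c 3 l * T2 p 2 l x ≤ B ∑' c 3 l G p 3 l one
= B` (`T2_bound3`). Finally `k² ≤ 1 + 2k(k-1)`-type bounds for `k ∈ ℕ`.
-/

open Finset Polynomial Filter Topology

namespace Pool.Agent.GroB

namespace MomAux

/-- Tonelli for nonnegative double series. -/
theorem tonelli {α β : Type} (u : α → β → ℝ) (hu : ∀ a b, 0 ≤ u a b) (f : α → ℝ) (g : β → ℝ)
    (hf : ∀ a, HasSum (u a) (f a)) (hg : ∀ b, HasSum (fun a => u a b) (g b)) (S : ℝ)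
    (hS : HasSum f S) : HasSum g S := by
  have h1 : Summable (fun x : α × β => u x.1 x.2) := by
    rw [summable_prod_of_nonneg (fun x => hu x.1 x.2)]
    refine ⟨fun a => (hf a).summable, ?_⟩
    have h2 : (fun a => ∑' b, u a b) = f := funext fun a => (hf a).tsum_eq
    simp only
    rw [h2]
    exact hS.summable
  obtain ⟨S', hS'⟩ := h1
  have h3 : HasSum f S' := hS'.prod_fiberwise (fun a => hf a)
  have h4 : S' = S := h3.unique hS
  rw [h4] at hS'
  have h5 : HasSum (fun x : β × α => u x.2 x.1) S := by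
    have := (Equiv.prodComm β α).hasSum_iff.mpr hS'
    exact this
  exact h5.prod_fiberwise (fun b => hg b)

/-- uniqueness of power series on `(0, 1)` -/
theorem ps_unique' (a b : ℕ → ℝ) (f : ℝ → ℝ)
    (ha : ∀ ρ, 0 < ρ → ρ ≤ 1 → HasSum (fun n => a n * ρ ^ n) (f ρ))
    (hb : ∀ ρ, 0 < ρ → ρ ≤ 1 → HasSum (fun n => b n * ρ ^ n) (f ρ)) : a = b := by
  have key : ∀ a : ℕ → ℝ, (∀ ρ, 0 < ρ → ρ ≤ 1 → HasSum (fun n => a n * ρ ^ n) (f ρ)) →
      ∀ ρ, 0 ≤ ρ → ρ < 1 → HasSum (fun n => (Nat.casesOn n 0 (fun m => a m) : ℝ) * ρ ^ n)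
        (ρ * f ρ) := by
    intro a ha ρ h0 h1
    rcases h0.eq_or_lt with h0 | h0
    · rw [← h0, zero_mul]
      have : (fun n : ℕ => (Nat.casesOn n 0 (fun m => a m) : ℝ) * (0 : ℝ) ^ n) = fun _ => 0 := by
        funext n
        cases n with
        | zero => simp
        | succ n => simp
      rw [this]
      exact hasSum_zero
    · have h2 := (ha ρ h0 h1.le).mul_left ρ
      have h3 : HasSum (fun n => (Nat.casesOn (n + 1) 0 (fun m => a m) : ℝ) * ρ ^ (n + 1))
          (ρ * f ρ) := by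
        refine h2.congr_fun fun n => ?_
        change a n * ρ ^ (n + 1) = ρ * (a n * ρ ^ n)
        ring
      have h4 := (hasSum_nat_add_iff
        (f := fun n => (Nat.casesOn n 0 (fun m => a m) : ℝ) * ρ ^ n) 1).mp h3
      simpa using h4
  have h := ps_unique 1 one_pos _ _ (fun ρ => ρ * f ρ) (key a ha) (key b hb)
  funext n
  exact congrFun h (n + 1)

theorem hasSum_eval (P : ℝ[X]) (z : ℝ) : HasSum (fun k => P.coeff k * z ^ k) (P.eval z) := by
  rw [eval_eq_sum_range]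
  apply hasSum_sum_of_ne_finset_zero
  intro k hk
  rw [Finset.mem_range, not_lt] at hk
  rw [coeff_eq_zero_of_natDegree_lt (by omega), zero_mul]

theorem hasSum_d1 (P : ℝ[X]) : HasSum (fun k => P.coeff k * (k : ℝ)) (P.derivative.eval 1) := by
  induction P using Polynomial.induction_on' with
  | add p q hp hq =>
    rw [derivative_add, eval_add]
    refine (hp.add hq).congr_fun fun k => ?_
    rw [coeff_add]
    ring
  | monomial n a =>
    rw [derivative_monomial, eval_monomial, one_pow, mul_one]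
    have := hasSum_single (f := fun k : ℕ => (monomial n a).coeff k * (k : ℝ)) n (by
      intro k hk
      rw [coeff_monomial, if_neg (Ne.symm hk), zero_mul])
    simpa using this

theorem hasSum_d2 (P : ℝ[X]) : HasSum (fun k => P.coeff k * ((k : ℝ) * (k - 1)))
    (P.derivative.derivative.eval 1) := by
  induction P using Polynomial.induction_on' with
  | add p q hp hq =>
    rw [derivative_add, derivative_add, eval_add]
    refine (hp.add hq).congr_fun fun k => ?_
    rw [coeff_add]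
    ring
  | monomial n a =>
    rw [derivative_monomial, derivative_monomial, eval_monomial, one_pow, mul_one]
    have := hasSum_single (f := fun k : ℕ => (monomial n a).coeff k * ((k : ℝ) * (k - 1))) n (by
      intro k hk
      rw [coeff_monomial, if_neg (Ne.symm hk), zero_mul])
    rw [coeff_monomial, if_pos rfl] at this
    have h2 : a * n * ((n - 1 : ℕ) : ℝ) = a * ((n : ℝ) * (n - 1)) := by
      cases n with
      | zero => simp
      | succ n => push_cast; simp; ring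
    rw [h2]
    exact this

/-- comparison of coefficients -/
theorem coef_sum {α : Type} (c : α → ℝ) (hc : ∀ l, 0 ≤ c l) (P : α → ℝ[X])
    (hP : ∀ l k, 0 ≤ (P l).coeff k) (F : ℝ → ℝ)
    (hF : ∀ z, 0 < z → z ≤ 1 → HasSum (fun l => c l * (P l).eval z) (F z))
    (b : ℕ → ℝ) (hb : ∀ z, 0 < z → z ≤ 1 → HasSum (fun k => b k * z ^ k) (F z)) (k : ℕ) :
    HasSum (fun l => c l * (P l).coeff k) (b k) := by
  have h1 : ∀ k, Summable (fun l => c l * (P l).coeff k) := by
    intro k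
    refine Summable.of_nonneg_of_le (fun l => mul_nonneg (hc l) (hP l k)) (fun l => ?_)
      (hF 1 one_pos le_rfl).summable
    apply mul_le_mul_of_nonneg_left _ (hc l)
    have h2 := hasSum_eval (P l) 1
    simp only [one_pow, mul_one] at h2
    exact le_hasSum h2 k (fun j _ => hP l j)
  have h2 : (fun k => ∑' l, c l * (P l).coeff k) = b := by
    apply ps_unique' _ _ F _ hb
    intro z hz hz1
    refine tonelli (fun l k => c l * ((P l).coeff k * z ^ k)) (fun l k => ?_)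
      (fun l => c l * (P l).eval z) _ (fun l => (hasSum_eval (P l) z).mul_left (c l)) (fun k => ?_)
      _ (hF z hz hz1)
    · exact mul_nonneg (hc l) (mul_nonneg (hP l k) (pow_nonneg hz.le k))
    · refine ((h1 k).hasSum.mul_right (z ^ k)).congr_fun fun l => ?_
      ring
  rw [← congrFun h2 k]
  exact (h1 k).hasSum

theorem prodF_cons (Φ : ℝ → ℝ) (n : ℕ) (z : ℝ) (x : ℕ → ℝ) :
    prodF Φ (n + 1) (cons z x) = Φ z * prodF Φ n x := by
  unfold prodF
  rw [Finset.prod_range_succ', mul_comm]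
  rfl

theorem prodF_one (Φ : ℝ → ℝ) (h : Φ 1 = 1) (n : ℕ) : prodF Φ n one = 1 := by
  unfold prodF
  exact Finset.prod_eq_one fun j _ => h

end MomAux

open MomAux

theorem moments (p : ℝ) (hp0 : 0 < p) (hp1 : p < 1) (Φ : ℝ → ℝ) (hΦ : PP p Φ) :
    ∃ φ : ℕ → ℝ, (∀ k, 0 ≤ φ k) ∧ (∀ z, 0 < z → z ≤ 1 → HasSum (fun k => φ k * z ^ k) (Φ z)) ∧
      Summable fun k : ℕ => (k : ℝ) ^ 2 * φ k := by
  obtain ⟨c1, hc1, -, hs1⟩ := hΦ.2 1
  obtain ⟨c3, hc3, hc3', hs3⟩ := hΦ.2 3
  have hφ : ∀ z, 0 < z → z ≤ 1 → HasSum (fun k => c1 (fun _ => k) * z ^ k) (Φ z) := by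
    intro z hz hz1
    have h1 := hs1 (cons z one) (unitSeq_one.cons hz hz1)
    rw [prodF_cons, prodF_one Φ hΦ.1, mul_one] at h1
    have h2 : ∀ l : Fin 1 → ℕ, c1 l * G p 1 l (cons z one) = c1 l * z ^ (l 0) := by
      intro l
      rw [← GP_eval, GP, eval_pow, eval_X]
    simp only [h2] at h1
    have h3 := (Equiv.funUnique (Fin 1) ℕ).symm.hasSum_iff.mpr h1
    refine h3.congr_fun fun k => ?_
    rfl
  refine ⟨fun k => c1 (fun _ => k), fun k => hc1 _, hφ, ?_⟩
  set x : ℕ → ℝ := cons (1 / 2) (cons (1 / 2) one) with hx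
  have hxU : UnitSeq x := (unitSeq_one.cons (by norm_num) (by norm_num)).cons (by norm_num)
    (by norm_num)
  have hxP : PosPt p x := hxU.posPt hp0 hp1
  have hpos : 0 < Φ (1 / 2) := (phi_pos p hp0 hp1 Φ hΦ (1 / 2) (by norm_num) (by norm_num)).1
  have hF : ∀ z, 0 < z → z ≤ 1 → HasSum (fun l => c3 l * (GP p 2 l x).eval z)
      (Φ z * Φ (1 / 2) ^ 2) := by
    intro z hz hz1
    have h1 := hs3 (cons z x) (hxU.cons hz hz1)
    rw [prodF_cons, hx, prodF_cons, prodF_cons] at h1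
    have h0 : prodF Φ 0 one = 1 := prodF_one Φ hΦ.1 0
    rw [h0, mul_one, ← pow_two, ← hx] at h1
    refine h1.congr_fun fun l => ?_
    rw [GP_eval]
  have hb : ∀ z, 0 < z → z ≤ 1 → HasSum (fun k => c1 (fun _ => k) * Φ (1 / 2) ^ 2 * z ^ k)
      (Φ z * Φ (1 / 2) ^ 2) := by
    intro z hz hz1
    refine ((hφ z hz hz1).mul_right (Φ (1 / 2) ^ 2)).congr_fun fun k => ?_
    ring
  have hcoef := coef_sum c3 hc3 (fun l => GP p 2 l x) (fun l k => GP_coeff_nonneg p 2 l x hxP k) _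
    hF _ hb
  obtain ⟨B, hB0, hB⟩ := T2_bound3 p hp0 hp1 x hxU (by rw [hx]; norm_num) (by
    rw [hx]
    show (1 / 2 : ℝ) < 1
    norm_num)
  have hT2 : ∀ l : Fin 3 → ℕ, HasSum (fun k => (GP p 2 l x).coeff k * ((k : ℝ) * (k - 1)))
      (T2 p 2 l x) := fun l => hasSum_d2 _
  have hkk : ∀ k : ℕ, 0 ≤ (k : ℝ) * (k - 1) := by
    intro k
    cases k with
    | zero => simp
    | succ k => push_cast; simp; positivity
  have hT2n : ∀ l : Fin 3 → ℕ, 0 ≤ T2 p 2 l x := fun l =>
    (hT2 l).nonneg (fun k => mul_nonneg (GP_coeff_nonneg p 2 l x hxP k) (hkk k))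
  have hsT : Summable (fun l => c3 l * T2 p 2 l x) := by
    have h1 := (hs3 one unitSeq_one).summable.mul_left B
    refine Summable.of_nonneg_of_le (fun l => mul_nonneg (hc3 l) (hT2n l)) (fun l => ?_) h1
    by_cases hl : Antitone l
    · calc c3 l * T2 p 2 l x ≤ c3 l * (B * G p 3 l one) :=
            mul_le_mul_of_nonneg_left (hB l hl) (hc3 l)
        _ = B * (c3 l * G p 3 l one) := by ring
    · rw [hc3' l hl]
      simp
  have hfin : HasSum (fun k : ℕ => c1 (fun _ => k) * Φ (1 / 2) ^ 2 * ((k : ℝ) * (k - 1)))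
      (∑' l, c3 l * T2 p 2 l x) := by
    refine tonelli (fun (l : Fin 3 → ℕ) (k : ℕ) => c3 l * ((GP p 2 l x).coeff k *
      ((k : ℝ) * (k - 1)))) (fun l k => ?_) (fun l => c3 l * T2 p 2 l x) _
      (fun l => (hT2 l).mul_left (c3 l)) (fun k => ?_) _ hsT.hasSum
    · exact mul_nonneg (hc3 l) (mul_nonneg (GP_coeff_nonneg p 2 l x hxP k) (hkk k))
    · refine ((hcoef k).mul_right ((k : ℝ) * (k - 1))).congr_fun fun l => ?_
      ring
  have hs2 : Summable (fun k : ℕ => (k : ℝ) * (k - 1) * c1 (fun _ => k)) := by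
    refine (hfin.summable.mul_right (Φ (1 / 2) ^ 2)⁻¹).congr fun k => ?_
    have : Φ (1 / 2) ^ 2 ≠ 0 := by positivity
    field_simp
  have hs0 : Summable (fun k : ℕ => c1 (fun _ => k)) := by
    refine (hφ 1 one_pos le_rfl).summable.congr fun k => ?_
    rw [one_pow, mul_one]
  refine Summable.of_nonneg_of_le (fun k => mul_nonneg (by positivity) (hc1 _)) (fun k => ?_)
    (hs0.add (hs2.mul_left 2))
  have h1 : (k : ℝ) ^ 2 ≤ 1 + 2 * ((k : ℝ) * (k - 1)) := by
    rcases Nat.lt_or_ge k 2 with h | h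
    · interval_cases k <;> norm_num
    · have h2 : (2 : ℝ) ≤ k := by exact_mod_cast h
      nlinarith
  calc (k : ℝ) ^ 2 * c1 (fun _ => k) ≤ (1 + 2 * ((k : ℝ) * (k - 1))) * c1 (fun _ => k) :=
        mul_le_mul_of_nonneg_right h1 (hc1 _)
    _ = c1 (fun _ => k) + 2 * ((k : ℝ) * (k - 1) * c1 (fun _ => k)) := by ring

end Pool.Agent.GroB
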