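import Pool.Agent.Lib_MP_58440c_pr.Mult1
import Pool.Agent.Lib_MP_58440c_pr.SSCont

/-!
# Piece MU2: extreme coherent systems are multiplicative

2. (`mult_all`) by continuity in `x 0`, `x 1` (let them tend to `1` from below) and in `z1`, the
   relation holds for all `UnitSeq` `x` eventually `1` and all `z1, z2`:
   `SS p M n y` is continuous in `y` on `UnitSeq`s (terms continuous by `G_continuous`, dominated by
   `M n l`; `tendsto_tsum_of_dominated_convergence`). To insert two new variables use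
   `x = cons w (cons w' x')` with `w, w' → 1` and the symmetry/stability
   `SS p M (n+1) (cons 1 y) = SS p M n y`-type facts (`G_rot`, `SS_succ`).
3. `S(y) > 0`. With `Φ z = SS p M 1 (cons z one)`: `S(cons z x) = Φ z * S x` by induction on the
   number of non-one entries, so `SS p M n y = prodF Φ n y` for all `UnitSeq` `y`
   (`SS p M n y` depends only on `y 0 .. y (n-1)`).
-/

open Finset Polynomial Filter Topology

namespace Pool.Agent.GroB

/-- the polynomial with the first `n` points as roots -/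
private noncomputable def muP (n : ℕ) (y : ℕ → ℝ) : ℝ[X] := ∏ k ∈ range n, (X - C (y k))

private lemma muP_cons (n : ℕ) (z : ℝ) (y : ℕ → ℝ) :
    muP (n + 1) (cons z y) = muP n y * (X - C z) := by
  unfold muP
  rw [Finset.prod_range_succ']
  rfl

private lemma muP_succ (n : ℕ) (y : ℕ → ℝ) (h : y n = 1) :
    muP (n + 1) y = muP n y * (X - C 1) := by
  unfold muP
  rw [Finset.prod_range_succ, h]

private lemma SS_stab (p : ℝ) (hp0 : 0 < p) (hp1 : p < 1) (M : (n : ℕ) → (Fin n → ℕ) → ℝ)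
    (hM : Coherent p M) (m : ℕ) (y : ℕ → ℝ) (hy : UnitSeq y) (hy1 : ∀ j, m ≤ j → y j = 1)
    (d : ℕ) : SS p M (m + d) y = SS p M m y := by
  induction d with
  | zero => rfl
  | succ d ih =>
    rw [← ih, ← add_assoc]
    exact SS_succ p hp0 hp1 M hM (m + d) y hy (hy1 _ (by omega))

private lemma cont_cons {X : Type*} [TopologicalSpace X] {f : X → ℝ} {g : X → ℕ → ℝ}
    (hf : Continuous f) (hg : Continuous g) : Continuous fun t => cons (f t) (g t) := by
  apply continuous_pi
  intro j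
  cases j with
  | zero => exact hf
  | succ j => exact (continuous_apply j).comp hg

theorem mult_all (p : ℝ) (hp0 : 0 < p) (hp1 : p < 1) (M : (n : ℕ) → (Fin n → ℕ) → ℝ)
    (hM : M ∈ Set.extremePoints ℝ {M | Coherent p M}) (k : ℕ) (x : ℕ → ℝ) (hx : UnitSeq x)
    (hx1 : ∀ j, k ≤ j → x j = 1) (z1 z2 : ℝ) (hz1 : 0 < z1)
    (hz1' : z1 ≤ 1) (hz2 : 0 < z2) (hz2' : z2 ≤ 1) :
    SS p M (k + 2) (cons z1 (cons z2 x)) * SS p M (k + 2) x =
      SS p M (k + 2) (cons z1 x) * SS p M (k + 2) (cons z2 x) := by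
  have hMc : Coherent p M := hM.1
  have hU : ∀ z, 0 < z → z ≤ 1 → ∀ y, UnitSeq y → UnitSeq (cons z y) := fun z h h' y hy =>
    hy.cons h h'
  -- the limit `t → 1`
  have key : ∀ f : ℝ → ℕ → ℝ, Continuous f → (∀ t, 0 < t → t ≤ 1 → UnitSeq (f t)) →
      Tendsto (fun t => SS p M (k + 4) (f t)) (𝓝[<] 1) (𝓝 (SS p M (k + 4) (f 1))) := by
    intro f hf hfu
    have h1 := (SS_continuous p hp0 hp1 M hMc (k + 4)) (f 1) (hfu 1 one_pos le_rfl)
    have h2 : Tendsto f (𝓝[<] 1) (𝓝[{y | UnitSeq y}] (f 1)) := by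
      apply tendsto_nhdsWithin_of_tendsto_nhds_of_eventually_within
      · exact (hf.tendsto 1).mono_left nhdsWithin_le_nhds
      · have h3 : Set.Ioo (0 : ℝ) 1 ∈ 𝓝[<] (1 : ℝ) := Ioo_mem_nhdsLT one_pos
        filter_upwards [h3] with t ht
        exact hfu t ht.1 ht.2.le
    exact h1.tendsto.comp h2
  have hid : Continuous fun t : ℝ => t := continuous_id
  have hzt : Continuous fun t : ℝ => z1 * t := by fun_prop
  have hcx : Continuous fun _ : ℝ => x := continuous_const
  have hc2 : Continuous fun _ : ℝ => z2 := continuous_const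
  have hu1 : ∀ t : ℝ, 0 < t → t ≤ 1 → 0 < z1 * t ∧ z1 * t ≤ 1 := fun t h h' =>
    ⟨mul_pos hz1 h, by nlinarith⟩
  have hb := cont_cons hid (cont_cons hid hcx)
  have hbu : ∀ t : ℝ, 0 < t → t ≤ 1 → UnitSeq (cons t (cons t x)) := fun t h h' =>
    hU t h h' _ (hU t h h' _ hx)
  have t1 := key (fun t => cons (z1 * t) (cons z2 (cons t (cons t x))))
    (cont_cons hzt (cont_cons hc2 hb))
    (fun t h h' => hU _ (hu1 t h h').1 (hu1 t h h').2 _ (hU z2 hz2 hz2' _ (hbu t h h')))
  have t2 := key (fun t => cons t (cons t x)) hb hbu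
  have t3 := key (fun t => cons (z1 * t) (cons t (cons t x))) (cont_cons hzt hb)
    (fun t h h' => hU _ (hu1 t h h').1 (hu1 t h h').2 _ (hbu t h h'))
  have t4 := key (fun t => cons z2 (cons t (cons t x))) (cont_cons hc2 hb)
    (fun t h h' => hU z2 hz2 hz2' _ (hbu t h h'))
  have hne : ∀ᶠ t in 𝓝[<] (1 : ℝ), z1 * t ≠ z2 := by
    by_cases h : z1 = z2
    · filter_upwards [self_mem_nhdsWithin] with t ht
      have ht' : t < 1 := ht
      intro hcon
      rw [← h] at hcon
      nlinarith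
    · have h1 : Tendsto (fun t : ℝ => z1 * t) (𝓝[<] 1) (𝓝 z1) := by
        have := (hzt.tendsto 1).mono_left (nhdsWithin_le_nhds (s := Set.Iio 1))
        simpa using this
      exact h1.eventually_ne h
  have heq : ∀ᶠ t in 𝓝[<] (1 : ℝ),
      SS p M (k + 4) (cons (z1 * t) (cons z2 (cons t (cons t x)))) *
        SS p M (k + 4) (cons t (cons t x)) =
      SS p M (k + 4) (cons (z1 * t) (cons t (cons t x))) *
        SS p M (k + 4) (cons z2 (cons t (cons t x))) := by
    have h3 : Set.Ioo (0 : ℝ) 1 ∈ 𝓝[<] (1 : ℝ) := Ioo_mem_nhdsLT one_pos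
    filter_upwards [h3, hne] with t ht hn
    refine mult_generic p hp0 hp1 M hM (k + 2) (cons t (cons t x)) (hbu t ht.1 ht.2.le) ht.2 ht.2
      (fun j hj => ?_) (z1 * t) z2 (hu1 t ht.1 ht.2.le).1 (hu1 t ht.1 ht.2.le).2 hz2 hz2' hn
    obtain ⟨i, rfl⟩ : ∃ i, j = i + 2 := ⟨j - 2, by omega⟩
    exact hx1 i (by omega)
  have hlim := tendsto_nhds_unique_of_eventuallyEq (t1.mul t2) (t3.mul t4) heq
  simp only [mul_one] at hlim
  -- insertion of ones
  have hk0 := hx1 k le_rfl
  have hk1 := hx1 (k + 1) (by omega)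
  have hk2 := hx1 (k + 2) (by omega)
  have hk3 := hx1 (k + 3) (by omega)
  have h11 : UnitSeq (cons 1 (cons 1 x)) := hbu 1 one_pos le_rfl
  have e1 : SS p M (k + 4) (cons z1 (cons z2 (cons 1 (cons 1 x)))) =
      SS p M (k + 4) (cons z1 (cons z2 x)) := by
    apply SS_perm p hp0 hp1 M _ _ _ (hU z1 hz1 hz1' _ (hU z2 hz2 hz2' _ h11))
      (hU z1 hz1 hz1' _ (hU z2 hz2 hz2' _ hx))
    change muP (k + 4) _ = muP (k + 4) _
    rw [muP_cons (k + 3), muP_cons (k + 2), muP_cons (k + 1), muP_cons k, muP_cons (k + 3),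
      muP_cons (k + 2), muP_succ (k + 1) x hk1, muP_succ k x hk0]
  have e2 : SS p M (k + 4) (cons 1 (cons 1 x)) = SS p M (k + 4) x := by
    apply SS_perm p hp0 hp1 M _ _ _ h11 hx
    change muP (k + 4) _ = muP (k + 4) _
    rw [muP_cons (k + 3), muP_cons (k + 2), muP_succ (k + 3) x hk3, muP_succ (k + 2) x hk2]
  have e3 : ∀ z, 0 < z → z ≤ 1 → SS p M (k + 4) (cons z (cons 1 (cons 1 x))) =
      SS p M (k + 4) (cons z x) := by
    intro z hz hz'
    apply SS_perm p hp0 hp1 M _ _ _ (hU z hz hz' _ h11) (hU z hz hz' _ hx)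
    change muP (k + 4) _ = muP (k + 4) _
    rw [muP_cons (k + 3), muP_cons (k + 2), muP_cons (k + 1), muP_cons (k + 3),
      muP_succ (k + 2) x hk2, muP_succ (k + 1) x hk1]
  rw [e1, e2, e3 z1 hz1 hz1', e3 z2 hz2 hz2'] at hlim
  have s1 : SS p M (k + 4) (cons z1 (cons z2 x)) = SS p M (k + 2) (cons z1 (cons z2 x)) :=
    SS_stab p hp0 hp1 M hMc (k + 2) _ (hU z1 hz1 hz1' _ (hU z2 hz2 hz2' _ hx)) (fun j hj => by
      obtain ⟨i, rfl⟩ : ∃ i, j = i + 2 := ⟨j - 2, by omega⟩
      exact hx1 i (by omega)) 2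
  have s2 : SS p M (k + 4) x = SS p M (k + 2) x :=
    SS_stab p hp0 hp1 M hMc (k + 2) x hx (fun j hj => hx1 j (by omega)) 2
  have s3 : ∀ z, 0 < z → z ≤ 1 → SS p M (k + 4) (cons z x) = SS p M (k + 2) (cons z x) := by
    intro z hz hz'
    exact SS_stab p hp0 hp1 M hMc (k + 2) _ (hU z hz hz' _ hx) (fun j hj => by
      obtain ⟨i, rfl⟩ : ∃ i, j = i + 1 := ⟨j - 1, by omega⟩
      exact hx1 i (by omega)) 2
  rw [s1, s2, s3 z1 hz1 hz1', s3 z2 hz2 hz2'] at hlim
  exact hlim

private lemma cons_eta (x : ℕ → ℝ) : cons (x 0) (fun j => x (j + 1)) = x := by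
  funext j
  cases j <;> rfl

theorem mult_main (p : ℝ) (hp0 : 0 < p) (hp1 : p < 1) (M : (n : ℕ) → (Fin n → ℕ) → ℝ)
    (hM : M ∈ Set.extremePoints ℝ {M | Coherent p M}) :
    ∃ Φ : ℝ → ℝ, PP p Φ ∧ ∀ n x, UnitSeq x →
      HasSum (fun l => M n l * (G p n l x / G p n l one)) (prodF Φ n x) := by
  have hMc : Coherent p M := hM.1
  set Φ : ℝ → ℝ := fun z => SS p M 1 (cons z one) with hΦ
  -- multiplicativity
  have step : ∀ k x z, UnitSeq x → (∀ j, k ≤ j → x j = 1) → 0 < z → z ≤ 1 →
      SS p M (k + 1) (cons z x) = Φ z * SS p M k x := by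
    intro k
    induction k with
    | zero =>
      intro x z hx hx1 hz hz'
      have h1 : x = one := by
        funext j
        exact hx1 j (Nat.zero_le _)
      rw [h1, SS_one p hp0 hp1 M hMc 0, mul_one]
    | succ k ih =>
      intro x z hx hx1 hz hz'
      set x' : ℕ → ℝ := fun j => x (j + 1) with hx'
      have hxe : x = cons (x 0) x' := (cons_eta x).symm
      have hxu' : UnitSeq x' := fun j => hx (j + 1)
      have hx1' : ∀ j, k ≤ j → x' j = 1 := fun j hj => hx1 (j + 1) (by omega)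
      have h0 := hx 0
      have hm := mult_all p hp0 hp1 M hM k x' hxu' hx1' z (x 0) hz hz' h0.1 h0.2
      have s2 : SS p M (k + 2) x' = SS p M k x' :=
        SS_stab p hp0 hp1 M hMc k x' hxu' hx1' 2
      have s3 : ∀ w, 0 < w → w ≤ 1 → SS p M (k + 2) (cons w x') = SS p M (k + 1) (cons w x') := by
        intro w hw hw'
        exact SS_stab p hp0 hp1 M hMc (k + 1) _ (hxu'.cons hw hw') (fun j hj => by
          obtain ⟨i, rfl⟩ : ∃ i, j = i + 1 := ⟨j - 1, by omega⟩
          exact hx1' i (by omega)) 1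
      rw [s2, s3 z hz hz', s3 (x 0) h0.1 h0.2, ih x' z hxu' hx1' hz hz', ← hxe] at hm
      have hpos : 0 < SS p M k x' := SS_pos p hp0 hp1 M hMc k x' hxu'
      have h4 : SS p M (k + 2) (cons z x) * SS p M k x' =
          (Φ z * SS p M (k + 1) x) * SS p M k x' := by
        rw [hm]
        ring
      exact mul_right_cancel₀ hpos.ne' h4
  have main1 : ∀ n x, UnitSeq x → (∀ j, n ≤ j → x j = 1) → SS p M n x = prodF Φ n x := by
    intro n
    induction n with
    | zero =>
      intro x hx hx1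
      have h1 : x = one := by
        funext j
        exact hx1 j (Nat.zero_le _)
      rw [h1, SS_one p hp0 hp1 M hMc 0]
      simp [prodF]
    | succ n ih =>
      intro x hx hx1
      have hxu' : UnitSeq (fun j => x (j + 1)) := fun j => hx (j + 1)
      have hx1' : ∀ j, n ≤ j → (fun j => x (j + 1)) j = 1 := fun j hj => hx1 (j + 1) (by omega)
      have h1 := step n (fun j => x (j + 1)) (x 0) hxu' hx1' (hx 0).1 (hx 0).2
      rw [cons_eta, ih _ hxu' hx1'] at h1
      rw [h1]
      unfold prodF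
      rw [Finset.prod_range_succ', mul_comm]
  have main2 : ∀ n x, UnitSeq x → SS p M n x = prodF Φ n x := by
    intro n x hx
    set y : ℕ → ℝ := fun j => if j < n then x j else 1 with hy
    have hyu : UnitSeq y := by
      intro j
      by_cases h : j < n
      · simp only [hy, h, if_true]
        exact hx j
      · simp only [hy, h, if_false]
        exact ⟨one_pos, le_rfl⟩
    have hy1 : ∀ j, n ≤ j → y j = 1 := fun j hj => by
      simp only [hy, not_lt.mpr hj, if_false]
    have hyx : ∀ j ∈ range n, y j = x j := fun j hj => by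
      simp only [hy, Finset.mem_range.mp hj, if_true]
    have h1 : SS p M n x = SS p M n y := by
      apply SS_perm p hp0 hp1 M n x y hx hyu
      exact Finset.prod_congr rfl fun j hj => by rw [hyx j hj]
    have h2 : prodF Φ n x = prodF Φ n y := Finset.prod_congr rfl fun j hj => by rw [hyx j hj]
    rw [h1, h2]
    exact main1 n y hyu hy1
  have main3 : ∀ n x, UnitSeq x →
      HasSum (fun l => M n l * (G p n l x / G p n l one)) (prodF Φ n x) := by
    intro n x hx
    rw [← main2 n x hx]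
    exact summable_hh p hp0 hp1 M hMc n x hx
  refine ⟨Φ, ⟨?_, fun n => ?_⟩, main3⟩
  · change SS p M 1 (cons 1 one) = 1
    rw [cons_one_one]
    exact SS_one p hp0 hp1 M hMc 1
  · refine ⟨fun l => M n l / G p n l one, fun l => ?_, fun l hl => ?_, fun x hx => ?_⟩
    · exact div_nonneg (hMc.nonneg n l) (G_nonneg p n l one (unitSeq_one.posPt hp0 hp1))
    · change M n l / G p n l one = 0
      rw [hMc.supp n l hl, zero_div]
    · have h := main3 n x hx
      have e : (fun l => M n l * (G p n l x / G p n l one)) =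
          fun l => M n l / G p n l one * G p n l x := by
        funext l
        ring
      rw [e] at h
      exact h

end Pool.Agent.GroB
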