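import Pool.Agent.Lib_MP_58440c_pr.ExtG

/-!
# Piece MU1: multiplicativity at generic points

1. (`mult_generic`) `x` a `UnitSeq`, `x 0 < 1`, `x 1 < 1`, `x j = 1` for `j ≥ k`, `z1 ≠ z2 ∈ (0,1]`,
   `S y := SS p M K y` for any large `K`. Then `S(z1,z2,x) S(x) = S(z1,x) S(z2,x)`:
   by `close` the difference `hh(z1 z2 x) hh(x) - hh(z1 x) hh(z2 x)` at level `n` is at most
   `ε_n → 0` in absolute value for all antitone `l`; take the expectation with respect to `M n`; by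
   `ext_var` and Cauchy-Schwarz `∑' M n l hh(a) hh(b) → S(a) S(b)`:
   `|∑' M (hh a - S a)(hh b)| ≤ ∑' M |hh a - S a| ≤ (∑' M (hh a - S a)²)^(1/2)`.
   (`SS p M n y` does not depend on `n` for `n ≥ k` when `y j = 1` for `j ≥ k`: `SS_succ`.)
-/

open Finset Polynomial Filter Topology

namespace Pool.Agent.GroB

theorem mg_abs_le (t ε : ℝ) (hε : 0 < ε) : |t| ≤ ε / 2 + t ^ 2 / (2 * ε) := by
  have h : 0 ≤ (|t| - ε) ^ 2 := sq_nonneg _
  have h2 : |t| ^ 2 = t ^ 2 := sq_abs t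
  have h3 : ε / 2 + t ^ 2 / (2 * ε) - |t| = (|t| - ε) ^ 2 / (2 * ε) := by
    rw [← h2]
    field_simp
    ring
  have h4 : 0 ≤ (|t| - ε) ^ 2 / (2 * ε) := by positivity
  linarith

theorem mg_point (a b c d A B C D ε δ : ℝ) (ha0 : 0 ≤ a) (ha1 : a ≤ 1) (hd0 : 0 ≤ d)
    (hd1 : d ≤ 1) (hB0 : 0 ≤ B) (hB1 : B ≤ 1) (hC0 : 0 ≤ C) (hC1 : C ≤ 1) (hε : 0 < ε)
    (hδ : (a * b - c * d) ^ 2 ≤ δ) :
    |A * B - C * D| ≤ 5 * ε / 2 + δ / (2 * ε) +
      ((a - A) ^ 2 + (b - B) ^ 2 + (c - C) ^ 2 + (d - D) ^ 2) / (2 * ε) := by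
  have e : A * B - C * D = (A - a) * B + a * (B - b) + (a * b - c * d) + (c - C) * d +
      C * (d - D) := by ring
  have t1 : |(A - a) * B| ≤ |a - A| := by
    rw [abs_mul, abs_of_nonneg hB0, abs_sub_comm]
    exact mul_le_of_le_one_right (abs_nonneg _) hB1
  have t2 : |a * (B - b)| ≤ |b - B| := by
    rw [abs_mul, abs_of_nonneg ha0, abs_sub_comm]
    exact mul_le_of_le_one_left (abs_nonneg _) ha1
  have t3 : |(c - C) * d| ≤ |c - C| := by
    rw [abs_mul, abs_of_nonneg hd0]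
    exact mul_le_of_le_one_right (abs_nonneg _) hd1
  have t4 : |C * (d - D)| ≤ |d - D| := by
    rw [abs_mul, abs_of_nonneg hC0]
    exact mul_le_of_le_one_left (abs_nonneg _) hC1
  have s1 : |A * B - C * D| ≤ |(A - a) * B| + |a * (B - b)| + |a * b - c * d| + |(c - C) * d| +
      |C * (d - D)| := by
    rw [e]
    refine (abs_add_le _ _).trans (add_le_add_left ?_ _)
    refine (abs_add_le _ _).trans (add_le_add_left ?_ _)
    refine (abs_add_le _ _).trans (add_le_add_left ?_ _)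
    exact abs_add_le _ _
  have u1 := mg_abs_le (a - A) ε hε
  have u2 := mg_abs_le (b - B) ε hε
  have u3 := mg_abs_le (c - C) ε hε
  have u4 := mg_abs_le (d - D) ε hε
  have u5 := mg_abs_le (a * b - c * d) ε hε
  have u6 : (a * b - c * d) ^ 2 / (2 * ε) ≤ δ / (2 * ε) := by gcongr
  have e2 : ((a - A) ^ 2 + (b - B) ^ 2 + (c - C) ^ 2 + (d - D) ^ 2) / (2 * ε) =
      (a - A) ^ 2 / (2 * ε) + (b - B) ^ 2 / (2 * ε) + (c - C) ^ 2 / (2 * ε) +
        (d - D) ^ 2 / (2 * ε) := by ring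
  rw [e2]
  linarith

theorem SS_nonneg' (p : ℝ) (hp0 : 0 < p) (hp1 : p < 1) (M : (n : ℕ) → (Fin n → ℕ) → ℝ)
    (hM : Coherent p M) (n : ℕ) (y : ℕ → ℝ) (hy : UnitSeq y) : 0 ≤ SS p M n y :=
  (summable_hh p hp0 hp1 M hM n y hy).nonneg fun l =>
    mul_nonneg (hM.nonneg n l) (hh_nonneg p hp0 hp1 n l y hy)

theorem SS_le_one' (p : ℝ) (hp0 : 0 < p) (hp1 : p < 1) (M : (n : ℕ) → (Fin n → ℕ) → ℝ)
    (hM : Coherent p M) (n : ℕ) (y : ℕ → ℝ) (hy : UnitSeq y) : SS p M n y ≤ 1 :=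
  hasSum_le (fun l => mul_le_of_le_one_right (hM.nonneg n l) (hh_le_one p hp0 hp1 n l y hy))
    (summable_hh p hp0 hp1 M hM n y hy) (hM.prob n)

theorem summable_var (p : ℝ) (hp0 : 0 < p) (hp1 : p < 1) (M : (n : ℕ) → (Fin n → ℕ) → ℝ)
    (hM : Coherent p M) (n : ℕ) (y : ℕ → ℝ) (hy : UnitSeq y) (S : ℝ) (hS0 : 0 ≤ S)
    (hS1 : S ≤ 1) : Summable fun l => M n l * (hh p n l y - S) ^ 2 := by
  refine Summable.of_nonneg_of_le (fun l => mul_nonneg (hM.nonneg n l) (sq_nonneg _))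
    (fun l => ?_) (hM.prob n).summable
  refine mul_le_of_le_one_right (hM.nonneg n l) ?_
  have h1 := hh_nonneg p hp0 hp1 n l y hy
  have h2 := hh_le_one p hp0 hp1 n l y hy
  have h3 : |hh p n l y - S| ≤ 1 := abs_le.2 ⟨by linarith, by linarith⟩
  have h4 : (hh p n l y - S) ^ 2 = |hh p n l y - S| ^ 2 := (sq_abs _).symm
  rw [h4]
  exact pow_le_one₀ (abs_nonneg _) h3

theorem mult_generic (p : ℝ) (hp0 : 0 < p) (hp1 : p < 1) (M : (n : ℕ) → (Fin n → ℕ) → ℝ)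
    (hM : M ∈ Set.extremePoints ℝ {M | Coherent p M}) (k : ℕ) (x : ℕ → ℝ) (hx : UnitSeq x)
    (h0 : x 0 < 1) (h1 : x 1 < 1) (hx1 : ∀ j, k ≤ j → x j = 1) (z1 z2 : ℝ) (hz1 : 0 < z1)
    (hz1' : z1 ≤ 1) (hz2 : 0 < z2) (hz2' : z2 ≤ 1) (hne : z1 ≠ z2) :
    SS p M (k + 2) (cons z1 (cons z2 x)) * SS p M (k + 2) x =
      SS p M (k + 2) (cons z1 x) * SS p M (k + 2) (cons z2 x) := by
  obtain ⟨K0, hK0, hclose⟩ := close p hp0 hp1 k x hx h0 h1 hx1
  have hcoh : Coherent p M := hM.1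
  have hcU : UnitSeq (cons z1 x) := hx.cons hz1 hz1'
  have hdU : UnitSeq (cons z2 x) := hx.cons hz2 hz2'
  have haU : UnitSeq (cons z1 (cons z2 x)) := hdU.cons hz1 hz1'
  have ha1 : ∀ j, k + 2 ≤ j → cons z1 (cons z2 x) j = 1 := by
    intro j hj
    obtain ⟨i, rfl⟩ := Nat.exists_eq_add_of_le hj
    rw [show k + 2 + i = (k + i) + 1 + 1 by ring, cons_succ, cons_succ]
    exact hx1 _ (by omega)
  have hc1 : ∀ z : ℝ, ∀ j, k + 2 ≤ j → cons z x j = 1 := by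
    intro z j hj
    obtain ⟨i, rfl⟩ := Nat.exists_eq_add_of_le hj
    rw [show k + 2 + i = (k + i + 1) + 1 by ring, cons_succ]
    exact hx1 _ (by omega)
  have hb1 : ∀ j, k + 2 ≤ j → x j = 1 := fun j hj => hx1 j (by omega)
  set A := SS p M (k + 2) (cons z1 (cons z2 x)) with hA
  set B := SS p M (k + 2) x with hB
  set C' := SS p M (k + 2) (cons z1 x) with hC
  set D := SS p M (k + 2) (cons z2 x) with hD
  have hA0 : 0 ≤ A := SS_nonneg' p hp0 hp1 M hcoh _ _ haU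
  have hA1 : A ≤ 1 := SS_le_one' p hp0 hp1 M hcoh _ _ haU
  have hB0 : 0 ≤ B := SS_nonneg' p hp0 hp1 M hcoh _ _ hx
  have hB1 : B ≤ 1 := SS_le_one' p hp0 hp1 M hcoh _ _ hx
  have hC0 : 0 ≤ C' := SS_nonneg' p hp0 hp1 M hcoh _ _ hcU
  have hC1 : C' ≤ 1 := SS_le_one' p hp0 hp1 M hcoh _ _ hcU
  have hD0 : 0 ≤ D := SS_nonneg' p hp0 hp1 M hcoh _ _ hdU
  have hD1 : D ≤ 1 := SS_le_one' p hp0 hp1 M hcoh _ _ hdU
  have va := ext_var p hp0 hp1 M hM (k + 2) _ haU ha1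
  have vb := ext_var p hp0 hp1 M hM (k + 2) _ hx hb1
  have vc := ext_var p hp0 hp1 M hM (k + 2) _ hcU (hc1 z1)
  have vd := ext_var p hp0 hp1 M hM (k + 2) _ hdU (hc1 z2)
  rw [← hA] at va
  rw [← hB] at vb
  rw [← hC] at vc
  rw [← hD] at vd
  have hshift : Tendsto (fun L : ℕ => k + 1 + L + 1) atTop atTop := by
    refine tendsto_atTop_mono (fun L => ?_) tendsto_id
    simp only [id]
    omega
  have hz : 0 < |z1 - z2| := abs_pos.2 (sub_ne_zero.2 hne)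
  have key : ∀ ε : ℝ, 0 < ε → |A * B - C' * D| ≤ 5 * ε / 2 := by
    intro ε hε
    have hlim : Tendsto (fun L : ℕ => 5 * ε / 2 + (K0 / (|z1 - z2| ^ 2 * WW L)) / (2 * ε) +
        ((∑' l, M (k + 1 + L + 1) l *
            (hh p (k + 1 + L + 1) l (cons z1 (cons z2 x)) - A) ^ 2) +
          (∑' l, M (k + 1 + L + 1) l * (hh p (k + 1 + L + 1) l x - B) ^ 2) +
          (∑' l, M (k + 1 + L + 1) l * (hh p (k + 1 + L + 1) l (cons z1 x) - C') ^ 2) +
          (∑' l, M (k + 1 + L + 1) l * (hh p (k + 1 + L + 1) l (cons z2 x) - D) ^ 2)) /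
            (2 * ε)) atTop (𝓝 (5 * ε / 2 + 0 / (2 * ε) + (0 + 0 + 0 + 0) / (2 * ε))) := by
      refine ((tendsto_const_nhds.add (Tendsto.div_const ?_ _)).add
        (Tendsto.div_const ((((va.comp hshift).add (vb.comp hshift)).add
          (vc.comp hshift)).add (vd.comp hshift)) _))
      exact tendsto_const_nhds.div_atTop (tendsto_WW.const_mul_atTop (by positivity))
    have hfin : (5 * ε / 2 + 0 / (2 * ε) + (0 + 0 + 0 + 0) / (2 * ε)) = 5 * ε / 2 := by simp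
    rw [hfin] at hlim
    refine ge_of_tendsto hlim ?_
    filter_upwards [eventually_ge_atTop 1] with L hL
    have hW : 0 < WW L := by
      unfold WW
      exact Finset.sum_pos (fun j _ => by positivity) (by simpa using (by omega : L ≠ 0))
    have sa := (summable_var p hp0 hp1 M hcoh (k + 1 + L + 1) _ haU A hA0 hA1).hasSum
    have sb := (summable_var p hp0 hp1 M hcoh (k + 1 + L + 1) _ hx B hB0 hB1).hasSum
    have sc := (summable_var p hp0 hp1 M hcoh (k + 1 + L + 1) _ hcU C' hC0 hC1).hasSum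
    have sd := (summable_var p hp0 hp1 M hcoh (k + 1 + L + 1) _ hdU D hD0 hD1).hasSum
    have s0 := hcoh.prob (k + 1 + L + 1)
    have hl := s0.mul_right (|A * B - C' * D|)
    have hr := (s0.mul_right (5 * ε / 2 + (K0 / (|z1 - z2| ^ 2 * WW L)) / (2 * ε))).add
      ((((sa.add sb).add sc).add sd).div_const (2 * ε))
    rw [one_mul] at hl hr
    refine hasSum_le (fun l => ?_) hl hr
    by_cases hanti : Antitone l
    · have hcl := hclose L (k + 1 + L) hL rfl l hanti z1 z2 hz1 hz1' hz2 hz2'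
      have hδ : (hh p (k + 1 + L + 1) l (cons z1 (cons z2 x)) * hh p (k + 1 + L + 1) l x -
          hh p (k + 1 + L + 1) l (cons z1 x) * hh p (k + 1 + L + 1) l (cons z2 x)) ^ 2 ≤
            K0 / (|z1 - z2| ^ 2 * WW L) := by
        rw [le_div_iff₀ (by positivity)]
        rw [mul_pow, sq_abs (hh p (k + 1 + L + 1) l (cons z1 (cons z2 x)) *
          hh p (k + 1 + L + 1) l x - _)] at hcl
        linarith
      have hp := mg_point _ _ _ _ A B C' D ε _
        (hh_nonneg p hp0 hp1 _ l _ haU) (hh_le_one p hp0 hp1 _ l _ haU)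
        (hh_nonneg p hp0 hp1 _ l _ hdU) (hh_le_one p hp0 hp1 _ l _ hdU)
        hB0 hB1 hC0 hC1 hε hδ
      have := mul_le_mul_of_nonneg_left hp (hcoh.nonneg _ l)
      refine this.trans (le_of_eq ?_)
      ring
    · simp [hcoh.supp _ l hanti]
  have h0' : |A * B - C' * D| ≤ 0 := by
    refine le_of_forall_pos_le_add fun ε hε => ?_
    have := key (ε / 5 * 2) (by positivity)
    linarith
  have h1' : A * B - C' * D = 0 := abs_eq_zero.1 (le_antisymm h0' (abs_nonneg _))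
  linarith

end Pool.Agent.GroB
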