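import Pool.Agent.Lib_MP_58440c_pr.Defs

/-!
# Newton determinants: linearity and the alternating map
-/

open Finset Polynomial

namespace Pool.Agent.GroB

variable {K : Type*} [Field K]

theorem divX_spec (a : K) (f : K[X]) :
    f = (X - C a) * (f /ₘ (X - C a)) + C (f.eval a) := by
  have h := modByMonic_add_div f (X - C a)
  rw [modByMonic_X_sub_C_eq_C_eval] at h
  rw [add_comm] at h
  exact h.symm

theorem divX_unique (a : K) (f g : K[X]) (c : K) (h : f = (X - C a) * g + C c) :
    f /ₘ (X - C a) = g := by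
  have h2 := div_modByMonic_unique (f := f) g (C c) (monic_X_sub_C a)
    ⟨by rw [h]; ring, by
      rw [degree_X_sub_C]
      exact lt_of_le_of_lt degree_C_le (by norm_num)⟩
  exact h2.1

theorem divX_add (a : K) (f g : K[X]) :
    (f + g) /ₘ (X - C a) = f /ₘ (X - C a) + g /ₘ (X - C a) := by
  apply divX_unique a _ _ (f.eval a + g.eval a)
  conv_lhs => rw [divX_spec a f, divX_spec a g]
  rw [C_add]; ring

theorem divX_C_mul (a c : K) (f : K[X]) :
    (C c * f) /ₘ (X - C a) = C c * (f /ₘ (X - C a)) := by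
  apply divX_unique a _ _ (c * f.eval a)
  conv_lhs => rw [divX_spec a f]
  rw [C_mul]; ring

theorem divX_mul (a : K) (h : K[X]) : ((X - C a) * h) /ₘ (X - C a) = h :=
  divX_unique a _ _ 0 (by simp)

theorem nq_add (x : ℕ → K) (j : ℕ) (f g : K[X]) : nq x j (f + g) = nq x j f + nq x j g := by
  induction j with
  | zero => rfl
  | succ j ih => simp only [nq, ih, divX_add]

theorem nq_C_mul (x : ℕ → K) (j : ℕ) (c : K) (f : K[X]) : nq x j (C c * f) = C c * nq x j f := by
  induction j with
  | zero => rfl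
  | succ j ih => simp only [nq, ih, divX_C_mul]

theorem nq_cons_succ (z : K) (x : ℕ → K) (j : ℕ) (f : K[X]) :
    nq (cons z x) (j + 1) f = nq x j (f /ₘ (X - C z)) := by
  induction j with
  | zero => rfl
  | succ j ih => rw [nq, ih]; rfl

theorem ell_cons_zero (z : K) (x : ℕ → K) (f : K[X]) : ell (cons z x) 0 f = f.eval z := rfl

theorem ell_cons_succ (z : K) (x : ℕ → K) (j : ℕ) (f : K[X]) :
    ell (cons z x) (j + 1) f = ell x j (f /ₘ (X - C z)) := by
  rw [ell, nq_cons_succ]; rfl

theorem nq_congr {x y : ℕ → K} (j : ℕ) (h : ∀ k < j, x k = y k) (f : K[X]) :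
    nq x j f = nq y j f := by
  induction j with
  | zero => rfl
  | succ j ih => rw [nq, nq, ih fun k hk => h k (hk.trans (Nat.lt_succ_self j)),
      h j (Nat.lt_succ_self j)]

theorem ell_congr {x y : ℕ → K} (j : ℕ) (h : ∀ k ≤ j, x k = y k) (f : K[X]) :
    ell x j f = ell y j f := by
  rw [ell, ell, nq_congr j (fun k hk => h k hk.le), h j le_rfl]

theorem ND_congr_lt {n : ℕ} (f : Fin n → K[X]) {x y : ℕ → K} (h : ∀ k < n, x k = y k) :
    ND n f x = ND n f y := by
  unfold ND
  congr 1
  ext i j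
  exact ell_congr _ (fun k hk => h k (lt_of_le_of_lt hk j.2)) _

/-- the divided difference as a linear map -/
noncomputable def ellL (x : ℕ → K) (j : ℕ) : K[X] →ₗ[K] K where
  toFun := ell x j
  map_add' f g := by rw [ell, nq_add, eval_add]; rfl
  map_smul' c f := by
    rw [smul_eq_C_mul, ell, nq_C_mul, eval_mul, eval_C]; rfl

@[simp] theorem ellL_apply (x : ℕ → K) (j : ℕ) (f : K[X]) : ellL x j f = ell x j f := rfl

/-- `ND` as an alternating map of the rows -/
noncomputable def NDalt (n : ℕ) (x : ℕ → K) : K[X] [⋀^Fin n]→ₗ[K] K :=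
  (Matrix.detRowAlternating (R := K) (n := Fin n)).compLinearMap
    (LinearMap.pi fun j : Fin n => ellL x j)

theorem NDalt_apply (n : ℕ) (x : ℕ → K) (f : Fin n → K[X]) : NDalt n x f = ND n f x := rfl

@[simp] theorem ND_zero (f : Fin 0 → K[X]) (x : ℕ → K) : ND 0 f x = 1 := by
  unfold ND
  exact Matrix.det_isEmpty

theorem ND_eq_zero_of_eq {n : ℕ} (f : Fin n → K[X]) (x : ℕ → K) {i j : Fin n}
    (h : f i = f j) (hij : i ≠ j) : ND n f x = 0 := by
  rw [← NDalt_apply]
  exact (NDalt n x).map_eq_zero_of_eq f h hij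

theorem ND_update_add {n : ℕ} (f : Fin n → K[X]) (x : ℕ → K) (i : Fin n) (a b : K[X]) :
    ND n (Function.update f i (a + b)) x =
      ND n (Function.update f i a) x + ND n (Function.update f i b) x := by
  simp only [← NDalt_apply]
  exact (NDalt n x).map_update_add f i a b

theorem ND_update_C_mul {n : ℕ} (f : Fin n → K[X]) (x : ℕ → K) (i : Fin n) (c : K) (a : K[X]) :
    ND n (Function.update f i (C c * a)) x = c * ND n (Function.update f i a) x := by
  simp only [← NDalt_apply]
  rw [← smul_eq_C_mul, (NDalt n x).map_update_smul f i c a, smul_eq_mul]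

/-- multilinear expansion of all rows -/
theorem ND_sum {n : ℕ} {ι : Type*} [DecidableEq ι] (S : Fin n → Finset ι)
    (c : Fin n → ι → K) (g : Fin n → ι → K[X]) (x : ℕ → K) :
    ND n (fun i => ∑ k ∈ S i, C (c i k) * g i k) x =
      ∑ k ∈ Fintype.piFinset S, (∏ i, c i (k i)) * ND n (fun i => g i (k i)) x := by
  simp only [← NDalt_apply]
  have h := (NDalt n x).toMultilinearMap.map_sum_finset (fun i k => C (c i k) * g i k) S
  simp only [AlternatingMap.coe_multilinearMap] at h
  rw [h]
  refine Finset.sum_congr rfl fun k _ => ?_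
  have h2 := (NDalt n x).toMultilinearMap.map_smul_univ (fun i => c i (k i)) (fun i => g i (k i))
  simp only [AlternatingMap.coe_multilinearMap, smul_eq_mul] at h2
  rw [← h2]
  congr 1
  funext i
  rw [smul_eq_C_mul]

end Pool.Agent.GroB
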