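import Mathlib

/-!
# Piece RHO: expansion of `1/∏` in `ρ`

`z = (1-ρ)/(1-pρ)`, `z - 1 = -(1-p)ρ/(1-pρ)`, `1 - u (z-1) = (1 - θ_u ρ)/(1 - p ρ)` with
`θ_u = p - (1-p) u`. So `(1 - y(z-1))/(1 - x(z-1)) = (1 - θ_y ρ)/(1 - θ_x ρ)
= 1 + ∑_{n ≥ 1} (θ_x - θ_y) θ_x^(n-1) ρ^n`, `θ_x - θ_y = (1-p)(y-x) ≥ 0`, `θ_x ≥ 0` for `x ≤ p/(1-p)`,
`θ_x ≤ 3 - 2p` for `x ≥ -3`, and `(3-2p) ρ < 1` for `ρ ≤ 1/(6-5p)`.
Induct on the number of factors: the product of two power series with nonnegative coefficients and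
constant term `1` has `n`-th coefficient at least the sum of the two `n`-th coefficients
(Cauchy product, absolutely convergent).
-/

open Finset

namespace Pool.Agent.GroB

namespace RhoCoef

theorem hasSum_cg {f g : ℕ → ℝ} {s : ℝ} (h : HasSum f s) (hfg : ∀ n, f n = g n) :
    HasSum g s := by
  have : f = g := funext hfg
  rwa [this] at h

/-- Coefficients of one factor. -/
noncomputable def cf (p x y : ℝ) (n : ℕ) : ℝ :=
  if n = 0 then 1 else (1 - p) * ((y - x) * (p - (1 - p) * x) ^ (n - 1))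

theorem cf_zero (p x y : ℝ) : cf p x y 0 = 1 := by simp [cf]

theorem cf_succ (p x y : ℝ) (n : ℕ) :
    cf p x y (n + 1) = (1 - p) * ((y - x) * (p - (1 - p) * x) ^ n) := by simp [cf]

theorem theta_nonneg {p x : ℝ} (hp1 : p < 1) (hx : x ≤ p / (1 - p)) : 0 ≤ p - (1 - p) * x := by
  have h1 : 0 < 1 - p := by linarith
  rw [le_div_iff₀ h1] at hx
  linarith [mul_comm x (1 - p)]

theorem cf_nonneg {p x y : ℝ} (hp1 : p < 1) (hx : x ≤ p / (1 - p)) (hxy : x ≤ y) (n : ℕ) :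
    0 ≤ cf p x y n := by
  rcases n with _ | n
  · rw [cf_zero]; exact zero_le_one
  · rw [cf_succ]
    exact mul_nonneg (by linarith) (mul_nonneg (by linarith) (pow_nonneg (theta_nonneg hp1 hx) n))

theorem cf_hasSum {p x y z : ℝ} (hp0 : 0 < p) (hp1 : p < 1) (hx3 : -3 ≤ x)
    (hx : x ≤ p / (1 - p)) (hz : 5 / 6 ≤ z) (hz1 : z ≤ 1) :
    HasSum (fun n => cf p x y n * ((1 - z) / (1 - p * z)) ^ n)
      ((1 - y * (z - 1)) / (1 - x * (z - 1))) := by
  have h1p : 0 < 1 - p := by linarith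
  have hpz : 0 < 1 - p * z := by nlinarith
  set ρ : ℝ := (1 - z) / (1 - p * z) with hρ
  set θ : ℝ := p - (1 - p) * x with hθ
  have hθ0 : 0 ≤ θ := theta_nonneg hp1 hx
  have hρ0 : 0 ≤ ρ := div_nonneg (by linarith) hpz.le
  have hden : 0 < 1 - x * (z - 1) := by
    have : 0 ≤ (3 + x) * (1 - z) := mul_nonneg (by linarith) (by linarith)
    nlinarith
  have hlt : θ * ρ < 1 := by
    rw [hρ, mul_div_assoc', div_lt_one hpz]
    have h2 : (1 - p * z) - θ * (1 - z) = (1 - p) * (1 - x * (z - 1)) := by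
      rw [hθ]; ring
    have h3 : 0 < (1 - p) * (1 - x * (z - 1)) := mul_pos h1p hden
    linarith
  have hgeo : HasSum (fun n : ℕ => (θ * ρ) ^ n) (1 - θ * ρ)⁻¹ :=
    hasSum_geometric_of_lt_one (mul_nonneg hθ0 hρ0) hlt
  have h1 : HasSum (fun n => cf p x y (n + 1) * ρ ^ (n + 1))
      ((1 - p) * (y - x) * ρ * (1 - θ * ρ)⁻¹) := by
    have h2 := hgeo.mul_left ((1 - p) * (y - x) * ρ)
    refine RhoCoef.hasSum_cg h2 ?_
    intro n
    rw [cf_succ, mul_pow, pow_succ]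
    ring
  have h2 := (hasSum_nat_add_iff (f := fun n => cf p x y n * ρ ^ n) 1).mp h1
  rw [Finset.sum_range_one, cf_zero, pow_zero, mul_one] at h2
  have h3 : (1 - p) * (y - x) * ρ * (1 - θ * ρ)⁻¹ + 1 =
      (1 - y * (z - 1)) / (1 - x * (z - 1)) := by
    have h4 : 1 - θ * ρ = (1 - p) * (1 - x * (z - 1)) / (1 - p * z) := by
      rw [hρ, hθ]
      field_simp
      ring
    rw [h4, hρ]
    have h5 := hden.ne'
    have h6 := hpz.ne'
    have h7 := h1p.ne'
    field_simp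
    ring
  rw [h3] at h2
  exact h2

/-- Cauchy product of two power series with nonnegative coefficients. -/
theorem cauchy {a c : ℕ → ℝ} {ρ A C : ℝ} (ha : ∀ n, 0 ≤ a n) (hc : ∀ n, 0 ≤ c n) (hρ : 0 ≤ ρ)
    (hA : HasSum (fun n => a n * ρ ^ n) A) (hC : HasSum (fun n => c n * ρ ^ n) C) :
    HasSum (fun n => (∑ kl ∈ antidiagonal n, a kl.1 * c kl.2) * ρ ^ n) (A * C) := by
  have hA' : Summable (fun n => ‖a n * ρ ^ n‖) := by
    refine hA.summable.congr ?_
    intro n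
    rw [Real.norm_eq_abs, abs_of_nonneg (mul_nonneg (ha n) (pow_nonneg hρ n))]
  have hC' : Summable (fun n => ‖c n * ρ ^ n‖) := by
    refine hC.summable.congr ?_
    intro n
    rw [Real.norm_eq_abs, abs_of_nonneg (mul_nonneg (hc n) (pow_nonneg hρ n))]
  have h1 := summable_norm_sum_mul_antidiagonal_of_summable_norm hA' hC'
  have h2 := tsum_mul_tsum_eq_tsum_sum_antidiagonal_of_summable_norm hA' hC'
  rw [hA.tsum_eq, hC.tsum_eq] at h2
  have h3 : HasSum (fun n => ∑ kl ∈ antidiagonal n, (a kl.1 * ρ ^ kl.1) * (c kl.2 * ρ ^ kl.2))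
      (A * C) := by
    rw [h2]
    exact h1.of_norm.hasSum
  refine RhoCoef.hasSum_cg h3 ?_
  intro n
  rw [Finset.sum_mul]
  refine Finset.sum_congr rfl ?_
  intro kl hkl
  rw [HasAntidiagonal.mem_antidiagonal] at hkl
  rw [← hkl, pow_add]
  ring

theorem cauchy_lb {a c : ℕ → ℝ} (ha : ∀ n, 0 ≤ a n) (hc : ∀ n, 0 ≤ c n) (ha0 : a 0 = 1)
    (hc0 : c 0 = 1) {n : ℕ} (hn : 1 ≤ n) :
    a n + c n ≤ ∑ kl ∈ antidiagonal n, a kl.1 * c kl.2 := by
  have hsub : ({(n, 0), (0, n)} : Finset (ℕ × ℕ)) ⊆ antidiagonal n := by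
    intro kl hkl
    rw [Finset.mem_insert, Finset.mem_singleton] at hkl
    rw [HasAntidiagonal.mem_antidiagonal]
    rcases hkl with h | h <;> subst h <;> simp
  have h1 := Finset.sum_le_sum_of_subset_of_nonneg (f := fun kl : ℕ × ℕ => a kl.1 * c kl.2) hsub
    (fun i _ _ => mul_nonneg (ha i.1) (hc i.2))
  rw [Finset.sum_pair] at h1
  · simp only [ha0, hc0, mul_one, one_mul] at h1
    exact h1
  · intro h
    rw [Prod.mk.injEq] at h
    omega

end RhoCoef

theorem rho_coef (p : ℝ) (hp0 : 0 < p) (hp1 : p < 1) (m : ℕ) (x y : Fin m → ℝ)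
    (h : ∀ i, -3 ≤ x i ∧ x i ≤ p / (1 - p) ∧ x i ≤ y i) :
    ∃ a : ℕ → ℝ, a 0 = 1 ∧ (∀ n, 0 ≤ a n) ∧
      (∀ n, 1 ≤ n → (1 - p) * ∑ i, (y i - x i) * (p - (1 - p) * x i) ^ (n - 1) ≤ a n) ∧
      ∀ z, 5 / 6 ≤ z → z ≤ 1 →
        HasSum (fun n => a n * ((1 - z) / (1 - p * z)) ^ n)
          (1 / ∏ i, (1 - x i * (z - 1)) / (1 - y i * (z - 1))) := by
  induction m with
  | zero =>
    refine ⟨fun n => if n = 0 then 1 else 0, by simp, ?_, ?_, ?_⟩
    · intro n
      dsimp only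
      split_ifs
      · exact zero_le_one
      · exact le_refl _
    · intro n hn
      have : n ≠ 0 := by omega
      simp [this]
    · intro z _ _
      have h1 := hasSum_ite_eq 0 (1 : ℝ)
      simp only [Finset.univ_eq_empty, Finset.prod_empty, div_one]
      refine RhoCoef.hasSum_cg h1 ?_
      intro n
      by_cases hn : n = 0
      · subst hn; simp
      · simp [hn]
  | succ m ih =>
    obtain ⟨a, ha0, ha1, ha2, ha3⟩ := ih (fun i => x i.castSucc) (fun i => y i.castSucc)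
      (fun i => h i.castSucc)
    set X := x (Fin.last m) with hX
    set Y := y (Fin.last m) with hY
    obtain ⟨hl1, hl2, hl3⟩ := h (Fin.last m)
    rw [← hX] at hl1 hl2 hl3
    rw [← hY] at hl3
    have hcn := RhoCoef.cf_nonneg hp1 hl2 hl3
    refine ⟨fun n => ∑ kl ∈ antidiagonal n, a kl.1 * RhoCoef.cf p X Y kl.2, ?_, ?_, ?_, ?_⟩
    · simp [ha0, RhoCoef.cf_zero]
    · intro n
      exact Finset.sum_nonneg (fun kl _ => mul_nonneg (ha1 _) (hcn _))
    · intro n hn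
      refine le_trans ?_ (RhoCoef.cauchy_lb ha1 hcn ha0 (RhoCoef.cf_zero p X Y) hn)
      rw [Fin.sum_univ_castSucc, mul_add]
      refine add_le_add (ha2 n hn) (le_of_eq ?_)
      obtain ⟨n, rfl⟩ : ∃ n', n = n' + 1 := ⟨n - 1, by omega⟩
      rw [RhoCoef.cf_succ, Nat.add_sub_cancel]
    · intro z hz hz1
      have hpz : 0 < 1 - p * z := by nlinarith
      have h1 := RhoCoef.cauchy ha1 hcn (div_nonneg (by linarith) hpz.le) (ha3 z hz hz1)
        (RhoCoef.cf_hasSum (y := Y) hp0 hp1 hl1 hl2 hz hz1)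
      rw [Fin.prod_univ_castSucc, ← hX, ← hY]
      have h2 : 1 / (∏ i : Fin m, (1 - x i.castSucc * (z - 1)) / (1 - y i.castSucc * (z - 1))) *
          ((1 - Y * (z - 1)) / (1 - X * (z - 1))) =
          1 / ((∏ i : Fin m, (1 - x i.castSucc * (z - 1)) / (1 - y i.castSucc * (z - 1))) *
            ((1 - X * (z - 1)) / (1 - Y * (z - 1)))) := by
        rw [one_div, one_div, mul_inv, inv_div]
      rw [h2] at h1
      exact h1

end Pool.Agent.GroB
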