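import Pool.Agent.Lib_MP_58440c_pr.PS
import Pool.Agent.Lib_MP_58440c_pr.RhoCoef

/-!
# Piece NEG: the part with `x_i ≤ -η` disappears

`1/∏_j → 1/Φ` for `z ∈ [5/6, 1]`, i.e. `ρ = (1-z)/(1-pz) ∈ [0, r]`, `r = 1/(6-5p)`
(`z = (1-ρ)/(1-pρ)` inverts). `rho_coef` and `ps_conv`: the coefficients `a j n` converge to `e n`,
`|e n| ≤ C κ^n`. For `i` with `x_i ≤ -η`: `θ_{x_i} ≥ p + (1-p) η`, so
`(1-p) (p + (1-p)η)^(n-1) * mass_j ≤ a j n`, `mass_j = ∑_{x_i ≤ -η} (y_i - x_i)`. So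
`limsup mass_j ≤ C κ^n /((1-p)(p+(1-p)η)^(n-1))` for every `n ≥ 1`, which tends to `0` as
`κ < p + (1-p) η`.
-/

open Finset Filter Topology

namespace Pool.Agent.GroB

theorem neg_small (p : ℝ) (hp0 : 0 < p) (hp1 : p < 1) (Φ : ℝ → ℝ)
    (hΦ : ∀ z, 0 < z → z ≤ 1 → 0 < Φ z) (k : ℕ → ℕ) (x y : ∀ j, Fin (k j) → ℝ)
    (h : ∀ j i, -3 ≤ x j i ∧ x j i ≤ p / (1 - p) ∧ x j i ≤ y j i)
    (hlim : ∀ z, 5 / 6 ≤ z → z ≤ 1 →
      Tendsto (fun j => ∏ i, (1 - x j i * (z - 1)) / (1 - y j i * (z - 1))) atTop (𝓝 (Φ z)))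
    (e : ℕ → ℝ) (C κ η : ℝ) (hκ0 : 0 < κ) (hη : 0 < η) (hκ : κ < p + (1 - p) * η)
    (he : ∀ n, |e n| ≤ C * κ ^ n)
    (hinv : ∀ z, 0 < z → z ≤ 1 → HasSum (fun n => e n * ((1 - z) / (1 - p * z)) ^ n) (1 / Φ z)) :
    Tendsto (fun j => ∑ i ∈ Finset.univ.filter (fun i => x j i ≤ -η), (y j i - x j i)) atTop
      (𝓝 0) := by
  have h1p : 0 < 1 - p := by linarith
  have hr : 0 < 1 / (6 - 5 * p) := by
    apply one_div_pos.2; linarith
  choose a ha0 ha1 ha2 ha3 using fun j => rho_coef p hp0 hp1 (k j) (x j) (y j) (h j)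
  -- the inverse change of variables
  set zz : ℝ → ℝ := fun ρ => (1 - ρ) / (1 - p * ρ) with hzz
  have hρ : ∀ ρ, 0 ≤ ρ → ρ ≤ 1 / (6 - 5 * p) → 0 < 1 - p * ρ ∧ ρ < 1 ∧ 5 / 6 ≤ zz ρ ∧ zz ρ ≤ 1 ∧
      (1 - zz ρ) / (1 - p * zz ρ) = ρ := by
    intro ρ h0 h1
    have h2 : ρ * (6 - 5 * p) ≤ 1 := by
      rw [le_div_iff₀ (by linarith)] at h1; exact h1
    have h3 : ρ < 1 := by nlinarith
    have h4 : 0 < 1 - p * ρ := by nlinarith
    refine ⟨h4, h3, ?_, ?_, ?_⟩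
    · rw [hzz]; simp only
      rw [le_div_iff₀ h4]; nlinarith
    · rw [hzz]; simp only
      rw [div_le_one h4]; nlinarith
    · rw [hzz]; simp only
      have hne : 1 - p * ρ ≠ 0 := h4.ne'
      have e1 : 1 - (1 - ρ) / (1 - p * ρ) = (1 - p) * ρ / (1 - p * ρ) := by
        rw [eq_div_iff hne, sub_mul, div_mul_cancel₀ _ hne]; ring
      have e2 : 1 - p * ((1 - ρ) / (1 - p * ρ)) = (1 - p) / (1 - p * ρ) := by
        rw [eq_div_iff hne, sub_mul, mul_assoc, div_mul_cancel₀ _ hne]; ring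
      rw [e1, e2, div_div_div_cancel_right₀ hne, mul_div_cancel_left₀ _ h1p.ne']
  have hconv : ∀ n, Tendsto (fun j => a j n) atTop (𝓝 (e n)) := by
    intro n
    refine ps_conv (1 / (6 - 5 * p)) hr a ha1
      (fun j ρ => 1 / ∏ i, (1 - x j i * (zz ρ - 1)) / (1 - y j i * (zz ρ - 1)))
      (fun ρ => 1 / Φ (zz ρ)) e ?_ ?_ ?_ n
    · intro j ρ h0 h1
      obtain ⟨-, -, hz1, hz2, hz3⟩ := hρ ρ h0 h1
      have := ha3 j (zz ρ) hz1 hz2
      rw [hz3] at this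
      exact this
    · intro ρ h0 h1
      obtain ⟨-, -, hz1, hz2, hz3⟩ := hρ ρ h0 h1
      have hpos := hΦ (zz ρ) (by linarith) hz2
      exact (tendsto_const_nhds.div (hlim _ hz1 hz2) hpos.ne')
    · intro ρ h0 h1
      obtain ⟨-, -, hz1, hz2, hz3⟩ := hρ ρ h0 h1
      have := hinv (zz ρ) (by linarith) hz2
      rw [hz3] at this
      exact this
  set s : ℝ := p + (1 - p) * η with hs
  have hspos : 0 < s := by positivity
  have hmass0 : ∀ j, 0 ≤ ∑ i ∈ Finset.univ.filter (fun i => x j i ≤ -η), (y j i - x j i) :=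
    fun j => Finset.sum_nonneg fun i _ => by linarith [(h j i).2.2]
  have hmass : ∀ j n, 1 ≤ n →
      (1 - p) * s ^ (n - 1) * ∑ i ∈ Finset.univ.filter (fun i => x j i ≤ -η), (y j i - x j i) ≤
        a j n := by
    intro j n hn
    refine le_trans ?_ (ha2 j n hn)
    rw [mul_assoc]
    refine mul_le_mul_of_nonneg_left ?_ h1p.le
    rw [Finset.mul_sum]
    have hθ : ∀ i, 0 ≤ p - (1 - p) * x j i := by
      intro i
      have h2 := (h j i).2.1
      rw [le_div_iff₀ h1p] at h2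
      linarith
    refine le_trans (Finset.sum_le_sum (g := fun i => (y j i - x j i) *
      (p - (1 - p) * x j i) ^ (n - 1)) fun i hi => ?_) ?_
    · rw [mul_comm]
      refine mul_le_mul_of_nonneg_left ?_ (by linarith [(h j i).2.2])
      refine pow_le_pow_left₀ hspos.le ?_ _
      have hxi := (Finset.mem_filter.1 hi).2
      rw [hs]
      nlinarith
    · refine Finset.sum_le_sum_of_subset_of_nonneg (Finset.filter_subset _ _) fun i _ _ => ?_
      exact mul_nonneg (by linarith [(h j i).2.2]) (pow_nonneg (hθ i) _)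
  rw [Metric.tendsto_atTop]
  intro ε hε
  -- choose n
  have hq0 : 0 ≤ κ / s := div_nonneg hκ0.le hspos.le
  have hq1 : κ / s < 1 := (div_lt_one hspos).2 hκ
  have hlim0 : Tendsto (fun n : ℕ => |C| * s / (1 - p) * (κ / s) ^ n) atTop (𝓝 0) := by
    have := (tendsto_pow_atTop_nhds_zero_of_lt_one hq0 hq1).const_mul (|C| * s / (1 - p))
    rwa [mul_zero] at this
  obtain ⟨N, hN⟩ := (Metric.tendsto_atTop.1 hlim0) ε hε
  have hN1 := hN (N + 1) (by omega)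
  rw [Real.dist_eq, sub_zero] at hN1
  have hN2 := lt_of_abs_lt hN1
  have hden : 0 < (1 - p) * s ^ N := by positivity
  have hlt : e (N + 1) < ε * ((1 - p) * s ^ N) := by
    refine lt_of_le_of_lt ((le_abs_self _).trans (he (N + 1))) ?_
    refine lt_of_le_of_lt (mul_le_mul_of_nonneg_right (le_abs_self C) (by positivity)) ?_
    have e3 : |C| * κ ^ (N + 1) = (|C| * s / (1 - p) * (κ / s) ^ (N + 1)) * ((1 - p) * s ^ N) := by
      rw [div_pow]; field_simp; ring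
    rw [e3]
    exact mul_lt_mul_of_pos_right hN2 hden
  have hev := (hconv (N + 1)).eventually_lt_const hlt
  obtain ⟨J, hJ⟩ := Filter.eventually_atTop.1 hev
  refine ⟨J, fun j hj => ?_⟩
  rw [Real.dist_eq, sub_zero, abs_of_nonneg (hmass0 j)]
  have h5 := hmass j (N + 1) (by omega)
  rw [Nat.add_sub_cancel] at h5
  have h6 := lt_of_le_of_lt h5 (hJ j hj)
  rw [mul_comm ε] at h6
  exact lt_of_mul_lt_mul_left h6 hden.le

end Pool.Agent.GroB
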