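import Pool.Agent.Lib_MP_58440c_pr.Red

/-!
# Piece P1: the Plücker relation with two evaluation points, and the row chain identity
-/

open Finset Polynomial

namespace Pool.Agent.GroB

theorem plucker1 {K : Type*} [Field K] (m : ℕ) (k : Fin m → K[X]) (i : Fin (m + 1)) (a f : K[X])
    (x : ℕ → K) (hk : ND m k x ≠ 0) (z z' : K) :
    ND (m + 1) (Fin.insertNth i f k) (cons z' x) * ND (m + 1) (Fin.insertNth i a k) (cons z x) -
      ND (m + 1) (Fin.insertNth i f k) (cons z x) * ND (m + 1) (Fin.insertNth i a k) (cons z' x) =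
    (z' - z) * ND m k x *
      ND (m + 2) (Fin.insertNth i.castSucc a (Fin.insertNth i f k)) (cons z (cons z' x)) := by
  obtain ⟨hat, h1, h2⟩ := exists_hat' m k x hk
  have e := h2 i.castSucc i a f z z'
  rw [mul_assoc, mul_comm (ND m k x), ← mul_assoc, e, h1, h1, h1, h1]
  rw [Fin.val_castSucc]
  have s1 : ((-1 : K)) ^ ((i : ℕ) + i) = 1 := by
    rw [← two_mul, pow_mul]; simp
  have s2 : ((-1 : K)) ^ ((i : ℕ) + m) * (-1) ^ ((i : ℕ) + m) = 1 := by
    rw [← mul_pow]; simp
  rw [s1]
  linear_combination (ND m k x * ND m k x * ((hat f).eval z' * (hat a).eval z -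
    (hat f).eval z * (hat a).eval z')) * s2

theorem rc (m : ℕ) (k : Fin m → ℝ[X]) (i : Fin (m + 1)) (j : Fin (m + 2)) (h f : ℝ[X])
    (x : ℕ → ℝ) (hk : ND m k x ≠ 0) (H : Fin (m + 1) → ℝ[X]) (hH : H = Fin.insertNth i h k)
    (V : Fin (m + 2) → ℝ[X]) (hV : V = Fin.insertNth j f H) (H1 : ℝ)
    (hH1 : HasDerivAt (fun z => ND (m + 1) H (cons z x)) H1 1) (z Vw : ℝ)
    (hVw : HasDerivAt (fun w => ND (m + 2) V (cons w (cons z x))) Vw 1) :
    ND (m + 1) H (cons z x) * ND (m + 2) V (cons 1 (cons 1 x)) =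
      ND (m + 2) V (cons z (cons 1 x)) * (ND (m + 1) H (cons 1 x) + H1 * (z - 1)) -
        (z - 1) * Vw * ND (m + 1) H (cons 1 x) := by
  obtain ⟨hat, h1, h2⟩ := exists_hat' m k x hk
  set N := ND m k x with hN
  set σ : ℝ := (-1) ^ ((i : ℕ) + m) with hσ
  set τ : ℝ := (-1) ^ ((j : ℕ) + i) with hτ
  set hh := hat h with hhh
  set ff := hat f with hff
  have hHval : ∀ y, ND (m + 1) H (cons y x) = σ * N * hh.eval y := by
    intro y; rw [hH]; exact h1 i h y
  have hVval : ∀ y y', (y' - y) * ND (m + 2) V (cons y (cons y' x)) =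
      τ * N * (ff.eval y * hh.eval y' - ff.eval y' * hh.eval y) := by
    intro y y'; rw [hV, hH]; exact h2 j i f h y y'
  have hswap : ∀ y y', ND (m + 2) V (cons y (cons y' x)) = ND (m + 2) V (cons y' (cons y x)) :=
    fun y y' => ND_swap m V y y' x
  -- derivative of H
  have hd : HasDerivAt (fun z => ND (m + 1) H (cons z x)) (σ * N * hh.derivative.eval 1) 1 := by
    have : (fun z => ND (m + 1) H (cons z x)) = fun z => σ * N * hh.eval z := funext hHval
    rw [this]
    exact (hh.hasDerivAt 1).const_mul _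
  have hH1' : H1 = σ * N * hh.derivative.eval 1 := hH1.unique hd
  -- derivative relation for general second point
  have hder : ∀ (u U : ℝ), HasDerivAt (fun w => ND (m + 2) V (cons w (cons u x))) U 1 →
      (u - 1) * U - ND (m + 2) V (cons 1 (cons u x)) =
        τ * N * (ff.derivative.eval 1 * hh.eval u - ff.eval u * hh.derivative.eval 1) := by
    intro u U hU
    have hL : HasDerivAt (fun w => (u - w) * ND (m + 2) V (cons w (cons u x)))
        ((0 - 1) * ND (m + 2) V (cons 1 (cons u x)) + (u - 1) * U) 1 := by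
      have h3 : HasDerivAt (fun w : ℝ => u - w) (0 - 1) 1 :=
        (hasDerivAt_const (1 : ℝ) u).sub (hasDerivAt_id (1 : ℝ))
      exact h3.mul hU
    have hR : HasDerivAt (fun w => τ * N * (ff.eval w * hh.eval u - ff.eval u * hh.eval w))
        (τ * N * (ff.derivative.eval 1 * hh.eval u - ff.eval u * hh.derivative.eval 1)) 1 := by
      apply HasDerivAt.const_mul
      exact ((ff.hasDerivAt 1).mul_const _).sub ((hh.hasDerivAt 1).const_mul _)
    have hfun : (fun w => (u - w) * ND (m + 2) V (cons w (cons u x))) =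
        fun w => τ * N * (ff.eval w * hh.eval u - ff.eval u * hh.eval w) := by
      funext w; exact hVval w u
    rw [hfun] at hL
    have := hL.unique hR
    linarith
  -- existence of the derivative at u = 1
  obtain ⟨P, hP⟩ := ND_cons_poly (m + 1) V (cons 1 x)
  have hU1 : HasDerivAt (fun w => ND (m + 2) V (cons w (cons 1 x))) (P.derivative.eval 1) 1 := by
    have : (fun w => ND (m + 2) V (cons w (cons 1 x))) = fun w => P.eval w := funext hP
    rw [this]
    exact P.hasDerivAt 1
  have r1 := hder 1 _ hU1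
  have r2 := hder z Vw hVw
  have r3 := hVval z 1
  have hs := hswap z 1
  rw [hHval z, hHval 1, hH1']
  rw [← hs] at r2
  set A := hh.eval z
  set B := hh.eval 1
  set A' := hh.derivative.eval 1
  set Fz := ff.eval z
  set F1 := ff.eval 1
  set F1' := ff.derivative.eval 1
  set V1 := ND (m + 2) V (cons 1 (cons 1 x))
  set Vz := ND (m + 2) V (cons z (cons 1 x))
  -- r1 : 0 - V1 = τ N (F1' B - F1 A'), r2 : (z-1) Vw - Vz = τ N (F1' A - Fz A'),
  -- r3 : (1 - z) Vz = τ N (Fz B - F1 A)
  linear_combination (-(σ * N * A)) * r1 + (σ * N * B) * r2 + (σ * N * A') * r3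

end Pool.Agent.GroB
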