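import Mathlib

/-!
# Piece SEL: selection of weights

`a n = d n / κ'^n`. Choose `κ' ∈ (κ, κ + ε')` with `κ' (1 - ε) < κ` (`ε < 1` wlog) and
`(κ + κ')/2`-bound: `d n ≤ C κ''^n` with `κ < κ'' < κ'`, so `∑ a n < ∞`. Let `R n = ∑_{m ≥ n} a m`.
Suppose for all `n ≥ L`: `a n > ε R n` or `R n = 0`. If `R n = 0` for some `n` then `d m = 0` for
`m ≥ n` and `d m ≤ C κ₁^m` for every `κ₁ ∈ (0, κ)`, contradicting `hlow`. Otherwise
`R (n+1) = R n - a n < (1-ε) R n`, `a n ≤ R n ≤ (1-ε)^(n-L) R L`, so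
`d n ≤ C' (κ' (1-ε))^n` for all `n`, contradicting `hlow` (`κ' (1-ε) < κ`).
-/

open Filter Topology

namespace Pool.Agent.GroB

namespace Sel

/-- the tail sums -/
noncomputable def Rt (a : ℕ → ℝ) (n : ℕ) : ℝ := ∑' m, (if n ≤ m then a m else 0)

theorem Rt_summable {a : ℕ → ℝ} (h0 : ∀ n, 0 ≤ a n) (hs : Summable a) (n : ℕ) :
    Summable (fun m => if n ≤ m then a m else 0) := by
  apply Summable.of_nonneg_of_le _ _ hs
  · intro m
    split_ifs
    · exact h0 m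
    · exact le_refl _
  · intro m
    split_ifs
    · exact le_refl _
    · exact h0 m

theorem Rt_nonneg {a : ℕ → ℝ} (h0 : ∀ n, 0 ≤ a n) (n : ℕ) : 0 ≤ Rt a n := by
  apply tsum_nonneg
  intro m
  split_ifs
  · exact h0 m
  · exact le_refl _

theorem Rt_rec {a : ℕ → ℝ} (h0 : ∀ n, 0 ≤ a n) (hs : Summable a) (n : ℕ) :
    Rt a n = a n + Rt a (n + 1) := by
  unfold Rt
  have h1 : (fun m => if n ≤ m then a m else 0)
      = fun m => (if m = n then a n else 0) + (if n + 1 ≤ m then a m else 0) := by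
    funext m
    by_cases h : m = n
    · subst h
      simp
    · by_cases h2 : n ≤ m
      · have h3 : n + 1 ≤ m := by omega
        rw [if_pos h2, if_neg h, if_pos h3, zero_add]
      · have h3 : ¬ n + 1 ≤ m := by omega
        rw [if_neg h2, if_neg h, if_neg h3, zero_add]
  rw [h1, Summable.tsum_add _ (Rt_summable h0 hs (n + 1)), tsum_ite_eq]
  exact (hasSum_ite_eq n (a n)).summable

end Sel

theorem select (d : ℕ → ℝ) (h0 : ∀ n, 0 ≤ d n) (κ : ℝ) (hκ : 0 < κ)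
    (hlow : ∀ κ', 0 < κ' → κ' < κ → ¬ ∃ C : ℝ, ∀ n, d n ≤ C * κ' ^ n)
    (hup : ∀ κ', κ < κ' → ∃ C : ℝ, ∀ n, d n ≤ C * κ' ^ n)
    (ε : ℝ) (hε : 0 < ε) (L : ℕ) :
    ∃ (κ' : ℝ) (n0 : ℕ), κ < κ' ∧ κ' < κ + ε ∧ L ≤ n0 ∧
      (Summable fun n => d n / κ' ^ n) ∧
      0 < ∑' n, (if n0 ≤ n then d n / κ' ^ n else 0) ∧
      d n0 / κ' ^ n0 ≤ ε * ∑' n, (if n0 ≤ n then d n / κ' ^ n else 0) := by
  set ε2 : ℝ := min ε (1 / 2) with hε2
  have e1 : 0 < ε2 := lt_min hε (by norm_num)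
  have e2 : ε2 ≤ ε := min_le_left _ _
  have e3 : ε2 ≤ 1 / 2 := min_le_right _ _
  set δ : ℝ := min (ε / 2) (κ * ε2) with hδ
  have d1 : 0 < δ := lt_min (by linarith) (mul_pos hκ e1)
  have d2 : δ ≤ ε / 2 := min_le_left _ _
  have d3 : δ ≤ κ * ε2 := min_le_right _ _
  set κ' : ℝ := κ + δ with hκ'
  have k0 : 0 < κ' := by linarith
  have k1 : κ' * (1 - ε2) < κ := by
    have : κ' * (1 - ε2) ≤ (κ + κ * ε2) * (1 - ε2) :=
      mul_le_mul_of_nonneg_right (by linarith) (by linarith)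
    have h2 : (κ + κ * ε2) * (1 - ε2) = κ - κ * ε2 ^ 2 := by ring
    have h3 : 0 < κ * ε2 ^ 2 := by positivity
    linarith
  have k2 : 0 < κ' * (1 - ε2) := mul_pos k0 (by linarith)
  set a : ℕ → ℝ := fun n => d n / κ' ^ n with ha
  have ha0 : ∀ n, 0 ≤ a n := fun n => div_nonneg (h0 n) (pow_nonneg k0.le n)
  have hsum : Summable a := by
    obtain ⟨C, hC⟩ := hup ((κ + κ') / 2) (by linarith)
    have hr0 : 0 ≤ (κ + κ') / 2 / κ' := by positivity
    have hr1 : (κ + κ') / 2 / κ' < 1 := by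
      rw [div_lt_one k0]
      linarith
    apply Summable.of_nonneg_of_le ha0 _ ((summable_geometric_of_lt_one hr0 hr1).mul_left C)
    intro n
    show d n / κ' ^ n ≤ C * ((κ + κ') / 2 / κ') ^ n
    rw [div_pow, div_le_iff₀ (pow_pos k0 n)]
    have : C * (((κ + κ') / 2) ^ n / κ' ^ n) * κ' ^ n = C * ((κ + κ') / 2) ^ n := by
      have := (pow_pos k0 n).ne'
      field_simp
    rw [this]
    exact hC n
  by_contra hcon
  push Not at hcon
  have hstep : ∀ n, L ≤ n → Sel.Rt a (n + 1) ≤ (1 - ε2) * Sel.Rt a n := by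
    intro n hn
    have h1 := Sel.Rt_rec ha0 hsum n
    have h2 := Sel.Rt_nonneg ha0 n
    have h3 : ε2 * Sel.Rt a n ≤ a n := by
      rcases h2.eq_or_lt with h4 | h4
      · rw [← h4, mul_zero]
        exact ha0 n
      · have h5 := hcon κ' n (by linarith) (by linarith) hn hsum h4
        have h6 : ε2 * Sel.Rt a n ≤ ε * Sel.Rt a n := mul_le_mul_of_nonneg_right e2 h2
        exact h6.trans h5.le
    linarith
  have hR : ∀ k, Sel.Rt a (L + k) ≤ (1 - ε2) ^ k * Sel.Rt a L := by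
    intro k
    induction k with
    | zero => simp
    | succ k ih =>
      have h1 := hstep (L + k) (by omega)
      have h2 : (1 - ε2) * Sel.Rt a (L + k) ≤ (1 - ε2) * ((1 - ε2) ^ k * Sel.Rt a L) :=
        mul_le_mul_of_nonneg_left ih (by linarith)
      calc Sel.Rt a (L + (k + 1)) ≤ (1 - ε2) * Sel.Rt a (L + k) := h1
        _ ≤ (1 - ε2) * ((1 - ε2) ^ k * Sel.Rt a L) := h2
        _ = (1 - ε2) ^ (k + 1) * Sel.Rt a L := by ring
  apply hlow (κ' * (1 - ε2)) k2 k1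
  refine ⟨Sel.Rt a L / (1 - ε2) ^ L + ∑ m ∈ Finset.range L, d m / (κ' * (1 - ε2)) ^ m, ?_⟩
  intro n
  have hpos : 0 < (κ' * (1 - ε2)) ^ n := pow_pos k2 n
  have h1e : 0 < 1 - ε2 := by linarith
  have hA : 0 ≤ Sel.Rt a L / (1 - ε2) ^ L := div_nonneg (Sel.Rt_nonneg ha0 L) (pow_nonneg h1e.le L)
  have hB : 0 ≤ ∑ m ∈ Finset.range L, d m / (κ' * (1 - ε2)) ^ m :=
    Finset.sum_nonneg (fun m _ => div_nonneg (h0 m) (pow_nonneg k2.le m))
  rw [add_mul]
  by_cases hn : n < L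
  · have h1 : d n / (κ' * (1 - ε2)) ^ n ≤ ∑ m ∈ Finset.range L, d m / (κ' * (1 - ε2)) ^ m :=
      Finset.single_le_sum (f := fun m => d m / (κ' * (1 - ε2)) ^ m)
        (fun m _ => div_nonneg (h0 m) (pow_nonneg k2.le m)) (Finset.mem_range.2 hn)
    have h2 : d n ≤ (∑ m ∈ Finset.range L, d m / (κ' * (1 - ε2)) ^ m) * (κ' * (1 - ε2)) ^ n := by
      rw [← div_le_iff₀ hpos]
      exact h1
    have h3 := mul_nonneg hA hpos.le
    linarith
  · push Not at hn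
    obtain ⟨k, rfl⟩ := Nat.exists_eq_add_of_le hn
    have h1 := hR k
    have h2 : a (L + k) ≤ Sel.Rt a (L + k) := by
      have := Sel.Rt_rec ha0 hsum (L + k)
      have h3 := Sel.Rt_nonneg ha0 (L + k + 1)
      linarith
    have h3 : d (L + k) = a (L + k) * κ' ^ (L + k) := by
      show d (L + k) = d (L + k) / κ' ^ (L + k) * κ' ^ (L + k)
      rw [div_mul_cancel₀ _ (pow_pos k0 _).ne']
    have h4 : Sel.Rt a L / (1 - ε2) ^ L * (κ' * (1 - ε2)) ^ (L + k)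
        = (1 - ε2) ^ k * Sel.Rt a L * κ' ^ (L + k) := by
      rw [mul_pow, pow_add (1 - ε2)]
      have := (pow_pos h1e L).ne'
      field_simp
    rw [h4, h3]
    have h5 : a (L + k) * κ' ^ (L + k) ≤ (1 - ε2) ^ k * Sel.Rt a L * κ' ^ (L + k) :=
      mul_le_mul_of_nonneg_right (h2.trans h1) (pow_pos k0 _).le
    have h6 := mul_nonneg hB hpos.le
    linarith

end Pool.Agent.GroB
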