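import Pool.Agent.Lib_MP_58440c_pr.DnId
import Pool.Agent.Lib_MP_58440c_pr.Select
import Pool.Agent.Lib_MP_58440c_pr.GPosOps
import Pool.Agent.Lib_MP_58440c_pr.GPosLim

/-!
# Piece REM: removing one factor

`κ` = exponential rate of `dn`, `p < κ` (then `κ ≤ 1` since `dn ≤ 1`), `b = (κ-p)/(1-p) ∈ (0,1]`.
For every `i` take `κ_i, n_i` from `select` with `ε = 1/(i+1)`, `L = i`; `w n = κ_i^(-n)` for
`n ≥ n_i`, else `0`; `R_i = ∑ w n * dn n > 0`;
`T_i y = (∑' n, w n * Pf p n (c n) y) / R_i`, `0 ≤ T_i ≤ 1` on `UnitSeq`s, `T_i one = 1`.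
For `y` with `y j = 1` for `j ≥ k` and `i ≥ k + 1` multiply `col_rec_one` by `w n` and sum over
`n ≥ n_i` (`≥ k+1`):
`((1-pz) - κ_i (1-z)) T_i (cons z y) = (1-p) Φ z T_i y - (1-z) κ_i w(n_i) Pf p n_i (cons z y)/R_i`,
the last term is at most `κ_i /(i+1)` in absolute value. So by induction on `k`
`T_i y → ∏_{j<k} (1-p) Φ(y_j)/((1-p y_j) - κ (1-y_j)) = ∏_{j<k} Φ̃(y_j)`, `Φ̃ z = Φ z/(1 + b (z-1))`:
`(1-pz) - κ(1-z) = (1-p)(1 + b(z-1)) > 0`.
`y ↦ T_i (trunc k y)` is `G`-positive at level `k` for `n_i ≥ k`: `gpos_trunc` for each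
`Pf p n (c n)` (`Pf_gpos`) and `gpos_sum`. Then `gpos_limit` (with `prodF Φ̃ k`; continuity:
`phi_continuousOn`). So `GPos p k (prodF Φ̃ k)` for all `k`.
-/

open Finset Polynomial Filter Topology

namespace Pool.Agent.GroB

private noncomputable def Sm (p : ℝ) (c : ∀ n, (Fin n → ℕ) → ℝ) (κ' : ℝ) (n0 : ℕ) (y : ℕ → ℝ) : ℝ :=
  ∑' n, (if n0 ≤ n then Pf p n (c n) y / κ' ^ n else 0)

section

variable (p : ℝ) (hp0 : 0 < p) (hp1 : p < 1) (Φ : ℝ → ℝ)
  (c : ∀ n, (Fin n → ℕ) → ℝ) (hc : ∀ n, IsCoef p n (prodF Φ n) (c n)) (κ' : ℝ) (n0 : ℕ)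
  (hκ' : 0 < κ') (hs : Summable fun n => dn p c n / κ' ^ n)

include hp0 hp1 hc hκ' hs

private theorem sm_summable (y : ℕ → ℝ) (hy : UnitSeq y) :
    Summable (fun n => if n0 ≤ n then Pf p n (c n) y / κ' ^ n else 0) := by
  refine Summable.of_nonneg_of_le (fun n => ?_) (fun n => ?_) hs
  · have h := Pf_le_dn p hp0 hp1 Φ c hc n y hy
    have hk : 0 < κ' ^ n := pow_pos hκ' n
    split_ifs
    · exact div_nonneg h.1 hk.le
    · exact le_rfl
  · have h := Pf_le_dn p hp0 hp1 Φ c hc n y hy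
    have h0 := dn_nonneg p hp0 hp1 Φ c hc n
    have hk : 0 < κ' ^ n := pow_pos hκ' n
    split_ifs
    · exact div_le_div_of_nonneg_right h.2 hk.le
    · exact div_nonneg h0 hk.le

private theorem sm_le (y : ℕ → ℝ) (hy : UnitSeq y) :
    0 ≤ Sm p c κ' n0 y ∧ Sm p c κ' n0 y ≤ Sm p c κ' n0 one := by
  have h1 := sm_summable p hp0 hp1 Φ c hc κ' n0 hκ' hs y hy
  have h2 := sm_summable p hp0 hp1 Φ c hc κ' n0 hκ' hs one unitSeq_one
  constructor
  · refine tsum_nonneg fun n => ?_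
    have h := Pf_le_dn p hp0 hp1 Φ c hc n y hy
    have hk : 0 < κ' ^ n := pow_pos hκ' n
    split_ifs
    · exact div_nonneg h.1 hk.le
    · exact le_rfl
  · refine h1.tsum_le_tsum (fun n => ?_) h2
    have h := Pf_le_dn p hp0 hp1 Φ c hc n y hy
    have hk : 0 < κ' ^ n := pow_pos hκ' n
    split_ifs
    · exact div_le_div_of_nonneg_right h.2 hk.le
    · exact le_rfl

private theorem sm_rec (hΦ1 : Φ 1 = 1) (k : ℕ) (hn0 : k + 1 ≤ n0) (z : ℝ) (hz : 0 < z) (hz1 : z ≤ 1)
    (y : ℕ → ℝ) (hy : UnitSeq y) (hy1 : ∀ j, k ≤ j → y j = 1) :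
    ((1 - p * z) - κ' * (1 - z)) * Sm p c κ' n0 (cons z y) =
      (1 - p) * Φ z * Sm p c κ' n0 y -
        (1 - z) * κ' * (Pf p n0 (c n0) (cons z y) / κ' ^ n0) := by
  have hzy : UnitSeq (cons z y) := hy.cons hz hz1
  have h1 := (sm_summable p hp0 hp1 Φ c hc κ' n0 hκ' hs (cons z y) hzy).hasSum
  have h2 := (sm_summable p hp0 hp1 Φ c hc κ' n0 hκ' hs y hy).hasSum
  set a : ℕ → ℝ := fun n => if n0 ≤ n then Pf p n (c n) (cons z y) / κ' ^ n else 0 with ha
  set b : ℕ → ℝ := fun n => if n0 ≤ n then Pf p n (c n) y / κ' ^ n else 0 with hb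
  set P : ℝ := Pf p n0 (c n0) (cons z y) / κ' ^ n0 with hP
  have h3 : HasSum (fun n => a (n + 1)) (∑' n, a n) := by
    have := (hasSum_nat_add_iff' 1).2 h1
    have ha0 : a 0 = 0 := by
      rw [ha]
      simp only
      rw [if_neg (by omega)]
    simpa [ha0] using this
  have h4 : HasSum (fun n => if n = n0 - 1 then P else 0) P := hasSum_ite_eq (n0 - 1) P
  have h5 : HasSum (fun n => (1 - z) * κ' * (a (n + 1) - if n = n0 - 1 then P else 0))
      ((1 - z) * κ' * (∑' n, a n - P)) := (h3.sub h4).mul_left _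
  have h6 : HasSum (fun n => (1 - p * z) * a n - (1 - p) * Φ z * b n)
      ((1 - p * z) * (∑' n, a n) - (1 - p) * Φ z * ∑' n, b n) :=
    (h1.mul_left _).sub (h2.mul_left _)
  have h7 : ∀ n, (1 - z) * κ' * (a (n + 1) - if n = n0 - 1 then P else 0) =
      (1 - p * z) * a n - (1 - p) * Φ z * b n := by
    intro n
    simp only [ha, hb]
    by_cases hn : n0 ≤ n
    · rw [if_pos (by omega), if_neg (by omega), if_pos hn, if_pos hn]
      have h := col_rec_one p hp0 hp1 Φ hΦ1 c hc n k (by omega) z hz hz1 y hy hy1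
      have hk : κ' ^ n ≠ 0 := (pow_pos hκ' n).ne'
      have hk' : κ' ≠ 0 := hκ'.ne'
      rw [pow_succ]
      field_simp
      linear_combination h
    · rw [if_neg hn, if_neg hn]
      by_cases hn' : n0 ≤ n + 1
      · have e : n = n0 - 1 := by omega
        have e' : n0 = n + 1 := by omega
        rw [if_pos hn', if_pos e, hP, e']
        ring
      · rw [if_neg hn', if_neg (by omega)]
        ring
  have h8 : (1 - z) * κ' * (∑' n, a n - P) =
      (1 - p * z) * (∑' n, a n) - (1 - p) * Φ z * ∑' n, b n :=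
    h5.unique (by simpa only [h7] using h6)
  show ((1 - p * z) - κ' * (1 - z)) * (∑' n, a n) =
      (1 - p) * Φ z * (∑' n, b n) - (1 - z) * κ' * P
  linear_combination -h8

end

theorem remove (p : ℝ) (hp0 : 0 < p) (hp1 : p < 1) (Φ : ℝ → ℝ) (hΦ : PP p Φ)
    (c : ∀ n, (Fin n → ℕ) → ℝ) (hc : ∀ n, IsCoef p n (prodF Φ n) (c n)) (κ : ℝ) (hκ : p < κ)
    (hlow : ∀ κ', 0 < κ' → κ' < κ → ¬ ∃ C : ℝ, ∀ n, dn p c n ≤ C * κ' ^ n)
    (hup : ∀ κ', κ < κ' → ∃ C : ℝ, ∀ n, dn p c n ≤ C * κ' ^ n) :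
    κ ≤ 1 ∧ PP p (fun z => Φ z / (1 + (κ - p) / (1 - p) * (z - 1))) := by
  have hκ0 : 0 < κ := hp0.trans hκ
  have hq : 0 < 1 - p := by linarith
  have hΦ1 := hΦ.1
  have hκ1 : κ ≤ 1 := by
    by_contra h
    rw [not_le] at h
    refine hlow 1 one_pos h ⟨1, fun n => ?_⟩
    rw [one_pow, mul_one]
    exact dn_le_one p hp0 hp1 Φ hΦ1 c hc n
  refine ⟨hκ1, ?_⟩
  set b : ℝ := (κ - p) / (1 - p) with hb
  have hb0 : 0 < b := div_pos (by linarith) hq
  have hb1 : b ≤ 1 := by rw [hb, div_le_one hq]; linarith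
  have hden : ∀ z, 0 < z → z ≤ 1 → 0 < 1 + b * (z - 1) := by
    intro z hz hz1
    nlinarith
  set Ψ : ℝ → ℝ := fun z => Φ z / (1 + b * (z - 1)) with hΨ
  have hΨ1 : Ψ 1 = 1 := by simp [hΨ, hΦ1]
  -- selection of the weights
  have hsel : ∀ i : ℕ, ∃ (κ' : ℝ) (n0 : ℕ), κ < κ' ∧ κ' < κ + 1 / ((i : ℝ) + 1) ∧ i ≤ n0 ∧
      (Summable fun n => dn p c n / κ' ^ n) ∧
      0 < ∑' n, (if n0 ≤ n then dn p c n / κ' ^ n else 0) ∧
      dn p c n0 / κ' ^ n0 ≤ 1 / ((i : ℝ) + 1) * ∑' n, (if n0 ≤ n then dn p c n / κ' ^ n else 0) :=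
    fun i => select (dn p c) (dn_nonneg p hp0 hp1 Φ c hc) κ hκ0 hlow hup (1 / ((i : ℝ) + 1))
      (by positivity) i
  choose K N hK1 hK2 hN hsum hR hfirst using hsel
  have hK0 : ∀ i, 0 < K i := fun i => hκ0.trans (hK1 i)
  set R : ℕ → ℝ := fun i => Sm p c (K i) (N i) one with hRdef
  have hR' : ∀ i, 0 < R i := hR
  have hfirst' : ∀ i, dn p c (N i) / K i ^ N i ≤ 1 / ((i : ℝ) + 1) * R i := hfirst
  set T : ℕ → (ℕ → ℝ) → ℝ := fun i y => Sm p c (K i) (N i) y / R i with hT
  have hTle : ∀ i y, UnitSeq y → 0 ≤ T i y ∧ T i y ≤ 1 := by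
    intro i y hy
    have h := sm_le p hp0 hp1 Φ c hc (K i) (N i) (hK0 i) (hsum i) y hy
    exact ⟨div_nonneg h.1 (hR' i).le, (div_le_one (hR' i)).2 h.2⟩
  have hKlim : Tendsto K atTop (𝓝 κ) := by
    have h1 : Tendsto (fun i : ℕ => κ + 1 / ((i : ℝ) + 1)) atTop (𝓝 (κ + 0)) :=
      tendsto_const_nhds.add tendsto_one_div_add_atTop_nhds_zero_nat
    rw [add_zero] at h1
    exact tendsto_of_tendsto_of_tendsto_of_le_of_le tendsto_const_nhds h1
      (fun i => (hK1 i).le) (fun i => (hK2 i).le)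
  -- convergence
  have hlim : ∀ k : ℕ, ∀ y, UnitSeq y → (∀ j, k ≤ j → y j = 1) →
      Tendsto (fun i => T i y) atTop (𝓝 (prodF Ψ k y)) := by
    intro k
    induction k with
    | zero =>
      intro y hy hy1
      have e : y = one := by funext j; exact hy1 j (Nat.zero_le j)
      have e2 : ∀ i, T i y = 1 := fun i => by rw [e]; exact div_self (hR' i).ne'
      simp only [e2, prodF, Finset.range_zero, Finset.prod_empty]
      exact tendsto_const_nhds
    | succ k ih =>
      intro y hy hy1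
      set z := y 0 with hzdef
      set y' : ℕ → ℝ := fun j => y (j + 1) with hy'def
      have hyc : y = cons z y' := by
        funext j
        cases j <;> rfl
      have hz : 0 < z := (hy 0).1
      have hz1 : z ≤ 1 := (hy 0).2
      have hy' : UnitSeq y' := fun j => hy (j + 1)
      have hy'1 : ∀ j, k ≤ j → y' j = 1 := fun j hj => hy1 (j + 1) (by omega)
      have ih' := ih y' hy' hy'1
      have hprod : prodF Ψ (k + 1) y = Ψ z * prodF Ψ k y' := by
        unfold prodF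
        rw [Finset.prod_range_succ', mul_comm]
      rw [hprod]
      have hrec : ∀ i, k + 1 ≤ i → ((1 - p * z) - K i * (1 - z)) * T i y =
          (1 - p) * Φ z * T i y' - (1 - z) * K i * (Pf p (N i) (c (N i)) y / K i ^ N i / R i) := by
        intro i hi
        have h := sm_rec p hp0 hp1 Φ c hc (K i) (N i) (hK0 i) (hsum i) hΦ1 k
          (hi.trans (hN i)) z hz hz1 y' hy' hy'1
        rw [← hyc] at h
        simp only [hT]
        have hRi := (hR' i).ne'
        rw [mul_div_assoc', h]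
        field_simp
      have herr : Tendsto (fun i => Pf p (N i) (c (N i)) y / K i ^ N i / R i) atTop (𝓝 0) := by
        refine squeeze_zero (g := fun i : ℕ => 1 / ((i : ℝ) + 1)) (fun i => ?_) (fun i => ?_)
          tendsto_one_div_add_atTop_nhds_zero_nat
        · have h := Pf_le_dn p hp0 hp1 Φ c hc (N i) y hy
          exact div_nonneg (div_nonneg h.1 (pow_pos (hK0 i) _).le) (hR' i).le
        · have h := Pf_le_dn p hp0 hp1 Φ c hc (N i) y hy
          rw [div_le_iff₀ (hR' i)]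
          exact (div_le_div_of_nonneg_right h.2 (pow_pos (hK0 i) _).le).trans (hfirst' i)
      have hdenlim : Tendsto (fun i => (1 - p * z) - K i * (1 - z)) atTop
          (𝓝 ((1 - p * z) - κ * (1 - z))) :=
        tendsto_const_nhds.sub (hKlim.mul tendsto_const_nhds)
      have hdeq : (1 - p * z) - κ * (1 - z) = (1 - p) * (1 + b * (z - 1)) := by
        rw [hb]
        field_simp
        ring
      have hdpos : 0 < (1 - p * z) - κ * (1 - z) := by
        rw [hdeq]
        exact mul_pos hq (hden z hz hz1)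
      have hnum : Tendsto (fun i => (1 - p) * Φ z * T i y' -
          (1 - z) * K i * (Pf p (N i) (c (N i)) y / K i ^ N i / R i)) atTop
          (𝓝 ((1 - p) * Φ z * prodF Ψ k y' - (1 - z) * κ * 0)) :=
        (tendsto_const_nhds.mul ih').sub ((tendsto_const_nhds.mul hKlim).mul herr)
      have hquot := hnum.div hdenlim hdpos.ne'
      have hval : ((1 - p) * Φ z * prodF Ψ k y' - (1 - z) * κ * 0) / ((1 - p * z) - κ * (1 - z)) =
          Ψ z * prodF Ψ k y' := by
        rw [hdeq]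
        simp only [hΨ]
        have h1 := (hden z hz hz1).ne'
        field_simp
        ring
      rw [hval] at hquot
      refine hquot.congr' ?_
      have hev : ∀ᶠ i in atTop, 0 < (1 - p * z) - K i * (1 - z) :=
        hdenlim.eventually (lt_mem_nhds hdpos)
      filter_upwards [hev, eventually_ge_atTop (k + 1)] with i hi1 hi2
      rw [Pi.div_apply, ← hrec i hi2, mul_comm, mul_div_assoc, div_self hi1.ne', mul_one]
  -- positivity
  refine ⟨hΨ1, fun k => ?_⟩
  have hgp : ∀ i : ℕ, k ≤ i → GPos p k (fun x => T i (trunc k x)) := by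
    intro i hi
    have hNi : k ≤ N i := hi.trans (hN i)
    refine gpos_sum p hp0 hp1 k (fun n x => Pf p (max n k) (c (max n k)) (trunc k x))
      (fun n => if N i ≤ n then (K i ^ n)⁻¹ / R i else 0) (fun n => ?_) (fun n => ?_) _ ?_
    · show 0 ≤ (if N i ≤ n then (K i ^ n)⁻¹ / R i else 0)
      have := pow_pos (hK0 i) n
      split_ifs
      · exact div_nonneg (inv_nonneg.2 this.le) (hR' i).le
      · exact le_rfl
    · exact gpos_trunc p hp0 hp1 (max n k) k (le_max_right _ _) _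
        ⟨_, Pf_gpos p hp0 hp1 Φ c hc (max n k)⟩
    · intro x hx
      have h1 := (sm_summable p hp0 hp1 Φ c hc (K i) (N i) (hK0 i) (hsum i) (trunc k x)
        (hx.trunc k)).hasSum
      have h2 := h1.mul_right (R i)⁻¹
      have e : T i (trunc k x) = (∑' n, if N i ≤ n then Pf p n (c n) (trunc k x) / K i ^ n else 0) *
          (R i)⁻¹ := by
        simp only [hT, Sm]
        rw [div_eq_mul_inv]
      rw [e]
      refine h2.congr_fun ?_
      intro n
      show _ = _
      by_cases hn : N i ≤ n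
      · rw [if_pos hn, if_pos hn, max_eq_left (hNi.trans hn)]
        ring
      · rw [if_neg hn, if_neg hn]
        ring
  refine gpos_limit p hp0 hp1 k (fun i x => T (i + k) (trunc k x)) (fun i => hgp (i + k) (by omega))
    (prodF Ψ k) (fun x hx => ?_) (fun x hx => ?_)
  · have h1 := hlim k (trunc k x) (hx.trunc k) (fun j hj => by
      unfold trunc
      rw [if_neg (by omega)])
    have h2 := h1.comp (tendsto_add_atTop_nat k)
    have e : prodF Ψ k (trunc k x) = prodF Ψ k x := by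
      unfold prodF
      refine Finset.prod_congr rfl fun j hj => ?_
      unfold trunc
      rw [if_pos (Finset.mem_range.1 hj)]
    rw [e] at h2
    exact h2
  · have hcont := phi_continuousOn p hp0 hp1 Φ (hΦ.2 1)
    have hcontΨ : ContinuousOn Ψ (Set.Ioc 0 1) := by
      refine hcont.div (by fun_prop) ?_
      intro z hz
      exact (hden z hz.1 hz.2).ne'
    unfold prodF
    refine tendsto_finsetProd _ fun j _ => ?_
    have hxj := hx j
    have h1 : ContinuousWithinAt Ψ (Set.Ioc 0 1) (x j) := hcontΨ (x j) ⟨hxj.1, hxj.2⟩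
    have h2 : Tendsto (fun t : ℝ => t * x j) (𝓝[<] 1) (𝓝[Set.Ioc 0 1] (x j)) := by
      rw [tendsto_nhdsWithin_iff]
      constructor
      · have : Tendsto (fun t : ℝ => t * x j) (𝓝 1) (𝓝 (1 * x j)) :=
          (continuous_id.mul continuous_const).tendsto 1
        rw [one_mul] at this
        exact this.mono_left nhdsWithin_le_nhds
      · have h3 : ∀ᶠ t : ℝ in 𝓝[<] 1, 0 < t :=
          (lt_mem_nhds one_pos).filter_mono nhdsWithin_le_nhds
        filter_upwards [h3, self_mem_nhdsWithin] with t ht ht1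
        have ht1' : t < 1 := ht1
        exact ⟨mul_pos ht hxj.1, by nlinarith [hxj.1, hxj.2]⟩
    exact h1.tendsto.comp h2

end Pool.Agent.GroB
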