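import Pool.Agent.Lib_MP_58440c_pr.Elim

/-!
# Piece TPB: total positivity, homogeneous case

`tp_base`: induction on `n` (all `M`, `l`) with `ND_elim`. With `u = X`, `v = 1 - pX`, `u0 = a`,
`v0 = 1 - pa`, `d = l_{i+1} - l_i ≥ 1`, `c_i = (u0/v0)^d`,
`u^(l_{i+1}) v^(M-l_{i+1}) - c_i u^(l_i) v^(M-l_i)
  = (X - a) ∑_{k<d} v0^(-(d-k)) u0^(d-1-k) u^(l_i+k) v^(M-1-(l_i+k))`
because `u v0 - u0 v = X - a` and `(uv0)^d - (u0v)^d = (uv0-u0v) ∑ (uv0)^k (u0v)^(d-1-k)`.
-/

open Finset Polynomial

namespace Pool.Agent.GroB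

theorem tpb_key (p a : ℝ) (d : ℕ) :
    C ((1 - p * a) ^ d) * X ^ d - C (a ^ d) * (1 - C p * X) ^ d =
      (X - C a) * ∑ k ∈ range d, C ((1 - p * a) ^ k * a ^ (d - 1 - k)) *
        (X ^ k * (1 - C p * X) ^ (d - 1 - k)) := by
  have h := (Commute.all (C (1 - p * a) * X : ℝ[X]) (C a * (1 - C p * X))).mul_geom_sum₂ d
  have h1 : (C (1 - p * a) * X : ℝ[X]) - C a * (1 - C p * X) = X - C a := by
    simp only [C_sub, C_mul, C_1]; ring
  rw [h1] at h
  have h2 : (C ((1 - p * a) ^ d) * X ^ d - C (a ^ d) * (1 - C p * X) ^ d : ℝ[X]) =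
      (C (1 - p * a) * X) ^ d - (C a * (1 - C p * X)) ^ d := by
    simp only [mul_pow, C_pow]
  rw [h2, ← h]
  congr 1
  refine Finset.sum_congr rfl fun k _ => ?_
  simp only [mul_pow, C_mul, C_pow]
  ring

theorem tp_base (p : ℝ) (hp : 0 < p) (n M : ℕ) (l : Fin n → ℕ) (hl : StrictMono l)
    (hM : ∀ i, l i ≤ M) (x : ℕ → ℝ) (hx : PosPt p x) :
    0 < ND n (fun i => ph p (l i) (M - l i)) x := by
  induction n generalizing M x with
  | zero => simp
  | succ n ih =>
    set a := x 0 with ha
    have ha0 : 0 < a := (hx 0).1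
    have ha1 : 0 < 1 - p * a := by linarith [(hx 0).2]
    have hxc : x = cons a (fun j => x (j + 1)) := by
      funext j; cases j <;> rfl
    have hlt : ∀ i : Fin n, l i.castSucc < l i.succ := fun i => hl (Fin.castSucc_lt_succ)
    set D : Fin n → ℕ := fun i => l i.succ - l i.castSucc with hD
    set w : Fin n → ℕ → ℝ := fun i k =>
      ((1 - p * a) ^ (D i))⁻¹ * ((1 - p * a) ^ k * a ^ (D i - 1 - k)) with hw
    set g : Fin n → ℕ → ℝ[X] := fun i k =>
      ph p (l i.castSucc + k) (M - 1 - (l i.castSucc + k)) with hg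
    have hel := ND_elim n (fun i => ph p (l i) (M - l i)) a (fun j => x (j + 1))
      (fun i => ∑ k ∈ range (D i), C (w i k) * g i k)
      (fun i => a ^ (D i) * ((1 - p * a) ^ (D i))⁻¹) ?_
    · rw [hxc, hel, ND_sum]
      have e0 : (ph p (l 0) (M - l 0)).eval a = a ^ (l 0) * (1 - p * a) ^ (M - l 0) := by
        simp [ph]
      rw [e0]
      apply mul_pos (mul_pos (pow_pos ha0 _) (pow_pos ha1 _))
      apply Finset.sum_pos
      · intro k hk
        rw [Fintype.mem_piFinset] at hk
        apply mul_pos
        · apply Finset.prod_pos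
          intro i _
          exact mul_pos (inv_pos.2 (pow_pos ha1 _)) (mul_pos (pow_pos ha1 _) (pow_pos ha0 _))
        · have := ih (M - 1) (fun i => l i.castSucc + k i) ?_ ?_ (fun j => x (j + 1))
            (fun j => hx (j + 1))
          · exact this
          · cases n with
            | zero => exact fun a => a.elim0
            | succ n =>
              rw [Fin.strictMono_iff_lt_succ]
              intro i
              have hk1 := Finset.mem_range.1 (hk i.castSucc)
              simp only [hD] at hk1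
              have : l (i.castSucc.succ) ≤ l (i.succ.castSucc) := by
                rw [Fin.succ_castSucc]
              omega
          · intro i
            have hk1 := Finset.mem_range.1 (hk i)
            simp only [hD] at hk1
            have := hM i.succ
            show l i.castSucc + k i ≤ M - 1
            omega
      · refine ⟨fun _ => 0, ?_⟩
        rw [Fintype.mem_piFinset]
        intro i
        rw [Finset.mem_range]
        have := hlt i
        simp only [hD]; omega
    · intro i
      have h1 := hlt i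
      have h2 := hM i.succ
      obtain ⟨d, hd⟩ : ∃ d, l i.succ = l i.castSucc + d := ⟨l i.succ - l i.castSucc, by omega⟩
      have hDi : D i = d := by simp only [hD]; omega
      have hd0 : 0 < d := by omega
      set lo := l i.castSucc with hlo
      have hsum : ∑ k ∈ range (D i), C (w i k) * g i k =
          C (((1 - p * a) ^ d)⁻¹) * (X ^ lo * (1 - C p * X) ^ (M - (lo + d)) *
            ∑ k ∈ range d, C ((1 - p * a) ^ k * a ^ (d - 1 - k)) *
              (X ^ k * (1 - C p * X) ^ (d - 1 - k))) := by
        rw [hDi, Finset.mul_sum, Finset.mul_sum]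
        refine Finset.sum_congr rfl fun k hk => ?_
        have hk' : k < d := Finset.mem_range.1 hk
        simp only [hw, hg, ph, hDi, ← hlo]
        rw [show M - 1 - (lo + k) = (M - (lo + d)) + (d - 1 - k) by omega]
        rw [pow_add, pow_add, C_mul]
        ring
      rw [hsum, hDi, hd]
      have hk := tpb_key p a d
      simp only [ph]
      rw [show M - lo = (M - (lo + d)) + d by omega, pow_add X, pow_add (1 - C p * X)]
      have hinv : C (((1 - p * a) ^ d)⁻¹) * C ((1 - p * a) ^ d) = (1 : ℝ[X]) := by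
        rw [← C_mul, inv_mul_cancel₀ (pow_pos ha1 _).ne', C_1]
      rw [C_mul]
      linear_combination (C (((1 - p * a) ^ d)⁻¹) * X ^ lo * (1 - C p * X) ^ (M - (lo + d))) * hk
        - X ^ lo * (1 - C p * X) ^ (M - (lo + d)) * X ^ d * hinv

end Pool.Agent.GroB
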