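import Pool.Agent.Lib_MP_58440c_pr.Moments
import Pool.Agent.Lib_MP_58440c_pr.GDeriv

/-!
# Piece TYP1: expectations with respect to a multiplicative system

`c` = coefficients of `prodF Φ (n+1)`, so `M l = c l * G p (n+1) l one` is a probability. For
`z ∈ (0,1]`: `∑' c l * G p (n+1) l (cons z one) = Φ z` (`IsCoef` at `cons z one`; `Φ 1 = 1`). Now
`G p (n+1) l (cons z one) = (GP p n l one).eval z = ∑_k coeff_k z^k`, nonnegative coefficients; Tonelli
and `ps_unique` (piece PS, `r = 1`): `∑' l, c l * (GP p n l one).coeff k = φ k`. Then (Tonelli again)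
`∑' l, c l * T p n l one = ∑' l, c l ∑_k k coeff_k = ∑' k, k φ k` (`T_eq`), and
`∑' l, c l * T2 p n l one = ∑' k, k (k-1) φ k`.
(`Summable fun k => k² φ k` gives the convergence.)
-/

open Finset Polynomial Filter Topology

namespace Pool.Agent.GroB

open MomAux in
theorem exp_T (p : ℝ) (hp0 : 0 < p) (hp1 : p < 1) (Φ : ℝ → ℝ) (hΦ1 : Φ 1 = 1) (n : ℕ)
    (c : (Fin (n + 1) → ℕ) → ℝ) (hc : IsCoef p (n + 1) (prodF Φ (n + 1)) c) (φ : ℕ → ℝ)
    (hφ : ∀ k, 0 ≤ φ k) (hsum : ∀ z, 0 < z → z ≤ 1 → HasSum (fun k => φ k * z ^ k) (Φ z))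
    (h2 : Summable fun k : ℕ => (k : ℝ) ^ 2 * φ k) :
    HasSum (fun l => c l * T p n l one) (∑' k : ℕ, (k : ℝ) * φ k) ∧
      HasSum (fun l => c l * T2 p n l one) (∑' k : ℕ, (k : ℝ) * (k - 1) * φ k) := by
  obtain ⟨hc0, -, hs⟩ := hc
  have hP : PosPt p one := unitSeq_one.posPt hp0 hp1
  have hkk : ∀ k : ℕ, 0 ≤ (k : ℝ) * (k - 1) := by
    intro k
    cases k with
    | zero => simp
    | succ k => push_cast; simp; positivity
  have hF : ∀ z, 0 < z → z ≤ 1 → HasSum (fun l => c l * (GP p n l one).eval z) (Φ z) := by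
    intro z hz hz1
    have h1 := hs (cons z one) (unitSeq_one.cons hz hz1)
    rw [prodF_cons, prodF_one Φ hΦ1, mul_one] at h1
    refine h1.congr_fun fun l => ?_
    rw [GP_eval]
  have hcoef := coef_sum c hc0 (fun l => GP p n l one) (fun l k => GP_coeff_nonneg p n l one hP k) _
    hF φ hsum
  have hs1 : Summable (fun k : ℕ => (k : ℝ) * φ k) := by
    refine Summable.of_nonneg_of_le (fun k => mul_nonneg (Nat.cast_nonneg k) (hφ k))
      (fun k => ?_) h2
    apply mul_le_mul_of_nonneg_right _ (hφ k)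
    have : k ≤ k ^ 2 := Nat.le_self_pow (by norm_num) k
    exact_mod_cast this
  have hs2 : Summable (fun k : ℕ => (k : ℝ) * (k - 1) * φ k) := by
    refine (h2.sub hs1).congr fun k => ?_
    ring
  constructor
  · refine tonelli (fun (k : ℕ) (l : Fin (n + 1) → ℕ) => c l * ((GP p n l one).coeff k * (k : ℝ)))
      (fun k l => mul_nonneg (hc0 l) (mul_nonneg (GP_coeff_nonneg p n l one hP k)
        (Nat.cast_nonneg k))) (fun k => (k : ℝ) * φ k) _ (fun k => ?_) (fun l => ?_) _ hs1.hasSum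
    · refine ((hcoef k).mul_left (k : ℝ)).congr_fun fun l => ?_
      ring
    · rw [T_eq p hp0 hp1 n l one hP]
      exact (hasSum_d1 _).mul_left (c l)
  · refine tonelli (fun (k : ℕ) (l : Fin (n + 1) → ℕ) => c l * ((GP p n l one).coeff k *
      ((k : ℝ) * (k - 1))))
      (fun k l => mul_nonneg (hc0 l) (mul_nonneg (GP_coeff_nonneg p n l one hP k)
        (hkk k))) (fun k => (k : ℝ) * (k - 1) * φ k) _ (fun k => ?_) (fun l => ?_) _ hs2.hasSum
    · refine ((hcoef k).mul_left ((k : ℝ) * (k - 1))).congr_fun fun l => ?_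
      ring
    · exact (hasSum_d2 _).mul_left (c l)

end Pool.Agent.GroB
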