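import Pool.Agent.Lib_MP_58440c_pr.Typ2

/-!
# Piece TYP3: typical partitions

`M l = c (n+2) l * G p (n+2) l one`, `A l z = G p (n+2) l (cons z one)/G p (n+2) l one`, `φ` from `moments`.
`B1 = ∑ k φ k ≤ B` (divide `1 - Φ z = ∑ φ k (1 - z^k) ≤ B (1-z)` by `1 - z`, `z → 1`: every finite partial
sum), `B2 = ∑ k (k-1) φ k`; `∑' M (T/G) = B1`, `∑' M (T2/G) = B2` (`exp_T`).
Let `t_0, t_1, …` enumerate the rationals in `(0,1)`. For every `j` choose (by `concentrate`) `n_j ≥ j`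
with `∑_{i ≤ j} ∑' M (A t_i - Φ t_i)² ≤ 1/(j+1)`. The `M`-mean of
`(j+1) ∑_{i≤j} (A t_i - Φ t_i)² + ((T2+T)/G)/(1+B2+B1) + (T/G)/(1+B1)` is `≤ 3`, so there is an
antitone `l_j` (with `M l_j > 0`) for which it is `≤ 3`
(otherwise `∑' M (3 - X) < 0`). Then `∑_{i≤j} (A t_i - Φ t_i)² ≤ 3/(j+1)`, `T/G ≤ 3(1+B1)`,
`(T2+T)/G ≤ 3(1+B2+B1) =: C`.
So `A_{l_j}(t_i) → Φ(t_i)` for every `i`; as `A` is monotone in `z` (`G_mono_cons`) and `Φ` is continuous
and monotone on `(0,1]`, `A_{l_j}(z) → Φ z` for all `z ∈ (0,1)`; at `z = 1`, `cons 1 one = one`.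
-/

open Finset Polynomial Filter Topology

namespace Pool.Agent.GroB

/-- A point where a function is at most its mean. -/
private lemma exists_le_mean {ι : Type*} (M X : ι → ℝ) (hM : ∀ l, 0 ≤ M l) (hM1 : HasSum M 1)
    (E K : ℝ) (hX : HasSum (fun l => M l * X l) E) (hE : E ≤ K) : ∃ l, 0 < M l ∧ X l ≤ K := by
  by_contra hcon
  push Not at hcon
  have h1 : ∃ l, M l ≠ 0 := by
    by_contra h0
    push Not at h0
    have h2 : M = fun _ => 0 := funext h0
    rw [h2] at hM1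
    have := hM1.unique hasSum_zero
    norm_num at this
  obtain ⟨l₀, hl₀⟩ := h1
  have hl : 0 < M l₀ := lt_of_le_of_ne (hM l₀) (Ne.symm hl₀)
  have h3 : HasSum (fun l => M l * X l - M l * K) (E - 1 * K) := hX.sub (hM1.mul_right K)
  have h4 : M l₀ * X l₀ - M l₀ * K ≤ E - 1 * K := by
    refine le_hasSum h3 l₀ fun l _ => ?_
    by_cases h5 : 0 < M l
    · have := hcon l h5
      nlinarith
    · have h6 : M l = 0 := le_antisymm (not_lt.1 h5) (hM l)
      rw [h6]
      simp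
  have h7 := hcon l₀ hl
  nlinarith

/-- The first moment is at most `B`. -/
private lemma first_moment (Φ : ℝ → ℝ) (hΦ1 : Φ 1 = 1) (B : ℝ)
    (hB : ∀ z, 0 < z → z ≤ 1 → 1 - Φ z ≤ B * (1 - z)) (φ : ℕ → ℝ) (hφ : ∀ k, 0 ≤ φ k)
    (hsum : ∀ z, 0 < z → z ≤ 1 → HasSum (fun k => φ k * z ^ k) (Φ z)) :
    ∑' k : ℕ, (k : ℝ) * φ k ≤ B := by
  have hpart : ∀ K : ℕ, ∑ k ∈ range K, (k : ℝ) * φ k ≤ B := by
    intro K
    have h1 : ∀ z : ℝ, 0 < z → z < 1 →
        ∑ k ∈ range K, φ k * ∑ i ∈ range k, z ^ i ≤ B := by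
      intro z hz hz1
      have h2 : HasSum (fun k => φ k * (1 : ℝ) ^ k - φ k * z ^ k) (Φ 1 - Φ z) :=
        (hsum 1 one_pos le_rfl).sub (hsum z hz hz1.le)
      have h3 : ∑ k ∈ range K, (φ k * (1 : ℝ) ^ k - φ k * z ^ k) ≤ Φ 1 - Φ z := by
        refine sum_le_hasSum _ (fun k _ => ?_) h2
        have h4 : z ^ k ≤ 1 := pow_le_one₀ hz.le hz1.le
        have h5 := hφ k
        rw [one_pow]
        nlinarith
      have h6 : ∑ k ∈ range K, (φ k * (1 : ℝ) ^ k - φ k * z ^ k) =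
          (1 - z) * ∑ k ∈ range K, φ k * ∑ i ∈ range k, z ^ i := by
        rw [mul_sum]
        refine sum_congr rfl fun k _ => ?_
        have h7 := mul_geom_sum z k
        have h8 : (1 : ℝ) - z ^ k = (1 - z) * ∑ i ∈ range k, z ^ i := by linarith
        calc φ k * (1 : ℝ) ^ k - φ k * z ^ k = φ k * (1 - z ^ k) := by rw [one_pow]; ring
          _ = φ k * ((1 - z) * ∑ i ∈ range k, z ^ i) := by rw [h8]
          _ = _ := by ring
      have h9 := hB z hz hz1.le
      rw [h6, hΦ1] at h3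
      have h10 : 0 < 1 - z := by linarith
      have h11 : (1 - z) * ∑ k ∈ range K, φ k * ∑ i ∈ range k, z ^ i ≤ (1 - z) * B := by
        linarith
      exact le_of_mul_le_mul_left h11 h10
    have hcont : Continuous fun z : ℝ => ∑ k ∈ range K, φ k * ∑ i ∈ range k, z ^ i := by
      fun_prop
    have h12 : Tendsto (fun z : ℝ => ∑ k ∈ range K, φ k * ∑ i ∈ range k, z ^ i) (𝓝[<] 1)
        (𝓝 (∑ k ∈ range K, φ k * ∑ i ∈ range k, (1 : ℝ) ^ i)) :=
      (hcont.tendsto 1).mono_left nhdsWithin_le_nhds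
    have h13 : ∑ k ∈ range K, φ k * ∑ i ∈ range k, (1 : ℝ) ^ i ≤ B := by
      refine le_of_tendsto h12 ?_
      have h14 : Set.Ioo (0 : ℝ) 1 ∈ 𝓝[<] (1 : ℝ) := Ioo_mem_nhdsLT one_pos
      filter_upwards [h14] with z hz
      exact h1 z hz.1 hz.2
    refine le_trans (le_of_eq ?_) h13
    refine sum_congr rfl fun k _ => ?_
    simp [mul_comm]
  exact Real.tsum_le_of_sum_range_le (fun k => mul_nonneg (by positivity) (hφ k)) hpart

/-- The generating function is continuous in the open interval. -/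
private lemma phi_cont (Φ : ℝ → ℝ) (φ : ℕ → ℝ) (hφ : ∀ k, 0 ≤ φ k)
    (hsum : ∀ z, 0 < z → z ≤ 1 → HasSum (fun k => φ k * z ^ k) (Φ z)) {z : ℝ} (hz : 0 < z)
    (hz1 : z < 1) : ContinuousAt Φ z := by
  have h1 : Summable φ := by
    have := (hsum 1 one_pos le_rfl).summable
    simpa using this
  have h2 : ContinuousOn (fun w : ℝ => ∑' k, φ k * w ^ k) (Set.Icc 0 1) := by
    refine continuousOn_tsum (fun k => ?_) h1 fun k w hw => ?_
    · fun_prop
    · rw [Real.norm_eq_abs, abs_mul, abs_of_nonneg (hφ k), abs_of_nonneg (pow_nonneg hw.1 k)]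
      have := pow_le_one₀ (n := k) hw.1 hw.2
      have := hφ k
      nlinarith
  have h3 : ContinuousAt (fun w : ℝ => ∑' k, φ k * w ^ k) z :=
    h2.continuousAt (Icc_mem_nhds hz hz1)
  refine h3.congr ?_
  filter_upwards [Ioo_mem_nhds hz hz1] with w hw
  exact (hsum w hw.1 hw.2.le).tsum_eq

/-- The quotient `A_l(z)`. -/
private noncomputable def AA (p : ℝ) (n : ℕ) (l : Fin (n + 2) → ℕ) (z : ℝ) : ℝ :=
  G p (n + 2) l (cons z one) / G p (n + 2) l one

private lemma AA_mono (p : ℝ) (hp0 : 0 < p) (hp1 : p < 1) (n : ℕ) (l : Fin (n + 2) → ℕ)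
    {z z' : ℝ} (hz : 0 ≤ z) (hzz : z ≤ z') : AA p n l z ≤ AA p n l z' := by
  have hone : PosPt p one := unitSeq_one.posPt hp0 hp1
  unfold AA
  exact div_le_div_of_nonneg_right (G_mono_cons p (n + 2) l one hone hz hzz)
    (G_nonneg p (n + 2) l one hone)

private lemma AA_nonneg (p : ℝ) (hp0 : 0 < p) (hp1 : p < 1) (n : ℕ) (l : Fin (n + 2) → ℕ)
    {z : ℝ} (hz : 0 < z) (hz1 : z ≤ 1) : 0 ≤ AA p n l z := by
  have hone : PosPt p one := unitSeq_one.posPt hp0 hp1
  unfold AA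
  refine div_nonneg (G_nonneg p (n + 2) l _ ?_) (G_nonneg p (n + 2) l one hone)
  exact (unitSeq_one.cons hz hz1).posPt hp0 hp1

private lemma AA_le (p : ℝ) (hp0 : 0 < p) (hp1 : p < 1) (n : ℕ) (l : Fin (n + 2) → ℕ)
    {z : ℝ} (hz : 0 < z) (hz1 : z ≤ 1) : AA p n l z ≤ 1 := by
  have hone : PosPt p one := unitSeq_one.posPt hp0 hp1
  refine (AA_mono p hp0 hp1 n l hz.le hz1).trans ?_
  unfold AA
  rw [cons_one_one]
  exact div_self_le_one _

private lemma AA_one (p : ℝ) (hp0 : 0 < p) (hp1 : p < 1) (n : ℕ) (l : Fin (n + 2) → ℕ)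
    (hl : Antitone l) : AA p n l 1 = 1 := by
  have hone : PosPt p one := unitSeq_one.posPt hp0 hp1
  unfold AA
  rw [cons_one_one]
  exact div_self (G_pos p (n + 2) l hl one hone).ne'

/-- One typical partition. -/
private lemma one_typical (p : ℝ) (hp0 : 0 < p) (hp1 : p < 1) (Φ : ℝ → ℝ) (hΦ1 : Φ 1 = 1)
    (n : ℕ) (c : (Fin (n + 2) → ℕ) → ℝ) (hc : IsCoef p (n + 2) (prodF Φ (n + 2)) c)
    (φ : ℕ → ℝ) (hφ : ∀ k, 0 ≤ φ k)
    (hsum : ∀ z, 0 < z → z ≤ 1 → HasSum (fun k => φ k * z ^ k) (Φ z))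
    (h2 : Summable fun k : ℕ => (k : ℝ) ^ 2 * φ k) (t : ℕ → ℝ) (ht : ∀ i, 0 < t i ∧ t i < 1)
    (j : ℕ)
    (hj : ∑ i ∈ range (j + 1), ∑' l, c l * G p (n + 2) l one * (AA p n l (t i) - Φ (t i)) ^ 2 ≤
      1 / ((j : ℝ) + 1)) :
    ∃ l : Fin (n + 2) → ℕ, Antitone l ∧
      T p (n + 1) l one / G p (n + 2) l one ≤ 3 * (1 + ∑' k : ℕ, (k : ℝ) * φ k) ∧
      (T2 p (n + 1) l one + T p (n + 1) l one) / G p (n + 2) l one ≤
        3 * (1 + ∑' k : ℕ, (k : ℝ) * (k - 1) * φ k + ∑' k : ℕ, (k : ℝ) * φ k) ∧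
      ∀ i ≤ j, (AA p n l (t i) - Φ (t i)) ^ 2 ≤ 3 / ((j : ℝ) + 1) := by
  have hone : PosPt p one := unitSeq_one.posPt hp0 hp1
  obtain ⟨hT, hT2⟩ := exp_T p hp0 hp1 Φ hΦ1 (n + 1) c hc φ hφ hsum h2
  set B1 : ℝ := ∑' k : ℕ, (k : ℝ) * φ k with hB1
  set B2 : ℝ := ∑' k : ℕ, (k : ℝ) * (k - 1) * φ k with hB2
  have hB1n : 0 ≤ B1 := tsum_nonneg fun k => mul_nonneg (by positivity) (hφ k)
  have hB2n : 0 ≤ B2 := by
    refine tsum_nonneg fun k => mul_nonneg ?_ (hφ k)
    rcases Nat.eq_zero_or_pos k with rfl | hk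
    · simp
    · have : (1 : ℝ) ≤ k := by exact_mod_cast hk
      exact mul_nonneg (by positivity) (by linarith)
  have hc0 := hc.1
  have hcA : ∀ l, 0 < c l → Antitone l := by
    intro l hl
    by_contra hcon
    rw [hc.2.1 l hcon] at hl
    exact lt_irrefl _ hl
  have hMn : ∀ l, 0 ≤ c l * G p (n + 2) l one := fun l =>
    mul_nonneg (hc0 l) (G_nonneg p (n + 2) l one hone)
  have hM1 : HasSum (fun l => c l * G p (n + 2) l one) 1 := by
    have h3 := hc.2.2 one unitSeq_one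
    have h4 : prodF Φ (n + 2) one = 1 := by
      unfold prodF
      simp [hΦ1]
    rwa [h4] at h3
  -- division by `G`
  have hdiv : ∀ (U : (Fin (n + 2) → ℕ) → ℝ) l,
      c l * G p (n + 2) l one * (U l / G p (n + 2) l one) = c l * U l := by
    intro U l
    by_cases hl : Antitone l
    · have := (G_pos p (n + 2) l hl one hone).ne'
      field_simp
    · rw [hc.2.1 l hl]
      ring
  have hT' : HasSum (fun l => c l * G p (n + 2) l one *
      (T p (n + 1) l one / G p (n + 2) l one)) B1 := by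
    refine hT.congr_fun ?_ 
    intro l
    exact hdiv (fun l => T p (n + 1) l one) l
  have hTT' : HasSum (fun l => c l * G p (n + 2) l one *
      ((T2 p (n + 1) l one + T p (n + 1) l one) / G p (n + 2) l one)) (B2 + B1) := by
    have h5 := hT2.add hT
    refine h5.congr_fun ?_
    intro l
    rw [hdiv (fun l => T2 p (n + 1) l one + T p (n + 1) l one) l]
    ring
  -- the squares
  have hS : ∀ i, HasSum (fun l => c l * G p (n + 2) l one * (AA p n l (t i) - Φ (t i)) ^ 2)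
      (∑' l, c l * G p (n + 2) l one * (AA p n l (t i) - Φ (t i)) ^ 2) := by
    intro i
    refine Summable.hasSum ?_
    refine Summable.of_nonneg_of_le (fun l => mul_nonneg (hMn l) (sq_nonneg _)) (fun l => ?_)
      (hM1.summable.mul_right ((1 + |Φ (t i)|) ^ 2))
    refine mul_le_mul_of_nonneg_left ?_ (hMn l)
    have h6 := AA_nonneg p hp0 hp1 n l (ht i).1 (ht i).2.le
    have h7 := AA_le p hp0 hp1 n l (ht i).1 (ht i).2.le
    rw [← sq_abs]
    refine pow_le_pow_left₀ (abs_nonneg _) ?_ 2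
    calc |AA p n l (t i) - Φ (t i)| ≤ |AA p n l (t i)| + |Φ (t i)| := abs_sub _ _
      _ ≤ 1 + |Φ (t i)| := by
        rw [abs_of_nonneg h6]
        linarith
  have hS2 : HasSum (fun l => c l * G p (n + 2) l one *
      (((j : ℝ) + 1) * ∑ i ∈ range (j + 1), (AA p n l (t i) - Φ (t i)) ^ 2))
      (((j : ℝ) + 1) * ∑ i ∈ range (j + 1),
        ∑' l, c l * G p (n + 2) l one * (AA p n l (t i) - Φ (t i)) ^ 2) := by
    have h8 := (hasSum_sum fun i (_ : i ∈ range (j + 1)) => hS i).mul_left ((j : ℝ) + 1)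
    refine h8.congr_fun ?_
    intro l
    rw [mul_sum, mul_sum, mul_sum]
    refine sum_congr rfl fun i _ => ?_
    ring
  have hX := (hS2.add (hTT'.mul_left (1 / (1 + B2 + B1)))).add (hT'.mul_left (1 / (1 + B1)))
  have hX' : HasSum (fun l => c l * G p (n + 2) l one *
      (((j : ℝ) + 1) * ∑ i ∈ range (j + 1), (AA p n l (t i) - Φ (t i)) ^ 2 +
        1 / (1 + B2 + B1) * ((T2 p (n + 1) l one + T p (n + 1) l one) / G p (n + 2) l one) +
        1 / (1 + B1) * (T p (n + 1) l one / G p (n + 2) l one)))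
      (((j : ℝ) + 1) * ∑ i ∈ range (j + 1),
        ∑' l, c l * G p (n + 2) l one * (AA p n l (t i) - Φ (t i)) ^ 2 +
        1 / (1 + B2 + B1) * (B2 + B1) + 1 / (1 + B1) * B1) := by
    refine hX.congr_fun ?_
    intro l
    ring
  have hj1 : (0 : ℝ) < (j : ℝ) + 1 := by positivity
  have hE : ((j : ℝ) + 1) * ∑ i ∈ range (j + 1),
        ∑' l, c l * G p (n + 2) l one * (AA p n l (t i) - Φ (t i)) ^ 2 +
        1 / (1 + B2 + B1) * (B2 + B1) + 1 / (1 + B1) * B1 ≤ 3 := by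
    have g1 : ((j : ℝ) + 1) * ∑ i ∈ range (j + 1),
        ∑' l, c l * G p (n + 2) l one * (AA p n l (t i) - Φ (t i)) ^ 2 ≤ 1 := by
      calc _ ≤ ((j : ℝ) + 1) * (1 / ((j : ℝ) + 1)) := mul_le_mul_of_nonneg_left hj hj1.le
        _ = 1 := by field_simp
    have g2 : 1 / (1 + B2 + B1) * (B2 + B1) ≤ 1 := by
      rw [one_div_mul_eq_div, div_le_one (by linarith)]
      linarith
    have g3 : 1 / (1 + B1) * B1 ≤ 1 := by
      rw [one_div_mul_eq_div, div_le_one (by linarith)]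
      linarith
    linarith
  obtain ⟨l, hlM, hlX⟩ := exists_le_mean _ _ hMn hM1 _ 3 hX' hE
  have hcl : 0 < c l := by
    rcases (hc0 l).lt_or_eq with h | h
    · exact h
    · rw [← h, zero_mul] at hlM
      exact absurd hlM (lt_irrefl _)
  have hl := hcA l hcl
  have hG := G_pos p (n + 2) l hl one hone
  have n1 : 0 ≤ ∑ i ∈ range (j + 1), (AA p n l (t i) - Φ (t i)) ^ 2 :=
    sum_nonneg fun _ _ => sq_nonneg _
  have n2 : 0 ≤ T p (n + 1) l one / G p (n + 2) l one :=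
    div_nonneg (T_nonneg p hp0 hp1 (n + 1) l one hone) hG.le
  have n3 : 0 ≤ (T2 p (n + 1) l one + T p (n + 1) l one) / G p (n + 2) l one :=
    div_nonneg (add_nonneg (T2_nonneg p (n + 1) l one hone)
      (T_nonneg p hp0 hp1 (n + 1) l one hone)) hG.le
  have n4 : 0 ≤ ((j : ℝ) + 1) * ∑ i ∈ range (j + 1), (AA p n l (t i) - Φ (t i)) ^ 2 :=
    mul_nonneg hj1.le n1
  have n5 : 0 ≤ 1 / (1 + B2 + B1) *
      ((T2 p (n + 1) l one + T p (n + 1) l one) / G p (n + 2) l one) :=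
    mul_nonneg (by positivity) n3
  have n6 : 0 ≤ 1 / (1 + B1) * (T p (n + 1) l one / G p (n + 2) l one) :=
    mul_nonneg (by positivity) n2
  refine ⟨l, hl, ?_, ?_, ?_⟩
  · have h9 : 1 / (1 + B1) * (T p (n + 1) l one / G p (n + 2) l one) ≤ 3 := by linarith
    rw [one_div_mul_eq_div, div_le_iff₀ (by linarith)] at h9
    exact h9
  · have h9 : 1 / (1 + B2 + B1) *
      ((T2 p (n + 1) l one + T p (n + 1) l one) / G p (n + 2) l one) ≤ 3 := by linarith
    rw [one_div_mul_eq_div, div_le_iff₀ (by linarith)] at h9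
    exact h9
  · intro i hi
    have h9 : ((j : ℝ) + 1) * ∑ i ∈ range (j + 1), (AA p n l (t i) - Φ (t i)) ^ 2 ≤ 3 := by
      linarith
    have h10 : (AA p n l (t i) - Φ (t i)) ^ 2 ≤
        ∑ i ∈ range (j + 1), (AA p n l (t i) - Φ (t i)) ^ 2 :=
      single_le_sum (f := fun i => (AA p n l (t i) - Φ (t i)) ^ 2) (fun _ _ => sq_nonneg _)
        (mem_range.2 (Nat.lt_succ_of_le hi))
    rw [le_div_iff₀ hj1]
    nlinarith

theorem typical (p : ℝ) (hp0 : 0 < p) (hp1 : p < 1) (Φ : ℝ → ℝ) (hΦ : PP p Φ) (B : ℝ)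
    (hB : ∀ z, 0 < z → z ≤ 1 → 1 - Φ z ≤ B * (1 - z)) :
    ∃ (C : ℝ) (n : ℕ → ℕ) (l : ∀ j, Fin (n j + 2) → ℕ), Tendsto n atTop atTop ∧
      (∀ j, Antitone (l j)) ∧
      (∀ j, T p (n j + 1) (l j) one / G p (n j + 2) (l j) one ≤ 3 * (1 + B)) ∧
      (∀ j, (T2 p (n j + 1) (l j) one + T p (n j + 1) (l j) one) /
        G p (n j + 2) (l j) one ≤ C) ∧
      ∀ z, 0 < z → z ≤ 1 →
        Tendsto (fun j => G p (n j + 2) (l j) (cons z one) / G p (n j + 2) (l j) one) atTop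
          (𝓝 (Φ z)) := by
  obtain ⟨φ, hφ, hsum, h2⟩ := moments p hp0 hp1 Φ hΦ
  obtain ⟨hΦ1, hpos⟩ := hΦ
  choose c hc using hpos
  have hB1 := first_moment Φ hΦ1 B hB φ hφ hsum
  -- the rationals in `(0, 1)`
  have : Nonempty {q : ℚ // 0 < q ∧ q < 1} := ⟨⟨1 / 2, by norm_num, by norm_num⟩⟩
  obtain ⟨f, hf⟩ := exists_surjective_nat {q : ℚ // 0 < q ∧ q < 1}
  set t : ℕ → ℝ := fun i => ((f i).1 : ℝ) with ht
  have ht01 : ∀ i, 0 < t i ∧ t i < 1 := fun i =>
    ⟨show (0 : ℝ) < ((f i).1 : ℝ) from Rat.cast_pos.2 (f i).2.1,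
      show ((f i).1 : ℝ) < 1 from by exact_mod_cast (f i).2.2⟩
  -- the levels
  have hn : ∀ j : ℕ, ∃ n : ℕ, j ≤ n ∧
      ∑ i ∈ range (j + 1), ∑' l, c (n + 2) l * G p (n + 2) l one *
        (AA p n l (t i) - Φ (t i)) ^ 2 ≤ 1 / ((j : ℝ) + 1) := by
    intro j
    have h3 : Tendsto (fun n => ∑ i ∈ range (j + 1), ∑' l, c (n + 2) l * G p (n + 2) l one *
        (AA p n l (t i) - Φ (t i)) ^ 2) atTop (𝓝 (∑ i ∈ range (j + 1), (0 : ℝ))) :=
      tendsto_finsetSum _ fun i _ =>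
        concentrate p hp0 hp1 Φ hΦ1 c hc φ hφ hsum h2 (t i) (ht01 i).1 (ht01 i).2
    rw [sum_const_zero] at h3
    have h4 : (0 : ℝ) < 1 / ((j : ℝ) + 1) := by positivity
    obtain ⟨n, h5, h6⟩ := ((h3.eventually_le_const h4).and (eventually_ge_atTop j)).exists
    exact ⟨n, h6, h5⟩
  choose n hnj hns using hn
  have hl := fun j => one_typical p hp0 hp1 Φ hΦ1 (n j) (c (n j + 2)) (hc (n j + 2)) φ hφ hsum h2
    t ht01 j (hns j)
  choose l hlA hlT hlTT hlS using hl
  refine ⟨3 * (1 + ∑' k : ℕ, (k : ℝ) * (k - 1) * φ k + ∑' k : ℕ, (k : ℝ) * φ k), n, l, ?_, hlA,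
    ?_, hlTT, ?_⟩
  · exact tendsto_atTop_mono hnj tendsto_id
  · intro j
    refine (hlT j).trans ?_
    linarith
  · intro z hz hz1
    show Tendsto (fun j => AA p (n j) (l j) z) atTop (𝓝 (Φ z))
    rcases hz1.lt_or_eq with hz1 | rfl
    · -- convergence at the rationals
      have hrat : ∀ i, Tendsto (fun j => AA p (n j) (l j) (t i)) atTop (𝓝 (Φ (t i))) := by
        intro i
        have h3 : Tendsto (fun j => (AA p (n j) (l j) (t i) - Φ (t i)) ^ 2) atTop (𝓝 0) := by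
          have h4 : Tendsto (fun j : ℕ => 3 / ((j : ℝ) + 1)) atTop (𝓝 0) :=
            tendsto_const_nhds.div_atTop
              (tendsto_atTop_add_const_right _ _ tendsto_natCast_atTop_atTop)
          refine squeeze_zero' (Eventually.of_forall fun _ => sq_nonneg _) ?_ h4
          filter_upwards [eventually_ge_atTop i] with j hj
          exact hlS j i hj
        have h5 : Tendsto (fun j => |AA p (n j) (l j) (t i) - Φ (t i)|) atTop (𝓝 0) := by
          have h6 := (Real.continuous_sqrt.tendsto 0).comp h3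
          rw [Real.sqrt_zero] at h6
          refine h6.congr fun j => ?_
          exact Real.sqrt_sq_eq_abs _
        have h7 := (tendsto_zero_iff_abs_tendsto_zero _).2 h5
        have h8 := h7.add_const (Φ (t i))
        rw [zero_add] at h8
        refine h8.congr fun j => ?_
        ring
      have hcont := phi_cont Φ φ hφ hsum hz hz1
      rw [tendsto_order]
      constructor
      · intro a ha
        have h3 : ∀ᶠ w in 𝓝 z, a < Φ w := hcont.eventually (lt_mem_nhds ha)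
        obtain ⟨δ, hδ, h4⟩ := Metric.eventually_nhds_iff.1 h3
        obtain ⟨q, hq1, hq2⟩ := exists_rat_btwn (max_lt (show z - δ < z by linarith) hz)
        have hq0 : (0 : ℝ) < q := (le_max_right _ _).trans_lt hq1
        have hqδ : z - δ < q := (le_max_left _ _).trans_lt hq1
        obtain ⟨i, hi⟩ := hf ⟨q, by exact_mod_cast hq0, by exact_mod_cast hq2.trans hz1⟩
        have hti : t i = q := by
          show ((f i).1 : ℝ) = q
          rw [hi]
        have h5 : a < Φ (t i) := by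
          apply h4
          rw [hti, Real.dist_eq, abs_lt]
          constructor <;> linarith
        filter_upwards [(hrat i).eventually (lt_mem_nhds h5)] with j hj
        refine hj.trans_le (AA_mono p hp0 hp1 (n j) (l j) (ht01 i).1.le ?_)
        rw [hti]
        exact hq2.le
      · intro a ha
        have h3 : ∀ᶠ w in 𝓝 z, Φ w < a := hcont.eventually (gt_mem_nhds ha)
        obtain ⟨δ, hδ, h4⟩ := Metric.eventually_nhds_iff.1 h3
        obtain ⟨q, hq1, hq2⟩ := exists_rat_btwn (lt_min (show z < z + δ by linarith) hz1)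
        have hq01 : (q : ℝ) < 1 := hq2.trans_le (min_le_right _ _)
        have hqδ : (q : ℝ) < z + δ := hq2.trans_le (min_le_left _ _)
        have hq0 : (0 : ℝ) < q := hz.trans hq1
        obtain ⟨i, hi⟩ := hf ⟨q, by exact_mod_cast hq0, by exact_mod_cast hq01⟩
        have hti : t i = q := by
          show ((f i).1 : ℝ) = q
          rw [hi]
        have h5 : Φ (t i) < a := by
          apply h4
          rw [hti, Real.dist_eq, abs_lt]
          constructor <;> linarith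
        filter_upwards [(hrat i).eventually (gt_mem_nhds h5)] with j hj
        refine lt_of_le_of_lt (AA_mono p hp0 hp1 (n j) (l j) hz.le ?_) hj
        rw [hti]
        exact hq1.le
    · rw [hΦ1]
      refine tendsto_const_nhds.congr fun j => ?_
      exact (AA_one p hp0 hp1 (n j) (l j) (hlA j)).symm

end Pool.Agent.GroB
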