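import Pool.Agent.Lib_MP_58440c_pr.GDeriv

/-!
# Piece Y3: uniform second moment bound with two points below one

`n = 2`: `l = (a ≥ b ≥ c)`, points `(v, w, w')`, `θ = max w w' < 1`.
`T2 = ∑_{m ≺ l} ∑_{k ∈ [m_1, m_0]} k (k-1) (weights) ≤ ∑_m ∑_k k² θ^(a+b+c-k)`: the weights
`(1-pw)^r ≤ 1`, and the exponents of `w`, `w'` add up to `a+b+c-k`. For given `k ≤ a` the number of
pairs `(m_0, m_1)` with `m_0 ≥ k` is at most `(a-k+1)(b-c+1)`. So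
`T2 ≤ (b-c+1) a² θ^(b+c) ∑_j (j+1) θ^j = (b-c+1) a² θ^(b+c)/(1-θ)²`. And
`G p 3 l one ≥ (1-p)^3 (a-b+1)(b-c+1)(a-c+2)/2` (number of `(m,k)`, each of weight
`≥ (1-p)^3`), `a² ≤ (a-b+1)(b+1)(a-c+2)(c+1)`, `(b+1)θ^b ≤ 1/(1-θ)`. So the quotient is at most
`2 (1-p)^(-3) (1-θ)^(-4)`.
-/

open Finset Polynomial

namespace Pool.Agent.GroB

theorem Y3_sum3 (l : Fin 3 → ℕ) (F : ℕ → ℕ → ℝ) :
    ∑ m ∈ below l, F (m 0) (m 1) = ∑ i ∈ Icc (l 1) (l 0), ∑ j ∈ Icc (l 2) (l 1), F i j := by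
  rw [← Finset.sum_product']
  refine Finset.sum_nbij' (fun m => (m 0, m 1)) (fun q => ![q.1, q.2]) ?_ ?_ ?_ ?_ ?_
  · intro m hm
    rw [mem_below] at hm
    have h0 := hm 0
    have h1 := hm 1
    simp only [Finset.mem_product, Finset.mem_Icc]
    exact ⟨h0, h1⟩
  · rintro ⟨i, j⟩ hq
    simp only [Finset.mem_product, Finset.mem_Icc] at hq
    rw [mem_below]
    intro k
    fin_cases k
    · exact hq.1
    · exact hq.2
  · intro m hm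
    funext k
    fin_cases k <;> rfl
  · rintro ⟨i, j⟩ hq
    rfl
  · intro m hm
    rfl

theorem Y3_sum2 (m : Fin 2 → ℕ) (F : ℕ → ℝ) :
    ∑ k ∈ below m, F (k 0) = ∑ i ∈ Icc (m 1) (m 0), F i := by
  refine Finset.sum_nbij' (fun k => k 0) (fun i => ![i]) ?_ ?_ ?_ ?_ ?_
  · intro k hk
    rw [mem_below] at hk
    have h0 := hk 0
    simp only [Finset.mem_Icc]
    exact h0
  · intro i hi
    rw [Finset.mem_Icc] at hi
    rw [mem_below]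
    intro k
    fin_cases k
    exact hi
  · intro k hk
    funext i
    fin_cases i
    rfl
  · intro i hi
    rfl
  · intro k hk
    rfl

theorem Y3_geo (θ : ℝ) (h0 : 0 ≤ θ) (h1 : θ < 1) (u v : ℕ) :
    ∑ i ∈ Icc u v, θ ^ (v - i) ≤ (1 - θ)⁻¹ := by
  have hsub : Icc u v ⊆ range (v + 1) := by
    intro i hi
    rw [Finset.mem_Icc] at hi
    rw [Finset.mem_range]
    omega
  calc ∑ i ∈ Icc u v, θ ^ (v - i) ≤ ∑ i ∈ range (v + 1), θ ^ (v - i) :=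
        Finset.sum_le_sum_of_subset_of_nonneg hsub fun i _ _ => pow_nonneg h0 _
    _ = ∑ i ∈ range (v + 1), θ ^ i := by
        have := Finset.sum_range_reflect (fun i => θ ^ i) (v + 1)
        rw [← this]
        refine Finset.sum_congr rfl fun i _ => ?_
        congr 1
    _ ≤ (1 - θ)⁻¹ := by
        have hs : Summable fun i => θ ^ i := summable_geometric_of_lt_one h0 h1
        rw [← tsum_geometric_of_lt_one h0 h1]
        exact hs.sum_le_tsum _ fun i _ => pow_nonneg h0 _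

theorem Y3_lin (θ : ℝ) (h0 : 0 ≤ θ) (h1 : θ < 1) (b : ℕ) :
    ((b : ℝ) + 1) * θ ^ b ≤ (1 - θ)⁻¹ := by
  have h2 : ((b : ℝ) + 1) * θ ^ b ≤ ∑ i ∈ range (b + 1), θ ^ i := by
    have h3 : ∑ i ∈ range (b + 1), θ ^ b ≤ ∑ i ∈ range (b + 1), θ ^ i := by
      refine Finset.sum_le_sum fun i hi => ?_
      rw [Finset.mem_range] at hi
      exact pow_le_pow_of_le_one h0 h1.le (by omega)
    rw [Finset.sum_const, Finset.card_range, nsmul_eq_mul] at h3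
    push_cast at h3
    exact h3
  refine h2.trans ?_
  have hs : Summable fun i => θ ^ i := summable_geometric_of_lt_one h0 h1
  rw [← tsum_geometric_of_lt_one h0 h1]
  exact hs.sum_le_tsum _ fun i _ => pow_nonneg h0 _

theorem Y3_skew_le (p : ℝ) (hp0 : 0 < p) (hp1 : p < 1) {θ w : ℝ} (hw0 : 0 < w) (hw1 : w ≤ 1)
    (hwθ : w ≤ θ) {n : ℕ} (l : Fin (n + 1) → ℕ) (m : Fin n → ℕ) (hm : m ∈ below l) :
    skew p l m w ≤ θ ^ (∑ i, l i - ∑ i, m i) := by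
  have hpx : 0 ≤ 1 - p * w := by nlinarith
  have hpx1 : 1 - p * w ≤ 1 := by nlinarith
  rw [skew_of_mem p hm]
  calc w ^ (∑ i, l i - ∑ i, m i) * (1 - p * w) ^ rr l m
      ≤ θ ^ (∑ i, l i - ∑ i, m i) * 1 := by
        apply mul_le_mul (pow_le_pow_left₀ hw0.le hwθ _) (pow_le_one₀ hpx hpx1)
          (pow_nonneg hpx _) (pow_nonneg (hw0.le.trans hwθ) _)
    _ = _ := mul_one _

theorem Y3_T20 (p : ℝ) (k : Fin 1 → ℕ) (x : ℕ → ℝ) :
    0 ≤ T2 p 0 k x ∧ T2 p 0 k x ≤ ((k 0 : ℕ) : ℝ) ^ 2 := by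
  have h : T2 p 0 k x = ((k 0 : ℕ) : ℝ) * (((k 0 - 1 : ℕ) : ℕ) : ℝ) := by
    rw [T2]
    simp only [GP]
    rw [derivative_X_pow]
    simp [derivative_X_pow]
  rw [h]
  constructor
  · positivity
  · rw [sq]
    apply mul_le_mul_of_nonneg_left _ (Nat.cast_nonneg _)
    exact_mod_cast Nat.sub_le _ _

theorem Y3_inner (p : ℝ) (hp0 : 0 < p) (hp1 : p < 1) (x : ℕ → ℝ) (hx : UnitSeq x)
    (θ : ℝ) (hθ1 : θ < 1) (h0 : x 0 ≤ θ) (m : Fin 2 → ℕ) :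
    T2 p 1 m x ≤ ((m 0 : ℕ) : ℝ) ^ 2 * θ ^ (m 1) * (1 - θ)⁻¹ := by
  have hθ0 : 0 ≤ θ := (hx 0).1.le.trans h0
  rw [T2_harm p 0 m x]
  have h1 : ∀ k ∈ below m, skew p m k (x 0) * T2 p 0 k x ≤
      (((m 0 : ℕ) : ℝ) ^ 2 * θ ^ (m 1)) * θ ^ (m 0 - k 0) := by
    intro k hk
    have hk' := mem_below.1 hk 0
    have hk1 : m 1 ≤ k 0 := hk'.1
    have hk2 : k 0 ≤ m 0 := hk'.2
    have hs := Y3_skew_le p hp0 hp1 (hx 0).1 (hx 0).2 h0 m k hk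
    have hT := Y3_T20 p k x
    have e : ∑ i, m i - ∑ i, k i = m 1 + (m 0 - k 0) := by
      simp only [Fin.sum_univ_succ, Finset.univ_unique, Fin.default_eq_zero, Finset.sum_singleton]
      have : (Fin.succ (0 : Fin 1)) = (1 : Fin 2) := rfl
      rw [this]
      omega
    rw [e, pow_add] at hs
    calc skew p m k (x 0) * T2 p 0 k x
        ≤ (θ ^ (m 1) * θ ^ (m 0 - k 0)) * ((k 0 : ℕ) : ℝ) ^ 2 :=
          mul_le_mul hs hT.2 hT.1 (by positivity)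
      _ ≤ (θ ^ (m 1) * θ ^ (m 0 - k 0)) * ((m 0 : ℕ) : ℝ) ^ 2 := by
          have : ((k 0 : ℕ) : ℝ) ≤ ((m 0 : ℕ) : ℝ) := by exact_mod_cast hk2
          gcongr
      _ = _ := by ring
  refine (Finset.sum_le_sum h1).trans ?_
  rw [← Finset.mul_sum, Y3_sum2 m fun i => θ ^ (m 0 - i)]
  exact mul_le_mul_of_nonneg_left (Y3_geo θ hθ0 hθ1 _ _) (by positivity)

theorem Y3_upper (p : ℝ) (hp0 : 0 < p) (hp1 : p < 1) (x : ℕ → ℝ) (hx : UnitSeq x)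
    (θ : ℝ) (hθ1 : θ < 1) (h0 : x 0 ≤ θ) (h1 : x 1 ≤ θ) (l : Fin 3 → ℕ) (hl : Antitone l) :
    T2 p 2 l x ≤ ((l 0 : ℕ) : ℝ) ^ 2 * θ ^ (l 1 + l 2) * ((l 1 - l 2 + 1 : ℕ) : ℝ) *
      ((1 - θ)⁻¹) ^ 2 := by
  have hθ0 : 0 ≤ θ := (hx 0).1.le.trans h0
  have hinv : 0 ≤ (1 - θ)⁻¹ := inv_nonneg.2 (by linarith)
  have hl01 : l 1 ≤ l 0 := hl (by decide)
  have hl12 : l 2 ≤ l 1 := hl (by decide)
  rw [T2_harm p 1 l x]
  have h2 : ∀ m ∈ below l, skew p l m (x 1) * T2 p 1 m x ≤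
      (((l 0 : ℕ) : ℝ) ^ 2 * θ ^ (l 1 + l 2) * (1 - θ)⁻¹) * θ ^ (l 0 - m 0) := by
    intro m hm
    have hm0 : l 1 ≤ m 0 ∧ m 0 ≤ l 0 := mem_below.1 hm 0
    have hm1 : l 2 ≤ m 1 ∧ m 1 ≤ l 1 := mem_below.1 hm 1
    have hs := Y3_skew_le p hp0 hp1 (hx 1).1 (hx 1).2 h1 l m hm
    have hT := Y3_inner p hp0 hp1 x hx θ hθ1 h0 m
    have hT0 : 0 ≤ T2 p 1 m x := T2_nonneg p 1 m x (hx.posPt hp0 hp1)
    have e : ∑ i, l i - ∑ i, m i + m 1 = (l 1 + l 2) + (l 0 - m 0) := by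
      rw [Fin.sum_univ_three, Fin.sum_univ_two]
      omega
    calc skew p l m (x 1) * T2 p 1 m x
        ≤ θ ^ (∑ i, l i - ∑ i, m i) * (((m 0 : ℕ) : ℝ) ^ 2 * θ ^ (m 1) * (1 - θ)⁻¹) :=
          mul_le_mul hs hT hT0 (by positivity)
      _ ≤ θ ^ (∑ i, l i - ∑ i, m i) * (((l 0 : ℕ) : ℝ) ^ 2 * θ ^ (m 1) * (1 - θ)⁻¹) := by
          have : ((m 0 : ℕ) : ℝ) ≤ ((l 0 : ℕ) : ℝ) := by exact_mod_cast hm0.2
          gcongr
      _ = ((l 0 : ℕ) : ℝ) ^ 2 * θ ^ (∑ i, l i - ∑ i, m i + m 1) * (1 - θ)⁻¹ := by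
          rw [pow_add]; ring
      _ = _ := by rw [e, pow_add]; ring
  refine (Finset.sum_le_sum h2).trans ?_
  rw [← Finset.mul_sum, Y3_sum3 l fun i _ => θ ^ (l 0 - i)]
  have h3 : ∑ i ∈ Icc (l 1) (l 0), ∑ _j ∈ Icc (l 2) (l 1), θ ^ (l 0 - i) =
      ((l 1 - l 2 + 1 : ℕ) : ℝ) * ∑ i ∈ Icc (l 1) (l 0), θ ^ (l 0 - i) := by
    rw [Finset.mul_sum]
    refine Finset.sum_congr rfl fun i _ => ?_
    rw [Finset.sum_const, Nat.card_Icc, nsmul_eq_mul]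
    congr 2
    omega
  rw [h3]
  have h4 := Y3_geo θ hθ0 hθ1 (l 1) (l 0)
  calc ((l 0 : ℕ) : ℝ) ^ 2 * θ ^ (l 1 + l 2) * (1 - θ)⁻¹ *
        (((l 1 - l 2 + 1 : ℕ) : ℝ) * ∑ i ∈ Icc (l 1) (l 0), θ ^ (l 0 - i))
      ≤ ((l 0 : ℕ) : ℝ) ^ 2 * θ ^ (l 1 + l 2) * (1 - θ)⁻¹ *
        (((l 1 - l 2 + 1 : ℕ) : ℝ) * (1 - θ)⁻¹) := by gcongr
    _ = _ := by ring

theorem Y3_G1 (p : ℝ) (k : Fin 1 → ℕ) : G p 1 k one = 1 := by
  rw [G]
  have : below k = {fun i => i.elim0} := by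
    ext m
    rw [mem_below, Finset.mem_singleton]
    constructor
    · intro _
      funext i
      exact i.elim0
    · intro _ i
      exact i.elim0
  rw [this, Finset.sum_singleton, skew_of_mem p (by rw [this]; simp)]
  simp [G, rr]

theorem Y3_skew_ge (p : ℝ) (hp0 : 0 < p) (hp1 : p < 1) {n : ℕ} (l : Fin (n + 1) → ℕ)
    (m : Fin n → ℕ) (hm : m ∈ below l) : (1 - p) ^ n ≤ skew p l m 1 := by
  rw [skew_of_mem p hm, one_pow, one_mul, mul_one]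
  exact pow_le_pow_of_le_one (by linarith) (by linarith) (rr_le l m)

theorem Y3_arith (A C : ℕ) :
    ∑ i ∈ range (A + 1), ∑ j ∈ range (C + 1), ((i : ℝ) + j + 1) =
      ((A : ℝ) + 1) * (C + 1) * (A + C + 2) / 2 := by
  have h1 : ∀ N : ℕ, ∑ i ∈ range (N + 1), (i : ℝ) = (N : ℝ) * (N + 1) / 2 := by
    intro N
    induction N with
    | zero => simp
    | succ N ih => rw [Finset.sum_range_succ, ih]; push_cast; ring
  have h2 : ∀ i : ℕ, ∑ j ∈ range (C + 1), ((i : ℝ) + j + 1) =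
      ((C : ℝ) + 1) * i + ((C : ℝ) * (C + 1) / 2 + (C + 1)) := by
    intro i
    rw [Finset.sum_add_distrib, Finset.sum_add_distrib, h1, Finset.sum_const, Finset.sum_const,
      Finset.card_range, nsmul_eq_mul, nsmul_eq_mul]
    push_cast
    ring
  simp only [h2]
  rw [Finset.sum_add_distrib, ← Finset.mul_sum, h1, Finset.sum_const, Finset.card_range,
    nsmul_eq_mul]
  push_cast
  ring

theorem Y3_count (a b c : ℕ) (hab : b ≤ a) (hbc : c ≤ b) :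
    ∑ i ∈ Icc b a, ∑ j ∈ Icc c b, ((i - j + 1 : ℕ) : ℝ) =
      (((a - b : ℕ) : ℝ) + 1) * (((b - c : ℕ) : ℝ) + 1) *
        (((a - b : ℕ) : ℝ) + ((b - c : ℕ) : ℝ) + 2) / 2 := by
  rw [← Y3_arith]
  refine Finset.sum_nbij' (fun i => i - b) (fun i => i + b) ?_ ?_ ?_ ?_ ?_
  · intro i hi
    rw [Finset.mem_Icc] at hi
    rw [Finset.mem_range]; omega
  · intro i hi
    rw [Finset.mem_range] at hi
    rw [Finset.mem_Icc]; omega
  · intro i hi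
    rw [Finset.mem_Icc] at hi
    try simp only
    omega
  · intro i hi
    try simp only
    omega
  · intro i hi
    rw [Finset.mem_Icc] at hi
    refine Finset.sum_nbij' (fun j => b - j) (fun j => b - j) ?_ ?_ ?_ ?_ ?_
    · intro j hj
      rw [Finset.mem_Icc] at hj
      rw [Finset.mem_range]; omega
    · intro j hj
      rw [Finset.mem_range] at hj
      rw [Finset.mem_Icc]; omega
    · intro j hj
      rw [Finset.mem_Icc] at hj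
      try simp only
      omega
    · intro j hj
      rw [Finset.mem_range] at hj
      try simp only
      omega
    · intro j hj
      rw [Finset.mem_Icc] at hj
      have : i - j + 1 = (i - b) + (b - j) + 1 := by omega
      rw [this]
      push_cast
      ring

theorem Y3_lower (p : ℝ) (hp0 : 0 < p) (hp1 : p < 1) (l : Fin 3 → ℕ) (hl : Antitone l) :
    (1 - p) ^ 3 * ((((l 0 - l 1 : ℕ) : ℝ) + 1) * (((l 1 - l 2 : ℕ) : ℝ) + 1) *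
        (((l 0 - l 1 : ℕ) : ℝ) + ((l 1 - l 2 : ℕ) : ℝ) + 2) / 2) ≤ G p 3 l one := by
  have hq : 0 < 1 - p := by linarith
  have hl01 : l 1 ≤ l 0 := hl (by decide)
  have hl12 : l 2 ≤ l 1 := hl (by decide)
  rw [G, ← Y3_count _ _ _ hl01 hl12, ← Y3_sum3 l fun i j => ((i - j + 1 : ℕ) : ℝ), Finset.mul_sum]
  refine Finset.sum_le_sum fun m hm => ?_
  have hm0 : l 1 ≤ m 0 ∧ m 0 ≤ l 0 := mem_below.1 hm 0
  have hm1 : l 2 ≤ m 1 ∧ m 1 ≤ l 1 := mem_below.1 hm 1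
  have h1 : (1 - p) * ((m 0 - m 1 + 1 : ℕ) : ℝ) ≤ G p 2 m one := by
    rw [G]
    have e : (1 - p) * ((m 0 - m 1 + 1 : ℕ) : ℝ) = ∑ k ∈ below m, (1 - p) := by
      rw [Y3_sum2 m fun _ => (1 - p), Finset.sum_const, Nat.card_Icc, nsmul_eq_mul, mul_comm]
      congr 2
      omega
    rw [e]
    refine Finset.sum_le_sum fun k hk => ?_
    rw [Y3_G1, one_mul, one_apply]
    have := Y3_skew_ge p hp0 hp1 m k hk
    rwa [pow_one] at this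
  have h2 : (1 - p) ^ 2 ≤ skew p l m (one 2) := by
    rw [one_apply]
    exact Y3_skew_ge p hp0 hp1 l m hm
  calc (1 - p) ^ 3 * ((m 0 - m 1 + 1 : ℕ) : ℝ)
      = ((1 - p) * ((m 0 - m 1 + 1 : ℕ) : ℝ)) * (1 - p) ^ 2 := by ring
    _ ≤ G p 2 m one * skew p l m (one 2) := by
        apply mul_le_mul h1 h2 (by positivity)
        exact le_trans (by positivity) h1

theorem T2_bound3 (p : ℝ) (hp0 : 0 < p) (hp1 : p < 1) (x : ℕ → ℝ) (hx : UnitSeq x)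
    (h0 : x 0 < 1) (h1 : x 1 < 1) :
    ∃ B : ℝ, 0 ≤ B ∧ ∀ l : Fin 3 → ℕ, Antitone l → T2 p 2 l x ≤ B * G p 3 l one := by
  set θ := max (x 0) (x 1) with hθ
  have hθ1 : θ < 1 := max_lt h0 h1
  have hx0 : x 0 ≤ θ := le_max_left _ _
  have hx1 : x 1 ≤ θ := le_max_right _ _
  have hθ0 : 0 ≤ θ := (hx 0).1.le.trans hx0
  have hq : 0 < 1 - p := by linarith
  have hr : 0 < 1 - θ := by linarith
  refine ⟨2 * ((1 - p)⁻¹) ^ 3 * ((1 - θ)⁻¹) ^ 4, by positivity, ?_⟩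
  intro l hl
  have hl01 : l 1 ≤ l 0 := hl (by decide)
  have hl12 : l 2 ≤ l 1 := hl (by decide)
  have hu := Y3_upper p hp0 hp1 x hx θ hθ1 hx0 hx1 l hl
  have hlo := Y3_lower p hp0 hp1 l hl
  set a : ℕ := l 0 with ha
  set b : ℕ := l 1 with hb
  set c : ℕ := l 2 with hc
  obtain ⟨A, hA⟩ : ∃ A, a = b + A := ⟨a - b, by omega⟩
  obtain ⟨Cc, hC⟩ : ∃ Cc, b = c + Cc := ⟨b - c, by omega⟩
  have e1 : a - b = A := by omega
  have e2 : b - c = Cc := by omega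
  rw [e1, e2] at hlo
  rw [e2] at hu
  have hb1 := Y3_lin θ hθ0 hθ1 b
  have hc1 := Y3_lin θ hθ0 hθ1 c
  have haR : (a : ℝ) = b + A := by rw [hA]; push_cast; ring
  have hbR : (b : ℝ) = c + Cc := by rw [hC]; push_cast; ring
  have hA0 : (0 : ℝ) ≤ A := Nat.cast_nonneg _
  have hC0 : (0 : ℝ) ≤ Cc := Nat.cast_nonneg _
  have hc0 : (0 : ℝ) ≤ c := Nat.cast_nonneg _
  have hb0 : (0 : ℝ) ≤ b := Nat.cast_nonneg _
  have ha0 : (0 : ℝ) ≤ a := Nat.cast_nonneg _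
  have ha1 : (a : ℝ) ≤ (A + 1) * (b + 1) := by rw [haR]; nlinarith
  have ha2 : (a : ℝ) ≤ (A + Cc + 2) * (c + 1) := by
    rw [haR, hbR]; nlinarith [mul_nonneg hA0 hc0, mul_nonneg hC0 hc0]
  have hsq : (a : ℝ) ^ 2 * θ ^ (b + c) ≤ ((A : ℝ) + 1) * (A + Cc + 2) * ((1 - θ)⁻¹) ^ 2 := by
    calc (a : ℝ) ^ 2 * θ ^ (b + c) = ((a : ℝ) * a) * (θ ^ b * θ ^ c) := by rw [pow_add]; ring
      _ ≤ (((A : ℝ) + 1) * (b + 1) * ((A + Cc + 2) * (c + 1))) * (θ ^ b * θ ^ c) := by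
          apply mul_le_mul_of_nonneg_right _ (by positivity)
          exact mul_le_mul ha1 ha2 ha0 (by positivity)
      _ = ((A : ℝ) + 1) * (A + Cc + 2) * ((((b : ℝ) + 1) * θ ^ b) * (((c : ℝ) + 1) * θ ^ c)) := by
          ring
      _ ≤ ((A : ℝ) + 1) * (A + Cc + 2) * ((1 - θ)⁻¹ * (1 - θ)⁻¹) := by
          apply mul_le_mul_of_nonneg_left _ (by positivity)
          exact mul_le_mul hb1 hc1 (by positivity) (by positivity)
      _ = _ := by ring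
  calc T2 p 2 l x ≤ (a : ℝ) ^ 2 * θ ^ (b + c) * ((Cc + 1 : ℕ) : ℝ) * ((1 - θ)⁻¹) ^ 2 := hu
    _ ≤ (((A : ℝ) + 1) * (A + Cc + 2) * ((1 - θ)⁻¹) ^ 2) * ((Cc + 1 : ℕ) : ℝ) *
          ((1 - θ)⁻¹) ^ 2 := by gcongr
    _ = 2 * ((1 - p)⁻¹) ^ 3 * ((1 - θ)⁻¹) ^ 4 *
          ((1 - p) ^ 3 * (((A : ℝ) + 1) * ((Cc : ℝ) + 1) * ((A : ℝ) + (Cc : ℝ) + 2) / 2)) := by
        have : ((1 - p)⁻¹) ^ 3 * (1 - p) ^ 3 = 1 := by
          rw [← mul_pow, inv_mul_cancel₀ hq.ne', one_pow]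
        push_cast
        linear_combination (-(((A : ℝ) + 1) * ((Cc : ℝ) + 1) * ((A : ℝ) + (Cc : ℝ) + 2)) *
          ((1 - θ)⁻¹) ^ 4) * this
    _ ≤ 2 * ((1 - p)⁻¹) ^ 3 * ((1 - θ)⁻¹) ^ 4 * G p 3 l one := by
        apply mul_le_mul_of_nonneg_left hlo (by positivity)

end Pool.Agent.GroB
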